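import Pool.Agent.BSI.FpI

/-!
# BSI machine layer, FpE: the numbers of successes and the estimate are polynomial time computable

`cnt` is a loop with an accumulator (`cnt ≤ K` bounds its size). `est` is a loop over the list `F` whose state has the
current vertices and edges, the remaining bits and two accumulators, numerator and denominator; the edges keep their
number (at most) and all their ends are numbers which occur in the first list, so the sizes are bounded.
-/

set_option autoImplicit false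

namespace BSI.M

open Turing Function N487b59b3 N68a2faeb Pool.Agent.Helper22 Pool.Agent.Helper6.WB Computability
  Pool.Agent.Helper47.TR

variable {α : Type} [N487b59b3 α]

theorem cnt_le (p q a1 a2 : ℕ) (V : List ℕ) (E : List (ℕ × ℕ)) (b c T m : ℕ) (w : Bool) (u v K : ℕ) (l : List Bool) :
    cnt p q a1 a2 V E b c T m w u v K l ≤ K := by
  induction K generalizing l with
  | zero => exact le_rfl
  | succ K ih =>
    have h1 : trial p q a1 a2 V E b c T w u v (l.take m) ≤ 1 := by
      unfold trial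
      split_ifs
      · exact le_rfl
      · exact Nat.zero_le 1
    have h2 := ih (l.drop m)
    rw [cnt]
    omega

/-- parameters: vertices and edges, the unary numbers `B`, `C`, `T`, `M`, and the two vertices -/
private abbrev FpECx : Type :=
  (List ℕ × List (ℕ × ℕ)) × ((List Bool × (List Bool × (List Bool × List Bool))) × (ℕ × ℕ))

/-- one trial, accumulated -/
private def FpE_step (p q a1 a2 : ℕ) (w : Bool) (s : FpECx × (List Bool × ℕ)) : FpECx × (List Bool × ℕ) :=
  (s.1, (s.2.1.drop s.1.2.1.2.2.2.length,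
    s.2.2 + trial p q a1 a2 s.1.1.1 s.1.1.2 s.1.2.1.1.length s.1.2.1.2.1.length s.1.2.1.2.2.1.length w
      s.1.2.2.1 s.1.2.2.2 (s.2.1.take s.1.2.1.2.2.2.length)))

private theorem FpE_step_iter (p q a1 a2 : ℕ) (w : Bool) (x : FpECx) (i : ℕ) (l : List Bool) (acc : ℕ) :
    (FpE_step p q a1 a2 w)^[i] (x, (l, acc)) = (x, (l.drop (i * x.2.1.2.2.2.length),
      acc + cnt p q a1 a2 x.1.1 x.1.2 x.2.1.1.length x.2.1.2.1.length x.2.1.2.2.1.length x.2.1.2.2.2.length w
        x.2.2.1 x.2.2.2 i l)) := by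
  induction i generalizing l acc with
  | zero => simp [cnt]
  | succ i ih =>
    rw [Function.iterate_succ_apply]
    have h1 : FpE_step p q a1 a2 w (x, (l, acc)) = (x, (l.drop x.2.1.2.2.2.length,
        acc + trial p q a1 a2 x.1.1 x.1.2 x.2.1.1.length x.2.1.2.1.length x.2.1.2.2.1.length w
          x.2.2.1 x.2.2.2 (l.take x.2.1.2.2.2.length))) := rfl
    rw [h1, ih]
    simp only [cnt, List.drop_drop, Prod.mk.injEq, true_and]
    refine ⟨?_, ?_⟩
    · congr 1
      ring
    · rw [add_assoc]

private theorem FpE_step_FP (p q a1 a2 : ℕ) (w : Bool) : FP (FpE_step p q a1 a2 w) := by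
  have hd : FP fun s : FpECx × (List Bool × ℕ) => s.2.1.drop s.1.2.1.2.2.2.length :=
    FP.drop (by fun_prop) (by fun_prop)
  have ht : FP fun s : FpECx × (List Bool × ℕ) => s.2.1.take s.1.2.1.2.2.2.length :=
    FP.take (by fun_prop) (by fun_prop)
  have htr := FP.trial p q a1 a2 w (V := fun s : FpECx × (List Bool × ℕ) => s.1.1.1)
    (E := fun s => s.1.1.2) (B := fun s => s.1.2.1.1) (C := fun s => s.1.2.1.2.1)
    (T := fun s => s.1.2.1.2.2.1) (u := fun s => s.1.2.2.1) (v := fun s => s.1.2.2.2)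
    (by fun_prop) (by fun_prop) (by fun_prop) (by fun_prop) (by fun_prop) (by fun_prop)
    (by fun_prop) ht
  exact FP.pair (by fun_prop) (FP.pair hd (FP.natAdd (by fun_prop) htr))

theorem FP.cnt (p q a1 a2 : ℕ) (w : Bool) {V : α → List ℕ} {E : α → List (ℕ × ℕ)} {B C T M K l : α → List Bool}
    {u v : α → ℕ}
    (hV : FP V) (hE : FP E) (hB : FP B) (hC : FP C) (hT : FP T) (hM : FP M) (hu : FP u) (hv : FP v) (hK : FP K) (hl : FP l) :
    FP fun a => BSI.M.cnt p q a1 a2 (V a) (E a) (B a).length (C a).length (T a).length (M a).length w (u a) (v a)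
      (K a).length (l a) := by
  have hit : FP fun y : List Bool × (FpECx × (List Bool × ℕ)) =>
      (FpE_step p q a1 a2 w)^[y.1.length] y.2 := by
    refine FP.iterate (FpE_step_FP p q a1 a2 w) (B := fun n => n + n) (by fun_prop) ?_
    rintro c ⟨x, l, acc⟩ i hi
    rw [FpE_step_iter]
    have h1 := sz_drop l (i * x.2.1.2.2.2.length)
    have h2 := Pool.Agent.Helper47.TR.size_add_le acc
      (BSI.M.cnt p q a1 a2 x.1.1 x.1.2 x.2.1.1.length x.2.1.2.1.length x.2.1.2.2.1.length x.2.1.2.2.2.length w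
        x.2.2.1 x.2.2.2 i l)
    have h3 := cnt_le p q a1 a2 x.1.1 x.1.2 x.2.1.1.length x.2.1.2.1.length x.2.1.2.2.1.length
      x.2.1.2.2.2.length w x.2.2.1 x.2.2.2 i l
    have h4 := length_le_sz c
    simp only [sz_pair, sz_nat] at *
    omega
  have h := hit.comp (hK.pair (((hV.pair hE).pair ((hB.pair (hC.pair (hT.pair hM))).pair (hu.pair hv))).pair
    (hl.pair (FP.const 0))))
  have h2 := FP.snd.comp (FP.snd.comp h)
  refine (congrArg FP (funext fun a => ?_)).mp h2
  simp only [FpE_step_iter, zero_add]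

/-- the vertices after the contraction -/
private theorem FpE_conV {v : α → ℕ} {V : α → List ℕ} (hv : FP v) (hV : FP V) : FP fun a => conV (v a) (V a) := by
  unfold conV
  exact Pool.Agent.G4.FP.filter_ctx' (P := fun (c : ℕ) (b : ℕ) => !(b == c)) (FP.not (Pool.Agent.G4.FP.beqNat FP.snd FP.fst)) hv hV

private theorem FpE_delE {u v : α → ℕ} {E : α → List (ℕ × ℕ)} (hu : FP u) (hv : FP v) (hE : FP E) :
    FP fun a => delE (u a) (v a) (E a) := by
  unfold delE isE
  refine Pool.Agent.G4.FP.filter_ctx' (P := fun (c : ℕ × ℕ) (b : ℕ × ℕ) =>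
    !((b.1 == c.1 && b.2 == c.2) || (b.1 == c.2 && b.2 == c.1))) ?_ (hu.pair hv) hE
  exact FP.not (FP.or (FP.and (Pool.Agent.G4.FP.beqNat (by fun_prop) (by fun_prop)) (Pool.Agent.G4.FP.beqNat (by fun_prop) (by fun_prop)))
    (FP.and (Pool.Agent.G4.FP.beqNat (by fun_prop) (by fun_prop)) (Pool.Agent.G4.FP.beqNat (by fun_prop) (by fun_prop))))

private theorem FpE_conE {u v : α → ℕ} {E : α → List (ℕ × ℕ)} (hu : FP u) (hv : FP v) (hE : FP E) :
    FP fun a => conE (u a) (v a) (E a) := by
  unfold conE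
  refine Pool.Agent.G4.FP.map_ctx' (h := fun (c : ℕ × ℕ) (e : ℕ × ℕ) =>
    ((if e.1 == c.2 then c.1 else e.1), (if e.2 == c.2 then c.1 else e.2))) ?_ (hu.pair hv)
    (FpE_delE hu hv hE)
  exact FP.pair (FP.ite (Pool.Agent.G4.FP.beqNat (by fun_prop) (by fun_prop)) (by fun_prop) (by fun_prop))
    (FP.ite (Pool.Agent.G4.FP.beqNat (by fun_prop) (by fun_prop)) (by fun_prop) (by fun_prop))

/-- the parameters of the estimate -/
private abbrev FpECp : Type := (List Bool × (List Bool × (List Bool × List Bool))) × List Bool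

/-- the graph and the accumulators -/
private abbrev FpESg : Type := (List ℕ × List (ℕ × ℕ)) × (List Bool × (ℕ × ℕ))

/-- the number of bits of one round, in unary -/
private def FpE_W (x : FpECp) : List Bool := un (x.2.length * x.1.2.2.2.length)

private theorem FpE_W_length (x : FpECp) : (FpE_W x).length = x.2.length * x.1.2.2.2.length := by
  unfold FpE_W
  rw [un_length]

/-- the counter of a round -/
private def FpE_c (p q a1 a2 : ℕ) (w : Bool) (x : FpECp) (y : FpESg) : ℕ :=
  cnt p q a1 a2 y.1.1 y.1.2 x.1.1.length (cE q a1 a2 y.1.1 y.1.2) x.1.2.2.1.length x.1.2.2.2.length w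
    (y.1.2.headD (0, 0)).1 (y.1.2.headD (0, 0)).2 x.2.length (y.2.1.take (FpE_W x).length)

/-- a round for a graph with an edge -/
private def FpE_n (p q a1 a2 : ℕ) (x : FpECp) (y : FpESg) : FpESg :=
  if decide (FpE_c p q a1 a2 false x y ≤ FpE_c p q a1 a2 true x y) then
    ((conV (y.1.2.headD (0, 0)).2 y.1.1, conE (y.1.2.headD (0, 0)).1 (y.1.2.headD (0, 0)).2 y.1.2),
      (y.2.1.drop (FpE_W x).length,
        (y.2.2.1 * (2 * x.2.length * wE p q y.1.2 (y.1.2.headD (0, 0)).1 [(y.1.2.headD (0, 0)).2]),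
        y.2.2.2 * (y.1.1.length * (y.1.1.length - 1) * q ^ y.1.2.length * FpE_c p q a1 a2 true x y))))
  else
    ((y.1.1, delE (y.1.2.headD (0, 0)).1 (y.1.2.headD (0, 0)).2 y.1.2),
      (y.2.1.drop (FpE_W x).length,
        (y.2.2.1 * (2 * x.2.length),
        y.2.2.2 * (y.1.1.length * (y.1.1.length - 1) * FpE_c p q a1 a2 false x y))))

/-- a round -/
private def FpE_r (p q a1 a2 : ℕ) (s : FpECp × FpESg) : FpECp × FpESg :=
  if s.2.1.2.isEmpty then s else (s.1, FpE_n p q a1 a2 s.1 s.2)

private theorem FpE_r_FP (p q a1 a2 : ℕ) : FP (FpE_r p q a1 a2) := by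
  have hW : FP fun s : FpECp × FpESg => FpE_W s.1 := by
    unfold FpE_W
    exact FP.unMul (by fun_prop) (by fun_prop)
  have hV : FP fun s : FpECp × FpESg => s.2.1.1 := by fun_prop
  have hE : FP fun s : FpECp × FpESg => s.2.1.2 := by fun_prop
  have hl : FP fun s : FpECp × FpESg => s.2.2.1 := by fun_prop
  have hP : FP fun s : FpECp × FpESg => s.2.2.2.1 := by fun_prop
  have hQ : FP fun s : FpECp × FpESg => s.2.2.2.2 := by fun_prop
  have hK : FP fun s : FpECp × FpESg => s.1.2 := by fun_prop
  have hh : FP fun s : FpECp × FpESg => s.2.1.2.headD (0, 0) := FP.headD hE _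
  have hu : FP fun s : FpECp × FpESg => (s.2.1.2.headD (0, 0)).1 := FP.fst.comp hh
  have hv : FP fun s : FpECp × FpESg => (s.2.1.2.headD (0, 0)).2 := FP.snd.comp hh
  have hc : ∀ w : Bool, FP fun s : FpECp × FpESg => FpE_c p q a1 a2 w s.1 s.2 := by
    intro w
    unfold FpE_c
    have hC : FP fun s : FpECp × FpESg =>
        encodeNat (8 * (s.2.1.1.length + 1) * (a1 + a2) * q ^ s.2.1.2.length) :=
      FP.bits (FP.natMul (FP.natMul (FP.natMul (FP.const 8) (FP.natAdd (FP.length hV) (FP.const 1)))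
        (FP.const (a1 + a2))) (FP.powU (FP.const q) hE))
    have h := FP.cnt p q a1 a2 w (V := fun s : FpECp × FpESg => s.2.1.1) (E := fun s => s.2.1.2)
      (B := fun s => s.1.1.1) (C := fun s => encodeNat (8 * (s.2.1.1.length + 1) * (a1 + a2) * q ^ s.2.1.2.length))
      (T := fun s => s.1.1.2.2.1) (M := fun s => s.1.1.2.2.2) (K := fun s => s.1.2)
      (l := fun s => s.2.2.1.take (FpE_W s.1).length)
      (u := fun s => (s.2.1.2.headD (0, 0)).1) (v := fun s => (s.2.1.2.headD (0, 0)).2)
      hV hE (by fun_prop) hC (by fun_prop) (by fun_prop) hu hv hK (FP.take hl hW)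
    refine (congrArg FP (funext fun s => ?_)).mp h
    rw [Pool.Agent.PQE.bits_length]
    rfl
  have hn : FP fun s : FpECp × FpESg => s.2.1.1.length := FP.length hV
  have hnn : FP fun s : FpECp × FpESg => s.2.1.1.length * (s.2.1.1.length - 1) :=
    FP.natMul hn (Pool.Agent.PQE.FP.natSub hn (FP.const 1))
  have h2K : FP fun s : FpECp × FpESg => 2 * s.1.2.length := FP.natMul (FP.const 2) (FP.length hK)
  have hd : FP fun s : FpECp × FpESg => s.2.2.1.drop (FpE_W s.1).length := FP.drop hl hW
  have hw : FP fun s : FpECp × FpESg => wE p q s.2.1.2 (s.2.1.2.headD (0, 0)).1 [(s.2.1.2.headD (0, 0)).2] :=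
    FP.wE p q hE hu (FP.cons hv (FP.const []))
  have hN : FP fun s : FpECp × FpESg => FpE_n p q a1 a2 s.1 s.2 := by
    unfold FpE_n
    refine FP.ite (FP.natLe (hc false) (hc true)) ?_ ?_
    · exact FP.pair (FP.pair (FpE_conV hv hV) (FpE_conE hu hv hE)) (FP.pair hd (FP.pair
        (FP.natMul hP (FP.natMul h2K hw))
        (FP.natMul hQ (FP.natMul (FP.natMul hnn (FP.powU (FP.const q) hE)) (hc true)))))
    · exact FP.pair (FP.pair hV (FpE_delE hu hv hE)) (FP.pair hd (FP.pair
        (FP.natMul hP h2K) (FP.natMul hQ (FP.natMul hnn (hc false)))))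
  unfold FpE_r
  exact FP.ite (FP.isEmpty hE) FP.id (FP.pair FP.fst hN)

/-! ### sizes -/

private theorem FpE_sz_filter {β : Type} [N487b59b3 β] (P : β → Bool) (l : List β) : sz (l.filter P) ≤ sz l := by
  induction l with
  | nil => simp
  | cons b l ih =>
    rw [List.filter_cons]
    split_ifs
    · simp only [sz_cons]
      omega
    · simp only [sz_cons]
      omega


private theorem FpE_size_le (n : ℕ) : Nat.size n ≤ n := by
  rw [Nat.size_le]
  exact Nat.lt_two_pow_self

private theorem FpE_pow (a i n : ℕ) (h : i ≤ n) : Nat.size (a ^ i) ≤ n * Nat.size a + 1 := by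
  have h1 := size_pow_le a i
  have h2 : i * Nat.size a ≤ n * Nat.size a := Nat.mul_le_mul_right _ h
  omega

private theorem FpE_eb_le (E : List (ℕ × ℕ)) (u : ℕ) (B : List ℕ) : (eb E u B).length ≤ E.length :=
  List.length_filter_le _ _

private theorem FpE_ec_le (E : List (ℕ × ℕ)) (u : ℕ) (B : List ℕ) : (ec E u B).length ≤ E.length :=
  List.length_filter_le _ _

private theorem FpE_wE (p q : ℕ) (E : List (ℕ × ℕ)) (u : ℕ) (B : List ℕ) (n : ℕ) (h : E.length ≤ n) :
    Nat.size (wE p q E u B) ≤ n * Nat.size p + 2 * (n * Nat.size q) + 4 := by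
  have h1 := FpE_pow q (eb E u B).length n ((FpE_eb_le E u B).trans h)
  have h2 := FpE_pow p (eb E u B).length n ((FpE_eb_le E u B).trans h)
  have h3 := FpE_pow q (ec E u B).length n ((FpE_ec_le E u B).trans h)
  have h4 : Nat.size (if decide ((eb E u B).length % 2 = 1) then q ^ (eb E u B).length + p ^ (eb E u B).length
      else q ^ (eb E u B).length - p ^ (eb E u B).length) ≤ n * Nat.size q + 1 + (n * Nat.size p + 1) + 1 := by
    split_ifs
    · have h5 := Pool.Agent.Helper6.WB.size_add_le (q ^ (eb E u B).length) (p ^ (eb E u B).length)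
      omega
    · have h5 : Nat.size (q ^ (eb E u B).length - p ^ (eb E u B).length) ≤
        Nat.size (q ^ (eb E u B).length) := Nat.size_le_size (Nat.sub_le _ _)
      omega
  have h6 := Pool.Agent.Helper6.WB.size_mul_le (if decide ((eb E u B).length % 2 = 1) then
      q ^ (eb E u B).length + p ^ (eb E u B).length
      else q ^ (eb E u B).length - p ^ (eb E u B).length) (q ^ (ec E u B).length)
  unfold wE
  omega

/-- the invariant of the edges -/
private def FpE_I (n x : ℕ) (E : List (ℕ × ℕ)) : Prop :=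
  E.length ≤ n ∧ ∀ e ∈ E, Nat.size e.1 ≤ x ∧ Nat.size e.2 ≤ x

private theorem FpE_I_self (E : List (ℕ × ℕ)) : FpE_I E.length (sz E) E := by
  refine ⟨le_rfl, ?_⟩
  induction E with
  | nil =>
    intro e he
    exact absurd he (List.not_mem_nil)
  | cons f E ih =>
    intro e he
    rcases List.mem_cons.mp he with rfl | he
    · obtain ⟨e1, e2⟩ := e
      simp only [sz_cons, sz_pair, sz_nat]
      omega
    · have h1 := ih e he
      simp only [sz_cons]
      omega

private theorem FpE_I_sz (n x : ℕ) (E : List (ℕ × ℕ)) (h : FpE_I n x E) : sz E ≤ n * (6 * x + 3) := by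
  obtain ⟨h1, h2⟩ := h
  have h3 : sz E ≤ E.length * (6 * x + 3) := by
    clear h1
    induction E with
    | nil => simp
    | cons e E ih =>
      have h4 := h2 e List.mem_cons_self
      have h5 := ih fun f hf => h2 f (List.mem_cons_of_mem _ hf)
      obtain ⟨e1, e2⟩ := e
      simp only [sz_cons, sz_pair, sz_nat, List.length_cons] at *
      have h6 : (E.length + 1) * (6 * x + 3) = E.length * (6 * x + 3) + (6 * x + 3) := by ring
      omega
  exact h3.trans (Nat.mul_le_mul_right _ h1)

private theorem FpE_I_del (n x : ℕ) (E : List (ℕ × ℕ)) (h : FpE_I n x E) (u v : ℕ) : FpE_I n x (delE u v E) :=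
  ⟨(List.length_filter_le _ _).trans h.1, fun e he => h.2 e (List.mem_filter.mp he).1⟩

private theorem FpE_I_con (n x : ℕ) (E : List (ℕ × ℕ)) (h : FpE_I n x E) (u v : ℕ) (hu : Nat.size u ≤ x) :
    FpE_I n x (conE u v E) := by
  have h1 := FpE_I_del n x E h u v
  refine ⟨?_, ?_⟩
  · unfold conE
    rw [List.length_map]
    exact h1.1
  · intro e he
    unfold conE at he
    obtain ⟨f, hf, rfl⟩ := List.mem_map.mp he
    have h2 := h1.2 f hf
    refine ⟨?_, ?_⟩
    · show Nat.size (if f.1 == v then u else f.1) ≤ x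
      split_ifs
      · exact hu
      · exact h2.1
    · show Nat.size (if f.2 == v then u else f.2) ≤ x
      split_ifs
      · exact hu
      · exact h2.2

/-- the bound of the size of a factor -/
private def FpE_fac (p q n k v : ℕ) : ℕ := n * Nat.size p + 2 * (n * Nat.size q) + 2 * k + 2 * v + 7

private theorem FpE_n_sz (p q a1 a2 : ℕ) (x : FpECp) (y : FpESg) (n z v : ℕ) (hI : FpE_I n z y.1.2)
    (hne : y.1.2 ≠ []) (hv : y.1.1.length ≤ v) :
    FpE_I n z (FpE_n p q a1 a2 x y).1.2 ∧ sz (FpE_n p q a1 a2 x y).1.1 ≤ sz y.1.1 ∧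
      (FpE_n p q a1 a2 x y).1.1.length ≤ v ∧ (FpE_n p q a1 a2 x y).2.1.length ≤ y.2.1.length ∧
      Nat.size (FpE_n p q a1 a2 x y).2.2.1 ≤ Nat.size y.2.2.1 + FpE_fac p q n x.2.length v ∧
      Nat.size (FpE_n p q a1 a2 x y).2.2.2 ≤ Nat.size y.2.2.2 + FpE_fac p q n x.2.length v := by
  have hu : Nat.size (y.1.2.headD (0, 0)).1 ≤ z := by
    cases hE : y.1.2 with
    | nil => exact absurd hE hne
    | cons e E =>
      have h1 := hI.2 e (by rw [hE]; exact List.mem_cons_self)
      simpa using h1.1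
  have hl : (y.2.1.drop (FpE_W x).length).length ≤ y.2.1.length := by
    rw [List.length_drop]
    omega
  have h2k : Nat.size (2 * x.2.length) ≤ 2 * x.2.length := FpE_size_le _
  have hvv : Nat.size (y.1.1.length * (y.1.1.length - 1)) ≤ 2 * v := by
    have h1 := Pool.Agent.Helper6.WB.size_mul_le y.1.1.length (y.1.1.length - 1)
    have h2 := FpE_size_le y.1.1.length
    have h3 := FpE_size_le (y.1.1.length - 1)
    omega
  have hcc : ∀ w : Bool, Nat.size (FpE_c p q a1 a2 w x y) ≤ x.2.length := by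
    intro w
    exact (FpE_size_le _).trans (cnt_le _ _ _ _ _ _ _ _ _ _ _ _ _ _ _)
  unfold FpE_n
  split_ifs
  · refine ⟨FpE_I_con n z _ hI _ _ hu, ?_, (List.length_filter_le _ _).trans hv, hl, ?_, ?_⟩
    · exact FpE_sz_filter _ _
    · show Nat.size (y.2.2.1 * (2 * x.2.length * wE p q y.1.2 (y.1.2.headD (0, 0)).1
        [(y.1.2.headD (0, 0)).2])) ≤ _
      have h1 := Pool.Agent.Helper6.WB.size_mul_le y.2.2.1 (2 * x.2.length * wE p q y.1.2
        (y.1.2.headD (0, 0)).1 [(y.1.2.headD (0, 0)).2])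
      have h2 := Pool.Agent.Helper6.WB.size_mul_le (2 * x.2.length) (wE p q y.1.2
        (y.1.2.headD (0, 0)).1 [(y.1.2.headD (0, 0)).2])
      have h3 := FpE_wE p q y.1.2 (y.1.2.headD (0, 0)).1 [(y.1.2.headD (0, 0)).2] n hI.1
      unfold FpE_fac
      omega
    · show Nat.size (y.2.2.2 * (y.1.1.length * (y.1.1.length - 1) * q ^ y.1.2.length *
        FpE_c p q a1 a2 true x y)) ≤ _
      have h1 := Pool.Agent.Helper6.WB.size_mul_le y.2.2.2 (y.1.1.length * (y.1.1.length - 1) *
        q ^ y.1.2.length * FpE_c p q a1 a2 true x y)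
      have h2 := Pool.Agent.Helper6.WB.size_mul_le (y.1.1.length * (y.1.1.length - 1) *
        q ^ y.1.2.length) (FpE_c p q a1 a2 true x y)
      have h3 := Pool.Agent.Helper6.WB.size_mul_le (y.1.1.length * (y.1.1.length - 1))
        (q ^ y.1.2.length)
      have h4 := FpE_pow q y.1.2.length n hI.1
      have h5 := hcc true
      unfold FpE_fac
      omega
  · refine ⟨FpE_I_del n z _ hI _ _, le_rfl, hv, hl, ?_, ?_⟩
    · show Nat.size (y.2.2.1 * (2 * x.2.length)) ≤ _
      have h1 := Pool.Agent.Helper6.WB.size_mul_le y.2.2.1 (2 * x.2.length)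
      unfold FpE_fac
      omega
    · show Nat.size (y.2.2.2 * (y.1.1.length * (y.1.1.length - 1) * FpE_c p q a1 a2 false x y)) ≤ _
      have h1 := Pool.Agent.Helper6.WB.size_mul_le y.2.2.2 (y.1.1.length * (y.1.1.length - 1) *
        FpE_c p q a1 a2 false x y)
      have h2 := Pool.Agent.Helper6.WB.size_mul_le (y.1.1.length * (y.1.1.length - 1))
        (FpE_c p q a1 a2 false x y)
      have h5 := hcc false
      unfold FpE_fac
      omega

private theorem FpE_r_iter (p q a1 a2 : ℕ) (s : FpECp × FpESg) (i : ℕ) :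
    ∃ y : FpESg, (FpE_r p q a1 a2)^[i] s = (s.1, y) ∧ FpE_I s.2.1.2.length (sz s.2.1.2) y.1.2 ∧
      sz y.1.1 ≤ sz s.2.1.1 ∧ y.1.1.length ≤ s.2.1.1.length ∧ y.2.1.length ≤ s.2.2.1.length ∧
      Nat.size y.2.2.1 ≤ Nat.size s.2.2.2.1 + i * FpE_fac p q s.2.1.2.length s.1.2.length s.2.1.1.length ∧
      Nat.size y.2.2.2 ≤ Nat.size s.2.2.2.2 + i * FpE_fac p q s.2.1.2.length s.1.2.length s.2.1.1.length := by
  induction i with
  | zero => exact ⟨s.2, rfl, FpE_I_self _, le_rfl, le_rfl, le_rfl, by simp, by simp⟩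
  | succ i ih =>
    obtain ⟨y, h1, h2, h3, h4, h5, h6, h7⟩ := ih
    have h8 : (i + 1) * FpE_fac p q s.2.1.2.length s.1.2.length s.2.1.1.length =
        i * FpE_fac p q s.2.1.2.length s.1.2.length s.2.1.1.length +
          FpE_fac p q s.2.1.2.length s.1.2.length s.2.1.1.length := by ring
    by_cases hE : y.1.2 = []
    · refine ⟨y, ?_, h2, h3, h4, h5, by omega, by omega⟩
      rw [Function.iterate_succ_apply', h1]
      unfold FpE_r
      simp [hE]
    · obtain ⟨k1, k2, k3, k4, k5, k6⟩ := FpE_n_sz p q a1 a2 s.1 y s.2.1.2.length (sz s.2.1.2)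
        s.2.1.1.length h2 hE h4
      refine ⟨FpE_n p q a1 a2 s.1 y, ?_, k1, k2.trans h3, k3, k4.trans h5, by omega, by omega⟩
      rw [Function.iterate_succ_apply', h1]
      unfold FpE_r
      rw [if_neg]
      simp [hE]

/-- the end of the computation -/
private def FpE_f (a1 a2 : ℕ) (y : FpESg) : ℕ × ℕ :=
  (y.2.2.1 * a1 ^ y.1.1.tail.length, y.2.2.2 * a2 ^ y.1.1.tail.length)

private theorem FpE_run (p q a1 a2 : ℕ) (x : FpECp) (F : ℕ) :
    ∀ (V : List ℕ) (E : List (ℕ × ℕ)) (l : List Bool) (P Q : ℕ),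
      FpE_f a1 a2 ((FpE_r p q a1 a2)^[F] (x, ((V, E), (l, (P, Q))))).2 =
        (P * (est p q a1 a2 x.1.1.length x.1.2.2.1.length x.1.2.2.2.length x.2.length F V E l).1,
         Q * (est p q a1 a2 x.1.1.length x.1.2.2.1.length x.1.2.2.2.length x.2.length F V E l).2) := by
  induction F with
  | zero =>
    intro V E l P Q
    simp only [Function.iterate_zero, id_eq, est, FpE_f, List.length_tail]
  | succ F ih =>
    intro V E l P Q
    cases E with
    | nil =>
      have h1 : FpE_r p q a1 a2 (x, ((V, []), (l, (P, Q)))) = (x, ((V, []), (l, (P, Q)))) := by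
        unfold FpE_r
        simp
      rw [Function.iterate_fixed h1]
      simp only [est, FpE_f, List.length_tail]
    | cons e E =>
      rw [Function.iterate_succ_apply]
      have h1 : FpE_r p q a1 a2 (x, ((V, e :: E), (l, (P, Q)))) =
          (x, FpE_n p q a1 a2 x ((V, e :: E), (l, (P, Q)))) := by
        unfold FpE_r
        simp
      rw [h1, est]
      by_cases hc : cnt p q a1 a2 V (e :: E) x.1.1.length (cE q a1 a2 V (e :: E)) x.1.2.2.1.length x.1.2.2.2.length
          false e.1 e.2 x.2.length (l.take (x.2.length * x.1.2.2.2.length)) ≤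
          cnt p q a1 a2 V (e :: E) x.1.1.length (cE q a1 a2 V (e :: E)) x.1.2.2.1.length x.1.2.2.2.length
          true e.1 e.2 x.2.length (l.take (x.2.length * x.1.2.2.2.length))
      · have h2 : FpE_n p q a1 a2 x ((V, e :: E), (l, (P, Q))) = ((conV e.2 V, conE e.1 e.2 (e :: E)),
            (l.drop (x.2.length * x.1.2.2.2.length),
            (P * (2 * x.2.length * wE p q (e :: E) e.1 [e.2]),
            Q * (V.length * (V.length - 1) * q ^ (e :: E).length * cnt p q a1 a2 V (e :: E) x.1.1.length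
              (cE q a1 a2 V (e :: E)) x.1.2.2.1.length x.1.2.2.2.length
              true e.1 e.2 x.2.length (l.take (x.2.length * x.1.2.2.2.length)))))) := by
          unfold FpE_n FpE_c
          simp only [FpE_W_length, List.headD_cons]
          rw [if_pos (decide_eq_true hc)]
        rw [h2, if_pos hc, ih]
        refine Prod.ext ?_ ?_
        · exact mul_assoc _ _ _
        · exact mul_assoc _ _ _
      · have h2 : FpE_n p q a1 a2 x ((V, e :: E), (l, (P, Q))) = ((V, delE e.1 e.2 (e :: E)),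
            (l.drop (x.2.length * x.1.2.2.2.length),
            (P * (2 * x.2.length),
            Q * (V.length * (V.length - 1) * cnt p q a1 a2 V (e :: E) x.1.1.length
              (cE q a1 a2 V (e :: E)) x.1.2.2.1.length x.1.2.2.2.length
              false e.1 e.2 x.2.length (l.take (x.2.length * x.1.2.2.2.length)))))) := by
          unfold FpE_n FpE_c
          simp only [FpE_W_length, List.headD_cons]
          rw [if_neg (fun h => hc (of_decide_eq_true h))]
        rw [h2, if_neg hc, ih]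
        refine Prod.ext ?_ ?_
        · exact mul_assoc _ _ _
        · exact mul_assoc _ _ _

theorem FP.est (p q a1 a2 : ℕ) {V : α → List ℕ} {E : α → List (ℕ × ℕ)} {B T M K F l : α → List Bool}
    (hB : FP B) (hT : FP T) (hM : FP M) (hK : FP K) (hF : FP F) (hV : FP V) (hE : FP E) (hl : FP l) :
    FP fun a => BSI.M.est p q a1 a2 (B a).length (T a).length (M a).length (K a).length (F a).length
      (V a) (E a) (l a) := by
  have h1 : FP fun y : List Bool × (FpECp × FpESg) => (FpE_r p q a1 a2)^[y.1.length] y.2 := by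
    refine FP.iterate (FpE_r_FP p q a1 a2)
      (B := fun n => 20 * n + 20 + 2 * (n * (6 * n + 3)) +
        3 * (n * (n * Nat.size p + 2 * (n * Nat.size q) + 2 * n + 2 * n + 7))) (by fun_prop) ?_
    intro lst s i hi
    obtain ⟨y, h2, h3, h4, -, h5, h6, h7⟩ := FpE_r_iter p q a1 a2 s i
    rw [h2]
    have h8 := FpE_I_sz _ _ _ h3
    obtain ⟨x, ⟨V0, E0⟩, l0, P0, Q0⟩ := s
    obtain ⟨⟨V1, E1⟩, l1, P1, Q1⟩ := y
    have e1 := length_le_sz V0
    have e2 := length_le_sz E0
    have e3 : x.2.length ≤ sz x := by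
      obtain ⟨x1, x2⟩ := x
      have g1 := length_le_sz x2
      rw [sz_pair]
      simp only
      omega
    have e4 : i ≤ sz lst := hi.trans (length_le_sz lst)
    generalize hN : sz lst + sz ((x, ((V0, E0), (l0, (P0, Q0)))) : FpECp × FpESg) = N
    simp only [sz_pair, sz_nat, sz_bits] at h2 h3 h4 h5 h6 h7 h8 e1 e2 e3 hN ⊢
    have e5 : FpE_fac p q E0.length x.2.length V0.length ≤
        N * Nat.size p + 2 * (N * Nat.size q) + 2 * N + 2 * N + 7 := by
      unfold FpE_fac
      have g1 : E0.length * Nat.size p ≤ N * Nat.size p := Nat.mul_le_mul_right _ (by omega)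
      have g2 : E0.length * Nat.size q ≤ N * Nat.size q := Nat.mul_le_mul_right _ (by omega)
      omega
    have e6 : i * FpE_fac p q E0.length x.2.length V0.length ≤
        N * (N * Nat.size p + 2 * (N * Nat.size q) + 2 * N + 2 * N + 7) :=
      Nat.mul_le_mul (by omega) e5
    have e7 : E0.length * (6 * sz E0 + 3) ≤ N * (6 * N + 3) := Nat.mul_le_mul (by omega) (by omega)
    generalize N * (N * Nat.size p + 2 * (N * Nat.size q) + 2 * N + 2 * N + 7) = R at e6 ⊢
    generalize N * (6 * N + 3) = R' at e7 ⊢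
    omega
  have h2 := h1.comp (hF.pair (((hB.pair ((FP.const []).pair (hT.pair hM))).pair hK).pair
    ((hV.pair hE).pair (hl.pair ((FP.const 1).pair (FP.const 1))))))
  have h3 : FP fun a => ((FpE_r p q a1 a2)^[(F a).length] (((B a, ([], (T a, M a))), K a),
    ((V a, E a), (l a, (1, 1))))).2 := FP.snd.comp h2
  have h4 : FP (FpE_f a1 a2) := by
    unfold FpE_f
    exact FP.pair (FP.natMul (by fun_prop) (FP.powU (FP.const a1) (FP.tail (by fun_prop))))
      (FP.natMul (by fun_prop) (FP.powU (FP.const a2) (FP.tail (by fun_prop))))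
  have h5 := h4.comp h3
  refine (congrArg FP (funext fun a => ?_)).mp h5
  rw [FpE_run, one_mul, one_mul]

end BSI.M
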