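import Pool.Agent.BSI.Top
import Pool.Agent.BSI.FpE

/-!
# BSI machine layer, FpTop: the whole estimate is polynomial time computable, the number of random bits is polynomial
-/

set_option autoImplicit false

namespace BSI.M

open Turing Function N487b59b3 N68a2faeb Pool.Agent.Helper22 Pool.Agent.Helper6.WB Computability
  Pool.Agent.Helper47.TR ACY ACY.M

variable {α : Type} [N487b59b3 α]

/-- the number of steps, a polynomial -/
noncomputable def qT (A q D : ℕ) : Polynomial ℕ :=
  Polynomial.C (73728 * A * q ^ 2 * D) * Polynomial.X ^ (D + 4) *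
    (Polynomial.X * (Polynomial.C 3 * Polynomial.X + Polynomial.C (1 + A + q)) + Polynomial.C 8 * Polynomial.X +
      Polynomial.C 8)

/-- the number of bits of a random number, a polynomial -/
noncomputable def qB (A q : ℕ) : Polynomial ℕ :=
  Polynomial.C (3 + A) + Polynomial.X + Polynomial.C q * Polynomial.X

/-- the number of random bits of a trial, a polynomial -/
noncomputable def qM (A q D : ℕ) : Polynomial ℕ :=
  qT A q D * (Polynomial.X + (Polynomial.C 2 + (Polynomial.X * qB A q + qB A q)))

/-- the number of trials, a polynomial -/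
noncomputable def qK : Polynomial ℕ := Polynomial.C 2048 * Polynomial.X ^ 9

/-- the number of random bits, a polynomial -/
noncomputable def qR (A q D : ℕ) : Polynomial ℕ := Polynomial.X * (qK * qM A q D)

theorem qT_eval (A q D t : ℕ) : (qT A q D).eval t = pT A q D t := by
  simp only [qT, Polynomial.eval_mul, Polynomial.eval_add, Polynomial.eval_C, Polynomial.eval_pow,
    Polynomial.eval_X]
  unfold pT pC pW
  ring

theorem qB_eval (A q t : ℕ) : (qB A q).eval t = pB A q t := by
  simp only [qB, Polynomial.eval_mul, Polynomial.eval_add, Polynomial.eval_C, Polynomial.eval_X]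
  unfold pB
  ring

theorem qM_eval (A q D t : ℕ) : (qM A q D).eval t = pM A q D t := by
  simp only [qM, Polynomial.eval_mul, Polynomial.eval_add, Polynomial.eval_C, Polynomial.eval_X, qT_eval, qB_eval]
  unfold pM
  ring

theorem qK_eval (t : ℕ) : qK.eval t = pK t := by
  simp only [qK, Polynomial.eval_mul, Polynomial.eval_C, Polynomial.eval_pow, Polynomial.eval_X]
  rfl

theorem qR_eval (A q D t : ℕ) : (qR A q D).eval t = t * (pK t * pM A q D t) := by
  simp only [qR, Polynomial.eval_mul, Polynomial.eval_X, qK_eval, qM_eval]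

theorem qR_mono (A q D : ℕ) {t u : ℕ} (h : t ≤ u) : (qR A q D).eval t ≤ (qR A q D).eval u := by
  rw [qR_eval, qR_eval]
  unfold pK pM pT pC pW pB
  gcongr

/-- the estimate for the parameter `t` -/
noncomputable def estT (p q a1 a2 D t : ℕ) (V : List ℕ) (E : List (ℕ × ℕ)) (l : List Bool) : ℕ × ℕ :=
  est p q a1 a2 (Nat.size t) (pT (a1 + a2) q D t) (pM (a1 + a2) q D t) (pK t) E.length V E l

theorem FP.estT (p q a1 a2 D : ℕ) {t : α → List Bool} {V : α → List ℕ} {E : α → List (ℕ × ℕ)} {l : α → List Bool}
    (ht : FP t) (hV : FP V) (hE : FP E) (hl : FP l) :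
    FP fun a => BSI.M.estT p q a1 a2 D (t a).length (V a) (E a) (l a) := by
  have hB : FP fun a => encodeNat (t a).length := FP.bits (FP.length ht)
  have hT := FP.un_poly ht (qT (a1 + a2) q D)
  have hM := FP.un_poly ht (qM (a1 + a2) q D)
  have hK := FP.un_poly ht qK
  have hF := FP.un_length hE
  have h := FP.est p q a1 a2 hB hT hM hK hF hV hE hl
  refine (congrArg FP (funext fun a => ?_)).mp h
  simp only [un_length, qT_eval, qM_eval, qK_eval, Pool.Agent.PQE.bits_length]
  rfl

/-- only the first bits are used -/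
theorem est_take (p q a1 a2 b T m K : ℕ) (F N : ℕ) (V : List ℕ) (E : List (ℕ × ℕ)) (l : List Bool)
    (hN : F * (K * m) ≤ N) : est p q a1 a2 b T m K F V E (l.take N) = est p q a1 a2 b T m K F V E l := by
  induction F generalizing N V E l with
  | zero => rfl
  | succ F ih =>
    cases E with
    | nil => rfl
    | cons e E =>
      have h1 : K * m ≤ N := le_trans (Nat.le_mul_of_pos_left _ (Nat.succ_pos F)) hN
      have h2 : F * (K * m) ≤ N - K * m := by
        rw [Nat.succ_mul] at hN
        omega
      rw [est, est, List.take_take, min_eq_left h1, List.drop_take, ih _ _ _ _ h2, ih _ _ _ _ h2]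

private theorem FpTop_pr_take {m n : ℕ} (h : m ≤ n) (P : List Bool → Prop) :
    ACY.M.pr n (fun l => P (l.take m)) = ACY.M.pr m P := by
  classical
  unfold ACY.M.pr
  exact av_take h (fun l => if P l then (1 : ℝ) else 0)

/-- the estimate is close to the partition function for three quarters of the bit strings -/
theorem est_rand {p q a1 a2 D t : ℕ} {th : ℕ → ℝ} (hpq : p < q) (ha2 : 0 < a2) (hth : ∀ k, 1 ≤ th k)
    (hD : ∀ n : ℕ, 1 ≤ n → ∏ k ∈ Finset.Icc 3 n, th k ≤ D * (n : ℝ) ^ D)
    (hmx : Mx p q a1 a2 th) (hi : Hi p q a1 a2) {V : List ℕ} {E : List (ℕ × ℕ)} (hG : Gr V E) (hV : V ≠ [])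
    (hn : V.length ≤ t) (hE : E.length ≤ t) (h0 : 0 < tauM p q a1 a2 V E) {N : ℕ}
    (hN : (qR (a1 + a2) q D).eval t ≤ N) :
    ACY.M.pr N (fun l => ¬ ((estT p q a1 a2 D t V E l).2 ≠ 0 ∧
      RC (1 / t) (((estT p q a1 a2 D t V E l).1 : ℝ) / (estT p q a1 a2 D t V E l).2) (tauM p q a1 a2 V E))) ≤ 1 / 4 := by
  have h := est_top hpq ha2 hth hD hmx hi hG hV hn hE h0
  have h1 : E.length * (pK t * pM (a1 + a2) q D t) ≤ N := by
    rw [qR_eval] at hN
    exact le_trans (Nat.mul_le_mul_right _ hE) hN
  rw [← FpTop_pr_take h1] at h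
  refine le_trans (le_of_eq ?_) h
  congr 1
  funext l
  rw [est_take _ _ _ _ _ _ _ _ _ _ _ _ _ le_rfl]
  rfl

end BSI.M
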