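import Pool.Agent.BSI.Lbl
import Pool.Agent.AAG.Rec

/-!
# BSI-Hub: the partition function is the hub partition function of DFP

PLAN. `T_rowY` by induction on `J.card`, for all `s` (and all `r`). `J = ∅`: `T_single`, `Pool.Agent.AAG.hub_empty`. `J ≠ ∅`: both sides satisfy the telescoping identity. Right side: `DFP.hub_tel a hs J s (fun _ => 1)`,
`DFP.hub_one`, `DFP.F_eq_hub` (with any `y ∈ J`). Left side: for `k : ℕ` let `s_k x = if x < k then s x else 1`; for `k` large `s_k = s` on `J`, `s_0 = 1`. From `k` to `k + 1` only the label of `k` changes: if `k ∈ J`, by `T_dc` with `u = r`, `v = k`,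
`T (s_{k+1}) = T (s_k) + (1 - s k) * T (conY r k (rowY w r s_{k+1})) (insert r (J.erase k), ∅)`, and `conY r k (rowY w r s_{k+1})` has the labels of `rowY w r (fun x => w k x * if x < k then s x else 1)` between different vertices of
`insert r (J.erase k)` (`T_congr` with `σ = id` and no blocks), so it is `hub a w (J.erase k) (..)` by the induction hypothesis. Sum over `k` (induction on `k`, `∑ y ∈ J.filter (· < k), ..`). `T (s_0) = a * T (rowY ..) (J, ∅)` by `T_one` and `J = insert y (J.erase y)` with the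
row `w y`: the induction hypothesis for `r := y`, `J.erase y`, `s := w y` (labels again by `T_congr`). `T_hub`: `T_rowY` with `s = w r`.
-/

set_option autoImplicit false

namespace BSI

open Finset ACY

/-- the labels: the row `s` for the vertex `r`, otherwise `w` -/
noncomputable def rowY (w : ℕ → ℕ → ℚ) (r : ℕ) (s : ℕ → ℚ) (x z : ℕ) : ℝ :=
  if x = r then (s z : ℝ) else if z = r then (s x : ℝ) else (w x z : ℝ)

private theorem hub_wf (V : Finset ℕ) : Wf (V, (∅ : Finset (Finset ℕ))) :=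
  ⟨fun _ hB => absurd hB (Finset.notMem_empty _), fun _ hB => absurd hB (Finset.notMem_empty _),
    fun _ hB => absurd hB (Finset.notMem_empty _)⟩

private theorem hub_cg {Y Y' : ℕ → ℕ → ℝ} {a : ℝ} {V : Finset ℕ}
    (h : ∀ x ∈ V, ∀ z ∈ V, x ≠ z → Y x z = Y' x z) : T Y a (V, ∅) = T Y' a (V, ∅) :=
  T_congr (hub_wf V) (hub_wf V) rfl id (Set.bijOn_id _)
    (fun _ _ B hB => absurd hB (Finset.notMem_empty B)) h

private theorem hub_symm {w : ℕ → ℕ → ℚ} (hs : ∀ x y, w x y = w y x) (r : ℕ) (s : ℕ → ℚ) (x z : ℕ) :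
    rowY w r s x z = rowY w r s z x := by
  unfold rowY
  by_cases hx : x = r
  · by_cases hz : z = r
    · rw [if_pos hx, if_pos hz, hx, hz]
    · rw [if_pos hx, if_neg hz, if_pos hx]
  · by_cases hz : z = r
    · rw [if_neg hx, if_pos hz, if_pos hz]
    · rw [if_neg hx, if_neg hz, if_neg hz, if_neg hx, hs x z]

private theorem hub_r {w : ℕ → ℕ → ℚ} {r : ℕ} {s : ℕ → ℚ} (z : ℕ) : rowY w r s r z = (s z : ℝ) := if_pos rfl

private theorem hub_l {w : ℕ → ℕ → ℚ} {r : ℕ} {s : ℕ → ℚ} {x : ℕ} (hx : x ≠ r) : rowY w r s x r = (s x : ℝ) := by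
  unfold rowY
  rw [if_neg hx, if_pos rfl]

private theorem hub_n {w : ℕ → ℕ → ℚ} {r : ℕ} {s : ℕ → ℚ} {x z : ℕ} (hx : x ≠ r) (hz : z ≠ r) :
    rowY w r s x z = (w x z : ℝ) := by
  unfold rowY
  rw [if_neg hx, if_neg hz]

/-- rows which agree on `J` -/
private theorem hub_row {w : ℕ → ℕ → ℚ} {a : ℝ} {r : ℕ} {J : Finset ℕ} {s s' : ℕ → ℚ}
    (h : ∀ x ∈ J, s x = s' x) : T (rowY w r s) a (insert r J, ∅) = T (rowY w r s') a (insert r J, ∅) := by
  refine hub_cg fun x hx z hz hne => ?_
  by_cases h1 : x = r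
  · have hz' : z ∈ J := by
      rcases Finset.mem_insert.1 hz with h2 | h2
      · exact absurd (h1.trans h2.symm) hne
      · exact h2
    rw [h1, hub_r, hub_r, h z hz']
  · by_cases h2 : z = r
    · have hx' : x ∈ J := by
        rcases Finset.mem_insert.1 hx with h3 | h3
        · exact absurd h3 h1
        · exact h3
      rw [h2, hub_l h1, hub_l h1, h x hx']
    · rw [hub_n h1 h2, hub_n h1 h2]

/-- the truncated row -/
private def hub_sk (s : ℕ → ℚ) (k x : ℕ) : ℚ := if x < k then s x else 1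

/-- the row after the contraction -/
private def hub_ck (w : ℕ → ℕ → ℚ) (s : ℕ → ℚ) (y x : ℕ) : ℚ := w y x * if x < y then s x else 1

private theorem hub_sk_succ {s : ℕ → ℚ} {k x : ℕ} (h : x ≠ k) : hub_sk s (k + 1) x = hub_sk s k x := by
  unfold hub_sk
  by_cases h1 : x < k
  · rw [if_pos h1, if_pos (by omega)]
  · rw [if_neg h1, if_neg (by omega)]

private theorem hub_step (a : ℚ) {w : ℕ → ℕ → ℚ} (hs : ∀ x y, w x y = w y x) {r : ℕ} {J : Finset ℕ} (hr : r ∉ J)
    (s : ℕ → ℚ) {k : ℕ} (hk : k ∈ J) :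
    T (rowY w r (hub_sk s (k + 1))) (a : ℝ) (insert r J, ∅) =
      T (rowY w r (hub_sk s k)) (a : ℝ) (insert r J, ∅) +
        (1 - (s k : ℝ)) * T (rowY w r (hub_ck w s k)) (a : ℝ) (insert r (J.erase k), ∅) := by
  have hrk : r ≠ k := fun h => hr (h ▸ hk)
  have h1 := T_dc (a := (a : ℝ)) (Y := rowY w r (hub_sk s (k + 1))) (Y' := rowY w r (hub_sk s k))
    (hub_symm hs r _) (hub_symm hs r _) (Finset.mem_insert_self r J) (Finset.mem_insert_of_mem hk) hrk ?_
  · rw [h1]
    congr 1
    rw [hub_r, hub_r, Finset.erase_insert_of_ne hrk]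
    have e1 : hub_sk s k k = 1 := if_neg (lt_irrefl k)
    have e2 : hub_sk s (k + 1) k = s k := if_pos (Nat.lt_succ_self k)
    rw [e1, e2, Rat.cast_one]
    congr 1
    refine hub_cg fun x hx z hz hne => ?_
    by_cases hxr : x = r
    · have hz' : z ∈ J.erase k := by
        rcases Finset.mem_insert.1 hz with h2 | h2
        · exact absurd (hxr.trans h2.symm) hne
        · exact h2
      have hzk := Finset.ne_of_mem_erase hz'
      have hzr : z ≠ r := fun h => hr (h ▸ Finset.mem_of_mem_erase hz')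
      unfold conY
      rw [if_pos hxr, hxr, hub_r, hub_r, hub_n hrk.symm hzr, hub_sk_succ hzk]
      unfold hub_sk hub_ck
      push_cast
      ring
    · by_cases hzr : z = r
      · have hx' : x ∈ J.erase k := by
          rcases Finset.mem_insert.1 hx with h3 | h3
          · exact absurd h3 hxr
          · exact h3
        have hxk := Finset.ne_of_mem_erase hx'
        unfold conY
        rw [if_neg hxr, if_pos hzr, hzr, hub_l hxr, hub_l hxr, hub_n hxr hrk.symm, hub_sk_succ hxk, hs x k]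
        unfold hub_sk hub_ck
        push_cast
        ring
      · unfold conY
        rw [if_neg hxr, if_neg hzr, hub_n hxr hzr, hub_n hxr hzr]
  · intro x z hn
    by_cases hxr : x = r
    · have hzk : z ≠ k := fun h => hn (Or.inl ⟨hxr, h⟩)
      rw [hxr, hub_r, hub_r, hub_sk_succ hzk]
    · by_cases hzr : z = r
      · have hxk : x ≠ k := fun h => hn (Or.inr ⟨h, hzr⟩)
        rw [hzr, hub_l hxr, hub_l hxr, hub_sk_succ hxk]
      · rw [hub_n hxr hzr, hub_n hxr hzr]

private theorem hub_sum (a : ℚ) {w : ℕ → ℕ → ℚ} (hs : ∀ x y, w x y = w y x) {r : ℕ} {J : Finset ℕ} (hr : r ∉ J)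
    (s : ℕ → ℚ) (k : ℕ) :
    T (rowY w r (hub_sk s k)) (a : ℝ) (insert r J, ∅) =
      T (rowY w r (fun _ => 1)) (a : ℝ) (insert r J, ∅) +
        ∑ y ∈ J.filter (fun y => y < k),
          (1 - (s y : ℝ)) * T (rowY w r (hub_ck w s y)) (a : ℝ) (insert r (J.erase y), ∅) := by
  induction k with
  | zero =>
    have h1 : J.filter (fun y => y < 0) = ∅ := Finset.filter_false_of_mem fun y _ => Nat.not_lt_zero y
    rw [h1, Finset.sum_empty, add_zero]
    exact hub_row fun x _ => if_neg (Nat.not_lt_zero x)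
  | succ k ih =>
    by_cases hk : k ∈ J
    · have h1 : J.filter (fun y => y < k + 1) = insert k (J.filter (fun y => y < k)) := by
        ext y
        rw [Finset.mem_insert, Finset.mem_filter, Finset.mem_filter]
        constructor
        · rintro ⟨h2, h3⟩
          rcases Nat.lt_succ_iff_lt_or_eq.1 h3 with h4 | h4
          · exact Or.inr ⟨h2, h4⟩
          · exact Or.inl h4
        · rintro (h2 | ⟨h2, h3⟩)
          · rw [h2]
            exact ⟨hk, Nat.lt_succ_self k⟩
          · exact ⟨h2, by omega⟩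
      have h2 : k ∉ J.filter (fun y => y < k) := fun h => lt_irrefl k (Finset.mem_filter.1 h).2
      rw [hub_step a hs hr s hk, ih, h1, Finset.sum_insert h2]
      ring
    · have h1 : J.filter (fun y => y < k + 1) = J.filter (fun y => y < k) := by
        refine Finset.filter_congr fun y hy => ?_
        have hne : y ≠ k := fun h => hk (h ▸ hy)
        omega
      rw [h1, ← ih]
      exact hub_row fun x hx => hub_sk_succ fun h => hk (h ▸ hx)

private theorem hub_aux (a : ℚ) {w : ℕ → ℕ → ℚ} (hs : ∀ x y, w x y = w y x) (n : ℕ) :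
    ∀ (J : Finset ℕ), J.card = n → ∀ (r : ℕ), r ∉ J → ∀ s : ℕ → ℚ,
      T (rowY w r s) (a : ℝ) (insert r J, ∅) = ((Pool.Agent.DFP.hub a w J s : ℚ) : ℝ) := by
  induction n with
  | zero =>
    intro J hJ r _ s
    rw [Finset.card_eq_zero.1 hJ, insert_empty_eq, T_single, Pool.Agent.AAG.hub_empty, Rat.cast_one]
  | succ n ih =>
    intro J hJ r hr s
    have hne : J.Nonempty := Finset.card_pos.1 (by omega)
    obtain ⟨y, hy⟩ := hne
    have hce : ∀ x ∈ J, (J.erase x).card = n := fun x hx => by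
      rw [Finset.card_erase_of_mem hx, hJ, Nat.add_sub_cancel]
    have hK : ∀ x ∈ J, x < J.sup id + 1 := fun x hx => Nat.lt_succ_of_le (Finset.le_sup (f := id) hx)
    have h1 : T (rowY w r s) (a : ℝ) (insert r J, ∅) =
        T (rowY w r (hub_sk s (J.sup id + 1))) (a : ℝ) (insert r J, ∅) :=
      hub_row fun x hx => (if_pos (hK x hx)).symm
    have h2 : J.filter (fun z => z < J.sup id + 1) = J := Finset.filter_true_of_mem hK
    have h3 : T (rowY w r (fun _ => 1)) (a : ℝ) (insert r J, ∅) =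
        ((Pool.Agent.DFP.hub a w J (fun _ => 1) : ℚ) : ℝ) := by
      have h4 : 2 ≤ (insert r J).card := by
        rw [Finset.card_insert_of_notMem hr]
        omega
      rw [T_one (hub_symm hs r _) (Finset.mem_insert_self r J) h4, Finset.erase_insert hr,
        Pool.Agent.DFP.hub_one, Pool.Agent.DFP.F_eq_hub a hs hy, Rat.cast_mul]
      · congr 1
        rw [← ih (J.erase y) (hce y hy) y (Finset.notMem_erase y J) (w y), Finset.insert_erase hy]
        refine hub_cg fun x hx z hz hxz => ?_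
        have hxr : x ≠ r := fun h => hr (h ▸ hx)
        have hzr : z ≠ r := fun h => hr (h ▸ hz)
        rw [hub_n hxr hzr]
        by_cases hxy : x = y
        · rw [hxy, hub_r]
        · by_cases hzy : z = y
          · rw [hzy, hub_l hxy, hs x y]
          · rw [hub_n hxy hzy]
      · intro x _ hxr
        rw [hub_l hxr, Rat.cast_one]
    rw [h1, hub_sum a hs hr s, h2, h3, Pool.Agent.DFP.hub_tel a hs J s (fun _ => 1), Rat.cast_add, Rat.cast_sum]
    congr 1
    refine Finset.sum_congr rfl fun x hx => ?_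
    rw [ih (J.erase x) (hce x hx) r (fun h => hr (Finset.mem_of_mem_erase h)) (hub_ck w s x), Rat.cast_mul,
      Rat.cast_sub, Rat.cast_one]
    rfl

theorem T_rowY (a : ℚ) {w : ℕ → ℕ → ℚ} (hs : ∀ x y, w x y = w y x) (r : ℕ) (J : Finset ℕ) (hr : r ∉ J)
    (s : ℕ → ℚ) : T (rowY w r s) (a : ℝ) (insert r J, ∅) = ((Pool.Agent.DFP.hub a w J s : ℚ) : ℝ) :=
  hub_aux a hs J.card J rfl r hr s

theorem T_hub (a : ℚ) {w : ℕ → ℕ → ℚ} (hs : ∀ x y, w x y = w y x) {r : ℕ} {J : Finset ℕ} (hr : r ∉ J) :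
    T (fun u v => (w u v : ℝ)) (a : ℝ) (insert r J, ∅) = ((Pool.Agent.DFP.hub a w J (w r) : ℚ) : ℝ) := by
  rw [← T_rowY a hs r J hr (w r)]
  refine hub_cg fun x _ z _ _ => ?_
  by_cases hxr : x = r
  · rw [hxr, hub_r]
  · by_cases hzr : z = r
    · rw [hzr, hub_l hxr, hs x r]
    · rw [hub_n hxr hzr]

end BSI
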