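import Pool.Agent.BSI.D1
import Pool.Agent.BSI.Hub
import Pool.Agent.DFP.TutX

/-!
# BSI-TutM (F2): the Tutte polynomial of a connected graph is the partition function `tauM`

The hub partition function of `DFP` is the partition function `T` with the root `0` (`T_hub`); the labels of the graph
without loops are the weights `wG`.
-/

set_option autoImplicit false

namespace BSI.M

open Finset Pool.Agent.Helper47.TR

/-- the edges which are not loops -/
def nl (E : List (ℕ × ℕ)) : List (ℕ × ℕ) := E.filter fun e => !(e.1 == e.2)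

theorem gr_nl {G : MG} (hG : Valid G) : Gr (List.range G.1.length) (nl G.2) := by
  refine ⟨List.nodup_range, fun e he => ?_⟩
  unfold nl at he
  rw [List.mem_filter] at he
  obtain ⟨h1, h2⟩ := he
  obtain ⟨h3, h4⟩ := hG e h1
  refine ⟨List.mem_range.2 h3, List.mem_range.2 h4, fun h => ?_⟩
  rw [h] at h2
  simp at h2

private theorem TutM_len (E : List (ℕ × ℕ)) {u v : ℕ} (huv : u ≠ v) :
    (eb (nl E) u [v]).length = Pool.Agent.DFP.mult E u v := by
  unfold eb nl Pool.Agent.DFP.mult Pool.Agent.DFP.multL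
  rw [List.length_map, List.filter_filter]
  congr 1
  refine List.filter_congr fun e _ => ?_
  rw [Bool.eq_iff_iff]
  simp only [Bool.and_eq_true, Bool.or_eq_true, beq_iff_eq, List.contains_cons, List.contains_nil,
    Bool.or_false, Bool.not_eq_true', beq_eq_false_iff_ne]
  constructor
  · rintro ⟨⟨h1, h2⟩ | ⟨h1, h2⟩, _⟩
    · exact Or.inl ⟨h1, h2⟩
    · exact Or.inr ⟨h2, h1⟩
  · rintro (⟨h1, h2⟩ | ⟨h1, h2⟩)
    · exact ⟨Or.inl ⟨h1, h2⟩, fun h => huv (h1.symm.trans (h.trans h2))⟩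
    · exact ⟨Or.inr ⟨h2, h1⟩, fun h => huv (h2.symm.trans (h.symm.trans h1))⟩

private theorem TutM_wf (V : Finset ℕ) : Wf (V, (∅ : Finset (Finset ℕ))) :=
  ⟨fun _ hB => absurd hB (Finset.notMem_empty _), fun _ hB => absurd hB (Finset.notMem_empty _),
    fun _ hB => absurd hB (Finset.notMem_empty _)⟩

theorem tutte_tauM {G : MG} (hG : Valid G) (hn : 0 < G.1.length) (hc : comps G Finset.univ = 1) {p q a1 a2 : ℕ}
    (hq : 0 < q) {x : ℚ} (hx : 1 ≤ x) (ha : (a1 : ℚ) / a2 = (x - 1) * (1 - -(p : ℚ) / q)) :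
    ((tutte x (-(p : ℚ) / q) G : ℚ) : ℝ) = (-(p : ℝ) / q) ^ (Pool.Agent.TFP.lps G.2).length *
      ((q : ℝ) / (p + q)) ^ (G.1.length - 1) * tauM p q a1 a2 (List.range G.1.length) (nl G.2) := by
  have hq' : (0 : ℚ) < q := by exact_mod_cast hq
  have hqR : (0 : ℝ) < q := by exact_mod_cast hq
  have hp' : (0 : ℚ) ≤ p := by positivity
  have hpR : (0 : ℝ) ≤ p := by positivity
  have hy : -(p : ℚ) / q < 1 := by
    rw [div_lt_one hq']
    linarith
  have h0 : (0 : ℕ) ∉ Ico 1 G.1.length := by simp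
  have hV : insert 0 (Ico 1 G.1.length) = (List.range G.1.length).toFinset := by
    ext z
    rw [Finset.mem_insert, Finset.mem_Ico, List.mem_toFinset, List.mem_range]
    omega
  have haR : (((x - 1) * (1 - -(p : ℚ) / q) : ℚ) : ℝ) = aR a1 a2 := by
    rw [← ha]
    unfold aR
    push_cast
    rfl
  have hT : tauM p q a1 a2 (List.range G.1.length) (nl G.2) =
      ((Pool.Agent.DFP.hub ((x - 1) * (1 - -(p : ℚ) / q)) (Pool.Agent.DFP.wG (-(p : ℚ) / q) G.2) (Ico 1 G.1.length)
        (Pool.Agent.DFP.wG (-(p : ℚ) / q) G.2 0) : ℚ) : ℝ) := by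
    rw [← T_hub _ (Pool.Agent.DFP.wG_symm _ _) h0, haR, hV]
    unfold tauM
    refine T_congr (TutM_wf _) (TutM_wf _) rfl id (Set.bijOn_id _)
      (fun _ _ B hB => absurd hB (Finset.notMem_empty B)) fun u _ v _ huv => ?_
    unfold YE Pool.Agent.DFP.wG
    rw [TutM_len _ huv]
    push_cast
    rfl
  have h1 : (1 : ℝ) / (1 - -(p : ℝ) / q) = (q : ℝ) / (p + q) := by
    have h2 : (1 : ℝ) - -(p : ℝ) / q = (p + q) / q := by
      field_simp
      ring
    rw [h2, one_div_div]
  rw [Pool.Agent.DFP.tutte_hub' hG hn hc hx hy, hT, ← h1]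
  push_cast
  rfl

end BSI.M
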