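import Pool.Agent.BSI.Brg
import Pool.Agent.BSI.FpTop
import Pool.Agent.BSI.TutM
import Pool.Agent.TFP.FpE

/-!
# BSI-AlgF (F4): the algorithm

The graph is made connected by `brg`, the partition function of the connected graph is estimated by `estT`; the result is multiplied by
`y ^ loops * (1 / (1 - y)) ^ (n - 1) * x ^ (-bridges)`, `y = - p / q`, `x = xn / xd`.
-/

set_option autoImplicit false

namespace BSI.M

open Turing Function N487b59b3 N68a2faeb Pool.Agent.Helper22 Pool.Agent.Helper6.WB Computability
  Pool.Agent.Helper47.TR ACY ACY.M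

/-- the size parameter -/
def ttF (x : MG × List Bool) : ℕ := x.1.1.length + (x.1.2.length + (x.2.length + 1))

/-- the edges of the connected graph -/
def cnE (x : (MG × List Bool) × List Bool) : List (ℕ × ℕ) := brg x.1.1.1 x.1.1.2

/-- the estimate of the partition function -/
noncomputable def estF (p q a1 a2 D : ℕ) (x : (MG × List Bool) × List Bool) : ℕ × ℕ :=
  estT p q a1 a2 D (ttF x.1) (List.range x.1.1.1.length) (nl (cnE x)) x.2

/-- the absolute value of the numerator -/
noncomputable def algN (p q a1 a2 D xd : ℕ) (x : (MG × List Bool) × List Bool) : ℕ :=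
  p ^ (Pool.Agent.TFP.lps (cnE x)).length * (xd ^ ((cnE x).length - x.1.1.2.length) *
    (q ^ (x.1.1.1.length - 1) * (estF p q a1 a2 D x).1))

/-- the denominator -/
noncomputable def algD (p q a1 a2 D xn : ℕ) (x : (MG × List Bool) × List Bool) : ℕ :=
  q ^ (Pool.Agent.TFP.lps (cnE x)).length * (xn ^ ((cnE x).length - x.1.1.2.length) *
    ((p + q) ^ (x.1.1.1.length - 1) * (estF p q a1 a2 D x).2))

/-- the algorithm -/
noncomputable def algF (p q a1 a2 D xn xd : ℕ) (x : (MG × List Bool) × List Bool) : ℤ × ℕ :=
  if x.1.1.1.length = 0 then (1, 1) else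
    (if (Pool.Agent.TFP.lps (cnE x)).length % 2 = 1 then -(algN p q a1 a2 D xd x : ℤ)
      else (algN p q a1 a2 D xd x : ℤ), algD p q a1 a2 D xn x)

variable {α : Type} [N487b59b3 α]

private def algF_step (s : List Bool × List (ℕ × ℕ)) (v : ℕ) : List Bool × List (ℕ × ℕ) := (s.1, stB s.1 s.2 v)

private theorem algF_fold (L : List ℕ) (s : List Bool × List (ℕ × ℕ)) :
    L.foldl algF_step s = (s.1, L.foldl (stB s.1) s.2) := by
  induction L generalizing s with
  | nil => rfl
  | cons v L ih => rw [List.foldl_cons, List.foldl_cons, ih]; rfl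

private theorem algF_sz (l : List Bool) (L : List ℕ) (E : List (ℕ × ℕ)) :
    sz (L.foldl (stB l) E) ≤ sz E + 7 * sz L := by
  induction L generalizing E with
  | nil => simp
  | cons v L ih =>
    rw [List.foldl_cons]
    refine (ih _).trans ?_
    have h : sz (stB l E v) ≤ sz E + (2 * Nat.size v + 3) := by
      unfold stB
      split_ifs
      · omega
      · simp only [sz_cons, sz_pair, sz_nat, Nat.size_zero]
        omega
    simp only [sz_cons, sz_nat]
    omega

private theorem algF_stB : FP fun p : (List Bool × List (ℕ × ℕ)) × ℕ => algF_step p.1 p.2 := by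
  have hG : FP fun p : (List Bool × List (ℕ × ℕ)) × ℕ => ((p.1.1, p.1.2) : MG) := by fun_prop
  have hE : FP fun p : (List Bool × List (ℕ × ℕ)) × ℕ => (0, p.2) :: p.1.2 :=
    FP.cons (FP.pair (FP.const 0) (by fun_prop)) (by fun_prop)
  have hG1 : FP fun p : (List Bool × List (ℕ × ℕ)) × ℕ => ((p.1.1, (0, p.2) :: p.1.2) : MG) :=
    FP.pair (by fun_prop) hE
  have h1 := FP.natEq (FP.length (FP.mergers hG1)) (FP.length (FP.mergers hG))
  have h2 := FP.pair (f := fun p : (List Bool × List (ℕ × ℕ)) × ℕ => p.1.1) (by fun_prop)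
    (FP.ite h1 (f := fun p : (List Bool × List (ℕ × ℕ)) × ℕ => p.1.2) (by fun_prop) hE)
  refine (congrArg FP (funext fun p => ?_)).mp h2
  unfold algF_step stB
  simp only [decide_eq_true_eq]

theorem FP.brg {l : α → List Bool} {E : α → List (ℕ × ℕ)} (hl : FP l) (hE : FP E) :
    FP fun a => BSI.M.brg (l a) (E a) := by
  have h1 : FP fun p : List ℕ × (List Bool × List (ℕ × ℕ)) => p.1.foldl algF_step p.2 := by
    refine FP.foldl algF_stB (B := fun n => 7 * n) (by fun_prop) ?_
    rintro L ⟨l, E⟩
    rw [algF_fold]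
    have h := algF_sz l L E
    simp only [sz_pair]
    omega
  have h2 := (h1.comp ((FP.range hl).pair (hl.pair hE))).snd'
  refine (congrArg FP (funext fun a => ?_)).mp h2
  rw [algF_fold]
  rfl

theorem FP.nl {E : α → List (ℕ × ℕ)} (hE : FP E) : FP fun a => BSI.M.nl (E a) :=
  FP.filter (c := fun e : ℕ × ℕ => !(e.1 == e.2))
    (FP.not (Pool.Agent.G4.FP.beqNat (by fun_prop) (by fun_prop))) hE

theorem algF_poly (p q a1 a2 D xn xd : ℕ) : N68a2faeb.IsPolyTime (algF p q a1 a2 D xn xd) := by
  rw [isPolyTime_iff]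
  have hV : FP fun x : (MG × List Bool) × List Bool => x.1.1.1 := by fun_prop
  have hE : FP fun x : (MG × List Bool) × List Bool => x.1.1.2 := by fun_prop
  have hN : FP fun x : (MG × List Bool) × List Bool => x.1.2 := by fun_prop
  have hr : FP fun x : (MG × List Bool) × List Bool => x.2 := by fun_prop
  have hT : FP fun x : (MG × List Bool) × List Bool =>
      un x.1.1.1.length ++ (un x.1.1.2.length ++ (x.1.2 ++ [true])) :=
    FP.append (FP.un_length hV) (FP.append (FP.un_length hE) (FP.append hN (FP.const [true])))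
  have hTl : ∀ x : (MG × List Bool) × List Bool,
      (un x.1.1.1.length ++ (un x.1.1.2.length ++ (x.1.2 ++ [true]))).length = ttF x.1 := by
    intro x
    simp only [List.length_append, un_length, List.length_singleton, ttF]
  have hc : FP cnE := FP.brg hV hE
  have hnl : FP fun x : (MG × List Bool) × List Bool => nl (cnE x) := FP.nl hc
  have hest : FP (estF p q a1 a2 D) := by
    have h := FP.estT p q a1 a2 D hT (FP.range hV) hnl hr
    simp only [hTl] at h
    exact h
  have hl := Pool.Agent.TFP.FP.lps hc
  have hd := FP.drop hc hE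
  have ht := FP.tail hV
  have e1 := FP.powU (FP.const (α := (MG × List Bool) × List Bool) p) hl
  have e2 := FP.powU (FP.const (α := (MG × List Bool) × List Bool) xd) hd
  have e3 := FP.powU (FP.const (α := (MG × List Bool) × List Bool) q) ht
  have e4 := FP.powU (FP.const (α := (MG × List Bool) × List Bool) q) hl
  have e5 := FP.powU (FP.const (α := (MG × List Bool) × List Bool) xn) hd
  have e6 := FP.powU (FP.const (α := (MG × List Bool) × List Bool) (p + q)) ht
  simp only [List.length_drop, List.length_tail] at e2 e3 e5 e6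
  have hA : FP (algN p q a1 a2 D xd) := FP.natMul e1 (FP.natMul e2 (FP.natMul e3 hest.fst'))
  have hD : FP (algD p q a1 a2 D xn) := FP.natMul e4 (FP.natMul e5 (FP.natMul e6 hest.snd'))
  have h0 := FP.natEq (FP.length hV) (FP.const 0)
  have h := FP.ite h0 (FP.const ((1 : ℤ), (1 : ℕ)))
    (FP.pair (FP.ite (FP.odd hl) (FP.intNeg hA) (FP.intPos hA)) hD)
  simp only [decide_eq_true_eq] at h
  exact h

end BSI.M
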