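import Pool.Agent.BSI.MDefs
import Pool.Agent.ACY.GMc

/-!
# BSI machine layer, Av: the average over the random bits of `T` steps

PLAN. Model: ACY/MRun.lean. `av_nums`: induction on `n` (`av_take_drop`, `av_val`, `Fin.consEquiv` as in `av_count` of ACY/MAv.lean). `av_step`: `nb1 b c n = b + (2 + (n * c + c))`, `av_take_drop` three times, `av_val`, `Fintype.sum_prod_type`,
`Finset.sum_range`; the last number uses the list `(((l.drop b).drop 2).drop (n * c))` of length `c`. `av_run`: induction on `T`, `nbT b c n (T + 1) = nb1 b c n + nbT b c n T`. `av_trial`: `trial` uses only the first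
`nbT b c V.length T` bits (`runL_take`).
-/

set_option autoImplicit false

namespace BSI.M

open Finset ACY ACY.M

/-- the random numbers of a step -/
abbrev UU (b c n : ℕ) : Type := Fin (2 ^ b) × (Fin 4 × ((Fin n → Fin (2 ^ c)) × Fin (2 ^ c)))

/-- one step, from the random numbers -/
def stU (p q a1 a2 : ℕ) (V : List ℕ) (E : List (ℕ × ℕ)) (b c : ℕ) (u : UU b c V.length) (st : List Lt) : List Lt :=
  stepL p q a1 a2 V E (2 ^ c) u.1 u.2.1 (List.ofFn fun i => (u.2.2.1 i : ℕ)) u.2.2.2 st

theorem av_nums (n c : ℕ) (G : List ℕ → ℝ) : av (n * c) (fun l => G (nums c n l)) =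
    (∑ v : Fin n → Fin (2 ^ c), G (List.ofFn fun i => (v i : ℕ))) / (Fintype.card (Fin n → Fin (2 ^ c)) : ℝ) := by
  induction n generalizing G with
  | zero =>
    rw [Fintype.sum_unique, Nat.zero_mul, List.ofFn_zero, Fintype.card_unique, Nat.cast_one, div_one]
    rfl
  | succ n ih =>
    have e0 : (n + 1) * c = c + n * c := by ring
    have e1 : av (c + n * c) (fun l => G (nums c (n + 1) l)) =
        av c (fun l => av (n * c) (fun l' => G (Pool.Agent.Helper6.WB.val l :: nums c n l'))) := by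
      rw [← av_take_drop c (n * c) (fun l l' => G (Pool.Agent.Helper6.WB.val l :: nums c n l'))]
      rfl
    have e2 : ∀ U : ℕ, av (n * c) (fun l' => G (U :: nums c n l')) =
        (∑ v : Fin n → Fin (2 ^ c), G (U :: List.ofFn fun i => (v i : ℕ))) /
          (Fintype.card (Fin n → Fin (2 ^ c)) : ℝ) := fun U => ih (fun l => G (U :: l))
    have h1 := Fintype.sum_equiv (Fin.consEquiv (fun _ : Fin (n + 1) => Fin (2 ^ c)))
      (fun q : Fin (2 ^ c) × (Fin n → Fin (2 ^ c)) => G ((q.1 : ℕ) :: List.ofFn fun i => (q.2 i : ℕ)))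
      (fun v => G (List.ofFn fun i => (v i : ℕ)))
      (fun q => by
        have e : (List.ofFn fun i => (((Fin.consEquiv (fun _ : Fin (n + 1) => Fin (2 ^ c))) q i : Fin (2 ^ c)) : ℕ)) =
            (q.1 : ℕ) :: List.ofFn fun i => (q.2 i : ℕ) := by
          rw [List.ofFn_succ]
          rfl
        rw [e])
    rw [e0, e1]
    simp only [e2]
    rw [av_val c (fun U => (∑ v : Fin n → Fin (2 ^ c), G (U :: List.ofFn fun i => (v i : ℕ))) /
          (Fintype.card (Fin n → Fin (2 ^ c)) : ℝ)), ← Finset.sum_div, Finset.sum_range, div_div, ← h1,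
      Fintype.sum_prod_type]
    congr 1
    rw [Fintype.card_fun, Fintype.card_fun, Fintype.card_fin, Fintype.card_fin, Fintype.card_fin, pow_succ]
    push_cast
    rfl

private theorem Av_nums_take (c n m : ℕ) (l : List Bool) (h : n * c ≤ m) : nums c n (l.take m) = nums c n l := by
  induction n generalizing m l with
  | zero => rfl
  | succ n ih =>
    have e0 : (n + 1) * c = n * c + c := by ring
    rw [e0] at h
    show Pool.Agent.Helper6.WB.val ((l.take m).take c) :: nums c n ((l.take m).drop c) =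
      Pool.Agent.Helper6.WB.val (l.take c) :: nums c n (l.drop c)
    rw [List.take_take, Nat.min_eq_left (by omega), List.drop_take, ih (m - c) (l.drop c) (by omega)]

theorem av_step (b c n : ℕ) (G : ℕ → ℕ → List ℕ → ℕ → ℝ) :
    av (nb1 b c n) (fun l => G (Pool.Agent.Helper6.WB.val (l.take b)) (Pool.Agent.Helper6.WB.val ((l.drop b).take 2))
      (nums c n ((l.drop b).drop 2)) (Pool.Agent.Helper6.WB.val ((((l.drop b).drop 2).drop (n * c)).take c))) =
      (∑ u : UU b c n, G u.1 u.2.1 (List.ofFn fun i => (u.2.2.1 i : ℕ)) u.2.2.2) / (Fintype.card (UU b c n) : ℝ) := by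
  unfold nb1
  have h1 : av (b + (2 + (n * c + c))) (fun l => G (Pool.Agent.Helper6.WB.val (l.take b))
      (Pool.Agent.Helper6.WB.val ((l.drop b).take 2)) (nums c n ((l.drop b).drop 2))
      (Pool.Agent.Helper6.WB.val ((((l.drop b).drop 2).drop (n * c)).take c))) =
      av b (fun l => av (2 + (n * c + c)) (fun l' => G (Pool.Agent.Helper6.WB.val l)
        (Pool.Agent.Helper6.WB.val (l'.take 2)) (nums c n (l'.drop 2))
        (Pool.Agent.Helper6.WB.val (((l'.drop 2).drop (n * c)).take c)))) := by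
    rw [← av_take_drop b (2 + (n * c + c)) (fun l l' => G (Pool.Agent.Helper6.WB.val l)
        (Pool.Agent.Helper6.WB.val (l'.take 2)) (nums c n (l'.drop 2))
        (Pool.Agent.Helper6.WB.val (((l'.drop 2).drop (n * c)).take c)))]
  have h2 : ∀ U1 : ℕ, av (2 + (n * c + c)) (fun l' => G U1
        (Pool.Agent.Helper6.WB.val (l'.take 2)) (nums c n (l'.drop 2))
        (Pool.Agent.Helper6.WB.val (((l'.drop 2).drop (n * c)).take c))) =
      av 2 (fun l => av (n * c + c) (fun l' => G U1 (Pool.Agent.Helper6.WB.val l) (nums c n l')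
        (Pool.Agent.Helper6.WB.val ((l'.drop (n * c)).take c)))) := by
    intro U1
    rw [← av_take_drop 2 (n * c + c) (fun l l' => G U1 (Pool.Agent.Helper6.WB.val l) (nums c n l')
        (Pool.Agent.Helper6.WB.val ((l'.drop (n * c)).take c)))]
  have h3 : ∀ U1 U2 : ℕ, av (n * c + c) (fun l' => G U1 U2 (nums c n l')
        (Pool.Agent.Helper6.WB.val ((l'.drop (n * c)).take c))) =
      av (n * c) (fun l => av c (fun l' => G U1 U2 (nums c n l) (Pool.Agent.Helper6.WB.val l'))) := by
    intro U1 U2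
    rw [← av_take_drop (n * c) c (fun l l' => G U1 U2 (nums c n l) (Pool.Agent.Helper6.WB.val l'))]
    refine av_congr fun l hl => ?_
    have h3 : (l.drop (n * c)).take c = l.drop (n * c) := by
      refine List.take_of_length_le ?_
      rw [List.length_drop, hl]
      omega
    rw [h3, Av_nums_take c n (n * c) l (le_refl _)]
  have h4 : ∀ (U1 U2 : ℕ) (L : List ℕ), av c (fun l' => G U1 U2 L (Pool.Agent.Helper6.WB.val l')) =
      (∑ U3 ∈ range (2 ^ c), G U1 U2 L U3) / 2 ^ c := fun U1 U2 L => av_val c (G U1 U2 L)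
  have h5 : ∀ U1 U2 : ℕ, av (n * c) (fun l => (∑ U3 ∈ range (2 ^ c), G U1 U2 (nums c n l) U3) / 2 ^ c) =
      (∑ v : Fin n → Fin (2 ^ c), (∑ U3 ∈ range (2 ^ c), G U1 U2 (List.ofFn fun i => (v i : ℕ)) U3) / 2 ^ c) /
        (Fintype.card (Fin n → Fin (2 ^ c)) : ℝ) :=
    fun U1 U2 => av_nums n c (fun L => (∑ U3 ∈ range (2 ^ c), G U1 U2 L U3) / 2 ^ c)
  have h6 : ∀ U1 : ℕ, av 2 (fun l => (∑ v : Fin n → Fin (2 ^ c),
      (∑ U3 ∈ range (2 ^ c), G U1 (Pool.Agent.Helper6.WB.val l) (List.ofFn fun i => (v i : ℕ)) U3) / 2 ^ c) /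
        (Fintype.card (Fin n → Fin (2 ^ c)) : ℝ)) =
      (∑ U2 ∈ range (2 ^ 2), (∑ v : Fin n → Fin (2 ^ c),
      (∑ U3 ∈ range (2 ^ c), G U1 U2 (List.ofFn fun i => (v i : ℕ)) U3) / 2 ^ c) /
        (Fintype.card (Fin n → Fin (2 ^ c)) : ℝ)) / 2 ^ 2 :=
    fun U1 => av_val 2 (fun U2 => (∑ v : Fin n → Fin (2 ^ c),
      (∑ U3 ∈ range (2 ^ c), G U1 U2 (List.ofFn fun i => (v i : ℕ)) U3) / 2 ^ c) /
        (Fintype.card (Fin n → Fin (2 ^ c)) : ℝ))
  rw [h1]
  simp only [h2, h3, h4, h5, h6]
  rw [av_val b (fun U1 => (∑ U2 ∈ range (2 ^ 2), (∑ v : Fin n → Fin (2 ^ c),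
      (∑ U3 ∈ range (2 ^ c), G U1 U2 (List.ofFn fun i => (v i : ℕ)) U3) / 2 ^ c) /
        (Fintype.card (Fin n → Fin (2 ^ c)) : ℝ)) / 2 ^ 2)]
  have h7 : ∀ U1 : ℕ, ∑ U2 ∈ range (2 ^ 2), (∑ v : Fin n → Fin (2 ^ c),
      (∑ U3 ∈ range (2 ^ c), G U1 U2 (List.ofFn fun i => (v i : ℕ)) U3) / 2 ^ c) /
        (Fintype.card (Fin n → Fin (2 ^ c)) : ℝ) = ∑ U2 : Fin 4, (∑ v : Fin n → Fin (2 ^ c),
      (∑ U3 ∈ range (2 ^ c), G U1 U2 (List.ofFn fun i => (v i : ℕ)) U3) / 2 ^ c) /
        (Fintype.card (Fin n → Fin (2 ^ c)) : ℝ) := fun U1 => Finset.sum_range _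
  simp only [h7]
  rw [Fintype.sum_prod_type]
  simp only [Fintype.sum_prod_type]
  rw [Fintype.card_prod, Fintype.card_prod, Fintype.card_prod, Fintype.card_fin, Fintype.card_fin, Fintype.card_fin]
  simp only [Finset.sum_range, ← Finset.sum_div]
  rw [div_div, div_div, div_div]
  congr 1
  push_cast
  ring

private theorem Av_stepB_take (p q a1 a2 : ℕ) (V : List ℕ) (E : List (ℕ × ℕ)) (b c m : ℕ) (l : List Bool) (st : List Lt)
    (hm : nb1 b c V.length ≤ m) : stepB p q a1 a2 V E b c (l.take m) st = stepB p q a1 a2 V E b c l st := by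
  unfold nb1 at hm
  unfold stepB
  have e1 : (l.take m).take b = l.take b := by
    rw [List.take_take, Nat.min_eq_left (by omega)]
  have e2 : ((l.take m).drop b).take 2 = (l.drop b).take 2 := by
    rw [List.drop_take, List.take_take, Nat.min_eq_left (by omega)]
  have e3 : ((l.take m).drop b).drop 2 = ((l.drop b).drop 2).take (m - b - 2) := by
    rw [List.drop_take, List.drop_take]
  have e4 : nums c V.length (((l.drop b).drop 2).take (m - b - 2)) = nums c V.length ((l.drop b).drop 2) :=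
    Av_nums_take c V.length (m - b - 2) _ (by omega)
  have e5 : ((((l.drop b).drop 2).take (m - b - 2)).drop (V.length * c)).take c =
      (((l.drop b).drop 2).drop (V.length * c)).take c := by
    rw [List.drop_take, List.take_take, Nat.min_eq_left (by omega)]
  rw [e1, e2, e3, e4, e5]

theorem av_run (p q a1 a2 : ℕ) (V : List ℕ) (E : List (ℕ × ℕ)) (b c T : ℕ) (st : List Lt) (f : List Lt → ℝ) :
    av (nbT b c V.length T) (fun l => f (runL p q a1 a2 V E b c T l st)) =
      (KK (stU p q a1 a2 V E b c))^[T] f st := by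
  induction T generalizing st with
  | zero =>
    have h0 : nbT b c V.length 0 = 0 := Nat.zero_mul _
    rw [h0]
    rfl
  | succ T ih =>
    have h0 : nbT b c V.length (T + 1) = nb1 b c V.length + nbT b c V.length T := by
      unfold nbT
      ring
    rw [h0, Function.iterate_succ_apply']
    have h1 : av (nb1 b c V.length + nbT b c V.length T) (fun l => f (runL p q a1 a2 V E b c (T + 1) l st)) =
        av (nb1 b c V.length) (fun l => av (nbT b c V.length T) (fun l' =>
          f (runL p q a1 a2 V E b c T l' (stepB p q a1 a2 V E b c l st)))) := by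
      rw [← av_take_drop (nb1 b c V.length) (nbT b c V.length T) (fun l l' =>
          f (runL p q a1 a2 V E b c T l' (stepB p q a1 a2 V E b c l st)))]
      refine av_congr fun l _ => ?_
      rw [Av_stepB_take p q a1 a2 V E b c _ l st (le_refl _)]
      rfl
    rw [h1]
    simp only [ih]
    have h2 := av_step b c V.length (fun u1 u2 vs v0 =>
      (KK (stU p q a1 a2 V E b c))^[T] f (stepL p q a1 a2 V E (2 ^ c) u1 u2 vs v0 st))
    exact h2

theorem runL_take (p q a1 a2 : ℕ) (V : List ℕ) (E : List (ℕ × ℕ)) (b c T m : ℕ) (l : List Bool) (st : List Lt)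
    (hm : nbT b c V.length T ≤ m) : runL p q a1 a2 V E b c T (l.take m) st = runL p q a1 a2 V E b c T l st := by
  induction T generalizing m l st with
  | zero => rfl
  | succ T ih =>
    have h0 : nbT b c V.length (T + 1) = nb1 b c V.length + nbT b c V.length T := by
      unfold nbT
      ring
    rw [h0] at hm
    show runL p q a1 a2 V E b c T ((l.take m).drop (nb1 b c V.length)) (stepB p q a1 a2 V E b c (l.take m) st) =
      runL p q a1 a2 V E b c T (l.drop (nb1 b c V.length)) (stepB p q a1 a2 V E b c l st)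
    rw [Av_stepB_take p q a1 a2 V E b c m l st (by omega), List.drop_take, ih (m - nb1 b c V.length) _ _ (by omega)]

theorem av_trial (p q a1 a2 : ℕ) (V : List ℕ) (E : List (ℕ × ℕ)) (b c T m : ℕ) (w : Bool) (u v : ℕ)
    (hm : nbT b c V.length T ≤ m) :
    av m (fun l => (trial p q a1 a2 V E b c T w u v l : ℝ)) =
      (KK (stU p q a1 a2 V E b c))^[T] (fun st => if obsL w u v st then 1 else 0) (iniL a1 V E) := by
  rw [← av_run p q a1 a2 V E b c T (iniL a1 V E) (fun st => if obsL w u v st then 1 else 0),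
    ← av_take hm (fun l => (if obsL w u v (runL p q a1 a2 V E b c T l (iniL a1 V E)) then (1 : ℝ) else 0))]
  refine av_congr fun l _ => ?_
  show ((trial p q a1 a2 V E b c T w u v l : ℕ) : ℝ) =
    if obsL w u v (runL p q a1 a2 V E b c T (l.take (nbT b c V.length T)) (iniL a1 V E)) then (1 : ℝ) else 0
  rw [runL_take p q a1 a2 V E b c T _ l (iniL a1 V E) (le_refl _)]
  unfold trial
  split_ifs
  · exact Nat.cast_one
  · exact Nat.cast_zero

end BSI.M
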