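import Pool.Agent.BSI.Defs

/-!
# BSI (MP_e767af_lc): basic facts on the states, letters and probabilities
-/

set_option autoImplicit false

namespace BSI

open Finset ACY

variable {Y : ℕ → ℕ → ℝ} {a : ℝ} {X : St} {l : Le}

theorem lts_fst (h : l ∈ lts X) : l.1 ∈ X.1 := by
  unfold lts at h
  split_ifs at h
  · exact (Finset.mem_product.1 h).1
  · exact (Finset.mem_product.1 h).1

theorem lts_sub (h : l ∈ lts X) : l.2.1 ⊆ X.2 := by
  unfold lts at h
  split_ifs at h
  · exact Finset.mem_powerset.1 (Finset.mem_product.1 (Finset.mem_product.1 h).2).1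
  · have h1 := Finset.mem_singleton.1 (Finset.mem_product.1 (Finset.mem_product.1 h).2).1
    rw [h1]

theorem lts_two (hc : 2 ≤ X.1.card) : l ∈ lts X ↔ l.1 ∈ X.1 ∧ l.2.1 ⊆ X.2 := by
  unfold lts
  rw [if_pos hc, Finset.mem_product, Finset.mem_product, Finset.mem_powerset]
  simp

theorem lts_one (hc : X.1.card < 2) : l ∈ lts X ↔ l.1 ∈ X.1 ∧ l.2 = (X.2, true) := by
  unfold lts
  rw [if_neg (by omega), Finset.mem_product, Finset.mem_product, Finset.mem_singleton, Finset.mem_singleton]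
  constructor
  · rintro ⟨h1, h2, h3⟩
    exact ⟨h1, Prod.ext h2 h3⟩
  · rintro ⟨h1, h2⟩
    rw [h2]
    exact ⟨h1, rfl, rfl⟩

theorem card_nx (h : l ∈ lts X) : (nx X l).1.card + 1 = X.1.card :=
  Finset.card_erase_add_one (lts_fst h)

theorem T_rec (h : X.1.Nonempty) :
    T Y a X = (∑ l ∈ lts X, wl Y a X l * T Y a (nx X l)) / X.1.card := by
  obtain ⟨n, hn⟩ : ∃ n, X.1.card = n + 1 := ⟨X.1.card - 1, by have := h.card_pos; omega⟩
  have h0 : T Y a X = (∑ l ∈ lts X, wl Y a X l * tau Y a n (nx X l)) / X.1.card := by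
    unfold T
    conv_lhs => rw [hn]
    rfl
  rw [h0]
  congr 1
  refine Finset.sum_congr rfl fun l hl => ?_
  have h1 := card_nx hl
  have h2 : (nx X l).1.card = n := by omega
  unfold T
  rw [h2]

theorem T_empty (h : X.1 = ∅) : T Y a X = 1 := by
  unfold T
  rw [h]
  rfl

theorem mem_blk {t : ℕ} {C : Finset (Finset ℕ)} {x : ℕ} : x ∈ blk t C ↔ x = t ∨ ∃ B ∈ C, x ∈ B := by
  unfold blk
  rw [Finset.mem_insert, Finset.mem_biUnion]
  rfl

theorem blk_notMem (hX : Wf X) {t : ℕ} (ht : t ∈ X.1) (C : Finset (Finset ℕ)) : blk t C ∉ X.2 := fun h =>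
  Finset.disjoint_left.1 (hX.dR _ h) (mem_blk.2 (Or.inl rfl)) ht

theorem Wf_nx (hX : Wf X) (h : l ∈ lts X) : Wf (nx X l) := by
  have ht := lts_fst h
  have hC := lts_sub h
  have hb : ∀ B ∈ X.2 \ l.2.1, Disjoint (blk l.1 l.2.1) B := by
    intro B hB
    have hB' := Finset.mem_sdiff.1 hB
    rw [Finset.disjoint_left]
    intro x hx hxB
    rcases mem_blk.1 hx with h1 | ⟨D, hD, hxD⟩
    · exact Finset.disjoint_left.1 (hX.dR B hB'.1) hxB (h1 ▸ ht)
    · have hne : D ≠ B := fun h2 => hB'.2 (h2 ▸ hD)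
      exact Finset.disjoint_left.1 (hX.dj D (hC hD) B hB'.1 hne) hxD hxB
  unfold nx
  cases hf : l.2.2 with
  | true =>
    refine ⟨?_, ?_, ?_⟩
    · intro B hB
      exact hX.ne B (Finset.mem_sdiff.1 hB).1
    · intro B hB C hC' hne
      exact hX.dj B (Finset.mem_sdiff.1 hB).1 C (Finset.mem_sdiff.1 hC').1 hne
    · intro B hB
      exact (hX.dR B (Finset.mem_sdiff.1 hB).1).mono_right (Finset.erase_subset _ _)
  | false =>
    simp only [Bool.false_eq_true, if_false]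
    refine ⟨?_, ?_, ?_⟩
    · intro B hB
      rcases Finset.mem_insert.1 hB with h1 | h1
      · rw [h1]
        exact ⟨l.1, mem_blk.2 (Or.inl rfl)⟩
      · exact hX.ne B (Finset.mem_sdiff.1 h1).1
    · intro B hB C hC' hne
      rcases Finset.mem_insert.1 hB with h1 | h1
      · rcases Finset.mem_insert.1 hC' with h2 | h2
        · exact absurd (h1.trans h2.symm) hne
        · rw [h1]
          exact hb C h2
      · rcases Finset.mem_insert.1 hC' with h2 | h2
        · rw [h2]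
          exact (hb B h1).symm
        · exact hX.dj B (Finset.mem_sdiff.1 h1).1 C (Finset.mem_sdiff.1 h2).1 hne
    · intro B hB
      rcases Finset.mem_insert.1 hB with h1 | h1
      · rw [h1, Finset.disjoint_left]
        intro x hx hxR
        have hxR' := Finset.mem_erase.1 hxR
        rcases mem_blk.1 hx with h2 | ⟨D, hD, hxD⟩
        · exact hxR'.1 h2
        · exact Finset.disjoint_left.1 (hX.dR D (hC hD)) hxD hxR'.2
      · exact (hX.dR B (Finset.mem_sdiff.1 h1).1).mono_right (Finset.erase_subset _ _)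

theorem enc_nx (hX : Wf X) (h : l ∈ lts X) : enc X (nx X l) = l := by
  have ht := lts_fst h
  have hC := lts_sub h
  obtain ⟨t, C, f⟩ := l
  have h1 : X.1 \ (nx X (t, (C, f))).1 = {t} := by
    change X.1 \ X.1.erase t = {t}
    rw [Finset.sdiff_erase ht, Finset.sdiff_self, insert_empty_eq]
  have hb := blk_notMem hX ht C
  have h2 : X.2 \ (nx X (t, (C, f))).2 = C := by
    cases f with
    | true =>
      change X.2 \ (X.2 \ C) = C
      rw [Finset.sdiff_sdiff_eq_self hC]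
    | false =>
      change X.2 \ (insert (blk t C) (X.2 \ C)) = C
      rw [Finset.sdiff_insert_of_notMem hb, Finset.sdiff_sdiff_eq_self hC]
  have h3 : decide ((nx X (t, (C, f))).2 ⊆ X.2) = f := by
    cases f with
    | true =>
      change decide (X.2 \ C ⊆ X.2) = true
      exact decide_eq_true Finset.sdiff_subset
    | false =>
      change decide (insert (blk t C) (X.2 \ C) ⊆ X.2) = false
      exact decide_eq_false fun h4 => hb (h4 (Finset.mem_insert_self _ _))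
  unfold enc
  rw [h1, h2, h3, Finset.sum_singleton]

theorem nx_inj (hX : Wf X) {l l' : Le} (h : l ∈ lts X) (h' : l' ∈ lts X) (he : nx X l = nx X l') : l = l' := by
  rw [← enc_nx hX h, he, enc_nx hX h']

theorem yb_abs (hY : ∀ u v, |Y u v| ≤ 1) (t : ℕ) (B : Finset ℕ) : |yb Y t B| ≤ 1 := by
  unfold yb
  rw [Finset.abs_prod]
  exact Finset.prod_le_one (fun _ _ => abs_nonneg _) fun b _ => hY t b

theorem cc_nonneg (hY : ∀ u v, |Y u v| ≤ 1) (t : ℕ) (C : Finset (Finset ℕ)) : 0 ≤ cc Y t C :=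
  Finset.prod_nonneg fun B _ => by
    have := (abs_le.1 (yb_abs hY t B)).2
    linarith

theorem wl_nonneg (hY : ∀ u v, |Y u v| ≤ 1) (ha : 0 ≤ a) (X : St) (l : Le) : 0 ≤ wl Y a X l := by
  unfold wl
  refine mul_nonneg (cc_nonneg hY _ _) ?_
  split_ifs
  · exact ha
  · exact zero_le_one

theorem T_nonneg (hY : ∀ u v, |Y u v| ≤ 1) (ha : 0 ≤ a) (X : St) : 0 ≤ T Y a X := by
  unfold T
  generalize X.1.card = n
  induction n generalizing X with
  | zero => exact zero_le_one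
  | succ n ih =>
    exact div_nonneg (Finset.sum_nonneg fun l _ => mul_nonneg (wl_nonneg hY ha X l) (ih _)) (Nat.cast_nonneg _)

theorem pr_nonneg (hY : ∀ u v, |Y u v| ≤ 1) (ha : 0 ≤ a) (X : St) (l : Le) : 0 ≤ pr Y a X l :=
  div_nonneg (mul_nonneg (wl_nonneg hY ha X l) (T_nonneg hY ha _))
    (mul_nonneg (Nat.cast_nonneg _) (T_nonneg hY ha _))

theorem sum_pr (hT : 0 < T Y a X) (h : X.1.Nonempty) : ∑ l ∈ lts X, pr Y a X l = 1 := by
  have h1 := T_rec (Y := Y) (a := a) h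
  have hc : (0 : ℝ) < X.1.card := by exact_mod_cast h.card_pos
  unfold pr
  rw [← Finset.sum_div, div_eq_one_iff_eq (mul_pos hc hT).ne']
  rw [eq_div_iff hc.ne'] at h1
  rw [← h1, mul_comm]

theorem pr_pos_T (hY : ∀ u v, |Y u v| ≤ 1) (ha : 0 ≤ a) (h : 0 < pr Y a X l) : 0 < T Y a (nx X l) := by
  rcases (T_nonneg hY ha (nx X l)).lt_or_eq with h1 | h1
  · exact h1
  · unfold pr at h
    rw [← h1, mul_zero, zero_div] at h
    exact absurd h (lt_irrefl 0)

theorem mem_ltp : l ∈ ltp Y a X ↔ l ∈ lts X ∧ 0 < pr Y a X l := by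
  unfold ltp
  exact Finset.mem_filter

theorem mem_cov {Z : St} : Z ∈ cov Y a X ↔ ∃ l ∈ lts X, 0 < pr Y a X l ∧ nx X l = Z := by
  unfold cov
  rw [Finset.mem_image]
  constructor
  · rintro ⟨l, hl, rfl⟩
    exact ⟨l, (mem_ltp.1 hl).1, (mem_ltp.1 hl).2, rfl⟩
  · rintro ⟨l, h1, h2, h3⟩
    exact ⟨l, mem_ltp.2 ⟨h1, h2⟩, h3⟩

theorem p_nx (hX : Wf X) (h : l ∈ lts X) : p Y a X (nx X l) = pr Y a X l := by
  unfold p
  have h1 : (lts X).filter (fun l' => nx X l' = nx X l) = {l} := by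
    ext l'
    rw [Finset.mem_filter, Finset.mem_singleton]
    constructor
    · rintro ⟨h2, h3⟩
      exact nx_inj hX h2 h h3
    · rintro rfl
      exact ⟨h, rfl⟩
  rw [h1, Finset.sum_singleton]

theorem sum_cov (hY : ∀ u v, |Y u v| ≤ 1) (ha : 0 ≤ a) (hX : Wf X) (F : St → ℝ) :
    ∑ Z ∈ cov Y a X, p Y a X Z * F Z = ∑ l ∈ lts X, pr Y a X l * F (nx X l) := by
  unfold cov
  rw [Finset.sum_image fun l hl l' hl' he => nx_inj hX (mem_ltp.1 hl).1 (mem_ltp.1 hl').1 he]
  have h1 : ∀ l ∈ ltp Y a X, p Y a X (nx X l) * F (nx X l) = pr Y a X l * F (nx X l) := fun l hl => by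
    rw [p_nx hX (mem_ltp.1 hl).1]
  rw [Finset.sum_congr rfl h1]
  unfold ltp
  refine Finset.sum_subset (Finset.filter_subset _ _) fun l hl hl' => ?_
  have h2 : pr Y a X l = 0 := by
    rcases (pr_nonneg hY ha X l).lt_or_eq with h3 | h3
    · exact absurd (Finset.mem_filter.2 ⟨hl, h3⟩) hl'
    · exact h3.symm
  rw [h2, zero_mul]

theorem ok_cov (hY : ∀ u v, |Y u v| ≤ 1) (ha : 0 ≤ a) (hX : ok Y a X) {Z : St} (hZ : Z ∈ cov Y a X) : ok Y a Z := by
  obtain ⟨l, h1, h2, rfl⟩ := mem_cov.1 hZ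
  exact ⟨Wf_nx hX.1 h1, pr_pos_T hY ha h2⟩

theorem Lab.abs_le {η : ℝ} (h : Lab Y η) (u v : ℕ) : |Y u v| ≤ 1 := by
  rcases h.gap u v with h1 | h1
  · rw [h1, abs_one]
  · exact h1.trans (by linarith [h.pos])

end BSI
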