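import Pool.Agent.Helper47.TR.Rank
import Pool.Agent.Helper47.TR.Tut

/-!
# BSI-Brg (F1): connecting the components

`brg l E` adds to the edges `E` on the vertices `0, …, |l| - 1` edges `(0, v)` which join two components until the graph is connected. Each of them multiplies the Tutte polynomial by `x`.
-/

set_option autoImplicit false

namespace BSI.M

open Finset Pool.Agent.Helper47.TR

/-- add the edge `(0, v)` if it joins two components -/
def stB (l : List Bool) (E : List (ℕ × ℕ)) (v : ℕ) : List (ℕ × ℕ) :=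
  if (mergers (l, (0, v) :: E)).length = (mergers (l, E)).length then E else (0, v) :: E

/-- the edges `E` and the additional edges -/
def brg (l : List Bool) (E : List (ℕ × ℕ)) : List (ℕ × ℕ) := (List.range l.length).foldl (stB l) E

private theorem brg_sur {α : Type} {r r' : α → α → Prop} (h : ∀ u v, r u v → r' u v) :
    ∃ f : Quot r → Quot r', Function.Surjective f ∧ ∀ u, f (Quot.mk r u) = Quot.mk r' u :=
  ⟨Quot.lift (fun u => Quot.mk r' u) (fun u v huv => Quot.sound (h u v huv)),
    fun c => Quot.inductionOn c fun u => ⟨Quot.mk r u, rfl⟩, fun _ => rfl⟩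

private theorem brg_le {α : Type} [Finite α] {r r' : α → α → Prop} (h : ∀ u v, r u v → r' u v) :
    Nat.card (Quot r') ≤ Nat.card (Quot r) := by
  have h1 : Finite (Quot r) := Finite.of_surjective (Quot.mk r) Quot.mk_surjective
  obtain ⟨f, hf, -⟩ := brg_sur h
  exact Nat.card_le_card_of_surjective f hf

private theorem brg_lt {α : Type} [Finite α] {r r' : α → α → Prop} (h : ∀ u v, r u v → r' u v) {a b : α}
    (hab : r' a b) (hne : Quot.mk r a ≠ Quot.mk r b) : Nat.card (Quot r') < Nat.card (Quot r) := by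
  have h1 : Finite (Quot r) := Finite.of_surjective (Quot.mk r) Quot.mk_surjective
  have h2 : Finite (Quot r') := Finite.of_surjective (Quot.mk r') Quot.mk_surjective
  obtain ⟨f, hf, hf2⟩ := brg_sur h
  cases nonempty_fintype (Quot r)
  cases nonempty_fintype (Quot r')
  rw [Nat.card_eq_fintype_card, Nat.card_eq_fintype_card]
  refine Fintype.card_lt_of_surjective_not_injective f hf fun hi => hne (hi ?_)
  rw [hf2, hf2]
  exact Quot.sound hab

private theorem brg_eq {α : Type} [Finite α] {r r' : α → α → Prop} (h : ∀ u v, r u v → r' u v)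
    (h' : ∀ u v, r' u v → Quot.mk r u = Quot.mk r v) : Nat.card (Quot r') = Nat.card (Quot r) := by
  have h1 : Finite (Quot r) := Finite.of_surjective (Quot.mk r) Quot.mk_surjective
  have h2 : Finite (Quot r') := Finite.of_surjective (Quot.mk r') Quot.mk_surjective
  refine le_antisymm (brg_le h) ?_
  refine Nat.card_le_card_of_surjective (Quot.lift (fun u => Quot.mk r u) h') ?_
  exact fun c => Quot.inductionOn c fun u => ⟨Quot.mk r' u, rfl⟩

private theorem brg_adj1 (l : List Bool) (e : ℕ × ℕ) (E : List (ℕ × ℕ)) (A : Finset (Fin E.length))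
    (u v : Fin l.length) :
    adj (l, e :: E) (A.image Fin.succ) u v ↔ adj (l, E) A u v := by
  unfold adj
  constructor
  · rintro ⟨i, hi, h1, h2⟩
    obtain ⟨j, hj, rfl⟩ := Finset.mem_image.1 hi
    exact ⟨j, hj, h1, h2⟩
  · rintro ⟨j, hj, h1, h2⟩
    exact ⟨Fin.succ j, Finset.mem_image_of_mem _ hj, h1, h2⟩

private theorem brg_adj2 (l : List Bool) (e : ℕ × ℕ) (E : List (ℕ × ℕ)) (A : Finset (Fin E.length))
    (u v : Fin l.length) :
    adj (l, e :: E) (insert (0 : Fin (E.length + 1)) (A.image Fin.succ)) u v ↔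
      (e.1 = u ∧ e.2 = v) ∨ adj (l, E) A u v := by
  rw [← brg_adj1 l e E A u v]
  unfold adj
  constructor
  · rintro ⟨i, hi, h1, h2⟩
    rcases Finset.mem_insert.1 hi with rfl | hi
    · exact Or.inl ⟨h1, h2⟩
    · exact Or.inr ⟨i, hi, h1, h2⟩
  · rintro (⟨h1, h2⟩ | ⟨i, hi, h1, h2⟩)
    · exact ⟨0, Finset.mem_insert_self _ _, h1, h2⟩
    · exact ⟨i, Finset.mem_insert_of_mem hi, h1, h2⟩

private theorem brg_c1 (l : List Bool) (e : ℕ × ℕ) (E : List (ℕ × ℕ)) (A : Finset (Fin E.length)) :
    comps (l, e :: E) (A.image Fin.succ) = comps (l, E) A := by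
  unfold comps
  have h : adj (l, e :: E) (A.image Fin.succ) = adj (l, E) A := by
    funext u v
    exact propext (brg_adj1 l e E A u v)
  rw [h]

private theorem brg_univ (m : ℕ) : (Finset.univ : Finset (Fin (m + 1))) =
    insert 0 ((Finset.univ : Finset (Fin m)).image Fin.succ) := by
  ext i
  refine ⟨fun _ => ?_, fun _ => Finset.mem_univ _⟩
  rcases Fin.eq_zero_or_eq_succ i with rfl | ⟨j, rfl⟩
  · exact Finset.mem_insert_self _ _
  · exact Finset.mem_insert_of_mem (Finset.mem_image_of_mem _ (Finset.mem_univ _))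

/-- the new edge joins two classes of `A` -/
private theorem brg_c2 {l : List Bool} {e : ℕ × ℕ} {E : List (ℕ × ℕ)} (hG : Valid (l, e :: E))
    {a b : Fin l.length} (ha : (a : ℕ) = e.1) (hb : (b : ℕ) = e.2) (A : Finset (Fin E.length))
    (hne : Quot.mk (adj (l, E) A) a ≠ Quot.mk (adj (l, E) A) b) :
    comps (l, e :: E) (insert (0 : Fin (E.length + 1)) (A.image Fin.succ)) + 1 = comps (l, E) A := by
  have h1 := comps_insert (l, e :: E) hG (A.image Fin.succ) (0 : Fin (E.length + 1))
  rw [brg_c1] at h1
  have h2 : comps (l, e :: E) (insert (0 : Fin (E.length + 1)) (A.image Fin.succ)) < comps (l, E) A := by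
    unfold comps
    refine brg_lt (α := Fin l.length) (a := a) (b := b) (fun u v h => ?_) ?_ hne
    · exact (brg_adj2 l e E A u v).2 (Or.inr h)
    · exact (brg_adj2 l e E A a b).2 (Or.inl ⟨ha.symm, hb.symm⟩)
  omega

private theorem brg_tut {l : List Bool} {e : ℕ × ℕ} {E : List (ℕ × ℕ)} (hG : Valid (l, e :: E))
    {a b : Fin l.length} (ha : (a : ℕ) = e.1) (hb : (b : ℕ) = e.2)
    (hne : Quot.mk (adj (l, E) Finset.univ) a ≠ Quot.mk (adj (l, E) Finset.univ) b) (x y : ℚ) :
    tutte x y (l, e :: E) = x * tutte x y (l, E) := by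
  have hG0 : Valid (l, E) := fun f hf => hG f (List.mem_cons_of_mem _ hf)
  have hneA : ∀ A : Finset (Fin E.length), Quot.mk (adj (l, E) A) a ≠ Quot.mk (adj (l, E) A) b := by
    intro A h
    apply hne
    obtain ⟨f, -, hf⟩ := brg_sur (r := adj (l, E) A) (r' := adj (l, E) Finset.univ) (fun u v h => by
      obtain ⟨i, -, hi⟩ := h
      exact ⟨i, Finset.mem_univ _, hi⟩)
    have h1 := congrArg f h
    rwa [hf, hf] at h1
  have hC := brg_c2 hG ha hb Finset.univ (hneA Finset.univ)
  have hU : comps (l, e :: E) (Finset.univ : Finset (Fin (E.length + 1))) + 1 = comps (l, E) Finset.univ := by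
    rw [brg_univ]
    exact hC
  have h1 : tutte x y (l, e :: E) = ∑ A ∈ (Finset.univ : Finset (Fin (E.length + 1))).powerset,
      (x - 1) ^ (comps (l, e :: E) A - comps (l, e :: E) (Finset.univ : Finset (Fin (E.length + 1)))) *
        (y - 1) ^ (A.card + comps (l, e :: E) A - l.length) := by
    rw [Finset.powerset_univ]
    rfl
  have h0 : (0 : Fin (E.length + 1)) ∉ (Finset.univ : Finset (Fin E.length)).image Fin.succ := by
    intro h
    obtain ⟨j, -, hj⟩ := Finset.mem_image.1 h
    exact Fin.succ_ne_zero j hj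
  have h2 : ∀ g : Finset (Fin (E.length + 1)) → ℚ,
      ∑ A ∈ ((Finset.univ : Finset (Fin E.length)).image Fin.succ).powerset, g A =
        ∑ A : Finset (Fin E.length), g (A.image Fin.succ) := by
    intro g
    rw [Finset.powerset_image, Finset.sum_image, Finset.powerset_univ]
    intro A _ B _ h
    exact Finset.image_injective (Fin.succ_injective _) h
  rw [h1]
  conv_lhs => rw [brg_univ]
  rw [Finset.sum_powerset_insert h0, h2, h2, ← Finset.sum_add_distrib]
  unfold tutte
  rw [Finset.mul_sum]
  refine Finset.sum_congr rfl fun A _ => ?_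
  have h3 : (0 : Fin (E.length + 1)) ∉ A.image Fin.succ := by
    intro h
    obtain ⟨j, -, hj⟩ := Finset.mem_image.1 h
    exact Fin.succ_ne_zero j hj
  have h4 := brg_c2 hG ha hb A (hneA A)
  have h5 := comps_anti (l, E) (Finset.subset_univ A)
  have h6 := le_card_add_comps (l, E) hG0 A
  rw [Finset.card_insert_of_notMem h3, Finset.card_image_of_injective _ (Fin.succ_injective _), brg_c1,
    ← brg_univ]
  have e1 : comps (l, E) A - comps (l, e :: E) (Finset.univ : Finset (Fin (E.length + 1))) =
      comps (l, E) A - comps (l, E) Finset.univ + 1 := by omega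
  have e2 : comps (l, e :: E) (insert (0 : Fin (E.length + 1)) (A.image Fin.succ)) -
      comps (l, e :: E) (Finset.univ : Finset (Fin (E.length + 1))) =
      comps (l, E) A - comps (l, E) Finset.univ := by omega
  have e3 : A.card + 1 + comps (l, e :: E) (insert (0 : Fin (E.length + 1)) (A.image Fin.succ)) - l.length =
      A.card + comps (l, E) A - l.length := by omega
  rw [e1, e2, e3, pow_succ]
  show _ = x * ((x - 1) ^ (comps (l, E) A - comps (l, E) Finset.univ) * (y - 1) ^ (A.card + comps (l, E) A - l.length))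
  ring

/-- the vertices `u`, `v` are in the same class -/
private def brgS (l : List Bool) (E : List (ℕ × ℕ)) (u v : Fin l.length) : Prop :=
  Quot.mk (adj (l, E) Finset.univ) u = Quot.mk (adj (l, E) Finset.univ) v

private theorem brg_S (l : List Bool) (e : ℕ × ℕ) (E : List (ℕ × ℕ)) (u v : Fin l.length) (h : brgS l E u v) :
    brgS l (e :: E) u v := by
  unfold brgS at *
  obtain ⟨f, -, hf⟩ := brg_sur (r := adj (l, E) Finset.univ) (r' := adj (l, e :: E) Finset.univ) (fun u v h => by
    obtain ⟨i, -, hi⟩ := h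
    exact ⟨Fin.succ i, Finset.mem_univ _, hi⟩)
  have h1 := congrArg f h
  rwa [hf, hf] at h1

private theorem brg_step {l : List Bool} {E : List (ℕ × ℕ)} (hG : Valid (l, E)) (hn : 0 < l.length)
    {v : ℕ} (hv : v < l.length) :
    Valid (l, stB l E v) ∧ E.length ≤ (stB l E v).length ∧ (stB l E v).length ≤ E.length + 1 ∧
      brgS l (stB l E v) ⟨0, hn⟩ ⟨v, hv⟩ ∧ (∀ u w, brgS l E u w → brgS l (stB l E v) u w) ∧
      ∀ x y : ℚ, tutte x y (l, stB l E v) = x ^ ((stB l E v).length - E.length) * tutte x y (l, E) := by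
  have hG1 : Valid (l, (0, v) :: E) := by
    intro f hf
    rcases List.mem_cons.1 hf with rfl | hf
    · exact ⟨hn, hv⟩
    · exact hG f hf
  have h1 := comps_add_mergers hG
  have h2 := comps_add_mergers hG1
  unfold stB
  by_cases hc : (mergers (l, (0, v) :: E)).length = (mergers (l, E)).length
  · rw [if_pos hc]
    refine ⟨hG, le_rfl, by omega, ?_, fun _ _ h => h, fun x y => by rw [Nat.sub_self, pow_zero, one_mul]⟩
    by_contra hne
    have h3 := brg_c2 (e := (0, v)) hG1 (a := ⟨0, hn⟩) (b := ⟨v, hv⟩) rfl rfl Finset.univ hne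
    rw [← brg_univ] at h3
    have h4 : comps (l, (0, v) :: E) (Finset.univ : Finset (Fin (E.length + 1))) =
      comps (l, (0, v) :: E) Finset.univ := rfl
    have h5 : (l, E).1.length = (l, (0, v) :: E).1.length := rfl
    omega
  · rw [if_neg hc]
    have hS : brgS l ((0, v) :: E) ⟨0, hn⟩ ⟨v, hv⟩ :=
      Quot.sound ⟨(0 : Fin (E.length + 1)), Finset.mem_univ _, rfl, rfl⟩
    refine ⟨hG1, by rw [List.length_cons]; omega, by rw [List.length_cons], hS, fun u w h => brg_S _ _ _ _ _ h, ?_⟩
    intro x y
    have h6 : ((0, v) :: E).length - E.length = 1 := by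
      rw [List.length_cons]
      omega
    rw [h6, pow_one]
    refine brg_tut hG1 (a := ⟨0, hn⟩) (b := ⟨v, hv⟩) rfl rfl ?_ x y
    intro hne
    apply hc
    have h7 : comps (l, (0, v) :: E) Finset.univ = comps (l, E) Finset.univ := by
      unfold comps
      refine brg_eq (α := Fin l.length) (fun u w h => ?_) (fun u w h => ?_)
      · obtain ⟨i, -, hi⟩ := h
        exact ⟨Fin.succ i, Finset.mem_univ _, hi⟩
      · obtain ⟨i, -, hi⟩ := h
        rcases Fin.eq_zero_or_eq_succ (n := E.length) i with rfl | ⟨j, rfl⟩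
        · obtain ⟨h8, h9⟩ := hi
          have h10 : u = ⟨0, hn⟩ := Fin.ext h8.symm
          have h11 : w = ⟨v, hv⟩ := Fin.ext h9.symm
          rw [h10, h11]
          exact hne
        · exact Quot.sound ⟨j, Finset.mem_univ _, hi⟩
    have h5 : (l, E).1.length = (l, (0, v) :: E).1.length := rfl
    omega

private theorem brg_fold {l : List Bool} (hn : 0 < l.length) (L : List ℕ) (hL : ∀ v ∈ L, v < l.length)
    (E : List (ℕ × ℕ)) (hG : Valid (l, E)) :
    Valid (l, L.foldl (stB l) E) ∧ E.length ≤ (L.foldl (stB l) E).length ∧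
      (∀ (v : ℕ) (hv : v < l.length), v ∈ L → brgS l (L.foldl (stB l) E) ⟨0, hn⟩ ⟨v, hv⟩) ∧
      (∀ u w, brgS l E u w → brgS l (L.foldl (stB l) E) u w) ∧
      ∀ x y : ℚ, tutte x y (l, L.foldl (stB l) E) = x ^ ((L.foldl (stB l) E).length - E.length) * tutte x y (l, E) := by
  induction L generalizing E with
  | nil =>
    refine ⟨hG, le_rfl, fun v hv h => absurd h List.not_mem_nil, fun _ _ h => h, fun x y => ?_⟩
    rw [List.foldl_nil, Nat.sub_self, pow_zero, one_mul]
  | cons a L ih =>
    rw [List.foldl_cons]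
    obtain ⟨h1, h2, -, h3, h4, h5⟩ := brg_step hG hn (hL a List.mem_cons_self)
    obtain ⟨h6, h7, h8, h9, h10⟩ := ih (fun v hv => hL v (List.mem_cons_of_mem _ hv)) (stB l E a) h1
    refine ⟨h6, h2.trans h7, fun v hv h => ?_, fun u w h => h9 u w (h4 u w h), fun x y => ?_⟩
    · rcases List.mem_cons.1 h with rfl | h
      · exact h9 _ _ h3
      · exact h8 v hv h
    · rw [h10, h5, ← mul_assoc, ← pow_add]
      congr 2
      omega

theorem brg_len (l : List Bool) (E : List (ℕ × ℕ)) :
    E.length ≤ (brg l E).length ∧ (brg l E).length ≤ E.length + l.length := by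
  have h : ∀ (L : List ℕ) (E : List (ℕ × ℕ)), E.length ≤ (L.foldl (stB l) E).length ∧
      (L.foldl (stB l) E).length ≤ E.length + L.length := by
    intro L
    induction L with
    | nil => exact fun E => ⟨le_rfl, le_rfl⟩
    | cons a L ih =>
      intro E
      rw [List.foldl_cons, List.length_cons]
      obtain ⟨h1, h2⟩ := ih (stB l E a)
      have h3 : E.length ≤ (stB l E a).length ∧ (stB l E a).length ≤ E.length + 1 := by
        unfold stB
        split_ifs
        · exact ⟨le_rfl, by omega⟩
        · rw [List.length_cons]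
          exact ⟨by omega, le_rfl⟩
      omega
  have h1 := h (List.range l.length) E
  rw [List.length_range] at h1
  exact h1

theorem valid_brg {G : MG} (hG : Valid G) : Valid (G.1, brg G.1 G.2) := by
  obtain ⟨l, E⟩ := G
  rcases Nat.eq_zero_or_pos l.length with h | h
  · have h1 : brg l E = E := by
      unfold brg
      rw [h]
      rfl
    rw [h1]
    exact hG
  · exact (brg_fold h (List.range l.length) (fun v hv => List.mem_range.1 hv) E hG).1

theorem comps_brg {G : MG} (hG : Valid G) (hn : 0 < G.1.length) :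
    comps (G.1, brg G.1 G.2) Finset.univ = 1 := by
  obtain ⟨l, E⟩ := G
  have h := (brg_fold hn (List.range l.length) (fun v hv => List.mem_range.1 hv) E hG).2.2.1
  have h1 : ∀ c : Quot (adj (l, brg l E) Finset.univ), c = Quot.mk _ ⟨0, hn⟩ := by
    intro c
    induction c using Quot.ind with
    | mk u => exact (h u.1 u.2 (List.mem_range.2 u.2)).symm
  unfold comps
  rw [Nat.card_eq_one_iff_unique]
  exact ⟨⟨fun c d => (h1 c).trans (h1 d).symm⟩, ⟨Quot.mk _ ⟨0, hn⟩⟩⟩

theorem tutte_brg {G : MG} (hG : Valid G) (x y : ℚ) :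
    tutte x y (G.1, brg G.1 G.2) = x ^ ((brg G.1 G.2).length - G.2.length) * tutte x y G := by
  obtain ⟨l, E⟩ := G
  rcases Nat.eq_zero_or_pos l.length with h | h
  · have h1 : brg l E = E := by
      unfold brg
      rw [h]
      rfl
    show tutte x y (l, brg l E) = x ^ ((brg l E).length - E.length) * tutte x y (l, E)
    rw [h1, Nat.sub_self, pow_zero, one_mul]
  · exact (brg_fold h (List.range l.length) (fun v hv => List.mem_range.1 hv) E hG).2.2.2.2 x y

end BSI.M
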