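import Pool.Agent.BSI.Two

/-!
# BSI-Cgr: the partition function depends only on the labels between the vertices and the blocks

Induction on `X.1.card` (generalise everything). `X.1 = ∅`: both are `1` (`T_empty`). Otherwise `T_rec`; the map `(t, (C, f)) ↦ (t, (C.image σ, f))` is a bijection from `lts X` to `lts X'` (`lts_two`, `lts_one`; `σ` is injective on
`X.2` with image `X'.2`; use `Finset.sum_nbij'` or `Finset.sum_bij`), `wl` is the same (`Finset.prod_image`), and the induction hypothesis applies to `nx X l`, `nx X' l'`: the bijection of the blocks is `σ` on `X.2 \ C` and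
`blk t C ↦ blk t (C.image σ)` (`Function.update σ (blk t C) (blk t (C.image σ))`), the label of the new block is `yb_blk` (a product over `C`). For `f = true` the bijection is `σ` restricted. `Wf_nx`, `blk_notMem`.
`T_contract`: `T_ins` for `u` on the left side (`ins_two`, the state `(V.erase v, ∅)` has no blocks: only `C = ∅`), then `T_congr` with `σ {u} = {u, v}` (labels `Y t u * Y t v` by definition) and with `σ = id` for `(.., ∅)`. For `V.card = 2`, `V.erase v = {u}`: `T = 1` (`ins_one` or `T_rec`).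
-/

set_option autoImplicit false

namespace BSI

open Finset ACY

private lemma Cgr_sdiff {A B C : Finset (Finset ℕ)} {σ : Finset ℕ → Finset ℕ}
    (hσ : Set.BijOn σ (A : Set (Finset ℕ)) (B : Set (Finset ℕ))) (hC : C ⊆ A) :
    Set.BijOn σ ((A \ C : Finset (Finset ℕ)) : Set (Finset ℕ))
      ((B \ C.image σ : Finset (Finset ℕ)) : Set (Finset ℕ)) := by
  refine ⟨?_, ?_, ?_⟩
  · intro x hx
    have hx' := Finset.mem_sdiff.1 (Finset.mem_coe.1 hx)
    refine Finset.mem_coe.2 (Finset.mem_sdiff.2 ⟨Finset.mem_coe.1 (hσ.mapsTo hx'.1), ?_⟩)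
    intro h
    obtain ⟨y, hy, hyx⟩ := Finset.mem_image.1 h
    have := hσ.injOn (Finset.mem_coe.2 (hC hy)) (Finset.mem_coe.2 hx'.1) hyx
    exact hx'.2 (this ▸ hy)
  · intro x hx y hy hxy
    exact hσ.injOn (Finset.mem_coe.2 (Finset.mem_sdiff.1 (Finset.mem_coe.1 hx)).1)
      (Finset.mem_coe.2 (Finset.mem_sdiff.1 (Finset.mem_coe.1 hy)).1) hxy
  · intro y hy
    have hy' := Finset.mem_sdiff.1 (Finset.mem_coe.1 hy)
    obtain ⟨x, hx, hxy⟩ := hσ.surjOn (Finset.mem_coe.2 hy'.1)
    refine ⟨x, Finset.mem_coe.2 (Finset.mem_sdiff.2 ⟨Finset.mem_coe.1 hx, ?_⟩), hxy⟩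
    intro h
    exact hy'.2 (Finset.mem_image.2 ⟨x, h, hxy⟩)

private lemma Cgr_prod {A B C : Finset (Finset ℕ)} {σ : Finset ℕ → Finset ℕ}
    (hσ : Set.BijOn σ (A : Set (Finset ℕ)) (B : Set (Finset ℕ))) (hC : C ⊆ A)
    (f : Finset ℕ → ℝ) : ∏ D ∈ C.image σ, f D = ∏ D ∈ C, f (σ D) :=
  Finset.prod_image fun _ hx _ hy h =>
    hσ.injOn (Finset.mem_coe.2 (hC hx)) (Finset.mem_coe.2 (hC hy)) h

private lemma Cgr_image {A B : Finset (Finset ℕ)} {σ : Finset ℕ → Finset ℕ}
    (hσ : Set.BijOn σ (A : Set (Finset ℕ)) (B : Set (Finset ℕ))) : A.image σ = B := by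
  apply Finset.coe_injective
  rw [Finset.coe_image]
  exact hσ.image_eq

private lemma Cgr_pow {A B : Finset (Finset ℕ)} {σ : Finset ℕ → Finset ℕ}
    (hσ : Set.BijOn σ (A : Set (Finset ℕ)) (B : Set (Finset ℕ))) (f g : Finset (Finset ℕ) → ℝ)
    (h : ∀ C, C ⊆ A → f C = g (C.image σ)) : ∑ C ∈ A.powerset, f C = ∑ C ∈ B.powerset, g C := by
  refine Finset.sum_nbij (fun C => C.image σ) ?_ ?_ ?_ fun C hC => h C (Finset.mem_powerset.1 hC)
  · intro C hC
    rw [Finset.mem_powerset, ← Cgr_image hσ]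
    exact Finset.image_subset_image (Finset.mem_powerset.1 hC)
  · intro C hC D hD hCD
    have hC' : C ⊆ A := Finset.mem_powerset.1 (Finset.mem_coe.1 hC)
    have hD' : D ⊆ A := Finset.mem_powerset.1 (Finset.mem_coe.1 hD)
    have key : ∀ E F : Finset (Finset ℕ), E ⊆ A → F ⊆ A → E.image σ = F.image σ → E ⊆ F := by
      intro E F hE hF hEF x hx
      have h1 : σ x ∈ F.image σ := hEF ▸ Finset.mem_image_of_mem σ hx
      obtain ⟨y, hy, hyx⟩ := Finset.mem_image.1 h1
      have := hσ.injOn (Finset.mem_coe.2 (hF hy)) (Finset.mem_coe.2 (hE hx)) hyx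
      exact this ▸ hy
    exact Finset.Subset.antisymm (key C D hC' hD' hCD) (key D C hD' hC' hCD.symm)
  · intro D hD
    have hD' : D ⊆ B := Finset.mem_powerset.1 (Finset.mem_coe.1 hD)
    refine ⟨A.filter fun x => σ x ∈ D, Finset.mem_coe.2 (Finset.mem_powerset.2
      (Finset.filter_subset _ _)), ?_⟩
    ext y
    rw [Finset.mem_image]
    constructor
    · rintro ⟨x, hx, rfl⟩
      exact (Finset.mem_filter.1 hx).2
    · intro hy
      obtain ⟨x, hx, hxy⟩ := hσ.surjOn (Finset.mem_coe.2 (hD' hy))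
      exact ⟨x, Finset.mem_filter.2 ⟨Finset.mem_coe.1 hx, hxy.symm ▸ hy⟩, hxy⟩

private lemma Cgr_aux (Y Y' : ℕ → ℕ → ℝ) (a : ℝ) (n : ℕ) : ∀ (X X' : St), X.1.card = n → Wf X → Wf X' →
    X.1 = X'.1 → ∀ (σ : Finset ℕ → Finset ℕ),
    Set.BijOn σ (X.2 : Set (Finset ℕ)) (X'.2 : Set (Finset ℕ)) →
    (∀ t ∈ X.1, ∀ B ∈ X.2, yb Y t B = yb Y' t (σ B)) →
    (∀ t ∈ X.1, ∀ u ∈ X.1, t ≠ u → Y t u = Y' t u) → T Y a X = T Y' a X' := by
  induction n with
  | zero =>
    intro X X' hn _ _ h1 _ _ _ _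
    have h0 : X.1 = ∅ := Finset.card_eq_zero.1 hn
    rw [T_empty h0, T_empty (h1 ▸ h0)]
  | succ n ih =>
    intro X X' hn hX hX' h1 σ hσ hy hR
    have hne : X.1.Nonempty := Finset.card_pos.1 (by omega)
    have hne' : X'.1.Nonempty := h1 ▸ hne
    have hcc : ∀ t ∈ X.1, ∀ C, C ⊆ X.2 → cc Y t C = cc Y' t (C.image σ) := by
      intro t ht C hC
      unfold cc
      rw [Cgr_prod hσ hC]
      exact Finset.prod_congr rfl fun B hB => by rw [hy t ht B (hC hB)]
    rw [T_sum_ins hne, T_sum_ins hne', ← h1]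
    congr 1
    refine Finset.sum_congr rfl fun t ht => ?_
    have ht' : t ∈ X'.1 := h1 ▸ ht
    by_cases hc : 2 ≤ X.1.card
    · rw [ins_two hc ht, ins_two (h1 ▸ hc) ht']
      refine Cgr_pow hσ _ _ fun C hC => ?_
      have hC' : C.image σ ⊆ X'.2 := by
        rw [← Cgr_image hσ]
        exact Finset.image_subset_image hC
      have hbs := Cgr_sdiff hσ hC
      have hce : (X.1.erase t).card = n := by
        rw [Finset.card_erase_of_mem ht]
        omega
      have hl : ∀ f : Bool, ((t, (C, f)) : Le) ∈ lts X := fun f => (lts_two hc).2 ⟨ht, hC⟩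
      have hl' : ∀ f : Bool, ((t, (C.image σ, f)) : Le) ∈ lts X' := fun f =>
        (lts_two (h1 ▸ hc)).2 ⟨ht', hC'⟩
      have hb := blk_notMem hX ht C
      have hb' := blk_notMem hX' ht' (C.image σ)
      have e1 : T Y a (nx X (t, (C, true))) = T Y' a (nx X' (t, (C.image σ, true))) := by
        refine ih _ _ hce (Wf_nx hX (hl true)) (Wf_nx hX' (hl' true)) ?_ σ hbs ?_ ?_
        · change X.1.erase t = X'.1.erase t
          rw [h1]
        · intro s hs B hB
          exact hy s (Finset.mem_of_mem_erase hs) B (Finset.mem_sdiff.1 hB).1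
        · intro s hs u hu hsu
          exact hR s (Finset.mem_of_mem_erase hs) u (Finset.mem_of_mem_erase hu) hsu
      have e2 : T Y a (nx X (t, (C, false))) = T Y' a (nx X' (t, (C.image σ, false))) := by
        have hσ1 : ∀ B ∈ X.2 \ C, Function.update σ (blk t C) (blk t (C.image σ)) B = σ B := by
          intro B hB
          apply Function.update_of_ne
          rintro rfl
          exact hb (Finset.mem_sdiff.1 hB).1
        have hbs2 : Set.BijOn (Function.update σ (blk t C) (blk t (C.image σ)))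
            ((X.2 \ C : Finset (Finset ℕ)) : Set (Finset ℕ))
            ((X'.2 \ C.image σ : Finset (Finset ℕ)) : Set (Finset ℕ)) := by
          refine hbs.congr ?_
          intro B hB
          exact (hσ1 B (Finset.mem_coe.1 hB)).symm
        refine ih _ _ hce (Wf_nx hX (hl false)) (Wf_nx hX' (hl' false)) ?_
          (Function.update σ (blk t C) (blk t (C.image σ))) ?_ ?_ ?_
        · change X.1.erase t = X'.1.erase t
          rw [h1]
        · change Set.BijOn _ ((insert (blk t C) (X.2 \ C) : Finset (Finset ℕ)) : Set (Finset ℕ))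
            ((insert (blk t (C.image σ)) (X'.2 \ C.image σ) : Finset (Finset ℕ)) :
              Set (Finset ℕ))
          rw [Finset.coe_insert, Finset.coe_insert]
          have h3 := hbs2.insert (a := blk t C) (by
            rw [Function.update_self]
            intro h
            exact hb' (Finset.mem_sdiff.1 (Finset.mem_coe.1 h)).1)
          rw [Function.update_self] at h3
          exact h3
        · intro s hs B hB
          have hs1 : s ∈ X.1 := Finset.mem_of_mem_erase hs
          have hst : s ≠ t := Finset.ne_of_mem_erase hs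
          rcases Finset.mem_insert.1 hB with h2 | h2
          · subst h2
            change yb Y s (blk t C) = yb Y' s (Function.update σ (blk t C) (blk t (C.image σ)) (blk t C))
            rw [Function.update_self, yb_blk hX ht hC, yb_blk hX' ht' hC', hR s hs1 t ht hst,
              Cgr_prod hσ hC]
            congr 1
            exact Finset.prod_congr rfl fun B hB => hy s hs1 B (hC hB)
          · rw [hσ1 B h2]
            exact hy s hs1 B (Finset.mem_sdiff.1 h2).1
        · intro s hs u hu hsu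
          exact hR s (Finset.mem_of_mem_erase hs) u (Finset.mem_of_mem_erase hu) hsu
      rw [hcc t ht C hC, e1, e2]
    · have hc1 : X.1.card = 1 := by omega
      obtain ⟨t', ht1⟩ := Finset.card_eq_one.1 hc1
      have htt : t = t' := Finset.mem_singleton.1 (ht1 ▸ ht)
      subst htt
      rw [ins_one ht1, ins_one (h1 ▸ ht1), T_empty rfl, T_empty rfl, hcc t ht X.2 (Finset.Subset.refl _),
        Cgr_image hσ]

theorem T_congr {Y Y' : ℕ → ℕ → ℝ} {a : ℝ} {X X' : St} (hX : Wf X) (hX' : Wf X') (h1 : X.1 = X'.1)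
    (σ : Finset ℕ → Finset ℕ) (hσ : Set.BijOn σ (X.2 : Set (Finset ℕ)) (X'.2 : Set (Finset ℕ)))
    (hy : ∀ t ∈ X.1, ∀ B ∈ X.2, yb Y t B = yb Y' t (σ B))
    (hR : ∀ t ∈ X.1, ∀ u ∈ X.1, t ≠ u → Y t u = Y' t u) : T Y a X = T Y' a X' :=
  Cgr_aux Y Y' a X.1.card X X' rfl hX hX' h1 σ hσ hy hR

/-- the labels after the contraction of `u`, `v` to `u` -/
noncomputable def conY (u v : ℕ) (Y : ℕ → ℕ → ℝ) (x z : ℕ) : ℝ :=
  if x = u then Y u z * Y v z else if z = u then Y x u * Y x v else Y x z

private lemma Cgr_con_symm {Y : ℕ → ℕ → ℝ} (hY : ∀ x z, Y x z = Y z x) (u v x z : ℕ) :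
    conY u v Y x z = conY u v Y z x := by
  unfold conY
  by_cases hx : x = u
  · by_cases hz : z = u
    · rw [hx, hz]
    · rw [if_pos hx, if_neg hz, if_pos hx, hY u z, hY v z]
  · by_cases hz : z = u
    · rw [if_neg hx, if_pos hz, if_pos hz, hY u x, hY v x]
    · rw [if_neg hx, if_neg hz, if_neg hz, if_neg hx, hY x z]

private lemma Cgr_wf_empty (A : Finset ℕ) : Wf (A, ∅) := by
  refine ⟨?_, ?_, ?_⟩
  · intro B hB
    exact absurd hB (Finset.notMem_empty B)
  · intro B hB
    exact absurd hB (Finset.notMem_empty B)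
  · intro B hB
    exact absurd hB (Finset.notMem_empty B)

private lemma Cgr_wf_single {A B : Finset ℕ} (hB : B.Nonempty) (hd : Disjoint B A) : Wf (A, {B}) := by
  refine ⟨?_, ?_, ?_⟩
  · intro C hC
    rw [Finset.mem_singleton.1 hC]
    exact hB
  · intro C hC D hD hne
    exact absurd ((Finset.mem_singleton.1 hC).trans (Finset.mem_singleton.1 hD).symm) hne
  · intro C hC
    rw [Finset.mem_singleton.1 hC]
    exact hd

theorem T_contract {Y : ℕ → ℕ → ℝ} (hY : ∀ x z, Y x z = Y z x) {a : ℝ} {V : Finset ℕ} {u v : ℕ} (hu : u ∈ V)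
    (hv : v ∈ V) (hne : u ≠ v) (h3 : 3 ≤ V.card) :
    T (conY u v Y) a (V.erase v, ∅) =
      T Y a ((V.erase u).erase v, {{u, v}}) + a * T Y a ((V.erase u).erase v, ∅) := by
  have huv : u ∈ V.erase v := Finset.mem_erase.2 ⟨hne, hu⟩
  have hc : 2 ≤ (V.erase v).card := by
    rw [Finset.card_erase_of_mem hv]
    omega
  have e0 : T (conY u v Y) a (V.erase v, ∅) = ins (conY u v Y) a u (T (conY u v Y) a) (V.erase v, ∅) :=
    T_ins (X := (V.erase v, ∅)) (Cgr_con_symm hY u v) (Cgr_wf_empty _) huv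
  rw [e0, ins_two (X := (V.erase v, ∅)) hc huv]
  change ∑ C ∈ (∅ : Finset (Finset ℕ)).powerset, _ = _
  rw [Finset.powerset_empty, Finset.sum_singleton]
  have hb : blk u ∅ = {u} := by
    unfold blk
    rw [Finset.biUnion_empty, insert_empty_eq]
  have n1 : nx (V.erase v, ∅) (u, (∅, false)) = ((V.erase v).erase u, {{u}}) := by
    change ((V.erase v).erase u, insert (blk u ∅) ((∅ : Finset (Finset ℕ)) \ ∅)) = _
    rw [hb, Finset.sdiff_self, insert_empty_eq]
  have n2 : nx (V.erase v, ∅) (u, (∅, true)) = ((V.erase v).erase u, ∅) := by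
    change ((V.erase v).erase u, (∅ : Finset (Finset ℕ)) \ ∅) = _
    rw [Finset.sdiff_self]
  have hcc : cc (conY u v Y) u ∅ = 1 := by
    unfold cc
    exact Finset.prod_empty
  rw [n1, n2, hcc, one_mul]
  have hR : ∀ t ∈ (V.erase v).erase u, ∀ z ∈ (V.erase v).erase u, t ≠ z →
      conY u v Y t z = Y t z := by
    intro t ht z hz _
    unfold conY
    rw [if_neg (Finset.ne_of_mem_erase ht), if_neg (Finset.ne_of_mem_erase hz)]
  congr 1
  · refine T_congr (Cgr_wf_single (Finset.singleton_nonempty u) ?_)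
      (Cgr_wf_single ⟨u, Finset.mem_insert_self _ _⟩ ?_) Finset.erase_right_comm
      (fun _ => {u, v}) ?_ ?_ hR
    · rw [Finset.disjoint_singleton_left]
      exact Finset.notMem_erase _ _
    · rw [Finset.disjoint_left]
      intro x hx hx'
      rcases Finset.mem_insert.1 hx with h | h
      · exact (Finset.mem_erase.1 (Finset.mem_of_mem_erase hx')).1 h
      · exact (Finset.mem_erase.1 hx').1 (Finset.mem_singleton.1 h)
    · change Set.BijOn _ (({{u}} : Finset (Finset ℕ)) : Set (Finset ℕ))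
        (({{u, v}} : Finset (Finset ℕ)) : Set (Finset ℕ))
      rw [Finset.coe_singleton, Finset.coe_singleton]
      exact Set.bijOn_singleton.2 rfl
    · intro t ht B hB
      rw [Finset.mem_singleton.1 hB]
      unfold yb
      rw [Finset.prod_singleton, Finset.prod_pair hne]
      unfold conY
      rw [if_neg (Finset.ne_of_mem_erase ht), if_pos rfl]
  · congr 1
    refine T_congr (Cgr_wf_empty _) (Cgr_wf_empty _) Finset.erase_right_comm id ?_ ?_ hR
    · exact Set.bijOn_id _
    · intro t ht B hB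
      exact absurd hB (Finset.notMem_empty B)

theorem T_single {Y : ℕ → ℕ → ℝ} {a : ℝ} {u : ℕ} : T Y a ({u}, ∅) = 1 := by
  rw [T_sum_ins (X := ({u}, ∅)) (Finset.singleton_nonempty u)]
  change (∑ t ∈ ({u} : Finset ℕ), ins Y a t (T Y a) ({u}, ∅)) / ((({u} : Finset ℕ).card : ℕ) : ℝ) = 1
  rw [Finset.sum_singleton, ins_one (X := ({u}, ∅)) rfl, T_empty rfl, Finset.card_singleton]
  unfold cc
  change (∏ B ∈ (∅ : Finset (Finset ℕ)), (1 - yb Y u B)) * 1 / ((1 : ℕ) : ℝ) = 1
  rw [Finset.prod_empty]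
  norm_num

/-- the labels after the deletion of the pair `u v` -/
noncomputable def delY (u v : ℕ) (Y : ℕ → ℕ → ℝ) (x z : ℕ) : ℝ :=
  if (x = u ∧ z = v) ∨ (x = v ∧ z = u) then 1 else Y x z

end BSI
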