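import Pool.Agent.BSI.ChD

/-!
# BSI-ChA: the local chain is reversible; its Dirichlet form; laziness

PLAN. `Ex_mono'`, `Ex_congr'`, `Ex_ge`: induction on `n` (`h.pos`, `h.ok'`). `inc_lin`-facts: `inc` is linear in `f` (induction on the list). `inc_symm`: induction on `n` for `n + 2`; the part of the first site: by `sum_mid` the sum over `Z ∈ cov X, W ∈ cov Z` is a sum over `W` and
`Z ∈ mid cov X W`, and `∑ Z, ∑ Z' ∈ mid cov X W, kap X W * (p X Z * p Z W) * (p X Z' * p Z' W) * Ex n W (g (Z W l) * (f (Z' W l) - f (Z W l)))` is symmetric in `f`, `g` (`Finset.sum_comm`); the other sites: the induction hypothesis for `Z` and the functions `fun m => f (Z :: m)`,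
`fun m => g (Z :: m)`. (Work with `Ex_sum`, `Ex_smul`, `Ex_add`.) `inc_dir`: the same with `locQ`: `1 / 2 * (x - y) ^ 2 + 1 / 2 * (y - x) ^ 2` symmetrised gives `- x * (y - x)`; `inc2_dir`: `inc2` has the mean `2 * DirQ` (direct from the definitions, same recursion).
`inc_sq`: induction on the list with the hypothesis that every site has total rate `≤ 1 / 2`: `(b * inc)^2 ≤ (b * n / 2) * b * inc2` for a list of length `n` (Cauchy: `(∑ r d)^2 ≤ (∑ r) (∑ r d^2)`, and `(x + y)^2 ≤ (1 + s) x^2 + (1 + 1/s) y^2` in the form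
`(x + y)^2 / (A + B) ≤ x^2 / A + y^2 / B`; equivalently prove `(inc)^2 ≤ (n / 2) * inc2`).
-/

set_option autoImplicit false

namespace BSI.Ch

open Finset ACY ACY.GPoi

variable {α : Type} {cov : α → Finset α} {p t kap : α → α → ℝ} {rk : α → ℕ} {ok : α → Prop} {m : ℝ}

theorem Ex_mono' (h : Sys cov p t rk ok m) (n : ℕ) (X : α) (hX : ok X) (f g : List α → ℝ)
    (hf : ∀ l, Fl cov n X l → f l ≤ g l) : Ex cov p n X f ≤ Ex cov p n X g := by
  induction n generalizing X f g with
  | zero => exact hf [] rfl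
  | succ n ih =>
    exact Finset.sum_le_sum fun Z hZ => mul_le_mul_of_nonneg_left
      (ih Z (h.ok' X hX Z hZ) _ _ fun l hl => hf (Z :: l) ⟨hZ, hl⟩) (h.pos X hX Z hZ).le

theorem Ex_congr' (n : ℕ) (X : α) (f g : List α → ℝ) (hf : ∀ l, Fl cov n X l → f l = g l) :
    Ex cov p n X f = Ex cov p n X g := by
  induction n generalizing X f g with
  | zero => exact hf [] rfl
  | succ n ih =>
    refine Finset.sum_congr rfl fun Z hZ => ?_
    rw [ih Z _ (fun l => g (Z :: l)) fun l hl => hf (Z :: l) ⟨hZ, hl⟩]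

theorem Ex_ge (h : Sys cov p t rk ok m) (n : ℕ) (X : α) (hX : ok X) (f : List α → ℝ)
    (hf : ∀ l, Fl cov n X l → 0 ≤ f l) {l : List α} (hl : Fl cov n X l) : pp p X l * f l ≤ Ex cov p n X f := by
  induction n generalizing X f l with
  | zero =>
    have h1 : l = [] := hl
    subst h1
    simp [pp, Ex]
  | succ n ih =>
    cases l with
    | nil => exact absurd hl (by simp [Fl])
    | cons Z l =>
      have h0 : ∀ Z ∈ cov X, 0 ≤ Ex cov p n Z (fun l => f (Z :: l)) := fun Z hZ => by
        have h2 := Ex_mono' h n Z (h.ok' X hX Z hZ) (fun _ => 0) (fun l => f (Z :: l))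
          fun l hl => hf (Z :: l) ⟨hZ, hl⟩
        have h3 := Ex_smul (cov := cov) (p := p) 0 n Z (fun _ => 0)
        simp only [zero_mul, mul_zero] at h3
        linarith
      have h1 := ih Z (h.ok' X hX Z hl.1) (fun l => f (Z :: l)) (fun l hl' => hf (Z :: l) ⟨hl.1, hl'⟩) hl.2
      have h2 : p X Z * Ex cov p n Z (fun l => f (Z :: l)) ≤
          ∑ Z ∈ cov X, p X Z * Ex cov p n Z (fun l => f (Z :: l)) :=
        Finset.single_le_sum (f := fun Z => p X Z * Ex cov p n Z (fun l => f (Z :: l)))
          (fun Z hZ => mul_nonneg (h.pos X hX Z hZ).le (h0 Z hZ)) hl.1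
      calc pp p X (Z :: l) * f (Z :: l) = p X Z * (pp p Z l * f (Z :: l)) := by simp only [pp]; ring
        _ ≤ p X Z * Ex cov p n Z (fun l => f (Z :: l)) := mul_le_mul_of_nonneg_left h1 (h.pos X hX Z hl.1).le
        _ ≤ Ex cov p (n + 1) X f := h2

/-- exchange of the two middle flats -/
private theorem ChA_swap (X : α) (Q : α → α → α → ℝ) :
    ∑ Z ∈ cov X, ∑ W ∈ cov Z, p X Z * p Z W * ∑ Z' ∈ mid cov X W, kap X W * (p X Z' * p Z' W) * Q Z Z' W =
      ∑ Z ∈ cov X, ∑ W ∈ cov Z, p X Z * p Z W * ∑ Z' ∈ mid cov X W, kap X W * (p X Z' * p Z' W) * Q Z' Z W := by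
  classical
  rw [sum_mid, sum_mid]
  refine Finset.sum_congr rfl fun W _ => ?_
  simp only [Finset.mul_sum]
  rw [Finset.sum_comm]
  refine Finset.sum_congr rfl fun Z _ => Finset.sum_congr rfl fun Z' _ => ?_
  ring

/-- the part of the first site -/
private theorem ChA_sym (X : α) (Q R : α → α → α → ℝ)
    (hQ : ∀ Z Z' W, Q Z Z' W + Q Z' Z W = R Z Z' W + R Z' Z W) :
    ∑ Z ∈ cov X, ∑ W ∈ cov Z, p X Z * p Z W * ∑ Z' ∈ mid cov X W, kap X W * (p X Z' * p Z' W) * Q Z Z' W =
      ∑ Z ∈ cov X, ∑ W ∈ cov Z, p X Z * p Z W * ∑ Z' ∈ mid cov X W, kap X W * (p X Z' * p Z' W) * R Z Z' W := by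
  have h1 := ChA_swap (cov := cov) (p := p) (kap := kap) X Q
  have h2 := ChA_swap (cov := cov) (p := p) (kap := kap) X R
  have h3 : ∑ Z ∈ cov X, ∑ W ∈ cov Z, p X Z * p Z W *
        ∑ Z' ∈ mid cov X W, kap X W * (p X Z' * p Z' W) * Q Z Z' W +
      ∑ Z ∈ cov X, ∑ W ∈ cov Z, p X Z * p Z W *
        ∑ Z' ∈ mid cov X W, kap X W * (p X Z' * p Z' W) * Q Z' Z W =
      ∑ Z ∈ cov X, ∑ W ∈ cov Z, p X Z * p Z W *
        ∑ Z' ∈ mid cov X W, kap X W * (p X Z' * p Z' W) * R Z Z' W +
      ∑ Z ∈ cov X, ∑ W ∈ cov Z, p X Z * p Z W *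
        ∑ Z' ∈ mid cov X W, kap X W * (p X Z' * p Z' W) * R Z' Z W := by
    simp only [← Finset.sum_add_distrib, ← mul_add]
    refine Finset.sum_congr rfl fun Z _ => Finset.sum_congr rfl fun W _ => ?_
    congr 1
    refine Finset.sum_congr rfl fun Z' _ => ?_
    rw [hQ]
  linarith

/-- the recursion for the mean of a product with the generator -/
private theorem ChA_rec (n : ℕ) (X : α) (f g : List α → ℝ) :
    Ex cov p (n + 2) X (fun l => g l * inc cov p kap X l f) =
      ∑ Z ∈ cov X, p X Z * Ex cov p (n + 1) Z (fun l => g (Z :: l) * inc cov p kap Z l (fun m => f (Z :: m))) +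
      ∑ Z ∈ cov X, ∑ W ∈ cov Z, p X Z * p Z W * ∑ Z' ∈ mid cov X W, kap X W * (p X Z' * p Z' W) *
        Ex cov p n W (fun l => g (Z :: W :: l) * (f (Z' :: W :: l) - f (Z :: W :: l))) := by
  simp only [Ex]
  rw [← Finset.sum_add_distrib]
  refine Finset.sum_congr rfl fun Z _ => ?_
  rw [Finset.mul_sum, Finset.mul_sum, ← Finset.sum_add_distrib]
  refine Finset.sum_congr rfl fun W _ => ?_
  have h1 : ∀ l : List α, g (Z :: W :: l) * inc cov p kap X (Z :: W :: l) f =
      g (Z :: W :: l) * inc cov p kap Z (W :: l) (fun m => f (Z :: m)) +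
        ∑ Z' ∈ mid cov X W, kap X W * (p X Z' * p Z' W) *
          (g (Z :: W :: l) * (f (Z' :: W :: l) - f (Z :: W :: l))) := fun l => by
    rw [inc, mul_add, add_comm, Finset.mul_sum, Finset.mul_sum]
    congr 1
    exact Finset.sum_congr rfl fun Z' _ => by ring
  simp only [h1]
  rw [Ex_add, Ex_sum]
  simp only [Ex_smul]
  ring

theorem inc_symm (h : Sys cov p t rk ok m) (n : ℕ) (X : α) (hX : ok X) (hn : rk X = n) (f g : List α → ℝ) :
    Ex cov p n X (fun l => g l * inc cov p kap X l f) = Ex cov p n X (fun l => f l * inc cov p kap X l g) := by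
  induction n using Nat.strong_induction_on generalizing X f g with
  | _ n ih =>
    match n, hn, ih with
    | 0, _, _ => simp [Ex, inc]
    | 1, _, _ => simp [Ex, inc]
    | n + 2, hn, ih =>
      rw [ChA_rec, ChA_rec]
      congr 1
      · refine Finset.sum_congr rfl fun Z hZ => ?_
        rw [ih (n + 1) (by omega) Z (h.ok' X hX Z hZ) (by have := h.rk' X hX Z hZ; omega)
          (fun m => f (Z :: m)) (fun m => g (Z :: m))]
      · refine ChA_sym X _ _ fun Z Z' W => ?_
        rw [← Ex_add, ← Ex_add]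
        congr 1
        funext l
        ring

theorem inc_dir (h : Sys cov p t rk ok m) (n : ℕ) (X : α) (hX : ok X) (hn : rk X = n) (f : List α → ℝ) :
    Ex cov p n X (fun l => f l * inc cov p kap X l f) = - DirQ cov p (qk p kap) n X f := by
  induction n using Nat.strong_induction_on generalizing X f with
  | _ n ih =>
    match n, hn, ih with
    | 0, _, _ => simp [Ex, inc, DirQ]
    | 1, _, _ => simp [Ex, inc, DirQ]
    | n + 2, hn, ih =>
      rw [ChA_rec, DirQ, neg_add]
      congr 1
      · rw [← Finset.sum_neg_distrib]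
        refine Finset.sum_congr rfl fun Z hZ => ?_
        rw [ih (n + 1) (by omega) Z (h.ok' X hX Z hZ) (by have := h.rk' X hX Z hZ; omega)
          (fun m => f (Z :: m)), mul_neg]
      · have h1 := ChA_sym (cov := cov) (p := p) (kap := kap) X
          (fun Z Z' W => Ex cov p n W (fun l => f (Z :: W :: l) * (f (Z' :: W :: l) - f (Z :: W :: l))))
          (fun Z Z' W => (-1) * (1 / 2 * Ex cov p n W (fun l => (f (Z :: W :: l) - f (Z' :: W :: l)) ^ 2)))
          (fun Z Z' W => by
            simp only [← Ex_smul]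
            rw [← Ex_add, ← Ex_add]
            congr 1
            funext l
            ring)
        rw [h1, locQ, ← Finset.sum_neg_distrib]
        refine Finset.sum_congr rfl fun Z _ => ?_
        rw [← Finset.sum_neg_distrib]
        refine Finset.sum_congr rfl fun W _ => ?_
        rw [← mul_neg, ← Finset.sum_neg_distrib]
        congr 1
        refine Finset.sum_congr rfl fun Z' _ => ?_
        rw [qk]
        ring

theorem inc2_dir (h : Sys cov p t rk ok m) (n : ℕ) (X : α) (hX : ok X) (hn : rk X = n) (f : List α → ℝ) :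
    Ex cov p n X (fun l => inc2 cov p kap X l f) = 2 * DirQ cov p (qk p kap) n X f := by
  induction n using Nat.strong_induction_on generalizing X f with
  | _ n ih =>
    match n, hn, ih with
    | 0, _, _ => simp [Ex, inc2, DirQ]
    | 1, _, _ => simp [Ex, inc2, DirQ]
    | n + 2, hn, ih =>
      have h2 : Ex cov p (n + 2) X (fun l => inc2 cov p kap X l f) =
          ∑ Z ∈ cov X, p X Z * Ex cov p (n + 1) Z (fun l => inc2 cov p kap Z l (fun m => f (Z :: m))) +
          ∑ Z ∈ cov X, ∑ W ∈ cov Z, p X Z * p Z W * ∑ Z' ∈ mid cov X W, kap X W * (p X Z' * p Z' W) *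
            Ex cov p n W (fun l => (f (Z :: W :: l) - f (Z' :: W :: l)) ^ 2) := by
        simp only [Ex]
        rw [← Finset.sum_add_distrib]
        refine Finset.sum_congr rfl fun Z _ => ?_
        rw [Finset.mul_sum, Finset.mul_sum, ← Finset.sum_add_distrib]
        refine Finset.sum_congr rfl fun W _ => ?_
        have h1 : ∀ l : List α, inc2 cov p kap X (Z :: W :: l) f =
            inc2 cov p kap Z (W :: l) (fun m => f (Z :: m)) +
              ∑ Z' ∈ mid cov X W, kap X W * (p X Z' * p Z' W) *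
                (f (Z :: W :: l) - f (Z' :: W :: l)) ^ 2 := fun l => by
          rw [inc2, add_comm, Finset.mul_sum]
          congr 1
          exact Finset.sum_congr rfl fun Z' _ => by ring
        simp only [h1]
        rw [Ex_add, Ex_sum]
        simp only [Ex_smul]
        ring
      rw [h2, DirQ, mul_add]
      congr 1
      · rw [Finset.mul_sum]
        refine Finset.sum_congr rfl fun Z hZ => ?_
        rw [ih (n + 1) (by omega) Z (h.ok' X hX Z hZ) (by have := h.rk' X hX Z hZ; omega)
          (fun m => f (Z :: m))]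
        ring
      · rw [locQ, Finset.mul_sum]
        refine Finset.sum_congr rfl fun Z _ => ?_
        rw [Finset.mul_sum]
        refine Finset.sum_congr rfl fun W _ => ?_
        rw [Finset.mul_sum, Finset.mul_sum, Finset.mul_sum]
        refine Finset.sum_congr rfl fun Z' _ => ?_
        rw [qk]
        ring

theorem inc_sq (h : Sys cov p t rk ok m) (hk : ∀ X W, 0 ≤ kap X W)
    (hup : ∀ X, ok X → ∀ Z ∈ cov X, ∀ W ∈ cov Z, kap X W * mass cov p X W ≤ 1 / 2)
    (n : ℕ) (X : α) (hX : ok X) (f : List α → ℝ) {l : List α} (hl : Fl cov n X l) :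
    inc cov p kap X l f ^ 2 ≤ n / 2 * inc2 cov p kap X l f := by
  induction n generalizing X f l with
  | zero =>
    have h1 : l = [] := hl
    subst h1
    simp [inc, inc2]
  | succ n ih =>
    match l, hl with
    | [], hl => exact absurd hl (by simp [Fl])
    | [Z], hl => simp [inc, inc2]
    | Z :: W :: l, hl =>
      cases n with
      | zero => exact absurd hl.2 (by simp [Fl])
      | succ n =>
        have hZ : Z ∈ cov X := hl.1
        have hW : W ∈ cov Z := hl.2.1
        have hb := ih Z (h.ok' X hX Z hZ) (fun m => f (Z :: m)) hl.2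
        have hw : ∀ Z' ∈ mid cov X W, 0 ≤ p X Z' * p Z' W := fun Z' hZ' => by
          classical
          have h1 := Finset.mem_filter.1 hZ'
          exact (mul_pos (h.pos X hX Z' h1.1) (h.pos Z' (h.ok' X hX Z' h1.1) W h1.2)).le
        have hcs : (∑ Z' ∈ mid cov X W, p X Z' * p Z' W * (f (Z' :: W :: l) - f (Z :: W :: l))) ^ 2 ≤
            (∑ Z' ∈ mid cov X W, p X Z' * p Z' W) *
              ∑ Z' ∈ mid cov X W, p X Z' * p Z' W * (f (Z' :: W :: l) - f (Z :: W :: l)) ^ 2 :=
          Finset.sum_sq_le_sum_mul_sum_of_sq_le_mul _ hw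
            (fun Z' hZ' => mul_nonneg (hw Z' hZ') (sq_nonneg _)) (fun Z' _ => le_of_eq (by ring))
        have hm := hup X hX Z hZ W hW
        have hk0 := hk X W
        rw [mass] at hm
        set w := ∑ Z' ∈ mid cov X W, p X Z' * p Z' W with hwdef
        rw [inc, inc2]
        set S := ∑ Z' ∈ mid cov X W, p X Z' * p Z' W * (f (Z' :: W :: l) - f (Z :: W :: l)) with hS
        set T := ∑ Z' ∈ mid cov X W, p X Z' * p Z' W * (f (Z' :: W :: l) - f (Z :: W :: l)) ^ 2 with hT
        set b := inc cov p kap Z (W :: l) (fun m => f (Z :: m)) with hbdef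
        set B := inc2 cov p kap Z (W :: l) (fun m => f (Z :: m)) with hBdef
        have hT0 : 0 ≤ T := Finset.sum_nonneg fun Z' hZ' => mul_nonneg (hw Z' hZ') (sq_nonneg _)
        have ha : (kap X W * S) ^ 2 ≤ 1 / 2 * (kap X W * T) := by
          calc (kap X W * S) ^ 2 = kap X W * kap X W * S ^ 2 := by ring
            _ ≤ kap X W * kap X W * (w * T) := mul_le_mul_of_nonneg_left hcs (mul_nonneg hk0 hk0)
            _ = (kap X W * w) * (kap X W * T) := by ring
            _ ≤ 1 / 2 * (kap X W * T) := mul_le_mul_of_nonneg_right hm (mul_nonneg hk0 hT0)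
        push_cast at hb ⊢
        have hc : (0 : ℝ) < (n : ℝ) + 1 := by positivity
        generalize (n : ℝ) + 1 = c at hb hc ⊢
        generalize kap X W * S = a at ha ⊢
        generalize kap X W * T = A at ha ⊢
        refine le_of_mul_le_mul_left ?_ hc
        have h1 : 0 ≤ c * (c + 1) * (1 / 2 * A - a ^ 2) :=
          mul_nonneg (by positivity) (by linarith)
        have h2 : 0 ≤ (c + 1) * (c / 2 * B - b ^ 2) :=
          mul_nonneg (by positivity) (by linarith)
        nlinarith [sq_nonneg (c * a - b)]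

end BSI.Ch
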