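import Pool.Agent.BSI.ChA

/-!
# BSI-ChB: the local chain mixes

PLAN. Let `μ f = Ex cov p n X f`, `K = KL .. b X`. (1) `μ (K f) = μ f` (`inc_symm` with `g = 1`: `inc` of a constant is `0`). (2) `μ ((K f)^2) = μ (f^2) + 2 b μ (f * inc f) + b^2 μ (inc f ^ 2)`, `inc_dir`, `inc_sq`, `inc2_dir` and `b * n ≤ 1`: the last term is
`≤ b * DirQ`, so `μ ((K f)^2) ≤ μ (f^2) - b * DirQ f`. (3) `poincare` (with `R = n`) and `Dir_le` (end of ACY/GCmp.lean, hypothesis `c * (p X Z' * p Z' W / mass) ≤ q X Z Z' W`; here `q = qk p kap`, and `c ≤ kap X W * mass`): `μ (f^2) - μ f ^ 2 ≤ 24 n (n + 1) m / c * DirQ f`.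
(4) `Var (K f) ≤ (1 - b c / (24 R (R + 1) m)) Var f`; iterate (`Kit` is `K` applied `T` times); `Var f ≤ 1` if `|f| ≤ 1`; (5) `Ex_ge` for the function `(Kit T f - μ f)^2` at the flag `l0`, `μ (Kit T f) = μ f`.
-/

set_option autoImplicit false

namespace BSI.Ch

open Finset ACY ACY.GPoi

variable {α : Type} {cov : α → Finset α} {p t kap : α → α → ℝ} {rk : α → ℕ} {ok : α → Prop} {m : ℝ}

private theorem ChB_inc_const (c : ℝ) (X : α) (l : List α) : inc cov p kap X l (fun _ => c) = 0 := by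
  induction l generalizing X with
  | nil => simp [inc]
  | cons Z l ih =>
    cases l with
    | nil => simp [inc]
    | cons W l =>
      rw [inc, ih Z]
      simp

private theorem ChB_mean (h : Sys cov p t rk ok m) {n : ℕ} {X : α} (hX : ok X) (hn : rk X = n) (b : ℝ)
    (f : List α → ℝ) : Ex cov p n X (KL cov p kap b X f) = Ex cov p n X f := by
  have h1 := inc_symm (kap := kap) h n X hX hn f (fun _ => 1)
  have h2 : Ex cov p n X (fun l => f l * inc cov p kap X l (fun _ => (1 : ℝ))) = 0 := by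
    have h3 := Ex_smul (cov := cov) (p := p) 0 n X f
    rw [zero_mul] at h3
    rw [← h3]
    congr 1
    funext l
    rw [ChB_inc_const]
    ring
  have h4 : Ex cov p n X (fun l => inc cov p kap X l f) = 0 := by
    rw [← h2, ← h1]
    congr 1
    funext l
    ring
  have h5 : Ex cov p n X (KL cov p kap b X f) =
      Ex cov p n X f + b * Ex cov p n X (fun l => inc cov p kap X l f) := by
    rw [← Ex_smul, ← Ex_add]
    rfl
  rw [h5, h4]
  ring

private theorem ChB_sq (h : Sys cov p t rk ok m) (hk : ∀ X W, 0 ≤ kap X W)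
    (hup : ∀ X, ok X → ∀ Z ∈ cov X, ∀ W ∈ cov Z, kap X W * mass cov p X W ≤ 1 / 2)
    {n : ℕ} {X : α} (hX : ok X) (hn : rk X = n) {b : ℝ} (hb : 0 < b) (hbn : b * n ≤ 1)
    (f : List α → ℝ) (hD : 0 ≤ DirQ cov p (qk p kap) n X f) :
    Ex cov p n X (fun l => KL cov p kap b X f l ^ 2) ≤
      Ex cov p n X (fun l => f l ^ 2) - b * DirQ cov p (qk p kap) n X f := by
  have h1 : Ex cov p n X (fun l => KL cov p kap b X f l ^ 2) =
      Ex cov p n X (fun l => f l ^ 2) + 2 * b * Ex cov p n X (fun l => f l * inc cov p kap X l f) +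
        b ^ 2 * Ex cov p n X (fun l => inc cov p kap X l f ^ 2) := by
    rw [← Ex_smul, ← Ex_smul, ← Ex_add, ← Ex_add]
    congr 1
    funext l
    rw [KL]
    ring
  have h2 : Ex cov p n X (fun l => inc cov p kap X l f ^ 2) ≤ n * DirQ cov p (qk p kap) n X f := by
    refine (Ex_mono' h n X hX _ _ fun l hl => inc_sq h hk hup n X hX f hl).trans (le_of_eq ?_)
    rw [Ex_smul, inc2_dir h n X hX hn f]
    ring
  have h3 : b ^ 2 * Ex cov p n X (fun l => inc cov p kap X l f ^ 2) ≤ b * DirQ cov p (qk p kap) n X f := by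
    calc b ^ 2 * Ex cov p n X (fun l => inc cov p kap X l f ^ 2)
        ≤ b ^ 2 * (n * DirQ cov p (qk p kap) n X f) := mul_le_mul_of_nonneg_left h2 (sq_nonneg b)
      _ = b * (b * n) * DirQ cov p (qk p kap) n X f := by ring
      _ ≤ b * 1 * DirQ cov p (qk p kap) n X f :=
          mul_le_mul_of_nonneg_right (mul_le_mul_of_nonneg_left hbn hb.le) hD
      _ = b * DirQ cov p (qk p kap) n X f := by ring
  rw [h1, inc_dir h n X hX hn f]
  linarith

theorem mix (h : Sys cov p t rk ok m) (h1 : ∀ X, ok X → rk X = 1 → ∀ Z ∈ cov X, ∀ Z' ∈ cov X, Z = Z')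
    (hk : ∀ X W, 0 ≤ kap X W)
    (hup : ∀ X, ok X → ∀ Z ∈ cov X, ∀ W ∈ cov Z, kap X W * mass cov p X W ≤ 1 / 2)
    {c : ℝ} (hc : 0 < c) (hc1 : c ≤ 1) (hlow : ∀ X, ok X → ∀ Z ∈ cov X, ∀ W ∈ cov Z, c ≤ kap X W * mass cov p X W)
    {n : ℕ} (hn1 : 1 ≤ n) {X : α} (hX : ok X) (hn : rk X = n) {b : ℝ} (hb : 0 < b) (hbn : b * n ≤ 1)
    (f : List α → ℝ) (hf : ∀ l, Fl cov n X l → |f l| ≤ 1) {l : List α} (hl : Fl cov n X l) (hp : 0 < pp p X l) (T : ℕ) :
    (Kit cov p kap b X T f l - Ex cov p n X f) ^ 2 ≤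
      (1 - b * c / (24 * n * (n + 1) * m)) ^ T / pp p X l := by
  have hm := h.hm
  have hn0 : (1 : ℝ) ≤ n := by exact_mod_cast hn1
  set C : ℝ := 24 * n * (n + 1) * m with hC
  have hC1 : 1 ≤ C := by
    have h2 : (1 : ℝ) ≤ 24 * n * (n + 1) := by nlinarith
    nlinarith
  have hC0 : 0 < C := by linarith
  have hb1 : b ≤ 1 := by nlinarith
  -- the spectral gap in the form needed
  have hq : ∀ X, ok X → ∀ Z ∈ cov X, ∀ W ∈ cov Z, ∀ Z' ∈ mid cov X W,
      c * (p X Z' * p Z' W / mass cov p X W) ≤ qk p kap X Z Z' W := by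
    intro X hX Z hZ W hW Z' hZ'
    classical
    have h3 := Finset.mem_filter.1 hZ'
    have h4 : 0 ≤ p X Z' * p Z' W := (mul_pos (h.pos X hX Z' h3.1) (h.pos Z' (h.ok' X hX Z' h3.1) W h3.2)).le
    have h5 := mass_pos h hX hZ hW
    have h6 := hlow X hX Z hZ W hW
    rw [qk, ← mul_div_assoc, div_le_iff₀ h5]
    calc c * (p X Z' * p Z' W) ≤ kap X W * mass cov p X W * (p X Z' * p Z' W) :=
          mul_le_mul_of_nonneg_right h6 h4
      _ = kap X W * (p X Z' * p Z' W) * mass cov p X W := by ring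
  have hgap : ∀ g : List α → ℝ, 0 ≤ DirQ cov p (qk p kap) n X g ∧
      c / C * (Ex cov p n X (fun l => g l ^ 2) - Ex cov p n X g ^ 2) ≤ DirQ cov p (qk p kap) n X g := by
    intro g
    have h3 := Dir_le h hc hq h1 n X hX hn g
    have h4 := Dir_nonneg h n X hX g
    have h5 := poincare h n hn1 n (le_refl n) X hX hn g
    rw [← hC] at h5
    have h6 : c * Dir cov p n X g ≤ DirQ cov p (qk p kap) n X g := by
      calc c * Dir cov p n X g ≤ c * (c⁻¹ * DirQ cov p (qk p kap) n X g) := mul_le_mul_of_nonneg_left h3 hc.le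
        _ = DirQ cov p (qk p kap) n X g := by
            rw [← mul_assoc, mul_inv_cancel₀ hc.ne', one_mul]
    refine ⟨(mul_nonneg hc.le h4).trans h6, le_trans ?_ h6⟩
    calc c / C * (Ex cov p n X (fun l => g l ^ 2) - Ex cov p n X g ^ 2) ≤ c / C * (C * Dir cov p n X g) :=
          mul_le_mul_of_nonneg_left h5 (by positivity)
      _ = c * Dir cov p n X g := by
          field_simp
  have hmean : ∀ T, Ex cov p n X (Kit cov p kap b X T f) = Ex cov p n X f := by
    intro T
    induction T with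
    | zero => rfl
    | succ T ih => rw [Kit, ChB_mean h hX hn, ih]
  have hr0 : 0 ≤ 1 - b * c / C := by
    have h3 : b * c ≤ 1 := by nlinarith
    have h4 : b * c / C ≤ 1 := by
      rw [div_le_one hC0]
      linarith
    linarith
  have hvar : ∀ T, Ex cov p n X (fun l => Kit cov p kap b X T f l ^ 2) - Ex cov p n X f ^ 2 ≤
      (1 - b * c / C) ^ T := by
    intro T
    induction T with
    | zero =>
      have h3 : Ex cov p n X (fun l => f l ^ 2) ≤ Ex cov p n X (fun _ => (1 : ℝ)) :=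
        Ex_mono' h n X hX _ _ fun l hl => by
          have h4 := abs_le.1 (hf l hl)
          nlinarith
      rw [Ex_const h 1 n X hX hn.ge] at h3
      have h5 : Ex cov p n X (fun l => Kit cov p kap b X 0 f l ^ 2) = Ex cov p n X (fun l => f l ^ 2) := rfl
      rw [h5, pow_zero]
      nlinarith [sq_nonneg (Ex cov p n X f)]
    | succ T ih =>
      obtain ⟨h3, h4⟩ := hgap (Kit cov p kap b X T f)
      have h5 := ChB_sq h hk hup hX hn hb hbn (Kit cov p kap b X T f) h3
      rw [hmean T] at h4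
      have h6 : Ex cov p n X (fun l => Kit cov p kap b X (T + 1) f l ^ 2) =
          Ex cov p n X (fun l => KL cov p kap b X (Kit cov p kap b X T f) l ^ 2) := rfl
      rw [h6, pow_succ]
      have h7 : b * (c / C * (Ex cov p n X (fun l => Kit cov p kap b X T f l ^ 2) - Ex cov p n X f ^ 2)) ≤
          b * DirQ cov p (qk p kap) n X (Kit cov p kap b X T f) := mul_le_mul_of_nonneg_left h4 hb.le
      have h8 : b * (c / C * (Ex cov p n X (fun l => Kit cov p kap b X T f l ^ 2) - Ex cov p n X f ^ 2)) =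
          b * c / C * (Ex cov p n X (fun l => Kit cov p kap b X T f l ^ 2) - Ex cov p n X f ^ 2) := by ring
      rw [h8] at h7
      calc Ex cov p n X (fun l => KL cov p kap b X (Kit cov p kap b X T f) l ^ 2) - Ex cov p n X f ^ 2
          ≤ (Ex cov p n X (fun l => Kit cov p kap b X T f l ^ 2) - Ex cov p n X f ^ 2) * (1 - b * c / C) := by
            linarith
        _ ≤ (1 - b * c / C) ^ T * (1 - b * c / C) := mul_le_mul_of_nonneg_right ih hr0
  -- the value at the flag `l`
  set μ := Ex cov p n X f with hμ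
  have h3 := Ex_ge h n X hX (fun l => (Kit cov p kap b X T f l - μ) ^ 2) (fun l _ => sq_nonneg _) hl
  have h4 : Ex cov p n X (fun l => (Kit cov p kap b X T f l - μ) ^ 2) =
      Ex cov p n X (fun l => Kit cov p kap b X T f l ^ 2) - μ ^ 2 := by
    have h5 : Ex cov p n X (fun l => (Kit cov p kap b X T f l - μ) ^ 2) =
        Ex cov p n X (fun l => Kit cov p kap b X T f l ^ 2) +
          ((-2 * μ) * Ex cov p n X (Kit cov p kap b X T f) + Ex cov p n X (fun _ => μ ^ 2)) := by
      rw [← Ex_smul, ← Ex_add, ← Ex_add]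
      congr 1
      funext l
      ring
    rw [h5, hmean T, Ex_const h (μ ^ 2) n X hX hn.ge]
    ring
  rw [h4] at h3
  rw [le_div_iff₀ hp, mul_comm]
  exact h3.trans (hvar T)

end BSI.Ch
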