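import Pool.Agent.ACY.GCmp

/-!
# BSI-ChD: the local chain on the flags of an abstract system (`ACY.GPoi`), definitions

`kap X W` is the multiplier of the fibre between `X` and `W`: the rate from `Z` to `Z'` is `kap X W * (p X Z' * p Z' W)`. `inc` is the generator, `inc2` the same with the squares of the differences, `KL b` one
step, `Kit b T` the function of the initial flag given by `T` steps.
-/

set_option autoImplicit false

namespace BSI.Ch

open Finset ACY ACY.GPoi

variable {α : Type}

/-- the flags of length `n` below `X` -/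
def Fl (cov : α → Finset α) : ℕ → α → List α → Prop
  | 0, _, l => l = []
  | _ + 1, _, [] => False
  | n + 1, X, Z :: l => Z ∈ cov X ∧ Fl cov n Z l

/-- the probability of a flag -/
noncomputable def pp (p : α → α → ℝ) : α → List α → ℝ
  | _, [] => 1
  | X, Z :: l => p X Z * pp p Z l

/-- the generator -/
noncomputable def inc (cov : α → Finset α) (p kap : α → α → ℝ) : α → List α → (List α → ℝ) → ℝ
  | X, Z :: W :: l, f => kap X W * ∑ Z' ∈ mid cov X W, p X Z' * p Z' W * (f (Z' :: W :: l) - f (Z :: W :: l)) +
      inc cov p kap Z (W :: l) (fun m => f (Z :: m))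
  | _, _, _ => 0

/-- the squares of the differences -/
noncomputable def inc2 (cov : α → Finset α) (p kap : α → α → ℝ) : α → List α → (List α → ℝ) → ℝ
  | X, Z :: W :: l, f => kap X W * ∑ Z' ∈ mid cov X W, p X Z' * p Z' W * (f (Z' :: W :: l) - f (Z :: W :: l)) ^ 2 +
      inc2 cov p kap Z (W :: l) (fun m => f (Z :: m))
  | _, _, _ => 0

/-- one step -/
noncomputable def KL (cov : α → Finset α) (p kap : α → α → ℝ) (b : ℝ) (X : α) (f : List α → ℝ) (l : List α) : ℝ :=
  f l + b * inc cov p kap X l f

/-- `T` steps -/
noncomputable def Kit (cov : α → Finset α) (p kap : α → α → ℝ) (b : ℝ) (X : α) : ℕ → (List α → ℝ) → List α → ℝ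
  | 0, f => f
  | T + 1, f => KL cov p kap b X (Kit cov p kap b X T f)

/-- the kernel of the Dirichlet form -/
noncomputable def qk (p kap : α → α → ℝ) (X _Z Z' W : α) : ℝ := kap X W * (p X Z' * p Z' W)

end BSI.Ch
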