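import Pool.Agent.BSI.Phi

/-!
# BSI machine layer, KapW: the integer weights and the labels

PLAN. `YE_symm`: the two filters are equal up to the order of the disjunction. `Lab`: `η = 1 - p / q`, for `j ≥ 1` `|(-p/q) ^ j| = (p/q) ^ j ≤ p / q`. `eb_congr`: `eb` depends on the members only. `yb_YE`: induction on the finite set `B`
(`Finset.induction_on`), the edges between `u` and `insert b B` are those between `u` and `b` and those between `u` and `B` (disjoint filters because `u ∉ insert b B` and `b ∉ B`; count with `List.countP` or `List.length_filter`), `Finset.prod_insert`, `pow_add`. `wE_yb`: `wE_cast` (Gr.lean).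
-/

set_option autoImplicit false

namespace BSI.M

open Finset

private theorem KapW_sing (E : List (ℕ × ℕ)) (u v : ℕ) : eb E u [v] = eb E v [u] := by
  unfold eb
  refine List.filter_congr fun e _ => ?_
  rw [Bool.eq_iff_iff]
  simp only [Bool.or_eq_true, Bool.and_eq_true, beq_iff_eq, List.contains_cons,
    List.contains_nil, Bool.or_false]
  tauto

theorem YE_symm (p q : ℕ) (E : List (ℕ × ℕ)) (u v : ℕ) : YE p q E u v = YE p q E v u := by
  unfold YE
  rw [KapW_sing]

private theorem KapW_r {p q : ℕ} (hpq : p < q) : 0 ≤ (p : ℝ) / q ∧ (p : ℝ) / q < 1 := by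
  have hq : (0 : ℝ) < q := by
    have : 0 < q := by omega
    exact_mod_cast this
  refine ⟨by positivity, ?_⟩
  rw [div_lt_one hq]
  exact_mod_cast hpq

private theorem KapW_abs {p q : ℕ} (hpq : p < q) (j : ℕ) :
    (-(p : ℝ) / q) ^ j = 1 ∧ j = 0 ∨ |(-(p : ℝ) / q) ^ j| ≤ (p : ℝ) / q := by
  obtain ⟨h0, h1⟩ := KapW_r hpq
  rcases Nat.eq_zero_or_pos j with h | h
  · left
    rw [h]
    exact ⟨pow_zero _, rfl⟩
  · right
    rw [abs_pow, neg_div, abs_neg, abs_of_nonneg h0]
    calc ((p : ℝ) / q) ^ j ≤ ((p : ℝ) / q) ^ 1 := pow_le_pow_of_le_one h0 h1.le h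
      _ = (p : ℝ) / q := pow_one _

theorem lab_YE {p q : ℕ} (hpq : p < q) (E : List (ℕ × ℕ)) : Lab (YE p q E) (1 - (p : ℝ) / q) := by
  obtain ⟨h0, h1⟩ := KapW_r hpq
  refine ⟨by linarith, by linarith, YE_symm p q E, fun u v => ?_⟩
  rcases KapW_abs hpq (eb E u [v]).length with h | h
  · exact Or.inl h.1
  · right
    unfold YE
    linarith

theorem eb_congr (E : List (ℕ × ℕ)) (u : ℕ) {B B' : List ℕ} (h : ∀ x, x ∈ B ↔ x ∈ B') : eb E u B = eb E u B' := by
  unfold eb
  refine List.filter_congr fun e _ => ?_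
  rw [Bool.eq_iff_iff]
  simp only [Bool.or_eq_true, Bool.and_eq_true, beq_iff_eq, List.contains_iff_mem, h]

private theorem KapW_ec (E : List (ℕ × ℕ)) (u : ℕ) {B B' : List ℕ} (h : ∀ x, x ∈ B ↔ x ∈ B') : ec E u B = ec E u B' := by
  unfold ec
  refine List.filter_congr fun e _ => ?_
  congr 1
  rw [Bool.eq_iff_iff]
  simp only [Bool.or_eq_true, Bool.and_eq_true, beq_iff_eq, List.contains_iff_mem, h]

theorem wE_congr (p q : ℕ) (E : List (ℕ × ℕ)) (u : ℕ) {B B' : List ℕ} (h : ∀ x, x ∈ B ↔ x ∈ B') :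
    wE p q E u B = wE p q E u B' := by
  unfold wE
  rw [eb_congr E u h, KapW_ec E u h]

theorem kJ_congr (p q : ℕ) (E : List (ℕ × ℕ)) (m t s : ℕ) {B B' : List ℕ} (h : ∀ x, x ∈ B ↔ x ∈ B') :
    kJ p q E m t s B = kJ p q E m t s B' := by
  unfold kJ
  rw [wE_congr p q E t h, wE_congr p q E s h]

private theorem KapW_add {α : Type} (P Q R : α → Bool) (h1 : ∀ e, P e = (Q e || R e))
    (h2 : ∀ e, (Q e && R e) = false) (E : List α) :
    (E.filter P).length = (E.filter Q).length + (E.filter R).length := by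
  induction E with
  | nil => simp
  | cons e E ih =>
    have h1' := h1 e
    have h2' := h2 e
    rw [List.filter_cons, List.filter_cons, List.filter_cons, h1']
    cases hQ : Q e <;> cases hR : R e
    · simpa using ih
    · simp only [Bool.or_true, if_true, List.length_cons, ih, Bool.false_eq_true, if_false]
      omega
    · simp only [Bool.or_false, if_true, List.length_cons, ih, Bool.false_eq_true, if_false]
      omega
    · rw [hQ, hR] at h2'
      exact absurd h2' (by decide)

private theorem KapW_prod (r : ℝ) (E : List (ℕ × ℕ)) (u : ℕ) (S : Finset ℕ) :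
    u ∉ S → ∀ L : List ℕ, (∀ x, x ∈ L ↔ x ∈ S) →
      ∏ b ∈ S, r ^ (eb E u [b]).length = r ^ (eb E u L).length := by
  induction S using Finset.induction_on with
  | empty =>
    intro _ L hL
    have h1 : eb E u L = eb E u [] := eb_congr E u (fun x => by rw [hL x]; simp)
    have h2 : eb E u [] = [] := by simp [eb]
    rw [h1, h2]
    simp
  | insert b S hb ih =>
    intro hu L hL
    rw [Finset.mem_insert, not_or] at hu
    obtain ⟨hub, huS⟩ := hu
    rw [Finset.prod_insert hb, ih huS S.toList (fun x => Finset.mem_toList), ← pow_add]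
    congr 1
    unfold eb
    symm
    refine KapW_add _ _ _ ?_ ?_ E
    · intro e
      rw [Bool.eq_iff_iff]
      simp only [Bool.or_eq_true, Bool.and_eq_true, beq_iff_eq, List.contains_iff_mem, hL,
        Finset.mem_insert, Finset.mem_toList, List.mem_singleton]
      tauto
    · intro e
      rw [Bool.eq_false_iff]
      simp only [ne_eq, Bool.or_eq_true, Bool.and_eq_true, beq_iff_eq, List.contains_iff_mem,
        Finset.mem_toList, List.mem_singleton]
      rintro ⟨⟨h1, h2⟩ | ⟨h1, h2⟩, ⟨h3, h4⟩ | ⟨h3, h4⟩⟩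
      · exact hb (h2 ▸ h4)
      · exact hub (h3.symm.trans h2)
      · exact hub (h3.symm.trans h2)
      · exact hb (h2 ▸ h4)

theorem yb_YE (p q : ℕ) (E : List (ℕ × ℕ)) {u : ℕ} {B : List ℕ} (hu : u ∉ B) :
    yb (YE p q E) u B.toFinset = (-(p : ℝ) / q) ^ (eb E u B).length := by
  unfold yb YE
  exact KapW_prod _ E u B.toFinset (by rwa [List.mem_toFinset]) B (fun x => List.mem_toFinset.symm)

theorem wE_yb {p q : ℕ} (hpq : p < q) (E : List (ℕ × ℕ)) {u : ℕ} {B : List ℕ} (hu : u ∉ B) :
    (wE p q E u B : ℝ) = q ^ E.length * (1 - yb (YE p q E) u B.toFinset) := by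
  rw [wE_cast hpq, yb_YE p q E hu]

private theorem KapW_yb {p q : ℕ} (E : List (ℕ × ℕ)) {u : ℕ} {B : Finset ℕ} (hu : u ∉ B) :
    yb (YE p q E) u B = (-(p : ℝ) / q) ^ (eb E u B.toList).length := by
  have h1 := yb_YE p q E (u := u) (B := B.toList) (by rwa [Finset.mem_toList])
  rwa [Finset.toList_toFinset] at h1

/-- the label between `u` and a block is `1` if there is no edge, otherwise the weight is bounded from below -/
theorem yb_low {p q : ℕ} (hpq : p < q) (E : List (ℕ × ℕ)) {u : ℕ} {B : Finset ℕ} (hu : u ∉ B) :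
    yb (YE p q E) u B = 1 ∨ 1 - (p : ℝ) / q ≤ 1 - yb (YE p q E) u B := by
  rw [KapW_yb E hu]
  rcases KapW_abs hpq (eb E u B.toList).length with h | h
  · exact Or.inl h.1
  · right
    have := le_of_abs_le h
    linarith

theorem yb_le {p q : ℕ} (hpq : p < q) (E : List (ℕ × ℕ)) {u : ℕ} {B : Finset ℕ} (hu : u ∉ B) :
    0 ≤ 1 - yb (YE p q E) u B ∧ 1 - yb (YE p q E) u B ≤ 2 := by
  obtain ⟨h0, h1⟩ := KapW_r hpq
  rw [KapW_yb E hu]
  rcases KapW_abs hpq (eb E u B.toList).length with h | h
  · rw [h.1]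
    constructor <;> norm_num
  · have h2 := abs_le.1 h
    constructor <;> linarith [h2.1, h2.2]

end BSI.M
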