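import Pool.Agent.BSI.Lbl

/-!
# BSI-Ob: the two observables of the estimator

PLAN. `n = V.card ≥ 2`. Only the first two letters matter: `ExL (n - 2) W (fun _ => c) = c` for `T W > 0` (induction, `sum_pr`; when `T W = 0` the probability of the letter is `0`, use it before). Private lemma: for `W := nx (nx (V, ∅) l1) l2`: the probability of `l1, l2` is
`wl X l1 * wl (nx X l1) l2 * T W / (n * (n - 1) * T X)` (cancel `T (nx X l1)`, if it is `0` both sides are `0`; see `pr_pr` in BSI/Mid.lean, you may import BSI.Mid). The letters of the state `(V, ∅)` are `(t, (∅, f))` (`2 ≤ card`; `lts_two`), the next state is `(V.erase t, {{t}})` or `(V.erase t, ∅)`.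
With the first vertex `u`, the second `v`: `C2 = {{u}}` is joined: `(1 - Y v u) * (T (R, {{u, v}}) + a * T (R, ∅))`, `R = (V.erase u).erase v` (for `n = 2`: the only letter is `(v, ({{u}}, true))`, weight `1 - Y v u`): this is `(1 - Y u v) * T (conY u v Y) a (V.erase v, ∅)` by `T_contract` (`T_single` for `n = 2`). By symmetry (`conY v u`, or
`{v, u} = {u, v}`) the order `v, u` gives the same. Not joined: the order `u, v` has the sum `ins v T (V.erase u, {{u}})` restricted to `C = ∅`, plus `a * ins v T (V.erase u, ∅)`, which is `T (delY u v Y) a (V, ∅)` by `T_ins` twice for `delY u v Y` (its term with `C = {{u}}` has the factor `1 - 1 = 0`) and `T_congr` with `σ = id` for the states with `X.1 = R`.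
-/

set_option autoImplicit false

namespace BSI

open Finset ACY

open Classical in
/-- the first two vertices are `u` and `v`, and the second swallows (`w = true`) or does not swallow (`w = false`) the block of the first -/
noncomputable def ob (w : Bool) (u v : ℕ) : List Le → ℝ
  | l1 :: l2 :: _ =>
    if ((l1.1 = u ∧ l2.1 = v) ∨ (l1.1 = v ∧ l2.1 = u)) ∧ (decide (∃ B ∈ l2.2.1, l1.1 ∈ B) = w) then 1 else 0
  | _ => 0

private theorem Ob_const {Y : ℕ → ℕ → ℝ} (hY : ∀ x z, |Y x z| ≤ 1) {a : ℝ} (ha : 0 ≤ a) (c : ℝ) (n : ℕ) :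
    ∀ X : St, X.1.card = n → 0 < T Y a X → ExL Y a n X (fun _ => c) = c := by
  induction n with
  | zero => intro X _ _; rfl
  | succ n ih =>
    intro X hX hT
    have hne : X.1.Nonempty := Finset.card_pos.1 (by omega)
    change ∑ l ∈ lts X, pr Y a X l * ExL Y a n (nx X l) (fun _ => c) = c
    have h1 : ∀ l ∈ lts X, pr Y a X l * ExL Y a n (nx X l) (fun _ => c) = pr Y a X l * c := by
      intro l hl
      rcases (pr_nonneg hY ha X l).lt_or_eq with h2 | h2
      · rw [ih (nx X l) (by have := card_nx hl; omega) (pr_pos_T hY ha h2)]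
      · rw [← h2, zero_mul, zero_mul]
    rw [Finset.sum_congr rfl h1, ← Finset.sum_mul, sum_pr hT hne, one_mul]

private theorem Ob_pp {Y : ℕ → ℕ → ℝ} (hY : ∀ x z, |Y x z| ≤ 1) {a : ℝ} (ha : 0 ≤ a) {X : St} {l1 l2 : Le}
    (h1 : l1 ∈ lts X) (h2 : l2 ∈ lts (nx X l1)) :
    pr Y a X l1 * pr Y a (nx X l1) l2 =
      wl Y a X l1 * (wl Y a (nx X l1) l2 * T Y a (nx (nx X l1) l2)) / (X.1.card * (X.1.card - 1) * T Y a X) := by
  have hc := card_nx h1
  have hc' : ((nx X l1).1.card : ℝ) = X.1.card - 1 := by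
    rw [← hc]
    push_cast
    ring
  have hne : (nx X l1).1.Nonempty := ⟨_, lts_fst h2⟩
  rcases eq_or_ne (T Y a (nx X l1)) 0 with h0 | h0
  · have h3 := T_rec (Y := Y) (a := a) hne
    rw [h0, eq_comm, div_eq_zero_iff] at h3
    have hcp : ((nx X l1).1.card : ℝ) ≠ 0 := by exact_mod_cast hne.card_pos.ne'
    have h4 := h3.resolve_right hcp
    have h5 := (Finset.sum_eq_zero_iff_of_nonneg fun l _ =>
      mul_nonneg (wl_nonneg hY ha _ _) (T_nonneg hY ha _)).1 h4 l2 h2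
    rw [h5, mul_zero, zero_div]
    unfold pr
    rw [h0, mul_zero, zero_div, zero_mul]
  · unfold pr
    rw [hc', div_mul_div_comm]
    rw [← mul_div_mul_right (wl Y a X l1 * (wl Y a (nx X l1) l2 * T Y a (nx (nx X l1) l2)))
      (X.1.card * (X.1.card - 1) * T Y a X) h0]
    congr 1 <;> ring

private theorem Ob_two {Y : ℕ → ℕ → ℝ} (hY : ∀ x z, |Y x z| ≤ 1) {a : ℝ} (ha : 0 ≤ a) {V : Finset ℕ}
    (h2 : 2 ≤ V.card) (g : Le → Le → ℝ) (f : List Le → ℝ) (hf : ∀ l1 l2 m, f (l1 :: l2 :: m) = g l1 l2) :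
    ExL Y a V.card (V, ∅) f =
      (∑ l1 ∈ lts (V, ∅), wl Y a (V, ∅) l1 * ∑ l2 ∈ lts (nx (V, ∅) l1),
        wl Y a (nx (V, ∅) l1) l2 * (T Y a (nx (nx (V, ∅) l1) l2) * g l1 l2)) /
      (V.card * (V.card - 1) * T Y a (V, ∅)) := by
  obtain ⟨k, hk⟩ : ∃ k, V.card = k + 2 := ⟨V.card - 2, by omega⟩
  have h0 : ExL Y a V.card (V, ∅) f = ∑ l1 ∈ lts (V, ∅), pr Y a (V, ∅) l1 * ∑ l2 ∈ lts (nx (V, ∅) l1),
      pr Y a (nx (V, ∅) l1) l2 * ExL Y a k (nx (nx (V, ∅) l1) l2) (fun m => f (l1 :: l2 :: m)) := by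
    rw [hk]
    rfl
  rw [h0, Finset.sum_div]
  refine Finset.sum_congr rfl fun l1 hl1 => ?_
  rw [Finset.mul_sum, Finset.mul_sum, Finset.sum_div]
  refine Finset.sum_congr rfl fun l2 hl2 => ?_
  have h3 : pr Y a (nx (V, ∅) l1) l2 * ExL Y a k (nx (nx (V, ∅) l1) l2) (fun m => f (l1 :: l2 :: m)) =
      pr Y a (nx (V, ∅) l1) l2 * g l1 l2 := by
    rcases (pr_nonneg hY ha (nx (V, ∅) l1) l2).lt_or_eq with h4 | h4
    · have h5 : (fun m => f (l1 :: l2 :: m)) = fun _ => g l1 l2 := funext fun m => hf l1 l2 m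
      have h6 := card_nx hl1
      have h7 := card_nx hl2
      have h8 : ((V, (∅ : Finset (Finset ℕ))) : St).1.card = V.card := rfl
      rw [h5, Ob_const hY ha _ k _ (by omega) (pr_pos_T hY ha h4)]
    · rw [← h4, zero_mul, zero_mul]
  rw [h3, ← mul_assoc, Ob_pp hY ha hl1 hl2]
  change wl Y a (V, ∅) l1 * (wl Y a (nx (V, ∅) l1) l2 * T Y a (nx (nx (V, ∅) l1) l2)) /
    (V.card * (V.card - 1) * T Y a (V, ∅)) * g l1 l2 = _
  ring

/-- insertion of the vertex `t` with a function of the letter -/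
private noncomputable def Obi (Y : ℕ → ℕ → ℝ) (a : ℝ) (t : ℕ) (G : Le → ℝ) (X : St) : ℝ :=
  ∑ l ∈ (lts X).filter (fun l => l.1 = t), wl Y a X l * G l

private theorem Obi_two {Y : ℕ → ℕ → ℝ} {a : ℝ} {X : St} {t : ℕ} (hc : 2 ≤ X.1.card) (ht : t ∈ X.1) (G : Le → ℝ) :
    Obi Y a t G X = ∑ C ∈ X.2.powerset, cc Y t C * (G (t, (C, false)) + a * G (t, (C, true))) := by
  have h1 : (lts X).filter (fun l => l.1 = t) = ({t} : Finset ℕ) ×ˢ (X.2.powerset ×ˢ (Finset.univ : Finset Bool)) := by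
    ext l
    rw [Finset.mem_filter, lts_two hc, Finset.mem_product, Finset.mem_product, Finset.mem_singleton,
      Finset.mem_powerset]
    constructor
    · rintro ⟨⟨_, h2⟩, h3⟩
      exact ⟨h3, h2, Finset.mem_univ _⟩
    · rintro ⟨h1, h2, _⟩
      exact ⟨⟨h1 ▸ ht, h2⟩, h1⟩
  unfold Obi
  rw [h1, Finset.sum_product, Finset.sum_singleton, Finset.sum_product]
  refine Finset.sum_congr rfl fun C _ => ?_
  rw [Fintype.sum_bool]
  unfold wl
  simp only [hc, and_true, if_true, Bool.false_eq_true, if_false, mul_one]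
  ring

private theorem Obi_one {Y : ℕ → ℕ → ℝ} {a : ℝ} {X : St} {t : ℕ} (hc : X.1 = {t}) (G : Le → ℝ) :
    Obi Y a t G X = cc Y t X.2 * G (t, (X.2, true)) := by
  have h0 : X.1.card < 2 := by rw [hc, Finset.card_singleton]; omega
  have h1 : (lts X).filter (fun l => l.1 = t) = {(t, (X.2, true))} := by
    ext l
    rw [Finset.mem_filter, lts_one h0, Finset.mem_singleton]
    constructor
    · rintro ⟨⟨_, h2⟩, h3⟩
      exact Prod.ext h3 h2
    · rintro rfl
      exact ⟨⟨by rw [hc]; exact Finset.mem_singleton_self t, rfl⟩, rfl⟩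
  unfold Obi
  rw [h1, Finset.sum_singleton]
  unfold wl
  rw [if_neg (by intro h; have := h.2; omega), mul_one]

open Classical in
/-- the condition on the second letter -/
private noncomputable def Obe (w : Bool) (u : ℕ) (C : Finset (Finset ℕ)) : ℝ :=
  if decide (∃ B ∈ C, u ∈ B) = w then 1 else 0

/-- the sum over the letters with the first vertex `u` and the second vertex `v` -/
private noncomputable def ObQ (Y : ℕ → ℕ → ℝ) (a : ℝ) (w : Bool) (u v : ℕ) (V : Finset ℕ) : ℝ :=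
  Obi Y a u (fun l1 => Obi Y a v (fun l2 => T Y a (nx (nx (V, ∅) l1) l2) * Obe w u l2.2.1) (nx (V, ∅) l1)) (V, ∅)

private theorem Ob_sum {Y : ℕ → ℕ → ℝ} (hY : ∀ x z, |Y x z| ≤ 1) {a : ℝ} (ha : 0 ≤ a) {V : Finset ℕ}
    (h2 : 2 ≤ V.card) (w : Bool) {u v : ℕ} (hne : u ≠ v) :
    ExL Y a V.card (V, ∅) (ob w u v) = (ObQ Y a w u v V + ObQ Y a w v u V) /
      (V.card * (V.card - 1) * T Y a (V, ∅)) := by
  rw [Ob_two hY ha h2 (fun l1 l2 => (if l1.1 = u then (if l2.1 = v then Obe w u l2.2.1 else 0) else 0) +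
    (if l1.1 = v then (if l2.1 = u then Obe w v l2.2.1 else 0) else 0)) (ob w u v) ?_]
  · congr 1
    unfold ObQ Obi
    rw [Finset.sum_filter, Finset.sum_filter, ← Finset.sum_add_distrib]
    refine Finset.sum_congr rfl fun l1 _ => ?_
    beta_reduce
    rw [Finset.sum_filter, Finset.sum_filter]
    by_cases h3 : l1.1 = u
    · have h4 : l1.1 ≠ v := fun h => hne (h3.symm.trans h)
      rw [if_pos h3, if_neg h4, add_zero]
      congr 1
      refine Finset.sum_congr rfl fun l2 _ => ?_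
      rw [if_pos h3, if_neg h4, add_zero]
      by_cases h5 : l2.1 = v
      · rw [if_pos h5, if_pos h5]
      · rw [if_neg h5, if_neg h5, mul_zero, mul_zero]
    · by_cases h4 : l1.1 = v
      · rw [if_neg h3, if_pos h4, zero_add]
        congr 1
        refine Finset.sum_congr rfl fun l2 _ => ?_
        rw [if_neg h3, if_pos h4, zero_add]
        by_cases h5 : l2.1 = u
        · rw [if_pos h5, if_pos h5]
        · rw [if_neg h5, if_neg h5, mul_zero, mul_zero]
      · rw [if_neg h3, if_neg h4, add_zero]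
        refine mul_eq_zero_of_right _ (Finset.sum_eq_zero fun l2 _ => ?_)
        rw [if_neg h3, if_neg h4, add_zero, mul_zero, mul_zero]
  · intro l1 l2 m
    change (if ((l1.1 = u ∧ l2.1 = v) ∨ (l1.1 = v ∧ l2.1 = u)) ∧ (decide (∃ B ∈ l2.2.1, l1.1 ∈ B) = w)
      then (1 : ℝ) else 0) = _
    unfold Obe
    by_cases h3 : l1.1 = u
    · have h4 : l1.1 ≠ v := fun h => hne (h3.symm.trans h)
      by_cases h5 : l2.1 = v
      · rw [h3]
        simp [h5, hne]
      · simp [h3, h4, h5, hne]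
    · by_cases h4 : l1.1 = v
      · by_cases h5 : l2.1 = u
        · rw [h4]
          simp [h5, hne.symm]
        · simp [h3, h4, h5, hne.symm]
      · simp [h3, h4]

private theorem Ob_wf (V : Finset ℕ) : Wf (V, ∅) :=
  ⟨fun B hB => absurd hB (Finset.notMem_empty B), fun B hB => absurd hB (Finset.notMem_empty B),
    fun B hB => absurd hB (Finset.notMem_empty B)⟩

private theorem Ob_nxf (V : Finset ℕ) (u : ℕ) : nx (V, ∅) (u, (∅, false)) = (V.erase u, {{u}}) := by
  unfold nx blk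
  simp

private theorem Ob_nxt (V : Finset ℕ) (u : ℕ) : nx (V, ∅) (u, (∅, true)) = (V.erase u, ∅) := by
  unfold nx
  simp

private theorem Ob_wf1 {V : Finset ℕ} {u : ℕ} (h2 : 2 ≤ V.card) (hu : u ∈ V) : Wf (V.erase u, {{u}}) := by
  rw [← Ob_nxf]
  exact Wf_nx (Ob_wf V) ((lts_two h2).2 ⟨hu, Finset.Subset.refl _⟩)

private theorem Ob_Q {Y : ℕ → ℕ → ℝ} {a : ℝ} {V : Finset ℕ} (h2 : 2 ≤ V.card) (w : Bool) {u : ℕ} (v : ℕ)
    (hu : u ∈ V) :
    ObQ Y a w u v V =
      Obi Y a v (fun l2 => T Y a (nx (V.erase u, {{u}}) l2) * Obe w u l2.2.1) (V.erase u, {{u}}) +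
      a * Obi Y a v (fun l2 => T Y a (nx (V.erase u, ∅) l2) * Obe w u l2.2.1) (V.erase u, ∅) := by
  unfold ObQ
  rw [Obi_two h2 hu]
  change ∑ C ∈ (∅ : Finset (Finset ℕ)).powerset, _ = _
  rw [Finset.powerset_empty, Finset.sum_singleton, Ob_nxf, Ob_nxt]
  unfold cc
  rw [Finset.prod_empty, one_mul]

private theorem Ob_del {Y : ℕ → ℕ → ℝ} {a : ℝ} {X : St} (hX : Wf X) {u v : ℕ} (hu : u ∉ X.1) (hv : v ∉ X.1) :
    T (delY u v Y) a X = T Y a X := by
  have h1 : ∀ t ∈ X.1, ∀ b, delY u v Y t b = Y t b := by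
    intro t ht b
    unfold delY
    rw [if_neg]
    rintro (⟨h1, _⟩ | ⟨h1, _⟩)
    · exact hu (h1 ▸ ht)
    · exact hv (h1 ▸ ht)
  refine T_congr hX hX rfl id (Set.bijOn_id _) (fun t ht B _ => ?_) fun t ht x _ _ => h1 t ht x
  unfold yb
  exact Finset.prod_congr rfl fun b _ => h1 t ht b

private theorem Ob_sub {u : ℕ} {C : Finset (Finset ℕ)} (h : C ⊆ {{u}}) : C = ∅ ∨ C = {{u}} :=
  Finset.subset_singleton_iff.1 h

private theorem Ob_dsym {Y : ℕ → ℕ → ℝ} (hs : ∀ x z, Y x z = Y z x) (u v : ℕ) (x z : ℕ) :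
    delY u v Y x z = delY u v Y z x := by
  unfold delY
  by_cases h : (x = u ∧ z = v) ∨ (x = v ∧ z = u)
  · rw [if_pos h, if_pos (by rcases h with ⟨h1, h2⟩ | ⟨h1, h2⟩; exacts [Or.inr ⟨h2, h1⟩, Or.inl ⟨h2, h1⟩])]
  · rw [if_neg h, if_neg (by
      rintro (⟨h1, h2⟩ | ⟨h1, h2⟩)
      exacts [h (Or.inr ⟨h2, h1⟩), h (Or.inl ⟨h2, h1⟩)]), hs]

private theorem Ob_fZ {Y : ℕ → ℕ → ℝ} (hs : ∀ x z, Y x z = Y z x) {a : ℝ} {Z : St} (hZ : Wf Z) {u v : ℕ}
    (hv : v ∈ Z.1) (hu : u ∉ Z.1) (h2 : Z.2 ⊆ {{u}}) :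
    Obi Y a v (fun l2 => T Y a (nx Z l2) * Obe false u l2.2.1) Z = T (delY u v Y) a Z := by
  rw [T_ins (Ob_dsym hs u v) hZ hv]
  unfold Obi ins
  refine Finset.sum_congr rfl fun l hl => ?_
  have hl1 := (Finset.mem_filter.1 hl).1
  have hl2 := (Finset.mem_filter.1 hl).2
  have h3 : u ∉ (nx Z l).1 := fun h => hu (Finset.mem_of_mem_erase h)
  have h4 : v ∉ (nx Z l).1 := by
    change v ∉ Z.1.erase l.1
    rw [hl2]
    exact Finset.notMem_erase v Z.1
  rw [Ob_del (Wf_nx hZ hl1) h3 h4]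
  unfold wl
  beta_reduce
  rcases Ob_sub ((lts_sub hl1).trans h2) with h5 | h5
  · have h7 : Obe false u l.2.1 = 1 := by
      rw [h5]
      unfold Obe
      simp
    have h8 : cc (delY u v Y) l.1 l.2.1 = cc Y l.1 l.2.1 := by
      rw [h5]
      rfl
    rw [h7, h8, mul_one]
  · have h7 : Obe false u l.2.1 = 0 := by
      rw [h5]
      unfold Obe
      simp
    have h8 : cc (delY u v Y) l.1 l.2.1 = 0 := by
      rw [h5, hl2]
      unfold cc yb delY
      simp
    rw [h7, h8, mul_zero, mul_zero, zero_mul, zero_mul]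

private theorem Ob_Qf {Y : ℕ → ℕ → ℝ} (hs : ∀ x z, Y x z = Y z x) {a : ℝ} {V : Finset ℕ} (h2 : 2 ≤ V.card)
    {u v : ℕ} (hu : u ∈ V) (hv : v ∈ V) (hne : u ≠ v) : ObQ Y a false u v V = T (delY u v Y) a (V, ∅) := by
  have hv' : v ∈ V.erase u := Finset.mem_erase.2 ⟨hne.symm, hv⟩
  rw [Ob_Q h2 false v hu, Ob_fZ hs (Ob_wf1 h2 hu) hv' (Finset.notMem_erase u V) (Finset.Subset.refl _),
    Ob_fZ hs (Ob_wf (V.erase u)) hv' (Finset.notMem_erase u V) (Finset.empty_subset _),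
    T_ins (Ob_dsym hs u v) (Ob_wf V) hu, ins_two h2 hu]
  change _ = ∑ C ∈ (∅ : Finset (Finset ℕ)).powerset, _
  rw [Finset.powerset_empty, Finset.sum_singleton, Ob_nxf, Ob_nxt]
  unfold cc
  rw [Finset.prod_empty, one_mul]

private theorem Ob_Qt {Y : ℕ → ℕ → ℝ} (hs : ∀ x z, Y x z = Y z x) {a : ℝ} {V : Finset ℕ} (h2 : 2 ≤ V.card)
    {u v : ℕ} (hu : u ∈ V) (hv : v ∈ V) (hne : u ≠ v) :
    ObQ Y a true u v V = (1 - Y u v) * T (conY u v Y) a (V.erase v, ∅) := by
  have hv' : v ∈ V.erase u := Finset.mem_erase.2 ⟨hne.symm, hv⟩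
  have hce : (V.erase u).card + 1 = V.card := Finset.card_erase_add_one hu
  have h0 : Obi Y a v (fun l2 => T Y a (nx (V.erase u, ∅) l2) * Obe true u l2.2.1) (V.erase u, ∅) = 0 := by
    unfold Obi
    refine Finset.sum_eq_zero fun l hl => ?_
    have h3 : l.2.1 = ∅ := Finset.subset_empty.1 (lts_sub (Finset.mem_filter.1 hl).1)
    change wl Y a (V.erase u, ∅) l * (T Y a (nx (V.erase u, ∅) l) * Obe true u l.2.1) = 0
    rw [h3]
    unfold Obe
    simp
  have he0 : Obe true u ∅ = 0 := by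
    unfold Obe
    simp
  have he1 : Obe true u {{u}} = 1 := by
    unfold Obe
    simp
  have hc1 : cc Y v {{u}} = 1 - Y u v := by
    unfold cc yb
    rw [Finset.prod_singleton, Finset.prod_singleton, hs]
  rw [Ob_Q h2 true v hu, h0, mul_zero, add_zero]
  rcases Nat.lt_or_ge V.card 3 with h3 | h3
  · have h4 : V.erase u = {v} := (Finset.eq_of_subset_of_card_le (Finset.singleton_subset_iff.2 hv')
      (by rw [Finset.card_singleton]; omega)).symm
    have h5 : V.erase v = {u} := by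
      have hu' : u ∈ V.erase v := Finset.mem_erase.2 ⟨hne, hu⟩
      have hcv : (V.erase v).card + 1 = V.card := Finset.card_erase_add_one hv
      exact (Finset.eq_of_subset_of_card_le (Finset.singleton_subset_iff.2 hu')
        (by rw [Finset.card_singleton]; omega)).symm
    rw [h4, h5, T_single, Obi_one rfl]
    change cc Y v {{u}} * (T Y a (nx ({v}, {{u}}) (v, ({{u}}, true))) * Obe true u {{u}}) = _
    rw [he1, hc1, T_empty]
    · rw [mul_one]
    · unfold nx
      simp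
  · rw [Obi_two (by change 2 ≤ (V.erase u).card; omega) hv', T_contract hs hu hv hne h3]
    have h4 : (({{u}} : Finset (Finset ℕ))).powerset = {∅, {{u}}} := by
      ext C
      rw [Finset.mem_powerset, Finset.mem_insert, Finset.mem_singleton]
      exact Finset.subset_singleton_iff
    change ∑ C ∈ (({{u}} : Finset (Finset ℕ))).powerset, _ = _
    rw [h4, Finset.sum_pair (Finset.singleton_ne_empty _).symm, he0, he1, hc1]
    have h5 : nx (V.erase u, {{u}}) (v, ({{u}}, false)) = ((V.erase u).erase v, {{u, v}}) := by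
      unfold nx blk
      simp [Finset.pair_comm]
    have h6 : nx (V.erase u, {{u}}) (v, ({{u}}, true)) = ((V.erase u).erase v, ∅) := by
      unfold nx
      simp
    rw [h5, h6]
    ring

private theorem Ob_csym {Y : ℕ → ℕ → ℝ} (hs : ∀ x z, Y x z = Y z x) {a : ℝ} {V : Finset ℕ} (h2 : 2 ≤ V.card)
    {u v : ℕ} (hu : u ∈ V) (hv : v ∈ V) (hne : u ≠ v) :
    (1 - Y v u) * T (conY v u Y) a (V.erase u, ∅) = (1 - Y u v) * T (conY u v Y) a (V.erase v, ∅) := by
  rw [hs v u]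
  congr 1
  rcases Nat.lt_or_ge V.card 3 with h3 | h3
  · have hv' : v ∈ V.erase u := Finset.mem_erase.2 ⟨hne.symm, hv⟩
    have hce : (V.erase u).card + 1 = V.card := Finset.card_erase_add_one hu
    have h4 : V.erase u = {v} := (Finset.eq_of_subset_of_card_le (Finset.singleton_subset_iff.2 hv')
      (by rw [Finset.card_singleton]; omega)).symm
    have h5 : V.erase v = {u} := by
      have hu' : u ∈ V.erase v := Finset.mem_erase.2 ⟨hne, hu⟩
      have hcv : (V.erase v).card + 1 = V.card := Finset.card_erase_add_one hv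
      exact (Finset.eq_of_subset_of_card_le (Finset.singleton_subset_iff.2 hu')
        (by rw [Finset.card_singleton]; omega)).symm
    rw [h4, h5, T_single, T_single]
  · rw [T_contract hs hu hv hne h3, T_contract hs hv hu hne.symm h3, Finset.erase_right_comm, Finset.pair_comm]

theorem ob_true {Y : ℕ → ℕ → ℝ} (hs : ∀ x z, Y x z = Y z x) (hY : ∀ x z, |Y x z| ≤ 1) {a : ℝ} (ha : 0 ≤ a)
    {V : Finset ℕ} (hT : 0 < T Y a (V, ∅)) {u v : ℕ} (hu : u ∈ V) (hv : v ∈ V) (hne : u ≠ v) :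
    ExL Y a V.card (V, ∅) (ob true u v) =
      2 / (V.card * (V.card - 1)) * ((1 - Y u v) * T (conY u v Y) a (V.erase v, ∅) / T Y a (V, ∅)) := by
  have h2 : 2 ≤ V.card := Finset.one_lt_card.2 ⟨u, hu, v, hv, hne⟩
  rw [Ob_sum hY ha h2 true hne, Ob_Qt hs h2 hu hv hne, Ob_Qt hs h2 hv hu hne.symm, Ob_csym hs h2 hu hv hne,
    div_mul_div_comm]
  congr 1
  ring

theorem ob_false {Y : ℕ → ℕ → ℝ} (hs : ∀ x z, Y x z = Y z x) (hY : ∀ x z, |Y x z| ≤ 1) {a : ℝ} (ha : 0 ≤ a)
    {V : Finset ℕ} (hT : 0 < T Y a (V, ∅)) {u v : ℕ} (hu : u ∈ V) (hv : v ∈ V) (hne : u ≠ v) :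
    ExL Y a V.card (V, ∅) (ob false u v) =
      2 / (V.card * (V.card - 1)) * (T (delY u v Y) a (V, ∅) / T Y a (V, ∅)) := by
  have h2 : 2 ≤ V.card := Finset.one_lt_card.2 ⟨u, hu, v, hv, hne⟩
  have h3 : delY v u Y = delY u v Y := by
    funext x z
    unfold delY
    congr 1
    exact propext or_comm
  rw [Ob_sum hY ha h2 false hne, Ob_Qf hs h2 hu hv hne, Ob_Qf hs h2 hv hu hne.symm, h3, div_mul_div_comm]
  congr 1
  ring

end BSI
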