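import Pool.Agent.BSI.Obs
import Pool.Agent.BSI.Ob
import Pool.Agent.BSI.KapW

/-!
# BSI, D1: the partition function of a graph, deletion and contraction, the means of the two observables

PLAN. All the mathematics is in helper88's Ob.lean and Lbl.lean (statements there, proved by others at the same time): `ob_true`, `ob_false`, `T_dc`, `T_contract`, `T_congr`, `T_single`, `conY`, `delY`. Here: `X = (V.toFinset, ∅)`, `Y = YE p q E`, `lab_YE`, `YE_symm` (KapW.lean) give the hypotheses on the labels.
(1) For `u = e.1`, `v = e.2`: `YE p q (delE u v E) = delY u v (YE p q E)` (`funext`; for `{x, z} = {u, v}` no edge is left: the number of edges is `0`; otherwise no edge between `x` and `z` is deleted, `List.filter_filter`, `List.filter_congr`; the case `x = z` also). For `x, z` in `V.toFinset.erase v`, `x ≠ z`: `YE p q (conE u v E) x z = conY u v (YE p q E) x z` (`z = u`: the edges of `conE` between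
`x` and `u` are the edges of `E` between `x` and `u` and between `x` and `v`; count with `List.length` of `filter` of `map`, all ends of edges are in `V`, no loops: `Gr`), and `(conV v V).toFinset = V.toFinset.erase v`; so `tauM (conV v V) (conE u v E) = T (conY u v Y) a (V.toFinset.erase v, ∅)` by `T_congr` with `σ = id`.
(2) `tauM_dc` is `T_dc` with `Y' = delY u v Y` (`Y' u v = 1`). (3) `tauM_nil`: all labels are `1`; induction on the list with `T_one` (`2 ≤ card`) and `T_single`; the labels of `[]` do not depend on anything. `tauM_nonneg`: `T_nonneg`. (4) `ex_obs_true`, `ex_obs_false`: the function `if obP w u v l then 1 else 0` and `ob w u v l` have the same `ExL` because they agree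
on all lists which occur (`l1 ∈ lts (V.toFinset, ∅)`: `l1.2.1 = ∅`, `blk l1.1 ∅ = {l1.1}`, `l2.2.1 ⊆ {{l1.1}}`); `V.toFinset.card = V.length ≥ 2` (`two_le`); the first two letters are `l.getD 0`, `l.getD 1`. Then `ob_true`, `ob_false` and (1).
-/

set_option autoImplicit false

namespace BSI.M

open Finset

/-- the partition function of a graph -/
noncomputable def tauM (p q a1 a2 : ℕ) (V : List ℕ) (E : List (ℕ × ℕ)) : ℝ := T (YE p q E) (aR a1 a2) (V.toFinset, ∅)

private theorem D1_abs {p q : ℕ} (hpq : p < q) (E : List (ℕ × ℕ)) (x z : ℕ) : |YE p q E x z| ≤ 1 := by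
  rcases (lab_YE hpq E).gap x z with h | h
  · rw [h, abs_one]
  · have := (lab_YE hpq E).pos
    linarith

private theorem D1_a (a1 a2 : ℕ) : 0 ≤ aR a1 a2 := by
  unfold aR
  positivity

private theorem D1_Wf (V : Finset ℕ) : Wf (V, (∅ : Finset (Finset ℕ))) :=
  ⟨fun B hB => absurd hB (notMem_empty B), fun B hB => absurd hB (notMem_empty B),
    fun B hB => absurd hB (notMem_empty B)⟩

/-- the labels after the deletion -/
private theorem D1_del (p q : ℕ) (E : List (ℕ × ℕ)) (u v : ℕ) : YE p q (delE u v E) = delY u v (YE p q E) := by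
  funext x z
  unfold YE delY
  by_cases h : (x = u ∧ z = v) ∨ (x = v ∧ z = u)
  · rw [if_pos h]
    have h1 : eb (delE u v E) x [z] = [] := by
      unfold eb delE
      rw [List.filter_filter, List.filter_eq_nil_iff]
      intro e _ h2
      simp only [isE, Bool.and_eq_true, Bool.or_eq_true, beq_iff_eq, List.contains_cons, List.contains_nil,
        Bool.or_false, Bool.not_eq_true', Bool.or_eq_false_iff, Bool.and_eq_false_iff, beq_eq_false_iff_ne] at h2
      obtain ⟨h3, h4, h5⟩ := h2
      rcases h with ⟨rfl, rfl⟩ | ⟨rfl, rfl⟩ <;> rcases h3 with ⟨h6, h7⟩ | ⟨h6, h7⟩ <;> simp_all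
    rw [h1]
    simp
  · rw [if_neg h]
    have h1 : eb (delE u v E) x [z] = eb E x [z] := by
      unfold eb delE
      rw [List.filter_filter]
      refine List.filter_congr fun e _ => ?_
      rw [Bool.eq_iff_iff]
      simp only [isE, Bool.and_eq_true, Bool.or_eq_true, beq_iff_eq, List.contains_cons, List.contains_nil,
        Bool.or_false, Bool.not_eq_true', Bool.or_eq_false_iff, Bool.and_eq_false_iff, beq_eq_false_iff_ne]
      constructor
      · exact fun h2 => h2.1
      · intro h2
        refine ⟨h2, ?_, ?_⟩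
        · by_contra hc
          push Not at hc
          apply h
          rcases h2 with ⟨h3, h4⟩ | ⟨h3, h4⟩
          · exact Or.inl ⟨h3.symm.trans hc.1, h4.symm.trans hc.2⟩
          · exact Or.inr ⟨h3.symm.trans hc.2, h4.symm.trans hc.1⟩
        · by_contra hc
          push Not at hc
          apply h
          rcases h2 with ⟨h3, h4⟩ | ⟨h3, h4⟩
          · exact Or.inr ⟨h3.symm.trans hc.1, h4.symm.trans hc.2⟩
          · exact Or.inl ⟨h3.symm.trans hc.2, h4.symm.trans hc.1⟩
    rw [h1]

private theorem D1_add {α : Type} (P Q R : α → Bool) (h1 : ∀ e, P e = (Q e || R e))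
    (h2 : ∀ e, (Q e && R e) = false) (E : List α) :
    (E.filter P).length = (E.filter Q).length + (E.filter R).length := by
  induction E with
  | nil => simp
  | cons e E ih =>
    have h1' := h1 e
    have h2' := h2 e
    rw [List.filter_cons, List.filter_cons, List.filter_cons]
    cases hQ : Q e <;> cases hR : R e
    · rw [hQ, hR] at h1'
      rw [h1']
      simpa using ih
    · rw [hQ, hR] at h1'
      rw [h1']
      simp only [Bool.false_or, if_true, List.length_cons, Bool.false_eq_true, if_false]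
      omega
    · rw [hQ, hR] at h1'
      rw [h1']
      simp only [Bool.or_false, if_true, List.length_cons, Bool.false_eq_true, if_false]
      omega
    · rw [hQ, hR] at h2'
      exact absurd h2' (by decide)

/-- the edges after the contraction, as a filter of the old edges -/
private theorem D1_len (E : List (ℕ × ℕ)) (u v x z : ℕ) : (eb (conE u v E) x [z]).length =
    (E.filter fun e => ((((if e.1 == v then u else e.1) == x && (if e.2 == v then u else e.2) == z) ||
      ((if e.2 == v then u else e.2) == x && (if e.1 == v then u else e.1) == z)) && !(isE u v e))).length := by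
  unfold eb conE delE
  rw [List.filter_map, List.length_map, List.filter_filter]
  congr 1
  refine List.filter_congr fun e _ => ?_
  simp only [Function.comp, List.contains_cons, List.contains_nil, Bool.or_false]

private theorem D1_len2 (E : List (ℕ × ℕ)) {u v x z : ℕ} (hxu : x ≠ u) (hxv : x ≠ v) (hzu : z ≠ u) (hzv : z ≠ v) :
    (eb (conE u v E) x [z]).length = (eb E x [z]).length := by
  rw [D1_len]
  unfold eb
  congr 1
  refine List.filter_congr fun e _ => ?_
  rw [Bool.eq_iff_iff]
  simp only [isE, Bool.and_eq_true, Bool.or_eq_true, beq_iff_eq, List.contains_cons, List.contains_nil,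
    Bool.or_false, Bool.not_eq_true', Bool.or_eq_false_iff, Bool.and_eq_false_iff, beq_eq_false_iff_ne]
  by_cases c1 : e.1 = v <;> by_cases c2 : e.2 = v
  · simp only [c1, c2, if_true]
    constructor
    · rintro ⟨h | h, _⟩
      · exact absurd h.1.symm hxu
      · exact absurd h.1.symm hxu
    · rintro (h | h)
      · exact absurd h.1.symm hxv
      · exact absurd h.1.symm hxv
  · simp only [c1, c2, if_true, if_false]
    constructor
    · rintro ⟨h | h, _⟩
      · exact absurd h.1.symm hxu
      · exact absurd h.2.symm hzu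
    · rintro (h | h)
      · exact absurd h.1.symm hxv
      · exact absurd h.2.symm hzv
  · simp only [c1, c2, if_true, if_false]
    constructor
    · rintro ⟨h | h, _⟩
      · exact absurd h.2.symm hzu
      · exact absurd h.1.symm hxu
    · rintro (h | h)
      · exact absurd h.2.symm hzv
      · exact absurd h.1.symm hxv
  · simp only [c1, c2, if_false]
    constructor
    · exact fun h => h.1
    · intro h
      refine ⟨h, Or.inr c2, Or.inl c1⟩

private theorem D1_len3 (E : List (ℕ × ℕ)) {u v x : ℕ} (huv : u ≠ v) (hxu : x ≠ u) (hxv : x ≠ v) :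
    (eb (conE u v E) x [u]).length = (eb E x [u]).length + (eb E x [v]).length := by
  rw [D1_len]
  unfold eb
  refine D1_add _ _ _ (fun e => ?_) (fun e => ?_) E
  · rw [Bool.eq_iff_iff]
    simp only [isE, Bool.and_eq_true, Bool.or_eq_true, beq_iff_eq, List.contains_cons, List.contains_nil,
      Bool.or_false, Bool.not_eq_true', Bool.or_eq_false_iff, Bool.and_eq_false_iff, beq_eq_false_iff_ne]
    by_cases c1 : e.1 = v <;> by_cases c2 : e.2 = v
    · simp only [c1, c2, if_true]
      constructor
      · rintro ⟨h | h, _⟩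
        · exact absurd h.1.symm hxu
        · exact absurd h.1.symm hxu
      · rintro ((h | h) | (h | h))
        · exact absurd h.1.symm hxv
        · exact absurd h.1.symm hxv
        · exact absurd h.1.symm hxv
        · exact absurd h.1.symm hxv
    · simp only [c1, c2, if_true, if_false]
      constructor
      · rintro ⟨h | h, _⟩
        · exact absurd h.1.symm hxu
        · exact Or.inr (Or.inr ⟨h.1, trivial⟩)
      · rintro ((h | h) | (h | h))
        · exact absurd h.1.symm hxv
        · exact absurd h.2.symm huv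
        · exact absurd h.1.symm hxv
        · exact ⟨Or.inr ⟨h.1, trivial⟩, Or.inl fun h' => huv h'.symm, Or.inr fun h' => hxu (h.1.symm.trans h')⟩
    · simp only [c1, c2, if_true, if_false]
      constructor
      · rintro ⟨h | h, _⟩
        · exact Or.inr (Or.inl ⟨h.1, trivial⟩)
        · exact absurd h.1.symm hxu
      · rintro ((h | h) | (h | h))
        · exact absurd h.2.symm huv
        · exact absurd h.1.symm hxv
        · exact ⟨Or.inl ⟨h.1, trivial⟩, Or.inl fun h' => hxu (h.1.symm.trans h'), Or.inr fun h' => huv h'.symm⟩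
        · exact absurd h.1.symm hxv
    · simp only [c1, c2, if_false]
      constructor
      · exact fun h => Or.inl h.1
      · rintro (h | (h | h))
        · exact ⟨h, Or.inr c2, Or.inl c1⟩
        · exact absurd h.2 (by simp)
        · exact absurd h.2 (by simp)
  · rw [Bool.eq_false_iff]
    intro h
    simp only [Bool.and_eq_true, Bool.or_eq_true, beq_iff_eq, List.contains_cons, List.contains_nil,
      Bool.or_false] at h
    obtain ⟨h1, h2⟩ := h
    rcases h1 with ⟨h3, h4⟩ | ⟨h3, h4⟩ <;> rcases h2 with ⟨h5, h6⟩ | ⟨h5, h6⟩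
    · exact huv (h4.symm.trans h6)
    · exact hxu (h5.symm.trans h4)
    · exact hxu (h5.symm.trans h4)
    · exact huv (h4.symm.trans h6)

private theorem D1_con (p q : ℕ) (E : List (ℕ × ℕ)) {u v x z : ℕ} (huv : u ≠ v) (hx : x ≠ v) (hz : z ≠ v)
    (hxz : x ≠ z) : YE p q (conE u v E) x z = conY u v (YE p q E) x z := by
  unfold conY
  by_cases h1 : x = u
  · rw [if_pos h1, YE_symm p q E u z, YE_symm p q E v z, YE_symm, h1]
    unfold YE
    rw [D1_len3 E huv (fun h => hxz (h1.trans h.symm)) hz, pow_add]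
  · rw [if_neg h1]
    by_cases h2 : z = u
    · rw [if_pos h2, h2]
      unfold YE
      rw [D1_len3 E huv h1 hx, pow_add]
    · rw [if_neg h2]
      unfold YE
      rw [D1_len2 E h1 hx h2 hz]

private theorem D1_V (V : List ℕ) (v : ℕ) : (conV v V).toFinset = V.toFinset.erase v := by
  ext x
  simp [conV, and_comm]

private theorem D1_T (p q a1 a2 : ℕ) (V : List ℕ) (E : List (ℕ × ℕ)) {u v : ℕ} (huv : u ≠ v) :
    tauM p q a1 a2 (conV v V) (conE u v E) = T (conY u v (YE p q E)) (aR a1 a2) (V.toFinset.erase v, ∅) := by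
  unfold tauM
  rw [D1_V]
  refine T_congr (D1_Wf _) (D1_Wf _) rfl id (Set.bijOn_id _) (fun t _ B hB => absurd hB (notMem_empty B)) ?_
  intro t ht s hs hts
  exact D1_con p q E huv (Finset.ne_of_mem_erase ht) (Finset.ne_of_mem_erase hs) hts

theorem tauM_nonneg {p q a1 a2 : ℕ} (hpq : p < q) (V : List ℕ) (E : List (ℕ × ℕ)) : 0 ≤ tauM p q a1 a2 V E :=
  T_nonneg (D1_abs hpq E) (D1_a a1 a2) _

theorem tauM_nil (p q a1 a2 : ℕ) {V : List ℕ} (hV : V.Nodup) (hn : V ≠ []) :
    tauM p q a1 a2 V [] = ((a1 : ℝ) / a2) ^ (V.length - 1) := by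
  have h0 : ∀ x z, YE p q [] x z = 1 := by
    intro x z
    unfold YE eb
    simp
  induction V with
  | nil => exact absurd rfl hn
  | cons v V ih =>
    obtain ⟨hv, hV'⟩ := List.nodup_cons.1 hV
    rcases eq_or_ne V [] with h1 | h1
    · subst h1
      have h2 : ([v] : List ℕ).toFinset = {v} := by simp
      unfold tauM
      rw [h2, T_single]
      simp
    · have h2 : (v :: V).toFinset.erase v = V.toFinset := by
        rw [List.toFinset_cons, Finset.erase_insert]
        rwa [List.mem_toFinset]
      have h3 : (v :: V).toFinset.card = V.length + 1 := by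
        rw [List.toFinset_card_of_nodup hV, List.length_cons]
      have h4 : 0 < V.length := List.length_pos_of_ne_nil h1
      have h5 : tauM p q a1 a2 (v :: V) [] = aR a1 a2 * tauM p q a1 a2 V [] := by
        unfold tauM
        rw [T_one (r := v) (YE_symm p q []) (by simp) (by omega) (fun x _ _ => h0 x v), h2]
      rw [h5, ih hV' h1, List.length_cons, Nat.add_sub_cancel]
      obtain ⟨k, hk⟩ : ∃ k, V.length = k + 1 := ⟨V.length - 1, by omega⟩
      rw [hk, Nat.add_sub_cancel, pow_succ]
      unfold aR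
      ring

theorem tauM_dc {p q a1 a2 : ℕ} (hpq : p < q) {V : List ℕ} {e : ℕ × ℕ} {E : List (ℕ × ℕ)} (hG : Gr V (e :: E)) :
    tauM p q a1 a2 V (e :: E) = (1 - (-(p : ℝ) / q) ^ (eb (e :: E) e.1 [e.2]).length) *
      tauM p q a1 a2 (conV e.2 V) (conE e.1 e.2 (e :: E)) + tauM p q a1 a2 V (delE e.1 e.2 (e :: E)) := by
  obtain ⟨h1, h2, h3⟩ := hG.2 e (by simp)
  have h4 := D1_del p q (e :: E) e.1 e.2
  have h5 : YE p q (delE e.1 e.2 (e :: E)) e.1 e.2 = 1 := by
    rw [h4]
    unfold delY
    rw [if_pos (Or.inl ⟨rfl, rfl⟩)]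
  rw [D1_T p q a1 a2 V (e :: E) h3]
  unfold tauM
  rw [T_dc (Y := YE p q (e :: E)) (Y' := YE p q (delE e.1 e.2 (e :: E))) (YE_symm p q _) (YE_symm p q _)
    (List.mem_toFinset.2 h1) (List.mem_toFinset.2 h2) h3 ?_, h5, add_comm]
  · rfl
  · intro x z hxz
    rw [h4]
    unfold delY
    rw [if_neg hxz]

private theorem D1_ex {Y : ℕ → ℕ → ℝ} {a : ℝ} {V : Finset ℕ} (h2 : 2 ≤ V.card) (w : Bool) (u v : ℕ) :
    ExL Y a V.card (V, ∅) (fun l => if obP w u v l then 1 else 0) = ExL Y a V.card (V, ∅) (ob w u v) := by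
  obtain ⟨k, hk⟩ : ∃ k, V.card = k + 2 := ⟨V.card - 2, by omega⟩
  rw [hk]
  change ∑ l1 ∈ lts (V, ∅), pr Y a (V, ∅) l1 * ∑ l2 ∈ lts (nx (V, ∅) l1), pr Y a (nx (V, ∅) l1) l2 *
      ExL Y a k (nx (nx (V, ∅) l1) l2) (fun m => if obP w u v (l1 :: l2 :: m) then 1 else 0) =
    ∑ l1 ∈ lts (V, ∅), pr Y a (V, ∅) l1 * ∑ l2 ∈ lts (nx (V, ∅) l1), pr Y a (nx (V, ∅) l1) l2 *
      ExL Y a k (nx (nx (V, ∅) l1) l2) (fun m => ob w u v (l1 :: l2 :: m))
  refine Finset.sum_congr rfl fun l1 hl1 => ?_
  congr 1
  refine Finset.sum_congr rfl fun l2 hl2 => ?_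
  have h3 : l1.2.1 = ∅ := Finset.subset_empty.1 (lts_sub hl1)
  have h4 := lts_sub hl2
  have h5 : blk l1.1 l1.2.1 ∈ l2.2.1 ↔ ∃ B ∈ l2.2.1, l1.1 ∈ B := by
    constructor
    · intro h
      exact ⟨_, h, Finset.mem_insert_self _ _⟩
    · rintro ⟨B, hB, _⟩
      have h6 := h4 hB
      unfold nx at h6
      simp only [h3] at h6
      split_ifs at h6
      · simp at h6
      · rw [Finset.sdiff_self, insert_empty_eq, Finset.mem_singleton] at h6
        rw [h3, ← h6]
        exact hB
  have h6 : (fun m => if obP w u v (l1 :: l2 :: m) then (1 : ℝ) else 0) = fun m => ob w u v (l1 :: l2 :: m) := by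
    funext m
    unfold ob
    have h7 : obP w u v (l1 :: l2 :: m) ↔ ((l1.1 = u ∧ l2.1 = v) ∨ (l1.1 = v ∧ l2.1 = u)) ∧
        (decide (∃ B ∈ l2.2.1, l1.1 ∈ B) = w) := by
      unfold obP
      change (((l1.1 = u ∧ l2.1 = v) ∨ (l1.1 = v ∧ l2.1 = u)) ∧ (blk l1.1 l1.2.1 ∈ l2.2.1 ↔ w = true)) ↔ _
      rw [h5]
      refine and_congr_right fun _ => ?_
      cases w <;> simp
    by_cases h8 : obP w u v (l1 :: l2 :: m)
    · rw [if_pos h8]
      exact (if_pos (h7.1 h8)).symm
    · rw [if_neg h8]
      exact (if_neg fun h9 => h8 (h7.2 h9)).symm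
  rw [h6]

theorem ex_obs_true {p q a1 a2 : ℕ} (hpq : p < q) {V : List ℕ} {e : ℕ × ℕ} {E : List (ℕ × ℕ)} (hG : Gr V (e :: E))
    (hT : 0 < tauM p q a1 a2 V (e :: E)) :
    ExL (YE p q (e :: E)) (aR a1 a2) V.length (V.toFinset, ∅) (fun l => if obP true e.1 e.2 l then 1 else 0) =
      2 / ((V.length : ℝ) * (V.length - 1)) * ((1 - (-(p : ℝ) / q) ^ (eb (e :: E) e.1 [e.2]).length) *
        tauM p q a1 a2 (conV e.2 V) (conE e.1 e.2 (e :: E)) / tauM p q a1 a2 V (e :: E)) := by
  obtain ⟨h1, h2, h3⟩ := hG.2 e (by simp)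
  have h4 : V.toFinset.card = V.length := List.toFinset_card_of_nodup hG.1
  have h5 : 2 ≤ V.toFinset.card := by
    rw [h4]
    exact two_le hG
  have h6 := ob_true (Y := YE p q (e :: E)) (YE_symm p q _) (D1_abs hpq _) (D1_a a1 a2) (V := V.toFinset) hT
    (List.mem_toFinset.2 h1) (List.mem_toFinset.2 h2) h3
  rw [← D1_ex h5, h4] at h6
  rw [h6, D1_T p q a1 a2 V (e :: E) h3]
  rfl

theorem ex_obs_false {p q a1 a2 : ℕ} (hpq : p < q) {V : List ℕ} {e : ℕ × ℕ} {E : List (ℕ × ℕ)} (hG : Gr V (e :: E))
    (hT : 0 < tauM p q a1 a2 V (e :: E)) :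
    ExL (YE p q (e :: E)) (aR a1 a2) V.length (V.toFinset, ∅) (fun l => if obP false e.1 e.2 l then 1 else 0) =
      2 / ((V.length : ℝ) * (V.length - 1)) * (tauM p q a1 a2 V (delE e.1 e.2 (e :: E)) / tauM p q a1 a2 V (e :: E)) := by
  obtain ⟨h1, h2, h3⟩ := hG.2 e (by simp)
  have h4 : V.toFinset.card = V.length := List.toFinset_card_of_nodup hG.1
  have h5 : 2 ≤ V.toFinset.card := by
    rw [h4]
    exact two_le hG
  have h6 := ob_false (Y := YE p q (e :: E)) (YE_symm p q _) (D1_abs hpq _) (D1_a a1 a2) (V := V.toFinset) hT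
    (List.mem_toFinset.2 h1) (List.mem_toFinset.2 h2) h3
  rw [← D1_ex h5, h4] at h6
  rw [h6]
  unfold tauM
  rw [D1_del]

end BSI.M
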