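import Pool.Agent.ACY.GCmp

/-!
# BSI (MP_e767af_lc): the reversed partition process, definitions

A state `X = (R, P)`: `R` the vertices which are not inserted yet, `P` the separate blocks; the other vertices are on the root. A letter `(t, (C, f))`: the
vertex `t` is inserted and swallows the blocks of `C`; `f = true`: the new block goes to the root. The last vertex swallows everything, its letter is `(t, (P, true))`.
`Y u v` is the label of the pair `u v`, `a` the weight of the root. `tau` is the partition function, `pr X l` the probability of the letter `l` in the state `X`, `p X Z` the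
probability of the next state `Z`. `LOC` is the local variance inequality: for all functions `ψ` of the state after two letters.
-/

set_option autoImplicit false

namespace BSI

open Finset ACY

/-- a state -/
abbrev St : Type := Finset ℕ × Finset (Finset ℕ)

/-- a letter -/
abbrev Le : Type := ℕ × (Finset (Finset ℕ) × Bool)

/-- the label between `t` and the block `B` -/
noncomputable def yb (Y : ℕ → ℕ → ℝ) (t : ℕ) (B : Finset ℕ) : ℝ := ∏ b ∈ B, Y t b

/-- the weight of the blocks `C` swallowed by `t` -/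
noncomputable def cc (Y : ℕ → ℕ → ℝ) (t : ℕ) (C : Finset (Finset ℕ)) : ℝ := ∏ B ∈ C, (1 - yb Y t B)

/-- the new block -/
def blk (t : ℕ) (C : Finset (Finset ℕ)) : Finset ℕ := insert t (C.biUnion id)

/-- the state after the letter `l` -/
def nx (X : St) (l : Le) : St :=
  (X.1.erase l.1, if l.2.2 then X.2 \ l.2.1 else insert (blk l.1 l.2.1) (X.2 \ l.2.1))

/-- the letters possible in the state `X` -/
def lts (X : St) : Finset Le :=
  if 2 ≤ X.1.card then X.1 ×ˢ (X.2.powerset ×ˢ Finset.univ) else X.1 ×ˢ ({X.2} ×ˢ {true})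

/-- the weight of a letter -/
noncomputable def wl (Y : ℕ → ℕ → ℝ) (a : ℝ) (X : St) (l : Le) : ℝ :=
  cc Y l.1 l.2.1 * (if l.2.2 = true ∧ 2 ≤ X.1.card then a else 1)

/-- the partition function, to be used with `n = X.1.card` -/
noncomputable def tau (Y : ℕ → ℕ → ℝ) (a : ℝ) : ℕ → St → ℝ
  | 0, _ => 1
  | n + 1, X => (∑ l ∈ lts X, wl Y a X l * tau Y a n (nx X l)) / X.1.card

/-- the partition function -/
noncomputable def T (Y : ℕ → ℕ → ℝ) (a : ℝ) (X : St) : ℝ := tau Y a X.1.card X

/-- the probability of the letter `l` -/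
noncomputable def pr (Y : ℕ → ℕ → ℝ) (a : ℝ) (X : St) (l : Le) : ℝ :=
  wl Y a X l * T Y a (nx X l) / (X.1.card * T Y a X)

/-- well formed states -/
structure Wf (X : St) : Prop where
  ne : ∀ B ∈ X.2, B.Nonempty
  dj : ∀ B ∈ X.2, ∀ C ∈ X.2, B ≠ C → Disjoint B C
  dR : ∀ B ∈ X.2, Disjoint B X.1

/-- the states of the chain -/
def ok (Y : ℕ → ℕ → ℝ) (a : ℝ) (X : St) : Prop := Wf X ∧ 0 < T Y a X

open Classical in
/-- the letters of positive probability -/
noncomputable def ltp (Y : ℕ → ℕ → ℝ) (a : ℝ) (X : St) : Finset Le := (lts X).filter fun l => 0 < pr Y a X l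

/-- the next states -/
noncomputable def cov (Y : ℕ → ℕ → ℝ) (a : ℝ) (X : St) : Finset St := (ltp Y a X).image (nx X)

/-- the probability of the next state -/
noncomputable def p (Y : ℕ → ℕ → ℝ) (a : ℝ) (X Z : St) : ℝ := ∑ l ∈ (lts X).filter (fun l => nx X l = Z), pr Y a X l

/-- the letter between two states -/
def enc (X Z : St) : Le := (∑ t ∈ X.1 \ Z.1, t, (X.2 \ Z.2, decide (Z.2 ⊆ X.2)))

/-- the states visited -/
def path : St → List Le → List St
  | _, [] => []
  | X, l :: m => nx X l :: path (nx X l) m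

/-- the letters of a list of states -/
def encs : St → List St → List Le
  | _, [] => []
  | X, Z :: m => enc X Z :: encs Z m

/-- the mean of a function of the letters, to be used with `n = X.1.card` -/
noncomputable def ExL (Y : ℕ → ℕ → ℝ) (a : ℝ) : ℕ → St → (List Le → ℝ) → ℝ
  | 0, _, f => f []
  | n + 1, X, f => ∑ l ∈ lts X, pr Y a X l * ExL Y a n (nx X l) (fun m => f (l :: m))

/-- the conditions on the labels -/
structure Lab (Y : ℕ → ℕ → ℝ) (η : ℝ) : Prop where
  pos : 0 < η
  le1 : η ≤ 1
  symm : ∀ u v, Y u v = Y v u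
  gap : ∀ u v, Y u v = 1 ∨ |Y u v| ≤ 1 - η

/-- **the local variance inequality** with the constants `th m`, `m` the number of the vertices not inserted -/
def LOC (Y : ℕ → ℕ → ℝ) (a : ℝ) (th : ℕ → ℝ) : Prop :=
  ∀ X : St, ok Y a X → 3 ≤ X.1.card → ∀ ψ : St → ℝ,
    GPoi.V (cov Y a) (p Y a) (p Y a) (GPoi.P (cov Y a) (p Y a) ψ) X ≤
      th X.1.card * ∑ Z ∈ cov Y a X, p Y a X Z * GPoi.V (cov Y a) (p Y a) (p Y a) ψ Z

end BSI
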