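import Pool.Agent.ACY.GCmp

/-!
# BSI-Dual: the local variance inequality from the norm of the adjoint operator (abstract)

PLAN. Fix `X`, `φ Z = P ψ Z - P (P ψ) X` (a centred function: `∑ p X Z * φ Z = 0` by `one`), `μ = P (P ψ) X`, `ψ0 W = ψ W - μ`. `V (P ψ) X = ∑ p X Z * φ Z ^ 2 =: A`. `A = ∑ Z, p X Z * φ Z * ∑ W ∈ cov Z, p Z W * ψ0 W` (`∑ W, p Z W = 1`, here `2 ≤ rk X`) `= ∑ W, (∑ Z ∈ mid X W, p X Z * p Z W * φ Z) * ψ0 W` (`sum_mid`).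
Cauchy (`Finset.sum_mul_sq_le_sq_mul_sq` or `Finset.sum_sq_le_sum_mul_sum_of_sq_eq_mul`) with `mass > 0` (`mass_pos`): `A ^ 2 ≤ (∑ W, (∑ Z, ..) ^ 2 / mass) * ∑ W, mass * ψ0 W ^ 2 ≤ Λ * A * B`, `B = ∑ W, mass X W * ψ0 W ^ 2 = ∑ Z, p X Z * ∑ W, p Z W * ψ0 W ^ 2 = A + ∑ Z, p X Z * V ψ Z` (`var_eq` for every `Z`). So `A ≤ Λ B` (also if `A = 0`)
and `(1 - Λ) A ≤ Λ ∑ Z, p X Z * V ψ Z`.
-/

set_option autoImplicit false

namespace BSI.Ch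

open Finset ACY ACY.GPoi

variable {α : Type} {cov : α → Finset α} {p : α → α → ℝ}

private theorem Dual_alg {A S L : ℝ} (hA : 0 ≤ A) (hS : 0 ≤ S) (hL0 : 0 ≤ L) (hL1 : L < 1)
    (h : A ^ 2 ≤ (L * A) * (A + S)) : A ≤ L / (1 - L) * S := by
  have h1 : 0 < 1 - L := by linarith
  rcases hA.eq_or_lt with h0 | h0
  · rw [← h0]
    exact mul_nonneg (div_nonneg hL0 h1.le) hS
  · have h2 : A ≤ L * (A + S) := by
      have h3 : A * A ≤ A * (L * (A + S)) := by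
        calc A * A = A ^ 2 := by ring
          _ ≤ (L * A) * (A + S) := h
          _ = A * (L * (A + S)) := by ring
      exact le_of_mul_le_mul_left h3 h0
    rw [div_mul_eq_mul_div, le_div_iff₀ h1]
    linarith

open Classical in
theorem dual {X : α} (hp : ∀ Z ∈ cov X, 0 < p X Z) (hp' : ∀ Z ∈ cov X, ∀ W ∈ cov Z, 0 < p Z W)
    (h1 : ∑ Z ∈ cov X, p X Z = 1) (h1' : ∀ Z ∈ cov X, ∑ W ∈ cov Z, p Z W = 1) {Lam : ℝ} (hL0 : 0 ≤ Lam) (hL1 : Lam < 1)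
    (h : ∀ g : α → ℝ, ∑ Z ∈ cov X, p X Z * g Z = 0 →
      ∑ W ∈ (cov X).biUnion cov, (∑ Z ∈ mid cov X W, p X Z * p Z W * g Z) ^ 2 / mass cov p X W ≤
        Lam * ∑ Z ∈ cov X, p X Z * g Z ^ 2) (ψ : α → ℝ) :
    V cov p p (P cov p ψ) X ≤ Lam / (1 - Lam) * ∑ Z ∈ cov X, p X Z * V cov p p ψ Z := by
  obtain ⟨μ, hμ⟩ : ∃ μ : ℝ, μ = P cov p (P cov p ψ) X := ⟨_, rfl⟩
  obtain ⟨φ, hφ⟩ : ∃ φ : α → ℝ, ∀ Z, φ Z = P cov p ψ Z - μ := ⟨_, fun _ => rfl⟩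
  have hA : V cov p p (P cov p ψ) X = ∑ Z ∈ cov X, p X Z * φ Z ^ 2 := by
    unfold V
    refine Finset.sum_congr rfl fun Z _ => ?_
    rw [hφ, hμ]
  have hc : ∑ Z ∈ cov X, p X Z * φ Z = 0 := by
    have e1 : ∑ Z ∈ cov X, p X Z * φ Z = ∑ Z ∈ cov X, p X Z * P cov p ψ Z - μ * ∑ Z ∈ cov X, p X Z := by
      rw [Finset.mul_sum, ← Finset.sum_sub_distrib]
      refine Finset.sum_congr rfl fun Z _ => ?_
      rw [hφ]
      ring
    have e2 : ∑ Z ∈ cov X, p X Z * P cov p ψ Z = μ := hμ.symm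
    rw [e1, h1, e2]
    ring
  have hm : ∀ Z ∈ cov X, ∑ W ∈ cov Z, p Z W * (ψ W - μ) = φ Z := by
    intro Z hZ
    have e1 : ∑ W ∈ cov Z, p Z W * (ψ W - μ) = ∑ W ∈ cov Z, p Z W * ψ W - μ * ∑ W ∈ cov Z, p Z W := by
      rw [Finset.mul_sum, ← Finset.sum_sub_distrib]
      exact Finset.sum_congr rfl fun W _ => by ring
    rw [e1, h1' Z hZ, hφ, mul_one]
    rfl
  have hmass : ∀ W ∈ (cov X).biUnion cov, 0 < mass cov p X W := by
    intro W hW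
    obtain ⟨Z, hZ, hZW⟩ := Finset.mem_biUnion.1 hW
    unfold mass
    refine Finset.sum_pos (fun Z' hZ' => ?_) ⟨Z, ?_⟩
    · have h2 := Finset.mem_filter.1 hZ'
      exact mul_pos (hp Z' h2.1) (hp' Z' h2.1 W h2.2)
    · exact Finset.mem_filter.2 ⟨hZ, hZW⟩
  have eA : ∑ Z ∈ cov X, p X Z * φ Z ^ 2 = ∑ W ∈ (cov X).biUnion cov,
      (∑ Z ∈ mid cov X W, p X Z * p Z W * φ Z) * (ψ W - μ) := by
    have e1 : ∑ Z ∈ cov X, p X Z * φ Z ^ 2 =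
        ∑ Z ∈ cov X, ∑ W ∈ cov Z, p X Z * p Z W * φ Z * (ψ W - μ) := by
      refine Finset.sum_congr rfl fun Z hZ => ?_
      have e2 : ∑ W ∈ cov Z, p X Z * p Z W * φ Z * (ψ W - μ) =
          p X Z * φ Z * ∑ W ∈ cov Z, p Z W * (ψ W - μ) := by
        rw [Finset.mul_sum]
        exact Finset.sum_congr rfl fun W _ => by ring
      rw [e2, hm Z hZ]
      ring
    rw [e1, sum_mid X (fun Z W => p X Z * p Z W * φ Z * (ψ W - μ))]
    refine Finset.sum_congr rfl fun W _ => ?_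
    rw [Finset.sum_mul]
  have eB : ∑ W ∈ (cov X).biUnion cov, mass cov p X W * (ψ W - μ) ^ 2 =
      ∑ Z ∈ cov X, p X Z * φ Z ^ 2 + ∑ Z ∈ cov X, p X Z * V cov p p ψ Z := by
    have e1 : ∑ W ∈ (cov X).biUnion cov, mass cov p X W * (ψ W - μ) ^ 2 =
        ∑ W ∈ (cov X).biUnion cov, ∑ Z ∈ mid cov X W, p X Z * p Z W * (ψ W - μ) ^ 2 := by
      refine Finset.sum_congr rfl fun W _ => ?_
      rw [mass, Finset.sum_mul]
    rw [e1, ← sum_mid X (fun Z W => p X Z * p Z W * (ψ W - μ) ^ 2), ← Finset.sum_add_distrib]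
    refine Finset.sum_congr rfl fun Z hZ => ?_
    have e2 : ∑ W ∈ cov Z, p X Z * p Z W * (ψ W - μ) ^ 2 =
        p X Z * ∑ W ∈ cov Z, p Z W * (ψ W - μ) ^ 2 := by
      rw [Finset.mul_sum]
      exact Finset.sum_congr rfl fun W _ => by ring
    have e3 := var_eq (s := cov Z) (w := p Z) (h := fun W => ψ W - μ) (h1' Z hZ)
    rw [hm Z hZ] at e3
    have e4 : ∑ W ∈ cov Z, p Z W * ((ψ W - μ) - φ Z) ^ 2 = V cov p p ψ Z := by
      unfold V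
      refine Finset.sum_congr rfl fun W _ => ?_
      rw [hφ]
      ring
    have e5 : ∑ W ∈ cov Z, p Z W * (ψ W - μ) ^ 2 = V cov p p ψ Z + φ Z ^ 2 := by
      rw [← e4, e3]
      ring
    rw [e2, e5]
    ring
  have hCS : (∑ Z ∈ cov X, p X Z * φ Z ^ 2) ^ 2 ≤
      (∑ W ∈ (cov X).biUnion cov, (∑ Z ∈ mid cov X W, p X Z * p Z W * φ Z) ^ 2 / mass cov p X W) *
        ∑ W ∈ (cov X).biUnion cov, mass cov p X W * (ψ W - μ) ^ 2 := by
    conv_lhs => rw [eA]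
    refine Finset.sum_sq_le_sum_mul_sum_of_sq_le_mul _ (fun W hW => ?_) (fun W hW => ?_) fun W hW => ?_
    · exact div_nonneg (sq_nonneg _) (hmass W hW).le
    · exact mul_nonneg (hmass W hW).le (sq_nonneg _)
    · have h2 := (hmass W hW).ne'
      refine le_of_eq ?_
      field_simp
  have hB0 : 0 ≤ ∑ W ∈ (cov X).biUnion cov, mass cov p X W * (ψ W - μ) ^ 2 :=
    Finset.sum_nonneg fun W hW => mul_nonneg (hmass W hW).le (sq_nonneg _)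
  have hfin := hCS.trans (mul_le_mul_of_nonneg_right (h φ hc) hB0)
  rw [eB] at hfin
  rw [hA]
  refine Dual_alg ?_ ?_ hL0 hL1 hfin
  · exact Finset.sum_nonneg fun Z hZ => mul_nonneg (hp Z hZ).le (sq_nonneg _)
  · refine Finset.sum_nonneg fun Z hZ => mul_nonneg (hp Z hZ).le ?_
    exact Finset.sum_nonneg fun W hW => mul_nonneg (hp' Z hZ W hW).le (sq_nonneg _)

end BSI.Ch
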