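import Pool.Agent.BSI.Gr
import Pool.Agent.ACY.MFa

/-!
# BSI machine layer, Es: the adaptive estimate

PLAN. `pr_cnt`: Chebyshev, as `MCh_gen` and `pr_cnt` in ACY/MCh.lean (copy the private lemmas). `pr_est`: induction on `F`, generalising `V E`. Models: ACY/MEs.lean, `MFa_core` in ACY/MFa.lean. For `E = []` the estimate is exact. For `e :: E` and `F + 1`:
put `s = 2 / (n (n - 1))`, `n = V.length`, `mu1 = s * ((1 - y ^ j) * τ con) / τ`, `mu0 = s * τ del / τ`; by `hdc` `mu1 + mu0 = s ≥ 2 / t ^ 2`. Outside of an event of probability `2 / (K δ ^ 2)`, `δ = η / (8 t ^ 2)` (`pr_cnt` for both values of `w`, `pr_or`, `pr_take`),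
`|cnt_w / K - mu_w| ≤ 2 δ`, and the larger count has `mu_w ≥ s / 2 - 4 δ ≥ 1 / (2 t ^ 2)`, so `|cnt_w / K - mu_w| ≤ η * mu_w` (relative), hence `RC (2 η)` for `(s K / cnt_w) * (τ of the branch with its factor)` against `τ`. In particular the chosen `τ` is positive, and the
induction hypothesis applies to the chosen branch with the bits `l.drop (K * m)`: the bad event is contained in (first event) or (bad event of the tail for `(conV, conE)`, IF that `τ` is positive) or (the same for `delE`); the two tails have to be treated as ONE event of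
probability at most `F * ...`: write the average over the first `K * m` bits as the outer average (`av_take_drop`) and bound the inner one for every fixed first part (`av_mono`): for fixed first part only one branch occurs. `fuel`: `(conE ..).length = (delE ..).length ≤ E.length ≤ F`.
-/

set_option autoImplicit false

namespace BSI.M

open Finset ACY ACY.M

private theorem Es_mean {m : ℕ} {g : List Bool → ℝ} {h : ℕ → List Bool → ℝ} (h0 : ∀ l, h 0 l = 0)
    (hs : ∀ K l, h (K + 1) l = g (l.take m) + h K (l.drop m)) (K : ℕ) :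
    av (K * m) (h K) = K * av m g := by
  induction K with
  | zero =>
    rw [Nat.zero_mul, Nat.cast_zero, zero_mul]
    exact h0 []
  | succ K ih =>
    have e : (K + 1) * m = m + K * m := by ring
    have e1 : av (m + K * m) (h (K + 1)) = av (m + K * m) (fun l => g (l.take m) + h K (l.drop m)) :=
      av_congr fun l _ => hs K l
    rw [e, e1, av_take_drop m (K * m) (fun l l' => g l + h K l')]
    have e2 : av m (fun l => av (K * m) (fun l' => g l + h K l')) = av m (fun l => g l + K * av m g) := by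
      refine av_congr fun l _ => ?_
      rw [av_add (K * m) (fun _ => g l) (h K), av_const, ih]
    rw [e2, av_add m g (fun _ => K * av m g), av_const]
    push_cast
    ring

private theorem Es_var {m : ℕ} {g : List Bool → ℝ} (hg0 : ∀ l, 0 ≤ g l) (hg1 : ∀ l, g l ≤ 1)
    {h : ℕ → List Bool → ℝ} (h0 : ∀ l, h 0 l = 0)
    (hs : ∀ K l, h (K + 1) l = g (l.take m) + h K (l.drop m)) (K : ℕ) :
    av (K * m) (fun l => (h K l - K * av m g) ^ 2) ≤ K := by
  have hp0 : 0 ≤ av m g := av_nonneg fun l _ => hg0 l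
  have hp1 : av m g ≤ 1 := by
    have h1 := av_mono (n := m) (F := g) (H := fun _ => 1) fun l _ => hg1 l
    rwa [av_const] at h1
  induction K with
  | zero =>
    rw [Nat.zero_mul]
    show (h 0 [] - ((0 : ℕ) : ℝ) * av m g) ^ 2 ≤ ((0 : ℕ) : ℝ)
    rw [h0, Nat.cast_zero, zero_mul, sub_zero, zero_pow two_ne_zero]
  | succ K ih =>
    have e : (K + 1) * m = m + K * m := by ring
    have e1 : av (m + K * m) (fun l => (h (K + 1) l - ((K + 1 : ℕ) : ℝ) * av m g) ^ 2) =
        av (m + K * m) (fun l => ((g (l.take m) - av m g) + (h K (l.drop m) - K * av m g)) ^ 2) := by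
      refine av_congr fun l _ => ?_
      rw [hs]
      push_cast
      ring
    rw [e, e1, av_take_drop m (K * m) (fun l l' => ((g l - av m g) + (h K l' - K * av m g)) ^ 2)]
    have hc : av (K * m) (fun l => h K l - K * av m g) = 0 := by
      rw [av_sub (K * m) (h K) (fun _ => K * av m g), av_const, Es_mean h0 hs, sub_self]
    have e2 : av m (fun l => av (K * m) (fun l' => ((g l - av m g) + (h K l' - K * av m g)) ^ 2)) =
        av m (fun l => (g l - av m g) ^ 2 + av (K * m) (fun l => (h K l - K * av m g) ^ 2)) := by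
      refine av_congr fun l _ => ?_
      have e3 : av (K * m) (fun l' => ((g l - av m g) + (h K l' - K * av m g)) ^ 2) =
          av (K * m) (fun l' => ((g l - av m g) ^ 2 + 2 * (g l - av m g) * (h K l' - K * av m g)) +
            (h K l' - K * av m g) ^ 2) := av_congr fun l' _ => by ring
      rw [e3, av_add (K * m) (fun l' => (g l - av m g) ^ 2 + 2 * (g l - av m g) * (h K l' - K * av m g))
          (fun l' => (h K l' - K * av m g) ^ 2),
        av_add (K * m) (fun _ => (g l - av m g) ^ 2)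
          (fun l' => 2 * (g l - av m g) * (h K l' - K * av m g)), av_const,
        av_smul (K * m) (2 * (g l - av m g)) (fun l' => h K l' - K * av m g), hc, mul_zero, add_zero]
    rw [e2, av_add m (fun l => (g l - av m g) ^ 2)
      (fun _ => av (K * m) (fun l => (h K l - K * av m g) ^ 2)), av_const]
    have e4 : av m (fun l => (g l - av m g) ^ 2) ≤ 1 := by
      have h1 := av_mono (n := m) (F := fun l => (g l - av m g) ^ 2) (H := fun _ => 1) (by
        intro l _
        have a1 := hg0 l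
        have a2 := hg1 l
        rw [sq_le_one_iff_abs_le_one, abs_le]
        constructor <;> linarith)
      rwa [av_const] at h1
    push_cast
    linarith

private theorem Es_gen {m : ℕ} {g : List Bool → ℝ} (hg0 : ∀ l, 0 ≤ g l) (hg1 : ∀ l, g l ≤ 1)
    {h : ℕ → List Bool → ℝ} (h0 : ∀ l, h 0 l = 0)
    (hs : ∀ K l, h (K + 1) l = g (l.take m) + h K (l.drop m)) {K : ℕ} (hK : 0 < K) {δ : ℝ} (hδ : 0 < δ) :
    pr (K * m) (fun l => ¬ |h K l / K - av m g| ≤ δ) ≤ 1 / (K * δ ^ 2) := by
  have hK' : (0 : ℝ) < K := by exact_mod_cast hK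
  have hKδ : 0 < (K * δ) ^ 2 := by positivity
  have h1 := pr_markov (n := K * m) (F := fun l => (h K l - K * av m g) ^ 2)
    (fun l _ => sq_nonneg _) hKδ
  have h2 : pr (K * m) (fun l => ¬ |h K l / K - av m g| ≤ δ) ≤
      pr (K * m) (fun l => (K * δ) ^ 2 ≤ (h K l - K * av m g) ^ 2) := by
    refine pr_mono fun l _ hl => ?_
    have h3 : h K l - K * av m g = K * (h K l / K - av m g) := by
      field_simp
    have h4 : δ ≤ |h K l / K - av m g| := (not_le.1 hl).le
    rw [h3, mul_pow, mul_pow, ← sq_abs (h K l / K - av m g)]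
    exact mul_le_mul_of_nonneg_left (pow_le_pow_left₀ hδ.le h4 2) (sq_nonneg _)
  refine h2.trans (h1.trans ?_)
  rw [div_le_div_iff₀ hKδ (by positivity), one_mul]
  have h5 := Es_var hg0 hg1 h0 hs K
  have h6 : (0 : ℝ) ≤ K * δ ^ 2 := by positivity
  calc av (K * m) (fun l => (h K l - K * av m g) ^ 2) * (K * δ ^ 2) ≤ K * (K * δ ^ 2) :=
        mul_le_mul_of_nonneg_right h5 h6
    _ = (K * δ) ^ 2 := by ring

theorem pr_cnt (p q a1 a2 : ℕ) (V : List ℕ) (E : List (ℕ × ℕ)) (b c T m : ℕ) (w : Bool) (u v : ℕ) {K : ℕ} (hK : 0 < K)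
    {δ : ℝ} (hδ : 0 < δ) :
    pr (K * m) (fun l => ¬ |(cnt p q a1 a2 V E b c T m w u v K l : ℝ) / K -
      av m (fun l => (trial p q a1 a2 V E b c T w u v l : ℝ))| ≤ δ) ≤ 1 / (K * δ ^ 2) := by
  refine Es_gen (m := m) (g := fun l => (trial p q a1 a2 V E b c T w u v l : ℝ))
    (h := fun K l => (cnt p q a1 a2 V E b c T m w u v K l : ℝ)) (fun l => Nat.cast_nonneg _) (fun l => ?_)
    (fun l => ?_) (fun K l => ?_) hK hδ
  · show (trial p q a1 a2 V E b c T w u v l : ℝ) ≤ 1
    unfold trial
    split_ifs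
    · rw [Nat.cast_one]
    · rw [Nat.cast_zero]
      exact zero_le_one
  · exact Nat.cast_zero
  · exact Nat.cast_add _ _

private theorem Es_mono {τ σ a b : ℝ} (h : τ ≤ σ) (hb : 0 ≤ b) (hab : RC τ a b) : RC σ a b := by
  obtain ⟨h1, h2⟩ := hab
  refine ⟨le_trans (mul_le_mul_of_nonneg_right (Real.exp_le_exp.2 (neg_le_neg h)) hb) h1,
    le_trans h2 (mul_le_mul_of_nonneg_right (Real.exp_le_exp.2 h) hb)⟩

private theorem Es_mul {τ σ x y a b : ℝ} (hy : 0 ≤ y) (h1 : RC τ x a) (h2 : RC σ (y * a) b) :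
    RC (σ + τ) (y * x) b := by
  obtain ⟨h3, h4⟩ := h1
  obtain ⟨h5, h6⟩ := h2
  have e1 := Real.exp_pos (-τ)
  have e2 := Real.exp_pos τ
  refine ⟨?_, ?_⟩
  · calc Real.exp (-(σ + τ)) * b = Real.exp (-τ) * (Real.exp (-σ) * b) := by
          rw [neg_add, Real.exp_add]
          ring
      _ ≤ Real.exp (-τ) * (y * a) := mul_le_mul_of_nonneg_left h5 e1.le
      _ = y * (Real.exp (-τ) * a) := by ring
      _ ≤ y * x := mul_le_mul_of_nonneg_left h3 hy
  · calc y * x ≤ y * (Real.exp τ * a) := mul_le_mul_of_nonneg_left h4 hy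
      _ = Real.exp τ * (y * a) := by ring
      _ ≤ Real.exp τ * (Real.exp σ * b) := mul_le_mul_of_nonneg_left h6 e2.le
      _ = Real.exp (σ + τ) * b := by
          rw [Real.exp_add]
          ring

private theorem Es_rel {a b : ℝ} {K c : ℕ} {η : ℝ} (ha : 0 < a) (hb : 0 < b)
    (hK : 0 < K) (hη : 0 < η) (hη1 : η ≤ 1 / 2) (h : |(c : ℝ) / K - a / b| ≤ η * (a / b)) :
    0 < c ∧ RC (2 * η) ((K : ℝ) / c * a) b := by
  have hK' : (0 : ℝ) < K := by exact_mod_cast hK
  have h7 := abs_le.1 h
  have h8 : a / b * b = a := div_mul_cancel₀ a hb.ne'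
  have h9 : (1 - η) * a ≤ (c : ℝ) / K * b := by
    have h10 : (1 - η) * (a / b) ≤ (c : ℝ) / K := by linarith [h7.1]
    have h11 := mul_le_mul_of_nonneg_right h10 hb.le
    rw [mul_assoc, h8] at h11
    exact h11
  have h12 : (c : ℝ) / K * b ≤ (1 + η) * a := by
    have h10 : (c : ℝ) / K ≤ (1 + η) * (a / b) := by linarith [h7.2]
    have h11 := mul_le_mul_of_nonneg_right h10 hb.le
    rw [mul_assoc, h8] at h11
    exact h11
  have h13 : 0 < (1 - η) * a := mul_pos (by linarith) ha
  have hc : 0 < c := by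
    rcases Nat.eq_zero_or_pos c with h0 | h0
    · rw [h0, Nat.cast_zero, zero_div, zero_mul] at h9
      linarith
    · exact h0
  have hc' : (0 : ℝ) < c := by exact_mod_cast hc
  have h14 : 1 + 2 * η ≤ Real.exp (2 * η) := by
    have := Real.add_one_le_exp (2 * η)
    linarith
  have he : 0 < Real.exp (2 * η) := Real.exp_pos _
  have h15 : (c : ℝ) * b ≤ (1 + η) * a * K := by
    have h16 : (c : ℝ) / K * b * K = c * b := by field_simp
    rw [← h16]
    exact mul_le_mul_of_nonneg_right h12 hK'.le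
  have h17 : (1 - η) * a * K ≤ (c : ℝ) * b := by
    have h16 : (c : ℝ) / K * b * K = c * b := by field_simp
    rw [← h16]
    exact mul_le_mul_of_nonneg_right h9 hK'.le
  refine ⟨hc, ?_, ?_⟩
  · rw [Real.exp_neg, inv_mul_le_iff₀ he]
    have e1 : Real.exp (2 * η) * ((K : ℝ) / c * a) = Real.exp (2 * η) * (a * K) / c := by ring
    rw [e1, le_div_iff₀ hc']
    calc b * c = c * b := mul_comm _ _
      _ ≤ (1 + η) * a * K := h15
      _ = (1 + η) * (a * K) := by ring
      _ ≤ Real.exp (2 * η) * (a * K) := mul_le_mul_of_nonneg_right (by linarith) (by positivity)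
  · have e1 : (K : ℝ) / c * a = (a * K) / c := by ring
    rw [e1, div_le_iff₀ hc']
    have h18 : (a * K) ≤ Real.exp (2 * η) * ((1 - η) * a * K) := by
      have h19 : 1 ≤ Real.exp (2 * η) * (1 - η) := by
        have h20 : (1 + 2 * η) * (1 - η) ≤ Real.exp (2 * η) * (1 - η) :=
          mul_le_mul_of_nonneg_right h14 (by linarith)
        nlinarith
      have h21 := mul_le_mul_of_nonneg_right h19 (mul_pos ha hK').le
      calc a * K = 1 * (a * K) := (one_mul _).symm
        _ ≤ Real.exp (2 * η) * (1 - η) * (a * K) := h21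
        _ = Real.exp (2 * η) * ((1 - η) * a * K) := by ring
    calc a * K ≤ Real.exp (2 * η) * ((1 - η) * a * K) := h18
      _ ≤ Real.exp (2 * η) * (c * b) := mul_le_mul_of_nonneg_left h17 he.le
      _ = Real.exp (2 * η) * b * c := by ring

/-- one factor: the branch with the larger count -/
private theorem Es_core {a b τ p p' : ℝ} {K c c' n t : ℕ} {η : ℝ} (hτ : 0 < τ) (hab : τ = a + b) (hn : 2 ≤ n)
    (hnt : n ≤ t) (hK : 0 < K) (hη : 0 < η) (hη1 : η ≤ 1 / 2) (hcc : c' ≤ c)
    (h1 : |p - 2 / ((n : ℝ) * (n - 1)) * (a / τ)| ≤ η / (8 * t ^ 2))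
    (h2 : |p' - 2 / ((n : ℝ) * (n - 1)) * (b / τ)| ≤ η / (8 * t ^ 2))
    (h3 : |(c : ℝ) / K - p| ≤ η / (8 * t ^ 2)) (h4 : |(c' : ℝ) / K - p'| ≤ η / (8 * t ^ 2)) :
    0 < a ∧ 0 < c ∧ RC (2 * η) ((K : ℝ) / c * (2 / ((n : ℝ) * (n - 1)) * a)) τ := by
  have hK' : (0 : ℝ) < K := by exact_mod_cast hK
  have hn' : (2 : ℝ) ≤ n := by exact_mod_cast hn
  have hnt' : (n : ℝ) ≤ t := by exact_mod_cast hnt
  have ht : (0 : ℝ) < t := by linarith
  have hnn : 0 < (n : ℝ) * (n - 1) := mul_pos (by linarith) (by linarith)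
  have hs : 2 / (t : ℝ) ^ 2 ≤ 2 / ((n : ℝ) * (n - 1)) := by
    refine div_le_div_of_nonneg_left (by norm_num) hnn ?_
    nlinarith
  obtain ⟨s, hsd⟩ : ∃ s : ℝ, s = 2 / ((n : ℝ) * (n - 1)) := ⟨_, rfl⟩
  rw [← hsd] at h1 h2 hs ⊢
  have hs0 : 0 < s := lt_of_lt_of_le (by positivity) hs
  obtain ⟨δ, hδ⟩ : ∃ δ : ℝ, δ = η / (8 * (t : ℝ) ^ 2) := ⟨_, rfl⟩
  rw [← hδ] at h1 h2 h3 h4
  have e1 : η / (8 * (t : ℝ) ^ 2) = η / 16 * (2 / (t : ℝ) ^ 2) := by
    field_simp
    ring
  have hδs : δ ≤ η / 16 * s := by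
    rw [hδ, e1]
    exact mul_le_mul_of_nonneg_left hs (by linarith)
  have hcc' : (c' : ℝ) / K ≤ (c : ℝ) / K := by
    refine div_le_div_of_nonneg_right ?_ hK'.le
    exact_mod_cast hcc
  have hM : a / τ + b / τ = 1 := by
    rw [← add_div, ← hab]
    exact div_self hτ.ne'
  have h5 := abs_le.1 h1
  have h6 := abs_le.1 h2
  have h7 := abs_le.1 h3
  have h8 := abs_le.1 h4
  have h9 : s * (a / τ) + s * (b / τ) = s := by
    rw [← mul_add, hM, mul_one]
  have h10 : s / 2 - 2 * δ ≤ s * (a / τ) := by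
    linarith [h5.1, h5.2, h6.1, h6.2, h7.1, h7.2, h8.1, h8.2]
  have h11 : s / 4 ≤ s * (a / τ) := by
    nlinarith
  have h12 : |(c : ℝ) / K - s * (a / τ)| ≤ 2 * δ := by
    have := abs_sub_le ((c : ℝ) / K) p (s * (a / τ))
    linarith
  have h13 : 2 * δ ≤ η * (s * (a / τ)) := by
    have : η * (s / 4) ≤ η * (s * (a / τ)) := mul_le_mul_of_nonneg_left h11 hη.le
    nlinarith
  have hpos : 0 < s * (a / τ) := lt_of_lt_of_le (by linarith) h11
  have ha : 0 < a := by
    have h14 : 0 < a / τ := by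
      rcases lt_or_ge 0 (a / τ) with h | h
      · exact h
      · nlinarith
    have h15 := mul_pos h14 hτ
    rwa [div_mul_cancel₀ a hτ.ne'] at h15
  have h16 : s * (a / τ) = s * a / τ := by ring
  rw [h16] at h12 h13
  obtain ⟨h17, h18⟩ := Es_rel (mul_pos hs0 ha) hτ hK hη hη1 (h12.trans h13)
  exact ⟨ha, h17, h18⟩

private theorem Es_split {W N : ℕ} {P : List Bool → Prop} {Q : List Bool → List Bool → Prop} {B : List Bool → Prop}
    {x : ℝ} (h : ∀ l, P l → Q (l.take W) (l.drop W)) (hB : ∀ u, ¬ B u → pr N (Q u) ≤ x) (hx : 0 ≤ x) :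
    pr (W + N) P ≤ pr W B + x := by
  classical
  have h1 : pr (W + N) P ≤ pr (W + N) (fun l => Q (l.take W) (l.drop W)) := pr_mono fun l _ hl => h l hl
  refine h1.trans ?_
  unfold pr
  rw [av_take_drop W N (fun u v => if Q u v then (1 : ℝ) else 0)]
  have h2 : av W (fun l => if B l then (1 : ℝ) else 0) + x = av W (fun l => (if B l then (1 : ℝ) else 0) + x) := by
    rw [av_add W (fun l => if B l then (1 : ℝ) else 0) (fun _ => x), av_const]
  rw [h2]
  refine av_mono fun u _ => ?_
  by_cases hu : B u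
  · rw [if_pos hu]
    have h3 : av N (fun v => if Q u v then (1 : ℝ) else 0) ≤ av N (fun _ => 1) := by
      refine av_mono fun v _ => ?_
      split_ifs
      · exact le_refl _
      · exact zero_le_one
    rw [av_const] at h3
    linarith
  · rw [if_neg hu, zero_add]
    have h4 := hB u hu
    unfold pr at h4
    refine le_trans (le_of_eq ?_) h4
    refine av_congr fun v _ => ?_
    congr

private theorem Es_bad {p q a1 a2 b c T m K t : ℕ} (V : List ℕ) (E : List (ℕ × ℕ)) (u v : ℕ) (hK : 0 < K) {η : ℝ}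
    (hη : 0 < η) (ht : 0 < t) :
    pr (K * m) (fun l => (¬ |(cnt p q a1 a2 V E b c T m true u v K l : ℝ) / K -
      av m (fun l => (trial p q a1 a2 V E b c T true u v l : ℝ))| ≤ η / (8 * t ^ 2)) ∨
      ¬ |(cnt p q a1 a2 V E b c T m false u v K l : ℝ) / K -
      av m (fun l => (trial p q a1 a2 V E b c T false u v l : ℝ))| ≤ η / (8 * t ^ 2)) ≤ 128 * t ^ 4 / (K * η ^ 2) := by
  have ht' : (0 : ℝ) < t := by exact_mod_cast ht
  have hK' : (0 : ℝ) < K := by exact_mod_cast hK
  have hδ : 0 < η / (8 * (t : ℝ) ^ 2) := by positivity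
  have h1 := pr_cnt p q a1 a2 V E b c T m true u v hK hδ
  have h2 := pr_cnt p q a1 a2 V E b c T m false u v hK hδ
  refine le_trans (pr_or _ _ _) (le_trans (add_le_add h1 h2) (le_of_eq ?_))
  field_simp
  ring

theorem pr_est {p q a1 a2 b T m K t L : ℕ} (hpq : p < q) (ha2 : 0 < a2) (hK : 0 < K) {η : ℝ} (hη : 0 < η)
    (hη1 : η ≤ 1 / 2) (τ : List ℕ → List (ℕ × ℕ) → ℝ) (h0 : ∀ V E, Gr V E → 0 ≤ τ V E)
    (hb : ∀ V : List ℕ, V.Nodup → V ≠ [] → τ V [] = ((a1 : ℝ) / a2) ^ (V.length - 1))
    (hdc : ∀ V e E, Gr V (e :: E) → τ V (e :: E) =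
      (1 - (-(p : ℝ) / q) ^ (eb (e :: E) e.1 [e.2]).length) * τ (conV e.2 V) (conE e.1 e.2 (e :: E)) +
        τ V (delE e.1 e.2 (e :: E)))
    (h1 : ∀ V e E, Gr V (e :: E) → V.length ≤ t → (e :: E).length ≤ L → 0 < τ V (e :: E) →
      |av m (fun l => (trial p q a1 a2 V (e :: E) b (cE q a1 a2 V (e :: E)) T true e.1 e.2 l : ℝ)) -
        2 / ((V.length : ℝ) * (V.length - 1)) * ((1 - (-(p : ℝ) / q) ^ (eb (e :: E) e.1 [e.2]).length) *
          τ (conV e.2 V) (conE e.1 e.2 (e :: E)) / τ V (e :: E))| ≤ η / (8 * t ^ 2))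
    (h2 : ∀ V e E, Gr V (e :: E) → V.length ≤ t → (e :: E).length ≤ L → 0 < τ V (e :: E) →
      |av m (fun l => (trial p q a1 a2 V (e :: E) b (cE q a1 a2 V (e :: E)) T false e.1 e.2 l : ℝ)) -
        2 / ((V.length : ℝ) * (V.length - 1)) * (τ V (delE e.1 e.2 (e :: E)) / τ V (e :: E))| ≤ η / (8 * t ^ 2)) :
    ∀ F V E, Gr V E → V ≠ [] → V.length ≤ t → E.length ≤ F → F ≤ L → 0 < τ V E →
      pr (F * (K * m)) (fun l => ¬ ((est p q a1 a2 b T m K F V E l).2 ≠ 0 ∧
        RC (2 * η * F) (((est p q a1 a2 b T m K F V E l).1 : ℝ) / (est p q a1 a2 b T m K F V E l).2) (τ V E))) ≤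
        F * (128 * t ^ 4 / (K * η ^ 2)) := by
  intro F
  have hq0 : 0 < q := by omega
  have hq : (0 : ℝ) < q := by exact_mod_cast hq0
  have ha2' : (0 : ℝ) < a2 := by exact_mod_cast ha2
  have hK' : (0 : ℝ) < K := by exact_mod_cast hK
  have hx : (0 : ℝ) ≤ 128 * (t : ℝ) ^ 4 / (K * η ^ 2) := by positivity
  have hbase : ∀ (F : ℕ) (V : List ℕ), Gr V [] → V ≠ [] → 0 < τ V [] → ∀ l : List Bool,
      ((((a1 ^ (V.length - 1), a2 ^ (V.length - 1)) : ℕ × ℕ)).2 ≠ 0 ∧
        RC (2 * η * F) (((((a1 ^ (V.length - 1), a2 ^ (V.length - 1)) : ℕ × ℕ)).1 : ℝ) /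
          (((a1 ^ (V.length - 1), a2 ^ (V.length - 1)) : ℕ × ℕ)).2) (τ V [])) := by
    intro F V hV hne hpos l
    refine ⟨(pow_pos ha2 _).ne', ?_⟩
    have h3 : ((((a1 ^ (V.length - 1), a2 ^ (V.length - 1)) : ℕ × ℕ)).1 : ℝ) /
          (((a1 ^ (V.length - 1), a2 ^ (V.length - 1)) : ℕ × ℕ)).2 = τ V [] := by
      rw [hb V hV.1 hne, div_pow]
      push_cast
      rfl
    rw [h3]
    have h4 : (0 : ℝ) ≤ 2 * η * F := by positivity
    refine Es_mono h4 hpos.le ?_
    unfold RC
    simp
  induction F with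
  | zero =>
    intro V E hG hne hVt hEF _ hpos
    have hE : E = [] := List.length_eq_zero_iff.1 (Nat.le_zero.1 hEF)
    subst hE
    refine le_trans (pr_mono (Q := fun _ => False) fun l _ h => h ?_) ?_
    · exact hbase 0 V hG hne hpos l
    · rw [pr_false]
      simp
  | succ F ih =>
    intro V E hG hne hVt hEF hFL hpos
    have hlen : (F + 1) * (K * m) = K * m + F * (K * m) := by ring
    rcases E with _ | ⟨e, E⟩
    · refine le_trans (pr_mono (Q := fun _ => False) fun l _ h => h ?_) ?_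
      · exact hbase (F + 1) V hG hne hpos l
      · rw [pr_false]
        positivity
    · have hEF' : E.length ≤ F := by
        rw [List.length_cons] at hEF
        omega
      have hEL : (e :: E).length ≤ L := hEF.trans hFL
      have hFL' : F ≤ L := by omega
      have hn2 : 2 ≤ V.length := two_le hG
      have ht : 0 < t := by omega
      have hin := hG.2 e List.mem_cons_self
      have hGd := hG.del e.1 e.2
      have hGc := hG.con (u := e.1) (v := e.2) hin.1 hin.2.2
      have hdl : (delE e.1 e.2 (e :: E)).length ≤ F := (delE_length e E).trans hEF'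
      have hcl : (conE e.1 e.2 (e :: E)).length ≤ F := by
        rw [conE_length]
        exact hdl
      have hcne : conV e.2 V ≠ [] := conV_ne hin.1 hin.2.2
      have hcV : (conV e.2 V).length ≤ t := by
        have := conV_length hG.1 hin.2.1
        omega
      have hdc' := hdc V e E hG
      have h1' := h1 V e E hG hVt hEL hpos
      have h2' := h2 V e E hG hVt hEL hpos
      obtain ⟨z, hz⟩ : ∃ z : ℝ, z = 1 - (-(p : ℝ) / q) ^ (eb (e :: E) e.1 [e.2]).length := ⟨_, rfl⟩
      rw [← hz] at hdc' h1'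
      obtain ⟨A, hA⟩ : ∃ A : ℝ, A = τ (conV e.2 V) (conE e.1 e.2 (e :: E)) := ⟨_, rfl⟩
      obtain ⟨B, hB⟩ : ∃ B : ℝ, B = τ V (delE e.1 e.2 (e :: E)) := ⟨_, rfl⟩
      rw [← hA] at hdc' h1'
      rw [← hB] at hdc' h2'
      have hA0 : 0 ≤ A := hA ▸ h0 _ _ hGc
      have hB0 : 0 ≤ B := hB ▸ h0 _ _ hGd
      have hw := wE_cast hpq (e :: E) e.1 [e.2]
      rw [← hz] at hw
      have hwp : (0 : ℝ) < wE p q (e :: E) e.1 [e.2] := by exact_mod_cast wE_pos hpq (eb_ne e E)
      have hqE : (0 : ℝ) < (q : ℝ) ^ (e :: E).length := pow_pos hq _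
      have hz0 : 0 < z := by
        rw [hw] at hwp
        rcases lt_or_ge 0 z with h | h
        · exact h
        · nlinarith
      have hnn : (0 : ℝ) < (V.length : ℝ) * (V.length - 1) := by
        have h3 : (2 : ℝ) ≤ V.length := by exact_mod_cast hn2
        exact mul_pos (by linarith) (by linarith)
      have hn1 : ((V.length - 1 : ℕ) : ℝ) = (V.length : ℝ) - 1 := by
        rw [Nat.cast_sub (by omega), Nat.cast_one]
      have hnnN : 0 < V.length * (V.length - 1) := Nat.mul_pos (by omega) (by omega)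
      rw [hlen]
      refine le_trans (Es_split (W := K * m) (N := F * (K * m))
        (B := fun l => (¬ |(cnt p q a1 a2 V (e :: E) b (cE q a1 a2 V (e :: E)) T m true e.1 e.2 K l : ℝ) / K -
          av m (fun l => (trial p q a1 a2 V (e :: E) b (cE q a1 a2 V (e :: E)) T true e.1 e.2 l : ℝ))| ≤ η / (8 * t ^ 2)) ∨
          ¬ |(cnt p q a1 a2 V (e :: E) b (cE q a1 a2 V (e :: E)) T m false e.1 e.2 K l : ℝ) / K -
          av m (fun l => (trial p q a1 a2 V (e :: E) b (cE q a1 a2 V (e :: E)) T false e.1 e.2 l : ℝ))| ≤ η / (8 * t ^ 2))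
        (Q := fun u v =>
          if cnt p q a1 a2 V (e :: E) b (cE q a1 a2 V (e :: E)) T m false e.1 e.2 K u ≤
            cnt p q a1 a2 V (e :: E) b (cE q a1 a2 V (e :: E)) T m true e.1 e.2 K u then
            ¬ ((2 * K * wE p q (e :: E) e.1 [e.2] *
                (est p q a1 a2 b T m K F (conV e.2 V) (conE e.1 e.2 (e :: E)) v).1,
              V.length * (V.length - 1) * q ^ (e :: E).length *
                cnt p q a1 a2 V (e :: E) b (cE q a1 a2 V (e :: E)) T m true e.1 e.2 K u *
                (est p q a1 a2 b T m K F (conV e.2 V) (conE e.1 e.2 (e :: E)) v).2).2 ≠ 0 ∧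
              RC (2 * η * ((F + 1 : ℕ) : ℝ)) (((2 * K * wE p q (e :: E) e.1 [e.2] *
                (est p q a1 a2 b T m K F (conV e.2 V) (conE e.1 e.2 (e :: E)) v).1 : ℕ) : ℝ) /
              ((V.length * (V.length - 1) * q ^ (e :: E).length *
                cnt p q a1 a2 V (e :: E) b (cE q a1 a2 V (e :: E)) T m true e.1 e.2 K u *
                (est p q a1 a2 b T m K F (conV e.2 V) (conE e.1 e.2 (e :: E)) v).2 : ℕ) : ℝ)) (τ V (e :: E)))
          else
            ¬ ((2 * K * (est p q a1 a2 b T m K F V (delE e.1 e.2 (e :: E)) v).1,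
              V.length * (V.length - 1) * cnt p q a1 a2 V (e :: E) b (cE q a1 a2 V (e :: E)) T m false e.1 e.2 K u *
                (est p q a1 a2 b T m K F V (delE e.1 e.2 (e :: E)) v).2).2 ≠ 0 ∧
              RC (2 * η * ((F + 1 : ℕ) : ℝ)) (((2 * K *
                (est p q a1 a2 b T m K F V (delE e.1 e.2 (e :: E)) v).1 : ℕ) : ℝ) /
              ((V.length * (V.length - 1) * cnt p q a1 a2 V (e :: E) b (cE q a1 a2 V (e :: E)) T m false e.1 e.2 K u *
                (est p q a1 a2 b T m K F V (delE e.1 e.2 (e :: E)) v).2 : ℕ) : ℝ)) (τ V (e :: E))))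
        (x := F * (128 * t ^ 4 / (K * η ^ 2))) ?_ ?_ (by positivity)) ?_
      · intro l hl
        rw [est] at hl
        show if _ then _ else _
        split_ifs at hl ⊢ with hcs
        · exact hl
        · exact hl
      · intro u hu
        rw [not_or, not_not, not_not] at hu
        by_cases hcs : cnt p q a1 a2 V (e :: E) b (cE q a1 a2 V (e :: E)) T m false e.1 e.2 K u ≤
            cnt p q a1 a2 V (e :: E) b (cE q a1 a2 V (e :: E)) T m true e.1 e.2 K u
        · obtain ⟨hza, hc0, hRC⟩ := Es_core hpos hdc' hn2 hVt hK hη hη1 hcs h1' h2' hu.1 hu.2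
          have hAp : 0 < A := by
            rcases lt_or_ge 0 A with h | h
            · exact h
            · nlinarith
          have ih' := ih (conV e.2 V) (conE e.1 e.2 (e :: E)) hGc hcne hcV hcl hFL' (hA ▸ hAp)
          refine le_trans (pr_mono fun v _ hv => ?_) ih'
          simp only [if_pos hcs] at hv
          intro hgood
          apply hv
          refine ⟨Nat.mul_ne_zero (Nat.mul_ne_zero (Nat.mul_ne_zero hnnN.ne' (pow_pos hq0 _).ne') hc0.ne') hgood.1, ?_⟩
          have hc0' : (0 : ℝ) < cnt p q a1 a2 V (e :: E) b (cE q a1 a2 V (e :: E)) T m true e.1 e.2 K u := by exact_mod_cast hc0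
          have h7 : (0 : ℝ) ≤ (K : ℝ) / cnt p q a1 a2 V (e :: E) b (cE q a1 a2 V (e :: E)) T m true e.1 e.2 K u *
              (2 / ((V.length : ℝ) * (V.length - 1)) * z) := by positivity
          have h8 : RC (2 * η) ((K : ℝ) / cnt p q a1 a2 V (e :: E) b (cE q a1 a2 V (e :: E)) T m true e.1 e.2 K u *
              (2 / ((V.length : ℝ) * (V.length - 1)) * z) * A) (τ V (e :: E)) := by
            have h9 : (K : ℝ) / cnt p q a1 a2 V (e :: E) b (cE q a1 a2 V (e :: E)) T m true e.1 e.2 K u *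
              (2 / ((V.length : ℝ) * (V.length - 1)) * z) * A =
              (K : ℝ) / cnt p q a1 a2 V (e :: E) b (cE q a1 a2 V (e :: E)) T m true e.1 e.2 K u *
              (2 / ((V.length : ℝ) * (V.length - 1)) * (z * A)) := by ring
            rw [h9]
            exact hRC
          have hg2 := hgood.2
          rw [← hA] at hg2
          have h10 := Es_mul h7 hg2 h8
          have h11 : 2 * η + 2 * η * (F : ℝ) = 2 * η * ((F + 1 : ℕ) : ℝ) := by
            push_cast
            ring
          rw [h11] at h10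
          have h12 : (((2 * K * wE p q (e :: E) e.1 [e.2] *
                (est p q a1 a2 b T m K F (conV e.2 V) (conE e.1 e.2 (e :: E)) v).1 : ℕ) : ℝ) /
              ((V.length * (V.length - 1) * q ^ (e :: E).length *
                cnt p q a1 a2 V (e :: E) b (cE q a1 a2 V (e :: E)) T m true e.1 e.2 K u *
                (est p q a1 a2 b T m K F (conV e.2 V) (conE e.1 e.2 (e :: E)) v).2 : ℕ) : ℝ)) =
              (K : ℝ) / cnt p q a1 a2 V (e :: E) b (cE q a1 a2 V (e :: E)) T m true e.1 e.2 K u *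
              (2 / ((V.length : ℝ) * (V.length - 1)) * z) *
              (((est p q a1 a2 b T m K F (conV e.2 V) (conE e.1 e.2 (e :: E)) v).1 : ℝ) /
                (est p q a1 a2 b T m K F (conV e.2 V) (conE e.1 e.2 (e :: E)) v).2) := by
            have h13 : ((est p q a1 a2 b T m K F (conV e.2 V) (conE e.1 e.2 (e :: E)) v).2 : ℝ) ≠ 0 := by
              exact_mod_cast hgood.1
            push_cast
            rw [hn1, hw]
            have h14 := hnn.ne'
            have h15 := hc0'.ne'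
            have h16 := hqE.ne'
            field_simp
          rw [h12]
          exact h10
        · have hcs' : cnt p q a1 a2 V (e :: E) b (cE q a1 a2 V (e :: E)) T m true e.1 e.2 K u ≤
            cnt p q a1 a2 V (e :: E) b (cE q a1 a2 V (e :: E)) T m false e.1 e.2 K u := (not_le.1 hcs).le
          have hdc'' : τ V (e :: E) = B + z * A := by rw [hdc', add_comm]
          obtain ⟨hBp, hc0, hRC⟩ := Es_core hpos hdc'' hn2 hVt hK hη hη1 hcs' h2' h1' hu.2 hu.1
          have ih' := ih V (delE e.1 e.2 (e :: E)) hGd hne hVt hdl hFL' (hB ▸ hBp)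
          refine le_trans (pr_mono fun v _ hv => ?_) ih'
          simp only [if_neg hcs] at hv
          intro hgood
          apply hv
          refine ⟨Nat.mul_ne_zero (Nat.mul_ne_zero hnnN.ne' hc0.ne') hgood.1, ?_⟩
          have hc0' : (0 : ℝ) < cnt p q a1 a2 V (e :: E) b (cE q a1 a2 V (e :: E)) T m false e.1 e.2 K u := by exact_mod_cast hc0
          have h7 : (0 : ℝ) ≤ (K : ℝ) / cnt p q a1 a2 V (e :: E) b (cE q a1 a2 V (e :: E)) T m false e.1 e.2 K u *
              (2 / ((V.length : ℝ) * (V.length - 1))) := by positivity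
          have h8 : RC (2 * η) ((K : ℝ) / cnt p q a1 a2 V (e :: E) b (cE q a1 a2 V (e :: E)) T m false e.1 e.2 K u *
              (2 / ((V.length : ℝ) * (V.length - 1))) * B) (τ V (e :: E)) := by
            have h9 : (K : ℝ) / cnt p q a1 a2 V (e :: E) b (cE q a1 a2 V (e :: E)) T m false e.1 e.2 K u *
              (2 / ((V.length : ℝ) * (V.length - 1))) * B =
              (K : ℝ) / cnt p q a1 a2 V (e :: E) b (cE q a1 a2 V (e :: E)) T m false e.1 e.2 K u *
              (2 / ((V.length : ℝ) * (V.length - 1)) * B) := by ring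
            rw [h9]
            exact hRC
          have hg2 := hgood.2
          rw [← hB] at hg2
          have h10 := Es_mul h7 hg2 h8
          have h11 : 2 * η + 2 * η * (F : ℝ) = 2 * η * ((F + 1 : ℕ) : ℝ) := by
            push_cast
            ring
          rw [h11] at h10
          have h12 : (((2 * K *
                (est p q a1 a2 b T m K F V (delE e.1 e.2 (e :: E)) v).1 : ℕ) : ℝ) /
              ((V.length * (V.length - 1) * cnt p q a1 a2 V (e :: E) b (cE q a1 a2 V (e :: E)) T m false e.1 e.2 K u *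
                (est p q a1 a2 b T m K F V (delE e.1 e.2 (e :: E)) v).2 : ℕ) : ℝ)) =
              (K : ℝ) / cnt p q a1 a2 V (e :: E) b (cE q a1 a2 V (e :: E)) T m false e.1 e.2 K u *
              (2 / ((V.length : ℝ) * (V.length - 1))) *
              (((est p q a1 a2 b T m K F V (delE e.1 e.2 (e :: E)) v).1 : ℝ) /
                (est p q a1 a2 b T m K F V (delE e.1 e.2 (e :: E)) v).2) := by
            have h13 : ((est p q a1 a2 b T m K F V (delE e.1 e.2 (e :: E)) v).2 : ℝ) ≠ 0 := by
              exact_mod_cast hgood.1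
            push_cast
            rw [hn1]
            have h14 := hnn.ne'
            have h15 := hc0'.ne'
            field_simp
          rw [h12]
          exact h10
      · have h3 := Es_bad (p := p) (q := q) (a1 := a1) (a2 := a2) (b := b) (c := cE q a1 a2 V (e :: E)) (T := T) (m := m) V (e :: E) e.1 e.2
          hK hη ht
        refine le_trans (add_le_add h3 le_rfl) (le_of_eq ?_)
        push_cast
        ring

end BSI.M
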