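import Pool.Agent.BSI.Defs

/-!
# BSI: the chain on the lists of letters, definitions

Two consecutive letters `x = (t, (C, f))`, `y = (s, (D, g))` are joint if the block of `t` is swallowed by `s` or both go to the root. In a joint pair
the order, the distribution of the pieces `pc x y` and (if `g`) the flag of the first letter are resampled; otherwise the two letters may be swapped. `kap t s P g` and `ksw` are the
parameters of the rates, `kap` symmetric in `t`, `s`.
-/

set_option autoImplicit false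

namespace BSI

open Finset

/-- the parameters of the rates -/
abbrev Kap : Type := ℕ → ℕ → Finset (Finset ℕ) → Bool → ℝ

/-- a joint pair of letters -/
def jt (x y : Le) : Prop := blk x.1 x.2.1 ∈ y.2.1 ∨ (x.2.2 = true ∧ y.2.2 = true)

instance (x y : Le) : Decidable (jt x y) := by unfold jt; infer_instance

/-- the pieces of a pair of letters -/
def pc (x y : Le) : Finset (Finset ℕ) := x.2.1 ∪ y.2.1.erase (blk x.1 x.2.1)

/-- the new pair: `z` first, with the pieces `C` of `P` and the flag `fl`, then `z'` with the rest and the flag `g` -/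
def mk2 (z z' : ℕ) (P C : Finset (Finset ℕ)) (fl g : Bool) : Le × Le :=
  ((z, (C, fl)), (z', ((if fl then P \ C else insert (blk z C) (P \ C)), g)))

/-- the weight of the new pair -/
noncomputable def w2 (Y : ℕ → ℕ → ℝ) (a : ℝ) (z z' : ℕ) (P C : Finset (Finset ℕ)) (fl : Bool) : ℝ :=
  cc Y z C * cc Y z' (if fl then P \ C else insert (blk z C) (P \ C)) * (if fl then a else 1)

/-- the possible flags of the first letter -/
def fls (g : Bool) : Finset Bool := if g then {false, true} else {false}

/-- sum over the new pairs with the vertices `t`, `s` -/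
noncomputable def sum2 (t s : ℕ) (P : Finset (Finset ℕ)) (g : Bool) (H : ℕ → ℕ → Finset (Finset ℕ) → Bool → ℝ) : ℝ :=
  ∑ C ∈ P.powerset, ∑ fl ∈ fls g, (H t s C fl + H s t C fl)

/-- the list `l` with the letters `i`, `i + 1` replaced -/
def rep2 (l : List Le) (i : ℕ) (xy : Le × Le) : List Le := (l.set i xy.1).set (i + 1) xy.2

/-- the contribution of one site -/
noncomputable def KLs (Y : ℕ → ℕ → ℝ) (a : ℝ) (kap : Kap) (ksw : ℝ) (F : List Le → ℝ) (l : List Le) (i : ℕ) (x y : Le) : ℝ :=
  if jt x y then kap x.1 y.1 (pc x y) y.2.2 * sum2 x.1 y.1 (pc x y) y.2.2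
      (fun z z' C fl => w2 Y a z z' (pc x y) C fl * (F (rep2 l i (mk2 z z' (pc x y) C fl y.2.2)) - F l))
  else ksw * (F (rep2 l i (y, x)) - F l)

/-- a default letter -/
def le0 : Le := (0, (∅, false))

/-- one step of the chain -/
noncomputable def KL (Y : ℕ → ℕ → ℝ) (a : ℝ) (kap : Kap) (ksw : ℝ) (F : List Le → ℝ) (l : List Le) : ℝ :=
  F l + ∑ i ∈ range (l.length - 1), KLs Y a kap ksw F l i (l.getD i le0) (l.getD (i + 1) le0)

/-- the lists of letters of positive probability -/
def Pos (Y : ℕ → ℕ → ℝ) (a : ℝ) : St → List Le → Prop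
  | X, [] => X.1 = ∅
  | X, l :: m => l ∈ lts X ∧ 0 < pr Y a X l ∧ Pos Y a (nx X l) m

/-- the probability of a list of letters -/
noncomputable def PrL (Y : ℕ → ℕ → ℝ) (a : ℝ) : St → List Le → ℝ
  | _, [] => 1
  | X, l :: m => pr Y a X l * PrL Y a (nx X l) m

/-- the states on the vertices `V` -/
def In (V : Finset ℕ) (X : St) : Prop := X.1 ⊆ V ∧ ∀ B ∈ X.2, B ⊆ V

/-- the total weight of the new pairs of a joint pair -/
noncomputable def mass2 (Y : ℕ → ℕ → ℝ) (a : ℝ) (x y : Le) : ℝ :=
  sum2 x.1 y.1 (pc x y) y.2.2 (fun z z' C fl => w2 Y a z z' (pc x y) C fl)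

/-- the conditions on the rates: lower and upper bounds for the total rate of a pair of positive probability -/
structure KOK (Y : ℕ → ℕ → ℝ) (a : ℝ) (kap : Kap) (ksw c : ℝ) (N0 : ℕ) (V : Finset ℕ) : Prop where
  symm : ∀ t s P g, kap t s P g = kap s t P g
  nn : ∀ t s P g, 0 ≤ kap t s P g
  cpos : 0 < c
  sw : c ≤ 2 * ksw
  sw' : ksw ≤ 1 / (4 * N0)
  card : V.card ≤ N0
  low : ∀ (X : St) (x y : Le), In V X → Wf X → x ∈ lts X → y ∈ lts (nx X x) → 0 < pr Y a X x → 0 < pr Y a (nx X x) y →
    jt x y → c ≤ kap x.1 y.1 (pc x y) y.2.2 * mass2 Y a x y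
  up : ∀ (X : St) (x y : Le), In V X → Wf X → x ∈ lts X → y ∈ lts (nx X x) → 0 < pr Y a X x → 0 < pr Y a (nx X x) y →
    jt x y → kap x.1 y.1 (pc x y) y.2.2 * mass2 Y a x y ≤ 1 / (2 * N0)

end BSI
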