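import Pool.Agent.BSI.Ins
import Pool.Agent.BSI.KL

/-!
# BSI-Fib: the pairs of letters between two states (combinatorics of the fibres)

Two consecutive letters `l1`, `l2` from `X` to `W`; `jt l1 l2`, `pc l1 l2`, `mk2`, `fls` are defined in BSI/KL.lean.

PLAN. Write `l1 = (t, (C, f))`, `l2 = (s, (D, g))`, `Z = nx X l1`, `P = X.2`. `lts_two`, `lts_one`, `lts_fst`, `lts_sub`, `blk_notMem` (BSI/Bas.lean). A block of `Z.2` contains `t` iff it is `blk t C` (and `f = false`). For `X.1.card = 2` the second letter is `(s, (Z.2, true))`.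
`swap_mem`: not joint: `blk t C ∉ D`, so `D ⊆ P \ C`, and not `f = g = true`; in particular `3 ≤ X.1.card`. `nx (nx X l2) l1 = nx (nx X l1) l2`: both are `(R, (P \ C) \ D` with the new blocks `)`; `Finset.insert_sdiff_of_notMem`, `Finset.sdiff_sdiff_left'`, `Finset.Insert.comm`, `Finset.erase_right_comm`.
`jt_mem`: the pair `mk2 z z' D' C1 fl g`, `D' = pc l1 l2`; for `f = false`, `blk t C ∈ D`: `W.2` is `insert (blk s D) (P \ D')` (`g = false`) or `P \ D'` (`g = true`), and `blk s D = insert s (insert t (D'.biUnion id))` is symmetric; `blk z' (insert (blk z C1) (D' \ C1))` is the same set.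
For `f = g = true`: `W.2 = P \ D'`.
`fib_all`: let `(l1', l2')` be another pair with the same `W`. The two vertices are `X.1 \ W.1`. If `(l1, l2)` is joint then so is `(l1', l2')`: both on the root iff no block of `W.2` contains `t` or `s`; in one block iff a block of `W.2` contains both; the pieces are `P \ W.2` in both cases (`pc_sub`).
If `l2'` swallows the block of `l1'` then `l2'.2.1 = insert (blk z C1) (pc \ C1)`, otherwise (both flags `true`) `l2'.2.1 = pc \ C1`. If not joint: the letters are determined by the blocks of `W.2` containing `t` and `s` (`blk t C` determines `C`: the blocks of `P` contained in it; blocks are nonempty and disjoint) or by `P \ W.2`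
for the one on the root.
-/

set_option autoImplicit false

namespace BSI

open Finset ACY

variable {X : St}

private theorem Fib_mem_nx {l : Le} {B : Finset ℕ} :
    B ∈ (nx X l).2 ↔ (B ∈ X.2 ∧ B ∉ l.2.1) ∨ (l.2.2 = false ∧ B = blk l.1 l.2.1) := by
  unfold nx
  cases hf : l.2.2 with
  | true => simp
  | false =>
    simp only [Bool.false_eq_true, if_false, Finset.mem_insert, Finset.mem_sdiff]
    tauto

private theorem Fib_W {l1 l2 : Le} {B : Finset ℕ} : B ∈ (nx (nx X l1) l2).2 ↔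
    (((B ∈ X.2 ∧ B ∉ l1.2.1) ∨ (l1.2.2 = false ∧ B = blk l1.1 l1.2.1)) ∧ B ∉ l2.2.1) ∨
      (l2.2.2 = false ∧ B = blk l2.1 l2.2.1) := by
  rw [Fib_mem_nx, Fib_mem_nx]

theorem ne_fst (hX : Wf X) {l1 l2 : Le} (h1 : l1 ∈ lts X) (h2 : l2 ∈ lts (nx X l1)) :
    l1.1 ≠ l2.1 ∧ l2.1 ∈ X.1 ∧ (nx (nx X l1) l2).1 = (X.1.erase l1.1).erase l2.1 := by
  have h3 : l2.1 ∈ X.1.erase l1.1 := lts_fst h2
  have h4 := Finset.mem_erase.1 h3
  exact ⟨fun h => h4.1 h.symm, h4.2, rfl⟩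

private theorem Fib_D {l1 l2 : Le} (h2 : l2 ∈ lts (nx X l1)) {B : Finset ℕ}
    (hB : B ∈ l2.2.1) : (B ∈ X.2 ∧ B ∉ l1.2.1) ∨ (l1.2.2 = false ∧ B = blk l1.1 l1.2.1) :=
  Fib_mem_nx.1 (lts_sub h2 hB)

private theorem Fib_pc (hX : Wf X) {l1 l2 : Le} (h1 : l1 ∈ lts X) (h2 : l2 ∈ lts (nx X l1)) {B : Finset ℕ} :
    B ∈ pc l1 l2 ↔ B ∈ X.2 ∧ (B ∈ l1.2.1 ∨ B ∈ l2.2.1) := by
  unfold pc
  rw [Finset.mem_union, Finset.mem_erase]
  constructor
  · rintro (h | ⟨h, h'⟩)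
    · exact ⟨lts_sub h1 h, Or.inl h⟩
    · rcases Fib_D h2 h' with h3 | h3
      · exact ⟨h3.1, Or.inr h'⟩
      · exact absurd h3.2 h
  · rintro ⟨h, h' | h'⟩
    · exact Or.inl h'
    · exact Or.inr ⟨fun h3 => blk_notMem hX (lts_fst h1) l1.2.1 (h3 ▸ h), h'⟩

theorem pc_sub (hX : Wf X) {l1 l2 : Le} (h1 : l1 ∈ lts X) (h2 : l2 ∈ lts (nx X l1)) :
    pc l1 l2 ⊆ X.2 ∧ X.2 \ (nx (nx X l1) l2).2 = pc l1 l2 := by
  have hs := (ne_fst hX h1 h2).2.1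
  refine ⟨fun B hB => ((Fib_pc hX h1 h2).1 hB).1, ?_⟩
  ext B
  rw [Finset.mem_sdiff, Fib_W, Fib_pc hX h1 h2]
  constructor
  · rintro ⟨h3, h4⟩
    refine ⟨h3, ?_⟩
    by_contra h5
    rw [not_or] at h5
    exact h4 (Or.inl ⟨Or.inl ⟨h3, h5.1⟩, h5.2⟩)
  · rintro ⟨h3, h4⟩
    refine ⟨h3, ?_⟩
    rintro (⟨⟨_, h6⟩ | ⟨_, h6⟩, h7⟩ | ⟨_, h6⟩)
    · exact h4.elim h6 h7
    · exact blk_notMem hX (lts_fst h1) l1.2.1 (h6 ▸ h3)
    · exact blk_notMem hX hs l2.2.1 (h6 ▸ h3)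

/-- a pair which is not joint: the second vertex swallows old blocks only -/
private theorem Fib_nD {l1 l2 : Le} (h2 : l2 ∈ lts (nx X l1)) (hj : ¬ jt l1 l2) {B : Finset ℕ} (hB : B ∈ l2.2.1) :
    B ∈ X.2 ∧ B ∉ l1.2.1 := by
  rcases Fib_D h2 hB with h3 | h3
  · exact h3
  · exact absurd (Or.inl (h3.2 ▸ hB)) hj

theorem swap_mem (hX : Wf X) {l1 l2 : Le} (h1 : l1 ∈ lts X) (h2 : l2 ∈ lts (nx X l1)) (hj : ¬ jt l1 l2) :
    3 ≤ X.1.card ∧ l2 ∈ lts X ∧ l1 ∈ lts (nx X l2) ∧ nx (nx X l2) l1 = nx (nx X l1) l2 ∧ ¬ jt l2 l1 := by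
  obtain ⟨hne, hs, _⟩ := ne_fst hX h1 h2
  have ht := lts_fst h1
  have hc1 := card_nx h1
  have hc0 : 0 < (nx X l1).1.card := Finset.card_pos.2 ⟨l2.1, lts_fst h2⟩
  have hb : blk l1.1 l1.2.1 ∉ l2.2.1 := fun h => hj (Or.inl h)
  have hfg : ¬ (l1.2.2 = true ∧ l2.2.2 = true) := fun h => hj (Or.inr h)
  have h3 : 3 ≤ X.1.card := by
    by_contra h3
    have h4 : (nx X l1).1.card < 2 := by omega
    have h5 := ((lts_one h4).1 h2).2
    have h6 : l2.2.1 = (nx X l1).2 := congrArg Prod.fst h5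
    have h7 : l2.2.2 = true := congrArg Prod.snd h5
    cases hf : l1.2.2 with
    | true => exact hfg ⟨hf, h7⟩
    | false =>
      apply hb
      rw [h6]
      exact Fib_mem_nx.2 (Or.inr ⟨hf, rfl⟩)
  have h4 : l2 ∈ lts X := (lts_two (by omega)).2 ⟨hs, fun B hB => (Fib_nD h2 hj hB).1⟩
  have hc2 := card_nx h4
  have hbs : blk l2.1 l2.2.1 ∉ l1.2.1 := fun h => blk_notMem hX hs l2.2.1 (lts_sub h1 h)
  refine ⟨h3, h4, (lts_two (by omega)).2 ⟨Finset.mem_erase.2 ⟨hne, ht⟩, ?_⟩, ?_, ?_⟩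
  · intro B hB
    exact Fib_mem_nx.2 (Or.inl ⟨lts_sub h1 hB, fun h => (Fib_nD h2 hj h).2 hB⟩)
  · refine Prod.ext ?_ ?_
    · exact Finset.erase_right_comm
    · ext B
      rw [Fib_W, Fib_W]
      constructor
      · rintro (⟨⟨h5, h6⟩ | ⟨h5, h6⟩, h7⟩ | ⟨h5, h6⟩)
        · exact Or.inl ⟨Or.inl ⟨h5, h7⟩, h6⟩
        · exact Or.inr ⟨h5, h6⟩
        · exact Or.inl ⟨Or.inr ⟨h5, h6⟩, h6 ▸ hb⟩
      · rintro (⟨⟨h5, h6⟩ | ⟨h5, h6⟩, h7⟩ | ⟨h5, h6⟩)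
        · exact Or.inl ⟨Or.inl ⟨h5, h7⟩, h6⟩
        · exact Or.inr ⟨h5, h6⟩
        · exact Or.inl ⟨Or.inr ⟨h5, h6⟩, h6 ▸ hbs⟩
  · rintro (h | h)
    · exact hbs h
    · exact hfg ⟨h.2, h.1⟩

/-- the union of the pieces and the two vertices -/
private def Fib_big (t s : ℕ) (P : Finset (Finset ℕ)) : Finset ℕ := insert s (insert t (P.biUnion id))

private theorem Fib_big_comm (t s : ℕ) (P : Finset (Finset ℕ)) : Fib_big t s P = Fib_big s t P :=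
  Finset.insert_comm _ _ _

private theorem Fib_blk {l1 l2 : Le} (hb : blk l1.1 l1.2.1 ∈ l2.2.1) :
    blk l2.1 l2.2.1 = Fib_big l1.1 l2.1 (pc l1 l2) := by
  ext x
  unfold Fib_big
  rw [mem_blk, Finset.mem_insert, Finset.mem_insert, Finset.mem_biUnion]
  constructor
  · rintro (h | ⟨B, hB, hx⟩)
    · exact Or.inl h
    · by_cases hBb : B = blk l1.1 l1.2.1
      · rw [hBb, mem_blk] at hx
        rcases hx with hx | ⟨C, hC, hx⟩
        · exact Or.inr (Or.inl hx)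
        · exact Or.inr (Or.inr ⟨C, Finset.mem_union_left _ hC, hx⟩)
      · exact Or.inr (Or.inr ⟨B, Finset.mem_union_right _ (Finset.mem_erase.2 ⟨hBb, hB⟩), hx⟩)
  · rintro (h | h | ⟨B, hB, hx⟩)
    · exact Or.inl h
    · exact Or.inr ⟨_, hb, mem_blk.2 (Or.inl h)⟩
    · rcases Finset.mem_union.1 hB with hB | hB
      · exact Or.inr ⟨_, hb, mem_blk.2 (Or.inr ⟨B, hB, hx⟩)⟩
      · exact Or.inr ⟨B, (Finset.mem_erase.1 hB).2, hx⟩

private theorem Fib_jf {l1 l2 : Le} (hj : jt l1 l2) (hf : l1.2.2 = false) : blk l1.1 l1.2.1 ∈ l2.2.1 := by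
  rcases hj with hj | hj
  · exact hj
  · rw [hf] at hj
    exact absurd hj.1 Bool.false_ne_true

private theorem Fib_jg {l1 l2 : Le} (hj : jt l1 l2) (hg : l2.2.2 = false) : blk l1.1 l1.2.1 ∈ l2.2.1 := by
  rcases hj with hj | hj
  · exact hj
  · rw [hg] at hj
    exact absurd hj.2 Bool.false_ne_true

private theorem Fib_jW (hX : Wf X) {l1 l2 : Le} (h1 : l1 ∈ lts X) (h2 : l2 ∈ lts (nx X l1)) (hj : jt l1 l2)
    {B : Finset ℕ} : B ∈ (nx (nx X l1) l2).2 ↔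
      (B ∈ X.2 ∧ B ∉ pc l1 l2) ∨ (l2.2.2 = false ∧ B = Fib_big l1.1 l2.1 (pc l1 l2)) := by
  rw [Fib_W, Fib_pc hX h1 h2]
  constructor
  · rintro (⟨⟨h3, h4⟩ | ⟨h3, h4⟩, h5⟩ | ⟨h3, h4⟩)
    · exact Or.inl ⟨h3, fun h6 => h6.2.elim h4 h5⟩
    · exact absurd (Fib_jf hj h3) (h4 ▸ h5)
    · exact Or.inr ⟨h3, h4.trans (Fib_blk (Fib_jg hj h3))⟩
  · rintro (⟨h3, h4⟩ | ⟨h3, h4⟩)
    · exact Or.inl ⟨Or.inl ⟨h3, fun h5 => h4 ⟨h3, Or.inl h5⟩⟩, fun h5 => h4 ⟨h3, Or.inr h5⟩⟩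
    · exact Or.inr ⟨h3, h4.trans (Fib_blk (Fib_jg hj h3)).symm⟩

private theorem Fib_mk2 (hX : Wf X) {z z' : ℕ} (hz : z ∈ X.1) {P C : Finset (Finset ℕ)} (hP : P ⊆ X.2)
    (hC : C ⊆ P) {fl g : Bool} (hfl : fl ∈ fls g) :
    jt (mk2 z z' P C fl g).1 (mk2 z z' P C fl g).2 ∧
      pc (mk2 z z' P C fl g).1 (mk2 z z' P C fl g).2 = P := by
  have hb : blk z C ∉ P := fun h => blk_notMem hX hz C (hP h)
  cases fl with
  | true =>
    cases g with
    | true =>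
      refine ⟨Or.inr ⟨rfl, rfl⟩, ?_⟩
      change C ∪ (P \ C).erase (blk z C) = P
      rw [Finset.erase_eq_of_notMem (fun h => hb (Finset.mem_sdiff.1 h).1), Finset.union_sdiff_of_subset hC]
    | false =>
      exfalso
      unfold fls at hfl
      simp at hfl
  | false =>
    refine ⟨Or.inl (Finset.mem_insert_self _ _), ?_⟩
    change C ∪ (insert (blk z C) (P \ C)).erase (blk z C) = P
    rw [Finset.erase_insert (fun h => hb (Finset.mem_sdiff.1 h).1), Finset.union_sdiff_of_subset hC]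

private theorem Fib_zz {l1 l2 : Le} (hX : Wf X) (h1 : l1 ∈ lts X) (h2 : l2 ∈ lts (nx X l1)) {z z' : ℕ}
    (hz : (z = l1.1 ∧ z' = l2.1) ∨ (z = l2.1 ∧ z' = l1.1)) : z ∈ X.1 ∧ z' ∈ X.1 ∧ z' ≠ z := by
  obtain ⟨hne, hs, _⟩ := ne_fst hX h1 h2
  have ht := lts_fst h1
  rcases hz with ⟨e1, e2⟩ | ⟨e1, e2⟩
  · rw [e1, e2]
    exact ⟨ht, hs, fun h => hne h.symm⟩
  · rw [e1, e2]
    exact ⟨hs, ht, hne⟩

/-- the new pair is joint with the same pieces and vertices -/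
theorem jt_mk2 (hX : Wf X) {l1 l2 : Le} (h1 : l1 ∈ lts X) (h2 : l2 ∈ lts (nx X l1)) (hj : jt l1 l2)
    {z z' : ℕ} (hz : (z = l1.1 ∧ z' = l2.1) ∨ (z = l2.1 ∧ z' = l1.1)) {C : Finset (Finset ℕ)} (hC : C ⊆ pc l1 l2)
    {fl : Bool} (hfl : fl ∈ fls l2.2.2) :
    jt (mk2 z z' (pc l1 l2) C fl l2.2.2).1 (mk2 z z' (pc l1 l2) C fl l2.2.2).2 ∧
      pc (mk2 z z' (pc l1 l2) C fl l2.2.2).1 (mk2 z z' (pc l1 l2) C fl l2.2.2).2 = pc l1 l2 :=
  Fib_mk2 hX (Fib_zz hX h1 h2 hz).1 (pc_sub hX h1 h2).1 hC hfl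

theorem jt_mem (hX : Wf X) {l1 l2 : Le} (h1 : l1 ∈ lts X) (h2 : l2 ∈ lts (nx X l1)) (hj : jt l1 l2)
    {z z' : ℕ} (hz : (z = l1.1 ∧ z' = l2.1) ∨ (z = l2.1 ∧ z' = l1.1)) {C : Finset (Finset ℕ)} (hC : C ⊆ pc l1 l2)
    {fl : Bool} (hfl : fl ∈ fls l2.2.2) :
    (mk2 z z' (pc l1 l2) C fl l2.2.2).1 ∈ lts X ∧
      (mk2 z z' (pc l1 l2) C fl l2.2.2).2 ∈ lts (nx X (mk2 z z' (pc l1 l2) C fl l2.2.2).1) ∧
      nx (nx X (mk2 z z' (pc l1 l2) C fl l2.2.2).1) (mk2 z z' (pc l1 l2) C fl l2.2.2).2 = nx (nx X l1) l2 := by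
  obtain ⟨hne, hs, _⟩ := ne_fst hX h1 h2
  have ht := lts_fst h1
  have hc1 := card_nx h1
  have hc0 : 0 < (nx X l1).1.card := Finset.card_pos.2 ⟨l2.1, lts_fst h2⟩
  obtain ⟨hz1, hz2, hz3⟩ := Fib_zz hX h1 h2 hz
  have hpc := pc_sub hX h1 h2
  obtain ⟨hj', hp'⟩ := jt_mk2 hX h1 h2 hj hz hC hfl
  have m1 : (mk2 z z' (pc l1 l2) C fl l2.2.2).1 ∈ lts X :=
    (lts_two (by omega)).2 ⟨hz1, fun B hB => hpc.1 (hC hB)⟩
  have hc3 := card_nx m1
  have hb : blk z C ∉ X.2 := blk_notMem hX hz1 C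
  have m2 : (mk2 z z' (pc l1 l2) C fl l2.2.2).2 ∈ lts (nx X (mk2 z z' (pc l1 l2) C fl l2.2.2).1) := by
    by_cases hc : 2 ≤ (nx X l1).1.card
    · refine (lts_two (by omega)).2 ⟨Finset.mem_erase.2 ⟨hz3, hz2⟩, ?_⟩
      intro B hB
      refine Fib_mem_nx.2 ?_
      cases fl with
      | true =>
        have hB' : B ∈ pc l1 l2 \ C := hB
        exact Or.inl ⟨hpc.1 (Finset.mem_sdiff.1 hB').1, (Finset.mem_sdiff.1 hB').2⟩
      | false =>
        have hB' : B ∈ insert (blk z C) (pc l1 l2 \ C) := hB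
        rcases Finset.mem_insert.1 hB' with h | h
        · exact Or.inr ⟨rfl, h⟩
        · exact Or.inl ⟨hpc.1 (Finset.mem_sdiff.1 h).1, (Finset.mem_sdiff.1 h).2⟩
    · have h4 : (nx X l1).1.card < 2 := by omega
      have h5 := ((lts_one h4).1 h2).2
      have h6 : l2.2.1 = (nx X l1).2 := congrArg Prod.fst h5
      have h7 : l2.2.2 = true := congrArg Prod.snd h5
      have h8 : pc l1 l2 = X.2 := by
        refine Finset.Subset.antisymm hpc.1 fun B hB => ?_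
        refine (Fib_pc hX h1 h2).2 ⟨hB, ?_⟩
        by_cases hB1 : B ∈ l1.2.1
        · exact Or.inl hB1
        · right
          rw [h6]
          exact Fib_mem_nx.2 (Or.inl ⟨hB, hB1⟩)
      refine (lts_one (by omega)).2 ⟨Finset.mem_erase.2 ⟨hz3, hz2⟩, ?_⟩
      rw [h8, h7]
      cases fl with
      | true => rfl
      | false => rfl
  refine ⟨m1, m2, Prod.ext ?_ ?_⟩
  · change (X.1.erase z).erase z' = (X.1.erase l1.1).erase l2.1
    rcases hz with ⟨e1, e2⟩ | ⟨e1, e2⟩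
    · rw [e1, e2]
    · rw [e1, e2]
      exact Finset.erase_right_comm
  · ext B
    rw [Fib_jW hX m1 m2 hj', Fib_jW hX h1 h2 hj, hp']
    have h9 : Fib_big (mk2 z z' (pc l1 l2) C fl l2.2.2).1.1 (mk2 z z' (pc l1 l2) C fl l2.2.2).2.1 (pc l1 l2) =
        Fib_big l1.1 l2.1 (pc l1 l2) := by
      change Fib_big z z' (pc l1 l2) = Fib_big l1.1 l2.1 (pc l1 l2)
      rcases hz with ⟨e1, e2⟩ | ⟨e1, e2⟩
      · rw [e1, e2]
      · rw [e1, e2]
        exact Fib_big_comm _ _ _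
    rw [h9]
    exact Iff.rfl

/-- a joint pair is one of the new pairs -/
private theorem Fib_rep (hX : Wf X) {l1 l2 : Le} (h1 : l1 ∈ lts X) (h2 : l2 ∈ lts (nx X l1)) (hj : jt l1 l2) :
    l1.2.1 ⊆ pc l1 l2 ∧ l1.2.2 ∈ fls l2.2.2 ∧
      (l1, l2) = mk2 l1.1 l2.1 (pc l1 l2) l1.2.1 l1.2.2 l2.2.2 := by
  have hb := blk_notMem hX (lts_fst h1) l1.2.1
  have hsub : l1.2.1 ⊆ pc l1 l2 := Finset.subset_union_left
  have hfl : l1.2.2 ∈ fls l2.2.2 := by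
    cases hg : l2.2.2 with
    | true =>
      unfold fls
      cases l1.2.2 with
      | true => simp
      | false => simp
    | false =>
      unfold fls
      cases hf : l1.2.2 with
      | false => simp
      | true =>
        exfalso
        rcases Fib_D h2 (Fib_jg hj hg) with h3 | h3
        · exact hb h3.1
        · rw [hf] at h3
          exact absurd h3.1 (by decide)
  have hD : l2.2.1 = if l1.2.2 then pc l1 l2 \ l1.2.1 else insert (blk l1.1 l1.2.1) (pc l1 l2 \ l1.2.1) := by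
    cases hf : l1.2.2 with
    | true =>
      rw [if_pos rfl]
      ext B
      rw [Finset.mem_sdiff, Fib_pc hX h1 h2]
      constructor
      · intro hB
        rcases Fib_D h2 hB with h3 | h3
        · exact ⟨⟨h3.1, Or.inr hB⟩, h3.2⟩
        · rw [hf] at h3
          exact absurd h3.1 (by decide)
      · rintro ⟨⟨_, h3⟩, h4⟩
        exact h3.resolve_left h4
    | false =>
      rw [if_neg (by decide)]
      ext B
      rw [Finset.mem_insert, Finset.mem_sdiff, Fib_pc hX h1 h2]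
      constructor
      · intro hB
        rcases Fib_D h2 hB with h3 | h3
        · exact Or.inr ⟨⟨h3.1, Or.inr hB⟩, h3.2⟩
        · exact Or.inl h3.2
      · rintro (h3 | ⟨⟨_, h3⟩, h4⟩)
        · rw [h3]
          exact Fib_jf hj hf
        · exact h3.resolve_left h4
  refine ⟨hsub, hfl, Prod.ext rfl (Prod.ext rfl (Prod.ext ?_ rfl))⟩
  exact hD

private theorem Fib_vert (hX : Wf X) {l1 l2 : Le} {l1' l2' : Le}
    (h1' : l1' ∈ lts X) (h2' : l2' ∈ lts (nx X l1')) (he : nx (nx X l1') l2' = nx (nx X l1) l2) :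
    (l1'.1 = l1.1 ∧ l2'.1 = l2.1) ∨ (l1'.1 = l2.1 ∧ l2'.1 = l1.1) := by
  have e1 : (X.1.erase l1'.1).erase l2'.1 = (X.1.erase l1.1).erase l2.1 := congrArg Prod.fst he
  have key : ∀ x ∈ X.1, x ∉ (X.1.erase l1'.1).erase l2'.1 → x = l1.1 ∨ x = l2.1 := by
    intro x hx h
    rw [e1] at h
    by_contra h5
    rw [not_or] at h5
    exact h (Finset.mem_erase.2 ⟨h5.2, Finset.mem_erase.2 ⟨h5.1, hx⟩⟩)
  have k1 := key l1'.1 (lts_fst h1') (fun h => (Finset.mem_erase.1 (Finset.mem_erase.1 h).2).1 rfl)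
  have k2 := key l2'.1 (ne_fst hX h1' h2').2.1 (fun h => (Finset.mem_erase.1 h).1 rfl)
  have n := (ne_fst hX h1' h2').1
  rcases k1 with k1 | k1
  · rcases k2 with k2 | k2
    · exact absurd (k1.trans k2.symm) n
    · exact Or.inl ⟨k1, k2⟩
  · rcases k2 with k2 | k2
    · exact Or.inr ⟨k1, k2⟩
    · exact absurd (k1.trans k2.symm) n

private theorem Fib_m1 {l1 l2 : Le} (hj : ¬ jt l1 l2) (hf : l1.2.2 = false) :
    blk l1.1 l1.2.1 ∈ (nx (nx X l1) l2).2 :=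
  Fib_W.2 (Or.inl ⟨Or.inr ⟨hf, rfl⟩, fun h => hj (Or.inl h)⟩)

private theorem Fib_m2 {l1 l2 : Le} (hg : l2.2.2 = false) : blk l2.1 l2.2.1 ∈ (nx (nx X l1) l2).2 :=
  Fib_W.2 (Or.inr ⟨hg, rfl⟩)

private theorem Fib_s1 (hX : Wf X) {l1 l2 : Le} (h1 : l1 ∈ lts X) (h2 : l2 ∈ lts (nx X l1)) :
    l2.1 ∉ blk l1.1 l1.2.1 := by
  obtain ⟨hne, hs, _⟩ := ne_fst hX h1 h2
  intro h
  rcases mem_blk.1 h with h3 | ⟨B, hB, h3⟩
  · exact hne h3.symm
  · exact Finset.disjoint_left.1 (hX.dR B (lts_sub h1 hB)) h3 hs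

private theorem Fib_t2 (hX : Wf X) {l1 l2 : Le} (h1 : l1 ∈ lts X) (h2 : l2 ∈ lts (nx X l1)) (hj : ¬ jt l1 l2) :
    l1.1 ∉ blk l2.1 l2.2.1 := by
  obtain ⟨hne, hs, _⟩ := ne_fst hX h1 h2
  intro h
  rcases mem_blk.1 h with h3 | ⟨B, hB, h3⟩
  · exact hne h3
  · exact Finset.disjoint_left.1 (hX.dR B (Fib_nD h2 hj hB).1) h3 (lts_fst h1)

private theorem Fib_u1 (hX : Wf X) {l1 l2 : Le} (h1 : l1 ∈ lts X) (h2 : l2 ∈ lts (nx X l1)) (hj : ¬ jt l1 l2)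
    {B : Finset ℕ} (hB : B ∈ (nx (nx X l1) l2).2) (ht : l1.1 ∈ B) : l1.2.2 = false ∧ B = blk l1.1 l1.2.1 := by
  rcases Fib_W.1 hB with ⟨⟨h3, _⟩ | h3, _⟩ | ⟨_, h3⟩
  · exact absurd (lts_fst h1) (Finset.disjoint_left.1 (hX.dR B h3) ht)
  · exact h3
  · exact absurd (h3 ▸ ht) (Fib_t2 hX h1 h2 hj)

private theorem Fib_u2 (hX : Wf X) {l1 l2 : Le} (h1 : l1 ∈ lts X) (h2 : l2 ∈ lts (nx X l1))
    {B : Finset ℕ} (hB : B ∈ (nx (nx X l1) l2).2) (hs : l2.1 ∈ B) : l2.2.2 = false ∧ B = blk l2.1 l2.2.1 := by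
  rcases Fib_W.1 hB with ⟨⟨h3, _⟩ | ⟨_, h3⟩, _⟩ | h3
  · exact absurd (ne_fst hX h1 h2).2.1 (Finset.disjoint_left.1 (hX.dR B h3) hs)
  · exact absurd (h3 ▸ hs) (Fib_s1 hX h1 h2)
  · exact h3

/-- the condition that the two vertices are in the same place -/
private def Fib_J (W : St) (t s : ℕ) : Prop := (∀ B ∈ W.2, t ∉ B ∧ s ∉ B) ∨ ∃ B ∈ W.2, t ∈ B ∧ s ∈ B

private theorem Fib_J_comm {W : St} {t s : ℕ} (h : Fib_J W t s) : Fib_J W s t := by
  rcases h with h | ⟨B, h3, h4, h5⟩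
  · exact Or.inl fun B hB => ⟨(h B hB).2, (h B hB).1⟩
  · exact Or.inr ⟨B, h3, h5, h4⟩

private theorem Fib_jt (hX : Wf X) {l1 l2 : Le} (h1 : l1 ∈ lts X) (h2 : l2 ∈ lts (nx X l1)) :
    jt l1 l2 ↔ Fib_J (nx (nx X l1) l2) l1.1 l2.1 := by
  have ht := lts_fst h1
  obtain ⟨hne, hs, _⟩ := ne_fst hX h1 h2
  have hnt : ∀ B ∈ X.2, l1.1 ∉ B := fun B hB h => Finset.disjoint_left.1 (hX.dR B hB) h ht
  have hns : ∀ B ∈ X.2, l2.1 ∉ B := fun B hB h => Finset.disjoint_left.1 (hX.dR B hB) h hs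
  constructor
  · intro hj
    cases hg : l2.2.2 with
    | true =>
      left
      intro B hB
      rw [Fib_jW hX h1 h2 hj, hg] at hB
      rcases hB with hB | hB
      · exact ⟨hnt B hB.1, hns B hB.1⟩
      · exact absurd hB.1 (by decide)
    | false =>
      right
      refine ⟨Fib_big l1.1 l2.1 (pc l1 l2), (Fib_jW hX h1 h2 hj).2 (Or.inr ⟨hg, rfl⟩), ?_, ?_⟩
      · exact Finset.mem_insert_of_mem (Finset.mem_insert_self _ _)
      · exact Finset.mem_insert_self _ _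
  · intro hJ
    by_contra hj
    rcases hJ with hJ | ⟨B, hB, hB1, hB2⟩
    · cases hf : l1.2.2 with
      | false => exact (hJ _ (Fib_m1 hj hf)).1 (mem_blk.2 (Or.inl rfl))
      | true =>
        cases hg : l2.2.2 with
        | false => exact (hJ _ (Fib_m2 hg)).2 (mem_blk.2 (Or.inl rfl))
        | true => exact hj (Or.inr ⟨hf, hg⟩)
    · have h3 := (Fib_u1 hX h1 h2 hj hB hB1).2
      rw [h3] at hB2
      exact Fib_s1 hX h1 h2 hB2

private theorem Fib_blk_mem (hX : Wf X) {t : ℕ} (ht : t ∈ X.1) {C : Finset (Finset ℕ)} (hC : C ⊆ X.2) {B : Finset ℕ}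
    (hB : B ∈ X.2) : B ⊆ blk t C ↔ B ∈ C := by
  constructor
  · intro h
    obtain ⟨x, hx⟩ := hX.ne B hB
    rcases mem_blk.1 (h hx) with h3 | ⟨D, hD, h3⟩
    · rw [h3] at hx
      exact absurd ht (Finset.disjoint_left.1 (hX.dR B hB) hx)
    · by_cases hBD : B = D
      · rw [hBD]
        exact hD
      · exact absurd h3 (Finset.disjoint_left.1 (hX.dj B hB D (hC hD) hBD) hx)
  · intro h x hx
    exact mem_blk.2 (Or.inr ⟨B, h, hx⟩)

private theorem Fib_blk_inj (hX : Wf X) {t : ℕ} (ht : t ∈ X.1) {C D : Finset (Finset ℕ)} (hC : C ⊆ X.2) (hD : D ⊆ X.2)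
    (h : blk t C = blk t D) : C = D := by
  ext B
  constructor
  · intro hB
    exact (Fib_blk_mem hX ht hD (hC hB)).1 (h ▸ (Fib_blk_mem hX ht hC (hC hB)).2 hB)
  · intro hB
    exact (Fib_blk_mem hX ht hC (hD hB)).1 (h ▸ (Fib_blk_mem hX ht hD (hD hB)).2 hB)

private theorem Fib_uniq (hX : Wf X) {l1 l2 : Le} (h1 : l1 ∈ lts X) (h2 : l2 ∈ lts (nx X l1)) (hj : ¬ jt l1 l2)
    {l1' l2' : Le} (h1' : l1' ∈ lts X) (h2' : l2' ∈ lts (nx X l1')) (hj' : ¬ jt l1' l2')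
    (he : nx (nx X l1') l2' = nx (nx X l1) l2) (ht : l1'.1 = l1.1) (hs : l2'.1 = l2.1) : (l1', l2') = (l1, l2) := by
  have a1 : ∀ l : Le, l.1 ∈ blk l.1 l.2.1 := fun l => mem_blk.2 (Or.inl rfl)
  have hpc : pc l1' l2' = pc l1 l2 := by
    rw [← (pc_sub hX h1 h2).2, ← (pc_sub hX h1' h2').2, he]
  have k1 : l1.2.2 = false → l1'.2.2 = false ∧ blk l1.1 l1.2.1 = blk l1'.1 l1'.2.1 := by
    intro hf
    refine Fib_u1 hX h1' h2' hj' ?_ ?_
    · rw [he]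
      exact Fib_m1 hj hf
    · rw [ht]
      exact a1 l1
  have k1' : l1'.2.2 = false → l1.2.2 = false := by
    intro hf
    refine (Fib_u1 hX h1 h2 hj (B := blk l1'.1 l1'.2.1) ?_ ?_).1
    · rw [← he]
      exact Fib_m1 hj' hf
    · rw [← ht]
      exact a1 l1'
  have k2 : l2.2.2 = false → l2'.2.2 = false ∧ blk l2.1 l2.2.1 = blk l2'.1 l2'.2.1 := by
    intro hg
    refine Fib_u2 hX h1' h2' ?_ ?_
    · rw [he]
      exact Fib_m2 hg
    · rw [hs]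
      exact a1 l2
  have hf : l1'.2.2 = l1.2.2 := by
    cases hf : l1.2.2 with
    | false => exact (k1 hf).1
    | true =>
      cases hf' : l1'.2.2 with
      | true => rfl
      | false =>
        rw [k1' hf'] at hf
        exact absurd hf (by decide)
  have hC : l1'.2.1 = l1.2.1 := by
    cases hf1 : l1.2.2 with
    | false =>
      have h3 := (k1 hf1).2
      rw [ht] at h3
      exact (Fib_blk_inj hX (lts_fst h1) (lts_sub h1) (lts_sub h1') h3).symm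
    | true =>
      have hg : l2.2.2 = false := by
        cases hg : l2.2.2 with
        | false => rfl
        | true => exact absurd (Or.inr ⟨hf1, hg⟩) hj
      have h3 := (k2 hg).2
      rw [hs] at h3
      have h4 : l2.2.1 = l2'.2.1 := Fib_blk_inj hX (ne_fst hX h1 h2).2.1 (fun B hB => (Fib_nD h2 hj hB).1)
        (fun B hB => (Fib_nD h2' hj' hB).1) h3
      have h5 : ∀ {m1 m2 : Le}, m1 ∈ lts X → m2 ∈ lts (nx X m1) → ¬ jt m1 m2 → m1.2.1 = pc m1 m2 \ m2.2.1 := by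
        intro m1 m2 g1 g2 gj
        ext B
        rw [Finset.mem_sdiff, Fib_pc hX g1 g2]
        constructor
        · intro hB
          exact ⟨⟨lts_sub g1 hB, Or.inl hB⟩, fun h => (Fib_nD g2 gj h).2 hB⟩
        · rintro ⟨⟨_, h6⟩, h7⟩
          exact h6.resolve_right h7
      rw [h5 h1' h2' hj', h5 h1 h2 hj, hpc, h4]
  have e1 : l1' = l1 := Prod.ext ht (Prod.ext hC hf)
  rw [e1] at h2' he ⊢
  rw [nx_inj (Wf_nx hX h1) h2' h2 he]

theorem fib_all (hX : Wf X) {l1 l2 : Le} (h1 : l1 ∈ lts X) (h2 : l2 ∈ lts (nx X l1)) {l1' l2' : Le}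
    (h1' : l1' ∈ lts X) (h2' : l2' ∈ lts (nx X l1')) (he : nx (nx X l1') l2' = nx (nx X l1) l2) :
    (jt l1 l2 → ∃ z z', ((z = l1.1 ∧ z' = l2.1) ∨ (z = l2.1 ∧ z' = l1.1)) ∧
      ∃ C ⊆ pc l1 l2, ∃ fl ∈ fls l2.2.2, (l1', l2') = mk2 z z' (pc l1 l2) C fl l2.2.2) ∧
    (¬ jt l1 l2 → (l1', l2') = (l1, l2) ∨ (l1', l2') = (l2, l1)) := by
  have hv := Fib_vert hX h1' h2' he
  have hpc : pc l1' l2' = pc l1 l2 := by
    rw [← (pc_sub hX h1 h2).2, ← (pc_sub hX h1' h2').2, he]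
  have hjj : jt l1' l2' ↔ jt l1 l2 := by
    rw [Fib_jt hX h1' h2', Fib_jt hX h1 h2, he]
    rcases hv with ⟨e1, e2⟩ | ⟨e1, e2⟩
    · rw [e1, e2]
    · rw [e1, e2]
      exact ⟨Fib_J_comm, Fib_J_comm⟩
  constructor
  · intro hj
    have hj' := hjj.2 hj
    have hsub : ∀ {m1 m2 : Le}, m1 ∈ lts X → m2 ∈ lts (nx X m1) → jt m1 m2 →
        (m2.2.2 = true ↔ (nx (nx X m1) m2).2 ⊆ X.2) := by
      intro m1 m2 g1 g2 gj
      constructor
      · intro hg B hB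
        rw [Fib_jW hX g1 g2 gj, hg] at hB
        rcases hB with hB | hB
        · exact hB.1
        · exact absurd hB.1 (by decide)
      · intro hW
        cases hg : m2.2.2 with
        | true => rfl
        | false => exact absurd (hW (Fib_m2 hg)) (blk_notMem hX (ne_fst hX g1 g2).2.1 _)
    have hg : l2'.2.2 = l2.2.2 := by
      have h3 := hsub h1 h2 hj
      have h4 := hsub h1' h2' hj'
      rw [he] at h4
      exact Bool.eq_iff_iff.2 (h4.trans h3.symm)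
    obtain ⟨r1, r2, r3⟩ := Fib_rep hX h1' h2' hj'
    rw [hpc] at r1 r3
    rw [hg] at r2 r3
    exact ⟨l1'.1, l2'.1, hv, l1'.2.1, r1, l1'.2.2, r2, r3⟩
  · intro hj
    have hj' : ¬ jt l1' l2' := fun h => hj (hjj.1 h)
    rcases hv with ⟨e1, e2⟩ | ⟨e1, e2⟩
    · exact Or.inl (Fib_uniq hX h1 h2 hj h1' h2' hj' he e1 e2)
    · obtain ⟨_, s1, s2, s3, s4⟩ := swap_mem hX h1 h2 hj
      exact Or.inr (Fib_uniq hX s1 s2 s4 h1' h2' hj' (he.trans s3.symm) e1 e2)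

end BSI
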