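import Pool.Agent.BSI.KapW

/-!
# BSI machine layer, KapK: the conditions on the rates

Write `m = 2 ^ c`, `n = V.length`, `N z B = q ^ M * (1 - yb Y z B) = wE p q E z B.toList`. The product of the multipliers `k B` and `q ^ M` times the weight `w2` of a new pair is
`∏ B ∈ C, k B * N z B`, times `∏ B ∈ P \\ C, k B * N z' B`, times the joint factor (`a` or `1 - yb Y z' (blk z C)`); the sum over `C` of the first two factors is
`∏ B ∈ P, k B * (N z B + N z' B)` (`Finset.prod_add`), which lies between `m ^ |P| / 2` and `m ^ |P|`. For the lower bound the joint factor is at least `1 - p / q` for all `C`, or for all `C` which contain a certain block `B0`.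
-/

set_option autoImplicit false

namespace BSI.M

open Finset

private theorem KapK_card (b c n : ℕ) :
    (Fintype.card (UU b c n) : ℝ) = 2 ^ b * (4 * (((2 : ℝ) ^ c) ^ n * 2 ^ c)) := by
  simp only [UU, Fintype.card_prod, Fintype.card_fin, Fintype.card_fun]
  push_cast
  ring

private theorem KapK_kB (p q : ℕ) (E : List (ℕ × ℕ)) (m t s : ℕ) (B : Finset ℕ) :
    kB p q E m t s B = kB p q E m s t B := by
  unfold kB kJ
  rw [add_comm]

/-- lower bound of the product -/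
private theorem KapK_low (m : ℝ) (hm : 0 < m) (n : ℕ) (P : Finset (Finset ℕ)) (hP : P.card ≤ n)
    (h : Finset ℕ → ℝ) (hh : ∀ B ∈ P, m * (1 - 1 / (2 * ((n : ℝ) + 1))) ≤ h B) :
    m ^ P.card / 2 ≤ ∏ B ∈ P, h B := by
  have hn : (0 : ℝ) < 2 * ((n : ℝ) + 1) := by positivity
  have hd : 1 / (2 * ((n : ℝ) + 1)) ≤ 1 / 2 := by
    apply one_div_le_one_div_of_le (by norm_num)
    have : (0 : ℝ) ≤ n := Nat.cast_nonneg n
    linarith
  have h1 : (1 : ℝ) + (P.card : ℝ) * (-(1 / (2 * ((n : ℝ) + 1)))) ≤ (1 + -(1 / (2 * ((n : ℝ) + 1)))) ^ P.card :=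
    one_add_mul_le_pow (by linarith) _
  have h2 : (P.card : ℝ) * (1 / (2 * ((n : ℝ) + 1))) ≤ 1 / 2 := by
    have h3 : (P.card : ℝ) ≤ (n : ℝ) + 1 := by
      have : (P.card : ℝ) ≤ (n : ℝ) := by exact_mod_cast hP
      linarith
    rw [mul_one_div, div_le_iff₀ hn]
    linarith
  have h4 : (1 : ℝ) / 2 ≤ (1 - 1 / (2 * ((n : ℝ) + 1))) ^ P.card := by
    have e : (1 : ℝ) - 1 / (2 * ((n : ℝ) + 1)) = 1 + -(1 / (2 * ((n : ℝ) + 1))) := by ring
    rw [e]
    refine le_trans ?_ h1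
    linarith
  calc m ^ P.card / 2 = m ^ P.card * (1 / 2) := by ring
    _ ≤ m ^ P.card * (1 - 1 / (2 * ((n : ℝ) + 1))) ^ P.card :=
        mul_le_mul_of_nonneg_left h4 (by positivity)
    _ = ∏ _B ∈ P, (m * (1 - 1 / (2 * ((n : ℝ) + 1)))) := by
        rw [Finset.prod_const, mul_pow]
    _ ≤ ∏ B ∈ P, h B := by
        refine Finset.prod_le_prod (fun B _ => ?_) hh
        exact mul_nonneg hm.le (by linarith)

private theorem KapK_up (m : ℝ) (P : Finset (Finset ℕ)) (h : Finset ℕ → ℝ)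
    (h0 : ∀ B ∈ P, 0 ≤ h B) (hh : ∀ B ∈ P, h B ≤ m) : ∏ B ∈ P, h B ≤ m ^ P.card := by
  rw [← Finset.prod_const]
  exact Finset.prod_le_prod h0 hh

/-- one term -/
private theorem KapK_term (Y : ℕ → ℕ → ℝ) (a qM : ℝ) (k N N' : Finset ℕ → ℝ) (z z' : ℕ)
    (P C : Finset (Finset ℕ)) (hC : C ⊆ P) (hz : ∀ B ∈ P, z ∉ B)
    (hN : ∀ B ∈ P, N B = qM * (1 - yb Y z B)) (hN' : ∀ B ∈ P, N' B = qM * (1 - yb Y z' B)) (fl : Bool) :
    (∏ B ∈ P, (k B * qM)) * w2 Y a z z' P C fl =
      ((∏ B ∈ C, (k B * N B)) * ∏ B ∈ P \ C, (k B * N' B)) * (if fl then a else 1 - yb Y z' (blk z C)) := by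
  have hA : (∏ B ∈ P, (k B * qM)) = (∏ B ∈ P \ C, (k B * qM)) * ∏ B ∈ C, (k B * qM) :=
    (Finset.prod_sdiff hC).symm
  have h1 : (∏ B ∈ C, (k B * N B)) = (∏ B ∈ C, (k B * qM)) * cc Y z C := by
    unfold cc
    rw [← Finset.prod_mul_distrib]
    refine Finset.prod_congr rfl fun B hB => ?_
    rw [hN B (hC hB)]
    ring
  have h2 : (∏ B ∈ P \ C, (k B * N' B)) = (∏ B ∈ P \ C, (k B * qM)) * cc Y z' (P \ C) := by
    unfold cc
    rw [← Finset.prod_mul_distrib]
    refine Finset.prod_congr rfl fun B hB => ?_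
    rw [hN' B (Finset.sdiff_subset hB)]
    ring
  have hb : blk z C ∉ P \ C := by
    intro hmem
    exact hz _ (Finset.sdiff_subset hmem) (Finset.mem_insert_self _ _)
  have h3 : cc Y z' (insert (blk z C) (P \ C)) = (1 - yb Y z' (blk z C)) * cc Y z' (P \ C) := by
    unfold cc
    rw [Finset.prod_insert hb]
  unfold w2
  rw [hA, h1, h2]
  cases fl
  · simp only [Bool.false_eq_true, if_false]
    rw [h3]
    ring
  · simp only [if_true]
    ring

private theorem KapK_abs {Y : ℕ → ℕ → ℝ} {η : ℝ} (hY : Lab Y η) (u v : ℕ) : |Y u v| ≤ 1 := by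
  rcases hY.gap u v with h | h
  · rw [h]; simp
  · have := hY.pos
    linarith

private theorem KapK_ybabs {Y : ℕ → ℕ → ℝ} {η : ℝ} (hY : Lab Y η) (t : ℕ) (B : Finset ℕ) : |yb Y t B| ≤ 1 := by
  unfold yb
  rw [Finset.abs_prod]
  exact Finset.prod_le_one (fun _ _ => abs_nonneg _) (fun b _ => KapK_abs hY t b)

private theorem KapK_gap {Y : ℕ → ℕ → ℝ} {η : ℝ} (hY : Lab Y η) {t b0 : ℕ} {B : Finset ℕ} (hb : b0 ∈ B)
    (hne : Y t b0 ≠ 1) : η ≤ 1 - yb Y t B := by
  have h1 : |yb Y t B| ≤ 1 - η := by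
    have h2 : |Y t b0| ≤ 1 - η := by
      rcases hY.gap t b0 with h | h
      · exact absurd h hne
      · exact h
    have h3 : |yb Y t B| = |Y t b0| * |yb Y t (B.erase b0)| := by
      rw [← abs_mul]
      congr 1
      unfold yb
      exact (Finset.mul_prod_erase B (fun b => Y t b) hb).symm
    rw [h3]
    calc |Y t b0| * |yb Y t (B.erase b0)| ≤ |Y t b0| * 1 :=
          mul_le_mul_of_nonneg_left (KapK_ybabs hY t _) (abs_nonneg _)
      _ ≤ 1 - η := by rw [mul_one]; exact h2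
  have h4 := le_of_abs_le h1
  linarith

/-- the lower bound of the sum, for a set of blocks `C` which contain `B0` -/
private theorem KapK_sumB (P : Finset (Finset ℕ)) (f g : Finset ℕ → ℝ) (J : Finset (Finset ℕ) → ℝ) (η : ℝ)
    (B0 : Finset ℕ) (hB0 : B0 ∈ P) (hf : ∀ B ∈ P, 0 ≤ f B) (hg : ∀ B ∈ P, 0 ≤ g B)
    (hJ : ∀ C ∈ P.powerset, 0 ≤ J C) (hJ' : ∀ C ∈ P.powerset, B0 ∈ C → η ≤ J C) :
    η * (f B0 * ∏ B ∈ P.erase B0, (f B + g B)) ≤
      ∑ C ∈ P.powerset, ((∏ B ∈ C, f B) * ∏ B ∈ P \ C, g B) * J C := by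
  classical
  have h1 : ∏ B ∈ P, (f B + (if B = B0 then 0 else g B)) = f B0 * ∏ B ∈ P.erase B0, (f B + g B) := by
    rw [← Finset.mul_prod_erase P _ hB0]
    rw [if_pos rfl, add_zero]
    congr 1
    refine Finset.prod_congr rfl fun B hB => ?_
    rw [if_neg (Finset.ne_of_mem_erase hB)]
  rw [← h1, Finset.prod_add, Finset.mul_sum]
  refine Finset.sum_le_sum fun C hC => ?_
  have hCP := Finset.mem_powerset.1 hC
  have hfC : 0 ≤ ∏ B ∈ C, f B := Finset.prod_nonneg fun B hB => hf B (hCP hB)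
  have hgC : 0 ≤ ∏ B ∈ P \ C, g B := Finset.prod_nonneg fun B hB => hg B (Finset.sdiff_subset hB)
  by_cases hB : B0 ∈ C
  · have h2 : ∏ B ∈ P \ C, (if B = B0 then 0 else g B) = ∏ B ∈ P \ C, g B := by
      refine Finset.prod_congr rfl fun B hB' => ?_
      rw [if_neg]
      rintro rfl
      exact (Finset.mem_sdiff.1 hB').2 hB
    rw [h2, mul_comm η]
    exact mul_le_mul_of_nonneg_left (hJ' C hC hB) (mul_nonneg hfC hgC)
  · have h2 : ∏ B ∈ P \ C, (if B = B0 then (0 : ℝ) else g B) = 0 := by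
      refine Finset.prod_eq_zero (Finset.mem_sdiff.2 ⟨hB0, hB⟩) ?_
      rw [if_pos rfl]
    rw [h2, mul_zero, mul_zero]
    exact mul_nonneg (mul_nonneg hfC hgC) (hJ C hC)

/-- the sum with a joint factor bounded from below -/
private theorem KapK_sumA (P : Finset (Finset ℕ)) (f g : Finset ℕ → ℝ) (J : Finset (Finset ℕ) → ℝ) (η : ℝ)
    (hf : ∀ B ∈ P, 0 ≤ f B) (hg : ∀ B ∈ P, 0 ≤ g B) (hJ' : ∀ C ∈ P.powerset, η ≤ J C) :
    η * ∏ B ∈ P, (f B + g B) ≤ ∑ C ∈ P.powerset, ((∏ B ∈ C, f B) * ∏ B ∈ P \ C, g B) * J C := by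
  rw [Finset.prod_add, Finset.mul_sum]
  refine Finset.sum_le_sum fun C hC => ?_
  have hCP := Finset.mem_powerset.1 hC
  have hfC : 0 ≤ ∏ B ∈ C, f B := Finset.prod_nonneg fun B hB => hf B (hCP hB)
  have hgC : 0 ≤ ∏ B ∈ P \ C, g B := Finset.prod_nonneg fun B hB => hg B (Finset.sdiff_subset hB)
  rw [mul_comm η]
  exact mul_le_mul_of_nonneg_left (hJ' C hC) (mul_nonneg hfC hgC)

/-- the sum with a joint factor bounded from above -/
private theorem KapK_sumU (P : Finset (Finset ℕ)) (f g : Finset ℕ → ℝ) (J : Finset (Finset ℕ) → ℝ) (η : ℝ)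
    (hf : ∀ B ∈ P, 0 ≤ f B) (hg : ∀ B ∈ P, 0 ≤ g B) (hJ' : ∀ C ∈ P.powerset, J C ≤ η) :
    ∑ C ∈ P.powerset, ((∏ B ∈ C, f B) * ∏ B ∈ P \ C, g B) * J C ≤ η * ∏ B ∈ P, (f B + g B) := by
  rw [Finset.prod_add, Finset.mul_sum]
  refine Finset.sum_le_sum fun C hC => ?_
  have hCP := Finset.mem_powerset.1 hC
  have hfC : 0 ≤ ∏ B ∈ C, f B := Finset.prod_nonneg fun B hB => hf B (hCP hB)
  have hgC : 0 ≤ ∏ B ∈ P \ C, g B := Finset.prod_nonneg fun B hB => hg B (Finset.sdiff_subset hB)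
  rw [mul_comm η]
  exact mul_le_mul_of_nonneg_left (hJ' C hC) (mul_nonneg hfC hgC)

private theorem KapK_mem {X : St} {x : Le} (hx : x ∈ lts X) : x.1 ∈ X.1 ∧ x.2.1 ⊆ X.2 := by
  unfold lts at hx
  split_ifs at hx
  · simp only [Finset.mem_product, Finset.mem_powerset, Finset.mem_univ, and_true] at hx
    exact hx
  · simp only [Finset.mem_product, Finset.mem_singleton] at hx
    refine ⟨hx.1, ?_⟩
    rw [hx.2.1]

private theorem KapK_pr {Y : ℕ → ℕ → ℝ} {a : ℝ} {X : St} {x : Le} (h : 0 < pr Y a X x) :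
    cc Y x.1 x.2.1 ≠ 0 ∧ (x.2.2 = true → 2 ≤ X.1.card → a ≠ 0) := by
  have h1 : wl Y a X x ≠ 0 := by
    intro h0
    unfold pr at h
    rw [h0] at h
    simp at h
  unfold wl at h1
  refine ⟨fun h0 => h1 (by rw [h0, zero_mul]), fun h2 h3 h0 => h1 ?_⟩
  rw [if_pos ⟨h2, h3⟩, h0, mul_zero]

/-- the facts on a joint pair of letters of positive probability -/
private structure KapKF (Y : ℕ → ℕ → ℝ) (a : ℝ) (V : Finset ℕ) (x y : Le) : Prop where
  card : (pc x y).card ≤ V.card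
  nx : ∀ B ∈ pc x y, x.1 ∉ B
  ny : ∀ B ∈ pc x y, y.1 ∉ B
  pos : ∀ B ∈ pc x y, yb Y x.1 B ≠ 1 ∨ yb Y y.1 B ≠ 1
  tr : x.2.2 = true → a ≠ 0 ∧ y.2.2 = true
  fa : x.2.2 = false → yb Y y.1 (blk x.1 x.2.1) ≠ 1
  px : ∀ B ∈ x.2.1, yb Y x.1 B ≠ 1

private theorem KapK_cc {Y : ℕ → ℕ → ℝ} {t : ℕ} {C : Finset (Finset ℕ)} (h : cc Y t C ≠ 0) :
    ∀ B ∈ C, yb Y t B ≠ 1 := by
  intro B hB h1
  apply h
  unfold cc
  exact Finset.prod_eq_zero hB (by rw [h1, sub_self])

private theorem KapK_fact {Y : ℕ → ℕ → ℝ} {a : ℝ} {V : Finset ℕ} {X : St} {x y : Le} (hI : In V X) (hW : Wf X)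
    (hx : x ∈ lts X) (hy : y ∈ lts (nx X x)) (hpx : 0 < pr Y a X x) (hpy : 0 < pr Y a (nx X x) y)
    (hj : jt x y) : KapKF Y a V x y := by
  obtain ⟨hx1, hx2⟩ := KapK_mem hx
  obtain ⟨hy1, hy2⟩ := KapK_mem hy
  have hy1' : y.1 ∈ X.1.erase x.1 := hy1
  have hyX : y.1 ∈ X.1 := Finset.mem_of_mem_erase hy1'
  have hne : y.1 ≠ x.1 := Finset.ne_of_mem_erase hy1'
  have hc2 : 2 ≤ X.1.card := Finset.one_lt_card.2 ⟨y.1, hyX, x.1, hx1, hne⟩
  have hnx2 : (nx X x).2 ⊆ insert (blk x.1 x.2.1) X.2 := by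
    unfold nx
    intro B hB
    by_cases hf : x.2.2 = true
    · simp only [hf, if_true] at hB
      exact Finset.mem_insert_of_mem (Finset.sdiff_subset hB)
    · simp only [hf] at hB
      rcases Finset.mem_insert.1 hB with h | h
      · rw [h]
        exact Finset.mem_insert_self _ _
      · exact Finset.mem_insert_of_mem (Finset.sdiff_subset h)
  have hP : pc x y ⊆ X.2 := by
    unfold pc
    refine Finset.union_subset hx2 fun B hB => ?_
    obtain ⟨h1, h2⟩ := Finset.mem_erase.1 hB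
    exact Finset.mem_of_mem_insert_of_ne (hnx2 (hy2 h2)) h1
  have hnot : ∀ B ∈ X.2, ∀ t ∈ X.1, t ∉ B := fun B hB t ht htB =>
    Finset.disjoint_left.1 (hW.dR B hB) htB ht
  refine ⟨?_, fun B hB => hnot B (hP hB) _ hx1, fun B hB => hnot B (hP hB) _ hyX, ?_, ?_, ?_, ?_⟩
  · refine (Finset.card_le_card hP).trans ?_
    have h1 : X.2.card ≤ (X.2.biUnion id).card := by
      refine Finset.card_le_card_biUnion ?_ fun B hB => hW.ne B hB
      intro B hB C hC hBC
      exact hW.dj B hB C hC hBC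
    refine h1.trans (Finset.card_le_card ?_)
    intro v hv
    obtain ⟨B, hB, hvB⟩ := Finset.mem_biUnion.1 hv
    exact hI.2 B hB hvB
  · intro B hB
    unfold pc at hB
    rcases Finset.mem_union.1 hB with h | h
    · exact Or.inl (KapK_cc (KapK_pr hpx).1 B h)
    · exact Or.inr (KapK_cc (KapK_pr hpy).1 B (Finset.mem_of_mem_erase h))
  · intro hf
    refine ⟨(KapK_pr hpx).2 hf hc2, ?_⟩
    rcases hj with h | h
    · exfalso
      have h1 := hy2 h
      have h2 : blk x.1 x.2.1 ∈ X.2 := by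
        unfold nx at h1
        simp only [hf, if_true] at h1
        exact Finset.sdiff_subset h1
      exact hnot _ h2 _ hx1 (Finset.mem_insert_self _ _)
    · exact h.2
  · intro hf
    rcases hj with h | h
    · exact KapK_cc (KapK_pr hpy).1 _ h
    · rw [hf] at h
      exact absurd h.1 (by simp)
  · exact KapK_cc (KapK_pr hpx).1

private theorem KapK_N {p q : ℕ} (hpq : p < q) (E : List (ℕ × ℕ)) {z : ℕ} {B : Finset ℕ} (hz : z ∉ B) :
    (wE p q E z B.toList : ℝ) = (q : ℝ) ^ E.length * (1 - yb (YE p q E) z B) := by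
  have h := wE_yb hpq E (u := z) (B := B.toList) (by rwa [Finset.mem_toList])
  rwa [Finset.toList_toFinset] at h

/-- the rate of one block -/
private theorem KapK_rate (m N N' M : ℕ) (hM : N + N' ≤ M) (hpos : 0 < N + N') :
    ((m / (N + N') : ℕ) : ℝ) * N + ((m / (N + N') : ℕ) : ℝ) * N' ≤ m ∧
      (m : ℝ) - M ≤ ((m / (N + N') : ℕ) : ℝ) * N + ((m / (N + N') : ℕ) : ℝ) * N' := by
  have h1 : m / (N + N') * (N + N') ≤ m := Nat.div_mul_le_self _ _
  have h2 : m < m / (N + N') * (N + N') + (N + N') := Nat.lt_div_mul_add hpos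
  have h1' : (((m / (N + N') : ℕ) : ℝ)) * ((N : ℝ) + N') ≤ m := by exact_mod_cast h1
  have h2' : (m : ℝ) < ((m / (N + N') : ℕ) : ℝ) * ((N : ℝ) + N') + ((N : ℝ) + N') := by exact_mod_cast h2
  have h3 : (N : ℝ) + N' ≤ M := by exact_mod_cast hM
  constructor
  · linarith
  · linarith

/-- the total weight of a joint pair -/
private theorem KapK_S (Y : ℕ → ℕ → ℝ) (a qM : ℝ) (k N N' : Finset ℕ → ℝ) {V : Finset ℕ} {x y : Le}
    (hF : KapKF Y a V x y)
    (hN : ∀ B ∈ pc x y, N B = qM * (1 - yb Y x.1 B)) (hN' : ∀ B ∈ pc x y, N' B = qM * (1 - yb Y y.1 B)) :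
    (∏ B ∈ pc x y, (k B * qM)) * mass2 Y a x y =
      (∑ C ∈ (pc x y).powerset, ((∏ B ∈ C, (k B * N B)) * ∏ B ∈ pc x y \ C, (k B * N' B)) *
          (1 - yb Y y.1 (blk x.1 C))) +
        (∑ C ∈ (pc x y).powerset, ((∏ B ∈ C, (k B * N' B)) * ∏ B ∈ pc x y \ C, (k B * N B)) *
          (1 - yb Y x.1 (blk y.1 C))) +
        (if y.2.2 then a * (2 * ∏ B ∈ pc x y, (k B * N B + k B * N' B)) else 0) := by
  have hT : ∀ fl : Bool, ∀ C ∈ (pc x y).powerset,
      (∏ B ∈ pc x y, (k B * qM)) * (w2 Y a x.1 y.1 (pc x y) C fl + w2 Y a y.1 x.1 (pc x y) C fl) =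
      ((∏ B ∈ C, (k B * N B)) * ∏ B ∈ pc x y \ C, (k B * N' B)) * (if fl then a else 1 - yb Y y.1 (blk x.1 C)) +
      ((∏ B ∈ C, (k B * N' B)) * ∏ B ∈ pc x y \ C, (k B * N B)) * (if fl then a else 1 - yb Y x.1 (blk y.1 C)) := by
    intro fl C hC
    have hCP := Finset.mem_powerset.1 hC
    rw [mul_add, KapK_term Y a qM k N N' x.1 y.1 (pc x y) C hCP hF.nx hN hN' fl,
      KapK_term Y a qM k N' N y.1 x.1 (pc x y) C hCP hF.ny hN' hN fl]
  unfold mass2 sum2
  rw [Finset.mul_sum]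
  cases hg : y.2.2
  · simp only [fls, Bool.false_eq_true, if_false, Finset.sum_singleton, add_zero]
    rw [← Finset.sum_add_distrib]
    refine Finset.sum_congr rfl fun C hC => ?_
    rw [hT false C hC]
    simp only [Bool.false_eq_true, if_false]
  · simp only [fls, if_true]
    have hP1 : ∏ B ∈ pc x y, (k B * N B + k B * N' B) =
        ∑ C ∈ (pc x y).powerset, (∏ B ∈ C, (k B * N B)) * ∏ B ∈ pc x y \ C, (k B * N' B) :=
      Finset.prod_add _ _ _
    have hP2 : ∏ B ∈ pc x y, (k B * N B + k B * N' B) =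
        ∑ C ∈ (pc x y).powerset, (∏ B ∈ C, (k B * N' B)) * ∏ B ∈ pc x y \ C, (k B * N B) := by
      rw [← Finset.prod_add]
      exact Finset.prod_congr rfl fun B _ => add_comm _ _
    have hP : a * (2 * ∏ B ∈ pc x y, (k B * N B + k B * N' B)) =
        ∑ C ∈ (pc x y).powerset, (((∏ B ∈ C, (k B * N B)) * ∏ B ∈ pc x y \ C, (k B * N' B)) * a +
          ((∏ B ∈ C, (k B * N' B)) * ∏ B ∈ pc x y \ C, (k B * N B)) * a) := by
      rw [Finset.sum_add_distrib, ← Finset.sum_mul, ← Finset.sum_mul, ← hP1, ← hP2]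
      ring
    rw [hP, ← Finset.sum_add_distrib, ← Finset.sum_add_distrib]
    refine Finset.sum_congr rfl fun C hC => ?_
    rw [Finset.sum_pair (by decide), mul_add, hT false C hC, hT true C hC]
    simp only [Bool.false_eq_true, if_false, if_true]

/-- the bounds of the weight -/
private theorem KapK_main {p q a1 a2 c : ℕ} {V : List ℕ} {E : List (ℕ × ℕ)} (hpq : p < q) (ha2 : 0 < a2)
    (hc : 8 * (V.length + 1) * (a1 + a2) * q ^ E.length ≤ 2 ^ c) {x y : Le}
    (hF : KapKF (YE p q E) (aR a1 a2) V.toFinset x y) :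
    (1 - (p : ℝ) / q) ^ 2 * ((2 : ℝ) ^ c) ^ (pc x y).card / 6 ≤
      a2 * (if y.2.2 then 1 else 2) * ((∏ B ∈ pc x y, ((kB p q E (2 ^ c) x.1 y.1 B : ℝ) * q ^ E.length)) *
        mass2 (YE p q E) (aR a1 a2) x y) ∧
    a2 * (q : ℝ) ^ E.length * (if y.2.2 then 1 else 2) *
      ((∏ B ∈ pc x y, ((kB p q E (2 ^ c) x.1 y.1 B : ℝ) * q ^ E.length)) *
        mass2 (YE p q E) (aR a1 a2) x y) ≤ (2 : ℝ) ^ c * ((2 : ℝ) ^ c) ^ (pc x y).card := by
  have hY := lab_YE hpq E
  have hη0 := hY.pos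
  have hη1 := hY.le1
  have hq : (0 : ℝ) < q := by
    have : 0 < q := by omega
    exact_mod_cast this
  have hqM : (0 : ℝ) < (q : ℝ) ^ E.length := pow_pos hq _
  have ha2' : (1 : ℝ) ≤ a2 := by exact_mod_cast ha2
  have haa : (a2 : ℝ) * aR a1 a2 = a1 := by
    unfold aR
    field_simp
  have ha0 : 0 ≤ aR a1 a2 := by
    unfold aR
    positivity
  have hcR : 8 * ((V.length : ℝ) + 1) * ((a1 : ℝ) + a2) * (q : ℝ) ^ E.length ≤ (2 : ℝ) ^ c := by
    exact_mod_cast hc
  have hn0 : (0 : ℝ) ≤ (V.length : ℝ) := Nat.cast_nonneg _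
  have ha10 : (0 : ℝ) ≤ (a1 : ℝ) := Nat.cast_nonneg _
  have hm : (0 : ℝ) < (2 : ℝ) ^ c := by positivity
  set η : ℝ := 1 - (p : ℝ) / q with hη
  set Y := YE p q E with hYd
  set a := aR a1 a2 with had
  set qM : ℝ := (q : ℝ) ^ E.length with hqMd
  set m : ℝ := (2 : ℝ) ^ c with hmd
  set P := pc x y with hPd
  -- consequences of `hc`
  have hc1 : 8 * ((a1 : ℝ) + a2) * qM ≤ m := by
    refine le_trans ?_ hcR
    have : 8 * ((a1 : ℝ) + a2) * qM = 8 * 1 * ((a1 : ℝ) + a2) * qM := by ring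
    rw [this]
    gcongr
    linarith
  have hc2 : 4 * qM ≤ m * (1 / (2 * ((V.length : ℝ) + 1))) := by
    rw [mul_one_div, le_div_iff₀ (by positivity)]
    refine le_trans ?_ hcR
    have : 4 * qM * (2 * ((V.length : ℝ) + 1)) = 8 * ((V.length : ℝ) + 1) * 1 * qM := by ring
    rw [this]
    gcongr
    linarith
  set k : Finset ℕ → ℝ := fun B => (kB p q E (2 ^ c) x.1 y.1 B : ℝ) with hkd
  set N : Finset ℕ → ℝ := fun B => (wE p q E x.1 B.toList : ℝ) with hNd
  set N' : Finset ℕ → ℝ := fun B => (wE p q E y.1 B.toList : ℝ) with hNd'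
  have hN : ∀ B ∈ P, N B = qM * (1 - yb Y x.1 B) := fun B hB => KapK_N hpq E (hF.nx B hB)
  have hN' : ∀ B ∈ P, N' B = qM * (1 - yb Y y.1 B) := fun B hB => KapK_N hpq E (hF.ny B hB)
  have hk0 : ∀ B, 0 ≤ k B := fun B => Nat.cast_nonneg _
  have hN0 : ∀ B, 0 ≤ N B := fun B => Nat.cast_nonneg _
  have hN0' : ∀ B, 0 ≤ N' B := fun B => Nat.cast_nonneg _
  have hNle : ∀ B ∈ P, N B ≤ 2 * qM := fun B hB => by
    rw [hN B hB, mul_comm]
    exact mul_le_mul_of_nonneg_right (yb_le hpq E (hF.nx B hB)).2 hqM.le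
  have hNle' : ∀ B ∈ P, N' B ≤ 2 * qM := fun B hB => by
    rw [hN' B hB, mul_comm]
    exact mul_le_mul_of_nonneg_right (yb_le hpq E (hF.ny B hB)).2 hqM.le
  have hNpos : ∀ B ∈ P, 0 < N B + N' B := fun B hB => by
    rcases hF.pos B hB with h | h
    · have h1 : 0 < N B := by
        rw [hN B hB]
        rcases yb_low hpq E (hF.nx B hB) with h2 | h2
        · exact absurd h2 h
        · exact mul_pos hqM (lt_of_lt_of_le hη0 h2)
      linarith [hN0' B]
    · have h1 : 0 < N' B := by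
        rw [hN' B hB]
        rcases yb_low hpq E (hF.ny B hB) with h2 | h2
        · exact absurd h2 h
        · exact mul_pos hqM (lt_of_lt_of_le hη0 h2)
      linarith [hN0 B]
  have hrate : ∀ B ∈ P, k B * N B + k B * N' B ≤ m ∧
      m * (1 - 1 / (2 * ((V.length : ℝ) + 1))) ≤ k B * N B + k B * N' B := fun B hB => by
    have hle : wE p q E x.1 B.toList + wE p q E y.1 B.toList ≤ 4 * q ^ E.length := by
      have h1 : N B + N' B ≤ 4 * qM := by linarith [hNle B hB, hNle' B hB]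
      have h2 : ((wE p q E x.1 B.toList + wE p q E y.1 B.toList : ℕ) : ℝ) ≤ ((4 * q ^ E.length : ℕ) : ℝ) := by
        push_cast
        exact h1
      exact_mod_cast h2
    have hpos : 0 < wE p q E x.1 B.toList + wE p q E y.1 B.toList := by
      have h2 : (0 : ℝ) < ((wE p q E x.1 B.toList + wE p q E y.1 B.toList : ℕ) : ℝ) := by
        push_cast
        exact hNpos B hB
      exact_mod_cast h2
    obtain ⟨r1, r2⟩ := KapK_rate (2 ^ c) _ _ _ hle hpos
    have e1 : (((2 : ℕ) ^ c : ℕ) : ℝ) = m := by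
      push_cast
      rfl
    rw [e1] at r1 r2
    have e2 : ((4 * q ^ E.length : ℕ) : ℝ) = 4 * qM := by
      push_cast
      rfl
    rw [e2] at r2
    constructor
    · exact r1
    · have e3 : m * (1 - 1 / (2 * ((V.length : ℝ) + 1))) = m - m * (1 / (2 * ((V.length : ℝ) + 1))) := by ring
      rw [e3]
      refine le_trans ?_ r2
      linarith
  have hPc : P.card ≤ V.length := hF.card.trans (List.toFinset_card_le V)
  set Qo : ℝ := ∏ B ∈ P, (k B * N B + k B * N' B) with hQod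
  have hQolow : m ^ P.card / 2 ≤ Qo :=
    KapK_low m hm V.length P hPc _ (fun B hB => (hrate B hB).2)
  have hQoup : Qo ≤ m ^ P.card :=
    KapK_up m P _ (fun B _ => add_nonneg (mul_nonneg (hk0 B) (hN0 B)) (mul_nonneg (hk0 B) (hN0' B)))
      (fun B hB => (hrate B hB).1)
  have hmP : 0 < m ^ P.card := by positivity
  have hQo0 : 0 < Qo := lt_of_lt_of_le (by positivity) hQolow
  have hQo' : ∏ B ∈ P, (k B * N' B + k B * N B) = Qo :=
    Finset.prod_congr rfl fun B _ => add_comm _ _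
  have hf : ∀ B ∈ P, 0 ≤ k B * N B := fun B _ => mul_nonneg (hk0 B) (hN0 B)
  have hg : ∀ B ∈ P, 0 ≤ k B * N' B := fun B _ => mul_nonneg (hk0 B) (hN0' B)
  have hS := KapK_S Y a qM k N N' hF hN hN'
  have hJ0 : ∀ (t : ℕ) (B : Finset ℕ), 0 ≤ 1 - yb Y t B := fun t B => by
    have := le_of_abs_le (KapK_ybabs hY t B)
    linarith
  have hJ2 : ∀ (t : ℕ) (B : Finset ℕ), 1 - yb Y t B ≤ 2 := fun t B => by
    have := neg_le_of_abs_le (KapK_ybabs hY t B)
    linarith
  set S1 := ∑ C ∈ P.powerset, ((∏ B ∈ C, (k B * N B)) * ∏ B ∈ P \ C, (k B * N' B)) *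
          (1 - yb Y y.1 (blk x.1 C)) with hS1d
  set S2 := ∑ C ∈ P.powerset, ((∏ B ∈ C, (k B * N' B)) * ∏ B ∈ P \ C, (k B * N B)) *
          (1 - yb Y x.1 (blk y.1 C)) with hS2d
  have hS1u : S1 ≤ 2 * Qo := KapK_sumU P _ _ _ 2 hf hg (fun C _ => hJ2 _ _)
  have hS2u : S2 ≤ 2 * Qo := by
    rw [← hQo']
    exact KapK_sumU P _ _ _ 2 hg hf (fun C _ => hJ2 _ _)
  have hS10 : 0 ≤ S1 := by
    have := KapK_sumA P _ _ _ 0 hf hg (fun C _ => hJ0 y.1 (blk x.1 C))
    rwa [zero_mul] at this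
  have hS20 : 0 ≤ S2 := by
    have := KapK_sumA P _ _ _ 0 hg hf (fun C _ => hJ0 x.1 (blk y.1 C))
    rwa [zero_mul] at this
  rw [hS]
  have hη2 : η ^ 2 ≤ 1 := by nlinarith
  constructor
  · -- lower bound
    cases hx : x.2.2
    · -- the block of `x.1` is swallowed by `y.1`
      have hlow : η ^ 2 * m ^ P.card / 6 ≤ S1 := by
        have h1 := hF.fa hx
        have h2 : ∃ b0 ∈ blk x.1 x.2.1, Y y.1 b0 ≠ 1 := by
          by_contra hcon
          push Not at hcon
          exact h1 (Finset.prod_eq_one hcon)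
        obtain ⟨b0, hb0, hbne⟩ := h2
        rcases Finset.mem_insert.1 hb0 with h | h
        · have h3 : η * Qo ≤ S1 := KapK_sumA P _ _ _ η hf hg (fun C _ =>
            KapK_gap hY (B := blk x.1 C) (b0 := b0) (by rw [h]; exact Finset.mem_insert_self _ _) hbne)
          refine le_trans ?_ h3
          have h4 : η * (m ^ P.card / 2) ≤ η * Qo := mul_le_mul_of_nonneg_left hQolow hη0.le
          refine le_trans ?_ h4
          have h5 : η ^ 2 ≤ η := by nlinarith
          nlinarith [mul_le_mul_of_nonneg_right h5 hmP.le, mul_nonneg hη0.le hmP.le]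
        · obtain ⟨B0, hB0, hbB⟩ := Finset.mem_biUnion.1 h
          have hB0P : B0 ∈ P := Finset.mem_union_left _ hB0
          have h3 : η * (k B0 * N B0 * ∏ B ∈ P.erase B0, (k B * N B + k B * N' B)) ≤ S1 := by
            refine KapK_sumB P _ _ _ η B0 hB0P hf hg (fun C _ => hJ0 _ _) ?_
            intro C _ hBC
            refine KapK_gap hY (b0 := b0) ?_ hbne
            exact Finset.mem_insert_of_mem (Finset.mem_biUnion.2 ⟨B0, hBC, hbB⟩)
          have h4 : η * (k B0 * N B0 + k B0 * N' B0) ≤ 3 * (k B0 * N B0) := by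
            have h5 : η * qM ≤ N B0 := by
              rw [hN B0 hB0P, mul_comm]
              refine mul_le_mul_of_nonneg_left ?_ hqM.le
              rcases yb_low hpq E (hF.nx B0 hB0P) with h6 | h6
              · exact absurd h6 (hF.px B0 hB0)
              · exact h6
            have h6 : η * (N B0 + N' B0) ≤ 3 * N B0 := by
              have h7 : η * N' B0 ≤ η * (2 * qM) := mul_le_mul_of_nonneg_left (hNle' B0 hB0P) hη0.le
              have h8 : η * N B0 ≤ 1 * N B0 := mul_le_mul_of_nonneg_right hη1 (hN0 B0)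
              nlinarith
            have h9 := mul_le_mul_of_nonneg_left h6 (hk0 B0)
            nlinarith
          have hE0 : 0 ≤ ∏ B ∈ P.erase B0, (k B * N B + k B * N' B) :=
            Finset.prod_nonneg fun B hB =>
              add_nonneg (hf B (Finset.mem_of_mem_erase hB)) (hg B (Finset.mem_of_mem_erase hB))
          have h10 : Qo = (k B0 * N B0 + k B0 * N' B0) * ∏ B ∈ P.erase B0, (k B * N B + k B * N' B) :=
            (Finset.mul_prod_erase P (fun B => k B * N B + k B * N' B) hB0P).symm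
          have h11 : η * Qo ≤ 3 * (k B0 * N B0) * ∏ B ∈ P.erase B0, (k B * N B + k B * N' B) := by
            rw [h10, ← mul_assoc]
            exact mul_le_mul_of_nonneg_right h4 hE0
          have h12 : η * (η * Qo) ≤ 3 * S1 := by
            have h13 := mul_le_mul_of_nonneg_left h11 hη0.le
            refine h13.trans ?_
            have h14 : η * (3 * (k B0 * N B0) * ∏ B ∈ P.erase B0, (k B * N B + k B * N' B)) =
                3 * (η * (k B0 * N B0 * ∏ B ∈ P.erase B0, (k B * N B + k B * N' B))) := by ring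
            rw [h14]
            linarith
          have h15 : η ^ 2 * (m ^ P.card / 2) ≤ η ^ 2 * Qo :=
            mul_le_mul_of_nonneg_left hQolow (by positivity)
          nlinarith
      have hge : (1 : ℝ) ≤ a2 * (if y.2.2 then 1 else 2) := by
        split_ifs <;> linarith
      have hrest : 0 ≤ (if y.2.2 then a * (2 * Qo) else 0) := by
        split_ifs
        · positivity
        · exact le_refl _
      have htot : S1 ≤ S1 + S2 + (if y.2.2 then a * (2 * Qo) else 0) := by linarith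
      have h20 : 0 ≤ S1 + S2 + (if y.2.2 then a * (2 * Qo) else 0) := by linarith
      calc η ^ 2 * m ^ P.card / 6 ≤ S1 := hlow
        _ ≤ 1 * (S1 + S2 + (if y.2.2 then a * (2 * Qo) else 0)) := by rw [one_mul]; exact htot
        _ ≤ _ := mul_le_mul_of_nonneg_right hge h20
    · obtain ⟨hane, hg'⟩ := hF.tr hx
      have ha1 : (1 : ℝ) ≤ a1 := by
        have : a1 ≠ 0 := by
          rintro rfl
          apply hane
          simp [had, aR]
        have : 1 ≤ a1 := Nat.one_le_iff_ne_zero.2 this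
        exact_mod_cast this
      rw [hg']
      simp only [if_true, mul_one]
      have h1 : (a2 : ℝ) * (a * (2 * Qo)) ≤ a2 * (S1 + S2 + a * (2 * Qo)) :=
        mul_le_mul_of_nonneg_left (by linarith) (by linarith)
      refine le_trans ?_ h1
      have h2 : (a2 : ℝ) * (a * (2 * Qo)) = a1 * (2 * Qo) := by rw [← mul_assoc, haa]
      rw [h2]
      have h3 : 2 * Qo ≤ a1 * (2 * Qo) := by nlinarith
      refine le_trans ?_ h3
      have h4 : η ^ 2 * m ^ P.card ≤ 1 * m ^ P.card := mul_le_mul_of_nonneg_right hη2 hmP.le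
      linarith
  · -- upper bound
    have hkey : a2 * qM * (if y.2.2 then (1 : ℝ) else 2) * (S1 + S2 + (if y.2.2 then a * (2 * Qo) else 0)) ≤ m * Qo := by
      cases hy : y.2.2
      · simp only [Bool.false_eq_true, if_false, add_zero]
        have h1 : (a2 : ℝ) * qM * 2 * (S1 + S2) ≤ a2 * qM * 2 * (4 * Qo) :=
          mul_le_mul_of_nonneg_left (by linarith) (by positivity)
        refine h1.trans ?_
        have h2 : (a2 : ℝ) * qM * 2 * (4 * Qo) = (8 * (0 + a2) * qM) * Qo := by ring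
        rw [h2]
        refine mul_le_mul_of_nonneg_right (le_trans ?_ hc1) hQo0.le
        gcongr
      · simp only [if_true, mul_one]
        have h1 : (a2 : ℝ) * qM * (S1 + S2 + a * (2 * Qo)) ≤ a2 * qM * (4 * Qo + a * (2 * Qo)) :=
          mul_le_mul_of_nonneg_left (by linarith) (by positivity)
        refine h1.trans ?_
        have h2 : (a2 : ℝ) * qM * (4 * Qo + a * (2 * Qo)) = ((4 * a2 + 2 * (a2 * a)) * qM) * Qo := by ring
        rw [h2, haa]
        refine mul_le_mul_of_nonneg_right (le_trans ?_ hc1) hQo0.le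
        refine mul_le_mul_of_nonneg_right ?_ hqM.le
        linarith
    refine hkey.trans ?_
    exact mul_le_mul_of_nonneg_left hQoup hm.le

theorem kok {p q a1 a2 b c : ℕ} {V : List ℕ} {E : List (ℕ × ℕ)} (hpq : p < q) (ha2 : 0 < a2) (hG : Gr V E)
    (hb : V.length ≤ 2 ^ b) (hc : 8 * (V.length + 1) * (a1 + a2) * q ^ E.length ≤ 2 ^ c) :
    KOK (YE p q E) (aR a1 a2) (kapM p q a2 V E b c) (ksM q a2 V E b c) (c0M p q E b c) (2 ^ b) V.toFinset := by
  have _ := hG
  have hY := lab_YE hpq E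
  have hη0 := hY.pos
  have hη1 := hY.le1
  have hq : (0 : ℝ) < q := by
    have : 0 < q := by omega
    exact_mod_cast this
  have hqM : (0 : ℝ) < (q : ℝ) ^ E.length := pow_pos hq _
  have ha2' : (1 : ℝ) ≤ a2 := by exact_mod_cast ha2
  have hcR : 8 * ((V.length : ℝ) + 1) * ((a1 : ℝ) + a2) * (q : ℝ) ^ E.length ≤ (2 : ℝ) ^ c := by
    exact_mod_cast hc
  have hn0 : (0 : ℝ) ≤ (V.length : ℝ) := Nat.cast_nonneg _
  have ha10 : (0 : ℝ) ≤ (a1 : ℝ) := Nat.cast_nonneg _
  have hm : (0 : ℝ) < (2 : ℝ) ^ c := by positivity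
  have hB : (0 : ℝ) < (2 : ℝ) ^ b := by positivity
  have hmn : (0 : ℝ) < ((2 : ℝ) ^ c) ^ V.length := by positivity
  have hks : ksM q a2 V E b c = a2 * (q : ℝ) ^ E.length / (2 * 2 ^ b * 2 ^ c) := by
    unfold ksM
    rw [KapK_card]
    field_simp
    ring
  have hc1 : (a2 : ℝ) * (q : ℝ) ^ E.length ≤ 2 ^ c := by
    refine le_trans ?_ hcR
    have e : (a2 : ℝ) * (q : ℝ) ^ E.length = 1 * 1 * (0 + a2) * (q : ℝ) ^ E.length := by ring
    rw [e]
    gcongr
    · norm_num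
    · linarith
  have hη2 : (1 - (p : ℝ) / q) ^ 2 ≤ 1 := by nlinarith
  have hex : ∀ (x y : Le), KapKF (YE p q E) (aR a1 a2) V.toFinset x y →
      kapM p q a2 V E b c x.1 y.1 (pc x y) y.2.2 * mass2 (YE p q E) (aR a1 a2) x y =
        (a2 * (q : ℝ) ^ E.length * (if y.2.2 then 1 else 2) *
          ((∏ B ∈ pc x y, ((kB p q E (2 ^ c) x.1 y.1 B : ℝ) * q ^ E.length)) *
            mass2 (YE p q E) (aR a1 a2) x y)) / (4 * 2 ^ b * 2 ^ c * ((2 : ℝ) ^ c) ^ (pc x y).card) := by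
    intro x y hF
    have hPc : (pc x y).card ≤ V.length := hF.card.trans (List.toFinset_card_le V)
    have e1 : ((2 : ℝ) ^ c) ^ V.length = ((2 : ℝ) ^ c) ^ (V.length - (pc x y).card) * ((2 : ℝ) ^ c) ^ (pc x y).card := by
      rw [← pow_add, Nat.sub_add_cancel hPc]
    unfold kapM
    rw [KapK_card, e1]
    have h1 : (0 : ℝ) < ((2 : ℝ) ^ c) ^ (V.length - (pc x y).card) := by positivity
    have h2 : (0 : ℝ) < ((2 : ℝ) ^ c) ^ (pc x y).card := by positivity
    generalize ((2 : ℝ) ^ c) ^ (V.length - (pc x y).card) = A1 at h1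
    generalize ((2 : ℝ) ^ c) ^ (pc x y).card = A2 at h2
    generalize (∏ B ∈ pc x y, ((kB p q E (2 ^ c) x.1 y.1 B : ℝ) * (q : ℝ) ^ E.length)) = A3
    generalize mass2 (YE p q E) (aR a1 a2) x y = A4
    generalize (if y.2.2 = true then (1 : ℝ) else 2) = A5
    generalize (2 : ℝ) ^ c = A6 at hm
    generalize (2 : ℝ) ^ b = A7 at hB
    generalize (q : ℝ) ^ E.length = A8
    field_simp
  refine ⟨?_, ?_, ?_, ?_, ?_, ?_, ?_, ?_⟩
  · intro t s P g
    unfold kapM
    simp only [KapK_kB p q E (2 ^ c) t s]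
  · intro t s P g
    unfold kapM
    have : (0 : ℝ) ≤ (if g then (1 : ℝ) else 2) := by split_ifs <;> norm_num
    positivity
  · unfold c0M
    positivity
  · rw [hks]
    unfold c0M
    rw [div_le_iff₀ (by positivity)]
    have e : 2 * ((a2 : ℝ) * (q : ℝ) ^ E.length / (2 * 2 ^ b * 2 ^ c)) * (24 * 2 ^ b * 2 ^ c) =
        24 * a2 * (q : ℝ) ^ E.length := by
      field_simp
    rw [e]
    refine mul_le_mul_of_nonneg_right ?_ hqM.le
    linarith
  · rw [hks]
    have hc2 : 2 * ((a2 : ℝ) * (q : ℝ) ^ E.length) ≤ 2 ^ c := by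
      refine le_trans ?_ hcR
      rw [← mul_assoc]
      refine mul_le_mul_of_nonneg_right ?_ hqM.le
      nlinarith [mul_nonneg hn0 ha10, mul_nonneg hn0 (zero_le_one.trans ha2')]
    rw [div_le_div_iff₀ (by positivity) (by positivity)]
    push_cast
    nlinarith [mul_le_mul_of_nonneg_right hc2 hB.le]
  · exact (List.toFinset_card_le V).trans hb
  · intro X x y hI hW hx hy hpx hpy hj
    have hF := KapK_fact hI hW hx hy hpx hpy hj
    rw [hex x y hF]
    have h := (KapK_main hpq ha2 hc hF).1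
    unfold c0M
    have h2 : (0 : ℝ) < ((2 : ℝ) ^ c) ^ (pc x y).card := by positivity
    rw [div_le_div_iff₀ (by positivity) (by positivity)]
    have h3 := mul_le_mul_of_nonneg_right h (show (0 : ℝ) ≤ (q : ℝ) ^ E.length * (24 * 2 ^ b * 2 ^ c) by positivity)
    nlinarith
  · intro X x y hI hW hx hy hpx hpy hj
    have hF := KapK_fact hI hW hx hy hpx hpy hj
    rw [hex x y hF]
    have h := (KapK_main hpq ha2 hc hF).2
    have h2 : (0 : ℝ) < ((2 : ℝ) ^ c) ^ (pc x y).card := by positivity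
    rw [div_le_div_iff₀ (by positivity) (by positivity)]
    push_cast
    have h3 := mul_le_mul_of_nonneg_right h (show (0 : ℝ) ≤ 2 * 2 ^ b by positivity)
    nlinarith [mul_pos (mul_pos hm h2) hB]

end BSI.M
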