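import Pool.Agent.BSI.KL

/-!
# BSI: the mixing estimate on the lists of letters (statement only)
-/

set_option autoImplicit false

namespace BSI

open Finset

/-- the mixing estimate with the constant `CC` -/
def MixL (Y : ℕ → ℕ → ℝ) (a : ℝ) (kap : Kap) (ksw : ℝ) (V : Finset ℕ) (CC : ℝ) : Prop :=
  ∀ F : List Le → ℝ, (∀ l, |F l| ≤ 1) → ∀ l0 : List Le, Pos Y a (V, ∅) l0 → ∀ t : ℕ,
    PrL Y a (V, ∅) l0 * ((KL Y a kap ksw)^[t] F l0 - ExL Y a V.card (V, ∅) F) ^ 2 ≤ (1 - 1 / CC) ^ t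

/-- the constant -/
noncomputable def CM (th : ℕ → ℝ) (c : ℝ) (n : ℕ) : ℝ := 24 * n * (n + 1) * (∏ k ∈ Finset.Icc 3 n, th k) / c

end BSI
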