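import Pool.Agent.BSI.LkB
import Pool.Agent.BSI.ChB
import Pool.Agent.BSI.MixD

/-!
# BSI-MixM: the mixing estimate from the local variance inequality

The system `sys` (BSI/Sy.lean), restricted to the states on the vertices `V`, and the multipliers `kapF` of the fibres satisfy the
hypotheses of the mixing theorem `Ch.mix` for the chain on flags; `link1` identifies one step of this chain with one step `KL` of
the chain on the lists of letters.
-/

set_option autoImplicit false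

namespace BSI

open Finset ACY BSI.Ch

/-- a system stays a system on a smaller class which is closed under `cov` -/
private theorem MixM_sub {α : Type} {cov : α → Finset α} {p t : α → α → ℝ} {rk : α → ℕ} {ok ok2 : α → Prop} {m : ℝ}
    (h : GPoi.Sys cov p t rk ok m) (h1 : ∀ X, ok2 X → ok X) (h2 : ∀ X, ok2 X → ∀ Z ∈ cov X, ok2 Z) :
    GPoi.Sys cov p t rk ok2 m where
  hm := h.hm
  ok' := h2
  rk' := fun X hX => h.rk' X (h1 X hX)
  pos := fun X hX => h.pos X (h1 X hX)
  one := fun X hX => h.one X (h1 X hX)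
  le := fun X hX => h.le X (h1 X hX)
  ge := fun X hX => h.ge X (h1 X hX)
  com := fun X hX => h.com X (h1 X hX)

private theorem MixM_In {Y : ℕ → ℕ → ℝ} {a : ℝ} {V : Finset ℕ} {X Z : St} (h : In V X) (hZ : Z ∈ cov Y a X) : In V Z := by
  obtain ⟨l, hl, _, rfl⟩ := mem_cov.1 hZ
  have h1 := lts_fst hl
  have h2 := lts_sub hl
  have h3 : ∀ B ∈ X.2 \ l.2.1, B ⊆ V := fun B hB => h.2 B (Finset.mem_sdiff.1 hB).1
  refine ⟨(Finset.erase_subset _ _).trans h.1, ?_⟩
  unfold nx
  cases hf : l.2.2 with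
  | true => exact h3
  | false =>
    intro B hB
    simp only [Bool.false_eq_true, if_false] at hB
    rcases Finset.mem_insert.1 hB with h4 | h4
    · rw [h4]
      intro x hx
      rcases mem_blk.1 hx with h5 | ⟨D, hD, hxD⟩
      · exact h.1 (h5 ▸ h1)
      · exact h.2 D (h2 hD) hxD
    · exact h3 B h4

private theorem MixM_prod (th : ℕ → ℝ) (n : ℕ) :
    ∏ k ∈ Finset.Ioc 0 n, (if 3 ≤ k then th k else 1) = ∏ k ∈ Finset.Icc 3 n, th k := by
  rw [← Finset.prod_filter]
  refine Finset.prod_congr ?_ fun _ _ => rfl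
  ext k
  simp only [Finset.mem_filter, Finset.mem_Ioc, Finset.mem_Icc]
  omega

private theorem MixM_one {th : ℕ → ℝ} (hth : ∀ k, 3 ≤ k → 1 ≤ th k) (n : ℕ) : 1 ≤ ∏ k ∈ Finset.Icc 3 n, th k := by
  refine Finset.prod_induction _ (fun x => (1 : ℝ) ≤ x) ?_ le_rfl ?_
  · intro x y hx hy
    exact one_le_mul_of_one_le_of_one_le hx hy
  · intro k hk
    exact hth k (Finset.mem_Icc.1 hk).1

private theorem MixM_c {Y : ℕ → ℕ → ℝ} {a : ℝ} {kap : Kap} {ksw c : ℝ} {N0 : ℕ} {V : Finset ℕ} (hV : V.Nonempty)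
    (hK : KOK Y a kap ksw c N0 V) : 0 < N0 ∧ c * N0 ≤ 1 := by
  have h1 := hV.card_pos
  have h2 := hK.card
  have hN : 0 < N0 := by omega
  have hN' : (0 : ℝ) < N0 := by exact_mod_cast hN
  refine ⟨hN, ?_⟩
  have h3 := hK.sw
  have h4 := hK.sw'
  have h5 : ksw * (4 * N0) ≤ 1 := by
    rw [le_div_iff₀ (by positivity)] at h4
    exact h4
  nlinarith

/-- the steps of both chains agree -/
private theorem MixM_link2 {Y : ℕ → ℕ → ℝ} {a : ℝ} (hY : ∀ u v, |Y u v| ≤ 1) (ha : 0 ≤ a) {kap : Kap} {ksw c : ℝ}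
    {N0 : ℕ} {V : Finset ℕ} (hK : KOK Y a kap ksw c N0 V) (hN : 0 < N0) (F : List Le → ℝ) {X : St} (hX : ok Y a X)
    {n : ℕ} (hn : X.1.card = n) (t : ℕ) (s : List St) (hs : Fl (cov Y a) n X s) :
    Kit (cov Y a) (p Y a) (kapF Y a kap ksw N0) (1 / (N0 : ℝ)) X t (fun s => F (encs X s)) s =
      (_root_.BSI.KL Y a kap ksw)^[t] F (encs X s) := by
  induction t generalizing s with
  | zero => rfl
  | succ t ih =>
    rw [Function.iterate_succ_apply']
    set G := (_root_.BSI.KL Y a kap ksw)^[t] F with hG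
    have h1 := inc_congr (cov := cov Y a) (p := p Y a) (kap := kapF Y a kap ksw N0) n X
      (Kit (cov Y a) (p Y a) (kapF Y a kap ksw N0) (1 / (N0 : ℝ)) X t (fun s => F (encs X s)))
      (fun s => G (encs X s)) ih hs
    obtain ⟨h2, h3⟩ := Pos_encs hY ha n hX hn hs
    have h4 := link1 hY ha hK hN G hX h2
    rw [h3] at h4
    change Kit (cov Y a) (p Y a) (kapF Y a kap ksw N0) (1 / (N0 : ℝ)) X t (fun s => F (encs X s)) s +
      1 / (N0 : ℝ) * inc (cov Y a) (p Y a) (kapF Y a kap ksw N0) X s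
        (Kit (cov Y a) (p Y a) (kapF Y a kap ksw N0) (1 / (N0 : ℝ)) X t (fun s => F (encs X s))) = _
    rw [h1, h4, ih s hs]
    rfl

theorem mixL {Y : ℕ → ℕ → ℝ} {a : ℝ} (hY : ∀ u v, |Y u v| ≤ 1) (ha : 0 ≤ a) {th : ℕ → ℝ} (hth : ∀ k, 3 ≤ k → 1 ≤ th k)
    (hL : LOC Y a th) {kap : Kap} {ksw c : ℝ} {N0 : ℕ} {V : Finset ℕ} (hK : KOK Y a kap ksw c N0 V)
    (hT : 0 < T Y a (V, ∅)) : MixL Y a kap ksw V (CM th c V.card) := by
  intro F hF l0 hl0 t
  rcases V.eq_empty_or_nonempty with hV | hV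
  · subst hV
    have h1 : l0 = [] := by
      cases l0 with
      | nil => rfl
      | cons l m => exact absurd (lts_fst hl0.1) (Finset.notMem_empty _)
    subst h1
    have h2 : (_root_.BSI.KL Y a kap ksw)^[t] F [] = F [] := by
      induction t with
      | zero => rfl
      | succ t ih =>
        rw [Function.iterate_succ_apply']
        unfold _root_.BSI.KL
        simp only [List.length_nil, Nat.zero_sub, Finset.range_zero, Finset.sum_empty, add_zero]
        exact ih
    rw [h2]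
    simp [PrL, ExL, CM]
  · obtain ⟨hN, hcN⟩ := MixM_c hV hK
    have hN' : (0 : ℝ) < N0 := by exact_mod_cast hN
    have hn1 : 1 ≤ V.card := hV.card_pos
    have hX : ok Y a (V, ∅) := by
      refine ⟨⟨?_, ?_, ?_⟩, hT⟩
      · intro B hB
        exact absurd hB (Finset.notMem_empty _)
      · intro B hB
        exact absurd hB (Finset.notMem_empty _)
      · intro B hB
        exact absurd hB (Finset.notMem_empty _)
    have hth' : ∀ k, 1 ≤ (if 3 ≤ k then th k else 1 : ℝ) := by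
      intro k
      split_ifs with h
      · exact hth k h
      · exact le_rfl
    have hL' : LOC Y a (fun k => if 3 ≤ k then th k else 1) := by
      intro X hX h3 ψ
      have h := hL X hX h3 ψ
      simp only [if_pos h3]
      exact h
    have hS := MixM_sub (ok2 := fun X => (ok Y a X ∧ X.1.card ≤ V.card) ∧ In V X)
      (sys hY ha hth' hL' V.card) (fun X hX => hX.1) (fun X hX Z hZ =>
        ⟨(sys hY ha hth' hL' V.card).ok' X hX.1 Z hZ, MixM_In hX.2 hZ⟩)
    rw [MixM_prod] at hS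
    obtain ⟨e1, e2, e3, e4, e5⟩ := Fl_path hY ha V.card hX rfl hl0
    have hcp := hK.cpos
    have hM := MixM_one hth V.card
    have h1 := mix (kap := kapF Y a kap ksw N0) hS ?_ (kapF_nn hY ha hK) ?_ (c := c * N0) (mul_pos hcp hN') hcN ?_ hn1
      (X := (V, ∅)) ⟨⟨hX, le_rfl⟩, le_rfl, fun B hB => absurd hB (Finset.notMem_empty _)⟩ rfl
      (b := 1 / (N0 : ℝ)) (by positivity) ?_ (fun s => F (encs (V, ∅) s)) (fun _ _ => hF _) e2 (e4 ▸ e5) t
    · rw [MixM_link2 hY ha hK hN F hX rfl t _ e2, e3, ExL_eq hY ha V.card (V, ∅) hX rfl, e4, le_div_iff₀ e5] at h1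
      have h2 : 1 / (N0 : ℝ) * (c * N0) / (24 * V.card * (V.card + 1) * ∏ k ∈ Finset.Icc 3 V.card, th k) =
          1 / CM th c V.card := by
        unfold CM
        have h3 : (0 : ℝ) < V.card := by exact_mod_cast hn1
        have h4 : (0 : ℝ) < ∏ k ∈ Finset.Icc 3 V.card, th k := by linarith
        field_simp
      rw [h2] at h1
      rw [mul_comm]
      exact h1
    · intro X hX h5 Z hZ Z' hZ'
      have h6 : ∀ Z ∈ cov Y a X, Z = (∅, ∅) := by
        intro Z hZ
        obtain ⟨l, hl, _, rfl⟩ := mem_cov.1 hZ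
        have h5' : X.1.card = 1 := h5
        have h7 := (lts_one (by omega)).1 hl
        obtain ⟨u, hu⟩ := Finset.card_eq_one.1 h5'
        have h8 : l.1 = u := by
          have h9 := h7.1
          rw [hu] at h9
          exact Finset.mem_singleton.1 h9
        unfold nx
        rw [h7.2, h8, hu]
        simp
      rw [h6 Z hZ, h6 Z' hZ']
    · intro X hX Z hZ W hW
      exact kapF_up hY ha hK hX.1.1 hX.2 hN hZ hW
    · intro X hX Z hZ W hW
      exact kapF_low hY ha hK hX.1.1 hX.2 hN hZ hW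
    · have h5 : (V.card : ℝ) ≤ N0 := by exact_mod_cast hK.card
      rw [one_div, inv_mul_le_iff₀ hN', mul_one]
      exact h5

theorem CM_ge {Y : ℕ → ℕ → ℝ} {a : ℝ} {th : ℕ → ℝ} (hth : ∀ k, 3 ≤ k → 1 ≤ th k) {kap : Kap} {ksw c : ℝ} {N0 : ℕ}
    {V : Finset ℕ} (hV : V.Nonempty) (hK : KOK Y a kap ksw c N0 V) : 1 ≤ CM th c V.card := by
  obtain ⟨hN, hcN⟩ := MixM_c hV hK
  have hN' : (1 : ℝ) ≤ N0 := by exact_mod_cast hN
  have hcp := hK.cpos
  have hc1 : c ≤ 1 := by nlinarith
  have hn1 : (1 : ℝ) ≤ V.card := by exact_mod_cast hV.card_pos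
  have hM := MixM_one hth V.card
  unfold CM
  rw [le_div_iff₀ hcp, one_mul]
  have h1 : (1 : ℝ) ≤ 24 * V.card * (V.card + 1) := by nlinarith
  have h2 : (1 : ℝ) ≤ 24 * V.card * (V.card + 1) * ∏ k ∈ Finset.Icc 3 V.card, th k :=
    one_le_mul_of_one_le_of_one_le h1 hM
  linarith

end BSI
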