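import Pool.Agent.BSI.Jn

/-!
# BSI-Two: two insertions commute, and the partition function is the insertion of any vertex

PLAN. `ins_comm`. Case `X.1.card = 2`: `X.1 = {t, s}`, the state after the first vertex has `Z.1 = {s}`, so `ins_one` applies: the left side is
`(∑ C ∈ P.powerset, cc t C * (cc s (insert (blk t C) (P \ C)) + a * cc s (P \ C))) * F (∅, ∅)` and `cc s (insert (blk t C) (P \ C)) = (1 - yb Y s (blk t C)) * cc s (P \ C)` (`blk_notMem`): this is
`js Y t s P + a * ∏ B ∈ P, ((1 - yb Y t B) + (1 - yb Y s B))` by `Finset.prod_add`; use `js_symm`. Case `3 ≤ X.1.card`: `ins_two` twice. Let `P = X.2`, `R = (X.1.erase t).erase s`. For `f = false` the blocks after `t` are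
`insert (blk t C) (P \ C)`: split the powerset with `Finset.sum_powerset_insert` into the subsets without and with `blk t C`. Show that the left side is
`∑ C ∈ P.powerset, ∑ C' ∈ (P \ C).powerset, cc t C * cc s C' * (G2 C C' + (1 - yb Y s (blk t C)) * G1 (C ∪ C'))`, where
`G2 C C' = F (R, insert (blk s C') (insert (blk t C) ((P \ C) \ C'))) + a * F (R, insert (blk t C) ((P \ C) \ C')) + a * F (R, insert (blk s C') ((P \ C) \ C')) + a ^ 2 * F (R, (P \ C) \ C')` and
`G1 D = F (R, insert (insert s (insert t (D.biUnion id))) (P \ D)) + a * F (R, P \ D)` (both are symmetric in `(t, C)`, `(s, C')`). The pairs of disjoint subsets: `Finset.sum_comm'` for the `G2` part; for the `G1` part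
regroup by `D = C ∪ C'` (`Finset.sum_sigma'` and `Finset.sum_nbij'`, `(C, C') ↦ (C ∪ C', C)`, or the private lemma `∑ C ∈ P.powerset, ∑ C' ∈ (P \ C).powerset, g C C' = ∑ D ∈ P.powerset, ∑ C ∈ D.powerset, g C (D \ C)`), then `js_symm`.
`T_ins`: strong induction on `X.1.card`. One vertex: `T_sum_ins`. Otherwise `T X = (∑ t' ∈ X.1, ins t' T X) / card` (`T_sum_ins`) and for `t' ≠ t`: `ins t' T X = ins t' (ins t T) X` (`ins_congr` and
the induction hypothesis for `nx X l`, `card_nx`, `Wf_nx`, `t ∈ (nx X l).1`) `= ins t (ins t' T) X` (`ins_comm`) `= ins t T X` (again the induction hypothesis, with `t'`).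
-/

set_option autoImplicit false

namespace BSI

open Finset ACY

variable {Y : ℕ → ℕ → ℝ} {a : ℝ} {X : St}

private theorem Two_group {P : Finset (Finset ℕ)} (g : Finset (Finset ℕ) → Finset (Finset ℕ) → ℝ) :
    ∑ C ∈ P.powerset, ∑ C' ∈ (P \ C).powerset, g C C' =
      ∑ D ∈ P.powerset, ∑ C ∈ D.powerset, g C (D \ C) := by
  rw [Finset.sum_sigma', Finset.sum_sigma']
  refine Finset.sum_bij' (fun x _ => ⟨x.1 ∪ x.2, x.1⟩) (fun x _ => ⟨x.2, x.1 \ x.2⟩) ?_ ?_ ?_ ?_ ?_
  · rintro ⟨C, C'⟩ h
    simp only [Finset.mem_sigma, Finset.mem_powerset] at h ⊢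
    exact ⟨Finset.union_subset h.1 (h.2.trans Finset.sdiff_subset), Finset.subset_union_left⟩
  · rintro ⟨D, C⟩ h
    simp only [Finset.mem_sigma, Finset.mem_powerset] at h ⊢
    exact ⟨h.2.trans h.1, Finset.sdiff_subset_sdiff h.1 (Finset.Subset.refl C)⟩
  · rintro ⟨C, C'⟩ h
    simp only [Finset.mem_sigma, Finset.mem_powerset] at h
    have hd : Disjoint C' C := Finset.disjoint_of_subset_left h.2 Finset.sdiff_disjoint
    have h1 : (C ∪ C') \ C = C' := by
      rw [Finset.union_sdiff_left, Finset.sdiff_eq_self_of_disjoint hd]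
    simp only [h1]
  · rintro ⟨D, C⟩ h
    simp only [Finset.mem_sigma, Finset.mem_powerset] at h
    have h1 : C ∪ D \ C = D := Finset.union_sdiff_of_subset h.2
    simp only [h1]
  · rintro ⟨C, C'⟩ h
    simp only [Finset.mem_sigma, Finset.mem_powerset] at h
    have hd : Disjoint C' C := Finset.disjoint_of_subset_left h.2 Finset.sdiff_disjoint
    have h1 : (C ∪ C') \ C = C' := by
      rw [Finset.union_sdiff_left, Finset.sdiff_eq_self_of_disjoint hd]
    simp only [h1]

private theorem Two_swap {P : Finset (Finset ℕ)} (g : Finset (Finset ℕ) → Finset (Finset ℕ) → ℝ) :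
    ∑ C ∈ P.powerset, ∑ C' ∈ (P \ C).powerset, g C C' =
      ∑ C' ∈ P.powerset, ∑ C ∈ (P \ C').powerset, g C C' := by
  refine Finset.sum_comm' fun C C' => ?_
  simp only [Finset.mem_powerset, Finset.subset_sdiff]
  constructor
  · rintro ⟨h1, h2, h3⟩
    exact ⟨⟨h1, h3.symm⟩, h2⟩
  · rintro ⟨⟨h1, h2⟩, h3⟩
    exact ⟨h1, h3, h2.symm⟩

/-- the common block of `t`, `s` and the pieces `D` -/
private def Two_J (t s : ℕ) (D : Finset (Finset ℕ)) : Finset ℕ := insert s (insert t (D.biUnion id))

private theorem Two_J_symm (t s : ℕ) (D : Finset (Finset ℕ)) : Two_J t s D = Two_J s t D := by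
  unfold Two_J
  exact Finset.insert_comm _ _ _

private theorem Two_blk (t s : ℕ) (C C' : Finset (Finset ℕ)) :
    blk s (insert (blk t C) C') = Two_J t s (C ∪ C') := by
  unfold blk Two_J
  rw [Finset.biUnion_insert, Finset.union_biUnion, id_eq, Finset.insert_union]

/-- the terms with two blocks, or with blocks on the root -/
private noncomputable def Two_G2 (a : ℝ) (R : Finset ℕ) (P : Finset (Finset ℕ)) (F : St → ℝ) (t s : ℕ)
    (C C' : Finset (Finset ℕ)) : ℝ :=
  F (R, insert (blk s C') (insert (blk t C) (P \ (C ∪ C')))) + a * F (R, insert (blk t C) (P \ (C ∪ C'))) +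
    a * F (R, insert (blk s C') (P \ (C ∪ C'))) + a ^ 2 * F (R, P \ (C ∪ C'))

private theorem Two_G2_symm (R : Finset ℕ) (P : Finset (Finset ℕ)) (F : St → ℝ) (t s : ℕ)
    (C C' : Finset (Finset ℕ)) : Two_G2 a R P F t s C C' = Two_G2 a R P F s t C' C := by
  unfold Two_G2
  rw [Finset.union_comm C' C, Finset.insert_comm (blk t C) (blk s C')]
  ring

/-- the terms with one block -/
private noncomputable def Two_G1 (a : ℝ) (R : Finset ℕ) (P : Finset (Finset ℕ)) (F : St → ℝ) (t s : ℕ)
    (D : Finset (Finset ℕ)) : ℝ :=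
  F (R, insert (Two_J t s D) (P \ D)) + a * F (R, P \ D)

private theorem Two_expand (hX : Wf X) (hc : 3 ≤ X.1.card) {t s : ℕ} (ht : t ∈ X.1) (hs : s ∈ X.1) (hne : t ≠ s)
    (F : St → ℝ) : ins Y a t (fun Z => ins Y a s F Z) X =
      (∑ C ∈ X.2.powerset, ∑ C' ∈ (X.2 \ C).powerset,
        cc Y t C * cc Y s C' * Two_G2 a ((X.1.erase t).erase s) X.2 F t s C C') +
      ∑ D ∈ X.2.powerset, js Y t s D * Two_G1 a ((X.1.erase t).erase s) X.2 F t s D := by
  have hg : ∑ D ∈ X.2.powerset, js Y t s D * Two_G1 a ((X.1.erase t).erase s) X.2 F t s D =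
      ∑ C ∈ X.2.powerset, ∑ C' ∈ (X.2 \ C).powerset,
        cc Y t C * cc Y s C' * (1 - yb Y s (blk t C)) *
          Two_G1 a ((X.1.erase t).erase s) X.2 F t s (C ∪ C') := by
    rw [Two_group]
    refine Finset.sum_congr rfl fun D _ => ?_
    unfold js
    rw [Finset.sum_mul]
    refine Finset.sum_congr rfl fun C hC => ?_
    rw [Finset.union_sdiff_of_subset (Finset.mem_powerset.1 hC)]
  rw [hg, ← Finset.sum_add_distrib, ins_two (by omega) ht]
  refine Finset.sum_congr rfl fun C hC => ?_
  have hC' := Finset.mem_powerset.1 hC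
  rw [← Finset.sum_add_distrib]
  have hcard : (X.1.erase t).card + 1 = X.1.card := Finset.card_erase_add_one ht
  have hsm : s ∈ X.1.erase t := Finset.mem_erase.2 ⟨hne.symm, hs⟩
  have hb := blk_notMem hX ht C
  have hb' : blk t C ∉ X.2 \ C := fun h => hb (Finset.mem_sdiff.1 h).1
  have h1 : ins Y a s F (nx X (t, (C, false))) =
      ∑ C' ∈ (X.2 \ C).powerset, (cc Y s C' *
        (F ((X.1.erase t).erase s, insert (blk s C') (insert (blk t C) (X.2 \ (C ∪ C')))) +
          a * F ((X.1.erase t).erase s, insert (blk t C) (X.2 \ (C ∪ C')))) +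
        cc Y s C' * (1 - yb Y s (blk t C)) *
          Two_G1 a ((X.1.erase t).erase s) X.2 F t s (C ∪ C')) := by
    have h2 : nx X (t, (C, false)) = (X.1.erase t, insert (blk t C) (X.2 \ C)) := rfl
    rw [h2, ins_two (by simp only []; omega) hsm, Finset.sum_powerset_insert hb', ← Finset.sum_add_distrib]
    refine Finset.sum_congr rfl fun C' hC1 => ?_
    have hC2 := Finset.mem_powerset.1 hC1
    have hb2 : blk t C ∉ C' := fun h => hb' (hC2 h)
    have e1 : insert (blk t C) (X.2 \ C) \ C' = insert (blk t C) (X.2 \ (C ∪ C')) := by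
      rw [Finset.insert_sdiff_of_notMem _ hb2, Finset.sdiff_sdiff_left']
      congr 1
      ext x
      simp only [Finset.mem_inter, Finset.mem_sdiff, Finset.mem_union, not_or]
      tauto
    have e2 : insert (blk t C) (X.2 \ C) \ insert (blk t C) C' = X.2 \ (C ∪ C') := by
      ext x
      simp only [Finset.mem_sdiff, Finset.mem_insert, Finset.mem_union, not_or]
      constructor
      · rintro ⟨h3, h4, h5⟩
        rcases h3 with h3 | h3
        · exact absurd h3 h4
        · exact ⟨h3.1, h3.2, h5⟩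
      · rintro ⟨h3, h4, h5⟩
        refine ⟨Or.inr ⟨h3, h4⟩, ?_, h5⟩
        rintro rfl
        exact hb h3
    have e3 : cc Y s (insert (blk t C) C') = (1 - yb Y s (blk t C)) * cc Y s C' := by
      unfold cc
      exact Finset.prod_insert hb2
    have n1 : nx (X.1.erase t, insert (blk t C) (X.2 \ C)) (s, (C', false)) =
        ((X.1.erase t).erase s, insert (blk s C') (insert (blk t C) (X.2 \ (C ∪ C')))) := by
      rw [← e1]
      rfl
    have n2 : nx (X.1.erase t, insert (blk t C) (X.2 \ C)) (s, (C', true)) =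
        ((X.1.erase t).erase s, insert (blk t C) (X.2 \ (C ∪ C'))) := by
      rw [← e1]
      rfl
    have n3 : nx (X.1.erase t, insert (blk t C) (X.2 \ C)) (s, (insert (blk t C) C', false)) =
        ((X.1.erase t).erase s, insert (Two_J t s (C ∪ C')) (X.2 \ (C ∪ C'))) := by
      rw [← e2, ← Two_blk]
      rfl
    have n4 : nx (X.1.erase t, insert (blk t C) (X.2 \ C)) (s, (insert (blk t C) C', true)) =
        ((X.1.erase t).erase s, X.2 \ (C ∪ C')) := by
      rw [← e2]
      rfl
    rw [n1, n2, n3, n4, e3]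
    unfold Two_G1
    ring
  have h3 : ins Y a s F (nx X (t, (C, true))) =
      ∑ C' ∈ (X.2 \ C).powerset, cc Y s C' *
        (F ((X.1.erase t).erase s, insert (blk s C') (X.2 \ (C ∪ C'))) +
          a * F ((X.1.erase t).erase s, X.2 \ (C ∪ C'))) := by
    have h2 : nx X (t, (C, true)) = (X.1.erase t, X.2 \ C) := rfl
    rw [h2, ins_two (by simp only []; omega) hsm]
    refine Finset.sum_congr rfl fun C' _ => ?_
    have e1 : (X.2 \ C) \ C' = X.2 \ (C ∪ C') := by
      ext x
      simp only [Finset.mem_sdiff, Finset.mem_union, not_or]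
      tauto
    have n1 : nx (X.1.erase t, X.2 \ C) (s, (C', false)) =
        ((X.1.erase t).erase s, insert (blk s C') (X.2 \ (C ∪ C'))) := by
      rw [← e1]
      rfl
    have n2 : nx (X.1.erase t, X.2 \ C) (s, (C', true)) =
        ((X.1.erase t).erase s, X.2 \ (C ∪ C')) := by
      rw [← e1]
      rfl
    rw [n1, n2]
  show cc Y t C * (ins Y a s F (nx X (t, (C, false))) + a * ins Y a s F (nx X (t, (C, true)))) = _
  rw [h1, h3, Finset.mul_sum, ← Finset.sum_add_distrib, Finset.mul_sum]
  refine Finset.sum_congr rfl fun C' _ => ?_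
  unfold Two_G2
  ring

private theorem Two_small (hX : Wf X) {t s : ℕ} (ht : t ∈ X.1) (hne : t ≠ s) (hR : X.1 = {t, s})
    (F : St → ℝ) : ins Y a t (fun Z => ins Y a s F Z) X =
      (js Y t s X.2 + a * ∏ B ∈ X.2, ((1 - yb Y t B) + (1 - yb Y s B))) * F (∅, ∅) := by
  have hc : X.1.card = 2 := by rw [hR, Finset.card_pair hne]
  have hRe : X.1.erase t = {s} := by
    rw [hR]
    ext x
    simp only [Finset.mem_erase, Finset.mem_insert, Finset.mem_singleton]
    constructor
    · rintro ⟨h1, h2 | h2⟩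
      · exact absurd h2 h1
      · exact h2
    · intro h
      exact ⟨fun h2 => hne (h2.symm.trans h), Or.inr h⟩
  rw [ins_two hc.ge ht, Finset.prod_add, add_mul, Finset.mul_sum, Finset.sum_mul]
  unfold js
  rw [Finset.sum_mul, ← Finset.sum_add_distrib]
  refine Finset.sum_congr rfl fun C hC => ?_
  have hb := blk_notMem hX ht C
  have hb' : blk t C ∉ X.2 \ C := fun h => hb (Finset.mem_sdiff.1 h).1
  have h1 : ins Y a s F (nx X (t, (C, false))) = cc Y s (insert (blk t C) (X.2 \ C)) * F (∅, ∅) :=
    ins_one (X := nx X (t, (C, false))) hRe F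
  have h2 : ins Y a s F (nx X (t, (C, true))) = cc Y s (X.2 \ C) * F (∅, ∅) :=
    ins_one (X := nx X (t, (C, true))) hRe F
  have e3 : cc Y s (insert (blk t C) (X.2 \ C)) = (1 - yb Y s (blk t C)) * cc Y s (X.2 \ C) := by
    unfold cc
    exact Finset.prod_insert hb'
  show cc Y t C * (ins Y a s F (nx X (t, (C, false))) + a * ins Y a s F (nx X (t, (C, true)))) = _
  rw [h1, h2, e3]
  unfold cc
  ring

/-- two insertions commute -/
theorem ins_comm (hY : ∀ u v, Y u v = Y v u) (hX : Wf X) {t s : ℕ} (ht : t ∈ X.1) (hs : s ∈ X.1) (hne : t ≠ s)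
    (F : St → ℝ) : ins Y a t (fun Z => ins Y a s F Z) X = ins Y a s (fun Z => ins Y a t F Z) X := by
  have h2 : 2 ≤ X.1.card := by
    have h3 : ({t, s} : Finset ℕ) ⊆ X.1 := by
      intro x hx
      rcases Finset.mem_insert.1 hx with h | h
      · exact h ▸ ht
      · exact (Finset.mem_singleton.1 h) ▸ hs
    have h4 := Finset.card_le_card h3
    rwa [Finset.card_pair hne] at h4
  rcases Nat.lt_or_ge X.1.card 3 with hc | hc
  · have hR : X.1 = {t, s} := by
      symm
      refine Finset.eq_of_subset_of_card_le ?_ ?_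
      · intro x hx
        rcases Finset.mem_insert.1 hx with h | h
        · exact h ▸ ht
        · exact (Finset.mem_singleton.1 h) ▸ hs
      · rw [Finset.card_pair hne]
        omega
    have hR' : X.1 = {s, t} := by rw [hR, Finset.pair_comm]
    rw [Two_small hX ht hne hR, Two_small hX hs hne.symm hR',
      js_symm hY hX ht hs (Finset.Subset.refl X.2)]
    congr 3
    exact Finset.prod_congr rfl fun B _ => by ring
  · rw [Two_expand hX hc ht hs hne, Two_expand hX hc hs ht hne.symm, Two_swap,
      Finset.erase_right_comm]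
    congr 1
    · refine Finset.sum_congr rfl fun C' _ => Finset.sum_congr rfl fun C _ => ?_
      rw [Two_G2_symm]
      ring
    · refine Finset.sum_congr rfl fun D hD => ?_
      rw [js_symm hY hX ht hs (Finset.mem_powerset.1 hD)]
      unfold Two_G1
      rw [Two_J_symm]

/-- every vertex can be inserted first -/
theorem T_ins (hY : ∀ u v, Y u v = Y v u) (hX : Wf X) {t : ℕ} (ht : t ∈ X.1) : T Y a X = ins Y a t (T Y a) X := by
  obtain ⟨n, hn⟩ : ∃ n, X.1.card = n := ⟨_, rfl⟩
  induction n using Nat.strong_induction_on generalizing X t with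
  | _ n ih =>
    have hne : X.1.Nonempty := ⟨t, ht⟩
    have hall : ∀ t' ∈ X.1, ins Y a t' (T Y a) X = ins Y a t (T Y a) X := by
      intro t' ht'
      by_cases htt : t' = t
      · rw [htt]
      · have e1 : ins Y a t' (T Y a) X = ins Y a t' (fun Z => ins Y a t (T Y a) Z) X := by
          refine ins_congr fun l hl hlt => ?_
          have hc := card_nx hl
          refine ih _ (by omega) (Wf_nx hX hl) ?_ rfl
          exact Finset.mem_erase.2 ⟨fun h => htt (hlt.symm.trans h.symm), ht⟩
        have e2 : ins Y a t (T Y a) X = ins Y a t (fun Z => ins Y a t' (T Y a) Z) X := by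
          refine ins_congr fun l hl hlt => ?_
          have hc := card_nx hl
          refine ih _ (by omega) (Wf_nx hX hl) ?_ rfl
          exact Finset.mem_erase.2 ⟨fun h => htt (h.trans hlt), ht'⟩
        rw [e1, e2]
        exact ins_comm hY hX ht' ht htt _
    have hc : (X.1.card : ℝ) ≠ 0 := by
      have := hne.card_pos
      exact_mod_cast this.ne'
    rw [T_sum_ins hne, Finset.sum_congr rfl hall, Finset.sum_const, nsmul_eq_mul]
    field_simp

end BSI
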