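import Pool.Agent.BSI.FpTop
import Pool.Agent.BSI.MixM
import Pool.Agent.BSI.Two
import Pool.Agent.BSI.KapK

/-!
# BSI machine layer, Fin: the estimate from the local variance inequality
-/

set_option autoImplicit false

namespace BSI.M

open ACY ACY.M

theorem YE_abs {p q : ℕ} (hpq : p < q) (E : List (ℕ × ℕ)) (u v : ℕ) : |YE p q E u v| ≤ 1 := by
  have h := lab_YE hpq E
  rcases h.gap u v with h1 | h1
  · rw [h1, abs_one]
  · have := h.pos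
    linarith

theorem aR_nonneg (a1 a2 : ℕ) : 0 ≤ aR a1 a2 := by
  unfold aR
  positivity

theorem hi_all {p q : ℕ} (a1 a2 : ℕ) : Hi p q a1 a2 :=
  fun E _ hW _ ht => T_ins (YE_symm p q E) hW ht

theorem mx_of_loc {p q a1 a2 : ℕ} (hpq : p < q) (ha2 : 0 < a2) {th : ℕ → ℝ} (hth : ∀ k, 1 ≤ th k)
    (hL : ∀ E : List (ℕ × ℕ), LOC (YE p q E) (aR a1 a2) th) : Mx p q a1 a2 th :=
  fun _ E _ _ hG _ hT hb hc =>
    mixL (YE_abs hpq E) (aR_nonneg a1 a2) (fun k _ => hth k) (hL E) (kok hpq ha2 hG hb hc) hT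

/-- the estimate is close to the partition function for three quarters of the bit strings -/
theorem est_fin {p q a1 a2 D t : ℕ} {th : ℕ → ℝ} (hpq : p < q) (ha2 : 0 < a2) (hth : ∀ k, 1 ≤ th k)
    (hD : ∀ n : ℕ, 1 ≤ n → ∏ k ∈ Finset.Icc 3 n, th k ≤ D * (n : ℝ) ^ D)
    (hL : ∀ E : List (ℕ × ℕ), LOC (YE p q E) (aR a1 a2) th) {V : List ℕ} {E : List (ℕ × ℕ)} (hG : Gr V E)
    (hV : V ≠ []) (hn : V.length ≤ t) (hE : E.length ≤ t) (h0 : 0 < tauM p q a1 a2 V E) {N : ℕ}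
    (hN : (qR (a1 + a2) q D).eval t ≤ N) :
    ACY.M.pr N (fun l => ¬ ((estT p q a1 a2 D t V E l).2 ≠ 0 ∧
      RC (1 / t) (((estT p q a1 a2 D t V E l).1 : ℝ) / (estT p q a1 a2 D t V E l).2) (tauM p q a1 a2 V E))) ≤ 1 / 4 :=
  est_rand hpq ha2 hth hD (mx_of_loc hpq ha2 hth hL) (hi_all a1 a2) hG hV hn hE h0 hN

/-- the hypothesis: the local variance inequality for all powers of `-p / q` as labels, with a polynomial bound of the
product of the constants -/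
def LocH (p q a1 a2 : ℕ) : Prop :=
  ∃ (D : ℕ) (th : ℕ → ℝ), (∀ k, 3 ≤ k → 1 ≤ th k) ∧
    (∀ n : ℕ, ∏ k ∈ Finset.Icc 3 n, th k ≤ D * ((n : ℝ) + 1) ^ D) ∧
    ∀ Y : ℕ → ℕ → ℝ, (∀ u v, Y u v = Y v u) → (∀ u v, ∃ j : ℕ, Y u v = (-(p : ℝ) / q) ^ j) → LOC Y (aR a1 a2) th

theorem LocH.norm {p q a1 a2 : ℕ} (h : LocH p q a1 a2) :
    ∃ (D : ℕ) (th : ℕ → ℝ), (∀ k, 1 ≤ th k) ∧ (∀ n : ℕ, 1 ≤ n → ∏ k ∈ Finset.Icc 3 n, th k ≤ D * (n : ℝ) ^ D) ∧
      ∀ E : List (ℕ × ℕ), LOC (YE p q E) (aR a1 a2) th := by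
  obtain ⟨D, th, h1, h2, h3⟩ := h
  refine ⟨D * 2 ^ D, fun k => if 3 ≤ k then th k else 1, ?_, ?_, ?_⟩
  · intro k
    show 1 ≤ if 3 ≤ k then th k else (1 : ℝ)
    split_ifs with h
    · exact h1 k h
    · exact le_rfl
  · intro n hn
    have hn' : (1 : ℝ) ≤ n := by exact_mod_cast hn
    have e1 : ∏ k ∈ Finset.Icc 3 n, (fun k => if 3 ≤ k then th k else (1 : ℝ)) k = ∏ k ∈ Finset.Icc 3 n, th k := by
      refine Finset.prod_congr rfl fun k hk => ?_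
      show (if 3 ≤ k then th k else (1 : ℝ)) = th k
      rw [if_pos (Finset.mem_Icc.1 hk).1]
    have e2 : 1 ≤ ∏ k ∈ Finset.Icc 3 n, th k :=
      Finset.prod_induction _ (fun x => (1 : ℝ) ≤ x) (fun x y hx hy => one_le_mul_of_one_le_of_one_le hx hy) le_rfl
        fun k hk => h1 k (Finset.mem_Icc.1 hk).1
    have e3 : 0 < D := by
      rcases Nat.eq_zero_or_pos D with h | h
      · have h4 := h2 n
        rw [h, Nat.cast_zero, zero_mul] at h4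
        linarith
      · exact h
    have e4 : D ≤ D * 2 ^ D := Nat.le_mul_of_pos_right _ (by positivity)
    rw [e1]
    calc ∏ k ∈ Finset.Icc 3 n, th k ≤ D * ((n : ℝ) + 1) ^ D := h2 n
      _ ≤ D * (2 * (n : ℝ)) ^ D := by
        have : (n : ℝ) + 1 ≤ 2 * n := by linarith
        gcongr
      _ = ((D * 2 ^ D : ℕ) : ℝ) * (n : ℝ) ^ D := by
        push_cast
        rw [mul_pow]
        ring
      _ ≤ ((D * 2 ^ D : ℕ) : ℝ) * (n : ℝ) ^ (D * 2 ^ D) := by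
        gcongr
  · intro E X hX hc ψ
    have h4 := h3 (YE p q E) (YE_symm p q E) (fun u v => ⟨_, rfl⟩) X hX hc ψ
    show _ ≤ (if 3 ≤ X.1.card then th X.1.card else (1 : ℝ)) * _
    rw [if_pos hc]
    exact h4

end BSI.M
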