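import Pool.Agent.BSI.TutM

/-!
# BSI-PosM (F3): the partition function of a connected graph is positive

`tauM_pos`: strong induction on `V.length`: if `E = []` and the graph is connected then `V` has one element
(`V.Nodup`) and `tauM_nil` gives `1`. If `E = e :: E'`: `tauM_dc`, `tauM_nonneg`, `1 - (-p/q) ^ j > 0` for `j ≥ 1` (`eb_ne`),
and `tauM (conV ..) (conE ..) > 0` by induction (`Gr.con`, `conV_length`): the contraction is connected (image under
`φ v = u`, `φ x = x` otherwise: an edge of `E` is mapped to an edge of `conE` or to a pair of equal vertices).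
`con_nl`: `comps G univ = 1` gives that all vertices are in one class of the equivalence relation generated by
`adj G univ`; loops are not needed for connectivity.
-/

set_option autoImplicit false

namespace BSI.M

open Finset Pool.Agent.Helper47.TR

/-- the list of edges connects the vertices -/
def Con (V : List ℕ) (E : List (ℕ × ℕ)) : Prop :=
  ∀ u ∈ V, ∀ v ∈ V, Relation.ReflTransGen (fun a b => ∃ e ∈ E, (e.1 = a ∧ e.2 = b) ∨ (e.1 = b ∧ e.2 = a)) u v

private theorem posM_con {V : List ℕ} {E : List (ℕ × ℕ)} (s t : ℕ) (hC : Con V E) :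
    Con (conV t V) (conE s t E) := by
  intro u hu v hv
  obtain ⟨hu1, hu2⟩ := List.mem_filter.1 hu
  obtain ⟨hv1, hv2⟩ := List.mem_filter.1 hv
  have hu3 : u ≠ t := by simpa using hu2
  have hv3 : v ≠ t := by simpa using hv2
  have h1 := hC u hu1 v hv1
  obtain ⟨φ, hφ⟩ : ∃ φ : ℕ → ℕ, ∀ x, φ x = if x == t then s else x := ⟨_, fun _ => rfl⟩
  have h2 : Relation.ReflTransGen (fun a b => ∃ e ∈ conE s t E, (e.1 = a ∧ e.2 = b) ∨ (e.1 = b ∧ e.2 = a))
      (φ u) (φ v) := by
    refine Relation.ReflTransGen.lift' φ ?_ u v h1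
    rintro a b ⟨f, hf, hfab⟩
    show Relation.ReflTransGen _ (φ a) (φ b)
    by_cases hi : isE s t f = true
    · have h3 : φ f.1 = φ f.2 := by
        unfold isE at hi
        simp only [Bool.or_eq_true, Bool.and_eq_true, beq_iff_eq] at hi
        rw [hφ, hφ]
        rcases hi with ⟨h4, h5⟩ | ⟨h4, h5⟩
        · rw [h4, h5]
          simp
        · rw [h4, h5]
          simp
      rcases hfab with ⟨h4, h5⟩ | ⟨h4, h5⟩
      · rw [← h4, ← h5, h3]
      · rw [← h4, ← h5, h3]
    · have h3 : (φ f.1, φ f.2) ∈ conE s t E := by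
        unfold conE
        refine List.mem_map.2 ⟨f, List.mem_filter.2 ⟨hf, ?_⟩, ?_⟩
        · simpa using hi
        · rw [hφ, hφ]
      refine Relation.ReflTransGen.single ⟨_, h3, ?_⟩
      rcases hfab with ⟨h4, h5⟩ | ⟨h4, h5⟩
      · left
        rw [h4, h5]
        exact ⟨rfl, rfl⟩
      · right
        rw [h4, h5]
        exact ⟨rfl, rfl⟩
  have h3 : φ u = u := by
    rw [hφ]
    simp [hu3]
  have h4 : φ v = v := by
    rw [hφ]
    simp [hv3]
  rwa [h3, h4] at h2

private theorem posM_aux {p q a1 a2 : ℕ} (hpq : p < q) (n : ℕ) : ∀ {V : List ℕ} {E : List (ℕ × ℕ)},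
    V.length ≤ n → Gr V E → V ≠ [] → Con V E → 0 < tauM p q a1 a2 V E := by
  induction n with
  | zero =>
    intro V E hn hG hV hC
    exact absurd (List.length_eq_zero_iff.1 (Nat.le_zero.1 hn)) hV
  | succ n ih =>
    intro V E hn hG hV hC
    cases E with
    | nil =>
      have h1 : V.length = 1 := by
        rcases V with _ | ⟨a, _ | ⟨b, V⟩⟩
        · exact absurd rfl hV
        · rfl
        · exfalso
          have hab : a ≠ b := by
            intro h
            have := hG.1
            rw [h] at this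
            simp at this
          have h2 := hC a (by simp) b (by simp)
          rcases Relation.ReflTransGen.cases_head h2 with h3 | ⟨c, ⟨e, he, _⟩, _⟩
          · exact hab h3
          · simp at he
      rw [tauM_nil p q a1 a2 hG.1 hV, h1]
      simp
    | cons e E =>
      obtain ⟨h1, h2, h3⟩ := hG.2 e (by simp)
      rw [tauM_dc hpq hG]
      have h4 : 0 < tauM p q a1 a2 (conV e.2 V) (conE e.1 e.2 (e :: E)) := by
        apply ih
        · have := conV_length hG.1 h2
          omega
        · exact hG.con h1 h3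
        · exact conV_ne h1 h3
        · exact posM_con e.1 e.2 hC
      have h5 : 0 ≤ tauM p q a1 a2 V (delE e.1 e.2 (e :: E)) := tauM_nonneg hpq _ _
      have h6 : 0 < 1 - (-(p : ℝ) / q) ^ (eb (e :: E) e.1 [e.2]).length := by
        have h7 := wE_pos hpq (eb_ne e E)
        have h8 : (0 : ℝ) < (wE p q (e :: E) e.1 [e.2] : ℝ) := by exact_mod_cast h7
        rw [wE_cast hpq] at h8
        exact pos_of_mul_pos_right h8 (by positivity)
      have h9 := mul_pos h6 h4
      linarith

theorem tauM_pos {p q a1 a2 : ℕ} (hpq : p < q) {V : List ℕ} {E : List (ℕ × ℕ)} (hG : Gr V E) (hV : V ≠ [])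
    (hC : Con V E) : 0 < tauM p q a1 a2 V E :=
  posM_aux hpq V.length le_rfl hG hV hC

theorem con_nl {G : MG} (hG : Valid G) (hc : comps G Finset.univ = 1) : Con (List.range G.1.length) (nl G.2) := by
  have h1 : ∀ a b : Fin G.1.length, Relation.EqvGen (Pool.Agent.Helper47.TR.adj G Finset.univ) a b →
      Relation.ReflTransGen (fun a b => ∃ e ∈ nl G.2, (e.1 = a ∧ e.2 = b) ∨ (e.1 = b ∧ e.2 = a))
        (a : ℕ) (b : ℕ) := by
    intro a b h
    induction h with
    | rel x y h =>
      obtain ⟨i, -, h2, h3⟩ := h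
      by_cases hxy : (x : ℕ) = y
      · rw [hxy]
      · refine Relation.ReflTransGen.single ⟨G.2.get i, ?_, Or.inl ⟨h2, h3⟩⟩
        unfold nl
        refine List.mem_filter.2 ⟨List.get_mem _ _, ?_⟩
        rw [h2, h3]
        simpa using hxy
    | refl x => exact Relation.ReflTransGen.refl
    | symm x y _ ih =>
      refine Relation.ReflTransGen.mono ?_ _ _ (Relation.reflTransGen_swap.2 ih)
      rintro a b ⟨e, he, h⟩
      exact ⟨e, he, h.symm⟩
    | trans x y z _ _ ih1 ih2 => exact ih1.trans ih2
  intro u hu v hv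
  have hu' : u < G.1.length := List.mem_range.1 hu
  have hv' : v < G.1.length := List.mem_range.1 hv
  have h2 : Subsingleton (Quot (Pool.Agent.Helper47.TR.adj G Finset.univ)) := by
    unfold comps at hc
    exact (Nat.card_eq_one_iff_unique.1 hc).1
  have h3 := Subsingleton.elim (Quot.mk (Pool.Agent.Helper47.TR.adj G Finset.univ) ⟨u, hu'⟩) (Quot.mk (Pool.Agent.Helper47.TR.adj G Finset.univ) ⟨v, hv'⟩)
  exact h1 _ _ (Quot.eqvGen_exact h3)

end BSI.M
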