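import Pool.Agent.BSI.AlgF
import Pool.Agent.BSI.PosM
import Pool.Agent.BSI.Fin
import Pool.Agent.DFP.FinA

/-!
# BSI-FinF (F5): the approximation scheme from the local variance inequality
-/

set_option autoImplicit false

namespace BSI.M

open Finset Pool.Agent.Helper47.TR ACY ACY.M

open Pool.Agent.TFP (HasFPRAS Close lps)

private theorem FinF_close {f a s : ℚ} {Y W τ ε : ℝ} (hs : s ≠ 0) (hW : 0 < W) (hf : (f : ℝ) = s * W)
    (ha : (a : ℝ) = s * Y) (hτ : τ ≤ ε) (h : RC τ Y W) : Close ε f a := by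
  obtain ⟨h1, h2⟩ := h
  have hY : 0 < Y := lt_of_lt_of_le (mul_pos (Real.exp_pos _) hW) h1
  have e1 : (0 < a ↔ 0 < s) := by
    rw [← Rat.cast_pos (K := ℝ), ha, mul_pos_iff_of_pos_right hY, Rat.cast_pos]
  have e2 : (0 < f ↔ 0 < s) := by
    rw [← Rat.cast_pos (K := ℝ), hf, mul_pos_iff_of_pos_right hW, Rat.cast_pos]
  have e0 : ∀ z : ℝ, 0 < z → ((s : ℝ) * z < 0 ↔ (s : ℝ) < 0) := by
    intro z hz
    constructor
    · intro h
      by_contra hc
      exact absurd (mul_nonneg (not_lt.1 hc) hz.le) (not_le.2 h)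
    · exact fun h => mul_neg_of_neg_of_pos h hz
  have e3 : (a < 0 ↔ s < 0) := by
    rw [← Rat.cast_lt_zero (K := ℝ), ha, e0 Y hY, Rat.cast_lt_zero]
  have e4 : (f < 0 ↔ s < 0) := by
    rw [← Rat.cast_lt_zero (K := ℝ), hf, e0 W hW, Rat.cast_lt_zero]
  refine ⟨e1.trans e2.symm, e3.trans e4.symm, ?_, ?_⟩
  · rw [hf, ha, abs_mul, abs_mul, abs_of_pos hW, abs_of_pos hY]
    calc Real.exp (-ε) * (|(s : ℝ)| * W) ≤ Real.exp (-τ) * (|(s : ℝ)| * W) := by gcongr
      _ = |(s : ℝ)| * (Real.exp (-τ) * W) := by ring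
      _ ≤ |(s : ℝ)| * Y := by gcongr
  · rw [hf, ha, abs_mul, abs_mul, abs_of_pos hW, abs_of_pos hY]
    calc |(s : ℝ)| * Y ≤ |(s : ℝ)| * (Real.exp τ * W) := by gcongr
      _ ≤ |(s : ℝ)| * (Real.exp ε * W) := by gcongr
      _ = Real.exp ε * (|(s : ℝ)| * W) := by ring

private theorem FinF_count {n : ℕ} {P : List Bool → Prop} (Q : (Fin n → Bool) → Prop) [DecidablePred Q]
    (hPQ : ∀ r : Fin n → Bool, P (List.ofFn r) → Q r) (h : ACY.M.pr n (fun l => ¬ P l) ≤ 1 / 4) :
    (3 / 4 : ℚ) * 2 ^ n ≤ ((Finset.univ.filter Q).card : ℚ) := by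
  classical
  rw [ACY.M.pr_not] at h
  have h1 := ACY.M.pr_count n P
  have h2 : (0 : ℝ) < 2 ^ n := by positivity
  have h3 : (3 / 4 : ℝ) * 2 ^ n ≤ ((Finset.univ.filter fun r : Fin n → Bool => P (List.ofFn r)).card : ℝ) := by
    rw [← le_div_iff₀ h2, ← h1]
    linarith
  have h4 : ((Finset.univ.filter fun r : Fin n → Bool => P (List.ofFn r)).card : ℝ) ≤ (Finset.univ.filter Q).card := by
    exact_mod_cast Finset.card_le_card fun r hr => by
      rw [Finset.mem_filter] at hr ⊢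
      exact ⟨hr.1, hPQ r hr.2⟩
  have h5 := h3.trans h4
  have h6 : (((3 / 4 : ℚ) * 2 ^ n : ℚ) : ℝ) ≤ (((Finset.univ.filter Q).card : ℚ) : ℝ) := by
    push_cast
    exact h5
  exact_mod_cast h6

private theorem FinF_tt (G : MG) (N : List Bool) :
    ttF (G, N) ≤ (N487b59b3.bitEncode (G, N)).length := by
  show ttF (G, N) ≤ Pool.Agent.Helper22.sz (G, N)
  have h1 : Pool.Agent.Helper22.sz (G, N) = 2 * Pool.Agent.Helper22.sz G + 1 + Pool.Agent.Helper22.sz N :=
    Pool.Agent.Helper22.sz_pair G N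
  have h2 : Pool.Agent.Helper22.sz G = 2 * Pool.Agent.Helper22.sz G.1 + 1 + Pool.Agent.Helper22.sz G.2 :=
    Pool.Agent.Helper22.sz_pair G.1 G.2
  have h3 := Pool.Agent.Helper22.length_le_sz G.1
  have h4 := Pool.Agent.Helper22.length_le_sz G.2
  have h5 := Pool.Agent.Helper22.length_le_sz N
  have h6 : ttF (G, N) = G.1.length + (G.2.length + (N.length + 1)) := rfl
  omega

/-- the value of the algorithm -/
private theorem FinF_val {p q xn xd : ℕ} (L c n P Q : ℕ) :
    (((if L % 2 = 1 then -((p ^ L * (xd ^ c * (q ^ n * P)) : ℕ) : ℤ)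
        else ((p ^ L * (xd ^ c * (q ^ n * P)) : ℕ) : ℤ) : ℤ)) : ℚ) /
        ((q ^ L * (xn ^ c * ((p + q) ^ n * Q)) : ℕ) : ℚ) =
      (-(p : ℚ) / q) ^ L * (((xn : ℚ) / xd) ^ c)⁻¹ * ((q : ℚ) / (p + q)) ^ n * ((P : ℚ) / Q) := by
  have hpos : ((((p ^ L * (xd ^ c * (q ^ n * P)) : ℕ) : ℤ)) : ℚ) / ((q ^ L * (xn ^ c * ((p + q) ^ n * Q)) : ℕ) : ℚ) =
      ((p : ℚ) / q) ^ L * (((xn : ℚ) / xd) ^ c)⁻¹ * ((q : ℚ) / (p + q)) ^ n * ((P : ℚ) / Q) := by
    rw [Int.cast_natCast]
    push_cast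
    rw [div_pow, div_pow, div_pow, inv_div, mul_div_mul_comm, mul_div_mul_comm, mul_div_mul_comm]
    ring
  rcases Nat.even_or_odd L with he | ho
  · have h3 : L % 2 ≠ 1 := by
      rw [Nat.even_iff] at he
      omega
    rw [if_neg h3, hpos, neg_div, he.neg_pow]
  · have h3 : L % 2 = 1 := Nat.odd_iff.1 ho
    rw [if_pos h3, Int.cast_neg, neg_div, hpos, neg_div, ho.neg_pow]
    ring

theorem fpras_F {p q xn xd : ℕ} (hp : 0 < p) (hpq : p < q) (hxd : 0 < xd) (hx : xd ≤ xn)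
    (h : LocH p q ((xn - xd) * (p + q)) (xd * q)) :
    HasFPRAS (fun _ => True) (tutte ((xn : ℚ) / xd) (-(p : ℚ) / q)) := by
  classical
  obtain ⟨D, th, hth, hD, hL⟩ := h.norm
  obtain ⟨a1, ha1⟩ : ∃ a1, a1 = (xn - xd) * (p + q) := ⟨_, rfl⟩
  obtain ⟨a2, ha2⟩ : ∃ a2, a2 = xd * q := ⟨_, rfl⟩
  rw [← ha1, ← ha2] at hL
  have hq : 0 < q := by omega
  have hq' : (0 : ℚ) < q := by exact_mod_cast hq
  have hxd' : (0 : ℚ) < xd := by exact_mod_cast hxd
  have hp' : (0 : ℚ) < p := by exact_mod_cast hp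
  have ha2' : 0 < a2 := by rw [ha2]; positivity
  have hxq : (xd : ℚ) ≤ xn := by exact_mod_cast hx
  have hx1 : (1 : ℚ) ≤ (xn : ℚ) / xd := by rwa [le_div_iff₀ hxd', one_mul]
  have ha : (a1 : ℚ) / a2 = ((xn : ℚ) / xd - 1) * (1 - -(p : ℚ) / q) := by
    rw [ha1, ha2]
    push_cast [Nat.cast_sub hx]
    field_simp
    ring
  refine ⟨qR (a1 + a2) q D, algF p q a1 a2 D xn xd, algF_poly p q a1 a2 D xn xd, ?_⟩
  intro G hG _ N
  obtain ⟨n, hn⟩ : ∃ n, n = (qR (a1 + a2) q D).eval (N487b59b3.bitEncode (G, N)).length := ⟨_, rfl⟩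
  rw [← hn]
  have hε : (0 : ℝ) < 1 / (N.length + 1) := by positivity
  by_cases h0 : G.1.length = 0
  · have halg : ∀ r, algF p q a1 a2 D xn xd ((G, N), r) = (1, 1) := by
      intro r
      unfold algF
      exact if_pos h0
    refine FinF_count (P := fun _ => True) _ (fun r _ => ?_) ?_
    · rw [halg, Pool.Agent.DFP.tutte_zero hG h0]
      refine ⟨one_ne_zero, ?_⟩
      refine FinF_close (s := 1) (Y := 1) (W := 1) (τ := 0) one_ne_zero one_pos (by norm_num) (by norm_num) hε.le ?_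
      unfold RC
      simp
    · rw [ACY.M.pr_congr (Q := fun _ => False) (fun l _ => by simp), ACY.M.pr_false]
      norm_num
  · have hn0 : 0 < G.1.length := Nat.pos_of_ne_zero h0
    obtain ⟨E, hE⟩ : ∃ E, E = brg G.1 G.2 := ⟨_, rfl⟩
    have hG' := valid_brg hG
    have hc := comps_brg hG hn0
    rw [← hE] at hG' hc
    have ht1 := tutte_tauM hG' hn0 hc (a1 := a1) (a2 := a2) hq hx1 ha
    have ht2 := tutte_brg hG ((xn : ℚ) / xd) (-(p : ℚ) / q)
    rw [← hE] at ht2
    have hgr := gr_nl hG'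
    have hpos := tauM_pos (a1 := a1) (a2 := a2) hpq hgr (by
      intro h
      have h1 : (List.range G.1.length).length = 0 := by rw [h]; rfl
      rw [List.length_range] at h1
      omega) (con_nl hG' hc)
    obtain ⟨t, ht⟩ : ∃ t, t = ttF (G, N) := ⟨_, rfl⟩
    have htd : ttF (G, N) = G.1.length + (G.2.length + (N.length + 1)) := rfl
    have hlen := brg_len G.1 G.2
    rw [← hE] at hlen
    have hnlE : (nl E).length ≤ E.length := List.length_filter_le _ _
    have hmono : (qR (a1 + a2) q D).eval t ≤ n := by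
      rw [hn, ht]
      exact qR_mono _ _ _ (FinF_tt G N)
    have key := est_fin hpq ha2' hth hD hL hgr (by
      intro h
      have h1 : (List.range G.1.length).length = 0 := by rw [h]; rfl
      rw [List.length_range] at h1
      omega) (t := t) (by
        rw [List.length_range]
        show G.1.length ≤ t
        omega) (by
        show (nl E).length ≤ t
        omega) hpos hmono
    refine FinF_count _ (fun r hr => ?_) key
    obtain ⟨h1, h2⟩ := hr
    have hcn : cnE ((G, N), List.ofFn r) = E := hE.symm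
    have hest : estF p q a1 a2 D ((G, N), List.ofFn r) =
        estT p q a1 a2 D t (List.range G.1.length) (nl E) (List.ofFn r) := by
      unfold estF
      rw [hcn, ht]
    have hest' : estT p q a1 a2 D t (List.range (G.1, E).1.length) (nl (G.1, E).2) (List.ofFn r) =
        estT p q a1 a2 D t (List.range G.1.length) (nl E) (List.ofFn r) := rfl
    rw [hest'] at h1 h2
    have hsum : 0 < p + q := by omega
    have hxn : 0 < xn := by omega
    have hden : (algF p q a1 a2 D xn xd ((G, N), List.ofFn r)).2 =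
        q ^ (lps E).length * (xn ^ (E.length - G.2.length) *
          ((p + q) ^ (G.1.length - 1) * (estT p q a1 a2 D t (List.range G.1.length) (nl E) (List.ofFn r)).2)) := by
      unfold algF algD
      rw [hest, hcn, if_neg h0]
    have hnum : (algF p q a1 a2 D xn xd ((G, N), List.ofFn r)).1 =
        if (lps E).length % 2 = 1 then -((p ^ (lps E).length * (xd ^ (E.length - G.2.length) *
          (q ^ (G.1.length - 1) * (estT p q a1 a2 D t (List.range G.1.length) (nl E) (List.ofFn r)).1)) : ℕ) : ℤ)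
        else ((p ^ (lps E).length * (xd ^ (E.length - G.2.length) *
          (q ^ (G.1.length - 1) * (estT p q a1 a2 D t (List.range G.1.length) (nl E) (List.ofFn r)).1)) : ℕ) : ℤ) := by
      unfold algF algN
      rw [hest, hcn, if_neg h0]
    refine ⟨?_, ?_⟩
    · rw [hden]
      exact Nat.mul_ne_zero (pow_pos hq _).ne' (Nat.mul_ne_zero (pow_pos hxn _).ne'
        (Nat.mul_ne_zero (pow_pos hsum _).ne' h1))
    · rw [hnum, hden, FinF_val]
      have hxn' : (0 : ℚ) < (xn : ℚ) / xd := by linarith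
      have hc0 : ((xn : ℚ) / xd) ^ (E.length - G.2.length) ≠ 0 := pow_ne_zero _ hxn'.ne'
      have hpq' : (0 : ℚ) < (p : ℚ) + q := by positivity
      refine FinF_close (s := (-(p : ℚ) / q) ^ (lps E).length * (((xn : ℚ) / xd) ^ (E.length - G.2.length))⁻¹ *
        ((q : ℚ) / (p + q)) ^ (G.1.length - 1)) ?_ hpos ?_ ?_ ?_ h2
      · refine mul_ne_zero (mul_ne_zero (pow_ne_zero _ ?_) (inv_ne_zero hc0)) (pow_ne_zero _ ?_)
        · exact (div_neg_of_neg_of_pos (by linarith) hq').ne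
        · positivity
      · have ht3 : tutte ((xn : ℚ) / xd) (-(p : ℚ) / q) G =
            (((xn : ℚ) / xd) ^ (E.length - G.2.length))⁻¹ * tutte ((xn : ℚ) / xd) (-(p : ℚ) / q) (G.1, E) := by
          rw [ht2, inv_mul_cancel_left₀ hc0]
        rw [ht3]
        push_cast
        push_cast at ht1
        rw [ht1]
        ring
      · push_cast
        ring
      · have hcast : (N.length : ℝ) + 1 ≤ t := by
          have : N.length + 1 ≤ t := by omega
          exact_mod_cast this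
        exact one_div_le_one_div_of_le (by positivity) hcast

/-- the hypothesis for `x`, `y` -/
def LocXY (x y : ℚ) : Prop :=
  ∃ (D : ℕ) (th : ℕ → ℝ), (∀ k, 3 ≤ k → 1 ≤ th k) ∧
    (∀ n : ℕ, ∏ k ∈ Finset.Icc 3 n, th k ≤ D * ((n : ℝ) + 1) ^ D) ∧
    ∀ Y : ℕ → ℕ → ℝ, (∀ u v, Y u v = Y v u) → (∀ u v, ∃ j : ℕ, Y u v = (y : ℝ) ^ j) →
      LOC Y (((x : ℝ) - 1) * (1 - y)) th

/-- **the approximation scheme from the local variance inequality** -/
theorem fpras_of_loc {x y : ℚ} (hx : 1 ≤ x) (hy0 : -1 < y) (hy1 : y < 0) (h : LocXY x y) :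
    HasFPRAS (fun _ => True) (tutte x y) := by
  obtain ⟨xn, xd, hxd, hxx, hxe⟩ : ∃ a d : ℕ, 0 < d ∧ d ≤ a ∧ x = (a : ℚ) / d := by
    refine ⟨x.num.toNat, x.den, x.den_pos, ?_, ?_⟩
    · have h1 : (x.den : ℤ) ≤ x.num := by
        have h2 : (1 : ℚ) ≤ x.num / x.den := by rw [Rat.num_div_den]; exact hx
        have h3 : (0 : ℚ) < x.den := by exact_mod_cast x.den_pos
        rw [le_div_iff₀ h3, one_mul] at h2
        exact_mod_cast h2
      omega
    · have h0 : 0 ≤ x.num := Rat.num_nonneg.2 (by linarith)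
      have h1 : ((x.num.toNat : ℕ) : ℚ) = (x.num : ℚ) := by
        have h2 : ((x.num.toNat : ℕ) : ℤ) = x.num := Int.toNat_of_nonneg h0
        exact_mod_cast h2
      rw [h1]
      exact (Rat.num_div_den x).symm
  obtain ⟨p, q, hp, hpq, hye⟩ : ∃ p q : ℕ, 0 < p ∧ p < q ∧ y = -(p : ℚ) / q := by
    have h0 : y.num < 0 := Rat.num_neg.2 hy1
    have h1 : (((-y.num).toNat : ℕ) : ℤ) = -y.num := Int.toNat_of_nonneg (by omega)
    have h2 : (((-y.num).toNat : ℕ) : ℚ) = -(y.num : ℚ) := by exact_mod_cast h1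
    have h3 : y = -((((-y.num).toNat : ℕ)) : ℚ) / y.den := by
      rw [h2, neg_neg]
      exact (Rat.num_div_den y).symm
    refine ⟨(-y.num).toNat, y.den, by omega, ?_, h3⟩
    have h4 : (0 : ℚ) < y.den := by exact_mod_cast y.den_pos
    have h5 : -1 < -((((-y.num).toNat : ℕ)) : ℚ) / y.den := by rw [← h3]; exact hy0
    rw [lt_div_iff₀ h4] at h5
    have h6 : ((((-y.num).toNat : ℕ)) : ℚ) < y.den := by linarith
    exact_mod_cast h6
  rw [hxe, hye]
  refine fpras_F hp hpq hxd hxx ?_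
  obtain ⟨D, th, h1, h2, h3⟩ := h
  refine ⟨D, th, h1, h2, fun Y hY hY2 => ?_⟩
  have e1 : ((y : ℚ) : ℝ) = -(p : ℝ) / q := by
    rw [hye]
    push_cast
    rfl
  have e2 : aR ((xn - xd) * (p + q)) (xd * q) = ((x : ℝ) - 1) * (1 - y) := by
    have hq : (0 : ℝ) < q := by
      have : 0 < q := by omega
      exact_mod_cast this
    have hd : (0 : ℝ) < xd := by exact_mod_cast hxd
    have e3 : ((x : ℚ) : ℝ) = (xn : ℝ) / xd := by
      rw [hxe]
      push_cast
      rfl
    unfold aR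
    rw [e1, e3]
    push_cast [Nat.cast_sub hxx]
    field_simp
    ring
  rw [e2]
  refine h3 Y hY fun u v => ?_
  rw [e1]
  exact hY2 u v

end BSI.M
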