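import Pool.Agent.BSI.FpR

/-!
# BSI machine layer, FpI: a trial is polynomial time computable

The greedy insertion `grd` is a fold over the list of the vertices without its last one, with the state blocks and letters
so far; the last letter is added at the end. The total size of the blocks grows by at most `3 * sz V`.
-/

set_option autoImplicit false

namespace BSI.M

open Turing Function N487b59b3 N68a2faeb Pool.Agent.Helper22 Pool.Agent.Helper6.WB Computability
  Pool.Agent.Helper47.TR

variable {α : Type} [N487b59b3 α]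

private theorem FpI_adj {E : α → List (ℕ × ℕ)} {t : α → ℕ} {B : α → List ℕ} (hE : FP E) (ht : FP t) (hB : FP B) :
    FP fun a => adj (E a) (t a) (B a) :=
  FP.not (FP.isEmpty (FP.eb hE ht hB))

private theorem FpI_filt {E : α → List (ℕ × ℕ)} {t : α → ℕ} {P : α → List (List ℕ)} (hE : FP E) (ht : FP t)
    (hP : FP P) : FP fun a => (P a).filter fun B => adj (E a) (t a) B :=
  Pool.Agent.G4.FP.filter_ctx' (P := fun (c : List (ℕ × ℕ) × ℕ) (B : List ℕ) => adj c.1 c.2 B)
    (FpI_adj (by fun_prop) (by fun_prop) (by fun_prop)) (FP.pair hE ht) hP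

private theorem FpI_filn {E : α → List (ℕ × ℕ)} {t : α → ℕ} {P : α → List (List ℕ)} (hE : FP E) (ht : FP t)
    (hP : FP P) : FP fun a => (P a).filter fun B => !(adj (E a) (t a) B) :=
  Pool.Agent.G4.FP.filter_ctx' (P := fun (c : List (ℕ × ℕ) × ℕ) (B : List ℕ) => !(adj c.1 c.2 B))
    (FP.not (FpI_adj (by fun_prop) (by fun_prop) (by fun_prop))) (FP.pair hE ht) hP

/-- one step of the greedy insertion: the state is the list of the blocks and the list of the letters -/
private def FpI_step (E : List (ℕ × ℕ)) (s : List (List ℕ) × List Lt) (t : ℕ) : List (List ℕ) × List Lt :=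
  (BSI.M.blkL t (s.1.filter fun B => adj E t B) :: s.1.filter fun B => !(adj E t B),
    s.2 ++ [(t, (s.1.filter fun B => adj E t B, false))])

private theorem FpI_grd (E : List (ℕ × ℕ)) (l : List ℕ) (t : ℕ) (P : List (List ℕ)) (acc : List Lt) :
    acc ++ grd E P (l ++ [t]) =
      (l.foldl (FpI_step E) (P, acc)).2 ++ [(t, ((l.foldl (FpI_step E) (P, acc)).1, true))] := by
  induction l generalizing P acc with
  | nil => simp [grd]
  | cons u l ih =>
    have h1 : (l ++ [t]).isEmpty = false := by simp
    have h2 := ih (BSI.M.blkL u (P.filter (adj E u)) :: P.filter fun B => !(adj E u B))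
      (acc ++ [(u, (P.filter (adj E u), false))])
    rw [List.cons_append, grd, h1]
    simp only [Bool.false_eq_true, if_false, List.foldl_cons]
    rw [List.append_assoc, List.singleton_append] at h2
    exact h2

private theorem FpI_ini (E : List (ℕ × ℕ)) (V : List ℕ) :
    grd E [] V = if V.isEmpty then [] else
      (V.reverse.tail.reverse.foldl (FpI_step E) ([], [])).2 ++
        [(V.reverse.headD 0, ((V.reverse.tail.reverse.foldl (FpI_step E) ([], [])).1, true))] := by
  rcases List.eq_nil_or_concat' V with h | ⟨l, t, h⟩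
  · subst h
    simp [grd]
  · subst h
    have h2 := FpI_grd E l t [] []
    rw [List.nil_append] at h2
    rw [h2]
    simp

private theorem FpI_flatten (A : List (List ℕ)) : 2 * sz A.flatten ≤ sz A := by
  induction A with
  | nil => simp
  | cons B A ih =>
    rw [List.flatten_cons, sz_append, sz_cons]
    omega

private theorem FpI_split {β : Type} [N487b59b3 β] (f : β → Bool) (l : List β) :
    sz (l.filter f) + sz (l.filter fun b => !(f b)) = sz l := by
  induction l with
  | nil => simp
  | cons b l ih =>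
    cases h : f b
    · simp only [List.filter_cons, h, Bool.false_eq_true, if_false, Bool.not_false, if_true, sz_cons]
      omega
    · simp only [List.filter_cons, h, Bool.not_true, Bool.false_eq_true, if_false, if_true, sz_cons]
      omega

private theorem FpI_sz (E : List (ℕ × ℕ)) (M : ℕ) (l : List ℕ) (P : List (List ℕ)) (acc : List Lt)
    (h : sz P + 3 * sz l ≤ M) :
    sz (l.foldl (FpI_step E) (P, acc)).1 ≤ sz P + 3 * sz l ∧
      sz (l.foldl (FpI_step E) (P, acc)).2 ≤ sz acc + 7 * sz l + 4 * (l.length * M) := by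
  induction l generalizing P acc with
  | nil => simp
  | cons t l ih =>
    have h1 := FpI_split (fun B => adj E t B) P
    have h2 := FpI_flatten (P.filter fun B => adj E t B)
    have h3 : sz (BSI.M.blkL t (P.filter fun B => adj E t B) :: P.filter fun B => !(adj E t B)) ≤
        sz P + 3 * (2 * sz t + 1) := by
      unfold BSI.M.blkL
      rw [sz_cons, sz_cons]
      omega
    have h4 : sz (acc ++ [(t, (P.filter fun B => adj E t B, false))]) ≤
        sz acc + 7 * (2 * sz t + 1) + 4 * sz P := by
      simp only [sz_append, sz_cons, sz_pair, sz_nil, sz_bool]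
      omega
    rw [sz_cons] at h
    obtain ⟨h5, h6⟩ := ih (BSI.M.blkL t (P.filter fun B => adj E t B) :: P.filter fun B => !(adj E t B))
      (acc ++ [(t, (P.filter fun B => adj E t B, false))]) (by omega)
    have h7 : (l.length + 1) * M = l.length * M + M := by ring
    rw [List.foldl_cons, List.length_cons, h7, sz_cons]
    have h8 : FpI_step E (P, acc) t = (BSI.M.blkL t (P.filter fun B => adj E t B) :: P.filter fun B => !(adj E t B),
      acc ++ [(t, (P.filter fun B => adj E t B, false))]) := rfl
    rw [h8]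
    constructor
    · omega
    · omega

private theorem FpI_step_fp : FP fun p : List (ℕ × ℕ) × ((List (List ℕ) × List Lt) × ℕ) =>
    FpI_step p.1 p.2.1 p.2.2 := by
  have hE : FP fun p : List (ℕ × ℕ) × ((List (List ℕ) × List Lt) × ℕ) => p.1 := by fun_prop
  have ht : FP fun p : List (ℕ × ℕ) × ((List (List ℕ) × List Lt) × ℕ) => p.2.2 := by fun_prop
  have hP : FP fun p : List (ℕ × ℕ) × ((List (List ℕ) × List Lt) × ℕ) => p.2.1.1 := by fun_prop
  have hA : FP fun p : List (ℕ × ℕ) × ((List (List ℕ) × List Lt) × ℕ) => p.2.1.2 := by fun_prop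
  have h1 := FpI_filt hE ht hP
  have h2 := FpI_filn hE ht hP
  exact FP.pair (FP.cons (FP.blkL ht h1) h2)
    (FP.append hA (FP.cons (FP.pair ht (FP.pair h1 (FP.const false))) (FP.const [])))

private theorem FpI_fold {E : α → List (ℕ × ℕ)} {l : α → List ℕ} (hE : FP E) (hl : FP l) :
    FP fun a => (l a).foldl (FpI_step (E a)) ([], []) := by
  refine Pool.Agent.G4.FP.foldl_ctx' (g := FpI_step) FpI_step_fp
    (B := fun n => 16 * (n * n) + 20 * n + 1) (by fun_prop) ?_ hE hl (FP.const _)
  rintro c l ⟨P, acc⟩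
  obtain ⟨h1, h2⟩ := FpI_sz c (sz P + 3 * sz l) l P acc le_rfl
  have h3 := length_le_sz l
  have h4 : l.length * (sz P + 3 * sz l) ≤ (sz c + (sz l + (2 * sz P + 1 + sz acc))) *
      (4 * (sz c + (sz l + (2 * sz P + 1 + sz acc)))) :=
    Nat.mul_le_mul (by omega) (by omega)
  have h5 : (sz c + (sz l + (2 * sz P + 1 + sz acc))) * (4 * (sz c + (sz l + (2 * sz P + 1 + sz acc)))) =
      4 * ((sz c + (sz l + (2 * sz P + 1 + sz acc))) * (sz c + (sz l + (2 * sz P + 1 + sz acc)))) := by ring
  rw [h5] at h4
  have h6 : sz (l.foldl (FpI_step c) (P, acc)) = 2 * sz (l.foldl (FpI_step c) (P, acc)).1 + 1 +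
      sz (l.foldl (FpI_step c) (P, acc)).2 := sz_pair _ _
  rw [h6, sz_pair]
  generalize (sz c + (sz l + (2 * sz P + 1 + sz acc))) * (sz c + (sz l + (2 * sz P + 1 + sz acc))) = N at h4 ⊢
  omega

private theorem FpI_grd_fp {V : α → List ℕ} {E : α → List (ℕ × ℕ)} (hV : FP V) (hE : FP E) :
    FP fun a => grd (E a) [] (V a) := by
  have h1 := FP.reverse hV
  have h2 := FpI_fold hE (FP.reverse (FP.tail h1))
  have h3 : FP fun a => if (V a).isEmpty then ([] : List Lt) else
      ((V a).reverse.tail.reverse.foldl (FpI_step (E a)) ([], [])).2 ++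
        [((V a).reverse.headD 0, (((V a).reverse.tail.reverse.foldl (FpI_step (E a)) ([], [])).1, true))] :=
    FP.ite (FP.isEmpty hV) (FP.const _) (FP.append h2.snd' (FP.cons (FP.pair (FP.headD h1 0)
      (FP.pair h2.fst' (FP.const true))) (FP.const [])))
  exact (congrArg FP (funext fun a => (FpI_ini (E a) (V a)).symm)).mp h3

theorem FP.iniL (a1 : ℕ) {V : α → List ℕ} {E : α → List (ℕ × ℕ)} (hV : FP V) (hE : FP E) :
    FP fun a => BSI.M.iniL a1 (V a) (E a) := by
  by_cases h : a1 = 0
  · refine (congrArg FP (funext fun a => ?_)).mp (FpI_grd_fp hV hE)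
    unfold BSI.M.iniL
    rw [if_pos h]
  · have h1 : FP fun a => (V a).map fun t => ((t, (([] : List (List ℕ)), true)) : Lt) :=
      FP.map (f := fun t : ℕ => ((t, (([] : List (List ℕ)), true)) : Lt))
        (FP.pair FP.id (FP.const _)) hV
    refine (congrArg FP (funext fun a => ?_)).mp h1
    unfold BSI.M.iniL
    rw [if_neg h]

theorem FP.obsL (w : Bool) {u v : α → ℕ} {st : α → List Lt} (hu : FP u) (hv : FP v) (hst : FP st) :
    FP fun a => BSI.M.obsL w (u a) (v a) (st a) := by
  have h0 : FP fun a => (st a).getD 0 ((0, ([], false)) : Lt) :=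
    Pool.Agent.G4.FP.getDNat hst (FP.const 0) _
  have h1 : FP fun a => (st a).getD 1 ((0, ([], false)) : Lt) :=
    Pool.Agent.G4.FP.getDNat hst (FP.const 1) _
  exact FP.and (FP.or (FP.and (Pool.Agent.G4.FP.beqNat h0.fst' hu) (Pool.Agent.G4.FP.beqNat h1.fst' hv))
    (FP.and (Pool.Agent.G4.FP.beqNat h0.fst' hv) (Pool.Agent.G4.FP.beqNat h1.fst' hu)))
    (FP.beq (FP.jnL h0.fst' h1.snd'.fst') (FP.const w))

theorem FP.trial (p q a1 a2 : ℕ) (w : Bool) {V : α → List ℕ} {E : α → List (ℕ × ℕ)} {B C T l : α → List Bool} {u v : α → ℕ}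
    (hV : FP V) (hE : FP E) (hB : FP B) (hC : FP C) (hT : FP T) (hu : FP u) (hv : FP v) (hl : FP l) :
    FP fun a => BSI.M.trial p q a1 a2 (V a) (E a) (B a).length (C a).length (T a).length w (u a) (v a) (l a) :=
  FP.ite (FP.obsL w hu hv (FP.runL p q a1 a2 hV hE hB hC hT hl (FP.iniL a1 hV hE))) (FP.const 1) (FP.const 0)

end BSI.M
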