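import Pool.Agent.BSI.FpS

/-!
# BSI machine layer, FpR: a run is polynomial time computable

`nums` and `runL` are iterations of one step with the consumption of random bits. A step only redistributes the pieces of two
letters and adds a block which consists of at most `V.length` elements of `V`, which bounds the size.
-/

set_option autoImplicit false

namespace BSI.M

open Turing Function N487b59b3 N68a2faeb Pool.Agent.Helper22 Pool.Agent.Helper6.WB Computability
  Pool.Agent.Helper47.TR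

variable {α : Type} [N487b59b3 α]

/-- one number together with the consumption of its bits -/
private def FpR_n (p : List Bool × (List Bool × List ℕ)) : List Bool × (List Bool × List ℕ) :=
  (p.1, (p.2.1.drop p.1.length, p.2.2 ++ [Pool.Agent.Helper6.WB.val (p.2.1.take p.1.length)]))

private theorem FpR_nFP : FP FpR_n := by
  unfold FpR_n
  have a1 : FP fun p : List Bool × (List Bool × List ℕ) => p.1 := by fun_prop
  have a2 : FP fun p : List Bool × (List Bool × List ℕ) => p.2.1 := by fun_prop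
  have a3 : FP fun p : List Bool × (List Bool × List ℕ) => p.2.2 := by fun_prop
  exact a1.pair ((FP.drop a2 a1).pair
    (FP.append a3 (FP.cons (Pool.Agent.TFP.FP.val (FP.take a2 a1)) (FP.const []))))

private theorem FpR_nums (C : List Bool) (N : ℕ) (l : List Bool) (acc : List ℕ) :
    (FpR_n^[N] (C, (l, acc))).2.2 = acc ++ BSI.M.nums C.length N l := by
  induction N generalizing l acc with
  | zero => simp [BSI.M.nums]
  | succ N ih =>
    rw [Function.iterate_succ_apply]
    have h1 : FpR_n (C, (l, acc)) =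
        (C, (l.drop C.length, acc ++ [Pool.Agent.Helper6.WB.val (l.take C.length)])) := rfl
    rw [h1, ih, BSI.M.nums, List.append_assoc]
    rfl

private theorem FpR_val (l : List Bool) : sz (Pool.Agent.Helper6.WB.val l) ≤ l.length := by
  rw [sz_nat, Nat.size_le]
  exact val_lt l

private theorem FpR_ninv (a : List Bool × (List Bool × List ℕ)) (i : ℕ) : (FpR_n^[i] a).1 = a.1 ∧
    sz (FpR_n^[i] a).2.1 ≤ sz a.2.1 ∧ sz (FpR_n^[i] a).2.2 ≤ sz a.2.2 + i * (2 * a.1.length + 1) := by
  induction i with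
  | zero => exact ⟨rfl, le_rfl, by simp⟩
  | succ i ih =>
    obtain ⟨h1, h2, h3⟩ := ih
    rw [Function.iterate_succ_apply']
    refine ⟨h1, (sz_drop _ _).trans h2, ?_⟩
    have h4 : sz (FpR_n (FpR_n^[i] a)).2.2 = sz (FpR_n^[i] a).2.2 +
        (2 * sz (Pool.Agent.Helper6.WB.val ((FpR_n^[i] a).2.1.take (FpR_n^[i] a).1.length)) + 1) := by
      show sz ((FpR_n^[i] a).2.2 ++ [_]) = _
      rw [sz_append, sz_cons, sz_nil]
    have h5 := FpR_val ((FpR_n^[i] a).2.1.take (FpR_n^[i] a).1.length)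
    rw [List.length_take] at h5
    have h6 : (FpR_n^[i] a).1.length = a.1.length := congrArg List.length h1
    have h7 : (i + 1) * (2 * a.1.length + 1) = i * (2 * a.1.length + 1) + (2 * a.1.length + 1) :=
      Nat.succ_mul _ _
    rw [h4, h7]
    omega

theorem FP.nums {C N l : α → List Bool} (hC : FP C) (hN : FP N) (hl : FP l) :
    FP fun a => BSI.M.nums (C a).length (N a).length (l a) := by
  have h : FP fun p : List Bool × (List Bool × (List Bool × List ℕ)) => FpR_n^[p.1.length] p.2 := by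
    refine FP.iterate FpR_nFP (B := fun n => n + n * (2 * n + 1)) (by fun_prop) ?_
    intro c a i hi
    obtain ⟨h1, h2, h3⟩ := FpR_ninv a i
    obtain ⟨a1, a2, a3⟩ := a
    generalize FpR_n^[i] (a1, (a2, a3)) = q at *
    obtain ⟨q1, q2, q3⟩ := q
    simp only at h1 h2 h3
    subst h1
    have h6 : q1.length ≤ sz q1 := length_le_sz q1
    have h6' : c.length ≤ sz c := length_le_sz c
    have h7 : sz (q1, (a2, a3)) = 2 * sz q1 + 1 + (2 * sz a2 + 1 + sz a3) := by
      rw [sz_pair q1 _, sz_pair a2 _]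
    have h8 : sz (q1, (q2, q3)) = 2 * sz q1 + 1 + (2 * sz q2 + 1 + sz q3) := by
      rw [sz_pair q1 _, sz_pair q2 _]
    generalize sz (q1, (a2, a3)) = N at *
    have h9 : i * (2 * q1.length + 1) ≤ (sz c + N) * (2 * (sz c + N) + 1) :=
      Nat.mul_le_mul (by omega) (by omega)
    rw [h8]
    show _ ≤ (sz c + N) + (sz c + N) * (2 * (sz c + N) + 1)
    omega
  have h2 := (h.comp (hN.pair (hC.pair (hl.pair (FP.const []))))).snd'.snd'
  refine (congrArg FP (funext fun a => ?_)).mp h2
  exact (FpR_nums _ _ _ _).trans (List.nil_append _)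

private theorem FpR_fil {β γ : Type} [N487b59b3 β] [N487b59b3 γ] (f : β × γ → Bool) (Z : List (β × γ)) :
    sz ((Z.filter f).map Prod.fst) + sz ((Z.filter fun x => !(f x)).map Prod.fst) = sz (Z.map Prod.fst) := by
  induction Z with
  | nil => rfl
  | cons x Z ih =>
    rw [List.filter_cons, List.filter_cons, List.map_cons, sz_cons]
    cases f x
    · simp only [Bool.not_false, if_true, Bool.false_eq_true, if_false, List.map_cons, sz_cons]
      omega
    · simp only [Bool.not_true, if_true, Bool.false_eq_true, if_false, List.map_cons, sz_cons]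
      omega

private theorem FpR_zip {β γ : Type} [N487b59b3 β] (l : List β) (vs : List γ) :
    sz ((l.zip vs).map Prod.fst) ≤ sz l := by
  induction l generalizing vs with
  | nil => simp
  | cons x l ih =>
    cases vs with
    | nil => simp
    | cons v vs =>
      rw [List.zip_cons_cons, List.map_cons, sz_cons, sz_cons]
      have := ih vs
      dsimp only
      omega

private theorem FpR_lt (t : ℕ) (C : List (List ℕ)) (f : Bool) :
    sz ((t, (C, f)) : Lt) = 2 * sz t + 1 + (2 * sz C + 1 + 1) := by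
  rw [sz_pair t (C, f), sz_pair C f, sz_bool]

private theorem FpR_blk {V B : List ℕ} (h1 : B.length ≤ V.length) (h2 : B.all (V.contains ·) = true) :
    sz B ≤ V.length * (2 * sz V + 1) := by
  refine (sz_list_le B (sz V) fun b hb => ?_).trans (Nat.mul_le_mul_right _ h1)
  have h3 := List.all_eq_true.1 h2 b hb
  exact sz_mem_le (List.contains_iff_mem.1 h3)

private theorem FpR_newP {p q a1 a2 : ℕ} {V : List ℕ} {E : List (ℕ × ℕ)} {m z z' : ℕ} {fl g : Bool}
    {Z : List (List ℕ × ℕ)} {v0 : ℕ} (h : (BSI.M.newP p q a1 a2 V E m z z' fl g Z v0).1 = true) :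
    sz (BSI.M.newP p q a1 a2 V E m z z' fl g Z v0).2.1 + sz (BSI.M.newP p q a1 a2 V E m z z' fl g Z v0).2.2 ≤
      2 * sz z + 2 * sz z' + 2 * sz (Z.map Prod.fst) + 6 + (4 * (V.length * (2 * sz V + 1)) + 2) := by
  unfold BSI.M.newP at h ⊢
  dsimp only at h ⊢
  rw [Bool.and_eq_true, Bool.and_eq_true, Bool.and_eq_true, decide_eq_true_iff] at h
  have h1 := FpR_blk h.2.1 h.2.2.1
  have h2 := FpR_fil (BSI.M.toF p q E m z z') Z
  rw [FpR_lt, FpR_lt]
  cases fl
  · simp only [Bool.false_eq_true, if_false]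
    rw [sz_cons]
    omega
  · simp only [if_true]
    omega

private theorem FpR_filter {β : Type} [N487b59b3 β] (q : β → Bool) (l : List β) : sz (l.filter q) ≤ sz l := by
  induction l with
  | nil => exact le_rfl
  | cons a l ih =>
    rw [List.filter_cons, sz_cons]
    split_ifs
    · rw [sz_cons]
      omega
    · omega

private theorem FpR_pairS {p q a1 a2 : ℕ} {V : List ℕ} {E : List (ℕ × ℕ)} {m u2 : ℕ} {vs : List ℕ} {v0 : ℕ}
    {x y : Lt} (h : (BSI.M.pairS p q a1 a2 V E m u2 vs v0 x y).1 = true) :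
    sz (BSI.M.pairS p q a1 a2 V E m u2 vs v0 x y).2.1 + sz (BSI.M.pairS p q a1 a2 V E m u2 vs v0 x y).2.2 ≤
      sz x + sz y + (4 * (V.length * (2 * sz V + 1)) + 2) := by
  obtain ⟨x1, x2, x3⟩ := x
  obtain ⟨y1, y2, y3⟩ := y
  unfold BSI.M.pairS at h ⊢
  dsimp only at h ⊢
  have h4 := FpR_zip (x2 ++ BSI.M.rmL x1 y2) vs
  have h5 : sz (x2 ++ BSI.M.rmL x1 y2) ≤ sz x2 + sz y2 := by
    rw [sz_append]
    exact Nat.add_le_add_left (FpR_filter _ _) _
  split_ifs at h ⊢
  all_goals first
    | (refine (FpR_newP h).trans ?_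
       rw [FpR_lt, FpR_lt]
       omega)
    | (show sz ((y1, (y2, y3)) : Lt) + sz ((x1, (x2, x3)) : Lt) ≤ _
       omega)

private theorem FpR_set {β : Type} [N487b59b3 β] (l : List β) (i : ℕ) (hi : i < l.length) (X d : β) :
    sz (l.set i X) + 2 * sz (l.getD i d) = sz l + 2 * sz X := by
  induction l generalizing i with
  | nil => exact absurd hi (Nat.not_lt_zero _)
  | cons x l ih =>
    cases i with
    | zero =>
      rw [List.set_cons_zero, List.getD_cons_zero, sz_cons, sz_cons]
      omega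
    | succ i =>
      rw [List.set_cons_succ, List.getD_cons_succ, sz_cons, sz_cons]
      have := ih i (Nat.lt_of_succ_lt_succ hi)
      omega

private theorem FpR_stepL (p q a1 a2 : ℕ) (V : List ℕ) (E : List (ℕ × ℕ)) (m u1 u2 : ℕ) (vs : List ℕ) (v0 : ℕ)
    (st : List Lt) : sz (BSI.M.stepL p q a1 a2 V E m u1 u2 vs v0 st) ≤
      sz st + (8 * (V.length * (2 * sz V + 1)) + 4) := by
  unfold BSI.M.stepL
  split_ifs with h
  · rw [Bool.and_eq_true, decide_eq_true_iff] at h
    obtain ⟨h1, h2⟩ := h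
    have h3 := FpR_pairS h2
    generalize (BSI.M.pairS p q a1 a2 V E m u2 vs v0 (st.getD u1 (0, ([], false)))
      (st.getD (u1 + 1) (0, ([], false)))).2 = P at h3 ⊢
    have h4 := FpR_set st u1 (Nat.lt_of_succ_lt h1) P.1 (0, ([], false))
    have h5 := FpR_set (st.set u1 P.1) (u1 + 1) (by rw [List.length_set]; exact h1) P.2 (0, ([], false))
    have h6 : (st.set u1 P.1).getD (u1 + 1) (0, ([], false)) = st.getD (u1 + 1) (0, ([], false)) := by
      rw [List.getD_eq_getElem _ _ (by rw [List.length_set]; exact h1), List.getD_eq_getElem _ _ h1,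
        List.getElem_set_ne (by omega)]
    rw [h6] at h5
    omega
  · omega

private theorem FpR_stepB (p q a1 a2 : ℕ) {V : α → List ℕ} {E : α → List (ℕ × ℕ)} {B C l : α → List Bool}
    {st : α → List Lt} (hV : FP V) (hE : FP E) (hB : FP B) (hC : FP C) (hl : FP l) (hst : FP st) :
    FP fun a => BSI.M.stepB p q a1 a2 (V a) (E a) (B a).length (C a).length (l a) (st a) := by
  have hU := FP.unMul (FP.un_length hV) hC
  have h0 : FP fun a => (l a).drop (B a).length := FP.drop hl hB
  have h1 := FP.drop h0 (FP.const [true, true])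
  have h2 := FP.nums hC (FP.un_length hV) h1
  have h3 := FP.take (FP.drop h1 hU) hC
  have h4 := FP.stepL p q a1 a2 hV hE (FP.powU (FP.const 2) hC) (Pool.Agent.TFP.FP.val (FP.take hl hB))
    (Pool.Agent.TFP.FP.val (FP.take h0 (FP.const [true, true]))) h2 (Pool.Agent.TFP.FP.val h3) hst
  refine (congrArg FP (funext fun a => ?_)).mp h4
  unfold BSI.M.stepB
  simp only [un_length, List.length_cons, List.length_nil, Nat.zero_add]

/-- the type of the states -/
private abbrev FpR_T : Type :=
  ((List ℕ × List (ℕ × ℕ)) × (List Bool × List Bool)) × (List Bool × List Lt)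

/-- one step together with the consumption of random bits -/
private def FpR_r (p q a1 a2 : ℕ) (s : FpR_T) : FpR_T :=
  (s.1, (s.2.1.drop (s.1.2.1 ++ ([true, true] ++ (un ((un s.1.1.1.length).length * s.1.2.2.length) ++ s.1.2.2))).length,
    BSI.M.stepB p q a1 a2 s.1.1.1 s.1.1.2 s.1.2.1.length s.1.2.2.length s.2.1 s.2.2))

private theorem FpR_rFP (p q a1 a2 : ℕ) : FP (FpR_r p q a1 a2) := by
  unfold FpR_r
  have b1 : FP fun s : FpR_T => s.1 := by fun_prop
  have b2 : FP fun s : FpR_T => s.1.1.1 := by fun_prop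
  have b3 : FP fun s : FpR_T => s.1.1.2 := by fun_prop
  have b4 : FP fun s : FpR_T => s.1.2.1 := by fun_prop
  have b5 : FP fun s : FpR_T => s.1.2.2 := by fun_prop
  have b6 : FP fun s : FpR_T => s.2.1 := by fun_prop
  have b7 : FP fun s : FpR_T => s.2.2 := by fun_prop
  refine b1.pair ((FP.drop b6 (FP.append b4 (FP.append (FP.const [true, true]) (FP.append
    (FP.unMul (FP.un_length b2) b5) b5)))).pair ?_)
  exact FpR_stepB p q a1 a2 b2 b3 b4 b5 b6 b7

private theorem FpR_run (p q a1 a2 : ℕ) (V : List ℕ) (E : List (ℕ × ℕ)) (B C : List Bool) (T : ℕ) (l : List Bool)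
    (st : List Lt) : BSI.M.runL p q a1 a2 V E B.length C.length T l st =
      ((FpR_r p q a1 a2)^[T] (((V, E), (B, C)), (l, st))).2.2 := by
  induction T generalizing l st with
  | zero => rfl
  | succ T ih =>
    rw [Function.iterate_succ_apply]
    have h1 : FpR_r p q a1 a2 (((V, E), (B, C)), (l, st)) = (((V, E), (B, C)),
        (l.drop (BSI.M.nb1 B.length C.length V.length),
          BSI.M.stepB p q a1 a2 V E B.length C.length l st)) := by
      unfold FpR_r BSI.M.nb1
      simp only [List.length_append, un_length, List.length_cons, List.length_nil, Nat.zero_add]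
    rw [h1, ← ih]
    rfl

private theorem FpR_inv (p q a1 a2 : ℕ) (a : FpR_T) (i : ℕ) : ((FpR_r p q a1 a2)^[i] a).1 = a.1 ∧
    sz ((FpR_r p q a1 a2)^[i] a).2.1 ≤ sz a.2.1 ∧
    sz ((FpR_r p q a1 a2)^[i] a).2.2 ≤
      sz a.2.2 + i * (8 * (a.1.1.1.length * (2 * sz a.1.1.1 + 1)) + 4) := by
  induction i with
  | zero => exact ⟨rfl, le_rfl, by simp⟩
  | succ i ih =>
    obtain ⟨h1, h2, h3⟩ := ih
    rw [Function.iterate_succ_apply']
    refine ⟨h1, (sz_drop _ _).trans h2, ?_⟩
    have h4 := FpR_stepL p q a1 a2 ((FpR_r p q a1 a2)^[i] a).1.1.1 ((FpR_r p q a1 a2)^[i] a).1.1.2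
      (2 ^ ((FpR_r p q a1 a2)^[i] a).1.2.2.length)
      (Pool.Agent.Helper6.WB.val (((FpR_r p q a1 a2)^[i] a).2.1.take ((FpR_r p q a1 a2)^[i] a).1.2.1.length))
      (Pool.Agent.Helper6.WB.val ((((FpR_r p q a1 a2)^[i] a).2.1.drop
        ((FpR_r p q a1 a2)^[i] a).1.2.1.length).take 2))
      (BSI.M.nums ((FpR_r p q a1 a2)^[i] a).1.2.2.length ((FpR_r p q a1 a2)^[i] a).1.1.1.length
        ((((FpR_r p q a1 a2)^[i] a).2.1.drop ((FpR_r p q a1 a2)^[i] a).1.2.1.length).drop 2))
      (Pool.Agent.Helper6.WB.val ((((((FpR_r p q a1 a2)^[i] a).2.1.drop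
        ((FpR_r p q a1 a2)^[i] a).1.2.1.length).drop 2).drop (((FpR_r p q a1 a2)^[i] a).1.1.1.length *
          ((FpR_r p q a1 a2)^[i] a).1.2.2.length)).take ((FpR_r p q a1 a2)^[i] a).1.2.2.length))
      ((FpR_r p q a1 a2)^[i] a).2.2
    have h5 : sz (FpR_r p q a1 a2 ((FpR_r p q a1 a2)^[i] a)).2.2 ≤ sz ((FpR_r p q a1 a2)^[i] a).2.2 +
        (8 * (((FpR_r p q a1 a2)^[i] a).1.1.1.length * (2 * sz ((FpR_r p q a1 a2)^[i] a).1.1.1 + 1)) + 4) := h4
    rw [h1] at h5
    rw [Nat.succ_mul]
    omega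

theorem FP.runL (p q a1 a2 : ℕ) {V : α → List ℕ} {E : α → List (ℕ × ℕ)} {B C T l : α → List Bool} {st : α → List Lt}
    (hV : FP V) (hE : FP E) (hB : FP B) (hC : FP C) (hT : FP T) (hl : FP l) (hst : FP st) :
    FP fun a => BSI.M.runL p q a1 a2 (V a) (E a) (B a).length (C a).length (T a).length (l a) (st a) := by
  have h : FP fun s : List Bool × FpR_T => (FpR_r p q a1 a2)^[s.1.length] s.2 := by
    refine FP.iterate (FpR_rFP p q a1 a2) (B := fun n => n + n * (8 * (n * (2 * n + 1)) + 4)) (by fun_prop) ?_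
    intro c a i hi
    obtain ⟨h1, h2, h3⟩ := FpR_inv p q a1 a2 a i
    obtain ⟨⟨⟨a1', a2'⟩, a3'⟩, a4', a5'⟩ := a
    generalize (FpR_r p q a1 a2)^[i] (((a1', a2'), a3'), (a4', a5')) = w at *
    obtain ⟨w1, w2, w3⟩ := w
    simp only at h1 h2 h3
    subst h1
    have h6 : a1'.length ≤ sz a1' := length_le_sz a1'
    have h6' : c.length ≤ sz c := length_le_sz c
    have h7 : sz (((a1', a2'), a3'), (a4', a5')) =
        2 * (2 * (2 * sz a1' + 1 + sz a2') + 1 + sz a3') + 1 + (2 * sz a4' + 1 + sz a5') := by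
      rw [sz_pair ((a1', a2'), a3') _, sz_pair (a1', a2') _, sz_pair a1' _, sz_pair a4' _]
    have h8 : sz (((a1', a2'), a3'), (w2, w3)) =
        2 * (2 * (2 * sz a1' + 1 + sz a2') + 1 + sz a3') + 1 + (2 * sz w2 + 1 + sz w3) := by
      rw [sz_pair ((a1', a2'), a3') _, sz_pair (a1', a2') _, sz_pair a1' _, sz_pair w2 _]
    generalize sz (((a1', a2'), a3'), (a4', a5')) = N at *
    have h9 : a1'.length * (2 * sz a1' + 1) ≤ (sz c + N) * (2 * (sz c + N) + 1) :=
      Nat.mul_le_mul (by omega) (by omega)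
    have h10 : i * (8 * (a1'.length * (2 * sz a1' + 1)) + 4) ≤
        (sz c + N) * (8 * ((sz c + N) * (2 * (sz c + N) + 1)) + 4) :=
      Nat.mul_le_mul (by omega) (by omega)
    rw [h8]
    show _ ≤ (sz c + N) + (sz c + N) * (8 * ((sz c + N) * (2 * (sz c + N) + 1)) + 4)
    omega
  have h2 := (h.comp (hT.pair (((hV.pair hE).pair (hB.pair hC)).pair (hl.pair hst)))).snd'.snd'
  refine (congrArg FP (funext fun a => ?_)).mp h2
  exact (FpR_run _ _ _ _ _ _ _ _ _ _ _).symm

end BSI.M
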