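import Pool.Agent.BSI.FpW

/-!
# BSI machine layer, FpS: one step is polynomial time computable

PLAN. `blkL`: `FP.cons` and `List.flatten` (`List.flatten l = l.flatMap id`, `FP.flatMap_ctx'` of G4/UPList.lean, the context may be a constant). `jnL`, `rmL`: `FP.any_ctx'`, `FP.filter_ctx'`,
`FP.containsNat`. `toF`, `toA`: `FP.natDiv`, `FP.wE`, `FP.natMul`, `FP.natAdd` and `v < w` as `v + 1 ≤ w` (`FP.natLe`; see `FpA_lt` in ACY/MFpA.lean). In `newP` the lists `Z.filter (toF ..)` are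
`FP.filter_ctx'` with the context `((E, m), (z, z'))`, `Prod.fst` by `FP.map`; `List.zip`: `FP.zip'` (G4/UPList.lean). `stepL`: `FP.getDNat`, `FP.ltLength`; `List.set` as `FpA_set` in ACY/MFpA.lean
(`(List.range l.length).map ..`). The conditions with `==` of numbers: `FP.beqNat`; `if b = true then ..`: `FP.ite`. It is convenient to prove FP for `newP` and `pairS` first. If an `if` has a decidable proposition
`x = true` with another instance, use `(congrArg FP (funext fun a => ?_)).mp`.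
-/

set_option autoImplicit false

namespace BSI.M

open Turing Function N487b59b3 N68a2faeb Pool.Agent.Helper22 Pool.Agent.Helper6.WB Computability
  Pool.Agent.Helper47.TR

variable {α : Type} [N487b59b3 α]

private theorem FpS_lt {m n : α → ℕ} (hm : FP m) (hn : FP n) : FP fun a => decide (m a < n a) := by
  refine (congrArg FP (funext fun a => ?_)).mp (FP.natLe (FP.natAdd hm (FP.const 1)) hn)
  exact decide_eq_decide.mpr Nat.succ_le_iff

private theorem FpS_flatten {C : α → List (List ℕ)} (hC : FP C) : FP fun a => (C a).flatten := by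
  have h1 := Pool.Agent.G4.FP.flatMap_ctx' (h := fun (_ : Bool) (b : List ℕ) => b)
    (FP.snd (α := Bool) (β := List ℕ)) (FP.const true) hC
  refine (congrArg FP (funext fun a => ?_)).mp h1
  induction C a with
  | nil => rfl
  | cons b l ih => rw [List.flatMap_cons, List.flatten_cons, ih]

theorem FP.blkL {t : α → ℕ} {C : α → List (List ℕ)} (ht : FP t) (hC : FP C) : FP fun a => BSI.M.blkL (t a) (C a) := by
  exact FP.cons ht (FpS_flatten hC)

theorem FP.jnL {t : α → ℕ} {D : α → List (List ℕ)} (ht : FP t) (hD : FP D) : FP fun a => BSI.M.jnL (t a) (D a) := by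
  exact Pool.Agent.G4.FP.any_ctx' (P := fun (c : ℕ) (B : List ℕ) => B.contains c)
    (Pool.Agent.G4.FP.containsNat FP.snd FP.fst) ht hD

theorem FP.rmL {t : α → ℕ} {D : α → List (List ℕ)} (ht : FP t) (hD : FP D) : FP fun a => BSI.M.rmL (t a) (D a) := by
  exact Pool.Agent.G4.FP.filter_ctx' (P := fun (c : ℕ) (B : List ℕ) => !(B.contains c))
    (FP.not (Pool.Agent.G4.FP.containsNat FP.snd FP.fst)) ht hD

private theorem FpS_kJ (p q : ℕ) {E : α → List (ℕ × ℕ)} {m t s : α → ℕ} {B : α → List ℕ} (hE : FP E)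
    (hm : FP m) (ht : FP t) (hs : FP s) (hB : FP B) :
    FP fun a => BSI.M.kJ p q (E a) (m a) (t a) (s a) (B a) := by
  exact FP.natDiv hm (FP.natAdd (FP.wE p q hE ht hB) (FP.wE p q hE hs hB))

private theorem FpS_toF (p q : ℕ) {E : α → List (ℕ × ℕ)} {m z z' : α → ℕ} {x : α → List ℕ × ℕ} (hE : FP E)
    (hm : FP m) (hz : FP z) (hz' : FP z') (hx : FP x) :
    FP fun a => BSI.M.toF p q (E a) (m a) (z a) (z' a) (x a) := by
  exact FpS_lt hx.snd' (FP.natMul (FpS_kJ p q hE hm hz hz' hx.fst') (FP.wE p q hE hz hx.fst'))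

private theorem FpS_toA (p q : ℕ) {E : α → List (ℕ × ℕ)} {m z z' : α → ℕ} {x : α → List ℕ × ℕ} (hE : FP E)
    (hm : FP m) (hz : FP z) (hz' : FP z') (hx : FP x) :
    FP fun a => BSI.M.toA p q (E a) (m a) (z a) (z' a) (x a) := by
  exact FpS_lt hx.snd' (FP.natMul (FpS_kJ p q hE hm hz hz' hx.fst')
    (FP.natAdd (FP.wE p q hE hz hx.fst') (FP.wE p q hE hz' hx.fst')))

private theorem FpS_filF (p q : ℕ) {E : α → List (ℕ × ℕ)} {m z z' : α → ℕ} {Z : α → List (List ℕ × ℕ)} (hE : FP E)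
    (hm : FP m) (hz : FP z) (hz' : FP z') (hZ : FP Z) :
    FP fun a => ((Z a).filter (BSI.M.toF p q (E a) (m a) (z a) (z' a))).map Prod.fst := by
  have h1 := Pool.Agent.G4.FP.filter_ctx' (P := fun (c : (List (ℕ × ℕ) × ℕ) × (ℕ × ℕ)) (x : List ℕ × ℕ) =>
    BSI.M.toF p q c.1.1 c.1.2 c.2.1 c.2.2 x)
    (FpS_toF p q (by fun_prop) (by fun_prop) (by fun_prop) (by fun_prop) (by fun_prop))
    (FP.pair (FP.pair hE hm) (FP.pair hz hz')) hZ
  exact FP.map (f := Prod.fst) FP.fst h1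

private theorem FpS_filN (p q : ℕ) {E : α → List (ℕ × ℕ)} {m z z' : α → ℕ} {Z : α → List (List ℕ × ℕ)} (hE : FP E)
    (hm : FP m) (hz : FP z) (hz' : FP z') (hZ : FP Z) :
    FP fun a => ((Z a).filter fun x => !(BSI.M.toF p q (E a) (m a) (z a) (z' a) x)).map Prod.fst := by
  have h1 := Pool.Agent.G4.FP.filter_ctx' (P := fun (c : (List (ℕ × ℕ) × ℕ) × (ℕ × ℕ)) (x : List ℕ × ℕ) =>
    !(BSI.M.toF p q c.1.1 c.1.2 c.2.1 c.2.2 x))
    (FP.not (FpS_toF p q (by fun_prop) (by fun_prop) (by fun_prop) (by fun_prop) (by fun_prop)))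
    (FP.pair (FP.pair hE hm) (FP.pair hz hz')) hZ
  exact FP.map (f := Prod.fst) FP.fst h1

private theorem FpS_newP (p q a1 a2 : ℕ) {V : α → List ℕ} {E : α → List (ℕ × ℕ)} {m z z' v0 : α → ℕ}
    {fl g : α → Bool} {Z : α → List (List ℕ × ℕ)} (hV : FP V) (hE : FP E) (hm : FP m) (hz : FP z) (hz' : FP z')
    (hfl : FP fl) (hg : FP g) (hZ : FP Z) (hv : FP v0) :
    FP fun a => BSI.M.newP p q a1 a2 (V a) (E a) (m a) (z a) (z' a) (fl a) (g a) (Z a) (v0 a) := by
  have hF := FpS_filF p q hE hm hz hz' hZ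
  have hN := FpS_filN p q hE hm hz hz' hZ
  have hb := FP.blkL hz hF
  have hA : FP fun a => (Z a).all (BSI.M.toA p q (E a) (m a) (z a) (z' a)) :=
    Pool.Agent.G4.FP.all_ctx' (P := fun (c : (List (ℕ × ℕ) × ℕ) × (ℕ × ℕ)) (x : List ℕ × ℕ) =>
      BSI.M.toA p q c.1.1 c.1.2 c.2.1 c.2.2 x)
      (FpS_toA p q (by fun_prop) (by fun_prop) (by fun_prop) (by fun_prop) (by fun_prop))
      (FP.pair (FP.pair hE hm) (FP.pair hz hz')) hZ
  have hall := Pool.Agent.G4.FP.all_ctx' (P := fun (c : List ℕ) (x : ℕ) => c.contains x)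
    (Pool.Agent.G4.FP.containsNat FP.fst FP.snd) hV hb
  have hacc := FpS_lt hv (FP.ite hfl (FP.natMul (FP.const a1) (FP.powU (FP.const q) hE))
    (FP.natMul (FP.const a2) (FP.wE p q hE hz' hb)))
  have h1 := FP.and hA (FP.and (FP.natLe (FP.length hb) (FP.length hV)) (FP.and hall hacc))
  exact FP.pair h1 (FP.pair (FP.pair hz (FP.pair hF hfl))
    (FP.pair hz' (FP.pair (FP.ite hfl hN (FP.cons hb hN)) hg)))

private theorem FpS_bit (k : ℕ) {u : α → ℕ} (hu : FP u) : FP fun a => (u a == k || u a == 3) :=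
  FP.or (Pool.Agent.G4.FP.beqNat hu (FP.const k)) (Pool.Agent.G4.FP.beqNat hu (FP.const 3))

private theorem FpS_pairS (p q a1 a2 : ℕ) {V : α → List ℕ} {E : α → List (ℕ × ℕ)} {m u2 v0 : α → ℕ}
    {vs : α → List ℕ} {x y : α → Lt} (hV : FP V) (hE : FP E) (hm : FP m) (hu : FP u2) (hs : FP vs) (hv : FP v0)
    (hx : FP x) (hy : FP y) :
    FP fun a => BSI.M.pairS p q a1 a2 (V a) (E a) (m a) (u2 a) (vs a) (v0 a) (x a) (y a) := by
  have hc := FP.or (FP.jnL hx.fst' hy.snd'.fst') (FP.and hx.snd'.snd' hy.snd'.snd')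
  have hb := FpS_bit 1 hu
  have hb2 := FpS_bit 2 hu
  have hZ := Pool.Agent.G4.FP.zip' (FP.append hx.snd'.fst' (FP.rmL hx.fst' hy.snd'.fst')) hs
  have h1 := FpS_newP p q a1 a2 hV hE hm (FP.ite hb hy.fst' hx.fst') (FP.ite hb hx.fst' hy.fst')
    (FP.and hb2 hy.snd'.snd') hy.snd'.snd' hZ hv
  have h2 := FP.pair (FP.and hb (FpS_lt hv (FP.natMul (FP.const a2) (FP.powU (FP.const q) hE)))) (FP.pair hy hx)
  exact FP.ite hc h1 h2

private theorem FpS_set_eq (l : List Lt) (j : ℕ) (Z : Lt) :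
    l.set j Z = (List.range l.length).map fun m => if m == j then Z else l.getD m (0, ([], false)) := by
  apply List.ext_getElem
  · simp
  · intro n h1 h2
    rw [List.length_set] at h1
    rw [List.getElem_set, List.getElem_map, List.getElem_range]
    by_cases h : j = n
    · subst h
      simp
    · have h3 : (n == j) = false := by
        rw [beq_eq_false_iff_ne]
        exact fun h' => h h'.symm
      rw [if_neg h, h3, List.getD_eq_getElem _ _ h1]
      rfl

private theorem FpS_set {l : α → List Lt} {j : α → ℕ} {Z : α → Lt} (hl : FP l)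
    (hj : FP j) (hZ : FP Z) : FP fun a => (l a).set (j a) (Z a) := by
  have h1 : FP fun p : (List Lt × (ℕ × Lt)) × ℕ =>
      if p.2 == p.1.2.1 then p.1.2.2 else p.1.1.getD p.2 (0, ([], false)) :=
    FP.ite (Pool.Agent.G4.FP.beqNat (by fun_prop) (by fun_prop)) (by fun_prop)
      (Pool.Agent.G4.FP.getDNat (by fun_prop) (by fun_prop) (0, ([], false)))
  have h2 := Pool.Agent.G4.FP.map_ctx' (h := fun (c : List Lt × (ℕ × Lt)) (m : ℕ) =>
    if m == c.2.1 then c.2.2 else c.1.getD m (0, ([], false))) h1 (FP.pair hl (FP.pair hj hZ)) (FP.range hl)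
  refine (congrArg FP (funext fun a => ?_)).mp h2
  exact (FpS_set_eq _ _ _).symm

theorem FP.stepL (p q a1 a2 : ℕ) {V : α → List ℕ} {E : α → List (ℕ × ℕ)} {m u1 u2 v0 : α → ℕ} {vs : α → List ℕ}
    {st : α → List Lt} (hV : FP V) (hE : FP E) (hm : FP m) (h1 : FP u1) (h2 : FP u2) (h3 : FP vs) (h4 : FP v0)
    (hst : FP st) :
    FP fun a => BSI.M.stepL p q a1 a2 (V a) (E a) (m a) (u1 a) (u2 a) (vs a) (v0 a) (st a) := by
  have hx : FP fun a => (st a).getD (u1 a) (0, ([], false)) :=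
    Pool.Agent.G4.FP.getDNat hst h1 (0, ([], false))
  have hy : FP fun a => (st a).getD (u1 a + 1) (0, ([], false)) :=
    Pool.Agent.G4.FP.getDNat hst (FP.natAdd h1 (FP.const 1)) (0, ([], false))
  have hP := FpS_pairS p q a1 a2 hV hE hm h2 h3 h4 hx hy
  exact FP.ite (FP.and (FpS_lt (FP.natAdd h1 (FP.const 1)) (FP.length hst)) hP.fst')
    (FpS_set (FpS_set hst h1 hP.snd'.fst') (FP.natAdd h1 (FP.const 1)) hP.snd'.snd') hst

end BSI.M
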