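import Pool.Agent.BSI.MDefs
import Pool.Agent.G4.UPList
import Pool.Agent.PQE.Num

/-!
# BSI machine layer, FpW: division and the weights are polynomial time computable

`natDiv` is long division, a fold over the bits of the dividend, most significant first; the state is the divisor with the
quotient and the remainder.
-/

set_option autoImplicit false

namespace BSI.M

open Turing Function N487b59b3 N68a2faeb Pool.Agent.Helper22 Pool.Agent.Helper6.WB Computability
  Pool.Agent.Helper47.TR

variable {α : Type} [N487b59b3 α]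

/-- one step of the long division -/
private def FpW_step (s : ℕ × (ℕ × ℕ)) (b : Bool) : ℕ × (ℕ × ℕ) :=
  (s.1, if decide (s.1 ≤ s.2.2 + s.2.2 + if b then 1 else 0) then
      (s.2.1 + s.2.1 + 1, (s.2.2 + s.2.2 + if b then 1 else 0) - s.1)
    else (s.2.1 + s.2.1, s.2.2 + s.2.2 + if b then 1 else 0))

private theorem FpW_fst (l : List Bool) (s : ℕ × (ℕ × ℕ)) : (l.foldl FpW_step s).1 = s.1 := by
  induction l generalizing s with
  | nil => rfl
  | cons b l ih => rw [List.foldl_cons, ih]; rfl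

private theorem FpW_bound (l : List Bool) (s : ℕ × (ℕ × ℕ)) :
    (l.foldl FpW_step s).2.1 + 1 ≤ (s.2.1 + 1) * 2 ^ l.length ∧
      (l.foldl FpW_step s).2.2 + 1 ≤ (s.2.2 + 1) * 2 ^ l.length := by
  induction l generalizing s with
  | nil => simp
  | cons b l ih =>
    rw [List.foldl_cons, List.length_cons, pow_succ]
    obtain ⟨h1, h2⟩ := ih (FpW_step s b)
    have h3 : (FpW_step s b).2.1 + 1 ≤ (s.2.1 + 1) * 2 := by
      unfold FpW_step
      dsimp only
      split_ifs <;> dsimp only <;> omega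
    have h4 : (FpW_step s b).2.2 + 1 ≤ (s.2.2 + 1) * 2 := by
      unfold FpW_step
      dsimp only
      split_ifs <;> dsimp only <;> omega
    constructor
    · refine h1.trans ((Nat.mul_le_mul_right _ h3).trans_eq ?_)
      ring
    · refine h2.trans ((Nat.mul_le_mul_right _ h4).trans_eq ?_)
      ring

private theorem FpW_size (a b n : ℕ) (h : a + 1 ≤ (b + 1) * 2 ^ n) : a.size ≤ b.size + n := by
  rw [Nat.size_le, pow_add]
  have h1 : b + 1 ≤ 2 ^ b.size := Nat.lt_size_self b
  exact lt_of_lt_of_le (Nat.lt_of_succ_le h) (Nat.mul_le_mul_right _ h1)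

private theorem FpW_val (l : List Bool) (s : ℕ × (ℕ × ℕ)) (h0 : s.2.2 < s.1) :
    (l.foldl FpW_step s).2.1 * s.1 + (l.foldl FpW_step s).2.2 = hor (s.2.1 * s.1 + s.2.2) l ∧
      (l.foldl FpW_step s).2.2 < s.1 := by
  induction l generalizing s with
  | nil => exact ⟨rfl, h0⟩
  | cons b l ih =>
    rw [List.foldl_cons]
    have h3 : (FpW_step s b).2.2 < (FpW_step s b).1 := by
      unfold FpW_step
      dsimp only
      split_ifs <;> dsimp only <;> simp_all <;> omega
    have h4 : (FpW_step s b).2.1 * s.1 + (FpW_step s b).2.2 = Nat.bit b (s.2.1 * s.1 + s.2.2) := by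
      rw [Nat.bit_val]
      unfold FpW_step
      dsimp only
      by_cases hc : s.1 ≤ s.2.2 + s.2.2 + if b then 1 else 0
      · simp only [hc, decide_true, if_true]
        have : (s.2.1 + s.2.1 + 1) * s.1 = 2 * (s.2.1 * s.1) + s.1 := by ring
        rw [this]
        cases b <;> simp at hc ⊢ <;> omega
      · simp only [hc, decide_false, Bool.false_eq_true, if_false]
        have : (s.2.1 + s.2.1) * s.1 = 2 * (s.2.1 * s.1) := by ring
        rw [this]
        cases b <;> simp <;> omega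
    have h5 := ih (FpW_step s b) h3
    have h6 : (FpW_step s b).1 = s.1 := rfl
    rw [h6, h4] at h5
    exact h5

private theorem FpW_fold : FP fun p : List Bool × (ℕ × (ℕ × ℕ)) => p.1.foldl FpW_step p.2 := by
  refine FP.foldl ?_ (B := fun n => 7 * n + 1) (by fun_prop) ?_
  · have h1 : FP fun p : (ℕ × (ℕ × ℕ)) × Bool => p.1.2.2 + p.1.2.2 + if p.2 then 1 else 0 :=
      FP.natAdd (by fun_prop) (FP.ite (by fun_prop) (FP.const 1) (FP.const 0))
    exact FP.pair (by fun_prop) (FP.ite (FP.natLe (by fun_prop) h1)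
      (FP.pair (FP.natAdd (by fun_prop) (FP.const 1)) (Pool.Agent.PQE.FP.natSub h1 (by fun_prop)))
      (FP.pair (by fun_prop) h1))
  · intro l s
    obtain ⟨h1, h2⟩ := FpW_bound l s
    have h3 := FpW_fst l s
    have h4 := FpW_size _ _ _ h1
    have h5 := FpW_size _ _ _ h2
    obtain ⟨g, q, r⟩ := s
    generalize List.foldl FpW_step (g, (q, r)) l = w at h3 h4 h5 ⊢
    obtain ⟨g', q', r'⟩ := w
    dsimp only at h3 h4 h5
    subst h3
    have h7 := length_le_sz l
    simp only [sz_pair, sz_nat]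
    omega

private theorem FpW_div (n g : ℕ) (hg : 0 < g) :
    ((encodeNat n).reverse.foldl FpW_step (g, (0, 0))).2.1 = n / g := by
  obtain ⟨h1, h2⟩ := FpW_val (encodeNat n).reverse (g, (0, 0)) hg
  dsimp only at h1 h2
  rw [zero_mul, zero_add, hor_reverse, val_encodeNat] at h1
  exact ((Nat.div_mod_unique hg).2 ⟨by rw [mul_comm g, add_comm]; exact h1, h2⟩).1.symm

theorem FP.natDiv {f g : α → ℕ} (hf : FP f) (hg : FP g) : FP fun a => f a / g a := by
  have h1 := (FpW_fold.comp ((FP.reverse (FP.bits hf)).pair (hg.pair (FP.const (0, 0))))).snd'.fst'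
  have h2 := FP.ite (FP.natEq hg (FP.const 0)) (FP.const 0) h1
  refine (congrArg FP (funext fun a => ?_)).mp h2
  by_cases h : g a = 0
  · simp [h]
  · simp only [h, decide_false, Bool.false_eq_true, if_false]
    exact FpW_div _ _ (Nat.pos_of_ne_zero h)

private theorem FpW_in {u : α → ℕ} {B : α → List ℕ} {e : α → ℕ × ℕ} (hu : FP u) (hB : FP B) (he : FP e) :
    FP fun a => ((e a).1 == u a && (B a).contains (e a).2) || ((e a).2 == u a && (B a).contains (e a).1) :=
  FP.or (FP.and (Pool.Agent.G4.FP.beqNat he.fst' hu) (Pool.Agent.G4.FP.containsNat hB he.snd'))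
    (FP.and (Pool.Agent.G4.FP.beqNat he.snd' hu) (Pool.Agent.G4.FP.containsNat hB he.fst'))

theorem FP.eb {E : α → List (ℕ × ℕ)} {u : α → ℕ} {B : α → List ℕ} (hE : FP E) (hu : FP u) (hB : FP B) :
    FP fun a => BSI.M.eb (E a) (u a) (B a) :=
  Pool.Agent.G4.FP.filter_ctx' (P := fun (c : ℕ × List ℕ) (e : ℕ × ℕ) =>
    (e.1 == c.1 && c.2.contains e.2) || (e.2 == c.1 && c.2.contains e.1))
    (FpW_in (by fun_prop) (by fun_prop) (by fun_prop)) (FP.pair hu hB) hE

theorem FP.ec {E : α → List (ℕ × ℕ)} {u : α → ℕ} {B : α → List ℕ} (hE : FP E) (hu : FP u) (hB : FP B) :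
    FP fun a => BSI.M.ec (E a) (u a) (B a) :=
  Pool.Agent.G4.FP.filter_ctx' (P := fun (c : ℕ × List ℕ) (e : ℕ × ℕ) =>
    !((e.1 == c.1 && c.2.contains e.2) || (e.2 == c.1 && c.2.contains e.1)))
    (FP.not (FpW_in (by fun_prop) (by fun_prop) (by fun_prop))) (FP.pair hu hB) hE

theorem FP.wE (p q : ℕ) {E : α → List (ℕ × ℕ)} {u : α → ℕ} {B : α → List ℕ} (hE : FP E) (hu : FP u) (hB : FP B) :
    FP fun a => BSI.M.wE p q (E a) (u a) (B a) := by
  have h1 := FP.eb hE hu hB
  have h2 := FP.ec hE hu hB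
  have h3 := FP.powU (FP.const (α := α) q) h1
  have h4 := FP.powU (FP.const (α := α) p) h1
  exact FP.natMul (FP.ite (FP.odd h1) (FP.natAdd h3 h4) (Pool.Agent.PQE.FP.natSub h3 h4))
    (FP.powU (FP.const (α := α) q) h2)

end BSI.M
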