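import Pool.Agent.BSI.MDefs

/-!
# BSI machine layer, Gr: graphs, deletion, contraction, the weights as real numbers
-/

set_option autoImplicit false

namespace BSI.M

/-- a multigraph without loops on the vertices `V` -/
def Gr (V : List ℕ) (E : List (ℕ × ℕ)) : Prop := V.Nodup ∧ ∀ e ∈ E, e.1 ∈ V ∧ e.2 ∈ V ∧ e.1 ≠ e.2

theorem Gr.del {V : List ℕ} {E : List (ℕ × ℕ)} (h : Gr V E) (u v : ℕ) : Gr V (delE u v E) := by
  refine ⟨h.1, fun e he => h.2 e ?_⟩
  exact (List.mem_filter.1 he).1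

theorem Gr.con {V : List ℕ} {E : List (ℕ × ℕ)} {u v : ℕ} (h : Gr V E) (hu : u ∈ V) (huv : u ≠ v) :
    Gr (conV v V) (conE u v E) := by
  refine ⟨h.1.filter _, fun e he => ?_⟩
  obtain ⟨a, ha, rfl⟩ := List.mem_map.1 he
  obtain ⟨ha, hn⟩ := List.mem_filter.1 ha
  obtain ⟨h1, h2, h3⟩ := h.2 a ha
  have hn' : ¬ ((a.1 = u ∧ a.2 = v) ∨ (a.1 = v ∧ a.2 = u)) := by
    intro hc
    have hh : isE u v a = true := by
      rcases hc with ⟨h1, h2⟩ | ⟨h1, h2⟩ <;> simp [isE, h1, h2]
    simp [hh] at hn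
  simp only [conV, List.mem_filter]
  by_cases c1 : a.1 = v
  · by_cases c2 : a.2 = v
    · exact absurd (c1.trans c2.symm) h3
    · have hu2 : u ≠ a.2 := fun hh => hn' (Or.inr ⟨c1, hh.symm⟩)
      simp [c1, c2, hu, h2, huv, hu2]
  · by_cases c2 : a.2 = v
    · have hu1 : a.1 ≠ u := fun hh => hn' (Or.inl ⟨hh, c2⟩)
      simp [c1, c2, hu, h1, huv, hu1]
    · simp [c1, c2, h1, h2, h3]

theorem delE_length (e : ℕ × ℕ) (E : List (ℕ × ℕ)) : (delE e.1 e.2 (e :: E)).length ≤ E.length := by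
  have : delE e.1 e.2 (e :: E) = delE e.1 e.2 E := by
    simp [delE, isE]
  rw [this]
  exact List.length_filter_le _ _

theorem conE_length (u v : ℕ) (E : List (ℕ × ℕ)) : (conE u v E).length = (delE u v E).length := by
  simp [conE]

theorem conV_length {V : List ℕ} {v : ℕ} (h : V.Nodup) (hv : v ∈ V) : (conV v V).length + 1 = V.length := by
  have h1 : conV v V = V.erase v := by
    rw [h.erase_eq_filter]
    rfl
  rw [h1, List.length_erase_of_mem hv]
  have := List.length_pos_of_mem hv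
  omega

theorem conV_ne {V : List ℕ} {u v : ℕ} (hu : u ∈ V) (huv : u ≠ v) : conV v V ≠ [] := by
  have : u ∈ conV v V := by simp [conV, hu, huv]
  exact List.ne_nil_of_mem this

theorem two_le {V : List ℕ} {e : ℕ × ℕ} {E : List (ℕ × ℕ)} (h : Gr V (e :: E)) : 2 ≤ V.length := by
  obtain ⟨h1, h2, h3⟩ := h.2 e (by simp)
  have := conV_length h.1 h2
  have := List.length_pos_of_ne_nil (conV_ne h1 h3)
  omega

theorem eb_ne (e : ℕ × ℕ) (E : List (ℕ × ℕ)) : eb (e :: E) e.1 [e.2] ≠ [] := by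
  have : e ∈ eb (e :: E) e.1 [e.2] := by simp [eb]
  exact List.ne_nil_of_mem this

private theorem gr_len (E : List (ℕ × ℕ)) (u : ℕ) (B : List ℕ) :
    E.length = (eb E u B).length + (ec E u B).length := by
  unfold eb ec
  exact List.length_eq_length_filter_add _

private theorem gr_wE (p q : ℕ) (E : List (ℕ × ℕ)) (u : ℕ) (B : List ℕ) :
    (¬ (eb E u B).length % 2 = 1 → p ^ (eb E u B).length ≤ q ^ (eb E u B).length) →
    (wE p q E u B : ℝ) = ((q : ℝ) ^ (eb E u B).length - (-(p : ℝ)) ^ (eb E u B).length) *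
      (q : ℝ) ^ (ec E u B).length := by
  intro hle
  unfold wE
  by_cases hj : (eb E u B).length % 2 = 1
  · have ho : Odd (eb E u B).length := Nat.odd_iff.2 hj
    simp only [hj, decide_true, if_true, Nat.cast_mul, Nat.cast_add, Nat.cast_pow]
    rw [ho.neg_pow]
    ring
  · have he : Even (eb E u B).length := Nat.even_iff.2 (by omega)
    have := hle hj
    simp only [hj, decide_false, Bool.false_eq_true, if_false, Nat.cast_mul, Nat.cast_pow]
    rw [Nat.cast_sub this, he.neg_pow]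
    push_cast
    ring

theorem wE_cast {p q : ℕ} (hpq : p < q) (E : List (ℕ × ℕ)) (u : ℕ) (B : List ℕ) :
    (wE p q E u B : ℝ) = (q : ℝ) ^ E.length * (1 - (-(p : ℝ) / q) ^ (eb E u B).length) := by
  rw [gr_wE p q E u B (fun _ => Nat.pow_le_pow_left hpq.le _), gr_len E u B, pow_add, div_pow]
  have hq : (q : ℝ) ^ (eb E u B).length ≠ 0 := by
    have : (q : ℝ) ≠ 0 := by
      have : 0 < q := by omega
      positivity
    exact pow_ne_zero _ this
  field_simp

theorem wE_zero (p q : ℕ) (E : List (ℕ × ℕ)) (u : ℕ) (B : List ℕ) (h : eb E u B = []) : wE p q E u B = 0 := by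
  simp [wE, h]

theorem wE_low {p q : ℕ} (hpq : p < q) {E : List (ℕ × ℕ)} {u : ℕ} {B : List ℕ} (h : eb E u B ≠ []) :
    (q : ℝ) ^ E.length * (1 - ((p : ℝ) / q) ^ 2) ≤ wE p q E u B := by
  rw [wE_cast hpq]
  have hq : (0 : ℝ) < q := by
    have : 0 < q := by omega
    exact_mod_cast this
  have hr0 : (0 : ℝ) ≤ (p : ℝ) / q := by positivity
  have hr1 : (p : ℝ) / q ≤ 1 := by
    rw [div_le_one hq]
    exact_mod_cast hpq.le
  have hj := List.length_pos_of_ne_nil h
  refine mul_le_mul_of_nonneg_left ?_ (by positivity)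
  have : (-(p : ℝ) / q) ^ (eb E u B).length ≤ ((p : ℝ) / q) ^ 2 := by
    rw [neg_div]
    rcases Nat.even_or_odd (eb E u B).length with he | ho
    · rw [he.neg_pow]
      refine pow_le_pow_of_le_one hr0 hr1 ?_
      obtain ⟨k, hk⟩ := he
      omega
    · rw [ho.neg_pow]
      have : 0 ≤ ((p : ℝ) / q) ^ (eb E u B).length := by positivity
      have : 0 ≤ ((p : ℝ) / q) ^ 2 := by positivity
      linarith
  linarith

theorem wE_pos {p q : ℕ} (hpq : p < q) {E : List (ℕ × ℕ)} {u : ℕ} {B : List ℕ} (h : eb E u B ≠ []) :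
    0 < wE p q E u B := by
  have h1 := wE_low hpq h
  have hq : (0 : ℝ) < q := by
    have : 0 < q := by omega
    exact_mod_cast this
  have hr0 : (0 : ℝ) ≤ (p : ℝ) / q := by positivity
  have hr1 : (p : ℝ) / q < 1 := by
    rw [div_lt_one hq]
    exact_mod_cast hpq
  have h2 : (0 : ℝ) < (q : ℝ) ^ E.length * (1 - ((p : ℝ) / q) ^ 2) := by
    have : ((p : ℝ) / q) ^ 2 < 1 := by nlinarith
    have : 0 < (1 - ((p : ℝ) / q) ^ 2) := by linarith
    positivity
  have h3 : (0 : ℝ) < (wE p q E u B : ℝ) := lt_of_lt_of_le h2 h1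
  exact_mod_cast h3

theorem wE_le {p q : ℕ} (hpq : p < q) (E : List (ℕ × ℕ)) (u : ℕ) (B : List ℕ) : wE p q E u B ≤ 2 * q ^ E.length := by
  have hp := Nat.pow_le_pow_left hpq.le (eb E u B).length
  rw [gr_len E u B, pow_add]
  unfold wE
  rw [← mul_assoc]
  refine Nat.mul_le_mul_right _ ?_
  split_ifs <;> omega

end BSI.M
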