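import Pool.Agent.BSI.KL
import Pool.Agent.BSI.Bas

/-!
# BSI: bounds for the partition function and the probability of a list of letters

`WL` is the product of the weights of the letters. The partition function is at most the number of the lists of
letters times the largest weight, and the probability of a list is its weight divided by `card ! * T`.
-/

set_option autoImplicit false

namespace BSI

open Finset

/-- the product of the weights of the letters -/
noncomputable def WL (Y : ℕ → ℕ → ℝ) (a : ℝ) : St → List Le → ℝ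
  | _, [] => 1
  | X, l :: m => wl Y a X l * WL Y a (nx X l) m

/-- the letters are possible -/
def Adm : St → List Le → Prop
  | X, [] => X.1 = ∅
  | X, l :: m => l ∈ lts X ∧ Adm (nx X l) m

private theorem InB_wl_le {Y : ℕ → ℕ → ℝ} {a : ℝ} (hY : ∀ u v, |Y u v| ≤ 1) (ha : 0 ≤ a) {X : St} {l : Le}
    (hl : l ∈ lts X) : wl Y a X l ≤ 2 ^ X.2.card * (1 + a) := by
  unfold wl
  have h1 : cc Y l.1 l.2.1 ≤ 2 ^ X.2.card := by
    unfold cc
    have h2 : ∏ B ∈ l.2.1, (1 - yb Y l.1 B) ≤ ∏ _B ∈ l.2.1, (2 : ℝ) := by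
      refine Finset.prod_le_prod (fun B _ => ?_) fun B _ => ?_
      · have := (abs_le.1 (yb_abs hY l.1 B)).2
        linarith
      · have := (abs_le.1 (yb_abs hY l.1 B)).1
        linarith
    refine h2.trans ?_
    rw [Finset.prod_const]
    exact pow_le_pow_right₀ one_le_two (Finset.card_le_card (lts_sub hl))
  refine mul_le_mul h1 ?_ ?_ (by positivity)
  · split_ifs
    · linarith
    · linarith
  · split_ifs
    · exact ha
    · exact zero_le_one

private theorem InB_card {X : St} : (lts X).card ≤ X.1.card * (2 ^ X.2.card * 2) := by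
  unfold lts
  split_ifs
  · rw [Finset.card_product, Finset.card_product, Finset.card_powerset, Finset.card_univ, Fintype.card_bool]
  · rw [Finset.card_product, Finset.card_product, Finset.card_singleton, Finset.card_singleton]
    have h1 : 1 ≤ 2 ^ X.2.card := Nat.one_le_two_pow
    exact Nat.mul_le_mul_left _ (by omega)

private theorem InB_nx {X : St} {l : Le} (hl : l ∈ lts X) :
    (nx X l).1.card + (nx X l).2.card ≤ X.1.card + X.2.card := by
  have h1 := card_nx hl
  have h2 : (nx X l).2.card ≤ X.2.card + 1 := by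
    unfold nx
    simp only
    split_ifs
    · exact (Finset.card_le_card Finset.sdiff_subset).trans (by omega)
    · exact (Finset.card_insert_le _ _).trans
        (Nat.succ_le_succ (Finset.card_le_card Finset.sdiff_subset))
  omega

theorem T_le {Y : ℕ → ℕ → ℝ} {η a : ℝ} (hY : Lab Y η) (ha : 0 ≤ a) {N : ℕ} {X : St}
    (h : X.1.card + X.2.card ≤ N) : T Y a X ≤ (2 ^ (2 * N + 1) * (1 + a)) ^ X.1.card := by
  have hY' : ∀ u v, |Y u v| ≤ 1 := hY.abs_le
  induction hn : X.1.card generalizing X with
  | zero =>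
    rw [T_empty (Finset.card_eq_zero.1 hn), pow_zero]
  | succ n ih =>
    have hne : X.1.Nonempty := Finset.card_pos.1 (by omega)
    have hc : (0 : ℝ) < X.1.card := by
      rw [hn]
      positivity
    set K : ℝ := 2 ^ (2 * N + 1) * (1 + a) with hK
    have hK0 : 0 ≤ K := by positivity
    rw [T_rec hne, div_le_iff₀ hc]
    have h1 : ∑ l ∈ lts X, wl Y a X l * T Y a (nx X l) ≤
        ∑ _l ∈ lts X, 2 ^ X.2.card * (1 + a) * K ^ n := by
      refine Finset.sum_le_sum fun l hl => ?_
      have h2 := card_nx hl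
      have h3 := InB_nx hl
      exact mul_le_mul (InB_wl_le hY' ha hl) (ih (by omega) (by omega)) (T_nonneg hY' ha _)
        (by positivity)
    refine h1.trans ?_
    rw [Finset.sum_const, nsmul_eq_mul]
    have h4 : ((lts X).card : ℝ) ≤ X.1.card * (2 ^ X.2.card * 2) := by exact_mod_cast InB_card
    have h5 : (2 : ℝ) ^ X.2.card * 2 * (2 ^ X.2.card * (1 + a)) ≤ K := by
      rw [hK]
      have h6 : (2 : ℝ) ^ X.2.card * 2 * 2 ^ X.2.card = 2 ^ (2 * X.2.card + 1) := by
        rw [pow_succ, two_mul, pow_add]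
        ring
      have h7 : (2 : ℝ) ^ (2 * X.2.card + 1) ≤ 2 ^ (2 * N + 1) :=
        pow_le_pow_right₀ one_le_two (by omega)
      calc (2 : ℝ) ^ X.2.card * 2 * (2 ^ X.2.card * (1 + a))
          = (2 : ℝ) ^ X.2.card * 2 * 2 ^ X.2.card * (1 + a) := by ring
        _ = 2 ^ (2 * X.2.card + 1) * (1 + a) := by rw [h6]
        _ ≤ 2 ^ (2 * N + 1) * (1 + a) := mul_le_mul_of_nonneg_right h7 (by linarith)
    calc ((lts X).card : ℝ) * (2 ^ X.2.card * (1 + a) * K ^ n)
        ≤ X.1.card * (2 ^ X.2.card * 2) * (2 ^ X.2.card * (1 + a) * K ^ n) :=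
          mul_le_mul_of_nonneg_right h4 (by positivity)
      _ = (2 ^ X.2.card * 2 * (2 ^ X.2.card * (1 + a))) * (K ^ n * X.1.card) := by ring
      _ ≤ K * (K ^ n * X.1.card) := mul_le_mul_of_nonneg_right h5 (by positivity)
      _ = K ^ (n + 1) * X.1.card := by ring

private theorem InB_WL_nonneg {Y : ℕ → ℕ → ℝ} {a : ℝ} (hY : ∀ u v, |Y u v| ≤ 1) (ha : 0 ≤ a)
    (l : List Le) (X : St) : 0 ≤ WL Y a X l := by
  induction l generalizing X with
  | nil => exact zero_le_one
  | cons x m ih => exact mul_nonneg (wl_nonneg hY ha X x) (ih _)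

/-- positivity of the partition function and of the probabilities from the positivity of the weights -/
theorem T_pos_of {Y : ℕ → ℕ → ℝ} {η a : ℝ} (hY : Lab Y η) (ha : 0 ≤ a) {X : St} {l : List Le} (h : Adm X l)
    (hw : 0 < WL Y a X l) : 0 < T Y a X ∧ Pos Y a X l := by
  have hY' : ∀ u v, |Y u v| ≤ 1 := hY.abs_le
  induction l generalizing X with
  | nil =>
    have h1 : X.1 = ∅ := h
    exact ⟨by rw [T_empty h1]; exact zero_lt_one, h1⟩
  | cons x m ih =>
    obtain ⟨hx, hm⟩ := h
    have hw' : 0 < wl Y a X x * WL Y a (nx X x) m := hw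
    have h1 := wl_nonneg hY' ha X x
    have h2 := InB_WL_nonneg hY' ha m (nx X x)
    have h3 : 0 < wl Y a X x := by
      rcases h1.lt_or_eq with h | h
      · exact h
      · rw [← h, zero_mul] at hw'
        exact absurd hw' (lt_irrefl 0)
    have h4 : 0 < WL Y a (nx X x) m := by
      rcases h2.lt_or_eq with h | h
      · exact h
      · rw [← h, mul_zero] at hw'
        exact absurd hw' (lt_irrefl 0)
    obtain ⟨h5, h6⟩ := ih hm h4
    have hne : X.1.Nonempty := ⟨x.1, lts_fst hx⟩
    have hc : (0 : ℝ) < X.1.card := by exact_mod_cast hne.card_pos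
    have h7 : 0 < T Y a X := by
      rw [T_rec hne]
      refine div_pos ?_ hc
      exact Finset.sum_pos' (fun l _ => mul_nonneg (wl_nonneg hY' ha X l) (T_nonneg hY' ha _))
        ⟨x, hx, mul_pos h3 h5⟩
    exact ⟨h7, hx, div_pos (mul_pos h3 h5) (mul_pos hc h7), h6⟩

theorem PrL_eq {Y : ℕ → ℕ → ℝ} {η a : ℝ} (hY : Lab Y η) (ha : 0 ≤ a) {X : St} {l : List Le} (h : Adm X l)
    (hw : 0 < WL Y a X l) : PrL Y a X l = WL Y a X l / ((X.1.card.factorial : ℝ) * T Y a X) := by
  have hY' : ∀ u v, |Y u v| ≤ 1 := hY.abs_le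
  induction l generalizing X with
  | nil =>
    have h1 : X.1 = ∅ := h
    rw [T_empty h1, h1]
    simp [PrL, WL]
  | cons x m ih =>
    obtain ⟨hT, -, -, hP⟩ := T_pos_of hY ha h hw
    obtain ⟨hx, hm⟩ := h
    have hw' : 0 < wl Y a X x * WL Y a (nx X x) m := hw
    have h2 := InB_WL_nonneg hY' ha m (nx X x)
    have h4 : 0 < WL Y a (nx X x) m := by
      rcases h2.lt_or_eq with h | h
      · exact h
      · rw [← h, mul_zero] at hw'
        exact absurd hw' (lt_irrefl 0)
    have h5 := (T_pos_of hY ha hm h4).1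
    have hne : X.1.Nonempty := ⟨x.1, lts_fst hx⟩
    have hc : (0 : ℝ) < X.1.card := by exact_mod_cast hne.card_pos
    have hcn := card_nx hx
    have h6 : (X.1.card.factorial : ℝ) = X.1.card * ((nx X x).1.card.factorial : ℝ) := by
      rw [← hcn, Nat.factorial_succ]
      push_cast
      ring
    have h7 : (0 : ℝ) < ((nx X x).1.card.factorial : ℝ) := by exact_mod_cast Nat.factorial_pos _
    have h8 : PrL Y a X (x :: m) = pr Y a X x * PrL Y a (nx X x) m := rfl
    have h9 : WL Y a X (x :: m) = wl Y a X x * WL Y a (nx X x) m := rfl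
    rw [h8, h9, ih hm h4, h6]
    unfold pr
    field_simp

end BSI
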