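import Pool.Agent.BSI.Bas

/-!
# BSI (MP_e767af_lc): the insertion of one vertex
-/

set_option autoImplicit false

namespace BSI

open Finset ACY

variable {Y : ℕ → ℕ → ℝ} {a : ℝ} {X : St}

/-- insertion of the vertex `t` -/
noncomputable def ins (Y : ℕ → ℕ → ℝ) (a : ℝ) (t : ℕ) (F : St → ℝ) (X : St) : ℝ :=
  ∑ l ∈ (lts X).filter (fun l => l.1 = t), wl Y a X l * F (nx X l)

theorem ins_congr {t : ℕ} {F G : St → ℝ} (h : ∀ l ∈ lts X, l.1 = t → F (nx X l) = G (nx X l)) :
    ins Y a t F X = ins Y a t G X := by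
  unfold ins
  refine Finset.sum_congr rfl fun l hl => ?_
  rw [h l (Finset.mem_filter.1 hl).1 (Finset.mem_filter.1 hl).2]

theorem sum_ins (F : St → ℝ) : ∑ l ∈ lts X, wl Y a X l * F (nx X l) = ∑ t ∈ X.1, ins Y a t F X := by
  unfold ins
  exact (Finset.sum_fiberwise_of_maps_to (fun l hl => lts_fst hl) _).symm

theorem T_sum_ins (h : X.1.Nonempty) : T Y a X = (∑ t ∈ X.1, ins Y a t (T Y a) X) / X.1.card := by
  rw [T_rec h, sum_ins]

theorem ins_two {t : ℕ} (hc : 2 ≤ X.1.card) (ht : t ∈ X.1) (F : St → ℝ) :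
    ins Y a t F X = ∑ C ∈ X.2.powerset,
      cc Y t C * (F (nx X (t, (C, false))) + a * F (nx X (t, (C, true)))) := by
  have h1 : (lts X).filter (fun l => l.1 = t) = ({t} : Finset ℕ) ×ˢ (X.2.powerset ×ˢ (Finset.univ : Finset Bool)) := by
    ext l
    rw [Finset.mem_filter, lts_two hc, Finset.mem_product, Finset.mem_product, Finset.mem_singleton,
      Finset.mem_powerset]
    constructor
    · rintro ⟨⟨_, h2⟩, h3⟩
      exact ⟨h3, h2, Finset.mem_univ _⟩
    · rintro ⟨h1, h2, _⟩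
      exact ⟨⟨h1 ▸ ht, h2⟩, h1⟩
  unfold ins
  rw [h1, Finset.sum_product, Finset.sum_singleton, Finset.sum_product]
  refine Finset.sum_congr rfl fun C _ => ?_
  rw [Fintype.sum_bool]
  unfold wl
  simp only [hc, and_true, if_true, Bool.false_eq_true, if_false, mul_one]
  ring

theorem ins_one {t : ℕ} (hc : X.1 = {t}) (F : St → ℝ) : ins Y a t F X = cc Y t X.2 * F (∅, ∅) := by
  have h0 : X.1.card < 2 := by rw [hc, Finset.card_singleton]; omega
  have h1 : (lts X).filter (fun l => l.1 = t) = {(t, (X.2, true))} := by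
    ext l
    rw [Finset.mem_filter, lts_one h0, Finset.mem_singleton]
    constructor
    · rintro ⟨⟨_, h2⟩, h3⟩
      exact Prod.ext h3 h2
    · rintro rfl
      exact ⟨⟨by rw [hc]; exact Finset.mem_singleton_self t, rfl⟩, rfl⟩
  unfold ins
  rw [h1, Finset.sum_singleton]
  have h2 : nx X (t, (X.2, true)) = (∅, ∅) := by
    unfold nx
    simp [hc]
  rw [h2]
  unfold wl
  rw [if_neg (by intro h; have := h.2; omega), mul_one]

theorem yb_insert {t s : ℕ} {B : Finset ℕ} (h : s ∉ B) : yb Y t (insert s B) = Y t s * yb Y t B := by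
  unfold yb
  exact Finset.prod_insert h

theorem yb_blk (hX : Wf X) {t s : ℕ} (ht : t ∈ X.1) {C : Finset (Finset ℕ)} (hC : C ⊆ X.2) :
    yb Y s (blk t C) = Y s t * ∏ B ∈ C, yb Y s B := by
  unfold blk
  rw [yb_insert]
  · congr 1
    unfold yb
    rw [Finset.prod_biUnion]
    · rfl
    · intro B hB D hD hne
      exact hX.dj B (hC hB) D (hC hD) hne
  · intro h
    obtain ⟨B, hB, htB⟩ := Finset.mem_biUnion.1 h
    exact Finset.disjoint_left.1 (hX.dR B (hC hB)) htB ht

end BSI
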