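import Pool.Agent.BSI.Phi
import Pool.Agent.BSI.Bas
import Pool.Agent.BSI.Ins
import Pool.Agent.BSI.KapW

/-!
# BSI machine layer, IniM: merging two blocks keeps the partition function positive, the greedy step

PLAN. `Y = YE p q E`, `a = 0`. `Y`-adjacency of `t` and a block `D` (`t ∉ D`): `yb Y t D ≠ 1`, equivalently there is an edge of `E` between `t` and `D` (`yb_YE`, `yb_low`, `0 ≤ p < q`; `1 - yb Y t D > 0` iff adjacent), so it is monotone in `D`. `merge`: induction on `R.card`, generalising `P A B`. `T_rec` (Bas.lean): a positive term, a letter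
`l = (t, (C, f))` with `0 < wl` and `0 < T (nx X l)`. If `R.card = 1`: `T = cc Y t P * T (∅, ∅)` (`ins_one`, `T_sum_ins`), and all factors of `cc` of the merged set are positive. If `2 ≤ R.card`: `f = false` (`a = 0`). Cases: `A, B ∈ C`: the letter `(t, (insert (A ∪ B) ((C.erase A).erase B), false))` of the merged state has the same next state.
`A ∈ C`, `B ∉ C` (or symmetric): the letter with `insert (A ∪ B) (C.erase A)`; the next state is the merge of the new block `blk t C` and `B` in `nx X l`: induction. Both not in `C`: the same letter; the next state is the merge of `A`, `B` in `nx X l`. In the sum of `T_rec` all terms are nonnegative (`T_nonneg`), so one positive term is enough.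
`greedy`: by `hins` and `ins_two` there is `C ⊆ X.2` with `0 < cc Y t C` and `0 < T (nx X (t, (C, false)))`; all blocks of `C` are adjacent; `nx X (t, (Cmax, false))` arises from `nx X (t, (C, false))` by merging the new block with the blocks of `Cmax \\ C`, one after the other (induction on the number of these blocks).
-/

set_option autoImplicit false

namespace BSI.M

open Finset

private theorem IniM_r {p q : ℕ} (hpq : p < q) {j : ℕ} (hj : j ≠ 0) : (-(p : ℝ) / q) ^ j < 1 := by
  have hq : (0 : ℝ) < q := by
    have : 0 < q := by omega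
    exact_mod_cast this
  have h0 : 0 ≤ (p : ℝ) / q := by positivity
  have h1 : (p : ℝ) / q < 1 := by
    rw [div_lt_one hq]
    exact_mod_cast hpq
  have h2 : |(-(p : ℝ) / q) ^ j| < 1 := by
    rw [abs_pow, neg_div, abs_neg, abs_of_nonneg h0]
    exact pow_lt_one₀ h0 h1 hj
  exact (abs_lt.1 h2).2

private theorem IniM_adj {p q : ℕ} (hpq : p < q) (E : List (ℕ × ℕ)) {t : ℕ} {B : Finset ℕ} (ht : t ∉ B) :
    0 < 1 - yb (YE p q E) t B ↔ ∃ e ∈ E, (e.1 = t ∧ e.2 ∈ B) ∨ (e.2 = t ∧ e.1 ∈ B) := by
  have h1 := yb_YE p q E (u := t) (B := B.toList) (by rwa [Finset.mem_toList])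
  rw [Finset.toList_toFinset] at h1
  rw [h1]
  have h2 : (∃ e ∈ E, (e.1 = t ∧ e.2 ∈ B) ∨ (e.2 = t ∧ e.1 ∈ B)) ↔ (eb E t B.toList).length ≠ 0 := by
    rw [Ne, List.length_eq_zero_iff]
    unfold eb
    rw [List.filter_eq_nil_iff]
    push Not
    refine exists_congr fun e => ?_
    simp only [Bool.or_eq_true, Bool.and_eq_true, beq_iff_eq, List.contains_iff_mem, Finset.mem_toList]
  rw [h2]
  constructor
  · intro h h3
    rw [h3, pow_zero] at h
    linarith
  · intro h
    have := IniM_r hpq h
    linarith

private theorem IniM_mono {p q : ℕ} (hpq : p < q) (E : List (ℕ × ℕ)) {t : ℕ} {B D : Finset ℕ} (hD : t ∉ D)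
    (hBD : B ⊆ D) (h : 0 < 1 - yb (YE p q E) t B) : 0 < 1 - yb (YE p q E) t D := by
  rw [IniM_adj hpq E hD]
  rw [IniM_adj hpq E (fun h1 => hD (hBD h1))] at h
  obtain ⟨e, he, h1⟩ := h
  refine ⟨e, he, ?_⟩
  rcases h1 with ⟨h1, h2⟩ | ⟨h1, h2⟩
  · exact Or.inl ⟨h1, hBD h2⟩
  · exact Or.inr ⟨h1, hBD h2⟩

private theorem IniM_cc {Y : ℕ → ℕ → ℝ} (hY : ∀ u v, |Y u v| ≤ 1) {t : ℕ} {C : Finset (Finset ℕ)} :
    0 < cc Y t C ↔ ∀ B ∈ C, 0 < 1 - yb Y t B := by
  constructor
  · intro h B hB
    have h1 := (abs_le.1 (yb_abs hY t B)).2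
    rcases (sub_nonneg.2 h1).lt_or_eq with h2 | h2
    · exact h2
    · exfalso
      have h3 : cc Y t C = 0 := Finset.prod_eq_zero hB h2.symm
      rw [h3] at h
      exact lt_irrefl 0 h
  · intro h
    exact Finset.prod_pos h

private theorem IniM_pos {Y : ℕ → ℕ → ℝ} (hY : ∀ u v, |Y u v| ≤ 1) {X : St} (hX : X.1.Nonempty) :
    0 < T Y 0 X ↔ ∃ l ∈ lts X, 0 < wl Y 0 X l ∧ 0 < T Y 0 (nx X l) := by
  have hc : (0 : ℝ) < X.1.card := by exact_mod_cast hX.card_pos
  have hnn : ∀ l ∈ lts X, 0 ≤ wl Y 0 X l * T Y 0 (nx X l) := fun l _ =>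
    mul_nonneg (wl_nonneg hY le_rfl X l) (T_nonneg hY le_rfl _)
  rw [T_rec hX]
  constructor
  · intro h
    have h1 : 0 < ∑ l ∈ lts X, wl Y 0 X l * T Y 0 (nx X l) := by
      by_contra h2
      have h3 := div_nonpos_of_nonpos_of_nonneg (not_lt.1 h2) hc.le
      exact absurd h (not_lt.2 h3)
    obtain ⟨l, hl, h2⟩ := (Finset.sum_pos_iff_of_nonneg hnn).1 h1
    refine ⟨l, hl, ?_⟩
    have h3 := wl_nonneg hY le_rfl X l
    have h4 := T_nonneg hY le_rfl (nx X l)
    constructor
    · rcases h3.lt_or_eq with h5 | h5
      · exact h5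
      · rw [← h5, zero_mul] at h2
        exact absurd h2 (lt_irrefl 0)
    · rcases h4.lt_or_eq with h5 | h5
      · exact h5
      · rw [← h5, mul_zero] at h2
        exact absurd h2 (lt_irrefl 0)
  · rintro ⟨l, hl, h1, h2⟩
    exact div_pos (Finset.sum_pos' hnn ⟨l, hl, mul_pos h1 h2⟩) hc

private theorem IniM_wl2 {Y : ℕ → ℕ → ℝ} {X : St} (hc : 2 ≤ X.1.card) {l : Le} :
    0 < wl Y 0 X l ↔ 0 < cc Y l.1 l.2.1 ∧ l.2.2 = false := by
  unfold wl
  cases hf : l.2.2 with
  | true => simp [hc]
  | false => simp

private theorem IniM_wl1 {Y : ℕ → ℕ → ℝ} {X : St} (hc : X.1.card < 2) {l : Le} :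
    wl Y 0 X l = cc Y l.1 l.2.1 := by
  unfold wl
  rw [if_neg (by intro h; have := h.2; omega), mul_one]

private theorem IniM_nin {X : St} (hW : Wf X) {A B : Finset ℕ} (hA : A ∈ X.2) (hB : B ∈ X.2) (hAB : A ≠ B) :
    A ∪ B ∉ X.2 := by
  intro h
  have hd := hW.dj A hA B hB hAB
  have h1 : A ∪ B = A := by
    by_contra h2
    have h3 := hW.dj _ h A hA h2
    obtain ⟨x, hx⟩ := hW.ne A hA
    exact Finset.disjoint_left.1 h3 (Finset.mem_union_left _ hx) hx
  obtain ⟨x, hx⟩ := hW.ne B hB
  have h4 : x ∈ A := by
    rw [← h1]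
    exact Finset.mem_union_right _ hx
  exact Finset.disjoint_left.1 hd h4 hx

private theorem IniM_blk (t : ℕ) (C : Finset (Finset ℕ)) (D : Finset ℕ) : blk t (insert D C) = blk t C ∪ D := by
  ext x
  rw [mem_blk, Finset.mem_union, mem_blk]
  constructor
  · rintro (h | ⟨F, hF, hx⟩)
    · exact Or.inl (Or.inl h)
    · rcases Finset.mem_insert.1 hF with h | h
      · right
        rwa [← h]
      · exact Or.inl (Or.inr ⟨F, h, hx⟩)
  · rintro ((h | ⟨F, hF, hx⟩) | h)
    · exact Or.inl h
    · exact Or.inr ⟨F, Finset.mem_insert_of_mem hF, hx⟩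
    · exact Or.inr ⟨D, Finset.mem_insert_self _ _, h⟩

private theorem IniM_aux {p q : ℕ} {E : List (ℕ × ℕ)} (hpq : p < q) (n : ℕ) :
    ∀ (R : Finset ℕ) (P : Finset (Finset ℕ)) (A B : Finset ℕ), R.card = n → Wf (R, P) → A ∈ P → B ∈ P → A ≠ B →
      0 < T (YE p q E) 0 (R, P) →
      0 < T (YE p q E) 0 (R, insert (A ∪ B) ((P.erase A).erase B)) := by
  have hY := (lab_YE hpq E).abs_le
  induction n with
  | zero =>
    intro R P A B hR _ _ _ _ _
    rw [T_empty (by exact Finset.card_eq_zero.1 hR)]
    exact zero_lt_one
  | succ n ih =>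
    intro R P A B hR hW hA hB hAB h
    have hne : R.Nonempty := Finset.card_pos.1 (by omega)
    obtain ⟨l, hl, hw, hT⟩ := (IniM_pos hY (X := (R, P)) hne).1 h
    have ht : l.1 ∈ R := lts_fst hl
    have hC : l.2.1 ⊆ P := lts_sub hl
    have hnt : ∀ D ∈ P, l.1 ∉ D := fun D hD h1 => Finset.disjoint_left.1 (hW.dR D hD) h1 ht
    have hntAB : l.1 ∉ A ∪ B := by
      rw [Finset.mem_union]
      rintro (h1 | h1)
      · exact hnt A hA h1
      · exact hnt B hB h1
    have hnAB : A ∪ B ∉ P := IniM_nin (X := (R, P)) hW hA hB hAB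
    rw [IniM_pos hY (X := (R, insert (A ∪ B) ((P.erase A).erase B))) hne]
    by_cases hc : 2 ≤ R.card
    · obtain ⟨hcc, hf⟩ := (IniM_wl2 (X := (R, P)) hc).1 hw
      obtain ⟨t, C, f⟩ := l
      simp only at ht hC hnt hntAB hcc hf hT
      subst hf
      rw [IniM_cc hY] at hcc
      have hWn : Wf (nx (R, P) (t, (C, false))) := Wf_nx hW hl
      have hbn : blk t C ∉ P := blk_notMem hW ht C
      have hnx : nx (R, P) (t, (C, false)) = (R.erase t, insert (blk t C) (P \ C)) := rfl
      rw [hnx] at hT hWn
      have hcard : (R.erase t).card = n := by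
        rw [Finset.card_erase_of_mem ht]
        omega
      have hnab : ∀ D ∈ P, D ≠ A ∪ B := fun D hD h1 => hnAB (h1 ▸ hD)
      by_cases hAC : A ∈ C
      · by_cases hBC : B ∈ C
        · refine ⟨(t, (insert (A ∪ B) ((C.erase A).erase B), false)), ?_, ?_, ?_⟩
          · rw [lts_two hc]
            refine ⟨ht, ?_⟩
            exact Finset.insert_subset_insert _ (Finset.erase_subset_erase _ (Finset.erase_subset_erase _ hC))
          · rw [IniM_wl2 hc]
            refine ⟨?_, rfl⟩
            rw [IniM_cc hY]
            intro D hD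
            rcases Finset.mem_insert.1 hD with h1 | h1
            · rw [h1]
              exact IniM_mono hpq E hntAB Finset.subset_union_left (hcc A hAC)
            · exact hcc D (Finset.mem_of_mem_erase (Finset.mem_of_mem_erase h1))
          · have e1 : blk t (insert (A ∪ B) ((C.erase A).erase B)) = blk t C := by
              ext x
              rw [mem_blk, mem_blk]
              constructor
              · rintro (h1 | ⟨D, hD, hx⟩)
                · exact Or.inl h1
                · rcases Finset.mem_insert.1 hD with h2 | h2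
                  · rw [h2, Finset.mem_union] at hx
                    rcases hx with hx | hx
                    · exact Or.inr ⟨A, hAC, hx⟩
                    · exact Or.inr ⟨B, hBC, hx⟩
                  · exact Or.inr ⟨D, Finset.mem_of_mem_erase (Finset.mem_of_mem_erase h2), hx⟩
              · rintro (h1 | ⟨D, hD, hx⟩)
                · exact Or.inl h1
                · right
                  by_cases hDA : D = A
                  · exact ⟨A ∪ B, Finset.mem_insert_self _ _, Finset.mem_union_left _ (hDA ▸ hx)⟩
                  · by_cases hDB : D = B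
                    · exact ⟨A ∪ B, Finset.mem_insert_self _ _, Finset.mem_union_right _ (hDB ▸ hx)⟩
                    · exact ⟨D, Finset.mem_insert_of_mem (Finset.mem_erase.2 ⟨hDB, Finset.mem_erase.2 ⟨hDA, hD⟩⟩), hx⟩
            have e2 : insert (A ∪ B) ((P.erase A).erase B) \ insert (A ∪ B) ((C.erase A).erase B) = P \ C := by
              ext D
              simp only [Finset.mem_sdiff, Finset.mem_insert, Finset.mem_erase]
              constructor
              · rintro ⟨h1, h2⟩
                push Not at h2
                rcases h1 with h1 | ⟨h3, h4, h5⟩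
                · exact absurd h1 h2.1
                · exact ⟨h5, fun h6 => h2.2 h3 h4 h6⟩
              · rintro ⟨h1, h2⟩
                have h3 : D ≠ A := fun h4 => h2 (h4 ▸ hAC)
                have h4 : D ≠ B := fun h5 => h2 (h5 ▸ hBC)
                refine ⟨Or.inr ⟨h4, h3, h1⟩, ?_⟩
                rintro (h5 | ⟨_, _, h6⟩)
                · exact hnab D h1 h5
                · exact h2 h6
            change 0 < T (YE p q E) 0 (R.erase t, insert (blk t (insert (A ∪ B) ((C.erase A).erase B)))
              (insert (A ∪ B) ((P.erase A).erase B) \ insert (A ∪ B) ((C.erase A).erase B)))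
            rw [e1, e2]
            exact hT
        · refine ⟨(t, (insert (A ∪ B) (C.erase A), false)), ?_, ?_, ?_⟩
          · rw [lts_two hc]
            refine ⟨ht, ?_⟩
            refine Finset.insert_subset_insert _ fun D hD => ?_
            have hD' := Finset.mem_erase.1 hD
            refine Finset.mem_erase.2 ⟨fun h1 => hBC (h1 ▸ hD'.2), Finset.mem_erase.2 ⟨hD'.1, hC hD'.2⟩⟩
          · rw [IniM_wl2 hc]
            refine ⟨?_, rfl⟩
            rw [IniM_cc hY]
            intro D hD
            rcases Finset.mem_insert.1 hD with h1 | h1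
            · rw [h1]
              exact IniM_mono hpq E hntAB Finset.subset_union_left (hcc A hAC)
            · exact hcc D (Finset.mem_of_mem_erase h1)
          · have hbB : blk t C ≠ B := fun h1 => hbn (h1 ▸ hB)
            have hBmem : B ∈ insert (blk t C) (P \ C) :=
              Finset.mem_insert_of_mem (Finset.mem_sdiff.2 ⟨hB, hBC⟩)
            have key := ih (R.erase t) (insert (blk t C) (P \ C)) (blk t C) B hcard hWn
              (Finset.mem_insert_self _ _) hBmem hbB hT
            have e1 : blk t (insert (A ∪ B) (C.erase A)) = blk t C ∪ B := by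
              rw [IniM_blk]
              have h1 : blk t C = blk t (C.erase A) ∪ A := by
                rw [← IniM_blk, Finset.insert_erase hAC]
              rw [h1, Finset.union_assoc]
            have e2 : insert (A ∪ B) ((P.erase A).erase B) \ insert (A ∪ B) (C.erase A) =
                ((insert (blk t C) (P \ C)).erase (blk t C)).erase B := by
              rw [Finset.erase_insert (fun h1 => hbn (Finset.mem_sdiff.1 h1).1)]
              ext D
              simp only [Finset.mem_sdiff, Finset.mem_insert, Finset.mem_erase]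
              constructor
              · rintro ⟨h1, h2⟩
                push Not at h2
                rcases h1 with h1 | ⟨h3, h4, h5⟩
                · exact absurd h1 h2.1
                · exact ⟨h3, h5, fun h6 => h2.2 h4 h6⟩
              · rintro ⟨h3, h1, h2⟩
                have h4 : D ≠ A := fun h5 => h2 (h5 ▸ hAC)
                refine ⟨Or.inr ⟨h3, h4, h1⟩, ?_⟩
                rintro (h5 | ⟨_, h6⟩)
                · exact hnab D h1 h5
                · exact h2 h6
            change 0 < T (YE p q E) 0 (R.erase t, insert (blk t (insert (A ∪ B) (C.erase A)))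
              (insert (A ∪ B) ((P.erase A).erase B) \ insert (A ∪ B) (C.erase A)))
            rw [e1, e2]
            exact key
      · by_cases hBC : B ∈ C
        · refine ⟨(t, (insert (A ∪ B) (C.erase B), false)), ?_, ?_, ?_⟩
          · rw [lts_two hc]
            refine ⟨ht, ?_⟩
            refine Finset.insert_subset_insert _ fun D hD => ?_
            have hD' := Finset.mem_erase.1 hD
            refine Finset.mem_erase.2 ⟨hD'.1, Finset.mem_erase.2 ⟨fun h1 => hAC (h1 ▸ hD'.2), hC hD'.2⟩⟩
          · rw [IniM_wl2 hc]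
            refine ⟨?_, rfl⟩
            rw [IniM_cc hY]
            intro D hD
            rcases Finset.mem_insert.1 hD with h1 | h1
            · rw [h1]
              exact IniM_mono hpq E hntAB Finset.subset_union_right (hcc B hBC)
            · exact hcc D (Finset.mem_of_mem_erase h1)
          · have hbA : blk t C ≠ A := fun h1 => hbn (h1 ▸ hA)
            have hAmem : A ∈ insert (blk t C) (P \ C) :=
              Finset.mem_insert_of_mem (Finset.mem_sdiff.2 ⟨hA, hAC⟩)
            have key := ih (R.erase t) (insert (blk t C) (P \ C)) (blk t C) A hcard hWn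
              (Finset.mem_insert_self _ _) hAmem hbA hT
            have e1 : blk t (insert (A ∪ B) (C.erase B)) = blk t C ∪ A := by
              rw [IniM_blk]
              have h1 : blk t C = blk t (C.erase B) ∪ B := by
                rw [← IniM_blk, Finset.insert_erase hBC]
              rw [h1, Finset.union_assoc, Finset.union_comm B A]
            have e2 : insert (A ∪ B) ((P.erase A).erase B) \ insert (A ∪ B) (C.erase B) =
                ((insert (blk t C) (P \ C)).erase (blk t C)).erase A := by
              rw [Finset.erase_insert (fun h1 => hbn (Finset.mem_sdiff.1 h1).1)]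
              ext D
              simp only [Finset.mem_sdiff, Finset.mem_insert, Finset.mem_erase]
              constructor
              · rintro ⟨h1, h2⟩
                push Not at h2
                rcases h1 with h1 | ⟨h3, h4, h5⟩
                · exact absurd h1 h2.1
                · exact ⟨h4, h5, fun h6 => h2.2 h3 h6⟩
              · rintro ⟨h3, h1, h2⟩
                have h4 : D ≠ B := fun h5 => h2 (h5 ▸ hBC)
                refine ⟨Or.inr ⟨h4, h3, h1⟩, ?_⟩
                rintro (h5 | ⟨_, h6⟩)
                · exact hnab D h1 h5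
                · exact h2 h6
            change 0 < T (YE p q E) 0 (R.erase t, insert (blk t (insert (A ∪ B) (C.erase B)))
              (insert (A ∪ B) ((P.erase A).erase B) \ insert (A ∪ B) (C.erase B)))
            rw [e1, e2]
            exact key
        · refine ⟨(t, (C, false)), ?_, ?_, ?_⟩
          · rw [lts_two hc]
            refine ⟨ht, fun D hD => ?_⟩
            refine Finset.mem_insert_of_mem (Finset.mem_erase.2 ⟨fun h1 => hBC (h1 ▸ hD),
              Finset.mem_erase.2 ⟨fun h1 => hAC (h1 ▸ hD), hC hD⟩⟩)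
          · rw [IniM_wl2 hc]
            exact ⟨(IniM_cc hY).2 hcc, rfl⟩
          · have hbA : A ≠ blk t C := fun h1 => hbn (h1 ▸ hA)
            have hbB : B ≠ blk t C := fun h1 => hbn (h1 ▸ hB)
            have hAmem : A ∈ insert (blk t C) (P \ C) :=
              Finset.mem_insert_of_mem (Finset.mem_sdiff.2 ⟨hA, hAC⟩)
            have hBmem : B ∈ insert (blk t C) (P \ C) :=
              Finset.mem_insert_of_mem (Finset.mem_sdiff.2 ⟨hB, hBC⟩)
            have key := ih (R.erase t) (insert (blk t C) (P \ C)) A B hcard hWn hAmem hBmem hAB hT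
            have e2 : insert (blk t C) (insert (A ∪ B) ((P.erase A).erase B) \ C) =
                insert (A ∪ B) (((insert (blk t C) (P \ C)).erase A).erase B) := by
              ext D
              simp only [Finset.mem_sdiff, Finset.mem_insert, Finset.mem_erase]
              constructor
              · rintro (h1 | ⟨h1 | ⟨h3, h4, h5⟩, h2⟩)
                · right
                  rw [h1]
                  exact ⟨fun h2 => hbB h2.symm, fun h2 => hbA h2.symm, Or.inl rfl⟩
                · exact Or.inl h1
                · exact Or.inr ⟨h3, h4, Or.inr ⟨h5, h2⟩⟩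
              · rintro (h1 | ⟨h3, h4, h1 | ⟨h5, h2⟩⟩)
                · right
                  refine ⟨Or.inl h1, fun h2 => ?_⟩
                  rw [h1] at h2
                  exact hnAB (hC h2)
                · exact Or.inl h1
                · exact Or.inr ⟨Or.inr ⟨h3, h4, h5⟩, h2⟩
            change 0 < T (YE p q E) 0 (R.erase t, insert (blk t C)
              (insert (A ∪ B) ((P.erase A).erase B) \ C))
            rw [e2]
            exact key
    · have hc1 : R.card < 2 := by omega
      have hR1 : R = {l.1} := by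
        have h1 : R.card = 1 := by
          have := hne.card_pos
          omega
        obtain ⟨x, hx⟩ := Finset.card_eq_one.1 h1
        rw [hx, Finset.mem_singleton] at ht
        rw [hx, ht]
      have hl2 := ((lts_one (X := (R, P)) hc1).1 hl).2
      rw [IniM_wl1 (X := (R, P)) hc1, hl2, IniM_cc hY] at hw
      refine ⟨(l.1, (insert (A ∪ B) ((P.erase A).erase B), true)), ?_, ?_, ?_⟩
      · rw [lts_one hc1]
        exact ⟨ht, rfl⟩
      · rw [IniM_wl1 hc1, IniM_cc hY]
        intro D hD
        rcases Finset.mem_insert.1 hD with h1 | h1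
        · rw [h1]
          exact IniM_mono hpq E hntAB Finset.subset_union_left (hw A hA)
        · exact hw D (Finset.mem_of_mem_erase (Finset.mem_of_mem_erase h1))
      · rw [T_empty]
        · exact zero_lt_one
        · change R.erase l.1 = ∅
          rw [hR1]
          exact Finset.erase_singleton _

theorem merge {p q : ℕ} {E : List (ℕ × ℕ)} (hpq : p < q) {R : Finset ℕ} {P : Finset (Finset ℕ)} {A B : Finset ℕ}
    (hW : Wf (R, P)) (hA : A ∈ P) (hB : B ∈ P) (hAB : A ≠ B) (h : 0 < T (YE p q E) 0 (R, P)) :
    0 < T (YE p q E) 0 (R, insert (A ∪ B) ((P.erase A).erase B)) := by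
  exact IniM_aux hpq R.card R P A B rfl hW hA hB hAB h

theorem greedy {p q : ℕ} {E : List (ℕ × ℕ)} (hpq : p < q)
    (hins : ∀ X : St, Wf X → ∀ t ∈ X.1, T (YE p q E) 0 X = ins (YE p q E) 0 t (T (YE p q E) 0) X)
    {X : St} (hW : Wf X) (hc : 2 ≤ X.1.card) {t : ℕ} (ht : t ∈ X.1) (h : 0 < T (YE p q E) 0 X) :
    0 < T (YE p q E) 0 (nx X (t, (X.2.filter (fun B => 0 < 1 - yb (YE p q E) t B), false))) := by
  have hY := (lab_YE hpq E).abs_le
  rw [hins X hW t ht, ins_two hc ht] at h
  have hnn : ∀ C ∈ X.2.powerset, 0 ≤ cc (YE p q E) t C * (T (YE p q E) 0 (nx X (t, (C, false))) +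
      0 * T (YE p q E) 0 (nx X (t, (C, true)))) := fun C _ => by
    rw [zero_mul, add_zero]
    exact mul_nonneg (cc_nonneg hY _ _) (T_nonneg hY le_rfl _)
  obtain ⟨C, hC, h1⟩ := (Finset.sum_pos_iff_of_nonneg hnn).1 h
  rw [Finset.mem_powerset] at hC
  rw [zero_mul, add_zero] at h1
  have hcc : 0 < cc (YE p q E) t C := by
    rcases (cc_nonneg hY t C).lt_or_eq with h5 | h5
    · exact h5
    · rw [← h5, zero_mul] at h1
      exact absurd h1 (lt_irrefl 0)
  have hT : 0 < T (YE p q E) 0 (nx X (t, (C, false))) := by
    rcases (T_nonneg hY le_rfl (nx X (t, (C, false)))).lt_or_eq with h5 | h5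
    · exact h5
    · rw [← h5, mul_zero] at h1
      exact absurd h1 (lt_irrefl 0)
  rw [IniM_cc hY] at hcc
  have key : ∀ S : Finset (Finset ℕ), S ⊆ X.2 → 0 < T (YE p q E) 0 (nx X (t, (C ∪ S, false))) := by
    intro S
    induction S using Finset.induction_on with
    | empty =>
      intro _
      rw [Finset.union_empty]
      exact hT
    | insert D S hD ih =>
      intro hS
      have hS' : S ⊆ X.2 := fun x hx => hS (Finset.mem_insert_of_mem hx)
      have hDX : D ∈ X.2 := hS (Finset.mem_insert_self _ _)
      have h2 := ih hS'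
      by_cases hDC : D ∈ C ∪ S
      · rw [Finset.union_insert, Finset.insert_eq_of_mem hDC]
        exact h2
      · have hCS : C ∪ S ⊆ X.2 := Finset.union_subset hC hS'
        have hl : (t, (C ∪ S, false)) ∈ lts X := (lts_two hc).2 ⟨ht, hCS⟩
        have hWn := Wf_nx hW hl
        have hbn : blk t (C ∪ S) ∉ X.2 := blk_notMem hW ht _
        have hnx : nx X (t, (C ∪ S, false)) = (X.1.erase t, insert (blk t (C ∪ S)) (X.2 \ (C ∪ S))) := rfl
        rw [hnx] at h2 hWn
        have h3 := IniM_aux hpq _ (X.1.erase t) (insert (blk t (C ∪ S)) (X.2 \ (C ∪ S))) (blk t (C ∪ S)) D rfl hWn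
          (Finset.mem_insert_self _ _) (Finset.mem_insert_of_mem (Finset.mem_sdiff.2 ⟨hDX, hDC⟩))
          (fun h4 => hbn (h4 ▸ hDX)) h2
        rw [Finset.erase_insert (fun h4 => hbn (Finset.mem_sdiff.1 h4).1)] at h3
        have h4 : (X.2 \ (C ∪ S)).erase D = X.2 \ insert D (C ∪ S) := by
          ext F
          simp only [Finset.mem_sdiff, Finset.mem_insert, Finset.mem_erase]
          tauto
        rw [Finset.union_insert]
        change 0 < T (YE p q E) 0 (X.1.erase t, insert (blk t (insert D (C ∪ S))) (X.2 \ insert D (C ∪ S)))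
        rw [IniM_blk, ← h4]
        exact h3
  have h5 := key (X.2.filter (fun B => 0 < 1 - yb (YE p q E) t B)) (Finset.filter_subset _ _)
  have h6 : C ∪ X.2.filter (fun B => 0 < 1 - yb (YE p q E) t B) =
      X.2.filter (fun B => 0 < 1 - yb (YE p q E) t B) := by
    refine Finset.union_eq_right.2 fun B hB => ?_
    exact Finset.mem_filter.2 ⟨hC hB, hcc B hB⟩
  rw [h6] at h5
  exact h5

end BSI.M
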