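import Pool.Agent.BSI.Phi
import Pool.Agent.BSI.InB
import Pool.Agent.BSI.KapW
import Pool.Agent.BSI.IniM

/-!
# BSI machine layer, Ini: the start

The letters of the initial state are possible and have positive weight: for `a1 > 0` all new blocks go to the root, for `a1 = 0` the greedy insertion of
IniM.lean is used, by induction on the list of the vertices which are not inserted. The weight is at least `η ^ n / a2 ^ n`, `η = 1 - p / q`, and the lower bound for the
probability follows from `PrL_eq`, `T_le` and `n! ≤ n ^ n`.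
-/

set_option autoImplicit false

namespace BSI.M

open Finset

/-- the invariant of the greedy insertion -/
private structure Ini_I (l : List ℕ) (P : List (List ℕ)) : Prop where
  nd : l.Nodup
  bn : ∀ B ∈ P, B.Nodup
  ne : ∀ B ∈ P, B ≠ []
  dj : P.Pairwise List.Disjoint
  out : ∀ B ∈ P, ∀ x ∈ B, x ∉ l

private theorem Ini_mem {C : List (List ℕ)} {B : Finset ℕ} : B ∈ CF C ↔ ∃ b ∈ C, b.toFinset = B := by
  unfold CF
  rw [List.mem_toFinset, List.mem_map]

private theorem Ini_dj {P : List (List ℕ)} (h : P.Pairwise List.Disjoint) {b c : List ℕ} (hb : b ∈ P) (hc : c ∈ P)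
    (hne : b ≠ c) : List.Disjoint b c := by
  haveI : Std.Symm (List.Disjoint (α := ℕ)) := ⟨fun _ _ h => h.symm⟩
  exact h.forall hb hc hne

private theorem Ini_GB {P C : List (List ℕ)} (hC : C.Sublist P) (h1 : ∀ B ∈ P, B.Nodup) (h2 : ∀ B ∈ P, B ≠ [])
    (h3 : P.Pairwise List.Disjoint) : GB C := by
  refine ⟨fun B hB => h1 B (hC.subset hB), ?_⟩
  have h4 : C.Pairwise List.Disjoint := h3.sublist hC
  have h5 : ∀ B ∈ C, B ≠ [] := fun B hB => h2 B (hC.subset hB)
  clear h1 h2 h3 hC
  induction C with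
  | nil => simp
  | cons b C ih =>
    rw [List.pairwise_cons] at h4
    rw [List.map_cons, List.nodup_cons]
    refine ⟨?_, ih h4.2 fun B hB => h5 B (List.mem_cons_of_mem _ hB)⟩
    intro h6
    obtain ⟨c, hc, hce⟩ := List.mem_map.1 h6
    obtain ⟨x, hx⟩ := List.exists_mem_of_ne_nil b (h5 b List.mem_cons_self)
    have h7 : x ∈ c := by
      rw [← List.mem_toFinset, hce, List.mem_toFinset]
      exact hx
    exact h4.1 c hc hx h7

private theorem Ini_Wf {l : List ℕ} {P : List (List ℕ)} (h : Ini_I l P) : Wf (l.toFinset, CF P) := by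
  refine ⟨?_, ?_, ?_⟩
  · intro B hB
    obtain ⟨b, hb, rfl⟩ := Ini_mem.1 hB
    obtain ⟨x, hx⟩ := List.exists_mem_of_ne_nil b (h.ne b hb)
    exact ⟨x, List.mem_toFinset.2 hx⟩
  · intro B hB C hC hne
    obtain ⟨b, hb, rfl⟩ := Ini_mem.1 hB
    obtain ⟨c, hc, rfl⟩ := Ini_mem.1 hC
    have hbc : b ≠ c := fun h1 => hne (by rw [h1])
    have h1 : List.Disjoint b c := Ini_dj h.dj hb hc hbc
    rw [Finset.disjoint_left]
    intro x hx hxc
    exact h1 (List.mem_toFinset.1 hx) (List.mem_toFinset.1 hxc)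
  · intro B hB
    obtain ⟨b, hb, rfl⟩ := Ini_mem.1 hB
    rw [Finset.disjoint_left]
    intro x hx hxl
    exact h.out b hb x (List.mem_toFinset.1 hx) (List.mem_toFinset.1 hxl)

/-- adjacency in terms of the label -/
private theorem Ini_adj {p q : ℕ} (hpq : p < q) (E : List (ℕ × ℕ)) {t : ℕ} {B : List ℕ} (ht : t ∉ B) :
    adj E t B = true ↔ 0 < 1 - yb (YE p q E) t B.toFinset := by
  have hq : (0 : ℝ) < q := by
    have : 0 < q := by omega
    exact_mod_cast this
  have hqE : (0 : ℝ) < (q : ℝ) ^ E.length := pow_pos hq _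
  have h1 := wE_yb hpq E ht
  have h2 : adj E t B = true ↔ eb E t B ≠ [] := by
    unfold adj
    cases eb E t B <;> simp
  rw [h2]
  constructor
  · intro h3
    have h4 : (0 : ℝ) < wE p q E t B := by exact_mod_cast wE_pos hpq h3
    rw [h1] at h4
    exact pos_of_mul_pos_right h4 hqE.le
  · intro h3 h4
    rw [wE_zero p q E t B h4, Nat.cast_zero] at h1
    have h5 := mul_pos hqE h3
    rw [← h1] at h5
    exact lt_irrefl _ h5

private theorem Ini_low1 {p q : ℕ} (hpq : p < q) (E : List (ℕ × ℕ)) {t : ℕ} {B : Finset ℕ} (ht : t ∉ B)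
    (h : 0 < 1 - yb (YE p q E) t B) : 1 - (p : ℝ) / q ≤ 1 - yb (YE p q E) t B := by
  rcases yb_low hpq E ht with h1 | h1
  · rw [h1, sub_self] at h
    exact absurd h (lt_irrefl _)
  · exact h1

private theorem Ini_eta {p q : ℕ} (hpq : p < q) : 0 < 1 - (p : ℝ) / q ∧ 1 - (p : ℝ) / q ≤ 1 :=
  ⟨(lab_YE hpq []).pos, (lab_YE hpq []).le1⟩

/-- lower bound for the weight of the swallowed blocks -/
private theorem Ini_cc {p q : ℕ} (hpq : p < q) (E : List (ℕ × ℕ)) {t : ℕ} {C : List (List ℕ)} (hC : GB C)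
    (ht : ∀ B ∈ C, t ∉ B) (h : ∀ B ∈ C, 0 < 1 - yb (YE p q E) t B.toFinset) :
    (1 - (p : ℝ) / q) ^ C.length ≤ cc (YE p q E) t (CF C) := by
  unfold cc CF
  rw [List.prod_toFinset _ hC.2, List.map_map]
  have hη := Ini_eta hpq
  clear hC
  induction C with
  | nil => simp
  | cons b C ih =>
    rw [List.length_cons, pow_succ, List.map_cons, List.prod_cons, mul_comm]
    have h1 : 1 - (p : ℝ) / q ≤ 1 - yb (YE p q E) t b.toFinset :=
      Ini_low1 hpq E (by rw [List.mem_toFinset]; exact ht b List.mem_cons_self) (h b List.mem_cons_self)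
    have h2 := ih (fun B hB => ht B (List.mem_cons_of_mem _ hB)) (fun B hB => h B (List.mem_cons_of_mem _ hB))
    exact mul_le_mul h1 h2 (pow_nonneg hη.1.le _) (hη.1.le.trans h1)

private theorem Ini_step {t : ℕ} {l : List ℕ} {P : List (List ℕ)} (h : Ini_I (t :: l) P) (r : List ℕ → Bool) :
    Ini_I l (blkL t (P.filter r) :: P.filter fun B => !(r B)) := by
  have htl := List.nodup_cons.1 h.nd
  have htP : ∀ B ∈ P, t ∉ B := fun B hB h1 => h.out B hB t h1 List.mem_cons_self
  refine ⟨htl.2, ?_, ?_, ?_, ?_⟩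
  · intro B hB
    rcases List.mem_cons.1 hB with rfl | h1
    · unfold blkL
      rw [List.nodup_cons]
      refine ⟨?_, ?_⟩
      · intro h2
        obtain ⟨b, hb, hbt⟩ := List.mem_flatten.1 h2
        exact htP b (List.mem_filter.1 hb).1 hbt
      · rw [List.nodup_flatten]
        exact ⟨fun b hb => h.bn b (List.mem_filter.1 hb).1, h.dj.sublist List.filter_sublist⟩
    · exact h.bn B (List.mem_filter.1 h1).1
  · intro B hB
    rcases List.mem_cons.1 hB with rfl | h1
    · unfold blkL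
      exact List.cons_ne_nil _ _
    · exact h.ne B (List.mem_filter.1 h1).1
  · rw [List.pairwise_cons]
    refine ⟨?_, h.dj.sublist List.filter_sublist⟩
    intro B hB x hx hxB
    have hB' := List.mem_filter.1 hB
    unfold blkL at hx
    rcases List.mem_cons.1 hx with rfl | h1
    · exact htP B hB'.1 hxB
    · obtain ⟨b, hb, hxb⟩ := List.mem_flatten.1 h1
      have hb' := List.mem_filter.1 hb
      have hne : b ≠ B := by
        rintro rfl
        have h3 := hB'.2
        rw [hb'.2] at h3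
        exact absurd h3 (by decide)
      exact (Ini_dj h.dj hb'.1 hB'.1 hne) hxb hxB
  · intro B hB x hx hxl
    rcases List.mem_cons.1 hB with rfl | h1
    · unfold blkL at hx
      rcases List.mem_cons.1 hx with rfl | h2
      · exact htl.1 hxl
      · obtain ⟨b, hb, hxb⟩ := List.mem_flatten.1 h2
        exact h.out b (List.mem_filter.1 hb).1 x hxb (List.mem_cons_of_mem _ hxl)
    · exact h.out B (List.mem_filter.1 h1).1 x hx (List.mem_cons_of_mem _ hxl)

private theorem Ini_blk (t : ℕ) (C : List (List ℕ)) : blk t (CF C) = (blkL t C).toFinset := by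
  ext x
  rw [mem_blk, List.mem_toFinset]
  unfold blkL
  rw [List.mem_cons, List.mem_flatten]
  constructor
  · rintro (h | ⟨B, hB, hx⟩)
    · exact Or.inl h
    · obtain ⟨b, hb, rfl⟩ := Ini_mem.1 hB
      exact Or.inr ⟨b, hb, List.mem_toFinset.1 hx⟩
  · rintro (h | ⟨b, hb, hx⟩)
    · exact Or.inl h
    · exact Or.inr ⟨b.toFinset, Ini_mem.2 ⟨b, hb, rfl⟩, List.mem_toFinset.2 hx⟩

private theorem Ini_erase {t : ℕ} {l : List ℕ} (h : t ∉ l) : (t :: l).toFinset.erase t = l.toFinset := by
  rw [List.toFinset_cons, Finset.erase_insert]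
  rwa [List.mem_toFinset]

/-- the next state of the greedy insertion -/
private theorem Ini_nx {p q : ℕ} (hpq : p < q) (E : List (ℕ × ℕ)) {t : ℕ} {l : List ℕ} {P : List (List ℕ)}
    (h : Ini_I (t :: l) P) :
    CF (P.filter (adj E t)) = (CF P).filter (fun B => 0 < 1 - yb (YE p q E) t B) ∧
      nx ((t :: l).toFinset, CF P) (t, (CF (P.filter (adj E t)), false)) =
        (l.toFinset, CF (blkL t (P.filter (adj E t)) :: P.filter fun B => !(adj E t B))) := by
  have htP : ∀ B ∈ P, t ∉ B := fun B hB h1 => h.out B hB t h1 List.mem_cons_self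
  have h1 : CF (P.filter (adj E t)) = (CF P).filter (fun B => 0 < 1 - yb (YE p q E) t B) := by
    ext B
    rw [Finset.mem_filter, Ini_mem, Ini_mem]
    constructor
    · rintro ⟨b, hb, rfl⟩
      have hb' := List.mem_filter.1 hb
      exact ⟨⟨b, hb'.1, rfl⟩, (Ini_adj hpq E (htP b hb'.1)).1 hb'.2⟩
    · rintro ⟨⟨b, hb, rfl⟩, h2⟩
      exact ⟨b, List.mem_filter.2 ⟨hb, (Ini_adj hpq E (htP b hb)).2 h2⟩, rfl⟩
  refine ⟨h1, ?_⟩
  unfold nx
  simp only [Bool.false_eq_true, if_false]
  refine Prod.ext (Ini_erase (List.nodup_cons.1 h.nd).1) ?_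
  show insert (blk t (CF (P.filter (adj E t)))) (CF P \ CF (P.filter (adj E t))) =
    CF (blkL t (P.filter (adj E t)) :: P.filter fun B => !(adj E t B))
  rw [Ini_blk]
  ext B
  rw [Finset.mem_insert, Finset.mem_sdiff]
  constructor
  · rintro (h2 | ⟨h2, h3⟩)
    · exact Ini_mem.2 ⟨_, List.mem_cons_self, h2.symm⟩
    · obtain ⟨b, hb, rfl⟩ := Ini_mem.1 h2
      refine Ini_mem.2 ⟨b, List.mem_cons_of_mem _ (List.mem_filter.2 ⟨hb, ?_⟩), rfl⟩
      cases hc : adj E t b with
      | false => rfl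
      | true => exact absurd (Ini_mem.2 ⟨b, List.mem_filter.2 ⟨hb, hc⟩, rfl⟩) h3
  · intro hB
    obtain ⟨b, hb, rfl⟩ := Ini_mem.1 hB
    rcases List.mem_cons.1 hb with rfl | h2
    · exact Or.inl rfl
    · have h3 := List.mem_filter.1 h2
      refine Or.inr ⟨Ini_mem.2 ⟨b, h3.1, rfl⟩, ?_⟩
      intro h4
      obtain ⟨c, hc, hcb⟩ := Ini_mem.1 h4
      have hc' := List.mem_filter.1 hc
      have h5 := (Ini_adj hpq E (htP c hc'.1)).1 hc'.2
      rw [hcb] at h5
      have h6 := (Ini_adj hpq E (htP b h3.1)).2 h5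
      have h7 := h3.2
      rw [h6] at h7
      exact absurd h7 (by decide)

private theorem Ini_wl (Y : ℕ → ℕ → ℝ) (a : ℝ) (X : St) (t : ℕ) (C : Finset (Finset ℕ)) (f : Bool)
    (h : f = false ∨ X.1.card < 2) : wl Y a X (t, (C, f)) = cc Y t C := by
  unfold wl
  rw [if_neg, mul_one]
  rintro ⟨h1, h2⟩
  rcases h with h3 | h3
  · subst h3
    exact Bool.false_ne_true h1
  · omega

private theorem Ini_len (P : List (List ℕ)) (r : List ℕ → Bool) :
    (P.filter r).length + (P.filter fun B => !(r B)).length = P.length :=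
  (List.length_eq_length_filter_add _).symm

/-- the greedy insertion -/
private theorem Ini_grd {p q : ℕ} {E : List (ℕ × ℕ)} (hpq : p < q)
    (hins : ∀ X : St, Wf X → ∀ t ∈ X.1, T (YE p q E) 0 X = ins (YE p q E) 0 t (T (YE p q E) 0) X) (l : List ℕ) :
    ∀ P : List (List ℕ), Ini_I l P → l ≠ [] → 0 < T (YE p q E) 0 (l.toFinset, CF P) →
      Adm (l.toFinset, CF P) (Phi (grd E P l)) ∧
        (1 - (p : ℝ) / q) ^ (P.length + l.length) ≤ WL (YE p q E) 0 (l.toFinset, CF P) (Phi (grd E P l)) ∧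
        VS (grd E P l) := by
  have hη := Ini_eta hpq
  induction l with
  | nil => exact fun _ _ h => absurd rfl h
  | cons t l ih =>
    intro P hI _ hT
    have htl := List.nodup_cons.1 hI.nd
    have htP : ∀ B ∈ P, t ∉ B := fun B hB h1 => hI.out B hB t h1 List.mem_cons_self
    rcases l with _ | ⟨s, l⟩
    · -- the last vertex
      have hX1 : ([t] : List ℕ).toFinset = {t} := by simp
      have hcard : (([t] : List ℕ).toFinset, CF P).1.card < 2 := by
        show ([t] : List ℕ).toFinset.card < 2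
        rw [hX1, Finset.card_singleton]
        omega
      have hgr : grd E P [t] = [(t, (P, true))] := rfl
      have hPhi : Phi (grd E P [t]) = [(t, (CF P, true))] := by rw [hgr]; rfl
      have hcc : 0 < cc (YE p q E) t (CF P) := by
        have h1 : T (YE p q E) 0 (([t] : List ℕ).toFinset, CF P) = cc (YE p q E) t (CF P) := by
          rw [T_sum_ins (by show ([t] : List ℕ).toFinset.Nonempty; rw [hX1]; exact Finset.singleton_nonempty t)]
          show (∑ t' ∈ ([t] : List ℕ).toFinset, ins (YE p q E) 0 t' (T (YE p q E) 0) (([t] : List ℕ).toFinset, CF P)) /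
            (([t] : List ℕ).toFinset.card : ℝ) = _
          rw [hX1, Finset.sum_singleton, Finset.card_singleton, ins_one (X := ({t}, CF P)) rfl, T_empty rfl]
          simp
        rw [← h1]
        exact hT
      have hpos : ∀ B ∈ P, 0 < 1 - yb (YE p q E) t B.toFinset := by
        intro B hB
        have h1 := (yb_le hpq E (u := t) (B := B.toFinset) (by rw [List.mem_toFinset]; exact htP B hB)).1
        rcases h1.lt_or_eq with h2 | h2
        · exact h2
        · exfalso
          unfold cc at hcc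
          rw [Finset.prod_eq_zero (Ini_mem.2 ⟨B, hB, rfl⟩) h2.symm] at hcc
          exact lt_irrefl _ hcc
      have hGB : GB P := Ini_GB (List.Sublist.refl P) hI.bn hI.ne hI.dj
      rw [hPhi, hgr]
      refine ⟨⟨?_, ?_⟩, ?_, ?_⟩
      · rw [lts_one hcard]
        exact ⟨by show t ∈ ([t] : List ℕ).toFinset; simp, rfl⟩
      · show (([t] : List ℕ).toFinset.erase t) = ∅
        rw [hX1]
        simp
      · show (1 - (p : ℝ) / q) ^ (P.length + 1) ≤ wl (YE p q E) 0 (([t] : List ℕ).toFinset, CF P) (t, (CF P, true)) * 1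
        rw [Ini_wl _ _ _ _ _ _ (Or.inr hcard), mul_one, pow_succ]
        have h1 := Ini_cc hpq E hGB htP hpos
        have h2 : (0 : ℝ) ≤ (1 - (p : ℝ) / q) ^ P.length := pow_nonneg hη.1.le _
        nlinarith [hη.2]
      · intro x hx
        rw [List.mem_singleton] at hx
        rw [hx]
        exact hGB
    · -- a greedy step
      obtain ⟨h1, h2⟩ := Ini_nx hpq E hI
      have hcard : 2 ≤ (((t :: s :: l) : List ℕ).toFinset, CF P).1.card := by
        show 2 ≤ ((t :: s :: l) : List ℕ).toFinset.card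
        rw [List.toFinset_card_of_nodup hI.nd]
        simp
      have ht : t ∈ (((t :: s :: l) : List ℕ).toFinset, CF P).1 := by
        show t ∈ ((t :: s :: l) : List ℕ).toFinset
        simp
      have h3 := greedy hpq hins (Ini_Wf hI) hcard ht hT
      have h4 : 0 < T (YE p q E) 0 (((s :: l) : List ℕ).toFinset,
          CF (blkL t (P.filter (adj E t)) :: P.filter fun B => !(adj E t B))) := by
        rw [← h2, h1]
        exact h3
      have hI' := Ini_step hI (adj E t)
      obtain ⟨h5, h6, h7⟩ := ih _ hI' (List.cons_ne_nil _ _) h4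
      have hgr : grd E P (t :: s :: l) = (t, (P.filter (adj E t), false)) ::
          grd E (blkL t (P.filter (adj E t)) :: P.filter fun B => !(adj E t B)) (s :: l) := rfl
      have hPhi : Phi (grd E P (t :: s :: l)) = (t, (CF (P.filter (adj E t)), false)) ::
          Phi (grd E (blkL t (P.filter (adj E t)) :: P.filter fun B => !(adj E t B)) (s :: l)) := by
        rw [hgr]
        rfl
      have hGB : GB (P.filter (adj E t)) := Ini_GB List.filter_sublist hI.bn hI.ne hI.dj
      rw [hPhi, hgr]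
      refine ⟨⟨?_, ?_⟩, ?_, ?_⟩
      · rw [lts_two hcard]
        refine ⟨ht, ?_⟩
        show CF (P.filter (adj E t)) ⊆ CF P
        rw [h1]
        exact Finset.filter_subset _ _
      · rw [h2]
        exact h5
      · show (1 - (p : ℝ) / q) ^ (P.length + (s :: l).length.succ) ≤
          wl (YE p q E) 0 (((t :: s :: l) : List ℕ).toFinset, CF P) (t, (CF (P.filter (adj E t)), false)) *
            WL (YE p q E) 0 (nx (((t :: s :: l) : List ℕ).toFinset, CF P) (t, (CF (P.filter (adj E t)), false)))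
              (Phi (grd E (blkL t (P.filter (adj E t)) :: P.filter fun B => !(adj E t B)) (s :: l)))
        rw [h2, Ini_wl _ _ _ _ _ _ (Or.inl rfl)]
        have h8 := Ini_cc hpq E hGB (fun B hB => htP B (List.mem_filter.1 hB).1)
          (fun B hB => (Ini_adj hpq E (htP B (List.mem_filter.1 hB).1)).1 (List.mem_filter.1 hB).2)
        have h9 : P.length + (s :: l).length.succ = (P.filter (adj E t)).length +
            ((blkL t (P.filter (adj E t)) :: P.filter fun B => !(adj E t B)).length + (s :: l).length) := by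
          have := Ini_len P (adj E t)
          simp only [List.length_cons]
          omega
        rw [h9, pow_add]
        exact mul_le_mul h8 h6 (pow_nonneg hη.1.le _) ((pow_nonneg hη.1.le _).trans h8)
      · intro x hx
        rcases List.mem_cons.1 hx with rfl | h10
        · exact hGB
        · exact h7 x h10

/-- all new blocks go to the root -/
private theorem Ini_root (Y : ℕ → ℕ → ℝ) (a : ℝ) (l : List ℕ) : l.Nodup → l ≠ [] →
    Adm (l.toFinset, ∅) (l.map fun t => ((t, (∅, true)) : Le)) ∧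
      WL Y a (l.toFinset, ∅) (l.map fun t => ((t, (∅, true)) : Le)) = a ^ (l.length - 1) := by
  induction l with
  | nil => exact fun _ h => absurd rfl h
  | cons t l ih =>
    intro hnd _
    have htl := List.nodup_cons.1 hnd
    have hnx : nx ((t :: l).toFinset, ∅) (t, (∅, true)) = (l.toFinset, ∅) := by
      unfold nx
      simp only [if_true]
      exact Prod.ext (Ini_erase htl.1) (by simp)
    have hcc : cc Y t ∅ = 1 := by
      unfold cc
      exact Finset.prod_empty
    have hmap : ((t :: l).map fun t => ((t, (∅, true)) : Le)) =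
        (t, (∅, true)) :: (l.map fun t => ((t, (∅, true)) : Le)) := rfl
    rw [hmap]
    rcases l with _ | ⟨s, l⟩
    · have hcard : (([t] : List ℕ).toFinset, (∅ : Finset (Finset ℕ))).1.card < 2 := by
        show ([t] : List ℕ).toFinset.card < 2
        simp
      refine ⟨⟨?_, ?_⟩, ?_⟩
      · rw [lts_one hcard]
        exact ⟨by show t ∈ ([t] : List ℕ).toFinset; simp, rfl⟩
      · rw [hnx]
        rfl
      · show wl Y a (([t] : List ℕ).toFinset, ∅) (t, (∅, true)) * 1 = a ^ 0
        rw [Ini_wl _ _ _ _ _ _ (Or.inr hcard), hcc]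
        simp
    · have hcard : 2 ≤ (((t :: s :: l) : List ℕ).toFinset, (∅ : Finset (Finset ℕ))).1.card := by
        show 2 ≤ ((t :: s :: l) : List ℕ).toFinset.card
        rw [List.toFinset_card_of_nodup hnd]
        simp
      obtain ⟨h1, h2⟩ := ih htl.2 (List.cons_ne_nil _ _)
      refine ⟨⟨?_, ?_⟩, ?_⟩
      · rw [lts_two hcard]
        exact ⟨by show t ∈ ((t :: s :: l) : List ℕ).toFinset; simp, Finset.empty_subset _⟩
      · rw [hnx]
        exact h1
      · show wl Y a (((t :: s :: l) : List ℕ).toFinset, ∅) (t, (∅, true)) *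
          WL Y a (nx (((t :: s :: l) : List ℕ).toFinset, ∅) (t, (∅, true)))
            ((s :: l).map fun t => ((t, (∅, true)) : Le)) = a ^ (l.length + 1)
        rw [hnx, h2]
        have h3 : wl Y a (((t :: s :: l) : List ℕ).toFinset, ∅) (t, (∅, true)) = a := by
          unfold wl
          rw [if_pos ⟨rfl, hcard⟩, hcc, one_mul]
        rw [h3]
        show a * a ^ (l.length + 1 - 1) = a ^ (l.length + 1)
        rw [Nat.add_sub_cancel, pow_succ, mul_comm]

/-- the letters of the initial state -/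
private theorem Ini_all {p q a1 a2 : ℕ} {V : List ℕ} {E : List (ℕ × ℕ)} (hpq : p < q) (ha2 : 0 < a2) (hG : Gr V E)
    (hV : V ≠ [])
    (hins : ∀ X : St, Wf X → ∀ t ∈ X.1, T (YE p q E) (aR a1 a2) X = ins (YE p q E) (aR a1 a2) t (T (YE p q E) (aR a1 a2)) X)
    (hT : 0 < T (YE p q E) (aR a1 a2) (V.toFinset, ∅)) :
    Adm (V.toFinset, ∅) (Phi (iniL a1 V E)) ∧
      (1 - (p : ℝ) / q) ^ V.length ≤ WL (YE p q E) (aR a1 a2) (V.toFinset, ∅) (Phi (iniL a1 V E)) * (a2 : ℝ) ^ V.length ∧
      VS (iniL a1 V E) := by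
  have hη := Ini_eta hpq
  have ha2' : (1 : ℝ) ≤ a2 := by exact_mod_cast ha2
  rcases Nat.eq_zero_or_pos a1 with h0 | h0
  · subst h0
    have ha : aR 0 a2 = 0 := by
      unfold aR
      simp
    rw [ha] at hins hT ⊢
    have hI : Ini_I V [] := ⟨hG.1, by simp, by simp, List.Pairwise.nil, by simp⟩
    have hini : iniL 0 V E = grd E [] V := by
      unfold iniL
      rw [if_pos rfl]
    obtain ⟨h1, h2, h3⟩ := Ini_grd hpq hins V [] hI hV hT
    rw [hini]
    refine ⟨h1, ?_, h3⟩
    rw [List.length_nil, Nat.zero_add] at h2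
    have h4 : (0 : ℝ) ≤ (1 - (p : ℝ) / q) ^ V.length := pow_nonneg hη.1.le _
    have h5 : (1 : ℝ) ≤ (a2 : ℝ) ^ V.length := one_le_pow₀ ha2'
    have h6 : WL (YE p q E) 0 (V.toFinset, ∅) (Phi (grd E [] V)) = WL (YE p q E) 0 (V.toFinset, CF []) (Phi (grd E [] V)) := rfl
    rw [h6]
    calc (1 - (p : ℝ) / q) ^ V.length = (1 - (p : ℝ) / q) ^ V.length * 1 := (mul_one _).symm
      _ ≤ _ := mul_le_mul h2 h5 zero_le_one (h4.trans h2)
  · have hini : iniL a1 V E = V.map fun t => (t, ([], true)) := by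
      unfold iniL
      rw [if_neg (by omega)]
    have hPhi : Phi (iniL a1 V E) = V.map fun t => ((t, (∅, true)) : Le) := by
      rw [hini]
      unfold Phi
      rw [List.map_map]
      rfl
    obtain ⟨h1, h2⟩ := Ini_root (YE p q E) (aR a1 a2) V hG.1 hV
    rw [hPhi]
    refine ⟨h1, ?_, ?_⟩
    · rw [h2]
      have h3 : (1 : ℝ) / a2 ≤ aR a1 a2 := by
        unfold aR
        have : (1 : ℝ) ≤ a1 := by exact_mod_cast h0
        exact div_le_div_of_nonneg_right this (by linarith)
      have h4 : (0 : ℝ) < (1 : ℝ) / a2 := by positivity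
      have h5 : ((1 : ℝ) / a2) ^ (V.length - 1) ≤ (aR a1 a2) ^ (V.length - 1) := pow_le_pow_left₀ h4.le h3 _
      have h6 : (1 : ℝ) ≤ ((1 : ℝ) / a2) ^ (V.length - 1) * (a2 : ℝ) ^ V.length := by
        have h7 : V.length = (V.length - 1) + 1 := by
          have := List.length_pos_of_ne_nil hV
          omega
        conv_rhs => rw [h7, Nat.add_sub_cancel, pow_succ, ← mul_assoc, ← mul_pow, one_div_mul_cancel (by linarith : (a2 : ℝ) ≠ 0),
          one_pow, one_mul]
        exact ha2'
      have h8 : (1 - (p : ℝ) / q) ^ V.length ≤ 1 := pow_le_one₀ hη.1.le hη.2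
      calc (1 - (p : ℝ) / q) ^ V.length ≤ 1 := h8
        _ ≤ ((1 : ℝ) / a2) ^ (V.length - 1) * (a2 : ℝ) ^ V.length := h6
        _ ≤ _ := mul_le_mul_of_nonneg_right h5 (by positivity)
    · rw [hini]
      intro x hx
      obtain ⟨t, _, rfl⟩ := List.mem_map.1 hx
      exact ⟨by simp, by simp⟩

theorem ini_pos {p q a1 a2 : ℕ} {V : List ℕ} {E : List (ℕ × ℕ)} (hpq : p < q) (ha2 : 0 < a2) (hG : Gr V E) (hV : V ≠ [])
    (hins : ∀ X : St, Wf X → ∀ t ∈ X.1, T (YE p q E) (aR a1 a2) X = ins (YE p q E) (aR a1 a2) t (T (YE p q E) (aR a1 a2)) X)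
    (hT : 0 < T (YE p q E) (aR a1 a2) (V.toFinset, ∅)) :
    Pos (YE p q E) (aR a1 a2) (V.toFinset, ∅) (Phi (iniL a1 V E)) ∧ VS (iniL a1 V E) := by
  obtain ⟨h1, h2, h3⟩ := Ini_all hpq ha2 hG hV hins hT
  have ha : 0 ≤ aR a1 a2 := by
    unfold aR
    positivity
  have hη := Ini_eta hpq
  have hw : 0 < WL (YE p q E) (aR a1 a2) (V.toFinset, ∅) (Phi (iniL a1 V E)) := by
    have h4 : (0 : ℝ) < (1 - (p : ℝ) / q) ^ V.length := pow_pos hη.1 _
    exact pos_of_mul_pos_left (h4.trans_le h2) (by positivity)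
  exact ⟨(T_pos_of (lab_YE hpq E) ha h1 hw).2, h3⟩

theorem ini_low {p q a1 a2 : ℕ} {V : List ℕ} {E : List (ℕ × ℕ)} (hpq : p < q) (ha2 : 0 < a2) (hG : Gr V E) (hV : V ≠ [])
    (hins : ∀ X : St, Wf X → ∀ t ∈ X.1, T (YE p q E) (aR a1 a2) X = ins (YE p q E) (aR a1 a2) t (T (YE p q E) (aR a1 a2)) X)
    (hT : 0 < T (YE p q E) (aR a1 a2) (V.toFinset, ∅)) :
    ((1 - (p : ℝ) / q) / (V.length * 2 ^ (2 * V.length + 1) * (a1 + a2))) ^ V.length ≤
      PrL (YE p q E) (aR a1 a2) (V.toFinset, ∅) (Phi (iniL a1 V E)) := by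
  obtain ⟨h1, h2, _⟩ := Ini_all hpq ha2 hG hV hins hT
  have ha : 0 ≤ aR a1 a2 := by
    unfold aR
    positivity
  have hη := Ini_eta hpq
  have ha2' : (0 : ℝ) < a2 := by exact_mod_cast ha2
  have hn : (0 : ℝ) < (V.length : ℝ) := by
    exact_mod_cast List.length_pos_of_ne_nil hV
  have hw : 0 < WL (YE p q E) (aR a1 a2) (V.toFinset, ∅) (Phi (iniL a1 V E)) := by
    have h4 : (0 : ℝ) < (1 - (p : ℝ) / q) ^ V.length := pow_pos hη.1 _
    exact pos_of_mul_pos_left (h4.trans_le h2) (by positivity)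
  rw [PrL_eq (lab_YE hpq E) ha h1 hw]
  have hc : V.toFinset.card = V.length := List.toFinset_card_of_nodup hG.1
  have h5 : T (YE p q E) (aR a1 a2) (V.toFinset, ∅) ≤ (2 ^ (2 * V.length + 1) * (1 + aR a1 a2)) ^ V.length := by
    have h6 := T_le (lab_YE hpq E) ha (N := V.length) (X := (V.toFinset, ∅))
      (by show V.toFinset.card + (∅ : Finset (Finset ℕ)).card ≤ V.length; rw [hc, Finset.card_empty]; omega)
    have h7 : ((V.toFinset, (∅ : Finset (Finset ℕ))) : St).1.card = V.length := hc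
    rw [h7] at h6
    exact h6
  show _ ≤ WL (YE p q E) (aR a1 a2) (V.toFinset, ∅) (Phi (iniL a1 V E)) /
    ((V.toFinset.card.factorial : ℝ) * T (YE p q E) (aR a1 a2) (V.toFinset, ∅))
  rw [hc]
  have h8 : ((V.length.factorial : ℕ) : ℝ) ≤ (V.length : ℝ) ^ V.length := by
    exact_mod_cast Nat.factorial_le_pow V.length
  have h9 : (0 : ℝ) < ((V.length.factorial : ℕ) : ℝ) := by exact_mod_cast Nat.factorial_pos _
  have h10 : 1 + aR a1 a2 = (a1 + a2) / a2 := by
    unfold aR
    field_simp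
    ring
  have h11 : (0 : ℝ) < (a1 : ℝ) + a2 := by positivity
  rw [le_div_iff₀ (mul_pos h9 hT)]
  have h12 : ((V.length.factorial : ℕ) : ℝ) * T (YE p q E) (aR a1 a2) (V.toFinset, ∅) ≤
      (V.length : ℝ) ^ V.length * (2 ^ (2 * V.length + 1) * (((a1 : ℝ) + a2) / a2)) ^ V.length := by
    rw [← h10]
    exact mul_le_mul h8 h5 hT.le (by positivity)
  have h13 : (0 : ℝ) ≤ ((1 - (p : ℝ) / q) / (V.length * 2 ^ (2 * V.length + 1) * (a1 + a2))) ^ V.length := by
    have := hη.1.le
    positivity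
  refine (mul_le_mul_of_nonneg_left h12 h13).trans ?_
  rw [← mul_pow, ← mul_pow]
  have h14 : (1 - (p : ℝ) / q) / (V.length * 2 ^ (2 * V.length + 1) * (a1 + a2)) *
      ((V.length : ℝ) * (2 ^ (2 * V.length + 1) * (((a1 : ℝ) + a2) / a2))) = (1 - (p : ℝ) / q) / a2 := by
    field_simp
  rw [h14, div_pow, div_le_iff₀ (by positivity)]
  exact h2

end BSI.M
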