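import Pool.Agent.BSI.Ins

/-!
# BSI-Jn: the joint weight of two vertices is symmetric, and is not small

`js Y t s D` is the weight of all ways to insert first `t`, then `s` so that both are in one block with the pieces `D`, no root.
The closed form `js_eq` comes from `Finset.prod_add`; the lower bound from `1 - x y ≤ (1 - x) + (1 - y)` for `|x|, |y| ≤ 1`.
-/

set_option autoImplicit false

namespace BSI

open Finset ACY

variable {Y : ℕ → ℕ → ℝ} {η : ℝ} {X : St}

/-- the joint weight, first `t`, then `s` -/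
noncomputable def js (Y : ℕ → ℕ → ℝ) (t s : ℕ) (D : Finset (Finset ℕ)) : ℝ :=
  ∑ C ∈ D.powerset, cc Y t C * cc Y s (D \ C) * (1 - yb Y s (blk t C))

theorem js_eq (hX : Wf X) {t s : ℕ} (ht : t ∈ X.1) {D : Finset (Finset ℕ)} (hD : D ⊆ X.2) :
    js Y t s D = ∏ B ∈ D, ((1 - yb Y t B) + (1 - yb Y s B)) -
      Y s t * ∏ B ∈ D, (1 - yb Y t B * yb Y s B) := by
  unfold js
  have h1 : ∀ C ∈ D.powerset, cc Y t C * cc Y s (D \ C) * (1 - yb Y s (blk t C)) =
      (∏ B ∈ C, (1 - yb Y t B)) * (∏ B ∈ D \ C, (1 - yb Y s B)) -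
        Y s t * ((∏ B ∈ C, (1 - yb Y t B) * yb Y s B) * ∏ B ∈ D \ C, (1 - yb Y s B)) := by
    intro C hC
    rw [yb_blk hX ht ((Finset.mem_powerset.1 hC).trans hD), Finset.prod_mul_distrib]
    unfold cc
    ring
  rw [Finset.sum_congr rfl h1, Finset.sum_sub_distrib, ← Finset.mul_sum, ← Finset.prod_add, ← Finset.prod_add]
  congr 2
  refine Finset.prod_congr rfl fun B _ => ?_
  ring

theorem js_symm (hY : ∀ u v, Y u v = Y v u) (hX : Wf X) {t s : ℕ} (ht : t ∈ X.1) (hs : s ∈ X.1)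
    {D : Finset (Finset ℕ)} (hD : D ⊆ X.2) : js Y t s D = js Y s t D := by
  rw [js_eq hX ht hD, js_eq hX hs hD, hY s t]
  congr 1
  · exact Finset.prod_congr rfl fun B _ => by ring
  · congr 1
    exact Finset.prod_congr rfl fun B _ => by ring

theorem yb_gap (hY : Lab Y η) (t : ℕ) (B : Finset ℕ) : yb Y t B = 1 ∨ |yb Y t B| ≤ 1 - η := by
  have hY1 := hY.abs_le
  unfold yb
  induction B using Finset.induction_on with
  | empty => exact Or.inl (Finset.prod_empty)
  | insert b B hb ih =>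
    rw [Finset.prod_insert hb]
    rcases hY.gap t b with h1 | h1
    · rw [h1, one_mul]
      exact ih
    · right
      have h2 : |∏ b ∈ B, Y t b| ≤ 1 := yb_abs hY1 t B
      rw [abs_mul]
      calc |Y t b| * |∏ b ∈ B, Y t b| ≤ |Y t b| * 1 :=
            mul_le_mul_of_nonneg_left h2 (abs_nonneg _)
        _ ≤ 1 - η := by rw [mul_one]; exact h1

theorem js_ge (hY : Lab Y η) (hX : Wf X) {t s : ℕ} (ht : t ∈ X.1) (hs : s ∈ X.1)
    {D : Finset (Finset ℕ)} (hD : D ⊆ X.2) (hpos : 0 < js Y t s D) :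
    η ^ 2 / 2 * ∏ B ∈ D, ((1 - yb Y t B) + (1 - yb Y s B)) ≤ js Y t s D := by
  have _ := hs
  have hY1 := hY.abs_le
  have hη := hY.pos
  have hη1 := hY.le1
  have hab : ∀ r B, -1 ≤ yb Y r B ∧ yb Y r B ≤ 1 := fun r B => abs_le.1 (yb_abs hY1 r B)
  have h0 : ∀ B, 0 ≤ 1 - yb Y t B * yb Y s B := by
    intro B
    have h1 := yb_abs hY1 t B
    have h2 := yb_abs hY1 s B
    have h3 : |yb Y t B * yb Y s B| ≤ 1 := by
      rw [abs_mul]
      exact mul_le_one₀ h1 (abs_nonneg _) h2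
    linarith [(abs_le.1 h3).2]
  have hle : ∀ B, 1 - yb Y t B * yb Y s B ≤ (1 - yb Y t B) + (1 - yb Y s B) := by
    intro B
    nlinarith [(hab t B).2, (hab s B).2]
  have hprod : ∀ E : Finset (Finset ℕ), ∏ B ∈ E, (1 - yb Y t B * yb Y s B) ≤
      ∏ B ∈ E, ((1 - yb Y t B) + (1 - yb Y s B)) := fun E =>
    Finset.prod_le_prod (fun B _ => h0 B) fun B _ => hle B
  have hnn : ∀ E : Finset (Finset ℕ), 0 ≤ ∏ B ∈ E, (1 - yb Y t B * yb Y s B) := fun E =>
    Finset.prod_nonneg fun B _ => h0 B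
  have hnn' : ∀ E : Finset (Finset ℕ), 0 ≤ ∏ B ∈ E, ((1 - yb Y t B) + (1 - yb Y s B)) := fun E =>
    (hnn E).trans (hprod E)
  have hsq : η ^ 2 / 2 ≤ η := by nlinarith
  rw [js_eq hX ht hD] at hpos ⊢
  rcases hY.gap s t with h1 | h1
  · have hex : ∃ J ∈ D, yb Y t J ≠ 1 ∧ yb Y s J ≠ 1 := by
      by_contra hcon
      push Not at hcon
      have h2 : ∏ B ∈ D, ((1 - yb Y t B) + (1 - yb Y s B)) = ∏ B ∈ D, (1 - yb Y t B * yb Y s B) := by
        refine Finset.prod_congr rfl fun B hB => ?_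
        by_cases h3 : yb Y t B = 1
        · rw [h3]
          ring
        · rw [hcon B hB h3]
          ring
      rw [h1, h2] at hpos
      linarith
    obtain ⟨J, hJ, hJt, hJs⟩ := hex
    have hJt' := abs_le.1 ((yb_gap hY t J).resolve_left hJt)
    have hJs' := abs_le.1 ((yb_gap hY s J).resolve_left hJs)
    rw [h1, ← Finset.mul_prod_erase D _ hJ, ← Finset.mul_prod_erase D _ hJ]
    have h4 := hprod (D.erase J)
    have h5 := hnn' (D.erase J)
    have h6 := h0 J
    have h7 := mul_le_mul_of_nonneg_left h4 h6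
    set W := ∏ B ∈ D.erase J, ((1 - yb Y t B) + (1 - yb Y s B)) with hW
    set x := 1 - yb Y t J with hx
    set z := 1 - yb Y s J with hz
    have hx1 : η ≤ x := by linarith
    have hz1 : η ≤ z := by linarith
    have h8 : 1 - yb Y t J * yb Y s J = x + z - x * z := by rw [hx, hz]; ring
    rw [h8] at h7 ⊢
    have h9 : η ^ 2 / 2 * (x + z) ≤ x * z := by
      have h10 : η * x ≤ z * x := mul_le_mul_of_nonneg_right hz1 (by linarith)
      have h11 : η * z ≤ x * z := mul_le_mul_of_nonneg_right hx1 (by linarith)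
      have h12 : η ^ 2 / 2 * (x + z) ≤ η / 2 * (x + z) :=
        mul_le_mul_of_nonneg_right (by nlinarith) (by linarith)
      nlinarith
    have h13 := mul_le_mul_of_nonneg_right h9 h5
    nlinarith
  · have h2 := hprod D
    have h3 := hnn D
    have h4 := hnn' D
    have h5 := (abs_le.1 h1).2
    have h6 : Y s t * ∏ B ∈ D, (1 - yb Y t B * yb Y s B) ≤
        (1 - η) * ∏ B ∈ D, ((1 - yb Y t B) + (1 - yb Y s B)) :=
      (mul_le_mul_of_nonneg_right h5 h3).trans (mul_le_mul_of_nonneg_left h2 (by linarith))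
    have h7 := mul_le_mul_of_nonneg_right hsq h4
    linarith

end BSI
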