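import Pool.Agent.BSI.MDefs

/-!
# BSI machine layer, Law: the average over the numbers of the pieces

PLAN. `law_list`: induction on `P`, generalising `n` and `G`; `n = n' + 1` for `P = B :: P'`, the first number separated by `Fin.consEquiv` (`Fintype.sum_equiv`, as in `av_count` of ACY/MAv.lean), `List.ofFn_succ`; the numbers
`v0 < kJ * wE z` put `B` to `z`, those with `kJ * wE z ≤ v0 < kJ * (wE z + wE z')` to `z'`, the others give `0`; `kJ * (wE z + wE z') ≤ m` (`Nat.div_mul_le_self`). For `P = []` the sum is `m ^ n * G [] []`. `LS_congr`: induction. `LS_finset`: induction on `P`,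
`Finset.sum_powerset_insert`, the toFinset of the head is not in `CF P'`.
-/

set_option autoImplicit false

namespace BSI.M

open Finset

/-- the set of the blocks of a list -/
def CF (C : List (List ℕ)) : Finset (Finset ℕ) := (C.map List.toFinset).toFinset

/-- weighted sum over the ways to distribute the pieces -/
noncomputable def LS (A A' : List ℕ → ℝ) : List (List ℕ) → (List (List ℕ) → List (List ℕ) → ℝ) → ℝ
  | [], G => G [] []
  | B :: P, G => A B * LS A A' P (fun S S' => G (B :: S) S') + A' B * LS A A' P (fun S S' => G S (B :: S'))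

private theorem law_sum3 (m a b : ℕ) (hab : a ≤ b) (hb : b ≤ m) (X Y : ℝ) :
    ∑ v : Fin m, (if (v : ℕ) < a then X else if (v : ℕ) < b then Y else 0) =
      (a : ℝ) * X + ((b - a : ℕ) : ℝ) * Y := by
  rw [Fin.sum_univ_eq_sum_range (fun v => if v < a then X else if v < b then Y else 0) m]
  obtain ⟨c, rfl⟩ := Nat.exists_eq_add_of_le hab
  obtain ⟨d, rfl⟩ := Nat.exists_eq_add_of_le hb
  rw [Finset.sum_range_add, Finset.sum_range_add]
  have e1 : ∑ x ∈ range a, (if x < a then X else if x < a + c then Y else 0) = (a : ℝ) * X := by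
    rw [Finset.sum_congr rfl (fun x hx => if_pos (Finset.mem_range.1 hx)), Finset.sum_const,
      Finset.card_range, nsmul_eq_mul]
  have e2 : ∑ x ∈ range c, (if a + x < a then X else if a + x < a + c then Y else 0) =
      (c : ℝ) * Y := by
    have : ∀ x ∈ range c, (if a + x < a then X else if a + x < a + c then Y else 0) = Y := by
      intro x hx
      have hx' := Finset.mem_range.1 hx
      rw [if_neg (by omega), if_pos (by omega)]
    rw [Finset.sum_congr rfl this, Finset.sum_const, Finset.card_range, nsmul_eq_mul]
  have e3 : ∑ x ∈ range d, (if a + c + x < a then X else if a + c + x < a + c then Y else 0) = 0 := by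
    refine Finset.sum_eq_zero fun x _ => ?_
    rw [if_neg (by omega), if_neg (by omega)]
  have e4 : a + c - a = c := by omega
  rw [e1, e2, e3, e4, add_zero]

private theorem law_one (p q : ℕ) (E : List (ℕ × ℕ)) (m z z' : ℕ) (B : List ℕ) (X Y : ℝ) :
    ∑ v : Fin m, (if toA p q E m z z' (B, (v : ℕ)) = true then
      (if toF p q E m z z' (B, (v : ℕ)) = true then X else Y) else 0) =
      ((kJ p q E m z z' B * wE p q E z B : ℕ) : ℝ) * X +
        ((kJ p q E m z z' B * wE p q E z' B : ℕ) : ℝ) * Y := by
  have hle : kJ p q E m z z' B * (wE p q E z B + wE p q E z' B) ≤ m := Nat.div_mul_le_self _ _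
  have hab : kJ p q E m z z' B * wE p q E z B ≤
      kJ p q E m z z' B * (wE p q E z B + wE p q E z' B) :=
    Nat.mul_le_mul_left _ (Nat.le_add_right _ _)
  have hs : kJ p q E m z z' B * (wE p q E z B + wE p q E z' B) -
      kJ p q E m z z' B * wE p q E z B = kJ p q E m z z' B * wE p q E z' B := by
    rw [Nat.mul_add]
    omega
  rw [← hs, ← law_sum3 m _ _ hab hle X Y]
  refine Finset.sum_congr rfl fun v _ => ?_
  have hA : (toA p q E m z z' (B, (v : ℕ)) = true) ↔
      (v : ℕ) < kJ p q E m z z' B * (wE p q E z B + wE p q E z' B) := by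
    simp [toA]
  have hF : (toF p q E m z z' (B, (v : ℕ)) = true) ↔
      (v : ℕ) < kJ p q E m z z' B * wE p q E z B := by
    simp [toF]
  by_cases h1 : (v : ℕ) < kJ p q E m z z' B * wE p q E z B
  · rw [if_pos (hA.2 (lt_of_lt_of_le h1 hab)), if_pos (hF.2 h1), if_pos h1]
  · rw [if_neg h1]
    by_cases h2 : (v : ℕ) < kJ p q E m z z' B * (wE p q E z B + wE p q E z' B)
    · rw [if_pos (hA.2 h2), if_neg (fun h => h1 (hF.1 h)), if_pos h2]
    · rw [if_neg (fun h => h2 (hA.1 h)), if_neg h2]

theorem law_list (p q : ℕ) (E : List (ℕ × ℕ)) (m z z' n : ℕ) (P : List (List ℕ)) (hP : P.length ≤ n)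
    (G : List (List ℕ) → List (List ℕ) → ℝ) :
    ∑ v : Fin n → Fin m, (if (P.zip (List.ofFn fun i => (v i : ℕ))).all (toA p q E m z z') then
      G (((P.zip (List.ofFn fun i => (v i : ℕ))).filter (toF p q E m z z')).map Prod.fst)
        (((P.zip (List.ofFn fun i => (v i : ℕ))).filter fun x => !(toF p q E m z z' x)).map Prod.fst) else 0) =
      (m : ℝ) ^ (n - P.length) * LS (fun B => ((kJ p q E m z z' B * wE p q E z B : ℕ) : ℝ))
        (fun B => ((kJ p q E m z z' B * wE p q E z' B : ℕ) : ℝ)) P G := by
  induction P generalizing n G with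
  | nil => simp [LS]
  | cons B P ih =>
    obtain ⟨n, rfl⟩ : ∃ n', n = n' + 1 := ⟨n - 1, by simp only [List.length_cons] at hP; omega⟩
    have hP' : P.length ≤ n := by simp only [List.length_cons] at hP; omega
    have key : ∀ (v0 : Fin m) (v : Fin n → Fin m),
        (if ((B :: P).zip (List.ofFn fun i => ((Fin.cons v0 v : Fin (n + 1) → Fin m) i : ℕ))).all
            (toA p q E m z z') then
          G ((((B :: P).zip (List.ofFn fun i => ((Fin.cons v0 v : Fin (n + 1) → Fin m) i : ℕ))).filter
              (toF p q E m z z')).map Prod.fst)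
            ((((B :: P).zip (List.ofFn fun i => ((Fin.cons v0 v : Fin (n + 1) → Fin m) i : ℕ))).filter
              fun x => !(toF p q E m z z' x)).map Prod.fst) else 0) =
        (if toA p q E m z z' (B, (v0 : ℕ)) = true then
          (if toF p q E m z z' (B, (v0 : ℕ)) = true then
            (if (P.zip (List.ofFn fun i => (v i : ℕ))).all (toA p q E m z z') then
              G (B :: ((P.zip (List.ofFn fun i => (v i : ℕ))).filter (toF p q E m z z')).map Prod.fst)
                (((P.zip (List.ofFn fun i => (v i : ℕ))).filter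
                  fun x => !(toF p q E m z z' x)).map Prod.fst) else 0)
          else
            (if (P.zip (List.ofFn fun i => (v i : ℕ))).all (toA p q E m z z') then
              G (((P.zip (List.ofFn fun i => (v i : ℕ))).filter (toF p q E m z z')).map Prod.fst)
                (B :: ((P.zip (List.ofFn fun i => (v i : ℕ))).filter
                  fun x => !(toF p q E m z z' x)).map Prod.fst) else 0)) else 0) := by
      intro v0 v
      have hz : (B :: P).zip (List.ofFn fun i => ((Fin.cons v0 v : Fin (n + 1) → Fin m) i : ℕ)) =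
          (B, (v0 : ℕ)) :: P.zip (List.ofFn fun i => (v i : ℕ)) := by
        rw [List.ofFn_succ]
        simp only [Fin.cons_zero, Fin.cons_succ, List.zip_cons_cons]
      rw [hz]
      generalize P.zip (List.ofFn fun i => (v i : ℕ)) = Z
      by_cases hA : toA p q E m z z' (B, (v0 : ℕ)) = true
      · have e1 : ((B, (v0 : ℕ)) :: Z).all (toA p q E m z z') = Z.all (toA p q E m z z') := by
          rw [List.all_cons, hA, Bool.true_and]
        by_cases hF : toF p q E m z z' (B, (v0 : ℕ)) = true
        · have e2 : ((B, (v0 : ℕ)) :: Z).filter (toF p q E m z z') =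
              (B, (v0 : ℕ)) :: Z.filter (toF p q E m z z') := List.filter_cons_of_pos hF
          have e3 : ((B, (v0 : ℕ)) :: Z).filter (fun x => !(toF p q E m z z' x)) =
              Z.filter (fun x => !(toF p q E m z z' x)) :=
            List.filter_cons_of_neg (by rw [hF]; decide)
          rw [e1, e2, e3, if_pos hA, if_pos hF, List.map_cons]
        · have hF' : toF p q E m z z' (B, (v0 : ℕ)) = false := by
            simpa using hF
          have e2 : ((B, (v0 : ℕ)) :: Z).filter (toF p q E m z z') =
              Z.filter (toF p q E m z z') := List.filter_cons_of_neg hF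
          have e3 : ((B, (v0 : ℕ)) :: Z).filter (fun x => !(toF p q E m z z' x)) =
              (B, (v0 : ℕ)) :: Z.filter (fun x => !(toF p q E m z z' x)) :=
            List.filter_cons_of_pos (by rw [hF']; decide)
          rw [e1, e2, e3, if_pos hA, if_neg hF, List.map_cons]
      · have hA' : toA p q E m z z' (B, (v0 : ℕ)) = false := by
          simpa using hA
        have e1 : ((B, (v0 : ℕ)) :: Z).all (toA p q E m z z') = false := by
          rw [List.all_cons, hA', Bool.false_and]
        rw [e1, if_neg hA, if_neg (by decide)]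
    rw [← Equiv.sum_comp (Fin.consEquiv fun _ : Fin (n + 1) => Fin m), Fintype.sum_prod_type]
    have e0 : ∀ (v0 : Fin m) (v : Fin n → Fin m),
        (Fin.consEquiv fun _ : Fin (n + 1) => Fin m) (v0, v) = (Fin.cons v0 v : Fin (n + 1) → Fin m) :=
      fun _ _ => rfl
    simp only [e0]
    rw [Finset.sum_comm]
    rw [Finset.sum_congr rfl fun v _ => Finset.sum_congr rfl fun v0 _ => key v0 v]
    rw [Finset.sum_congr rfl fun v _ => law_one p q E m z z' B _ _]
    rw [Finset.sum_add_distrib, ← Finset.mul_sum, ← Finset.mul_sum,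
      ih n hP' (fun S S' => G (B :: S) S'), ih n hP' (fun S S' => G S (B :: S'))]
    have hl : n + 1 - (B :: P).length = n - P.length := by
      simp only [List.length_cons]
      omega
    rw [hl]
    simp only [LS]
    ring

theorem LS_congr (A A' : List ℕ → ℝ) (P : List (List ℕ)) (G G' : List (List ℕ) → List (List ℕ) → ℝ)
    (h : ∀ S S', (S ++ S').Perm P → S.Sublist P → S'.Sublist P → G S S' = G' S S') :
    LS A A' P G = LS A A' P G' := by
  induction P generalizing G G' with
  | nil => exact h [] [] (by simp) (List.Sublist.refl _) (List.Sublist.refl _)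
  | cons B P ih =>
    simp only [LS]
    rw [ih (fun S S' => G (B :: S) S') (fun S S' => G' (B :: S) S') fun S S' h1 h2 h3 =>
        h (B :: S) S' (by simpa using h1) (h2.cons_cons B) (h3.cons B),
      ih (fun S S' => G S (B :: S')) (fun S S' => G' S (B :: S')) fun S S' h1 h2 h3 =>
        h S (B :: S') (List.perm_middle.trans (List.Perm.cons B h1)) (h2.cons B) (h3.cons_cons B)]

theorem LS_smul (A A' : List ℕ → ℝ) (P : List (List ℕ)) (c : ℝ) (G : List (List ℕ) → List (List ℕ) → ℝ) :
    LS A A' P (fun S S' => c * G S S') = c * LS A A' P G := by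
  induction P generalizing G with
  | nil => rfl
  | cons B P ih =>
    simp only [LS]
    rw [ih (fun S S' => G (B :: S) S'), ih (fun S S' => G S (B :: S'))]
    ring

theorem LS_finset (A A' : List ℕ → ℝ) (a a' : Finset ℕ → ℝ) (P : List (List ℕ)) (hA : ∀ B ∈ P, A B = a B.toFinset)
    (hA' : ∀ B ∈ P, A' B = a' B.toFinset) (hn : (P.map List.toFinset).Nodup) (H : Finset (Finset ℕ) → ℝ) :
    LS A A' P (fun S _ => H (CF S)) =
      ∑ C ∈ (CF P).powerset, (∏ B ∈ C, a B) * (∏ B ∈ CF P \ C, a' B) * H C := by
  induction P generalizing H with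
  | nil => simp [LS, CF]
  | cons B P ih =>
    have hcons : ∀ S : List (List ℕ), CF (B :: S) = insert B.toFinset (CF S) := fun S => by
      simp [CF]
    have hb : B.toFinset ∉ CF P := by
      have := (List.nodup_cons.1 (by simpa using hn :
        (B.toFinset :: P.map List.toFinset).Nodup)).1
      simpa [CF] using this
    have hn' : (P.map List.toFinset).Nodup :=
      (List.nodup_cons.1 (by simpa using hn : (B.toFinset :: P.map List.toFinset).Nodup)).2
    have hA1 : ∀ B' ∈ P, A B' = a B'.toFinset := fun B' h => hA B' (List.mem_cons_of_mem _ h)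
    have hA2 : ∀ B' ∈ P, A' B' = a' B'.toFinset := fun B' h => hA' B' (List.mem_cons_of_mem _ h)
    simp only [LS, hcons]
    rw [ih hA1 hA2 hn' (fun C => H (insert B.toFinset C)), ih hA1 hA2 hn' H,
      hA B List.mem_cons_self, hA' B List.mem_cons_self, Finset.sum_powerset_insert hb,
      add_comm, Finset.mul_sum, Finset.mul_sum]
    congr 1
    · refine Finset.sum_congr rfl fun C hC => ?_
      have hbC : B.toFinset ∉ C := fun h => hb (Finset.mem_powerset.1 hC h)
      have e : insert B.toFinset (CF P) \ C = insert B.toFinset (CF P \ C) := by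
        rw [Finset.insert_sdiff_of_notMem _ hbC]
      rw [e, Finset.prod_insert (fun h => hb (Finset.mem_sdiff.1 h).1)]
      ring
    · refine Finset.sum_congr rfl fun C hC => ?_
      have hbC : B.toFinset ∉ C := fun h => hb (Finset.mem_powerset.1 hC h)
      have e : insert B.toFinset (CF P) \ insert B.toFinset C = CF P \ C := by
        rw [Finset.insert_sdiff_insert, Finset.sdiff_insert_of_notMem hb]
      rw [e, Finset.prod_insert hbC]
      ring

end BSI.M
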