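import Pool.Agent.BSI.Cgr

/-!
# BSI-Lbl: the dependence on one label (deletion and contraction)

PLAN. `T_dc`. `V.card = 2`: `V = {u, v}`; by `T_ins` (vertex `u`), `ins_two` (only `C = ∅`) and `ins_one`: `T Y a (V, ∅) = (1 - Y v u) + a`, and `T_single` for `V.erase v = {u}`. `3 ≤ V.card`: `T_ins` for `u`, `ins_two` (`C = ∅`):
`T Y a (V, ∅) = T Y a (V.erase u, {{u}}) + a * T Y a (V.erase u, ∅)`; `T_ins` for `v` in both, `ins_two`: the first is the sum over `C = ∅` (no label `Y v u`) and `C = {{u}}` with the factor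
`1 - yb Y v {u} = 1 - Y v u` times `T Y a (R, {{u, v}}) + a * T Y a (R, ∅)`, `R = (V.erase u).erase v`. All partition functions of states with `X.1 = R` are the same for `Y` and `Y'` (`T_congr` with `σ = id`: the labels
`Y t x`, `t ∈ R`, agree). Then `T_contract`. `T_one`: all labels of `r` are `1`: `T_ins` for `r`: `T Y a (V, ∅) = T Y a (V.erase r, {{r}}) + a * T Y a (V.erase r, ∅)` and the first is `0`: a state all of whose vertices have label `1` to the block
`B` has `T = 0` (private lemma by induction with `T_rec`: every letter either swallows `B`, weight `0`, or not; for the last vertex the weight is `0`).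
-/

set_option autoImplicit false

namespace BSI

open Finset ACY

private theorem lbl_wf0 (V : Finset ℕ) : Wf (V, (∅ : Finset (Finset ℕ))) :=
  ⟨fun _ hB => absurd hB (Finset.notMem_empty _), fun _ hB => absurd hB (Finset.notMem_empty _),
    fun _ hB => absurd hB (Finset.notMem_empty _)⟩

private theorem lbl_wf1 {V : Finset ℕ} {u : ℕ} : Wf (V.erase u, ({{u}} : Finset (Finset ℕ))) := by
  refine ⟨?_, ?_, ?_⟩
  · intro B hB
    rw [Finset.mem_singleton.1 hB]
    exact Finset.singleton_nonempty u
  · intro B hB C hC hne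
    exact absurd ((Finset.mem_singleton.1 hB).trans (Finset.mem_singleton.1 hC).symm) hne
  · intro B hB
    rw [Finset.mem_singleton.1 hB, Finset.disjoint_singleton_left]
    exact Finset.notMem_erase u V

private theorem lbl_blk0 (u : ℕ) : blk u ∅ = {u} := by
  unfold blk
  rw [Finset.biUnion_empty]
  rfl

private theorem lbl_cc0 (Y : ℕ → ℕ → ℝ) (u : ℕ) : cc Y u ∅ = 1 := Finset.prod_empty

private theorem lbl_A {Y : ℕ → ℕ → ℝ} (hY : ∀ x z, Y x z = Y z x) {a : ℝ} {V : Finset ℕ} {u : ℕ} (hu : u ∈ V)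
    (h2 : 2 ≤ V.card) : T Y a (V, ∅) = T Y a (V.erase u, {{u}}) + a * T Y a (V.erase u, ∅) := by
  rw [T_ins hY (lbl_wf0 V) hu, ins_two (X := (V, (∅ : Finset (Finset ℕ)))) h2 hu]
  have h1 : (V, (∅ : Finset (Finset ℕ))).2.powerset = {∅} := Finset.powerset_empty
  rw [h1, Finset.sum_singleton, lbl_cc0, one_mul]
  have h3 : nx (V, (∅ : Finset (Finset ℕ))) (u, (∅, false)) = (V.erase u, {{u}}) := by
    unfold nx
    simp [lbl_blk0]
  have h4 : nx (V, (∅ : Finset (Finset ℕ))) (u, (∅, true)) = (V.erase u, ∅) := by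
    unfold nx
    simp
  rw [h3, h4]

private theorem lbl_B {Y : ℕ → ℕ → ℝ} (hY : ∀ x z, Y x z = Y z x) {a : ℝ} {V : Finset ℕ} {u v : ℕ}
    (hv : v ∈ V) (hne : u ≠ v) (h3 : 2 ≤ (V.erase u).card) :
    T Y a (V.erase u, {{u}}) = (T Y a ((V.erase u).erase v, {{v}, {u}}) + a * T Y a ((V.erase u).erase v, {{u}})) +
      (1 - Y v u) * (T Y a ((V.erase u).erase v, {{u, v}}) + a * T Y a ((V.erase u).erase v, ∅)) := by
  have hv' : v ∈ (V.erase u, ({{u}} : Finset (Finset ℕ))).1 := Finset.mem_erase.2 ⟨hne.symm, hv⟩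
  rw [T_ins hY lbl_wf1 hv', ins_two (X := (V.erase u, ({{u}} : Finset (Finset ℕ)))) h3 hv']
  have h1 : (V.erase u, ({{u}} : Finset (Finset ℕ))).2.powerset = {∅, {{u}}} := by
    change ({{u}} : Finset (Finset ℕ)).powerset = {∅, {{u}}}
    rw [← insert_empty_eq ({u} : Finset ℕ), Finset.powerset_insert, Finset.powerset_empty, Finset.image_singleton]
    rfl
  have hne2 : (∅ : Finset (Finset ℕ)) ≠ {{u}} := (Finset.singleton_ne_empty _).symm
  rw [h1, Finset.sum_pair hne2, lbl_cc0, one_mul]
  have h5 : cc Y v {{u}} = 1 - Y v u := by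
    unfold cc yb
    rw [Finset.prod_singleton, Finset.prod_singleton]
  have h6 : nx (V.erase u, ({{u}} : Finset (Finset ℕ))) (v, (∅, false)) = ((V.erase u).erase v, {{v}, {u}}) := by
    unfold nx
    simp [lbl_blk0]
  have h7 : nx (V.erase u, ({{u}} : Finset (Finset ℕ))) (v, (∅, true)) = ((V.erase u).erase v, {{u}}) := by
    unfold nx
    simp
  have h8 : nx (V.erase u, ({{u}} : Finset (Finset ℕ))) (v, ({{u}}, false)) = ((V.erase u).erase v, {{u, v}}) := by
    have h9 : blk v {{u}} = {u, v} := by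
      unfold blk
      rw [Finset.singleton_biUnion]
      exact Finset.pair_comm v u
    unfold nx
    rw [if_neg (by simp), h9]
    simp
  have h10 : nx (V.erase u, ({{u}} : Finset (Finset ℕ))) (v, ({{u}}, true)) = ((V.erase u).erase v, ∅) := by
    unfold nx
    simp
  rw [h5, h6, h7, h8, h10]

private theorem lbl_cg {Y Y' : ℕ → ℕ → ℝ} {a : ℝ} {u v : ℕ}
    (hag : ∀ x z, ¬((x = u ∧ z = v) ∨ (x = v ∧ z = u)) → Y x z = Y' x z) {X : St} (hX : Wf X)
    (h : ∀ t ∈ X.1, t ≠ u ∧ t ≠ v) : T Y a X = T Y' a X := by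
  have h0 : ∀ t ∈ X.1, ∀ x, Y t x = Y' t x := fun t ht x => hag t x fun h1 => by
    rcases h1 with h1 | h1
    · exact (h t ht).1 h1.1
    · exact (h t ht).2 h1.1
  refine T_congr hX hX rfl id (Set.bijOn_id _) ?_ ?_
  · intro t ht B _
    unfold yb
    exact Finset.prod_congr rfl fun b _ => h0 t ht b
  · intro t ht x _ _
    exact h0 t ht x

private theorem lbl_one {Y : ℕ → ℕ → ℝ} {a : ℝ} {t : ℕ} (hY : ∀ x z, Y x z = Y z x) {P : Finset (Finset ℕ)}
    (hX : Wf (({t} : Finset ℕ), P)) : T Y a ({t}, P) = cc Y t P := by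
  rw [T_ins hY hX (Finset.mem_singleton_self t), ins_one rfl, T_empty rfl, mul_one]

private theorem lbl_zero {Y : ℕ → ℕ → ℝ} {a : ℝ} (n : ℕ) :
    ∀ (X : St) (B : Finset ℕ), X.1.card = n + 1 → B ∈ X.2 → (∀ t ∈ X.1, B ≠ {t}) → (∀ t ∈ X.1, yb Y t B = 1) →
      T Y a X = 0 := by
  induction n with
  | zero =>
    intro X B hc hB _ h1
    have hne : X.1.Nonempty := Finset.card_pos.1 (by omega)
    rw [T_rec hne]
    have h2 : ∑ l ∈ lts X, wl Y a X l * T Y a (nx X l) = 0 := by
      refine Finset.sum_eq_zero fun l hl => ?_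
      have hl' := (lts_one (by omega)).1 hl
      have h3 : cc Y l.1 l.2.1 = 0 := by
        unfold cc
        refine Finset.prod_eq_zero (i := B) ?_ ?_
        · rw [hl'.2]
          exact hB
        · rw [h1 l.1 hl'.1, sub_self]
      unfold wl
      rw [h3, zero_mul, zero_mul]
    rw [h2, zero_div]
  | succ n ih =>
    intro X B hc hB h0 h1
    have hne : X.1.Nonempty := Finset.card_pos.1 (by omega)
    rw [T_rec hne]
    have h2 : ∑ l ∈ lts X, wl Y a X l * T Y a (nx X l) = 0 := by
      refine Finset.sum_eq_zero fun l hl => ?_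
      have hl1 := lts_fst hl
      by_cases hBC : B ∈ l.2.1
      · have h3 : cc Y l.1 l.2.1 = 0 := by
          unfold cc
          exact Finset.prod_eq_zero hBC (by rw [h1 l.1 hl1, sub_self])
        unfold wl
        rw [h3, zero_mul, zero_mul]
      · have h4 : T Y a (nx X l) = 0 := by
          refine ih (nx X l) B ?_ ?_ ?_ ?_
          · have := card_nx hl
            omega
          · have h5 : B ∈ X.2 \ l.2.1 := Finset.mem_sdiff.2 ⟨hB, hBC⟩
            unfold nx
            cases l.2.2 with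
            | true => exact h5
            | false => exact Finset.mem_insert_of_mem h5
          · intro t ht
            exact h0 t (Finset.mem_of_mem_erase ht)
          · intro t ht
            exact h1 t (Finset.mem_of_mem_erase ht)
        rw [h4, mul_zero]
    rw [h2, zero_div]

theorem T_dc {Y Y' : ℕ → ℕ → ℝ} (hY : ∀ x z, Y x z = Y z x) (hY' : ∀ x z, Y' x z = Y' z x) {a : ℝ} {V : Finset ℕ}
    {u v : ℕ} (hu : u ∈ V) (hv : v ∈ V) (hne : u ≠ v)
    (hag : ∀ x z, ¬((x = u ∧ z = v) ∨ (x = v ∧ z = u)) → Y x z = Y' x z) :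
    T Y a (V, ∅) = T Y' a (V, ∅) + (Y' u v - Y u v) * T (conY u v Y) a (V.erase v, ∅) := by
  have hv' : v ∈ V.erase u := Finset.mem_erase.2 ⟨hne.symm, hv⟩
  have hcu := Finset.card_erase_add_one hu
  have hcv := Finset.card_erase_add_one hv'
  rcases Nat.lt_or_ge V.card 3 with h3 | h3
  · have h4 : V.erase u = {v} := by
      have h5 : (V.erase u).card = 1 := by omega
      obtain ⟨x, hx⟩ := Finset.card_eq_one.1 h5
      rw [hx] at hv' ⊢
      rw [Finset.mem_singleton.1 hv']
    have h6 : V.erase v = {u} := by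
      ext x
      rw [Finset.mem_singleton]
      constructor
      · intro hx
        by_contra hxu
        have h7 : x ∈ V.erase u := Finset.mem_erase.2 ⟨hxu, Finset.mem_of_mem_erase hx⟩
        rw [h4, Finset.mem_singleton] at h7
        exact (Finset.mem_erase.1 hx).1 h7
      · rintro rfl
        exact Finset.mem_erase.2 ⟨hne, hu⟩
    have hw : Wf (({v} : Finset ℕ), ({{u}} : Finset (Finset ℕ))) := by
      have := lbl_wf1 (V := V) (u := u)
      rwa [h4] at this
    have h2 : 2 ≤ V.card := by omega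
    have hcc : ∀ Z : ℕ → ℕ → ℝ, cc Z v {{u}} = 1 - Z v u := by
      intro Z
      unfold cc yb
      rw [Finset.prod_singleton, Finset.prod_singleton]
    rw [lbl_A hY hu h2, lbl_A hY' hu h2, h4, h6, T_single, T_single, T_single, lbl_one hY hw, lbl_one hY' hw, hcc,
      hcc, hY v u, hY' v u]
    ring
  · have h2 : 2 ≤ V.card := by omega
    have h2' : 2 ≤ (V.erase u).card := by omega
    have hcg : ∀ P : Finset (Finset ℕ), Wf ((V.erase u).erase v, P) →
        T Y a ((V.erase u).erase v, P) = T Y' a ((V.erase u).erase v, P) := fun P hP =>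
      lbl_cg hag hP fun t ht => ⟨(Finset.mem_erase.1 (Finset.mem_erase.1 ht).2).1, (Finset.mem_erase.1 ht).1⟩
    have hdu : u ∉ (V.erase u).erase v := fun h => (Finset.mem_erase.1 (Finset.mem_erase.1 h).2).1 rfl
    have hdv : v ∉ (V.erase u).erase v := Finset.notMem_erase _ _
    have w0 := lbl_wf0 ((V.erase u).erase v)
    have w1 : Wf ((V.erase u).erase v, ({{v}} : Finset (Finset ℕ))) := lbl_wf1
    have w2 : Wf ((V.erase u).erase v, ({{u}} : Finset (Finset ℕ))) := by
      rw [Finset.erase_right_comm]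
      exact lbl_wf1
    have w3 : Wf ((V.erase u).erase v, ({{v}, {u}} : Finset (Finset ℕ))) := by
      refine ⟨?_, ?_, ?_⟩
      · intro B hB
        rcases Finset.mem_insert.1 hB with h | h
        · rw [h]
          exact Finset.singleton_nonempty v
        · rw [Finset.mem_singleton.1 h]
          exact Finset.singleton_nonempty u
      · intro B hB C hC hne'
        rcases Finset.mem_insert.1 hB with h | h
        · rcases Finset.mem_insert.1 hC with h' | h'
          · exact absurd (h.trans h'.symm) hne'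
          · rw [h, Finset.mem_singleton.1 h', Finset.disjoint_singleton]
            exact hne.symm
        · rcases Finset.mem_insert.1 hC with h' | h'
          · rw [h', Finset.mem_singleton.1 h, Finset.disjoint_singleton]
            exact hne
          · exact absurd ((Finset.mem_singleton.1 h).trans (Finset.mem_singleton.1 h').symm) hne'
      · intro B hB
        rcases Finset.mem_insert.1 hB with h | h
        · rw [h, Finset.disjoint_singleton_left]
          exact hdv
        · rw [Finset.mem_singleton.1 h, Finset.disjoint_singleton_left]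
          exact hdu
    have w4 : Wf ((V.erase u).erase v, ({{u, v}} : Finset (Finset ℕ))) := by
      refine ⟨?_, ?_, ?_⟩
      · intro B hB
        rw [Finset.mem_singleton.1 hB]
        exact Finset.insert_nonempty _ _
      · intro B hB C hC hne'
        exact absurd ((Finset.mem_singleton.1 hB).trans (Finset.mem_singleton.1 hC).symm) hne'
      · intro B hB
        rw [Finset.mem_singleton.1 hB, Finset.disjoint_insert_left, Finset.disjoint_singleton_left]
        exact ⟨hdu, hdv⟩
    rw [T_contract hY hu hv hne h3, lbl_A hY hu h2, lbl_A hY' hu h2, lbl_B hY hv hne h2', lbl_B hY' hv hne h2',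
      lbl_A hY hv' h2', lbl_A hY' hv' h2', ← hcg _ w0, ← hcg _ w1, ← hcg _ w2, ← hcg _ w3, ← hcg _ w4, hY v u,
      hY' v u]
    ring

theorem T_one {Y : ℕ → ℕ → ℝ} (hY : ∀ x z, Y x z = Y z x) {a : ℝ} {V : Finset ℕ} {r : ℕ} (hr : r ∈ V)
    (h2 : 2 ≤ V.card) (h1 : ∀ x ∈ V, x ≠ r → Y x r = 1) : T Y a (V, ∅) = a * T Y a (V.erase r, ∅) := by
  have hc := Finset.card_erase_add_one hr
  rw [lbl_A hY hr h2]
  obtain ⟨n, hn⟩ : ∃ n, (V.erase r).card = n + 1 := ⟨(V.erase r).card - 1, by omega⟩
  have h3 : T Y a (V.erase r, {{r}}) = 0 := by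
    refine lbl_zero n (V.erase r, {{r}}) {r} hn (Finset.mem_singleton_self _) ?_ ?_
    · intro t ht h4
      exact (Finset.mem_erase.1 ht).1 (Finset.singleton_injective h4).symm
    · intro t ht
      unfold yb
      rw [Finset.prod_singleton]
      exact h1 t (Finset.mem_erase.1 ht).2 (Finset.mem_erase.1 ht).1
  rw [h3, zero_add]

end BSI
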