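import Pool.Agent.BSI.Sy
import Pool.Agent.BSI.KL
import Pool.Agent.BSI.ChD

/-!
# BSI-LkA: lists of letters and flags

PLAN. Induction on `n` (or on the list). `enc_nx`, `nx_inj`, `p_nx`, `mem_cov`, `mem_ltp`, `ok_cov`, `card_nx` (BSI/Bas.lean). For `Z ∈ cov X`, `Z = nx X l` with `l ∈ lts X`, `0 < pr X l`, so `enc X Z = l` and `nx X (enc X Z) = Z`. `Pos Y a X [] ↔ X.1 = ∅`, `Fl cov 0 X l ↔ l = []`.
`inc_congr`: induction on the list: all flags occurring in `inc` are flags of `Fl cov n X` (for `Z' ∈ mid cov X W`: `Z' ∈ cov X` and `W ∈ cov Z'`).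
-/

set_option autoImplicit false

namespace BSI

open Finset ACY BSI.Ch

variable {Y : ℕ → ℕ → ℝ} {a : ℝ} {X : St}

theorem Fl_path (hY : ∀ u v, |Y u v| ≤ 1) (ha : 0 ≤ a) (n : ℕ) (hX : ok Y a X) (hn : X.1.card = n) {m : List Le}
    (hm : Pos Y a X m) :
    m.length = n ∧ Fl (cov Y a) n X (path X m) ∧ encs X (path X m) = m ∧ pp (p Y a) X (path X m) = PrL Y a X m ∧
      0 < PrL Y a X m := by
  induction m generalizing n X with
  | nil =>
    have h1 : X.1 = ∅ := hm
    rw [h1, Finset.card_empty] at hn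
    subst hn
    exact ⟨rfl, rfl, rfl, rfl, zero_lt_one⟩
  | cons l m ih =>
    obtain ⟨hl, hp, hm'⟩ := hm
    have hc := card_nx hl
    obtain ⟨k, rfl⟩ : ∃ k, n = k + 1 := ⟨(nx X l).1.card, by omega⟩
    have hok : ok Y a (nx X l) := ⟨Wf_nx hX.1 hl, pr_pos_T hY ha hp⟩
    obtain ⟨h1, h2, h3, h4, h5⟩ := ih k hok (by omega) hm'
    refine ⟨by rw [List.length_cons, h1], ⟨mem_cov.2 ⟨l, hl, hp, rfl⟩, h2⟩, ?_, ?_, mul_pos hp h5⟩
    · change enc X (nx X l) :: encs (nx X l) (path (nx X l) m) = l :: m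
      rw [enc_nx hX.1 hl, h3]
    · change p Y a X (nx X l) * pp (p Y a) (nx X l) (path (nx X l) m) = pr Y a X l * PrL Y a (nx X l) m
      rw [p_nx hX.1 hl, h4]

theorem Pos_encs (hY : ∀ u v, |Y u v| ≤ 1) (ha : 0 ≤ a) (n : ℕ) (hX : ok Y a X) (hn : X.1.card = n) {s : List St}
    (hs : Fl (cov Y a) n X s) : Pos Y a X (encs X s) ∧ path X (encs X s) = s := by
  induction n generalizing X s with
  | zero =>
    have h1 : s = [] := hs
    subst h1
    exact ⟨Finset.card_eq_zero.1 hn, rfl⟩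
  | succ n ih =>
    cases s with
    | nil => exact absurd hs (by simp [Fl])
    | cons Z s =>
      obtain ⟨l, hl, hp, rfl⟩ := mem_cov.1 hs.1
      have hc := card_nx hl
      have hok : ok Y a (nx X l) := ⟨Wf_nx hX.1 hl, pr_pos_T hY ha hp⟩
      obtain ⟨h1, h2⟩ := ih hok (by omega) hs.2
      have h3 : encs X (nx X l :: s) = l :: encs (nx X l) s := by
        change enc X (nx X l) :: encs (nx X l) s = _
        rw [enc_nx hX.1 hl]
      rw [h3]
      refine ⟨⟨hl, hp, h1⟩, ?_⟩
      change nx X l :: path (nx X l) (encs (nx X l) s) = nx X l :: s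
      rw [h2]

theorem inc_congr {α : Type} {cov : α → Finset α} {p kap : α → α → ℝ} (n : ℕ) (X : α) (f g : List α → ℝ)
    (hf : ∀ l, Fl cov n X l → f l = g l) {l : List α} (hl : Fl cov n X l) :
    inc cov p kap X l f = inc cov p kap X l g := by
  classical
  induction n generalizing X f g l with
  | zero =>
    have h1 : l = [] := hl
    subst h1
    rfl
  | succ n ih =>
    match l, hl with
    | [], _ => rfl
    | [Z], _ => rfl
    | Z :: W :: l, hl =>
      cases n with
      | zero => exact absurd hl.2 (by simp [Fl])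
      | succ n =>
        rw [inc, inc]
        congr 1
        · congr 1
          refine Finset.sum_congr rfl fun Z' hZ' => ?_
          have h1 := Finset.mem_filter.1 hZ'
          rw [hf (Z :: W :: l) hl, hf (Z' :: W :: l) ⟨h1.1, h1.2, hl.2.2⟩]
        · exact ih Z (fun m => f (Z :: m)) (fun m => g (Z :: m)) (fun m hm => hf (Z :: m) ⟨hl.1, hm⟩) hl.2

end BSI
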