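import Pool.Agent.BSI.LkD
import Pool.Agent.BSI.LkA

/-!
# BSI-LkB: the chain on letters is the chain on flags

The multiplier of a fibre does not depend on the pair of letters; bounds of the multipliers times the masses of the fibres; the
generator on the flags is the generator on the lists of letters.
-/

set_option autoImplicit false

namespace BSI

open Finset ACY BSI.Ch

variable {Y : ℕ → ℕ → ℝ} {a η : ℝ} {X : St} {kap : Kap} {ksw c : ℝ} {N0 : ℕ} {V : Finset ℕ}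

private theorem LkB_card {l1 l2 : Le} (h1 : l1 ∈ lts X) (h2 : l2 ∈ lts (nx X l1)) : 2 ≤ X.1.card := by
  have hc := card_nx h1
  have hne : (nx X l1).1.Nonempty := ⟨_, lts_fst h2⟩
  have := hne.card_pos
  omega

private theorem LkB_prod (hY : ∀ u v, |Y u v| ≤ 1) (ha : 0 ≤ a) (hX : Wf X) {l1 l2 : Le} (h1 : l1 ∈ lts X)
    (h2 : l2 ∈ lts (nx X l1)) (hj : ¬ jt l1 l2) :
    pr Y a X l2 * pr Y a (nx X l2) l1 = pr Y a X l1 * pr Y a (nx X l1) l2 := by
  obtain ⟨hc3, hm2, hm1, hsw, _⟩ := swap_mem hX h1 h2 hj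
  rw [pr_pr hY ha h1 h2, pr_pr hY ha hm2 hm1, hsw]
  have c1 := card_nx h1
  have c2 := card_nx hm2
  have hwl : ∀ (Z : St) (l : Le), 2 ≤ Z.1.card → wl Y a Z l = cc Y l.1 l.2.1 * (if l.2.2 then a else 1) := by
    intro Z l hZ
    unfold wl
    simp only [hZ, and_true]
  rw [hwl X l1 (by omega), hwl X l2 (by omega), hwl (nx X l1) l2 (by omega), hwl (nx X l2) l1 (by omega)]
  ring

private theorem LkB_congr (hY : ∀ u v, |Y u v| ≤ 1) (ha : 0 ≤ a) (hK : KOK Y a kap ksw c N0 V) (hX : ok Y a X)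
    {W : St} {l l' : Le × Le} (hl : IsPr Y a X W l) (hl' : IsPr Y a X W l') :
    kapP Y a kap ksw N0 X l' = kapP Y a kap ksw N0 X l := by
  obtain ⟨h1, h2, _, _, h5⟩ := hl
  obtain ⟨h1', h2', _, _, h5'⟩ := hl'
  have hF := fib_all hX.1 h1 h2 h1' h2' (h5'.trans h5.symm)
  by_cases hj : jt l.1 l.2
  · obtain ⟨z, z', hz, C, hC, fl, hfl, he⟩ := hF.1 hj
    obtain ⟨hj', hpc⟩ := jt_mk2 hX.1 h1 h2 hj hz hC hfl
    have e1 : l'.1 = (mk2 z z' (pc l.1 l.2) C fl l.2.2.2).1 := congrArg Prod.fst he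
    have e2 : l'.2 = (mk2 z z' (pc l.1 l.2) C fl l.2.2.2).2 := congrArg Prod.snd he
    unfold kapP
    rw [h5, h5', e1, e2, hpc, if_pos hj', if_pos hj]
    have e3 : (mk2 z z' (pc l.1 l.2) C fl l.2.2.2).2.2.2 = l.2.2.2 := rfl
    have e4 : (mk2 z z' (pc l.1 l.2) C fl l.2.2.2).1.1 = z := rfl
    have e5 : (mk2 z z' (pc l.1 l.2) C fl l.2.2.2).2.1 = z' := rfl
    rw [e3, e4, e5]
    have e6 : kap z z' (pc l.1 l.2) l.2.2.2 = kap l.1.1 l.2.1 (pc l.1 l.2) l.2.2.2 := by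
      rcases hz with ⟨ha1, ha2⟩ | ⟨ha1, ha2⟩
      · rw [ha1, ha2]
      · rw [ha1, ha2, hK.symm]
    rw [e6]
  · rcases hF.2 hj with he | he
    · have e1 : l' = l := he
      rw [e1]
    · have e1 : l'.1 = l.2 := congrArg Prod.fst he
      have e2 : l'.2 = l.1 := congrArg Prod.snd he
      obtain ⟨_, _, _, _, hj'⟩ := swap_mem hX.1 h1 h2 hj
      unfold kapP
      rw [e1, e2, if_neg hj', if_neg hj, LkB_prod hY ha hX.1 h1 h2 hj]

theorem kapF_eq (hY : ∀ u v, |Y u v| ≤ 1) (ha : 0 ≤ a) (hK : KOK Y a kap ksw c N0 V) (hX : ok Y a X) {l : Le × Le}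
    (hl : IsPr Y a X (nx (nx X l.1) l.2) l) :
    kapF Y a kap ksw N0 X (nx (nx X l.1) l.2) = kapP Y a kap ksw N0 X l := by
  have hex : ∃ l' : Le × Le, IsPr Y a X (nx (nx X l.1) l.2) l' := ⟨l, hl⟩
  unfold kapF
  rw [dif_pos hex]
  exact LkB_congr hY ha hK hX hl (Classical.choose_spec hex)

theorem jf_pos (hY : ∀ u v, |Y u v| ≤ 1) (ha : 0 ≤ a) (hX : ok Y a X) {l : Le × Le}
    (hl : IsPr Y a X (nx (nx X l.1) l.2) l) : 0 < jf Y a X (nx (nx X l.1) l.2) l.2.2.2 := by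
  obtain ⟨h1, h2, _, h4, _⟩ := hl
  have hc := LkB_card h1 h2
  have hc' : (2 : ℝ) ≤ X.1.card := by exact_mod_cast hc
  have hW : 0 < T Y a (nx (nx X l.1) l.2) := pr_pos_T hY ha h4
  unfold jf
  refine mul_pos (div_pos hW (mul_pos (mul_pos (by linarith) (by linarith)) hX.2)) ?_
  split_ifs with hg
  · rcases ha.lt_or_eq with h | h
    · exact h
    · exfalso
      have c1 := card_nx h1
      have e1 : wl Y a (nx X l.1) l.2 = 0 := by
        unfold wl
        rw [if_pos ⟨hg.1, by omega⟩, ← h, mul_zero]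
      unfold pr at h4
      rw [e1, zero_mul, zero_div] at h4
      exact lt_irrefl _ h4
  · exact zero_lt_one

private theorem LkB_jf (hY : ∀ u v, |Y u v| ≤ 1) (ha : 0 ≤ a) (X W : St) (g : Bool) : 0 ≤ jf Y a X W g := by
  unfold jf
  refine mul_nonneg (div_nonneg (T_nonneg hY ha _) (mul_nonneg ?_ (T_nonneg hY ha _))) ?_
  · rcases Nat.eq_zero_or_pos X.1.card with h | h
    · rw [h]
      simp
    · have h1 : (1 : ℝ) ≤ X.1.card := by exact_mod_cast h
      exact mul_nonneg (by linarith) (by linarith)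
  · split_ifs
    · exact ha
    · exact zero_le_one

private theorem LkB_ksw (hK : KOK Y a kap ksw c N0 V) : 0 ≤ ksw := by
  have h1 := hK.sw
  have h2 := hK.cpos
  linarith

theorem kapF_nn (hY : ∀ u v, |Y u v| ≤ 1) (ha : 0 ≤ a) (hK : KOK Y a kap ksw c N0 V) (X W : St) :
    0 ≤ kapF Y a kap ksw N0 X W := by
  unfold kapF
  split_ifs with h
  · unfold kapP
    refine mul_nonneg (Nat.cast_nonneg _) ?_
    split_ifs
    · exact div_nonneg (hK.nn _ _ _ _) (LkB_jf hY ha _ _ _)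
    · exact div_nonneg (LkB_ksw hK) (mul_nonneg (pr_nonneg hY ha _ _) (pr_nonneg hY ha _ _))
  · exact le_rfl

private theorem LkB_mass (hY : ∀ u v, |Y u v| ≤ 1) (ha : 0 ≤ a) (hK : KOK Y a kap ksw c N0 V) (hX : ok Y a X)
    {l1 l2 : Le} (h1 : l1 ∈ lts X) (h2 : l2 ∈ lts (nx X l1)) (h3 : 0 < pr Y a X l1) (h4 : 0 < pr Y a (nx X l1) l2) :
    kapF Y a kap ksw N0 X (nx (nx X l1) l2) * GPoi.mass (cov Y a) (p Y a) X (nx (nx X l1) l2) =
      N0 * (if jt l1 l2 then kap l1.1 l2.1 (pc l1 l2) l2.2.2 * mass2 Y a l1 l2 else 2 * ksw) := by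
  have hl : IsPr Y a X (nx (nx X (l1, l2).1) (l1, l2).2) (l1, l2) := ⟨h1, h2, h3, h4, rfl⟩
  have e := kapF_eq hY ha hK hX hl
  have e' : kapF Y a kap ksw N0 X (nx (nx X l1) l2) = kapP Y a kap ksw N0 X (l1, l2) := e
  rw [e']
  unfold kapP
  by_cases hj : jt l1 l2
  · have hjf := jf_pos hY ha hX hl
    rw [mass_joint hY ha hX.1 h1 h2 hj]
    simp only [hj, if_true]
    have hjf' : jf Y a X (nx (nx X l1) l2) l2.2.2 ≠ 0 := hjf.ne'
    field_simp
  · rw [mass_swap hY ha hX.1 h1 h2 hj]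
    simp only [hj, if_false]
    field_simp

theorem kapF_up (hY : ∀ u v, |Y u v| ≤ 1) (ha : 0 ≤ a) (hK : KOK Y a kap ksw c N0 V) (hX : ok Y a X)
    (hI : In V X) (hN : 0 < N0) {Z W : St} (hZ : Z ∈ cov Y a X) (hW : W ∈ cov Y a Z) :
    kapF Y a kap ksw N0 X W * GPoi.mass (cov Y a) (p Y a) X W ≤ 1 / 2 := by
  obtain ⟨l1, h1, h3, rfl⟩ := mem_cov.1 hZ
  obtain ⟨l2, h2, h4, rfl⟩ := mem_cov.1 hW
  rw [LkB_mass hY ha hK hX h1 h2 h3 h4]
  have hN' : (0 : ℝ) < N0 := by exact_mod_cast hN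
  split_ifs with hj
  · have h5 := hK.up X l1 l2 hI hX.1 h1 h2 h3 h4 hj
    calc (N0 : ℝ) * (kap l1.1 l2.1 (pc l1 l2) l2.2.2 * mass2 Y a l1 l2) ≤ N0 * (1 / (2 * N0)) :=
          mul_le_mul_of_nonneg_left h5 hN'.le
      _ = 1 / 2 := by field_simp
  · have h5 := hK.sw'
    calc (N0 : ℝ) * (2 * ksw) ≤ N0 * (2 * (1 / (4 * N0))) :=
          mul_le_mul_of_nonneg_left (mul_le_mul_of_nonneg_left h5 zero_le_two) hN'.le
      _ = 1 / 2 := by field_simp; norm_num

theorem kapF_low (hY : ∀ u v, |Y u v| ≤ 1) (ha : 0 ≤ a) (hK : KOK Y a kap ksw c N0 V) (hX : ok Y a X)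
    (hI : In V X) (hN : 0 < N0) {Z W : St} (hZ : Z ∈ cov Y a X) (hW : W ∈ cov Y a Z) :
    c * N0 ≤ kapF Y a kap ksw N0 X W * GPoi.mass (cov Y a) (p Y a) X W := by
  obtain ⟨l1, h1, h3, rfl⟩ := mem_cov.1 hZ
  obtain ⟨l2, h2, h4, rfl⟩ := mem_cov.1 hW
  rw [LkB_mass hY ha hK hX h1 h2 h3 h4, mul_comm c]
  have hN' : (0 : ℝ) < N0 := by exact_mod_cast hN
  refine mul_le_mul_of_nonneg_left ?_ hN'.le
  split_ifs with hj
  · exact hK.low X l1 l2 hI hX.1 h1 h2 h3 h4 hj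
  · exact hK.sw

private theorem LkB_rep0 (x y : Le) (m : List Le) (xy : Le × Le) : rep2 (x :: y :: m) 0 xy = xy.1 :: xy.2 :: m := rfl

private theorem LkB_repS (x : Le) (m : List Le) (i : ℕ) (xy : Le × Le) : rep2 (x :: m) (i + 1) xy = x :: rep2 m i xy := rfl

private theorem LkB_sum2 {t s : ℕ} {P : Finset (Finset ℕ)} {g : Bool} {G H : ℕ → ℕ → Finset (Finset ℕ) → Bool → ℝ}
    (h : ∀ z z', ((z = t ∧ z' = s) ∨ (z = s ∧ z' = t)) → ∀ C ⊆ P, ∀ fl ∈ fls g, G z z' C fl = H z z' C fl) :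
    sum2 t s P g G = sum2 t s P g H := by
  unfold sum2
  refine Finset.sum_congr rfl fun C hC => Finset.sum_congr rfl fun fl hfl => ?_
  rw [h t s (Or.inl ⟨rfl, rfl⟩) C (Finset.mem_powerset.1 hC) fl hfl,
    h s t (Or.inr ⟨rfl, rfl⟩) C (Finset.mem_powerset.1 hC) fl hfl]

/-- the first site -/
private theorem LkB_first (hY : ∀ u v, |Y u v| ≤ 1) (ha : 0 ≤ a) (hK : KOK Y a kap ksw c N0 V) (hN : 0 < N0)
    (F : List Le → ℝ) (hX : ok Y a X) {x y : Le} {m : List Le} (hm : Pos Y a X (x :: y :: m)) :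
    1 / (N0 : ℝ) * (kapF Y a kap ksw N0 X (nx (nx X x) y) * ∑ Z' ∈ GPoi.mid (cov Y a) X (nx (nx X x) y),
      p Y a X Z' * p Y a Z' (nx (nx X x) y) *
        (F (encs X (Z' :: nx (nx X x) y :: path (nx (nx X x) y) m)) -
          F (encs X (nx X x :: nx (nx X x) y :: path (nx (nx X x) y) m)))) =
      KLs Y a kap ksw F (x :: y :: m) 0 x y := by
  obtain ⟨h1, h3, h2, h4, hm'⟩ := hm
  have hN' : (0 : ℝ) < N0 := by exact_mod_cast hN
  have hl : IsPr Y a X (nx (nx X (x, y).1) (x, y).2) (x, y) := ⟨h1, h2, h3, h4, rfl⟩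
  have e' : kapF Y a kap ksw N0 X (nx (nx X x) y) = kapP Y a kap ksw N0 X (x, y) := kapF_eq hY ha hK hX hl
  have hok1 : ok Y a (nx X x) := ⟨Wf_nx hX.1 h1, pr_pos_T hY ha h3⟩
  have hok2 : ok Y a (nx (nx X x) y) := ⟨Wf_nx hok1.1 h2, pr_pos_T hY ha h4⟩
  have hm2 := (Fl_path hY ha _ hok2 rfl hm').2.2.1
  have hbase : encs X (nx X x :: nx (nx X x) y :: path (nx (nx X x) y) m) = x :: y :: m := by
    change enc X (nx X x) :: enc (nx X x) (nx (nx X x) y) :: encs (nx (nx X x) y) (path (nx (nx X x) y) m) = _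
    rw [enc_nx hX.1 h1, enc_nx hok1.1 h2, hm2]
  rw [hbase, e']
  by_cases hj : jt x y
  · rw [sum_mid_joint hY ha hX.1 h1 h2 hj
      (fun Z' => F (encs X (Z' :: nx (nx X x) y :: path (nx (nx X x) y) m)) - F (x :: y :: m))]
    unfold kapP KLs
    simp only [hj, if_true]
    have hjf' : jf Y a X (nx (nx X x) y) y.2.2 ≠ 0 := (jf_pos hY ha hX hl).ne'
    have e1 : sum2 x.1 y.1 (pc x y) y.2.2 (fun z z' C fl => w2 Y a z z' (pc x y) C fl *
        (F (encs X (nx X (z, (C, fl)) :: nx (nx X x) y :: path (nx (nx X x) y) m)) - F (x :: y :: m))) =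
        sum2 x.1 y.1 (pc x y) y.2.2 (fun z z' C fl => w2 Y a z z' (pc x y) C fl *
          (F (rep2 (x :: y :: m) 0 (mk2 z z' (pc x y) C fl y.2.2)) - F (x :: y :: m))) := by
      refine LkB_sum2 fun z z' hz C hC fl hfl => ?_
      obtain ⟨m1, m2, m3⟩ := jt_mem hX.1 h1 h2 hj hz hC hfl
      have e2 : encs X (nx X (z, (C, fl)) :: nx (nx X x) y :: path (nx (nx X x) y) m) =
          rep2 (x :: y :: m) 0 (mk2 z z' (pc x y) C fl y.2.2) := by
        rw [LkB_rep0]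
        change enc X (nx X (mk2 z z' (pc x y) C fl y.2.2).1) ::
          enc (nx X (mk2 z z' (pc x y) C fl y.2.2).1) (nx (nx X x) y) ::
            encs (nx (nx X x) y) (path (nx (nx X x) y) m) = _
        rw [enc_nx hX.1 m1, ← m3, enc_nx (Wf_nx hX.1 m1) m2, m3, hm2]
      rw [e2]
    rw [e1]
    field_simp
  · rw [sum_mid_swap hY ha hX.1 h1 h2 hj
      (fun Z' => F (encs X (Z' :: nx (nx X x) y :: path (nx (nx X x) y) m)) - F (x :: y :: m))]
    obtain ⟨_, hm2', hm1', hsw, _⟩ := swap_mem hX.1 h1 h2 hj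
    have e2 : encs X (nx X y :: nx (nx X x) y :: path (nx (nx X x) y) m) = rep2 (x :: y :: m) 0 (y, x) := by
      rw [LkB_rep0]
      change enc X (nx X y) :: enc (nx X y) (nx (nx X x) y) :: encs (nx (nx X x) y) (path (nx (nx X x) y) m) = _
      rw [enc_nx hX.1 hm2', ← hsw, enc_nx (Wf_nx hX.1 hm2') hm1', hsw, hm2]
    rw [hbase, e2]
    unfold kapP KLs
    simp only [hj, if_false]
    have h3' := h3.ne'
    have h4' := h4.ne'
    field_simp
    ring

theorem link1 (hY : ∀ u v, |Y u v| ≤ 1) (ha : 0 ≤ a) (hK : KOK Y a kap ksw c N0 V) (hN : 0 < N0) (F : List Le → ℝ)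
    (hX : ok Y a X) {m : List Le} (hm : Pos Y a X m) :
    1 / (N0 : ℝ) * inc (cov Y a) (p Y a) (kapF Y a kap ksw N0) X (path X m) (fun s => F (encs X s)) =
      ∑ i ∈ range (m.length - 1), KLs Y a kap ksw F m i (m.getD i le0) (m.getD (i + 1) le0) := by
  induction m generalizing X F with
  | nil => simp [path, inc]
  | cons x m ih =>
    cases m with
    | nil => simp [path, inc]
    | cons y m =>
      have hm0 := hm
      obtain ⟨h1, h3, hm'⟩ := hm
      have hok1 : ok Y a (nx X x) := ⟨Wf_nx hX.1 h1, pr_pos_T hY ha h3⟩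
      have hIH := ih (fun l => F (x :: l)) hok1 hm'
      have e1 : inc (cov Y a) (p Y a) (kapF Y a kap ksw N0) X (path X (x :: y :: m)) (fun s => F (encs X s)) =
          kapF Y a kap ksw N0 X (nx (nx X x) y) * ∑ Z' ∈ GPoi.mid (cov Y a) X (nx (nx X x) y),
            p Y a X Z' * p Y a Z' (nx (nx X x) y) *
              (F (encs X (Z' :: nx (nx X x) y :: path (nx (nx X x) y) m)) -
                F (encs X (nx X x :: nx (nx X x) y :: path (nx (nx X x) y) m))) +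
          inc (cov Y a) (p Y a) (kapF Y a kap ksw N0) (nx X x) (path (nx X x) (y :: m))
            (fun s => F (encs X (nx X x :: s))) := rfl
      have e2 : (fun s : List St => F (encs X (nx X x :: s))) = fun s => (fun l => F (x :: l)) (encs (nx X x) s) := by
        funext s
        change F (enc X (nx X x) :: encs (nx X x) s) = F (x :: encs (nx X x) s)
        rw [enc_nx hX.1 h1]
      rw [e1, mul_add, LkB_first hY ha hK hN F hX hm0, e2, hIH]
      have e3 : (x :: y :: m).length - 1 = ((y :: m).length - 1) + 1 := by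
        simp
      rw [e3, Finset.sum_range_succ', add_comm]
      congr 1

end BSI
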