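import Pool.Agent.BSI.Mid
import Pool.Agent.BSI.ChD

/-!
# BSI-LkD: the multipliers of the fibres for the chain on flags, definition
-/

set_option autoImplicit false

namespace BSI

open Finset ACY

/-- `l` is a pair of letters of positive probability from `X` to `W` -/
def IsPr (Y : ℕ → ℕ → ℝ) (a : ℝ) (X W : St) (l : Le × Le) : Prop :=
  l.1 ∈ lts X ∧ l.2 ∈ lts (nx X l.1) ∧ 0 < pr Y a X l.1 ∧ 0 < pr Y a (nx X l.1) l.2 ∧ nx (nx X l.1) l.2 = W

/-- the multiplier of the fibre computed from a pair of letters -/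
noncomputable def kapP (Y : ℕ → ℕ → ℝ) (a : ℝ) (kap : Kap) (ksw : ℝ) (N0 : ℕ) (X : St) (l : Le × Le) : ℝ :=
  N0 * (if jt l.1 l.2 then kap l.1.1 l.2.1 (pc l.1 l.2) l.2.2.2 / jf Y a X (nx (nx X l.1) l.2) l.2.2.2
    else ksw / (pr Y a X l.1 * pr Y a (nx X l.1) l.2))

open Classical in
/-- the multiplier of the fibre -/
noncomputable def kapF (Y : ℕ → ℕ → ℝ) (a : ℝ) (kap : Kap) (ksw : ℝ) (N0 : ℕ) (X W : St) : ℝ :=
  if h : ∃ l : Le × Le, IsPr Y a X W l then kapP Y a kap ksw N0 X (Classical.choose h) else 0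

end BSI
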