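import Pool.Agent.BSI.Mid
import Pool.Agent.BSI.Two
import Pool.Agent.BSI.Dual

/-!
# BSI-LocB: LOC from the inequality for functions centred for every vertex

`Bsi`: for functions `g` of the first letter whose mean is `0` for each given first vertex. A function `g` with mean `0` is the sum of
`g0`, with mean `0` for each first vertex, and a function `c` of the first vertex. Given the state after two letters both orders of the
two vertices have the same probability, given the first letter the second vertex is uniform; so the cross terms vanish and the part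
of `c` is at most `1 / 2` of its variance.
-/

set_option autoImplicit false

namespace BSI

open Finset ACY ACY.GPoi

open Classical in
/-- the inequality for functions centred for every vertex, `Lam m` for `m` vertices -/
def Bsi (Y : ℕ → ℕ → ℝ) (a : ℝ) (Lam : ℕ → ℝ) : Prop :=
  ∀ X : St, ok Y a X → 3 ≤ X.1.card → ∀ g : St → ℝ,
    (∀ v ∈ X.1, ∑ l ∈ (lts X).filter (fun l => l.1 = v), pr Y a X l * g (nx X l) = 0) →
    ∑ W ∈ (cov Y a X).biUnion (cov Y a), (∑ Z ∈ mid (cov Y a) X W, p Y a X Z * p Y a Z W * g Z) ^ 2 /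
      mass (cov Y a) (p Y a) X W ≤ Lam X.1.card * ∑ Z ∈ cov Y a X, p Y a X Z * g Z ^ 2

private theorem LocB_fib (X : St) (H : Le → ℝ) :
    ∑ l ∈ lts X, H l = ∑ v ∈ X.1, ∑ l ∈ (lts X).filter (fun l => l.1 = v), H l :=
  (Finset.sum_fiberwise_of_maps_to (fun l hl => lts_fst hl) _).symm

private theorem LocB_one {Y : ℕ → ℕ → ℝ} (hs : ∀ u v, Y u v = Y v u) {a : ℝ} {X : St} (hX : Wf X)
    (hT : 0 < T Y a X) {v : ℕ} (hv : v ∈ X.1) :
    ∑ l ∈ (lts X).filter (fun l => l.1 = v), pr Y a X l = 1 / X.1.card := by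
  have h1 := T_ins (a := a) hs hX hv
  unfold ins at h1
  unfold pr
  rw [← Finset.sum_div, ← h1]
  have hc : (X.1.card : ℝ) ≠ 0 := by
    have := Finset.card_pos.2 ⟨v, hv⟩
    exact_mod_cast this.ne'
  have hT' := hT.ne'
  field_simp

private theorem LocB_U {Y : ℕ → ℕ → ℝ} (hs : ∀ u v, Y u v = Y v u) {a : ℝ} {X : St} (hX : Wf X)
    (hT : 0 < T Y a X) (f : ℕ → ℝ) :
    ∑ l ∈ lts X, pr Y a X l * f l.1 = (∑ v ∈ X.1, f v) / X.1.card := by
  rw [LocB_fib, Finset.sum_div]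
  refine Finset.sum_congr rfl fun v hv => ?_
  have h1 : ∀ l ∈ (lts X).filter (fun l => l.1 = v), pr Y a X l * f l.1 = pr Y a X l * f v := fun l hl => by
    rw [(Finset.mem_filter.1 hl).2]
  rw [Finset.sum_congr rfl h1, ← Finset.sum_mul, LocB_one hs hX hT hv]
  ring

private theorem LocB_E2 {Y : ℕ → ℕ → ℝ} (hY : ∀ u v, |Y u v| ≤ 1) {a : ℝ} (ha : 0 ≤ a) (X : St)
    (f : ℕ → ℕ → ℝ) (G : St → ℝ) :
    ∑ l1 ∈ lts X, ∑ l2 ∈ lts (nx X l1), pr Y a X l1 * pr Y a (nx X l1) l2 *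
      (f l1.1 l2.1 * G (nx (nx X l1) l2)) =
      ∑ v ∈ X.1, ∑ w ∈ X.1.erase v, f v w * ins Y a v (fun Z => ins Y a w
        (fun W => T Y a W / (X.1.card * (X.1.card - 1) * T Y a X) * G W) Z) X := by
  rw [LocB_fib]
  refine Finset.sum_congr rfl fun v hv => ?_
  have h1 : ∀ l1 ∈ (lts X).filter (fun l => l.1 = v),
      ∑ l2 ∈ lts (nx X l1), pr Y a X l1 * pr Y a (nx X l1) l2 * (f l1.1 l2.1 * G (nx (nx X l1) l2)) =
      ∑ w ∈ X.1.erase v, f v w * (wl Y a X l1 * ins Y a w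
        (fun W => T Y a W / (X.1.card * (X.1.card - 1) * T Y a X) * G W) (nx X l1)) := by
    intro l1 hl1
    obtain ⟨h2, h3⟩ := Finset.mem_filter.1 hl1
    have h4 : (nx X l1).1 = X.1.erase v := by
      rw [← h3]
      rfl
    rw [LocB_fib (nx X l1), h4]
    refine Finset.sum_congr rfl fun w _ => ?_
    unfold ins
    rw [Finset.mul_sum, Finset.mul_sum]
    refine Finset.sum_congr rfl fun l2 hl2 => ?_
    obtain ⟨h5, h6⟩ := Finset.mem_filter.1 hl2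
    rw [pr_pr hY ha h2 h5, h3, h6]
    ring
  rw [Finset.sum_congr rfl h1, Finset.sum_comm]
  refine Finset.sum_congr rfl fun w _ => ?_
  rw [← Finset.mul_sum]
  rfl

private theorem LocB_sym {Y : ℕ → ℕ → ℝ} (hs : ∀ u v, Y u v = Y v u) (hY : ∀ u v, |Y u v| ≤ 1) {a : ℝ}
    (ha : 0 ≤ a) {X : St} (hX : Wf X) (f : ℕ → ℕ → ℝ) (G : St → ℝ) :
    ∑ l1 ∈ lts X, ∑ l2 ∈ lts (nx X l1), pr Y a X l1 * pr Y a (nx X l1) l2 *
      (f l1.1 l2.1 * G (nx (nx X l1) l2)) =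
    ∑ l1 ∈ lts X, ∑ l2 ∈ lts (nx X l1), pr Y a X l1 * pr Y a (nx X l1) l2 *
      (f l2.1 l1.1 * G (nx (nx X l1) l2)) := by
  rw [LocB_E2 hY ha X f G, LocB_E2 hY ha X (fun v w => f w v) G]
  have h1 : ∑ v ∈ X.1, ∑ w ∈ X.1.erase v, f w v * ins Y a v (fun Z => ins Y a w
        (fun W => T Y a W / (X.1.card * (X.1.card - 1) * T Y a X) * G W) Z) X =
      ∑ w ∈ X.1, ∑ v ∈ X.1.erase w, f w v * ins Y a v (fun Z => ins Y a w
        (fun W => T Y a W / (X.1.card * (X.1.card - 1) * T Y a X) * G W) Z) X := by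
    refine Finset.sum_comm' fun v w => ?_
    simp only [Finset.mem_erase]
    constructor
    · rintro ⟨h1, h2, h3⟩
      exact ⟨⟨h2.symm, h1⟩, h3⟩
    · rintro ⟨⟨h1, h2⟩, h3⟩
      exact ⟨h2, h1.symm, h3⟩
  rw [h1]
  refine Finset.sum_congr rfl fun w hw => Finset.sum_congr rfl fun v hv => ?_
  obtain ⟨h2, h3⟩ := Finset.mem_erase.1 hv
  rw [ins_comm hs hX h3 hw h2]

private theorem LocB_two {X : St} (hX : Wf X) (c : ℕ → ℝ) {l1 l2 : Le} (h1 : l1 ∈ lts X)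
    (h2 : l2 ∈ lts (nx X l1)) : (∑ x ∈ X.1 \ (nx (nx X l1) l2).1, c x) / 2 = (c l1.1 + c l2.1) / 2 := by
  obtain ⟨h3, h4, h5⟩ := ne_fst hX h1 h2
  have h6 := lts_fst h1
  have h7 : X.1 \ (nx (nx X l1) l2).1 = {l1.1, l2.1} := by
    rw [h5]
    ext x
    simp only [Finset.mem_sdiff, Finset.mem_erase, Finset.mem_insert, Finset.mem_singleton]
    constructor
    · rintro ⟨h8, h9⟩
      by_contra h10
      push Not at h10
      exact h9 ⟨h10.2, h10.1, h8⟩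
    · rintro (h8 | h8)
      · exact ⟨h8 ▸ h6, fun h9 => h9.2.1 h8⟩
      · exact ⟨h8 ▸ h4, fun h9 => h9.1 h8⟩
  rw [h7, Finset.sum_pair h3]

private theorem LocB_kap {Y : ℕ → ℕ → ℝ} (hs : ∀ u v, Y u v = Y v u) (hY : ∀ u v, |Y u v| ≤ 1) {a : ℝ}
    (ha : 0 ≤ a) {X : St} (hX : Wf X) (c : ℕ → ℝ) (W : St) :
    ∑ Z ∈ mid (cov Y a) X W, p Y a X Z * p Y a Z W * c (enc X Z).1 =
      mass (cov Y a) (p Y a) X W * ((∑ x ∈ X.1 \ W.1, c x) / 2) := by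
  have e1 := sum_mid_letters hY ha hX W (fun Z => c (enc X Z).1)
  have e2 := sum_mid_letters hY ha hX W (fun _ => 1)
  have e3 : mass (cov Y a) (p Y a) X W = ∑ Z ∈ mid (cov Y a) X W, p Y a X Z * p Y a Z W * 1 := by
    unfold mass
    exact Finset.sum_congr rfl fun Z _ => by ring
  have e4 : ∑ l1 ∈ lts X, ∑ l2 ∈ (lts (nx X l1)).filter (fun l2 => nx (nx X l1) l2 = W),
        pr Y a X l1 * pr Y a (nx X l1) l2 * c (enc X (nx X l1)).1 =
      ∑ l1 ∈ lts X, ∑ l2 ∈ lts (nx X l1), pr Y a X l1 * pr Y a (nx X l1) l2 *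
        (c l1.1 * (fun W' => if W' = W then (1 : ℝ) else 0) (nx (nx X l1) l2)) := by
    refine Finset.sum_congr rfl fun l1 hl1 => ?_
    rw [enc_nx hX hl1, Finset.sum_filter]
    refine Finset.sum_congr rfl fun l2 _ => ?_
    dsimp only
    split_ifs
    · ring
    · ring
  have e5 := LocB_sym hs hY ha hX (fun v _ => c v) (fun W' => if W' = W then (1 : ℝ) else 0)
  have e6 : ∑ l1 ∈ lts X, ∑ l2 ∈ (lts (nx X l1)).filter (fun l2 => nx (nx X l1) l2 = W),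
        pr Y a X l1 * pr Y a (nx X l1) l2 * 1 * (∑ x ∈ X.1 \ W.1, c x) =
      ∑ l1 ∈ lts X, ∑ l2 ∈ lts (nx X l1), pr Y a X l1 * pr Y a (nx X l1) l2 *
        ((c l1.1 + c l2.1) * (fun W' => if W' = W then (1 : ℝ) else 0) (nx (nx X l1) l2)) := by
    refine Finset.sum_congr rfl fun l1 hl1 => ?_
    rw [Finset.sum_filter]
    refine Finset.sum_congr rfl fun l2 hl2 => ?_
    dsimp only
    split_ifs with h
    · have h1 := LocB_two hX c hl1 hl2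
      rw [h] at h1
      have h2 : ∑ x ∈ X.1 \ W.1, c x = c l1.1 + c l2.1 := by linarith
      rw [h2]
      ring
    · ring
  have e7 : ∑ l1 ∈ lts X, ∑ l2 ∈ lts (nx X l1), pr Y a X l1 * pr Y a (nx X l1) l2 *
        ((c l1.1 + c l2.1) * (fun W' => if W' = W then (1 : ℝ) else 0) (nx (nx X l1) l2)) =
      ∑ l1 ∈ lts X, ∑ l2 ∈ lts (nx X l1), pr Y a X l1 * pr Y a (nx X l1) l2 *
        (c l1.1 * (fun W' => if W' = W then (1 : ℝ) else 0) (nx (nx X l1) l2)) +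
      ∑ l1 ∈ lts X, ∑ l2 ∈ lts (nx X l1), pr Y a X l1 * pr Y a (nx X l1) l2 *
        (c l2.1 * (fun W' => if W' = W then (1 : ℝ) else 0) (nx (nx X l1) l2)) := by
    rw [← Finset.sum_add_distrib]
    refine Finset.sum_congr rfl fun l1 _ => ?_
    rw [← Finset.sum_add_distrib]
    exact Finset.sum_congr rfl fun l2 _ => by ring
  have e8 : (∑ l1 ∈ lts X, ∑ l2 ∈ (lts (nx X l1)).filter (fun l2 => nx (nx X l1) l2 = W),
        pr Y a X l1 * pr Y a (nx X l1) l2 * 1) * (∑ x ∈ X.1 \ W.1, c x) =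
      ∑ l1 ∈ lts X, ∑ l2 ∈ (lts (nx X l1)).filter (fun l2 => nx (nx X l1) l2 = W),
        pr Y a X l1 * pr Y a (nx X l1) l2 * 1 * (∑ x ∈ X.1 \ W.1, c x) := by
    rw [Finset.sum_mul]
    refine Finset.sum_congr rfl fun l1 _ => ?_
    rw [Finset.sum_mul]
  rw [e3, e2, e1, e4]
  dsimp only at e5 e6 e7 e8 ⊢
  linarith

private theorem LocB_cc {Y : ℕ → ℕ → ℝ} (hY : ∀ u v, |Y u v| ≤ 1) {a : ℝ} (ha : 0 ≤ a) {X : St} (hX : Wf X)
    (H : St → St → ℝ) :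
    ∑ Z ∈ cov Y a X, ∑ W ∈ cov Y a Z, p Y a X Z * p Y a Z W * H Z W =
      ∑ l1 ∈ lts X, ∑ l2 ∈ lts (nx X l1), pr Y a X l1 * pr Y a (nx X l1) l2 *
        H (nx X l1) (nx (nx X l1) l2) := by
  have h1 := sum_cov hY ha hX (fun Z => ∑ W ∈ cov Y a Z, p Y a Z W * H Z W)
  have h2 : ∑ Z ∈ cov Y a X, ∑ W ∈ cov Y a Z, p Y a X Z * p Y a Z W * H Z W =
      ∑ Z ∈ cov Y a X, p Y a X Z * ∑ W ∈ cov Y a Z, p Y a Z W * H Z W := by
    refine Finset.sum_congr rfl fun Z _ => ?_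
    rw [Finset.mul_sum]
    exact Finset.sum_congr rfl fun W _ => by ring
  rw [h2, h1]
  refine Finset.sum_congr rfl fun l1 hl1 => ?_
  rw [sum_cov hY ha (Wf_nx hX hl1) (fun W => H (nx X l1) W), Finset.mul_sum]
  exact Finset.sum_congr rfl fun l2 _ => by ring

private theorem LocB_sec {Y : ℕ → ℕ → ℝ} (hs : ∀ u v, Y u v = Y v u) (hY : ∀ u v, |Y u v| ≤ 1) {a : ℝ}
    (ha : 0 ≤ a) {X : St} (hX : Wf X) (h : Le → ℝ) (f : ℕ → ℕ → ℝ) :
    ∑ l1 ∈ lts X, ∑ l2 ∈ lts (nx X l1), pr Y a X l1 * pr Y a (nx X l1) l2 * (h l1 * f l1.1 l2.1) =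
      ∑ l1 ∈ lts X, pr Y a X l1 * (h l1 * ((∑ w ∈ X.1.erase l1.1, f l1.1 w) / ((X.1.card : ℝ) - 1))) := by
  refine Finset.sum_congr rfl fun l1 hl1 => ?_
  rcases (pr_nonneg hY ha X l1).lt_or_eq with h1 | h1
  · have h2 := LocB_U hs (Wf_nx hX hl1) (pr_pos_T hY ha h1) (fun w => f l1.1 w)
    have h3 : (nx X l1).1 = X.1.erase l1.1 := rfl
    have h4 : ((nx X l1).1.card : ℝ) = (X.1.card : ℝ) - 1 := by
      rw [← card_nx hl1]
      push_cast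
      ring
    rw [h4, h3] at h2
    rw [← h2, Finset.mul_sum, Finset.mul_sum]
    exact Finset.sum_congr rfl fun l2 _ => by ring
  · rw [← h1, zero_mul]
    exact Finset.sum_eq_zero fun l2 _ => by ring

private theorem LocB_quad (S : Finset ℕ) (hS : 3 ≤ S.card) (c : ℕ → ℝ) (h0 : ∑ v ∈ S, c v = 0) :
    (∑ v ∈ S, (∑ w ∈ S.erase v, ((c v + c w) / 2) ^ 2) / ((S.card : ℝ) - 1)) / S.card ≤
      1 / 2 * ((∑ v ∈ S, c v ^ 2) / S.card) := by
  have hm : (3 : ℝ) ≤ S.card := by exact_mod_cast hS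
  have h1 : ∀ v ∈ S, ∑ w ∈ S.erase v, ((c v + c w) / 2) ^ 2 =
      (S.card / 4 - 1) * c v ^ 2 + (∑ w ∈ S, c w ^ 2) / 4 := by
    intro v hv
    have h2 := Finset.add_sum_erase S (fun w => ((c v + c w) / 2) ^ 2) hv
    have h3 : ∑ w ∈ S, ((c v + c w) / 2) ^ 2 = S.card / 4 * c v ^ 2 + (∑ w ∈ S, c w ^ 2) / 4 := by
      have h4 : ∀ w ∈ S, ((c v + c w) / 2) ^ 2 = c v ^ 2 / 4 + c v / 2 * c w + c w ^ 2 / 4 := fun w _ => by ring
      rw [Finset.sum_congr rfl h4, Finset.sum_add_distrib, Finset.sum_add_distrib, Finset.sum_const, nsmul_eq_mul,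
        ← Finset.mul_sum, h0, ← Finset.sum_div]
      ring
    rw [h3] at h2
    linarith
  have h5 : ∑ v ∈ S, (∑ w ∈ S.erase v, ((c v + c w) / 2) ^ 2) / ((S.card : ℝ) - 1) =
      ((S.card / 2 - 1) * ∑ w ∈ S, c w ^ 2) / ((S.card : ℝ) - 1) := by
    rw [← Finset.sum_div, Finset.sum_congr rfl h1, Finset.sum_add_distrib, ← Finset.mul_sum, Finset.sum_const,
      nsmul_eq_mul]
    ring
  have h6 : 0 ≤ ∑ v ∈ S, c v ^ 2 := Finset.sum_nonneg fun v _ => sq_nonneg _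
  rw [h5, ← mul_div_assoc]
  refine div_le_div_of_nonneg_right ?_ (by linarith)
  rw [div_le_iff₀ (by linarith)]
  nlinarith

private theorem LocB_main {Y : ℕ → ℕ → ℝ} (hs : ∀ u v, Y u v = Y v u) (hY : ∀ u v, |Y u v| ≤ 1) {a : ℝ}
    (ha : 0 ≤ a) {X : St} (hX : ok Y a X) (hm : 3 ≤ X.1.card) {L : ℝ} (hL : 1 / 2 ≤ L) {U : Finset St}
    (hU : ∀ F : St → St → ℝ, ∑ Z ∈ cov Y a X, ∑ W ∈ cov Y a Z, F Z W =
      ∑ W ∈ U, ∑ Z ∈ mid (cov Y a) X W, F Z W) (hpos : ∀ W ∈ U, 0 < mass (cov Y a) (p Y a) X W)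
    (h : ∀ g : St → ℝ, (∀ v ∈ X.1, ∑ l ∈ (lts X).filter (fun l => l.1 = v), pr Y a X l * g (nx X l) = 0) →
      ∑ W ∈ U, (∑ Z ∈ mid (cov Y a) X W, p Y a X Z * p Y a Z W * g Z) ^ 2 /
        mass (cov Y a) (p Y a) X W ≤ L * ∑ Z ∈ cov Y a X, p Y a X Z * g Z ^ 2)
    (g : St → ℝ) (hg : ∑ Z ∈ cov Y a X, p Y a X Z * g Z = 0) :
    ∑ W ∈ U, (∑ Z ∈ mid (cov Y a) X W, p Y a X Z * p Y a Z W * g Z) ^ 2 /
        mass (cov Y a) (p Y a) X W ≤ L * ∑ Z ∈ cov Y a X, p Y a X Z * g Z ^ 2 := by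
  obtain ⟨hW, hT⟩ := hX
  have hmR : (3 : ℝ) ≤ X.1.card := by exact_mod_cast hm
  set c : ℕ → ℝ := fun v => X.1.card * ∑ l ∈ (lts X).filter (fun l => l.1 = v), pr Y a X l * g (nx X l) with hc
  set g0 : St → ℝ := fun Z => g Z - c (enc X Z).1 with hg0
  have hg0l : ∀ l ∈ lts X, g0 (nx X l) = g (nx X l) - c l.1 := fun l hl => by
    rw [hg0]
    dsimp only
    rw [enc_nx hW hl]
  have hcs : ∑ v ∈ X.1, c v = 0 := by
    rw [hc, ← Finset.mul_sum, ← LocB_fib X (fun l => pr Y a X l * g (nx X l)), ← sum_cov hY ha hW, hg, mul_zero]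
  have hg0v : ∀ v ∈ X.1, ∑ l ∈ (lts X).filter (fun l => l.1 = v), pr Y a X l * g0 (nx X l) = 0 := by
    intro v hv
    have h1 : ∀ l ∈ (lts X).filter (fun l => l.1 = v), pr Y a X l * g0 (nx X l) =
        pr Y a X l * g (nx X l) - pr Y a X l * c v := fun l hl => by
      rw [hg0l l (Finset.mem_filter.1 hl).1, (Finset.mem_filter.1 hl).2]
      ring
    rw [Finset.sum_congr rfl h1, Finset.sum_sub_distrib, ← Finset.sum_mul, LocB_one hs hW hT hv]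
    have h2 : c v = X.1.card * ∑ l ∈ (lts X).filter (fun l => l.1 = v), pr Y a X l * g (nx X l) := rfl
    rw [h2]
    field_simp
    ring
  have hZ0 : ∀ f : ℕ → ℝ, ∑ l ∈ lts X, pr Y a X l * (g0 (nx X l) * f l.1) = 0 := by
    intro f
    rw [LocB_fib]
    refine Finset.sum_eq_zero fun v hv => ?_
    have h1 : ∀ l ∈ (lts X).filter (fun l => l.1 = v), pr Y a X l * (g0 (nx X l) * f l.1) =
        pr Y a X l * g0 (nx X l) * f v := fun l hl => by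
      rw [(Finset.mem_filter.1 hl).2]
      ring
    rw [Finset.sum_congr rfl h1, ← Finset.sum_mul, hg0v v hv, zero_mul]
  have h3 : ∑ Z ∈ cov Y a X, p Y a X Z * g Z ^ 2 =
      ∑ Z ∈ cov Y a X, p Y a X Z * g0 Z ^ 2 + (∑ v ∈ X.1, c v ^ 2) / X.1.card := by
    rw [sum_cov hY ha hW (fun Z => g Z ^ 2), sum_cov hY ha hW (fun Z => g0 Z ^ 2),
      ← LocB_U hs hW hT (fun v => c v ^ 2)]
    have h1 : ∀ l ∈ lts X, pr Y a X l * g (nx X l) ^ 2 = pr Y a X l * g0 (nx X l) ^ 2 +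
        pr Y a X l * (g0 (nx X l) * (2 * c l.1)) + pr Y a X l * c l.1 ^ 2 := fun l hl => by
      rw [hg0l l hl]
      ring
    rw [Finset.sum_congr rfl h1, Finset.sum_add_distrib, Finset.sum_add_distrib, hZ0 (fun v => 2 * c v)]
    ring
  have h4 : ∀ W, ∑ Z ∈ mid (cov Y a) X W, p Y a X Z * p Y a Z W * g Z =
      ∑ Z ∈ mid (cov Y a) X W, p Y a X Z * p Y a Z W * g0 Z +
        mass (cov Y a) (p Y a) X W * ((∑ x ∈ X.1 \ W.1, c x) / 2) := by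
    intro W
    rw [← LocB_kap hs hY ha hW c W, ← Finset.sum_add_distrib]
    refine Finset.sum_congr rfl fun Z _ => ?_
    rw [hg0]
    ring
  have h5 : ∀ W ∈ U, (∑ Z ∈ mid (cov Y a) X W, p Y a X Z * p Y a Z W * g Z) ^ 2 /
        mass (cov Y a) (p Y a) X W =
      (∑ Z ∈ mid (cov Y a) X W, p Y a X Z * p Y a Z W * g0 Z) ^ 2 / mass (cov Y a) (p Y a) X W +
      ∑ Z ∈ mid (cov Y a) X W, p Y a X Z * p Y a Z W * (2 * (g0 Z * ((∑ x ∈ X.1 \ W.1, c x) / 2))) +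
      ∑ Z ∈ mid (cov Y a) X W, p Y a X Z * p Y a Z W * ((∑ x ∈ X.1 \ W.1, c x) / 2) ^ 2 := by
    intro W hWU
    have h6 := (hpos W hWU).ne'
    have h7 : ∑ Z ∈ mid (cov Y a) X W, p Y a X Z * p Y a Z W * (2 * (g0 Z * ((∑ x ∈ X.1 \ W.1, c x) / 2))) =
        2 * ((∑ Z ∈ mid (cov Y a) X W, p Y a X Z * p Y a Z W * g0 Z) * ((∑ x ∈ X.1 \ W.1, c x) / 2)) := by
      rw [Finset.sum_mul, Finset.mul_sum]
      exact Finset.sum_congr rfl fun Z _ => by ring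
    have h8 : ∑ Z ∈ mid (cov Y a) X W, p Y a X Z * p Y a Z W * ((∑ x ∈ X.1 \ W.1, c x) / 2) ^ 2 =
        mass (cov Y a) (p Y a) X W * ((∑ x ∈ X.1 \ W.1, c x) / 2) ^ 2 := by
      unfold mass
      rw [Finset.sum_mul]
    rw [h4 W, h7, h8]
    field_simp
    ring
  rw [Finset.sum_congr rfl h5, Finset.sum_add_distrib, Finset.sum_add_distrib,
    ← hU (fun Z W => p Y a X Z * p Y a Z W * (2 * (g0 Z * ((∑ x ∈ X.1 \ W.1, c x) / 2)))),
    ← hU (fun Z W => p Y a X Z * p Y a Z W * ((∑ x ∈ X.1 \ W.1, c x) / 2) ^ 2),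
    LocB_cc hY ha hW (fun Z W => 2 * (g0 Z * ((∑ x ∈ X.1 \ W.1, c x) / 2))),
    LocB_cc hY ha hW (fun _ W => ((∑ x ∈ X.1 \ W.1, c x) / 2) ^ 2)]
  have h9 : ∑ l1 ∈ lts X, ∑ l2 ∈ lts (nx X l1), pr Y a X l1 * pr Y a (nx X l1) l2 *
      (2 * (g0 (nx X l1) * ((∑ x ∈ X.1 \ (nx (nx X l1) l2).1, c x) / 2))) = 0 := by
    have h10 : ∀ l1 ∈ lts X, ∀ l2 ∈ lts (nx X l1), pr Y a X l1 * pr Y a (nx X l1) l2 *
        (2 * (g0 (nx X l1) * ((∑ x ∈ X.1 \ (nx (nx X l1) l2).1, c x) / 2))) =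
        pr Y a X l1 * pr Y a (nx X l1) l2 * (g0 (nx X l1) * (fun v w => c v + c w) l1.1 l2.1) := by
      intro l1 hl1 l2 hl2
      rw [LocB_two hW c hl1 hl2]
      ring
    rw [Finset.sum_congr rfl fun l1 hl1 => Finset.sum_congr rfl fun l2 hl2 => h10 l1 hl1 l2 hl2,
      LocB_sec hs hY ha hW (fun l1 => g0 (nx X l1)) (fun v w => c v + c w)]
    exact hZ0 (fun v => (∑ w ∈ X.1.erase v, (c v + c w)) / ((X.1.card : ℝ) - 1))
  have h11 : ∑ l1 ∈ lts X, ∑ l2 ∈ lts (nx X l1), pr Y a X l1 * pr Y a (nx X l1) l2 *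
      ((∑ x ∈ X.1 \ (nx (nx X l1) l2).1, c x) / 2) ^ 2 ≤ 1 / 2 * ((∑ v ∈ X.1, c v ^ 2) / X.1.card) := by
    have h10 : ∀ l1 ∈ lts X, ∀ l2 ∈ lts (nx X l1), pr Y a X l1 * pr Y a (nx X l1) l2 *
        ((∑ x ∈ X.1 \ (nx (nx X l1) l2).1, c x) / 2) ^ 2 =
        pr Y a X l1 * pr Y a (nx X l1) l2 * (1 * (fun v w => ((c v + c w) / 2) ^ 2) l1.1 l2.1) := by
      intro l1 hl1 l2 hl2
      rw [LocB_two hW c hl1 hl2]
      ring
    rw [Finset.sum_congr rfl fun l1 hl1 => Finset.sum_congr rfl fun l2 hl2 => h10 l1 hl1 l2 hl2,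
      LocB_sec hs hY ha hW (fun _ => 1) (fun v w => ((c v + c w) / 2) ^ 2)]
    simp only [one_mul]
    rw [LocB_U hs hW hT (fun v => (∑ w ∈ X.1.erase v, ((c v + c w) / 2) ^ 2) / ((X.1.card : ℝ) - 1))]
    exact LocB_quad X.1 hm c hcs
  have h12 := h g0 hg0v
  have h13 : 0 ≤ (∑ v ∈ X.1, c v ^ 2) / X.1.card :=
    div_nonneg (Finset.sum_nonneg fun v _ => sq_nonneg _) (by linarith)
  rw [h9, h3]
  nlinarith

private theorem LocB_mem {β : Type} {inst : DecidableEq β} {s : Finset β} {t : β → Finset β} {W : β} :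
    W ∈ @Finset.biUnion β β inst s t ↔ ∃ Z ∈ s, W ∈ t Z := Finset.mem_biUnion

private theorem LocB_mid {β : Type} {cv : β → Finset β} {X W Z : β} :
    Z ∈ mid cv X W ↔ Z ∈ cv X ∧ W ∈ cv Z := by
  classical
  unfold mid
  exact Finset.mem_filter

theorem LOC_of_Bsi {Y : ℕ → ℕ → ℝ} (hs : ∀ u v, Y u v = Y v u) (hY : ∀ u v, |Y u v| ≤ 1) {a : ℝ} (ha : 0 ≤ a)
    {Lam : ℕ → ℝ} (hL : ∀ m, 3 ≤ m → 1 / 2 ≤ Lam m ∧ Lam m < 1) (h : Bsi Y a Lam) :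
    LOC Y a (fun m => Lam m / (1 - Lam m)) := by
  intro X hX hm ψ
  obtain ⟨hL1, hL2⟩ := hL X.1.card hm
  have hpp : ∀ X' : St, ok Y a X' → ∀ Z ∈ cov Y a X', 0 < p Y a X' Z := by
    intro X' hX' Z hZ
    obtain ⟨l, h1, h2, h3⟩ := mem_cov.1 hZ
    rw [← h3, p_nx hX'.1 h1]
    exact h2
  have hp1 : ∀ X' : St, ok Y a X' → X'.1.Nonempty → ∑ Z ∈ cov Y a X', p Y a X' Z = 1 := by
    intro X' hX' hne
    have h1 := sum_cov hY ha hX'.1 (fun _ => (1 : ℝ))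
    simp only [mul_one] at h1
    rw [h1, sum_pr hX'.2 hne]
  have hcard : ∀ Z ∈ cov Y a X, Z.1.Nonempty := by
    intro Z hZ
    obtain ⟨l, h1, _, h3⟩ := mem_cov.1 hZ
    have h4 := card_nx h1
    rw [h3] at h4
    exact Finset.card_pos.1 (by omega)
  refine Ch.dual (hpp X hX) (fun Z hZ => hpp Z (ok_cov hY ha hX hZ))
    (hp1 X hX (Finset.card_pos.1 (by omega))) (fun Z hZ => hp1 Z (ok_cov hY ha hX hZ) (hcard Z hZ))
    (by linarith) hL2 ?_ ψ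
  intro g hg
  refine LocB_main hs hY ha hX hm hL1 (fun F => sum_mid X F) ?_ ?_ g hg
  · intro W hW
    obtain ⟨Z, hZ, hWZ⟩ := LocB_mem.1 hW
    unfold mass
    refine Finset.sum_pos (fun Z' hZ' => ?_) ⟨Z, ?_⟩
    · have h1 := LocB_mid.1 hZ'
      exact mul_pos (hpp X hX Z' h1.1) (hpp Z' (ok_cov hY ha hX h1.1) W h1.2)
    · exact LocB_mid.2 ⟨hZ, hWZ⟩
  · intro g' hg'
    refine le_trans (le_of_eq ?_) (h X hX hm g' hg')
    refine Finset.sum_congr ?_ fun _ _ => rfl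
    ext W
    exact LocB_mem.trans LocB_mem.symm

end BSI
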