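import Pool.Agent.ACY.MDefs
import Pool.Agent.ACY.MAv

/-!
# BSI machine layer: definitions

Vertices are natural numbers, `V` a list of vertices without duplicates, `E` a list of edges between different vertices
of `V`. The label of the pair `u v` is `(- p / q) ^ m`, `m` the number of edges between `u` and `v`, and `a1 / a2` is the
weight of the root. A state of the chain is the list of the letters `(t, (C, f))`: `t` is the vertex inserted, `C` the
list of the blocks it swallows, `f` tells that the new block goes to the root (`true` for the last letter, which swallows everything).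
A step changes two consecutive letters so that the state after both does not change.
-/

set_option autoImplicit false

namespace BSI.M

/-- a letter -/
abbrev Lt : Type := ℕ × (List (List ℕ) × Bool)

/-- the edges between `u` and the vertices of `B` -/
def eb (E : List (ℕ × ℕ)) (u : ℕ) (B : List ℕ) : List (ℕ × ℕ) :=
  E.filter fun e => (e.1 == u && B.contains e.2) || (e.2 == u && B.contains e.1)

/-- the other edges -/
def ec (E : List (ℕ × ℕ)) (u : ℕ) (B : List ℕ) : List (ℕ × ℕ) :=
  E.filter fun e => !((e.1 == u && B.contains e.2) || (e.2 == u && B.contains e.1))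

/-- `q ^ |E| * (1 - (- p / q) ^ j)`, `j` the number of edges between `u` and `B` -/
def wE (p q : ℕ) (E : List (ℕ × ℕ)) (u : ℕ) (B : List ℕ) : ℕ :=
  (if decide ((eb E u B).length % 2 = 1) then q ^ (eb E u B).length + p ^ (eb E u B).length
    else q ^ (eb E u B).length - p ^ (eb E u B).length) * q ^ (ec E u B).length

/-- the new block -/
def blkL (t : ℕ) (C : List (List ℕ)) : List ℕ := t :: C.flatten

/-- a block of `D` contains `t` -/
def jnL (t : ℕ) (D : List (List ℕ)) : Bool := D.any fun B => B.contains t

/-- the blocks of `D` which do not contain `t` -/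
def rmL (t : ℕ) (D : List (List ℕ)) : List (List ℕ) := D.filter fun B => !(B.contains t)

/-- the numbers given by the bits -/
def nums (c : ℕ) : ℕ → List Bool → List ℕ
  | 0, _ => []
  | N + 1, l => Pool.Agent.Helper6.WB.val (l.take c) :: nums c N (l.drop c)

/-- the multiplier of the piece `B` -/
def kJ (p q : ℕ) (E : List (ℕ × ℕ)) (m t s : ℕ) (B : List ℕ) : ℕ := m / (wE p q E t B + wE p q E s B)

/-- the piece goes to the first vertex `z` -/
def toF (p q : ℕ) (E : List (ℕ × ℕ)) (m z z' : ℕ) (x : List ℕ × ℕ) : Bool :=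
  decide (x.2 < kJ p q E m z z' x.1 * wE p q E z x.1)

/-- the number of the piece is valid -/
def toA (p q : ℕ) (E : List (ℕ × ℕ)) (m z z' : ℕ) (x : List ℕ × ℕ) : Bool :=
  decide (x.2 < kJ p q E m z z' x.1 * (wE p q E z x.1 + wE p q E z' x.1))

/-- the two new letters, `none` if the step is void; `z` is the new first vertex, `z'` the second, `fl` the flag of the
first, `g` the flag of the second, `Z` the pieces with their numbers, `n` and `V` for the bound of the size -/
def newP (p q a1 a2 : ℕ) (V : List ℕ) (E : List (ℕ × ℕ)) (m z z' : ℕ) (fl g : Bool) (Z : List (List ℕ × ℕ)) (v0 : ℕ) :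
    Bool × (Lt × Lt) :=
  (Z.all (toA p q E m z z') &&
      (decide ((blkL z ((Z.filter (toF p q E m z z')).map Prod.fst)).length ≤ V.length) &&
        ((blkL z ((Z.filter (toF p q E m z z')).map Prod.fst)).all (V.contains ·) &&
          decide (v0 < if fl then a1 * q ^ E.length else
            a2 * wE p q E z' (blkL z ((Z.filter (toF p q E m z z')).map Prod.fst))))),
    ((z, ((Z.filter (toF p q E m z z')).map Prod.fst, fl)),
      (z', ((if fl then (Z.filter fun x => !(toF p q E m z z' x)).map Prod.fst else
        blkL z ((Z.filter (toF p q E m z z')).map Prod.fst) :: (Z.filter fun x => !(toF p q E m z z' x)).map Prod.fst), g))))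

/-- the move of two consecutive letters; `u2 < 4` are the two bits for the order and the flag, `vs` the numbers of the
pieces, `v0` the number of the acceptance -/
def pairS (p q a1 a2 : ℕ) (V : List ℕ) (E : List (ℕ × ℕ)) (m u2 : ℕ) (vs : List ℕ) (v0 : ℕ) (x y : Lt) : Bool × (Lt × Lt) :=
  if jnL x.1 y.2.1 || (x.2.2 && y.2.2) then
    newP p q a1 a2 V E m (if u2 == 1 || u2 == 3 then y.1 else x.1) (if u2 == 1 || u2 == 3 then x.1 else y.1)
      ((u2 == 2 || u2 == 3) && y.2.2) y.2.2 ((x.2.1 ++ rmL x.1 y.2.1).zip vs) v0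
  else ((u2 == 1 || u2 == 3) && decide (v0 < a2 * q ^ E.length), (y, x))

/-- one step: `u1` is the site -/
def stepL (p q a1 a2 : ℕ) (V : List ℕ) (E : List (ℕ × ℕ)) (m u1 u2 : ℕ) (vs : List ℕ) (v0 : ℕ) (st : List Lt) : List Lt :=
  if decide (u1 + 1 < st.length) && (pairS p q a1 a2 V E m u2 vs v0 (st.getD u1 (0, ([], false)))
      (st.getD (u1 + 1) (0, ([], false)))).1 then
    (st.set u1 (pairS p q a1 a2 V E m u2 vs v0 (st.getD u1 (0, ([], false))) (st.getD (u1 + 1) (0, ([], false)))).2.1).set
      (u1 + 1) (pairS p q a1 a2 V E m u2 vs v0 (st.getD u1 (0, ([], false))) (st.getD (u1 + 1) (0, ([], false)))).2.2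
  else st

/-- the number of random bits of a step: site, order and flag, one number per piece, acceptance -/
def nb1 (b c n : ℕ) : ℕ := b + (2 + (n * c + c))

/-- one step, from the bits -/
def stepB (p q a1 a2 : ℕ) (V : List ℕ) (E : List (ℕ × ℕ)) (b c : ℕ) (l : List Bool) (st : List Lt) : List Lt :=
  stepL p q a1 a2 V E (2 ^ c) (Pool.Agent.Helper6.WB.val (l.take b)) (Pool.Agent.Helper6.WB.val ((l.drop b).take 2))
    (nums c V.length ((l.drop b).drop 2)) (Pool.Agent.Helper6.WB.val ((((l.drop b).drop 2).drop (V.length * c)).take c)) st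

/-- `T` steps -/
def runL (p q a1 a2 : ℕ) (V : List ℕ) (E : List (ℕ × ℕ)) (b c : ℕ) : ℕ → List Bool → List Lt → List Lt
  | 0, _, st => st
  | T + 1, l, st => runL p q a1 a2 V E b c T (l.drop (nb1 b c V.length)) (stepB p q a1 a2 V E b c l st)

/-- `t` has an edge to the block `B` -/
def adj (E : List (ℕ × ℕ)) (t : ℕ) (B : List ℕ) : Bool := !(eb E t B).isEmpty

/-- greedy insertion: every vertex swallows all the blocks which are adjacent to it -/
def grd (E : List (ℕ × ℕ)) : List (List ℕ) → List ℕ → List Lt
  | _, [] => []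
  | P, t :: l => (t, ((if l.isEmpty then P else P.filter (adj E t)), l.isEmpty)) ::
      grd E (blkL t (P.filter (adj E t)) :: P.filter fun B => !(adj E t B)) l

/-- the initial state -/
def iniL (a1 : ℕ) (V : List ℕ) (E : List (ℕ × ℕ)) : List Lt :=
  if a1 = 0 then grd E [] V else V.map fun t => (t, ([], true))

/-- the first two vertices are `u`, `v`, and the second one swallows (`w = true`) or does not swallow (`w = false`) the first -/
def obsL (w : Bool) (u v : ℕ) (st : List Lt) : Bool :=
  (((st.getD 0 (0, ([], false))).1 == u && (st.getD 1 (0, ([], false))).1 == v) ||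
    ((st.getD 0 (0, ([], false))).1 == v && (st.getD 1 (0, ([], false))).1 == u)) &&
    (jnL (st.getD 0 (0, ([], false))).1 (st.getD 1 (0, ([], false))).2.1 == w)

/-- one trial -/
def trial (p q a1 a2 : ℕ) (V : List ℕ) (E : List (ℕ × ℕ)) (b c T : ℕ) (w : Bool) (u v : ℕ) (l : List Bool) : ℕ :=
  if obsL w u v (runL p q a1 a2 V E b c T l (iniL a1 V E)) then 1 else 0

/-- the number of random bits of a trial -/
def nbT (b c n T : ℕ) : ℕ := T * nb1 b c n

/-- `K` trials; every trial uses `m` bits, `nbT b c V.length T ≤ m` -/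
def cnt (p q a1 a2 : ℕ) (V : List ℕ) (E : List (ℕ × ℕ)) (b c T m : ℕ) (w : Bool) (u v : ℕ) : ℕ → List Bool → ℕ
  | 0, _ => 0
  | K + 1, l => trial p q a1 a2 V E b c T w u v (l.take m) + cnt p q a1 a2 V E b c T m w u v K (l.drop m)

/-- the edge joins `u` and `v` -/
def isE (u v : ℕ) (e : ℕ × ℕ) : Bool := (e.1 == u && e.2 == v) || (e.1 == v && e.2 == u)

/-- delete the edges between `u` and `v` -/
def delE (u v : ℕ) (E : List (ℕ × ℕ)) : List (ℕ × ℕ) := E.filter fun e => !(isE u v e)

/-- contract the edges between `u` and `v`, the new vertex is `u` -/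
def conE (u v : ℕ) (E : List (ℕ × ℕ)) : List (ℕ × ℕ) :=
  (delE u v E).map fun e => ((if e.1 == v then u else e.1), (if e.2 == v then u else e.2))

/-- the vertices after the contraction -/
def conV (v : ℕ) (V : List ℕ) : List ℕ := V.filter fun x => !(x == v)

/-- the number of bits of the random numbers for the graph `V`, `E` -/
def cE (q a1 a2 : ℕ) (V : List ℕ) (E : List (ℕ × ℕ)) : ℕ := Nat.size (8 * (V.length + 1) * (a1 + a2) * q ^ E.length)

/-- numerator and denominator of the estimate -/
def est (p q a1 a2 b T m K : ℕ) : ℕ → List ℕ → List (ℕ × ℕ) → List Bool → ℕ × ℕ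
  | 0, V, _, _ => (a1 ^ (V.length - 1), a2 ^ (V.length - 1))
  | _ + 1, V, [], _ => (a1 ^ (V.length - 1), a2 ^ (V.length - 1))
  | F + 1, V, e :: E, l =>
    if cnt p q a1 a2 V (e :: E) b (cE q a1 a2 V (e :: E)) T m false e.1 e.2 K (l.take (K * m)) ≤
        cnt p q a1 a2 V (e :: E) b (cE q a1 a2 V (e :: E)) T m true e.1 e.2 K (l.take (K * m)) then
      (2 * K * wE p q (e :: E) e.1 [e.2] *
          (est p q a1 a2 b T m K F (conV e.2 V) (conE e.1 e.2 (e :: E)) (l.drop (K * m))).1,
        V.length * (V.length - 1) * q ^ (e :: E).length *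
          cnt p q a1 a2 V (e :: E) b (cE q a1 a2 V (e :: E)) T m true e.1 e.2 K (l.take (K * m)) *
          (est p q a1 a2 b T m K F (conV e.2 V) (conE e.1 e.2 (e :: E)) (l.drop (K * m))).2)
    else
      (2 * K * (est p q a1 a2 b T m K F V (delE e.1 e.2 (e :: E)) (l.drop (K * m))).1,
        V.length * (V.length - 1) *
          cnt p q a1 a2 V (e :: E) b (cE q a1 a2 V (e :: E)) T m false e.1 e.2 K (l.take (K * m)) *
          (est p q a1 a2 b T m K F V (delE e.1 e.2 (e :: E)) (l.drop (K * m))).2)

end BSI.M
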