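import Pool.Agent.BSI.Fib

/-!
# BSI-Mid: sums over the middle states, the mass of a fibre
-/

set_option autoImplicit false

namespace BSI

open Finset ACY

variable {Y : ℕ → ℕ → ℝ} {a : ℝ} {X : St}

theorem pr_pr (hY : ∀ u v, |Y u v| ≤ 1) (ha : 0 ≤ a) {l1 l2 : Le} (h1 : l1 ∈ lts X) (h2 : l2 ∈ lts (nx X l1)) :
    pr Y a X l1 * pr Y a (nx X l1) l2 =
      wl Y a X l1 * wl Y a (nx X l1) l2 * (T Y a (nx (nx X l1) l2) / (X.1.card * (X.1.card - 1) * T Y a X)) := by
  have hc := card_nx h1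
  have hc' : ((nx X l1).1.card : ℝ) = X.1.card - 1 := by
    rw [← hc]
    push_cast
    ring
  have hne : (nx X l1).1.Nonempty := ⟨_, lts_fst h2⟩
  have hp : (0 : ℝ) < (nx X l1).1.card := by exact_mod_cast hne.card_pos
  unfold pr
  by_cases hT : T Y a (nx X l1) = 0
  · have h3 := T_rec (Y := Y) (a := a) hne
    rw [hT, eq_comm, div_eq_zero_iff] at h3
    rcases h3 with h3 | h3
    · rw [Finset.sum_eq_zero_iff_of_nonneg (fun l _ => mul_nonneg (wl_nonneg hY ha _ l) (T_nonneg hY ha _))] at h3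
      have h4 := h3 l2 h2
      rw [hT, mul_zero, zero_div, zero_mul, mul_assoc, ← mul_div_assoc, h4, zero_div, mul_zero]
    · exact absurd h3 hp.ne'
  · rw [← hc']
    field_simp

theorem sum_mid_letters (hY : ∀ u v, |Y u v| ≤ 1) (ha : 0 ≤ a) (hX : Wf X) (W : St) (h : St → ℝ) :
    ∑ Z ∈ GPoi.mid (cov Y a) X W, p Y a X Z * p Y a Z W * h Z =
      ∑ l1 ∈ lts X, ∑ l2 ∈ (lts (nx X l1)).filter (fun l2 => nx (nx X l1) l2 = W),
        pr Y a X l1 * pr Y a (nx X l1) l2 * h (nx X l1) := by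
  classical
  have h1 := sum_cov (a := a) hY ha hX (fun Z => if W ∈ cov Y a Z then p Y a Z W * h Z else 0)
  have h2 : ∑ Z ∈ GPoi.mid (cov Y a) X W, p Y a X Z * p Y a Z W * h Z =
      ∑ Z ∈ cov Y a X, p Y a X Z * (if W ∈ cov Y a Z then p Y a Z W * h Z else 0) := by
    unfold GPoi.mid
    rw [Finset.sum_filter]
    refine Finset.sum_congr (by congr) fun Z _ => ?_
    split_ifs
    · ring
    · ring
  rw [h2, h1]
  refine Finset.sum_congr rfl fun l1 _ => ?_
  have h3 : (if W ∈ cov Y a (nx X l1) then p Y a (nx X l1) W * h (nx X l1) else 0) =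
      p Y a (nx X l1) W * h (nx X l1) := by
    split_ifs with hW
    · rfl
    · have h4 : p Y a (nx X l1) W = 0 := by
        unfold p
        refine Finset.sum_eq_zero fun l2 hl2 => ?_
        obtain ⟨h5, h6⟩ := Finset.mem_filter.1 hl2
        rcases (pr_nonneg hY ha (nx X l1) l2).lt_or_eq with h7 | h7
        · exact absurd (mem_cov.2 ⟨l2, h5, h7, h6⟩) hW
        · exact h7.symm
      rw [h4, zero_mul]
  rw [h3]
  unfold p
  rw [Finset.sum_mul, Finset.mul_sum]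
  refine Finset.sum_congr rfl fun l2 _ => ?_
  ring

/-- the common factor of a joint fibre -/
noncomputable def jf (Y : ℕ → ℕ → ℝ) (a : ℝ) (X W : St) (g : Bool) : ℝ :=
  T Y a W / (X.1.card * (X.1.card - 1) * T Y a X) * (if g = true ∧ 3 ≤ X.1.card then a else 1)

private theorem mid_two {l1 l2 : Le} (h1 : l1 ∈ lts X) (h2 : l2 ∈ lts (nx X l1)) : 2 ≤ X.1.card := by
  have hc := card_nx h1
  have hne : (nx X l1).1.Nonempty := ⟨_, lts_fst h2⟩
  have := hne.card_pos
  omega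

private theorem mid_term (hY : ∀ u v, |Y u v| ≤ 1) (ha : 0 ≤ a) {W : St} {z z' : ℕ} {D C : Finset (Finset ℕ)}
    {fl g : Bool} (h1 : (mk2 z z' D C fl g).1 ∈ lts X)
    (h2 : (mk2 z z' D C fl g).2 ∈ lts (nx X (mk2 z z' D C fl g).1))
    (hW : nx (nx X (mk2 z z' D C fl g).1) (mk2 z z' D C fl g).2 = W) :
    pr Y a X (mk2 z z' D C fl g).1 * pr Y a (nx X (mk2 z z' D C fl g).1) (mk2 z z' D C fl g).2 =
      jf Y a X W g * w2 Y a z z' D C fl := by
  have h3 := mid_two h1 h2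
  have h4 := card_nx h1
  rw [pr_pr hY ha h1 h2, hW]
  have e1 : wl Y a X (mk2 z z' D C fl g).1 = cc Y z C * (if fl then a else 1) := by
    unfold wl mk2
    simp only [h3, and_true]
  have e2 : wl Y a (nx X (mk2 z z' D C fl g).1) (mk2 z z' D C fl g).2 =
      cc Y z' (if fl then D \ C else insert (blk z C) (D \ C)) * (if g = true ∧ 3 ≤ X.1.card then a else 1) := by
    unfold wl
    exact congrArg₂ (· * ·) rfl (if_congr (and_congr Iff.rfl ⟨fun _ => by omega, fun _ => by omega⟩) rfl rfl)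
  rw [e1, e2]
  unfold jf w2
  ring

theorem sum_mid_joint (hY : ∀ u v, |Y u v| ≤ 1) (ha : 0 ≤ a) (hX : Wf X) {l1 l2 : Le} (h1 : l1 ∈ lts X)
    (h2 : l2 ∈ lts (nx X l1)) (hj : jt l1 l2) (h : St → ℝ) :
    ∑ Z ∈ GPoi.mid (cov Y a) X (nx (nx X l1) l2), p Y a X Z * p Y a Z (nx (nx X l1) l2) * h Z =
      jf Y a X (nx (nx X l1) l2) l2.2.2 * sum2 l1.1 l2.1 (pc l1 l2) l2.2.2 (fun z z' C fl =>
        w2 Y a z z' (pc l1 l2) C fl * h (nx X (z, (C, fl)))) := by
  classical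
  obtain ⟨hne, _, _⟩ := ne_fst hX h1 h2
  have hF := @fib_all X hX l1 l2 h1 h2
  have hM := @jt_mem X hX l1 l2 h1 h2 hj
  rw [sum_mid_letters hY ha hX]
  set W := nx (nx X l1) l2 with hW
  set D := pc l1 l2 with hDD
  set g := l2.2.2 with hg
  set t := l1.1 with ht
  set s := l2.1 with hs
  have hG : ∀ (z z' : ℕ), ((z = t ∧ z' = s) ∨ (z = s ∧ z' = t)) → ∀ C ⊆ D, ∀ fl ∈ fls g,
      ∑ l2' ∈ (lts (nx X (z, (C, fl)))).filter (fun l2' => nx (nx X (z, (C, fl))) l2' = W),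
        pr Y a X (z, (C, fl)) * pr Y a (nx X (z, (C, fl))) l2' * h (nx X (z, (C, fl))) =
      jf Y a X W g * w2 Y a z z' D C fl * h (nx X (z, (C, fl))) := by
    intro z z' hz C hC fl hfl
    obtain ⟨m1, m2, m3⟩ := hM hz hC hfl
    have e1 : (mk2 z z' D C fl g).1 = (z, (C, fl)) := rfl
    have hfil : (lts (nx X (z, (C, fl)))).filter (fun l2' => nx (nx X (z, (C, fl))) l2' = W) =
        {(mk2 z z' D C fl g).2} := by
      ext l2'
      rw [Finset.mem_filter, Finset.mem_singleton]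
      constructor
      · rintro ⟨h5, h6⟩
        obtain ⟨z1, z1', hz1, C1, _, fl1, _, h7⟩ := (hF m1 h5 h6).1 hj
        have h8 : (z, (C, fl)) = (z1, (C1, fl1)) := congrArg Prod.fst h7
        have h9 : z = z1 := congrArg Prod.fst h8
        have h10 : C = C1 := congrArg (fun x : Le => x.2.1) h8
        have h11 : fl = fl1 := congrArg (fun x : Le => x.2.2) h8
        subst h9 h10 h11
        have h12 : z1' = z' := by
          rcases hz with ⟨ha1, ha2⟩ | ⟨ha1, ha2⟩ <;> rcases hz1 with ⟨hb1, hb2⟩ | ⟨hb1, hb2⟩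
          · rw [ha2, hb2]
          · exact absurd (ha1.symm.trans hb1) hne
          · exact absurd (hb1.symm.trans ha1) hne
          · rw [ha2, hb2]
        subst h12
        exact congrArg Prod.snd h7
      · rintro rfl
        exact ⟨m2, m3⟩
    rw [hfil, Finset.sum_singleton]
    have h13 := mid_term hY ha m1 m2 m3
    rw [← h13]
    rfl
  have hout : ∀ l1' ∈ lts X, l1' ∉ ({t, s} : Finset ℕ) ×ˢ (D.powerset ×ˢ fls g) →
      ∑ l2' ∈ (lts (nx X l1')).filter (fun l2' => nx (nx X l1') l2' = W),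
        pr Y a X l1' * pr Y a (nx X l1') l2' * h (nx X l1') = 0 := by
    intro l1' hl hn
    refine Finset.sum_eq_zero fun l2' hl2 => ?_
    obtain ⟨h5, h6⟩ := Finset.mem_filter.1 hl2
    exfalso
    obtain ⟨z1, z1', hz1, C1, hC1, fl1, hfl1, h7⟩ := (hF hl h5 h6).1 hj
    apply hn
    have h8 : l1' = (z1, (C1, fl1)) := congrArg Prod.fst h7
    rw [h8, Finset.mem_product, Finset.mem_product, Finset.mem_powerset]
    refine ⟨?_, hC1, hfl1⟩
    rw [Finset.mem_insert, Finset.mem_singleton]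
    rcases hz1 with ⟨hb, _⟩ | ⟨hb, _⟩
    · exact Or.inl hb
    · exact Or.inr hb
  have hsub : ({t, s} : Finset ℕ) ×ˢ (D.powerset ×ˢ fls g) ⊆ lts X := by
    intro l hl
    rw [Finset.mem_product, Finset.mem_product, Finset.mem_powerset, Finset.mem_insert,
      Finset.mem_singleton] at hl
    obtain ⟨hl1, hl2, hl3⟩ := hl
    rcases hl1 with hl1 | hl1
    · exact (hM (z := l.1) (z' := s) (Or.inl ⟨hl1, rfl⟩) hl2 hl3).1
    · exact (hM (z := l.1) (z' := t) (Or.inr ⟨hl1, rfl⟩) hl2 hl3).1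
  unfold sum2
  rw [← Finset.sum_subset hsub hout, Finset.sum_product, Finset.sum_pair hne, Finset.sum_product,
    Finset.sum_product, ← Finset.sum_add_distrib, Finset.mul_sum]
  refine Finset.sum_congr rfl fun C hC => ?_
  rw [← Finset.sum_add_distrib, Finset.mul_sum]
  refine Finset.sum_congr rfl fun fl hfl => ?_
  rw [hG t s (Or.inl ⟨rfl, rfl⟩) C (Finset.mem_powerset.1 hC) fl hfl,
    hG s t (Or.inr ⟨rfl, rfl⟩) C (Finset.mem_powerset.1 hC) fl hfl]
  ring

theorem sum_mid_swap (hY : ∀ u v, |Y u v| ≤ 1) (ha : 0 ≤ a) (hX : Wf X) {l1 l2 : Le} (h1 : l1 ∈ lts X)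
    (h2 : l2 ∈ lts (nx X l1)) (hj : ¬ jt l1 l2) (h : St → ℝ) :
    ∑ Z ∈ GPoi.mid (cov Y a) X (nx (nx X l1) l2), p Y a X Z * p Y a Z (nx (nx X l1) l2) * h Z =
      pr Y a X l1 * pr Y a (nx X l1) l2 * (h (nx X l1) + h (nx X l2)) := by
  classical
  obtain ⟨hne, _, _⟩ := ne_fst hX h1 h2
  obtain ⟨hc3, hm2, hm1, hsw, _⟩ := swap_mem hX h1 h2 hj
  have hF := @fib_all X hX l1 l2 h1 h2
  have hne' : l1 ≠ l2 := fun he => hne (congrArg Prod.fst he)
  rw [sum_mid_letters hY ha hX]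
  have hfil1 : (lts (nx X l1)).filter (fun l2' => nx (nx X l1) l2' = nx (nx X l1) l2) = {l2} := by
    ext l2'
    rw [Finset.mem_filter, Finset.mem_singleton]
    constructor
    · rintro ⟨h5, h6⟩
      rcases (hF h1 h5 h6).2 hj with h7 | h7
      · exact congrArg Prod.snd h7
      · exact absurd (congrArg Prod.fst h7) hne'
    · rintro rfl
      exact ⟨h2, rfl⟩
  have hfil2 : (lts (nx X l2)).filter (fun l2' => nx (nx X l2) l2' = nx (nx X l1) l2) = {l1} := by
    ext l2'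
    rw [Finset.mem_filter, Finset.mem_singleton]
    constructor
    · rintro ⟨h5, h6⟩
      rcases (hF hm2 h5 h6).2 hj with h7 | h7
      · exact absurd (congrArg Prod.fst h7).symm hne'
      · exact congrArg Prod.snd h7
    · rintro rfl
      exact ⟨hm1, hsw⟩
  have hout : ∀ l1' ∈ lts X, l1' ∉ ({l1, l2} : Finset Le) →
      ∑ l2' ∈ (lts (nx X l1')).filter (fun l2' => nx (nx X l1') l2' = nx (nx X l1) l2),
        pr Y a X l1' * pr Y a (nx X l1') l2' * h (nx X l1') = 0 := by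
    intro l1' hl hn
    refine Finset.sum_eq_zero fun l2' hl2 => ?_
    obtain ⟨h5, h6⟩ := Finset.mem_filter.1 hl2
    exfalso
    apply hn
    rw [Finset.mem_insert, Finset.mem_singleton]
    rcases (hF hl h5 h6).2 hj with h7 | h7
    · exact Or.inl (congrArg Prod.fst h7)
    · exact Or.inr (congrArg Prod.fst h7)
  have hsub : ({l1, l2} : Finset Le) ⊆ lts X := by
    intro l hl
    rw [Finset.mem_insert, Finset.mem_singleton] at hl
    rcases hl with rfl | rfl
    · exact h1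
    · exact hm2
  rw [← Finset.sum_subset hsub hout, Finset.sum_pair hne', hfil1, hfil2, Finset.sum_singleton,
    Finset.sum_singleton]
  have hprod : pr Y a X l2 * pr Y a (nx X l2) l1 = pr Y a X l1 * pr Y a (nx X l1) l2 := by
    rw [pr_pr hY ha h1 h2, pr_pr hY ha hm2 hm1, hsw]
    have c1 := card_nx h1
    have c2 := card_nx hm2
    have hwl : ∀ (Z : St) (l : Le), 2 ≤ Z.1.card → wl Y a Z l = cc Y l.1 l.2.1 * (if l.2.2 then a else 1) := by
      intro Z l hZ
      unfold wl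
      simp only [hZ, and_true]
    rw [hwl X l1 (by omega), hwl X l2 (by omega), hwl (nx X l1) l2 (by omega), hwl (nx X l2) l1 (by omega)]
    ring
  rw [hprod]
  ring

theorem mass_joint (hY : ∀ u v, |Y u v| ≤ 1) (ha : 0 ≤ a) (hX : Wf X) {l1 l2 : Le}
    (h1 : l1 ∈ lts X) (h2 : l2 ∈ lts (nx X l1)) (hj : jt l1 l2) :
    GPoi.mass (cov Y a) (p Y a) X (nx (nx X l1) l2) = jf Y a X (nx (nx X l1) l2) l2.2.2 * mass2 Y a l1 l2 := by
  have h0 := sum_mid_joint hY ha hX h1 h2 hj (fun _ => 1)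
  have h3 : GPoi.mass (cov Y a) (p Y a) X (nx (nx X l1) l2) =
      ∑ Z ∈ GPoi.mid (cov Y a) X (nx (nx X l1) l2), p Y a X Z * p Y a Z (nx (nx X l1) l2) * 1 := by
    unfold GPoi.mass
    refine Finset.sum_congr rfl fun Z _ => ?_
    ring
  rw [h3, h0]
  unfold mass2
  simp only [mul_one]

theorem mass_swap (hY : ∀ u v, |Y u v| ≤ 1) (ha : 0 ≤ a) (hX : Wf X) {l1 l2 : Le}
    (h1 : l1 ∈ lts X) (h2 : l2 ∈ lts (nx X l1)) (hj : ¬ jt l1 l2) :
    GPoi.mass (cov Y a) (p Y a) X (nx (nx X l1) l2) = 2 * (pr Y a X l1 * pr Y a (nx X l1) l2) := by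
  have h0 := sum_mid_swap hY ha hX h1 h2 hj (fun _ => 1)
  have h3 : GPoi.mass (cov Y a) (p Y a) X (nx (nx X l1) l2) =
      ∑ Z ∈ GPoi.mid (cov Y a) X (nx (nx X l1) l2), p Y a X Z * p Y a Z (nx (nx X l1) l2) * 1 := by
    unfold GPoi.mass
    refine Finset.sum_congr rfl fun Z _ => ?_
    ring
  rw [h3, h0]
  ring

end BSI
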