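import Pool.Agent.BSI.Two

/-!
# BSI-Mrg: positivity (merging, greedy insertion), crude bounds

Positivity of `T` for `a = 0` is the existence of a letter of positive weight with a positive next state. `T_merge`:
merging two blocks keeps positivity, by induction on the number of the vertices which are not inserted. `T_greedy`: the
vertex `t` may swallow all adjacent blocks. `T_leM`: the crude upper bound of `T`, by induction.
-/

set_option autoImplicit false

namespace BSI

open Finset ACY

variable {Y : ℕ → ℕ → ℝ} {a η : ℝ} {X : St}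

theorem cc_pos_iff (hY : Lab Y η) (t : ℕ) (C : Finset (Finset ℕ)) : 0 < cc Y t C ↔ ∀ B ∈ C, yb Y t B ≠ 1 := by
  unfold cc
  constructor
  · intro h B hB h1
    have h2 : ∏ B ∈ C, (1 - yb Y t B) = 0 := Finset.prod_eq_zero hB (by rw [h1, sub_self])
    exact h.ne' h2
  · intro h
    refine Finset.prod_pos fun B hB => ?_
    have h1 := (abs_le.1 (yb_abs hY.abs_le t B)).2
    have h2 := lt_of_le_of_ne h1 (h B hB)
    linarith

theorem cc_ge (hY : Lab Y η) (t : ℕ) {C : Finset (Finset ℕ)} (h : ∀ B ∈ C, yb Y t B ≠ 1) : η ^ C.card ≤ cc Y t C := by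
  unfold cc
  rw [← Finset.prod_const]
  refine Finset.prod_le_prod (fun _ _ => hY.pos.le) fun B hB => ?_
  rcases yb_gap hY t B with h1 | h1
  · exact absurd h1 (h B hB)
  · have := (abs_le.1 h1).2
    linarith

theorem yb_ne_iff (hY : Lab Y η) (t : ℕ) (B : Finset ℕ) : yb Y t B ≠ 1 ↔ ∃ b ∈ B, Y t b ≠ 1 := by
  constructor
  · intro h
    by_contra h1
    push Not at h1
    exact h (Finset.prod_eq_one h1)
  · rintro ⟨b, hb, h⟩ h1
    have h2 : |Y t b| ≤ 1 - η := (hY.gap t b).resolve_left h
    have h3 : |yb Y t B| ≤ |Y t b| := by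
      unfold yb
      rw [← Finset.mul_prod_erase B _ hb, abs_mul]
      exact mul_le_of_le_one_right (abs_nonneg _) (yb_abs hY.abs_le t (B.erase b))
    rw [h1, abs_one] at h3
    linarith [hY.pos]

private theorem Mrg_pos_iff (hY : ∀ u v, |Y u v| ≤ 1) (ha : 0 ≤ a) (hne : X.1.Nonempty) :
    0 < T Y a X ↔ ∃ l ∈ lts X, 0 < wl Y a X l ∧ 0 < T Y a (nx X l) := by
  have hc : (0 : ℝ) < X.1.card := by exact_mod_cast hne.card_pos
  have hn : ∀ l ∈ lts X, 0 ≤ wl Y a X l * T Y a (nx X l) := fun l _ =>
    mul_nonneg (wl_nonneg hY ha X l) (T_nonneg hY ha _)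
  rw [T_rec hne, div_pos_iff_of_pos_right hc, Finset.sum_pos_iff_of_nonneg hn]
  constructor
  · rintro ⟨l, hl, h⟩
    refine ⟨l, hl, ?_, ?_⟩
    · exact pos_of_mul_pos_left h (T_nonneg hY ha _)
    · exact pos_of_mul_pos_right h (wl_nonneg hY ha X l)
  · rintro ⟨l, hl, h1, h2⟩
    exact ⟨l, hl, mul_pos h1 h2⟩

private theorem Mrg_two (hY : ∀ u v, |Y u v| ≤ 1) (hc : 2 ≤ X.1.card) :
    0 < T Y 0 X ↔ ∃ t ∈ X.1, ∃ C ⊆ X.2, 0 < cc Y t C ∧
      0 < T Y 0 (X.1.erase t, insert (blk t C) (X.2 \ C)) := by
  have hne : X.1.Nonempty := Finset.card_pos.1 (by omega)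
  rw [Mrg_pos_iff hY le_rfl hne]
  constructor
  · rintro ⟨⟨t, C, f⟩, hl, h1, h2⟩
    have h3 := (lts_two hc).1 hl
    cases f with
    | true =>
      unfold wl at h1
      rw [if_pos ⟨rfl, hc⟩, mul_zero] at h1
      exact absurd h1 (lt_irrefl 0)
    | false =>
      unfold wl at h1
      rw [if_neg (by simp), mul_one] at h1
      exact ⟨t, h3.1, C, h3.2, h1, h2⟩
  · rintro ⟨t, ht, C, hC, h1, h2⟩
    refine ⟨(t, (C, false)), (lts_two hc).2 ⟨ht, hC⟩, ?_, h2⟩
    unfold wl
    rw [if_neg (by simp), mul_one]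
    exact h1

private theorem Mrg_one (hY : Lab Y η) (ha : 0 ≤ a) {t : ℕ} {P : Finset (Finset ℕ)} :
    0 < T Y a ({t}, P) ↔ ∀ B ∈ P, yb Y t B ≠ 1 := by
  rw [← cc_pos_iff hY, Mrg_pos_iff hY.abs_le ha (Finset.singleton_nonempty t)]
  have h0 : (({t}, P) : St).1.card < 2 := by
    change ({t} : Finset ℕ).card < 2
    rw [Finset.card_singleton]
    omega
  constructor
  · rintro ⟨⟨s, C, f⟩, hl, h1, _⟩
    have h3 := (lts_one h0).1 hl
    have h4 : s = t := Finset.mem_singleton.1 h3.1
    have h5 : C = P := congrArg Prod.fst h3.2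
    subst h4 h5
    unfold wl at h1
    rw [if_neg (by rintro ⟨_, h⟩; omega), mul_one] at h1
    exact h1
  · intro h
    refine ⟨(t, (P, true)), (lts_one h0).2 ⟨Finset.mem_singleton_self t, rfl⟩, ?_, ?_⟩
    · unfold wl
      rw [if_neg (by rintro ⟨_, h⟩; omega), mul_one]
      exact h
    · rw [T_empty]
      · exact one_pos
      · change ({t} : Finset ℕ).erase t = ∅
        simp

private theorem Mrg_union_notMem (hX : Wf X) {A B : Finset ℕ} (hA : A ∈ X.2) (hB : B ∈ X.2) (hne : A ≠ B) :
    A ∪ B ∉ X.2 := by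
  intro h
  have h1 : A ∪ B = A := by
    by_contra h2
    have h3 := hX.dj _ h _ hA h2
    obtain ⟨x, hx⟩ := hX.ne A hA
    exact Finset.disjoint_left.1 h3 (Finset.mem_union_left _ hx) hx
  obtain ⟨x, hx⟩ := hX.ne B hB
  have h4 : x ∈ A := by
    rw [← h1]
    exact Finset.mem_union_right _ hx
  exact Finset.disjoint_left.1 (hX.dj A hA B hB hne) h4 hx

private theorem Mrg_blk_union {t : ℕ} {C : Finset (Finset ℕ)} {B : Finset ℕ} :
    blk t (insert B C) = blk t C ∪ B := by
  ext x
  rw [mem_blk, Finset.mem_union, mem_blk]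
  constructor
  · rintro (h | ⟨D, hD, hx⟩)
    · exact Or.inl (Or.inl h)
    · rcases Finset.mem_insert.1 hD with h | h
      · exact Or.inr (h ▸ hx)
      · exact Or.inl (Or.inr ⟨D, h, hx⟩)
  · rintro ((h | ⟨D, hD, hx⟩) | h)
    · exact Or.inl h
    · exact Or.inr ⟨D, Finset.mem_insert_of_mem hD, hx⟩
    · exact Or.inr ⟨B, Finset.mem_insert_self _ _, h⟩

private theorem Mrg_step {P : Finset (Finset ℕ)} {t : ℕ} {C : Finset (Finset ℕ)} {B : Finset ℕ}
    (hb : blk t C ∉ P) :
    insert (blk t C ∪ B) (((insert (blk t C) (P \ C)).erase (blk t C)).erase B) =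
      insert (blk t (insert B C)) (P \ insert B C) := by
  rw [Mrg_blk_union, Finset.erase_insert (fun h => hb (Finset.mem_sdiff.1 h).1), Finset.sdiff_insert]

theorem T_merge (hY : Lab Y η) (hX : Wf X) {A B : Finset ℕ} (hA : A ∈ X.2) (hB : B ∈ X.2) (hne : A ≠ B)
    (h : 0 < T Y 0 X) : 0 < T Y 0 (X.1, insert (A ∪ B) ((X.2.erase A).erase B)) := by
  obtain ⟨n, hn⟩ : ∃ n, X.1.card = n := ⟨_, rfl⟩
  induction n generalizing X A B with
  | zero =>
    rw [T_empty]
    · exact one_pos
    · exact Finset.card_eq_zero.1 hn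
  | succ n ih =>
    by_cases hc : 2 ≤ X.1.card
    · obtain ⟨t, ht, C, hC, h1, h2⟩ := (Mrg_two hY.abs_le hc).1 h
      have hb := blk_notMem hX ht C
      have hl : ((t, (C, false)) : Le) ∈ lts X := (lts_two hc).2 ⟨ht, hC⟩
      have hX' : Wf (X.1.erase t, insert (blk t C) (X.2 \ C)) := Wf_nx hX hl
      have hn' : (X.1.erase t).card = n := by
        rw [Finset.card_erase_of_mem ht, hn]
        rfl
      have hu := Mrg_union_notMem hX hA hB hne
      have h1' := (cc_pos_iff hY t C).1 h1
      have hc' : 2 ≤ ((X.1, insert (A ∪ B) ((X.2.erase A).erase B)) : St).1.card := hc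
      rw [Mrg_two hY.abs_le hc']
      refine ⟨t, ht, ?_⟩
      have key : ∀ A B : Finset ℕ, A ∈ X.2 → B ∈ X.2 → A ≠ B → A ∪ B ∉ X.2 → A ∈ C → B ∉ C →
          ∃ C' ⊆ insert (A ∪ B) ((X.2.erase A).erase B), 0 < cc Y t C' ∧
            0 < T Y 0 (X.1.erase t, insert (blk t C')
              (insert (A ∪ B) ((X.2.erase A).erase B) \ C')) := by
        intro A B hA hB hne hu hAC hBC
        refine ⟨insert (A ∪ B) (C.erase A), ?_, ?_, ?_⟩
        · refine Finset.insert_subset_insert _ fun D hD => ?_
          have hD' := Finset.mem_erase.1 hD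
          refine Finset.mem_erase.2 ⟨fun h => hBC (h ▸ hD'.2), Finset.mem_erase.2 ⟨hD'.1, hC hD'.2⟩⟩
        · rw [cc_pos_iff hY]
          intro D hD
          rcases Finset.mem_insert.1 hD with h | h
          · rw [h, yb_ne_iff hY]
            obtain ⟨b, hb1, hb2⟩ := (yb_ne_iff hY t A).1 (h1' A hAC)
            exact ⟨b, Finset.mem_union_left _ hb1, hb2⟩
          · exact h1' D (Finset.mem_erase.1 h).2
        · have e1 : blk t (insert (A ∪ B) (C.erase A)) = blk t C ∪ B := by
            ext x
            rw [mem_blk, Finset.mem_union, mem_blk]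
            constructor
            · rintro (h | ⟨D, hD, hx⟩)
              · exact Or.inl (Or.inl h)
              · rcases Finset.mem_insert.1 hD with h | h
                · rw [h] at hx
                  rcases Finset.mem_union.1 hx with h3 | h3
                  · exact Or.inl (Or.inr ⟨A, hAC, h3⟩)
                  · exact Or.inr h3
                · exact Or.inl (Or.inr ⟨D, (Finset.mem_erase.1 h).2, hx⟩)
            · rintro ((h | ⟨D, hD, hx⟩) | h)
              · exact Or.inl h
              · by_cases hDA : D = A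
                · exact Or.inr ⟨A ∪ B, Finset.mem_insert_self _ _,
                    Finset.mem_union_left _ (hDA ▸ hx)⟩
                · exact Or.inr ⟨D, Finset.mem_insert_of_mem (Finset.mem_erase.2 ⟨hDA, hD⟩), hx⟩
              · exact Or.inr ⟨A ∪ B, Finset.mem_insert_self _ _, Finset.mem_union_right _ h⟩
          have e2 : insert (A ∪ B) ((X.2.erase A).erase B) \ insert (A ∪ B) (C.erase A) =
              (X.2 \ C).erase B := by
            ext D
            simp only [Finset.mem_sdiff, Finset.mem_insert, Finset.mem_erase, not_or, not_and]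
            constructor
            · rintro ⟨h3 | ⟨h3, h4, h5⟩, h6, h7⟩
              · exact absurd h3 h6
              · exact ⟨h3, h5, h7 h4⟩
            · rintro ⟨h3, h4, h5⟩
              refine ⟨Or.inr ⟨h3, fun h => h5 (h ▸ hAC), h4⟩, fun h => hu (h ▸ h4), fun _ => h5⟩
          have h3 := ih hX' (A := blk t C) (B := B) (Finset.mem_insert_self _ _)
            (Finset.mem_insert_of_mem (Finset.mem_sdiff.2 ⟨hB, hBC⟩)) (fun h => hb (h ▸ hB)) h2 hn'
          have e3 : (insert (blk t C) (X.2 \ C)).erase (blk t C) = X.2 \ C :=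
            Finset.erase_insert fun h => hb (Finset.mem_sdiff.1 h).1
          change 0 < T Y 0 (X.1.erase t,
            insert (blk t C ∪ B) (((insert (blk t C) (X.2 \ C)).erase (blk t C)).erase B)) at h3
          rw [e3] at h3
          rw [e1, e2]
          exact h3
      by_cases hAC : A ∈ C
      · by_cases hBC : B ∈ C
        · refine ⟨insert (A ∪ B) ((C.erase A).erase B), ?_, ?_, ?_⟩
          · exact Finset.insert_subset_insert _
              (Finset.erase_subset_erase _ (Finset.erase_subset_erase _ hC))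
          · rw [cc_pos_iff hY]
            intro D hD
            rcases Finset.mem_insert.1 hD with h | h
            · rw [h, yb_ne_iff hY]
              obtain ⟨b, hb1, hb2⟩ := (yb_ne_iff hY t A).1 (h1' A hAC)
              exact ⟨b, Finset.mem_union_left _ hb1, hb2⟩
            · exact h1' D (Finset.mem_erase.1 (Finset.mem_erase.1 h).2).2
          · have e1 : blk t (insert (A ∪ B) ((C.erase A).erase B)) = blk t C := by
              ext x
              rw [mem_blk, mem_blk]
              constructor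
              · rintro (h | ⟨D, hD, hx⟩)
                · exact Or.inl h
                · rcases Finset.mem_insert.1 hD with h | h
                  · rw [h] at hx
                    rcases Finset.mem_union.1 hx with h3 | h3
                    · exact Or.inr ⟨A, hAC, h3⟩
                    · exact Or.inr ⟨B, hBC, h3⟩
                  · exact Or.inr ⟨D, (Finset.mem_erase.1 (Finset.mem_erase.1 h).2).2, hx⟩
              · rintro (h | ⟨D, hD, hx⟩)
                · exact Or.inl h
                · by_cases hDA : D = A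
                  · exact Or.inr ⟨A ∪ B, Finset.mem_insert_self _ _,
                      Finset.mem_union_left _ (hDA ▸ hx)⟩
                  · by_cases hDB : D = B
                    · exact Or.inr ⟨A ∪ B, Finset.mem_insert_self _ _,
                        Finset.mem_union_right _ (hDB ▸ hx)⟩
                    · exact Or.inr ⟨D, Finset.mem_insert_of_mem
                        (Finset.mem_erase.2 ⟨hDB, Finset.mem_erase.2 ⟨hDA, hD⟩⟩), hx⟩
            have e2 : insert (A ∪ B) ((X.2.erase A).erase B) \ insert (A ∪ B) ((C.erase A).erase B) =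
                X.2 \ C := by
              ext D
              simp only [Finset.mem_sdiff, Finset.mem_insert, Finset.mem_erase, not_or, not_and]
              constructor
              · rintro ⟨h3 | ⟨h3, h4, h5⟩, h6, h7⟩
                · exact absurd h3 h6
                · exact ⟨h5, h7 h3 h4⟩
              · rintro ⟨h4, h5⟩
                exact ⟨Or.inr ⟨fun h => h5 (h ▸ hBC), fun h => h5 (h ▸ hAC), h4⟩,
                  fun h => hu (h ▸ h4), fun _ _ => h5⟩
            rw [e1, e2]
            exact h2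
        · exact key A B hA hB hne hu hAC hBC
      · by_cases hBC : B ∈ C
        · have h3 := key B A hB hA hne.symm (by rw [Finset.union_comm]; exact hu) hBC hAC
          rw [Finset.union_comm B A, Finset.erase_right_comm] at h3
          exact h3
        · refine ⟨C, ?_, h1, ?_⟩
          · intro D hD
            exact Finset.mem_insert_of_mem (Finset.mem_erase.2 ⟨fun h => hBC (h ▸ hD),
              Finset.mem_erase.2 ⟨fun h => hAC (h ▸ hD), hC hD⟩⟩)
          · have h3 := ih hX' (A := A) (B := B)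
              (Finset.mem_insert_of_mem (Finset.mem_sdiff.2 ⟨hA, hAC⟩))
              (Finset.mem_insert_of_mem (Finset.mem_sdiff.2 ⟨hB, hBC⟩)) hne h2 hn'
            have e1 : insert (A ∪ B) (((insert (blk t C) (X.2 \ C)).erase A).erase B) =
                insert (blk t C) (insert (A ∪ B) ((X.2.erase A).erase B) \ C) := by
              have hbA : blk t C ≠ A := fun h => hb (h ▸ hA)
              have hbB : blk t C ≠ B := fun h => hb (h ▸ hB)
              have hbu : A ∪ B ∉ C := fun h => hu (hC h)
              rw [Finset.erase_insert_of_ne hbA, Finset.erase_insert_of_ne hbB, Finset.insert_comm]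
              congr 1
              rw [Finset.insert_sdiff_of_notMem _ hbu]
              congr 1
              ext D
              simp only [Finset.mem_sdiff, Finset.mem_erase]
              tauto
            change 0 < T Y 0 (X.1.erase t,
              insert (A ∪ B) (((insert (blk t C) (X.2 \ C)).erase A).erase B)) at h3
            rw [e1] at h3
            exact h3
    · have h1 : X.1.card = 1 := by omega
      obtain ⟨t, ht⟩ := Finset.card_eq_one.1 h1
      have h2 : X = ({t}, X.2) := Prod.ext ht rfl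
      rw [h2, Mrg_one hY le_rfl] at h
      rw [ht, Mrg_one hY le_rfl]
      intro D hD
      rcases Finset.mem_insert.1 hD with h3 | h3
      · rw [h3, yb_ne_iff hY]
        obtain ⟨b, hb1, hb2⟩ := (yb_ne_iff hY t A).1 (h A hA)
        exact ⟨b, Finset.mem_union_left _ hb1, hb2⟩
      · exact h D (Finset.mem_erase.1 (Finset.mem_erase.1 h3).2).2

open Classical in
theorem T_greedy (hY : Lab Y η) (hX : Wf X) (h : 0 < T Y 0 X) {t : ℕ} (ht : t ∈ X.1) (hc : 2 ≤ X.1.card) :
    0 < T Y 0 (nx X (t, (X.2.filter (fun B => yb Y t B ≠ 1), false))) := by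
  set F := X.2.filter (fun B => yb Y t B ≠ 1) with hF
  have hne : X.1.Nonempty := Finset.card_pos.1 (by omega)
  rw [T_ins hY.symm hX ht, ins_two hc ht] at h
  have hn : ∀ C ∈ X.2.powerset, 0 ≤ cc Y t C * (T Y 0 (nx X (t, (C, false))) +
      0 * T Y 0 (nx X (t, (C, true)))) := fun C _ =>
    mul_nonneg (cc_nonneg hY.abs_le t C) (by
      rw [zero_mul, add_zero]
      exact T_nonneg hY.abs_le le_rfl _)
  obtain ⟨C, hC, h1⟩ := (Finset.sum_pos_iff_of_nonneg hn).1 h
  rw [zero_mul, add_zero] at h1
  have hC' := Finset.mem_powerset.1 hC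
  have h2 : 0 < cc Y t C := pos_of_mul_pos_left h1 (T_nonneg hY.abs_le le_rfl _)
  have h3 : 0 < T Y 0 (nx X (t, (C, false))) :=
    pos_of_mul_pos_right h1 (cc_nonneg hY.abs_le t C)
  have hCF : C ⊆ F := fun B hB => Finset.mem_filter.2 ⟨hC' hB, (cc_pos_iff hY t C).1 h2 B hB⟩
  have hFX : F ⊆ X.2 := Finset.filter_subset _ _
  obtain ⟨m, hm⟩ : ∃ m, (F \ C).card = m := ⟨_, rfl⟩
  clear h h1 hn h2 hC hC'
  induction m generalizing C with
  | zero =>
    have h4 : F ⊆ C := Finset.sdiff_eq_empty_iff_subset.1 (Finset.card_eq_zero.1 hm)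
    rw [Finset.Subset.antisymm hCF h4] at h3
    exact h3
  | succ m ih =>
    have h4 : (F \ C).Nonempty := Finset.card_pos.1 (by omega)
    obtain ⟨B, hB⟩ := h4
    have hB' := Finset.mem_sdiff.1 hB
    have hb := blk_notMem hX ht C
    have hl : ((t, (C, false)) : Le) ∈ lts X := (lts_two hc).2 ⟨ht, hCF.trans hFX⟩
    have hX' : Wf (X.1.erase t, insert (blk t C) (X.2 \ C)) := Wf_nx hX hl
    refine ih (insert B C) ?_ ?_ ?_
    · have h5 := T_merge hY hX' (A := blk t C) (B := B) (Finset.mem_insert_self _ _)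
        (Finset.mem_insert_of_mem (Finset.mem_sdiff.2 ⟨hFX hB'.1, hB'.2⟩))
        (fun h => hb (h ▸ hFX hB'.1)) h3
      change 0 < T Y 0 (X.1.erase t,
        insert (blk t C ∪ B) (((insert (blk t C) (X.2 \ C)).erase (blk t C)).erase B)) at h5
      rw [Mrg_step hb] at h5
      exact h5
    · exact Finset.insert_subset hB'.1 hCF
    · rw [Finset.sdiff_insert, Finset.card_erase_of_mem hB, hm]
      rfl

theorem T_last (hY : Lab Y η) (ha : 0 ≤ a) {t : ℕ} {P : Finset (Finset ℕ)} (h : 0 < T Y a ({t}, P)) :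
    ∀ B ∈ P, yb Y t B ≠ 1 := (Mrg_one hY ha).1 h

theorem T_root_pos (hY : Lab Y η) (ha : 0 < a) (V : Finset ℕ) : 0 < T Y a (V, ∅) := by
  obtain ⟨n, hn⟩ : ∃ n, V.card = n := ⟨_, rfl⟩
  induction n generalizing V with
  | zero =>
    rw [T_empty (Finset.card_eq_zero.1 hn)]
    exact one_pos
  | succ n ih =>
    have hne : V.Nonempty := Finset.card_pos.1 (by omega)
    obtain ⟨t, ht⟩ := hne
    have h1 := ih (V.erase t) (by rw [Finset.card_erase_of_mem ht, hn]; rfl)
    rw [Mrg_pos_iff hY.abs_le ha.le (X := (V, ∅)) ⟨t, ht⟩]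
    refine ⟨(t, (∅, true)), ?_, ?_, ?_⟩
    · by_cases hc : 2 ≤ V.card
      · exact (lts_two (X := (V, ∅)) hc).2 ⟨ht, le_rfl⟩
      · exact (lts_one (X := (V, ∅)) (by change V.card < 2; omega)).2 ⟨ht, rfl⟩
    · unfold wl cc
      rw [Finset.prod_empty, one_mul]
      split_ifs
      · exact ha
      · exact one_pos
    · have e1 : nx (V, ∅) (t, (∅, true)) = (V.erase t, ∅) := by
        unfold nx
        simp
      rw [e1]
      exact h1

private theorem Mrg_cc_le (hY : ∀ u v, |Y u v| ≤ 1) (t : ℕ) (C : Finset (Finset ℕ)) :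
    cc Y t C ≤ 2 ^ C.card := by
  unfold cc
  rw [← Finset.prod_const]
  refine Finset.prod_le_prod (fun B _ => ?_) fun B _ => ?_
  · have := (abs_le.1 (yb_abs hY t B)).2
    linarith
  · have := (abs_le.1 (yb_abs hY t B)).1
    linarith

private theorem Mrg_sum_wl (hY : ∀ u v, |Y u v| ≤ 1) (ha : 0 ≤ a) (X : St) :
    ∑ l ∈ lts X, wl Y a X l ≤ X.1.card * ((1 + a) * 3 ^ X.2.card) := by
  have h3 : ∀ P : Finset (Finset ℕ), ∑ C ∈ P.powerset, (2 : ℝ) ^ C.card = 3 ^ P.card := by
    intro P
    have h := Finset.sum_pow_mul_eq_add_pow (2 : ℝ) 1 P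
    simp only [one_pow, mul_one] at h
    rw [h]
    norm_num
  have h4 : ∑ l ∈ lts X, wl Y a X l = ∑ t ∈ X.1, ins Y a t (fun _ => 1) X := by
    rw [← sum_ins]
    simp only [mul_one]
  rw [h4, ← nsmul_eq_mul, ← Finset.sum_const]
  refine Finset.sum_le_sum fun t ht => ?_
  by_cases hc : 2 ≤ X.1.card
  · rw [ins_two hc ht, ← h3, Finset.mul_sum]
    refine Finset.sum_le_sum fun C _ => ?_
    have := Mrg_cc_le hY t C
    nlinarith
  · have h5 : X.1 = {t} := by
      have h6 : X.1.card ≤ 1 := by omega
      exact Finset.eq_singleton_iff_unique_mem.2 ⟨ht, fun s hs => Finset.card_le_one.1 h6 s hs t ht⟩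
    rw [ins_one h5, mul_one]
    have h7 := Mrg_cc_le hY t X.2
    have h8 : (2 : ℝ) ^ X.2.card ≤ 3 ^ X.2.card := pow_le_pow_left₀ (by norm_num) (by norm_num) _
    have h9 : (0 : ℝ) < 3 ^ X.2.card := by positivity
    nlinarith

theorem T_leM (hY : ∀ u v, |Y u v| ≤ 1) (ha : 0 ≤ a) (X : St) :
    T Y a X ≤ ((1 + a) * 3 ^ (X.1.card + X.2.card)) ^ X.1.card := by
  obtain ⟨n, hn⟩ : ∃ n, X.1.card = n := ⟨_, rfl⟩
  induction n generalizing X with
  | zero =>
    rw [T_empty (Finset.card_eq_zero.1 hn), hn, pow_zero]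
  | succ n ih =>
    have hne : X.1.Nonempty := Finset.card_pos.1 (by omega)
    have hc : (0 : ℝ) < X.1.card := by exact_mod_cast hne.card_pos
    set K : ℝ := (1 + a) * 3 ^ (X.1.card + X.2.card) with hK
    have hK0 : 0 ≤ K := by positivity
    have h1 : ∀ l ∈ lts X, T Y a (nx X l) ≤ K ^ n := by
      intro l hl
      have h2 := card_nx hl
      have h3 : (nx X l).1.card = n := by omega
      refine (ih (nx X l) h3).trans ?_
      rw [h3]
      refine pow_le_pow_left₀ (by positivity) ?_ _
      rw [hK]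
      refine mul_le_mul_of_nonneg_left (pow_le_pow_right₀ (by norm_num) ?_) (by linarith)
      have h4 : (nx X l).2.card ≤ X.2.card + 1 := by
        unfold nx
        simp only
        split_ifs
        · exact (Finset.card_le_card Finset.sdiff_subset).trans (Nat.le_succ _)
        · refine (Finset.card_insert_le _ _).trans ?_
          have := Finset.card_le_card (Finset.sdiff_subset (s := X.2) (t := l.2.1))
          omega
      omega
    rw [T_rec hne, div_le_iff₀ hc, hn, pow_succ]
    have h5 : ∑ l ∈ lts X, wl Y a X l * T Y a (nx X l) ≤ (∑ l ∈ lts X, wl Y a X l) * K ^ n := by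
      rw [Finset.sum_mul]
      exact Finset.sum_le_sum fun l hl => mul_le_mul_of_nonneg_left (h1 l hl) (wl_nonneg hY ha X l)
    refine h5.trans ?_
    have h6 := Mrg_sum_wl hY ha X
    have h7 : (1 + a) * 3 ^ X.2.card ≤ K := by
      rw [hK]
      exact mul_le_mul_of_nonneg_left (pow_le_pow_right₀ (by norm_num) (by omega)) (by linarith)
    have h8 : 0 ≤ K ^ n := by positivity
    calc (∑ l ∈ lts X, wl Y a X l) * K ^ n ≤ (X.1.card * ((1 + a) * 3 ^ X.2.card)) * K ^ n :=
          mul_le_mul_of_nonneg_right h6 h8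
      _ ≤ (X.1.card * K) * K ^ n :=
          mul_le_mul_of_nonneg_right (mul_le_mul_of_nonneg_left h7 hc.le) h8
      _ = K ^ n * K * X.1.card := by ring
      _ = _ := by rw [hn]

end BSI
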