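import Pool.Agent.BSI.SiteA

/-!
# BSI machine layer, Obs: the observable on the lists of letters

The first two letters of a state of positive probability are letters of the initial state and of the next one, so that
`jn_iff` (SiteA.lean) compares the Boolean test on lists with the membership of the block.
-/

set_option autoImplicit false

namespace BSI.M

open Finset

/-- the first two vertices are `u`, `v`, and the second one swallows (`w = true`) or does not swallow (`w = false`) the first -/
def obP (w : Bool) (u v : ℕ) (l : List Le) : Prop :=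
  (((l.getD 0 le0).1 = u ∧ (l.getD 1 le0).1 = v) ∨ ((l.getD 0 le0).1 = v ∧ (l.getD 1 le0).1 = u)) ∧
    (blk (l.getD 0 le0).1 (l.getD 0 le0).2.1 ∈ (l.getD 1 le0).2.1 ↔ w = true)

instance (w : Bool) (u v : ℕ) (l : List Le) : Decidable (obP w u v l) := by unfold obP; infer_instance

theorem obs_iff {Y : ℕ → ℕ → ℝ} {a : ℝ} {V : List ℕ} (hn : 2 ≤ V.length) (hV : V.Nodup) {st : List Lt}
    (h : Pos Y a (V.toFinset, ∅) (Phi st)) (w : Bool) (u v : ℕ) : obsL w u v st = true ↔ obP w u v (Phi st) := by
  have hc : 2 ≤ V.toFinset.card := by rwa [List.toFinset_card_of_nodup hV]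
  have hW : Wf (V.toFinset, (∅ : Finset (Finset ℕ))) :=
    ⟨fun B hB => absurd hB (notMem_empty B), fun B hB => absurd hB (notMem_empty B),
      fun B hB => absurd hB (notMem_empty B)⟩
  match st, h with
  | [], h =>
    have h1 : V.toFinset = ∅ := h
    rw [h1] at hc
    simp at hc
  | [x], h =>
    obtain ⟨_, _, h2⟩ := h
    have h3 : V.toFinset.erase (phiL x).1 = ∅ := h2
    have h4 := Finset.pred_card_le_card_erase (s := V.toFinset) (a := (phiL x).1)
    rw [h3, Finset.card_empty] at h4
    omega
  | x :: y :: st, h =>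
    obtain ⟨hx, _, hy, _, _⟩ := h
    have hj := jn_iff hW hx hy
    have e0 : (Phi (x :: y :: st)).getD 0 le0 = phiL x := rfl
    have e1 : (Phi (x :: y :: st)).getD 1 le0 = phiL y := rfl
    have e2 : (x :: y :: st).getD 0 (0, ([], false)) = x := rfl
    have e3 : (x :: y :: st).getD 1 (0, ([], false)) = y := rfl
    have e4 : (phiL x).1 = x.1 := rfl
    have e5 : (phiL y).1 = y.1 := rfl
    unfold obsL obP
    rw [e0, e1, e2, e3, e4, e5, ← hj]
    simp only [Bool.and_eq_true, Bool.or_eq_true, beq_iff_eq]
    refine and_congr_right fun _ => ?_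
    cases w <;> cases jnL x.1 y.2.1 <;> simp

end BSI.M
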