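import Pool.Agent.BSI.KL
import Pool.Agent.BSI.Gr
import Pool.Agent.BSI.Law
import Pool.Agent.BSI.Av

/-!
# BSI machine layer: from the states of the machine to lists of letters, the concrete rates (definitions only)
-/

set_option autoImplicit false

namespace BSI.M

open Finset

/-- the letter of a letter of the machine -/
def phiL (x : Lt) : Le := (x.1, (CF x.2.1, x.2.2))

/-- the list of letters of a state of the machine -/
def Phi (st : List Lt) : List Le := st.map phiL

/-- blocks without repetitions, pairwise different as sets -/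
def GB (C : List (List ℕ)) : Prop := (∀ B ∈ C, B.Nodup) ∧ (C.map List.toFinset).Nodup

/-- all letters are good -/
def VS (st : List Lt) : Prop := ∀ x ∈ st, GB x.2.1

/-- the label of a pair -/
noncomputable def YE (p q : ℕ) (E : List (ℕ × ℕ)) (u v : ℕ) : ℝ := (-(p : ℝ) / q) ^ (eb E u [v]).length

/-- the weight of the root -/
noncomputable def aR (a1 a2 : ℕ) : ℝ := (a1 : ℝ) / a2

/-- the multiplier of the block `B` -/
noncomputable def kB (p q : ℕ) (E : List (ℕ × ℕ)) (m t s : ℕ) (B : Finset ℕ) : ℕ := kJ p q E m t s B.toList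

/-- the rates of the machine -/
noncomputable def kapM (p q a2 : ℕ) (V : List ℕ) (E : List (ℕ × ℕ)) (b c : ℕ) : Kap := fun t s P g =>
  (∏ B ∈ P, ((kB p q E (2 ^ c) t s B : ℝ) * q ^ E.length)) * ((2 : ℝ) ^ c) ^ (V.length - P.card) * (a2 * q ^ E.length) *
    (if g then 1 else 2) / (Fintype.card (UU b c V.length) : ℝ)

/-- the rate of the swap -/
noncomputable def ksM (q a2 : ℕ) (V : List ℕ) (E : List (ℕ × ℕ)) (b c : ℕ) : ℝ :=
  2 * ((2 : ℝ) ^ c) ^ V.length * (a2 * q ^ E.length) / (Fintype.card (UU b c V.length) : ℝ)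

/-- the lower bound of the rates -/
noncomputable def c0M (p q : ℕ) (E : List (ℕ × ℕ)) (b c : ℕ) : ℝ :=
  (1 - (p : ℝ) / q) ^ 2 * q ^ E.length / (24 * 2 ^ b * 2 ^ c)

end BSI.M
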