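import Pool.Agent.BSI.SiteA
import Pool.Agent.BSI.KapW
import Pool.Agent.BSI.Bas

/-!
# BSI machine layer, SiteC: an accepted move keeps the validity

A swap of two letters which are not joint gives the same state after both. A joint pair is the pair of letters of
`mk2` for its own data, and all pairs `mk2 z z' P C fl g` with the same vertices, pieces and last flag give the same state.
The positivity of the new probabilities follows from the positivity of the new weights, since the partition function of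
the middle state is a sum which contains the term of the new second letter.
-/

set_option autoImplicit false

namespace BSI.M

open Finset

/-! ### positivity -/

private theorem SiteC_pos {Y : ℕ → ℕ → ℝ} {a : ℝ} (hY : ∀ u v, |Y u v| ≤ 1) (ha : 0 ≤ a) {X : St} {l1 l2 : Le}
    (hT : 0 < T Y a X) (h1 : l1 ∈ lts X) (h2 : l2 ∈ lts (nx X l1)) (hw1 : 0 < wl Y a X l1)
    (hw2 : 0 < wl Y a (nx X l1) l2) (hW : 0 < T Y a (nx (nx X l1) l2)) :
    0 < pr Y a X l1 ∧ 0 < pr Y a (nx X l1) l2 := by
  have hc1 : (0 : ℝ) < X.1.card := by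
    have := Finset.card_pos.2 ⟨_, lts_fst h1⟩
    exact_mod_cast this
  have hc2 : (0 : ℝ) < (nx X l1).1.card := by
    have := Finset.card_pos.2 ⟨_, lts_fst h2⟩
    exact_mod_cast this
  have hT2 : 0 < T Y a (nx X l1) := by
    rw [T_rec ⟨_, lts_fst h2⟩]
    refine div_pos ?_ hc2
    refine lt_of_lt_of_le (mul_pos hw2 hW) ?_
    exact Finset.single_le_sum (f := fun l => wl Y a (nx X l1) l * T Y a (nx (nx X l1) l))
      (fun l _ => mul_nonneg (wl_nonneg hY ha _ _) (T_nonneg hY ha _)) h2
  exact ⟨div_pos (mul_pos hw1 hT2) (mul_pos hc1 hT), div_pos (mul_pos hw2 hW) (mul_pos hc2 hT2)⟩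

private theorem SiteC_wl {Y : ℕ → ℕ → ℝ} {a : ℝ} (hY : ∀ u v, |Y u v| ≤ 1) (ha : 0 ≤ a) {X : St} {l : Le}
    (h : 0 < pr Y a X l) : 0 < wl Y a X l ∧ 0 < T Y a X := by
  refine ⟨?_, ?_⟩
  · rcases (wl_nonneg hY ha X l).lt_or_eq with h1 | h1
    · exact h1
    · unfold pr at h
      rw [← h1, zero_mul, zero_div] at h
      exact absurd h (lt_irrefl 0)
  · rcases (T_nonneg hY ha X).lt_or_eq with h1 | h1
    · exact h1
    · unfold pr at h
      rw [← h1, mul_zero, div_zero] at h
      exact absurd h (lt_irrefl 0)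

/-! ### the swap -/

private theorem SiteC_swap {X : St} (hW : Wf X) {lx ly : Le} (hx : lx ∈ lts X) (hy : ly ∈ lts (nx X lx))
    (hb : blk lx.1 lx.2.1 ∉ ly.2.1) (hf : ¬ (lx.2.2 = true ∧ ly.2.2 = true)) :
    3 ≤ X.1.card ∧ ly ∈ lts X ∧ lx ∈ lts (nx X ly) ∧ nx (nx X ly) lx = nx (nx X lx) ly := by
  obtain ⟨t, C, f⟩ := lx
  obtain ⟨s, D, g⟩ := ly
  have ht : t ∈ X.1 := lts_fst hx
  have hC : C ⊆ X.2 := lts_sub hx
  have hs' : s ∈ X.1.erase t := lts_fst hy
  have hs : s ∈ X.1 := Finset.mem_of_mem_erase hs'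
  have hst : s ≠ t := Finset.ne_of_mem_erase hs'
  have hbt := blk_notMem hW ht C
  have hbs := blk_notMem hW hs D
  have hcard := card_nx hx
  simp only at hb hf
  have hD : D ⊆ X.2 \ C := by
    have h1 : D ⊆ (nx X (t, (C, f))).2 := lts_sub hy
    cases f with
    | true => exact h1
    | false =>
      intro B hB
      rcases Finset.mem_insert.1 (h1 hB) with h2 | h2
      · exact absurd (h2 ▸ hB) hb
      · exact h2
  have h3 : 3 ≤ X.1.card := by
    by_contra hc
    have h1 : (nx X (t, (C, f))).1.card < 2 := by omega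
    have h2 := ((lts_one h1).1 hy).2
    have h4 : D = (nx X (t, (C, f))).2 := congrArg Prod.fst h2
    have h5 : g = true := congrArg Prod.snd h2
    cases f with
    | true => exact hf ⟨rfl, h5⟩
    | false => exact hb (h4 ▸ Finset.mem_insert_self _ _)
  have hDX : D ⊆ X.2 := hD.trans Finset.sdiff_subset
  have hly : ((s, (D, g)) : Le) ∈ lts X := (lts_two (by omega)).2 ⟨hs, hDX⟩
  have hCD : C ⊆ X.2 \ D := by
    intro B hB
    refine Finset.mem_sdiff.2 ⟨hC hB, fun h => (Finset.mem_sdiff.1 (hD h)).2 hB⟩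
  have hcard' := card_nx hly
  refine ⟨h3, hly, (lts_two (by omega)).2 ⟨Finset.mem_erase.2 ⟨hst.symm, ht⟩, ?_⟩, ?_⟩
  · show C ⊆ (nx X (s, (D, g))).2
    cases g with
    | true => exact hCD
    | false => exact hCD.trans (Finset.subset_insert _ _)
  · have hbsC : blk s D ∉ C := fun h => hbs (hC h)
    have hbtD : blk t C ∉ D := hb
    have h6 : (X.2 \ D) \ C = (X.2 \ C) \ D := by
      ext B
      simp only [Finset.mem_sdiff]
      tauto
    refine Prod.ext (Finset.erase_right_comm) ?_
    cases f with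
    | true =>
      cases g with
      | true => exact absurd ⟨rfl, rfl⟩ hf
      | false =>
        show (insert (blk s D) (X.2 \ D)) \ C = insert (blk s D) ((X.2 \ C) \ D)
        rw [Finset.insert_sdiff_of_notMem _ hbsC, h6]
    | false =>
      cases g with
      | true =>
        show insert (blk t C) ((X.2 \ D) \ C) = (insert (blk t C) (X.2 \ C)) \ D
        rw [Finset.insert_sdiff_of_notMem _ hbtD, h6]
      | false =>
        show insert (blk t C) ((insert (blk s D) (X.2 \ D)) \ C) =
          insert (blk s D) ((insert (blk t C) (X.2 \ C)) \ D)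
        rw [Finset.insert_sdiff_of_notMem _ hbtD, Finset.insert_sdiff_of_notMem _ hbsC, h6,
          Finset.insert_comm]

/-! ### joint pairs -/

private theorem SiteC_mk {X : St} (hW : Wf X) {z z' : ℕ} (hz : z ∈ X.1) (hz' : z' ∈ X.1) (hne : z ≠ z')
    {P C : Finset (Finset ℕ)} (hP : P ⊆ X.2) (hC : C ⊆ P) {fl g : Bool} (hfg : fl = true → g = true)
    (hc : X.1.card = 2 → P = X.2 ∧ g = true) :
    (mk2 z z' P C fl g).1 ∈ lts X ∧ (mk2 z z' P C fl g).2 ∈ lts (nx X (mk2 z z' P C fl g).1) ∧
      nx (nx X (mk2 z z' P C fl g).1) (mk2 z z' P C fl g).2 =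
        ((X.1.erase z).erase z', if g then X.2 \ P else insert (insert z' (insert z (P.biUnion id))) (X.2 \ P)) := by
  have hcard : 2 ≤ X.1.card := by
    have h1 : ({z, z'} : Finset ℕ) ⊆ X.1 := by
      intro w hw
      rcases Finset.mem_insert.1 hw with h | h
      · rw [h]; exact hz
      · rw [Finset.mem_singleton.1 h]; exact hz'
    have h2 := Finset.card_le_card h1
    rw [Finset.card_pair hne] at h2
    exact h2
  have h1 : (mk2 z z' P C fl g).1 ∈ lts X := (lts_two hcard).2 ⟨hz, hC.trans hP⟩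
  have hcn := card_nx h1
  have hb := blk_notMem hW hz C
  have hbP : blk z C ∉ P \ C := fun h => hb (hP (Finset.mem_sdiff.1 h).1)
  have hz'' : z' ∈ (nx X (mk2 z z' P C fl g).1).1 := Finset.mem_erase.2 ⟨hne.symm, hz'⟩
  have hsub : P \ C ⊆ X.2 \ C := Finset.sdiff_subset_sdiff hP le_rfl
  refine ⟨h1, ?_, ?_⟩
  · by_cases h2 : 2 ≤ (nx X (mk2 z z' P C fl g).1).1.card
    · refine (lts_two h2).2 ⟨hz'', ?_⟩
      cases fl with
      | true => exact hsub
      | false => exact Finset.insert_subset_insert _ hsub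
    · obtain ⟨h3, h4⟩ := hc (by omega)
      refine (lts_one (by omega)).2 ⟨hz'', ?_⟩
      subst h3
      subst h4
      cases fl with
      | true => rfl
      | false => rfl
  · have h5 : (X.2 \ C) \ (P \ C) = X.2 \ P := by
      ext B
      simp only [Finset.mem_sdiff]
      constructor
      · rintro ⟨⟨k1, k2⟩, k3⟩
        exact ⟨k1, fun k4 => k3 ⟨k4, k2⟩⟩
      · rintro ⟨k1, k2⟩
        exact ⟨⟨k1, fun k3 => k2 (hC k3)⟩, fun k3 => k2 k3.1⟩
    have h6 : (insert (blk z C) (X.2 \ C)) \ (insert (blk z C) (P \ C)) = X.2 \ P := by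
      rw [← h5]
      ext B
      simp only [Finset.mem_sdiff, Finset.mem_insert]
      constructor
      · rintro ⟨k1 | k1, k2⟩
        · exact absurd (Or.inl k1) k2
        · exact ⟨k1, fun k3 => k2 (Or.inr k3)⟩
      · rintro ⟨k1, k2⟩
        refine ⟨Or.inr k1, ?_⟩
        rintro (k3 | k3)
        · exact hb (k3 ▸ k1.1)
        · exact k2 k3
    refine Prod.ext rfl ?_
    cases fl with
    | true =>
      have hg : g = true := hfg rfl
      subst hg
      exact h5
    | false =>
      cases g with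
      | true => exact h6
      | false =>
        show insert (blk z' (insert (blk z C) (P \ C))) ((insert (blk z C) (X.2 \ C)) \ (insert (blk z C) (P \ C))) =
          insert (insert z' (insert z (P.biUnion id))) (X.2 \ P)
        rw [h6]
        congr 1
        ext w
        rw [mem_blk]
        simp only [Finset.mem_insert, Finset.mem_biUnion, id_eq, Finset.mem_sdiff]
        constructor
        · rintro (k1 | ⟨B, k1 | k1, k2⟩)
          · exact Or.inl k1
          · rw [k1, mem_blk] at k2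
            rcases k2 with k2 | ⟨D, k2, k3⟩
            · exact Or.inr (Or.inl k2)
            · exact Or.inr (Or.inr ⟨D, hC k2, k3⟩)
          · exact Or.inr (Or.inr ⟨B, k1.1, k2⟩)
        · rintro (k1 | k1 | ⟨B, k1, k2⟩)
          · exact Or.inl k1
          · exact Or.inr ⟨blk z C, Or.inl rfl, mem_blk.2 (Or.inl k1)⟩
          · by_cases k3 : B ∈ C
            · exact Or.inr ⟨blk z C, Or.inl rfl, mem_blk.2 (Or.inr ⟨B, k3, k2⟩)⟩
            · exact Or.inr ⟨B, Or.inr ⟨k1, k3⟩, k2⟩

private theorem SiteC_old {X : St} (hW : Wf X) {lx ly : Le} (hx : lx ∈ lts X) (hy : ly ∈ lts (nx X lx))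
    (hj : jt lx ly) :
    (lx, ly) = mk2 lx.1 ly.1 (pc lx ly) lx.2.1 lx.2.2 ly.2.2 ∧ (lx.2.2 = true → ly.2.2 = true) ∧
      (X.1.card = 2 → pc lx ly = X.2 ∧ ly.2.2 = true) := by
  obtain ⟨t, C, f⟩ := lx
  obtain ⟨s, D, g⟩ := ly
  have ht : t ∈ X.1 := lts_fst hx
  have hC : C ⊆ X.2 := lts_sub hx
  have hbt := blk_notMem hW ht C
  have hcard := card_nx hx
  have hD : D ⊆ (nx X (t, (C, f))).2 := lts_sub hy
  unfold jt at hj
  simp only at hj
  cases f with
  | true =>
    have hD' : D ⊆ X.2 \ C := hD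
    have hbD : blk t C ∉ D := fun h => hbt (Finset.mem_sdiff.1 (hD' h)).1
    have hg : g = true := by
      rcases hj with h | h
      · exact absurd h hbD
      · exact h.2
    have hpc : pc ((t, (C, true)) : Le) ((s, (D, g)) : Le) = C ∪ D := by
      show C ∪ D.erase (blk t C) = C ∪ D
      rw [Finset.erase_eq_of_notMem hbD]
    have hsd : (C ∪ D) \ C = D := by
      ext B
      simp only [Finset.mem_sdiff, Finset.mem_union]
      constructor
      · rintro ⟨k1 | k1, k2⟩
        · exact absurd k1 k2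
        · exact k1
      · intro k1
        exact ⟨Or.inr k1, (Finset.mem_sdiff.1 (hD' k1)).2⟩
    refine ⟨?_, fun _ => hg, fun h2 => ?_⟩
    · rw [hpc]
      show ((t, (C, true)), (s, (D, g))) = ((t, (C, true)), (s, ((C ∪ D) \ C, g)))
      rw [hsd]
    · have h1 := ((lts_one (by omega)).1 hy).2
      have h3 : D = X.2 \ C := congrArg Prod.fst h1
      refine ⟨?_, hg⟩
      rw [hpc, h3]
      exact Finset.union_sdiff_of_subset hC
  | false =>
    have hbD : blk t C ∈ D := by
      rcases hj with h | h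
      · exact h
      · exact absurd h.1 (by decide)
    have hD' : D.erase (blk t C) ⊆ X.2 \ C := by
      intro B hB
      obtain ⟨k1, k2⟩ := Finset.mem_erase.1 hB
      rcases Finset.mem_insert.1 (hD k2) with h2 | h2
      · exact absurd h2 k1
      · exact h2
    have hpc : pc ((t, (C, false)) : Le) ((s, (D, g)) : Le) = C ∪ D.erase (blk t C) := rfl
    have hsd : (C ∪ D.erase (blk t C)) \ C = D.erase (blk t C) := by
      ext B
      simp only [Finset.mem_sdiff, Finset.mem_union]
      constructor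
      · rintro ⟨k1 | k1, k2⟩
        · exact absurd k1 k2
        · exact k1
      · intro k1
        exact ⟨Or.inr k1, (Finset.mem_sdiff.1 (hD' k1)).2⟩
    refine ⟨?_, fun h => absurd h (by simp), fun h2 => ?_⟩
    · rw [hpc]
      show ((t, (C, false)), (s, (D, g))) =
        ((t, (C, false)), (s, (insert (blk t C) ((C ∪ D.erase (blk t C)) \ C), g)))
      rw [hsd, Finset.insert_erase hbD]
    · have h1 := ((lts_one (by omega)).1 hy).2
      have h3 : D = insert (blk t C) (X.2 \ C) := congrArg Prod.fst h1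
      have h4 : g = true := congrArg Prod.snd h1
      refine ⟨?_, h4⟩
      have h5 : D.erase (blk t C) = X.2 \ C := by
        rw [h3, Finset.erase_insert]
        exact fun h => hbt (Finset.mem_sdiff.1 h).1
      rw [hpc, h5]
      exact Finset.union_sdiff_of_subset hC

/-! ### weights -/

private theorem SiteC_wE {p q : ℕ} (hpq : p < q) (E : List (ℕ × ℕ)) {u : ℕ} {B : List ℕ} (hu : u ∉ B)
    (h : 0 < wE p q E u B) : 0 < 1 - yb (YE p q E) u B.toFinset := by
  have h1 := wE_yb hpq E hu
  have h2 : (0 : ℝ) < wE p q E u B := by exact_mod_cast h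
  have hq : (0 : ℝ) < (q : ℝ) ^ E.length := by
    have : 0 < q := by omega
    have : (0 : ℝ) < q := by exact_mod_cast this
    positivity
  rw [h1] at h2
  exact (mul_pos_iff_of_pos_left hq).1 h2

private theorem SiteC_fst {β γ : Type} (P : List β) (vs : List γ) (hl : P.length ≤ vs.length) (f : β × γ → Bool) :
    (((P.zip vs).filter f).map Prod.fst).Sublist P := by
  have h1 : (((P.zip vs).filter f).map Prod.fst).Sublist ((P.zip vs).map Prod.fst) :=
    List.Sublist.map _ List.filter_sublist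
  rw [List.map_fst_zip hl] at h1
  exact h1

private theorem SiteC_perm {β γ : Type} (P : List β) (vs : List γ) (hl : P.length ≤ vs.length) (f : β × γ → Bool) :
    (((P.zip vs).filter f).map Prod.fst ++ ((P.zip vs).filter fun x => !(f x)).map Prod.fst).Perm P := by
  rw [← List.map_append]
  have h1 := (List.filter_append_perm f (P.zip vs)).map Prod.fst
  rw [List.map_fst_zip hl] at h1
  exact h1

private theorem SiteC_cons (z : ℕ) (S S' : List (List ℕ)) :
    CF (blkL z S :: S') = insert (blk z (CF S)) (CF S') := by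
  have h1 : CF (blkL z S :: S') = insert (blkL z S).toFinset (CF S') := by
    unfold CF
    rw [List.map_cons, List.toFinset_cons]
  rw [h1, blkL_toFinset]

private theorem SiteC_joint {p q a1 a2 m v0 : ℕ} {vs : List ℕ} {V : List ℕ} {E : List (ℕ × ℕ)} (hpq : p < q)
    (ha2 : 0 < a2) {X : St} {x y : Lt} (hI : In V.toFinset X) (hW : Wf X) (hx : phiL x ∈ lts X)
    (hy : phiL y ∈ lts (nx X (phiL x))) (hgx : GB x.2.1) (hgy : GB y.2.1)
    (hpx : 0 < pr (YE p q E) (aR a1 a2) X (phiL x)) (hpy : 0 < pr (YE p q E) (aR a1 a2) (nx X (phiL x)) (phiL y))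
    (hl : (x.2.1 ++ rmL x.1 y.2.1).length ≤ vs.length) (hj : jt (phiL x) (phiL y)) {z z' : ℕ}
    (hzz : (z = x.1 ∧ z' = y.1) ∨ (z = y.1 ∧ z' = x.1)) {fl : Bool} (hfl : fl = true → y.2.2 = true) (x' y' : Lt)
    (h : newP p q a1 a2 V E m z z' fl y.2.2 ((x.2.1 ++ rmL x.1 y.2.1).zip vs) v0 = (true, (x', y'))) :
    GB x'.2.1 ∧ GB y'.2.1 ∧ phiL x' ∈ lts X ∧ phiL y' ∈ lts (nx X (phiL x')) ∧
      nx (nx X (phiL x')) (phiL y') = nx (nx X (phiL x)) (phiL y) ∧
      0 < pr (YE p q E) (aR a1 a2) X (phiL x') ∧ 0 < pr (YE p q E) (aR a1 a2) (nx X (phiL x')) (phiL y') := by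
  have hY : ∀ u v, |YE p q E u v| ≤ 1 := (lab_YE hpq E).abs_le
  have ha : 0 ≤ aR a1 a2 := by
    unfold aR
    positivity
  obtain ⟨-, hTX⟩ := SiteC_wl hY ha hpx
  obtain ⟨hwy, -⟩ := SiteC_wl hY ha hpy
  have hTW := pr_pos_T hY ha hpy
  have hcx := card_nx hx
  obtain ⟨ht, hs, hts, hpcX, hnot, -⟩ := pc_facts hW hx hy
  have hgP : GB (x.2.1 ++ rmL x.1 y.2.1) := GB_pieces hW hx hy hgx hgy
  have hCP : CF (x.2.1 ++ rmL x.1 y.2.1) = pc (phiL x) (phiL y) := CF_pieces hW hx hy
  obtain ⟨hold, hfg, hc2⟩ := SiteC_old hW hx hy hj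
  have hz : z ∈ X.1 := by
    rcases hzz with h1 | h1
    · rw [h1.1]; exact ht
    · rw [h1.1]; exact hs
  have hz' : z' ∈ X.1 := by
    rcases hzz with h1 | h1
    · rw [h1.2]; exact hs
    · rw [h1.2]; exact ht
  have hne : z ≠ z' := by
    rcases hzz with h1 | h1
    · rw [h1.1, h1.2]; exact hts
    · rw [h1.1, h1.2]; exact hts.symm
  have hzn : ∀ B ∈ pc (phiL x) (phiL y), z ∉ B ∧ z' ∉ B := by
    intro B hB
    have h2 := hnot B hB
    rcases hzz with h1 | h1
    · rw [h1.1, h1.2]; exact h2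
    · rw [h1.1, h1.2]; exact h2.symm
  unfold newP at h
  simp only [Prod.mk.injEq, Bool.and_eq_true, decide_eq_true_eq] at h
  obtain ⟨⟨hA, -, -, hv0⟩, hx', hy'⟩ := h
  have hperm := SiteC_perm _ vs hl (toF p q E m z z')
  have hS := SiteC_fst _ vs hl (toF p q E m z z')
  have hS' := SiteC_fst _ vs hl (fun w => !(toF p q E m z z' w))
  have hmS : ∀ L ∈ (((x.2.1 ++ rmL x.1 y.2.1).zip vs).filter (toF p q E m z z')).map Prod.fst,
      0 < wE p q E z L := by
    intro L hL
    obtain ⟨w, hw, rfl⟩ := List.mem_map.1 hL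
    have h1 := (List.mem_filter.1 hw).2
    unfold toF at h1
    have h2 := of_decide_eq_true h1
    rcases Nat.eq_zero_or_pos (wE p q E z w.1) with h3 | h3
    · rw [h3, Nat.mul_zero] at h2
      exact absurd h2 (Nat.not_lt_zero _)
    · exact h3
  have hmS' : ∀ L ∈ (((x.2.1 ++ rmL x.1 y.2.1).zip vs).filter (fun w => !(toF p q E m z z' w))).map Prod.fst,
      0 < wE p q E z' L := by
    intro L hL
    obtain ⟨w, hw, rfl⟩ := List.mem_map.1 hL
    obtain ⟨hw1, hw2⟩ := List.mem_filter.1 hw
    have h1 := List.all_eq_true.1 hA w hw1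
    unfold toA at h1
    have h2 := of_decide_eq_true h1
    have h3 : ¬ (w.2 < kJ p q E m z z' w.1 * wE p q E z w.1) := by
      intro h4
      have h5 : toF p q E m z z' w = true := decide_eq_true h4
      rw [h5] at hw2
      exact absurd hw2 (by decide)
    rcases Nat.eq_zero_or_pos (wE p q E z' w.1) with h4 | h4
    · rw [h4, Nat.add_zero] at h2
      exact absurd h2 h3
    · exact h4
  generalize hSd : (((x.2.1 ++ rmL x.1 y.2.1).zip vs).filter (toF p q E m z z')).map Prod.fst = S at *
  generalize hSd' : (((x.2.1 ++ rmL x.1 y.2.1).zip vs).filter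
    (fun w => !(toF p q E m z z' w))).map Prod.fst = S' at *
  obtain ⟨hcS', hcS⟩ := CF_compl hgP hperm
  rw [hCP] at hcS' hcS
  have hgS : GB S := GB_sub hgP hS
  have hgS' : GB S' := GB_sub hgP hS'
  have hCX : CF (x.2.1 ++ rmL x.1 y.2.1) ⊆ X.2 := by
    rw [hCP]
    exact hpcX
  obtain ⟨hbn, -, -⟩ := blkL_ok hI hW hz hCX hgP hS
  have hpx' : phiL x' = (mk2 z z' (pc (phiL x) (phiL y)) (CF S) fl y.2.2).1 := by
    rw [← hx']
    rfl
  have hpy' : phiL y' = (mk2 z z' (pc (phiL x) (phiL y)) (CF S) fl y.2.2).2 := by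
    rw [← hy']
    cases fl with
    | true =>
      show ((z', (CF S', y.2.2)) : Le) = (z', (pc (phiL x) (phiL y) \ CF S, y.2.2))
      rw [hcS']
    | false =>
      show ((z', (CF (blkL z S :: S'), y.2.2)) : Le) =
        (z', (insert (blk z (CF S)) (pc (phiL x) (phiL y) \ CF S), y.2.2))
      rw [SiteC_cons, hcS']
  obtain ⟨k1, k2, k3⟩ := SiteC_mk hW hz hz' hne hpcX hcS hfl hc2
  have hCx : (phiL x).2.1 ⊆ pc (phiL x) (phiL y) := Finset.subset_union_left
  obtain ⟨-, -, k4⟩ := SiteC_mk hW ht hs hts hpcX hCx hfg hc2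
  have e1 := congrArg Prod.fst hold
  have e2 := congrArg Prod.snd hold
  simp only at e1 e2
  have k5 : nx (nx X (phiL x)) (phiL y) = ((X.1.erase x.1).erase y.1, if y.2.2 then X.2 \ pc (phiL x) (phiL y) else
      insert (insert y.1 (insert x.1 ((pc (phiL x) (phiL y)).biUnion id))) (X.2 \ pc (phiL x) (phiL y))) := by
    refine Eq.trans ?_ k4
    exact congrArg₂ nx (congrArg (nx X) e1) e2
  have k6 : nx (nx X (phiL x')) (phiL y') = nx (nx X (phiL x)) (phiL y) := by
    rw [hpx', hpy', k3, k5]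
    rcases hzz with h1 | h1
    · rw [h1.1, h1.2]
    · rw [h1.1, h1.2, Finset.erase_right_comm, Finset.insert_comm]
  have m1 : phiL x' ∈ lts X := by
    rw [hpx']
    exact k1
  have m2 : phiL y' ∈ lts (nx X (phiL x')) := by
    rw [hpx', hpy']
    exact k2
  have hcx' := card_nx m1
  have w1 : 0 < wl (YE p q E) (aR a1 a2) X (phiL x') := by
    rw [← hx']
    refine mul_pos (Finset.prod_pos fun B hB => ?_) ?_
    · obtain ⟨L, hL, rfl⟩ := mem_CF.1 hB
      refine SiteC_wE hpq E ?_ (hmS L hL)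
      have h1 := (hzn _ (hcS hB)).1
      rwa [List.mem_toFinset] at h1
    · show (0 : ℝ) < if fl = true ∧ 2 ≤ X.1.card then aR a1 a2 else 1
      split_ifs with h1
      · rw [if_pos h1.1] at hv0
        have h2 : 0 < a1 := by
          rcases Nat.eq_zero_or_pos a1 with h3 | h3
          · rw [h3, Nat.zero_mul] at hv0
            exact absurd hv0 (Nat.not_lt_zero _)
          · exact h3
        unfold aR
        positivity
      · exact one_pos
  have w2' : 0 < wl (YE p q E) (aR a1 a2) (nx X (phiL x')) (phiL y') := by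
    refine mul_pos (Finset.prod_pos fun B hB => ?_) ?_
    · rw [hpy'] at hB ⊢
      show 0 < 1 - yb (YE p q E) z' B
      have h0 : B ∈ CF S' → 0 < 1 - yb (YE p q E) z' B := by
        intro hB'
        obtain ⟨L, hL, rfl⟩ := mem_CF.1 hB'
        refine SiteC_wE hpq E ?_ (hmS' L hL)
        rw [hcS'] at hB'
        have h1 := (hzn _ (Finset.mem_sdiff.1 hB').1).2
        rwa [List.mem_toFinset] at h1
      cases fl with
      | true =>
        refine h0 ?_
        rw [hcS']
        exact hB
      | false =>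
        rcases Finset.mem_insert.1 hB with h1 | h1
        · rw [h1, ← blkL_toFinset]
          rw [if_neg (by decide)] at hv0
          refine SiteC_wE hpq E ?_ ?_
          · rw [← List.mem_toFinset, blkL_toFinset, mem_blk]
            rintro (h2 | ⟨D, h2, h3⟩)
            · exact hne h2.symm
            · exact (hzn D (hcS h2)).2 h3
          · rcases Nat.eq_zero_or_pos (wE p q E z' (blkL z S)) with h3 | h3
            · rw [h3, Nat.mul_zero] at hv0
              exact absurd hv0 (Nat.not_lt_zero _)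
            · exact h3
        · refine h0 ?_
          rw [hcS']
          exact h1
    · have h1 : (0 : ℝ) < if y.2.2 = true ∧ 2 ≤ (nx X (phiL x)).1.card then aR a1 a2 else 1 := by
        by_contra hh
        have h2 : wl (YE p q E) (aR a1 a2) (nx X (phiL x)) (phiL y) ≤ 0 :=
          mul_nonpos_of_nonneg_of_nonpos (cc_nonneg hY _ _) (not_lt.1 hh)
        exact absurd hwy (not_lt.2 h2)
      have h2 : (phiL y').2.2 = y.2.2 := by
        rw [hpy']
        rfl
      have h3 : (nx X (phiL x')).1.card = (nx X (phiL x)).1.card := by omega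
      rw [h2, h3]
      exact h1
  have hTW' : 0 < T (YE p q E) (aR a1 a2) (nx (nx X (phiL x')) (phiL y')) := by
    rw [k6]
    exact hTW
  refine ⟨?_, ?_, m1, m2, k6, SiteC_pos hY ha hTX m1 m2 w1 w2' hTW'⟩
  · rw [← hx']
    exact hgS
  · rw [← hy']
    show GB (if fl = true then S' else blkL z S :: S')
    split_ifs with h1
    · exact hgS'
    · refine ⟨?_, ?_⟩
      · intro B hB
        rcases List.mem_cons.1 hB with h2 | h2
        · rw [h2]
          exact hbn
        · exact hgS'.1 B h2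
      · rw [List.map_cons, List.nodup_cons]
        refine ⟨?_, hgS'.2⟩
        intro h2
        have h3 : (blkL z S).toFinset ∈ CF S' := by
          unfold CF
          rw [List.mem_toFinset]
          exact h2
        rw [hcS', blkL_toFinset] at h3
        exact (hzn _ (Finset.mem_sdiff.1 h3).1).1 (mem_blk.2 (Or.inl rfl))

theorem pair_ok {p q a1 a2 c u2 v0 : ℕ} {vs : List ℕ} {V : List ℕ} {E : List (ℕ × ℕ)} (hpq : p < q) (ha2 : 0 < a2)
    (hG : Gr V E) {X : St} {x y : Lt} (hI : In V.toFinset X) (hW : Wf X) (hx : phiL x ∈ lts X)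
    (hy : phiL y ∈ lts (nx X (phiL x))) (hgx : GB x.2.1) (hgy : GB y.2.1)
    (hpx : 0 < pr (YE p q E) (aR a1 a2) X (phiL x)) (hpy : 0 < pr (YE p q E) (aR a1 a2) (nx X (phiL x)) (phiL y))
    (hl : (x.2.1 ++ rmL x.1 y.2.1).length ≤ vs.length) (x' y' : Lt)
    (h : pairS p q a1 a2 V E (2 ^ c) u2 vs v0 x y = (true, (x', y'))) :
    GB x'.2.1 ∧ GB y'.2.1 ∧ phiL x' ∈ lts X ∧ phiL y' ∈ lts (nx X (phiL x')) ∧
      nx (nx X (phiL x')) (phiL y') = nx (nx X (phiL x)) (phiL y) ∧
      0 < pr (YE p q E) (aR a1 a2) X (phiL x') ∧ 0 < pr (YE p q E) (aR a1 a2) (nx X (phiL x')) (phiL y') := by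
  by_cases hcond : (jnL x.1 y.2.1 || (x.2.2 && y.2.2)) = true
  · unfold pairS at h
    rw [if_pos hcond] at h
    have hj : jt (phiL x) (phiL y) := by
      rw [Bool.or_eq_true, Bool.and_eq_true] at hcond
      rcases hcond with h1 | h1
      · exact Or.inl ((jn_iff hW hx hy).1 h1)
      · exact Or.inr h1
    refine SiteC_joint hpq ha2 hI hW hx hy hgx hgy hpx hpy hl hj ?_ ?_ x' y' h
    · by_cases hu : (u2 == 1 || u2 == 3) = true
      · right
        rw [if_pos hu, if_pos hu]
        exact ⟨rfl, rfl⟩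
      · left
        rw [if_neg hu, if_neg hu]
        exact ⟨rfl, rfl⟩
    · intro h1
      rw [Bool.and_eq_true] at h1
      exact h1.2
  · unfold pairS at h
    rw [if_neg hcond] at h
    simp only [Prod.mk.injEq] at h
    obtain ⟨-, hx', hy'⟩ := h
    subst hx'
    subst hy'
    rw [Bool.or_eq_true, Bool.and_eq_true, not_or] at hcond
    obtain ⟨hc1, hc2⟩ := hcond
    have hY : ∀ u v, |YE p q E u v| ≤ 1 := (lab_YE hpq E).abs_le
    have ha : 0 ≤ aR a1 a2 := by
      unfold aR
      positivity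
    obtain ⟨hwx, hTX⟩ := SiteC_wl hY ha hpx
    obtain ⟨hwy, -⟩ := SiteC_wl hY ha hpy
    have hTW := pr_pos_T hY ha hpy
    have hcx := card_nx hx
    have hb : blk (phiL x).1 (phiL x).2.1 ∉ (phiL y).2.1 := fun h1 => hc1 ((jn_iff hW hx hy).2 h1)
    obtain ⟨h3, m1, m2, k6⟩ := SiteC_swap hW hx hy hb hc2
    have hcy := card_nx m1
    have w1 : 0 < wl (YE p q E) (aR a1 a2) X (phiL y) := by
      have h1 : wl (YE p q E) (aR a1 a2) X (phiL y) = wl (YE p q E) (aR a1 a2) (nx X (phiL x)) (phiL y) := by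
        unfold wl
        congr 1
        refine if_congr ?_ rfl rfl
        constructor
        · intro h2
          exact ⟨h2.1, by omega⟩
        · intro h2
          exact ⟨h2.1, by omega⟩
      rw [h1]
      exact hwy
    have w2' : 0 < wl (YE p q E) (aR a1 a2) (nx X (phiL y)) (phiL x) := by
      have h1 : wl (YE p q E) (aR a1 a2) (nx X (phiL y)) (phiL x) = wl (YE p q E) (aR a1 a2) X (phiL x) := by
        unfold wl
        congr 1
        refine if_congr ?_ rfl rfl
        constructor
        · intro h2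
          exact ⟨h2.1, by omega⟩
        · intro h2
          exact ⟨h2.1, by omega⟩
      rw [h1]
      exact hwx
    have hTW' : 0 < T (YE p q E) (aR a1 a2) (nx (nx X (phiL y)) (phiL x)) := by
      rw [k6]
      exact hTW
    exact ⟨hgy, hgx, m1, m2, k6, SiteC_pos hY ha hTX m1 m2 w1 w2' hTW'⟩

end BSI.M
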