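import Pool.Agent.BSI.SiteB
import Pool.Agent.BSI.SiteC
import Pool.Agent.BSI.Bas

/-!
# BSI machine layer, Site: the law of one step

PLAN. `pos_get`: induction on `i`, generalising `X st`. `pos_set`: the same induction. `pos_step`: `stU u st` is `st` or `st` with the letters `i`, `i + 1` replaced by an accepted pair: `pos_get`, `pair_ok`, `pos_set`. `site_law`: `KK` is the sum over `u = (u1, (u2, (v, v0)))` divided by the cardinality; for fixed `u1 = i` with
`i + 1 < st.length` the sum over the rest of `F(Phi new) - F(Phi old)` is `SP .. x y H` with `H xy = F (rep2 (Phi st) i xy) - F (Phi st)` (`Phi (st.set ..) = (Phi st).set ..`, `List.map_set`), then `law_pair_jt` or `law_pair_sw`; `Phi st` has the length of `st`, `(Phi st).getD i le0 = phiL (st.getD i (0, ([], false)))` for `i < length`; the other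
`u1` give `0`; `st.length = V.length ≤ 2 ^ b` (`pos_length`).
-/

set_option autoImplicit false

namespace BSI.M

open Finset ACY

theorem pos_length {Y : ℕ → ℕ → ℝ} {a : ℝ} {X : St} {l : List Le} (h : Pos Y a X l) : l.length = X.1.card := by
  induction l generalizing X with
  | nil =>
    have h1 : X.1 = ∅ := h
    rw [h1]
    rfl
  | cons x m ih =>
    obtain ⟨h1, -, h3⟩ := h
    rw [List.length_cons, ih h3, card_nx h1]

private theorem Site_In_nx {V : Finset ℕ} {X : St} {l : Le} (hI : In V X) (hl : l ∈ lts X) : In V (nx X l) := by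
  have h0 : l.1 ∈ V := hI.1 (lts_fst hl)
  refine ⟨fun x hx => hI.1 (Finset.mem_of_mem_erase hx), fun B hB => ?_⟩
  have hB' : B ∈ (if l.2.2 then X.2 \ l.2.1 else insert (blk l.1 l.2.1) (X.2 \ l.2.1)) := hB
  split_ifs at hB'
  · exact hI.2 B (Finset.mem_sdiff.1 hB').1
  · rcases Finset.mem_insert.1 hB' with h | h
    · rw [h]
      intro x hx
      rcases mem_blk.1 hx with h1 | ⟨C, hC, h1⟩
      · rw [h1]
        exact h0
      · exact hI.2 C (lts_sub hl hC) h1
    · exact hI.2 B (Finset.mem_sdiff.1 h).1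

theorem pos_get {Y : ℕ → ℕ → ℝ} {a : ℝ} {V : Finset ℕ} {X : St} {st : List Lt} (hI : In V X) (hW : Wf X)
    (hst : Pos Y a X (Phi st)) (i : ℕ) (hi : i + 1 < st.length) :
    ∃ X' : St, In V X' ∧ Wf X' ∧ phiL (st.getD i (0, ([], false))) ∈ lts X' ∧
      phiL (st.getD (i + 1) (0, ([], false))) ∈ lts (nx X' (phiL (st.getD i (0, ([], false))))) ∧
      0 < pr Y a X' (phiL (st.getD i (0, ([], false)))) ∧
      0 < pr Y a (nx X' (phiL (st.getD i (0, ([], false))))) (phiL (st.getD (i + 1) (0, ([], false)))) ∧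
      ∀ x' y' : Lt, phiL x' ∈ lts X' → phiL y' ∈ lts (nx X' (phiL x')) →
        nx (nx X' (phiL x')) (phiL y') = nx (nx X' (phiL (st.getD i (0, ([], false))))) (phiL (st.getD (i + 1) (0, ([], false)))) →
        0 < pr Y a X' (phiL x') → 0 < pr Y a (nx X' (phiL x')) (phiL y') → Pos Y a X (Phi ((st.set i x').set (i + 1) y')) := by
  induction i generalizing X st with
  | zero =>
    rcases st with _ | ⟨x, _ | ⟨y, m⟩⟩
    · exact absurd hi (by simp)
    · exact absurd hi (by simp)
    · obtain ⟨h1, h2, h3, h4, h5⟩ := hst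
      refine ⟨X, hI, hW, h1, h3, h2, h4, ?_⟩
      intro x' y' hx' hy' hn hpx hpy
      refine ⟨hx', hpx, hy', hpy, ?_⟩
      show Pos Y a (nx (nx X (phiL x')) (phiL y')) (Phi m)
      rw [hn]
      exact h5
  | succ i ih =>
    rcases st with _ | ⟨x, m⟩
    · exact absurd hi (by simp)
    · obtain ⟨h1, h2, h3⟩ := hst
      obtain ⟨X', g1, g2, g3, g4, g5, g6, g7⟩ := ih (Site_In_nx hI h1) (Wf_nx hW h1) h3 (by simpa using hi)
      refine ⟨X', g1, g2, g3, g4, g5, g6, ?_⟩
      intro x' y' hx' hy' hn hpx hpy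
      exact ⟨h1, h2, g7 x' y' hx' hy' hn hpx hpy⟩

private theorem Site_In0 (V : Finset ℕ) : In V (V, ∅) :=
  ⟨Finset.Subset.refl _, fun B hB => absurd hB (Finset.notMem_empty B)⟩

private theorem Site_Wf0 (V : Finset ℕ) : Wf (V, ∅) :=
  ⟨fun B hB => absurd hB (Finset.notMem_empty B), fun B hB => absurd hB (Finset.notMem_empty B),
    fun B hB => absurd hB (Finset.notMem_empty B)⟩

private theorem Site_mem {st : List Lt} {i : ℕ} (hi : i < st.length) : st.getD i (0, ([], false)) ∈ st := by
  rw [List.getD_eq_getElem _ _ hi]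
  exact List.getElem_mem hi

private theorem Site_getD (st : List Lt) (i : ℕ) :
    (Phi st).getD i le0 = phiL (st.getD i (0, ([], false))) :=
  List.getD_map st (0, ([], false)) phiL

theorem pos_step {p q a1 a2 b c : ℕ} {V : List ℕ} {E : List (ℕ × ℕ)} (hpq : p < q) (ha2 : 0 < a2) (hG : Gr V E)
    {st : List Lt} (hst : Pos (YE p q E) (aR a1 a2) (V.toFinset, ∅) (Phi st)) (hv : VS st) (u : UU b c V.length) :
    Pos (YE p q E) (aR a1 a2) (V.toFinset, ∅) (Phi (stU p q a1 a2 V E b c u st)) ∧ VS (stU p q a1 a2 V E b c u st) := by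
  unfold stU stepL
  split_ifs with hc
  · rw [Bool.and_eq_true, decide_eq_true_eq] at hc
    obtain ⟨h1, h2⟩ := hc
    obtain ⟨X', g1, g2, g3, g4, g5, g6, g7⟩ := pos_get (Site_In0 _) (Site_Wf0 _) hst _ h1
    have hgx := hv _ (Site_mem (st := st) (i := u.1) (by omega))
    have hgy := hv _ (Site_mem (st := st) (i := u.1 + 1) h1)
    have hl := (len_pieces g1 g2 g3 g4 hgx hgy).1
    obtain ⟨q1, q2, q3, q4, q5, q6, q7⟩ := pair_ok hpq ha2 hG g1 g2 g3 g4 hgx hgy g5 g6
      (le_trans hl (le_of_eq List.length_ofFn.symm)) _ _ (Prod.ext h2 rfl)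
    refine ⟨g7 _ _ q3 q4 q5 q6 q7, ?_⟩
    intro z hz
    rcases List.mem_or_eq_of_mem_set hz with hz | hz
    · rcases List.mem_or_eq_of_mem_set hz with hz | hz
      · exact hv z hz
      · rw [hz]
        exact q1
    · rw [hz]
      exact q2
  · exact ⟨hst, hv⟩

theorem site_law {p q a1 a2 b c : ℕ} {V : List ℕ} {E : List (ℕ × ℕ)} (hpq : p < q) (ha2 : 0 < a2) (hG : Gr V E)
    (hb : V.length ≤ 2 ^ b) (hc : 8 * (V.length + 1) * (a1 + a2) * q ^ E.length ≤ 2 ^ c)
    {st : List Lt} (hst : Pos (YE p q E) (aR a1 a2) (V.toFinset, ∅) (Phi st)) (hv : VS st) (F : List Le → ℝ) :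
    KK (stU p q a1 a2 V E b c) (fun x => F (Phi x)) st =
      KL (YE p q E) (aR a1 a2) (kapM p q a2 V E b c) (ksM q a2 V E b c) F (Phi st) := by
  classical
  have hlen : st.length = V.length := by
    have h1 := pos_length hst
    unfold Phi at h1
    rw [List.length_map] at h1
    rw [h1]
    exact List.toFinset_card_of_nodup hG.1
  have hB : st.length ≤ 2 ^ b := by
    rw [hlen]
    exact hb
  have hN0 : 0 < Fintype.card (UU b c V.length) := by
    rw [Fintype.card_prod, Fintype.card_prod, Fintype.card_prod, Fintype.card_fin, Fintype.card_fin,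
      Fintype.card_fun, Fintype.card_fin, Fintype.card_fin]
    positivity
  have hN : (Fintype.card (UU b c V.length) : ℝ) ≠ 0 := by
    exact_mod_cast hN0.ne'
  have e0 : KK (stU p q a1 a2 V E b c) (fun x => F (Phi x)) st = F (Phi st) +
      (∑ u : UU b c V.length, (F (Phi (stU p q a1 a2 V E b c u st)) - F (Phi st))) /
        (Fintype.card (UU b c V.length) : ℝ) := by
    unfold KK
    rw [Finset.sum_sub_distrib, Finset.sum_const, Finset.card_univ, nsmul_eq_mul, sub_div,
      mul_div_cancel_left₀ _ hN]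
    ring
  have e1 : ∑ u : UU b c V.length, (F (Phi (stU p q a1 a2 V E b c u st)) - F (Phi st)) =
      ∑ i ∈ range (2 ^ b), (if i + 1 < st.length then
        SP p q a1 a2 V E c (st.getD i (0, ([], false))) (st.getD (i + 1) (0, ([], false)))
          (fun xy => F (rep2 (Phi st) i xy) - F (Phi st)) else 0) := by
    rw [Fintype.sum_prod_type, Finset.sum_range]
    refine Finset.sum_congr rfl fun i _ => ?_
    split_ifs with h
    · unfold SP
      refine Finset.sum_congr rfl fun w _ => ?_
      show F (Phi (stepL p q a1 a2 V E (2 ^ c) i w.1 (List.ofFn fun i => (w.2.1 i : ℕ)) w.2.2 st)) -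
        F (Phi st) = _
      unfold stepL
      by_cases hp : (pairS p q a1 a2 V E (2 ^ c) w.1 (List.ofFn fun i => (w.2.1 i : ℕ)) w.2.2
          (st.getD i (0, ([], false))) (st.getD (i + 1) (0, ([], false)))).1 = true
      · rw [if_pos (by rw [Bool.and_eq_true, decide_eq_true_eq]; exact ⟨h, hp⟩), if_pos hp]
        unfold rep2 Phi
        rw [List.map_set, List.map_set]
      · rw [if_neg (by rw [Bool.and_eq_true]; exact fun h2 => hp h2.2), if_neg hp, sub_self]
    · refine Finset.sum_eq_zero fun w _ => ?_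
      show F (Phi (stepL p q a1 a2 V E (2 ^ c) i w.1 (List.ofFn fun i => (w.2.1 i : ℕ)) w.2.2 st)) -
        F (Phi st) = 0
      unfold stepL
      rw [if_neg (by rw [Bool.and_eq_true, decide_eq_true_eq]; exact fun h2 => h h2.1), sub_self]
  have e2 : ∀ G : ℕ → ℝ, ∑ i ∈ range (2 ^ b), (if i + 1 < st.length then G i else 0) =
      ∑ i ∈ range (st.length - 1), G i := by
    intro G
    rw [← Finset.sum_filter]
    refine Finset.sum_congr ?_ fun _ _ => rfl
    ext i
    rw [Finset.mem_filter, Finset.mem_range, Finset.mem_range]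
    constructor
    · rintro ⟨-, h⟩
      omega
    · intro h
      exact ⟨lt_of_lt_of_le (by omega : i < st.length) hB, by omega⟩
  rw [e0, e1, e2]
  unfold KL
  have hl1 : (Phi st).length = st.length := List.length_map _
  rw [hl1, Finset.sum_div]
  congr 1
  refine Finset.sum_congr rfl fun i hi => ?_
  have hi' : i + 1 < st.length := by
    have := Finset.mem_range.1 hi
    omega
  obtain ⟨X', g1, g2, g3, g4, g5, g6, -⟩ := pos_get (Site_In0 _) (Site_Wf0 _) hst i hi'
  have hgx := hv _ (Site_mem (st := st) (i := i) (by omega))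
  have hgy := hv _ (Site_mem (st := st) (i := i + 1) hi')
  rw [Site_getD, Site_getD]
  unfold KLs
  by_cases hj : jt (phiL (st.getD i (0, ([], false)))) (phiL (st.getD (i + 1) (0, ([], false))))
  · rw [if_pos hj, law_pair_jt hpq ha2 hG hc g1 g2 g3 g4 hgx hgy hj, mul_div_right_comm]
    rfl
  · rw [if_neg hj, law_pair_sw hpq hc g2 g3 g4 hj, mul_div_right_comm]
    rfl

theorem site_iter {p q a1 a2 b c : ℕ} {V : List ℕ} {E : List (ℕ × ℕ)} (hpq : p < q) (ha2 : 0 < a2) (hG : Gr V E)
    (hb : V.length ≤ 2 ^ b) (hc : 8 * (V.length + 1) * (a1 + a2) * q ^ E.length ≤ 2 ^ c)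
    {st : List Lt} (hst : Pos (YE p q E) (aR a1 a2) (V.toFinset, ∅) (Phi st)) (hv : VS st) (F : List Le → ℝ) (T : ℕ) :
    (KK (stU p q a1 a2 V E b c))^[T] (fun x => F (Phi x)) st =
      (KL (YE p q E) (aR a1 a2) (kapM p q a2 V E b c) (ksM q a2 V E b c))^[T] F (Phi st) := by
  induction T generalizing st with
  | zero => rfl
  | succ T ih =>
    rw [Function.iterate_succ_apply', Function.iterate_succ_apply']
    rw [← site_law hpq ha2 hG hb hc hst hv]
    unfold KK
    congr 1
    refine Finset.sum_congr rfl fun u _ => ?_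
    obtain ⟨h1, h2⟩ := pos_step (a1 := a1) hpq ha2 hG hst hv u
    exact ih h1 h2

end BSI.M
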