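import Pool.Agent.BSI.Phi
import Pool.Agent.BSI.Bas

/-!
# BSI machine layer, SiteA: two consecutive letters of a state

Elementary facts on the pieces of two consecutive letters of the machine and on the new blocks.
-/

set_option autoImplicit false

namespace BSI.M

open Finset

theorem mem_CF {C : List (List ℕ)} {B : Finset ℕ} : B ∈ CF C ↔ ∃ L ∈ C, L.toFinset = B := by
  unfold CF
  rw [List.mem_toFinset, List.mem_map]

theorem blkL_toFinset (t : ℕ) (C : List (List ℕ)) : (blkL t C).toFinset = blk t (CF C) := by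
  ext x
  unfold blkL
  rw [List.mem_toFinset, List.mem_cons, mem_blk, List.mem_flatten]
  refine or_congr Iff.rfl ⟨?_, ?_⟩
  · rintro ⟨L, hL, hx⟩
    exact ⟨L.toFinset, mem_CF.2 ⟨L, hL, rfl⟩, List.mem_toFinset.2 hx⟩
  · rintro ⟨B, hB, hx⟩
    obtain ⟨L, hL, rfl⟩ := mem_CF.1 hB
    exact ⟨L, hL, List.mem_toFinset.1 hx⟩

private theorem SiteA_nx {X : St} {x y : Lt} (hy : phiL y ∈ lts (nx X (phiL x))) {B : Finset ℕ}
    (hB : B ∈ (phiL y).2.1) : (B ∈ X.2 ∧ B ∉ (phiL x).2.1) ∨ B = blk x.1 (phiL x).2.1 := by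
  have h1 := lts_sub hy hB
  unfold nx at h1
  dsimp only at h1
  split_ifs at h1
  · exact Or.inl (Finset.mem_sdiff.1 h1)
  · rcases Finset.mem_insert.1 h1 with h2 | h2
    · exact Or.inr h2
    · exact Or.inl (Finset.mem_sdiff.1 h2)

/-- the pieces do not contain the two vertices and are disjoint -/
theorem pc_facts {X : St} {x y : Lt} (hW : Wf X) (hx : phiL x ∈ lts X) (hy : phiL y ∈ lts (nx X (phiL x))) :
    x.1 ∈ X.1 ∧ y.1 ∈ X.1 ∧ x.1 ≠ y.1 ∧ pc (phiL x) (phiL y) ⊆ X.2 ∧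
      (∀ B ∈ pc (phiL x) (phiL y), x.1 ∉ B ∧ y.1 ∉ B) ∧
      Disjoint (phiL x).2.1 ((phiL y).2.1.erase (blk x.1 (phiL x).2.1)) := by
  have h1 : x.1 ∈ X.1 := lts_fst hx
  have h2 : y.1 ∈ X.1.erase x.1 := lts_fst hy
  have h3 := Finset.mem_of_mem_erase h2
  have h4 : ∀ B ∈ (phiL y).2.1.erase (blk x.1 (phiL x).2.1), B ∈ X.2 ∧ B ∉ (phiL x).2.1 := by
    intro B hB
    rcases SiteA_nx hy (Finset.mem_of_mem_erase hB) with h | h
    · exact h
    · exact absurd h (Finset.ne_of_mem_erase hB)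
  have h5 : pc (phiL x) (phiL y) ⊆ X.2 := by
    intro B hB
    rcases Finset.mem_union.1 hB with h | h
    · exact lts_sub hx h
    · exact (h4 B h).1
  refine ⟨h1, h3, (Finset.ne_of_mem_erase h2).symm, h5, fun B hB => ?_, ?_⟩
  · have h6 := Finset.disjoint_left.1 (hW.dR B (h5 hB))
    exact ⟨fun h => h6 h h1, fun h => h6 h h3⟩
  · rw [Finset.disjoint_left]
    intro B hB hB'
    exact (h4 B hB').2 hB

private theorem SiteA_mem {X : St} {x y : Lt} (hW : Wf X) (hx : phiL x ∈ lts X) (hy : phiL y ∈ lts (nx X (phiL x)))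
    {B : Finset ℕ} (hB : B ∈ (phiL y).2.1) : x.1 ∈ B ↔ B = blk x.1 (phiL x).2.1 := by
  constructor
  · intro h
    rcases SiteA_nx hy hB with h1 | h1
    · exact absurd (lts_fst hx) (Finset.disjoint_left.1 (hW.dR B h1.1) h)
    · exact h1
  · rintro rfl
    exact mem_blk.2 (Or.inl rfl)

theorem jn_iff {X : St} {x y : Lt} (hW : Wf X) (hx : phiL x ∈ lts X) (hy : phiL y ∈ lts (nx X (phiL x))) :
    jnL x.1 y.2.1 = true ↔ blk x.1 (phiL x).2.1 ∈ (phiL y).2.1 := by
  unfold jnL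
  rw [List.any_eq_true]
  constructor
  · rintro ⟨L, hL, ht⟩
    have h1 : L.toFinset ∈ (phiL y).2.1 := mem_CF.2 ⟨L, hL, rfl⟩
    have h2 : x.1 ∈ L.toFinset := List.mem_toFinset.2 (List.contains_iff_mem.1 ht)
    rw [← (SiteA_mem hW hx hy h1).1 h2]
    exact h1
  · intro h
    obtain ⟨L, hL, h1⟩ := mem_CF.1 h
    refine ⟨L, hL, List.contains_iff_mem.2 (List.mem_toFinset.1 ?_)⟩
    rw [h1]
    exact mem_blk.2 (Or.inl rfl)

private theorem SiteA_rm {t : ℕ} {D : List (List ℕ)} {B : Finset ℕ} : B ∈ CF (rmL t D) ↔ B ∈ CF D ∧ t ∉ B := by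
  rw [mem_CF, mem_CF]
  unfold rmL
  constructor
  · rintro ⟨L, hL, rfl⟩
    obtain ⟨h1, h2⟩ := List.mem_filter.1 hL
    refine ⟨⟨L, h1, rfl⟩, fun h => ?_⟩
    rw [List.contains_iff_mem.2 (List.mem_toFinset.1 h)] at h2
    exact absurd h2 (by decide)
  · rintro ⟨⟨L, hL, rfl⟩, h⟩
    refine ⟨L, List.mem_filter.2 ⟨hL, ?_⟩, rfl⟩
    cases hc : L.contains t
    · rfl
    · exact absurd (List.mem_toFinset.2 (List.contains_iff_mem.1 hc)) h

theorem CF_rm {X : St} {x y : Lt} (hW : Wf X) (hx : phiL x ∈ lts X) (hy : phiL y ∈ lts (nx X (phiL x))) :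
    CF (rmL x.1 y.2.1) = (phiL y).2.1.erase (blk x.1 (phiL x).2.1) := by
  ext B
  rw [SiteA_rm, Finset.mem_erase]
  constructor
  · rintro ⟨h1, h2⟩
    exact ⟨fun h => h2 ((SiteA_mem hW hx hy h1).2 h), h1⟩
  · rintro ⟨h1, h2⟩
    exact ⟨h2, fun h => h1 ((SiteA_mem hW hx hy h2).1 h)⟩

private theorem SiteA_app (C D : List (List ℕ)) : CF (C ++ D) = CF C ∪ CF D := by
  ext B
  rw [Finset.mem_union, mem_CF, mem_CF, mem_CF]
  constructor
  · rintro ⟨L, hL, h⟩
    rcases List.mem_append.1 hL with h1 | h1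
    · exact Or.inl ⟨L, h1, h⟩
    · exact Or.inr ⟨L, h1, h⟩
  · rintro (⟨L, hL, h⟩ | ⟨L, hL, h⟩)
    · exact ⟨L, List.mem_append.2 (Or.inl hL), h⟩
    · exact ⟨L, List.mem_append.2 (Or.inr hL), h⟩

theorem CF_pieces {X : St} {x y : Lt} (hW : Wf X) (hx : phiL x ∈ lts X) (hy : phiL y ∈ lts (nx X (phiL x))) :
    CF (x.2.1 ++ rmL x.1 y.2.1) = pc (phiL x) (phiL y) := by
  rw [SiteA_app, CF_rm hW hx hy]
  rfl

theorem GB_sub {P S : List (List ℕ)} (hg : GB P) (h : S.Sublist P) : GB S :=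
  ⟨fun B hB => hg.1 B (h.subset hB), hg.2.sublist (h.map _)⟩

private theorem SiteA_GBapp {C D : List (List ℕ)} (hC : GB C) (hD : GB D) (h : Disjoint (CF C) (CF D)) :
    GB (C ++ D) := by
  refine ⟨fun B hB => ?_, ?_⟩
  · rcases List.mem_append.1 hB with h1 | h1
    · exact hC.1 B h1
    · exact hD.1 B h1
  · rw [List.map_append]
    refine List.Nodup.append hC.2 hD.2 fun B hB hB' => ?_
    exact Finset.disjoint_left.1 h (List.mem_toFinset.2 hB) (List.mem_toFinset.2 hB')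

theorem GB_pieces {X : St} {x y : Lt} (hW : Wf X) (hx : phiL x ∈ lts X) (hy : phiL y ∈ lts (nx X (phiL x)))
    (hgx : GB x.2.1) (hgy : GB y.2.1) : GB (x.2.1 ++ rmL x.1 y.2.1) := by
  refine SiteA_GBapp hgx (GB_sub hgy List.filter_sublist) ?_
  rw [CF_rm hW hx hy]
  exact (pc_facts hW hx hy).2.2.2.2.2

private theorem SiteA_card {C : List (List ℕ)} (h : GB C) : (CF C).card = C.length := by
  unfold CF
  rw [List.toFinset_card_of_nodup h.2, List.length_map]

private theorem SiteA_le {V : Finset ℕ} {X : St} (hI : In V X) (hW : Wf X) {P : Finset (Finset ℕ)} (hP : P ⊆ X.2) :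
    P.card ≤ V.card := by
  classical
  have h1 : ∀ B ∈ P, ∃ b, b ∈ B := fun B hB => hW.ne B (hP hB)
  choose! f hf using h1
  refine Finset.card_le_card_of_injOn f (fun B hB => hI.2 B (hP hB) (hf B hB)) ?_
  intro B hB C hC h
  by_contra hne
  exact Finset.disjoint_left.1 (hW.dj B (hP hB) C (hP hC) hne) (hf B hB) (h ▸ hf C hC)

theorem len_pieces {V : List ℕ} {X : St} {x y : Lt} (hI : In V.toFinset X) (hW : Wf X) (hx : phiL x ∈ lts X)
    (hy : phiL y ∈ lts (nx X (phiL x))) (hgx : GB x.2.1) (hgy : GB y.2.1) :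
    (x.2.1 ++ rmL x.1 y.2.1).length ≤ V.length ∧ (pc (phiL x) (phiL y)).card = (x.2.1 ++ rmL x.1 y.2.1).length := by
  have h1 := SiteA_card (GB_pieces hW hx hy hgx hgy)
  rw [CF_pieces hW hx hy] at h1
  refine ⟨?_, h1⟩
  rw [← h1]
  exact (SiteA_le hI hW (pc_facts hW hx hy).2.2.2.1).trans (List.toFinset_card_le V)

/-- the new block is small -/
theorem blkL_ok {V : List ℕ} {X : St} {P S : List (List ℕ)} {z : ℕ} (hI : In V.toFinset X) (hW : Wf X) (hz : z ∈ X.1)
    (hP : CF P ⊆ X.2) (hg : GB P) (hS : S.Sublist P) :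
    (blkL z S).Nodup ∧ (blkL z S).length ≤ V.length ∧ (blkL z S).all (V.contains ·) = true := by
  have hgS := GB_sub hg hS
  have h1 : ∀ L ∈ S, L.toFinset ∈ X.2 := fun L hL => hP (mem_CF.2 ⟨L, hS.subset hL, rfl⟩)
  have h2 : (blkL z S).Nodup := by
    unfold blkL
    rw [List.nodup_cons]
    refine ⟨fun h => ?_, ?_⟩
    · obtain ⟨L, hL, hzL⟩ := List.mem_flatten.1 h
      exact Finset.disjoint_left.1 (hW.dR _ (h1 L hL)) (List.mem_toFinset.2 hzL) hz
    · rw [List.nodup_flatten]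
      refine ⟨hgS.1, ?_⟩
      have h3 : S.Pairwise fun L M => L.toFinset ≠ M.toFinset := List.pairwise_map.1 hgS.2
      refine h3.imp_of_mem fun {L M} hL hM hne x hx hx' => ?_
      exact Finset.disjoint_left.1 (hW.dj _ (h1 L hL) _ (h1 M hM) hne) (List.mem_toFinset.2 hx)
        (List.mem_toFinset.2 hx')
  have h3 : (blkL z S).toFinset ⊆ V.toFinset := by
    intro x hx
    rw [blkL_toFinset, mem_blk] at hx
    rcases hx with rfl | ⟨B, hB, hx⟩
    · exact hI.1 hz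
    · obtain ⟨L, hL, rfl⟩ := mem_CF.1 hB
      exact hI.2 _ (h1 L hL) hx
  refine ⟨h2, ?_, ?_⟩
  · rw [← List.toFinset_card_of_nodup h2]
    exact (Finset.card_le_card h3).trans (List.toFinset_card_le V)
  · rw [List.all_eq_true]
    intro x hx
    exact List.contains_iff_mem.2 (List.mem_toFinset.1 (h3 (List.mem_toFinset.2 hx)))

/-- complementary parts of the pieces -/
theorem CF_compl {P S S' : List (List ℕ)} (hg : GB P) (h : (S ++ S').Perm P) : CF S' = CF P \ CF S ∧ CF S ⊆ CF P := by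
  have h1 : CF P = CF S ∪ CF S' := by
    rw [← SiteA_app]
    unfold CF
    exact List.toFinset_eq_of_perm _ _ (h.map _).symm
  have h2 : ((S ++ S').map List.toFinset).Nodup := (h.map _).nodup_iff.2 hg.2
  rw [List.map_append] at h2
  have h3 := List.disjoint_of_nodup_append h2
  refine ⟨?_, by rw [h1]; exact Finset.subset_union_left⟩
  ext B
  rw [Finset.mem_sdiff, h1, Finset.mem_union]
  constructor
  · intro hB
    exact ⟨Or.inr hB, fun hB' => h3 (List.mem_toFinset.1 hB') (List.mem_toFinset.1 hB)⟩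
  · rintro ⟨h4 | h4, h5⟩
    · exact absurd h4 h5
    · exact h4

end BSI.M
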