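import Pool.Agent.BSI.SiteA
import Pool.Agent.BSI.KapW

/-!
# BSI machine layer, SiteB: the law of the move of two letters

For each value of the two bits `u2` the joint move is `newP` with the first vertex `z`, the second `z'` and the flag `fl`. The sum
over the last number gives the acceptance weight, the sum over the numbers of the pieces is `law_list`, and `LS_congr`, `LS_finset` give
the sum over the sets of pieces.
-/

set_option autoImplicit false

namespace BSI.M

open Finset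

/-- the sum over the random numbers of a function of the new pair, over the accepted moves -/
noncomputable def SP (p q a1 a2 : ℕ) (V : List ℕ) (E : List (ℕ × ℕ)) (c : ℕ) (x y : Lt) (H : Le × Le → ℝ) : ℝ :=
  ∑ w : Fin 4 × ((Fin V.length → Fin (2 ^ c)) × Fin (2 ^ c)),
    (if (pairS p q a1 a2 V E (2 ^ c) w.1 (List.ofFn fun i => (w.2.1 i : ℕ)) w.2.2 x y).1 = true then
      H (phiL (pairS p q a1 a2 V E (2 ^ c) w.1 (List.ofFn fun i => (w.2.1 i : ℕ)) w.2.2 x y).2.1,
        phiL (pairS p q a1 a2 V E (2 ^ c) w.1 (List.ofFn fun i => (w.2.1 i : ℕ)) w.2.2 x y).2.2) else 0)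

private theorem SiteB_lt (m w : ℕ) (hw : w ≤ m) (h : ℝ) :
    ∑ v : Fin m, (if (v : ℕ) < w then h else 0) = (w : ℝ) * h := by
  rw [Fin.sum_univ_eq_sum_range (fun v => if v < w then h else 0) m]
  obtain ⟨d, rfl⟩ := Nat.exists_eq_add_of_le hw
  rw [Finset.sum_range_add]
  have e1 : ∑ x ∈ range w, (if x < w then h else 0) = (w : ℝ) * h := by
    rw [Finset.sum_congr rfl (fun x hx => if_pos (Finset.mem_range.1 hx)), Finset.sum_const,
      Finset.card_range, nsmul_eq_mul]
  have e2 : ∑ x ∈ range d, (if w + x < w then h else 0) = 0 := by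
    refine Finset.sum_eq_zero fun x _ => ?_
    rw [if_neg (by omega)]
  rw [e1, e2, add_zero]

private theorem SiteB_v0 (m w : ℕ) (hw : w ≤ m) (A B C : Bool) (h : ℝ) :
    ∑ v : Fin m, (if (A && (B && (C && decide ((v : ℕ) < w)))) = true then h else 0) =
      if A = true then (if (B && C) = true then (w : ℝ) * h else 0) else 0 := by
  cases A
  · simp
  · cases B
    · simp
    · cases C
      · simp
      · simp only [Bool.true_and, decide_eq_true_eq, if_true]
        exact SiteB_lt m w hw h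

private theorem SiteB_v1 (m w : ℕ) (hw : w ≤ m) (A : Bool) (h : ℝ) :
    ∑ v : Fin m, (if (A && decide ((v : ℕ) < w)) = true then h else 0) =
      if A = true then (w : ℝ) * h else 0 := by
  cases A
  · simp
  · simp only [Bool.true_and, decide_eq_true_eq, if_true]
    exact SiteB_lt m w hw h

private theorem SiteB_cond {X : St} {x y : Lt} (hW : Wf X) (hx : phiL x ∈ lts X)
    (hy : phiL y ∈ lts (nx X (phiL x))) :
    (jnL x.1 y.2.1 || (x.2.2 && y.2.2)) = true ↔ jt (phiL x) (phiL y) := by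
  have h1 := jn_iff hW hx hy
  rw [Bool.or_eq_true, Bool.and_eq_true, h1]
  rfl

/-- the size conditions and bounds -/
private theorem SiteB_hc {a1 a2 n c Q : ℕ} (hc : 8 * (n + 1) * (a1 + a2) * Q ≤ 2 ^ c) :
    a1 * Q ≤ 2 ^ c ∧ a2 * (2 * Q) ≤ 2 ^ c := by
  have h1 : a1 * Q ≤ 8 * (n + 1) * (a1 + a2) * Q := by
    refine Nat.mul_le_mul_right _ ?_
    nlinarith [Nat.zero_le n, Nat.zero_le a1, Nat.zero_le a2, Nat.zero_le (n * (a1 + a2))]
  have h2 : a2 * (2 * Q) ≤ 8 * (n + 1) * (a1 + a2) * Q := by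
    rw [← mul_assoc]
    refine Nat.mul_le_mul_right _ ?_
    nlinarith [Nat.zero_le n, Nat.zero_le a1, Nat.zero_le a2, Nat.zero_le (n * (a1 + a2))]
  exact ⟨h1.trans hc, h2.trans hc⟩

theorem law_pair_sw {p q a1 a2 c : ℕ} {V : List ℕ} {E : List (ℕ × ℕ)} (hpq : p < q)
    (hc : 8 * (V.length + 1) * (a1 + a2) * q ^ E.length ≤ 2 ^ c) {X : St} {x y : Lt} (hW : Wf X) (hx : phiL x ∈ lts X)
    (hy : phiL y ∈ lts (nx X (phiL x))) (hj : ¬ jt (phiL x) (phiL y)) (H : Le × Le → ℝ) :
    SP p q a1 a2 V E c x y H = 2 * ((2 : ℝ) ^ c) ^ V.length * (a2 * q ^ E.length) * H (phiL y, phiL x) := by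
  have h0 : ¬ (jnL x.1 y.2.1 || (x.2.2 && y.2.2)) = true := fun h => hj ((SiteB_cond hW hx hy).1 h)
  have h1 : ∀ (u2 v0 : ℕ) (vs : List ℕ), pairS p q a1 a2 V E (2 ^ c) u2 vs v0 x y =
      ((u2 == 1 || u2 == 3) && decide (v0 < a2 * q ^ E.length), (y, x)) := fun u2 v0 vs => by
    unfold pairS
    rw [if_neg h0]
  have hw : a2 * q ^ E.length ≤ 2 ^ c := by
    have := (SiteB_hc hc).2
    refine le_trans ?_ this
    refine Nat.mul_le_mul_left _ ?_
    omega
  unfold SP
  simp only [h1]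
  rw [Fintype.sum_prod_type]
  have h2 : ∀ u : Fin 4, ∑ w : (Fin V.length → Fin (2 ^ c)) × Fin (2 ^ c),
      (if (((u : ℕ) == 1 || (u : ℕ) == 3) && decide ((w.2 : ℕ) < a2 * q ^ E.length)) = true then
        H (phiL y, phiL x) else 0) = ((2 : ℝ) ^ c) ^ V.length *
        (if ((u : ℕ) == 1 || (u : ℕ) == 3) = true then ((a2 * q ^ E.length : ℕ) : ℝ) * H (phiL y, phiL x)
          else 0) := by
    intro u
    rw [Fintype.sum_prod_type]
    simp only [SiteB_v1 (2 ^ c) (a2 * q ^ E.length) hw]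
    rw [Finset.sum_const, Finset.card_univ, Fintype.card_fun, Fintype.card_fin, Fintype.card_fin, nsmul_eq_mul]
    push_cast
    rfl
  rw [Finset.sum_congr rfl fun u _ => h2 u, Fin.sum_univ_four]
  simp only [Fin.val_zero, Fin.val_one, Fin.val_two]
  have h3 : ((3 : Fin 4) : ℕ) = 3 := rfl
  rw [h3]
  simp
  ring

private theorem SiteB_kJ (p q : ℕ) (E : List (ℕ × ℕ)) (m t s : ℕ) (B : List ℕ) :
    (kJ p q E m t s B : ℝ) = (kB p q E m t s B.toFinset : ℝ) := by
  unfold kB
  rw [kJ_congr p q E m t s (B := B) (B' := B.toFinset.toList) (fun x => by simp)]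

private theorem SiteB_kB (p q : ℕ) (E : List (ℕ × ℕ)) (m t s : ℕ) (B : Finset ℕ) :
    kB p q E m t s B = kB p q E m s t B := by
  unfold kB kJ
  rw [add_comm]

private theorem SiteB_term {p q a1 a2 c : ℕ} {V : List ℕ} {E : List (ℕ × ℕ)} (hpq : p < q) (ha2 : 0 < a2)
    (hc : 8 * (V.length + 1) * (a1 + a2) * q ^ E.length ≤ 2 ^ c) {X : St} (hI : In V.toFinset X) (hW : Wf X)
    {z z' : ℕ} (hz : z ∈ X.1) (hne : z' ≠ z) {P : List (List ℕ)} (hP : CF P ⊆ X.2) (hg : GB P)
    (hl : P.length ≤ V.length) (hzP : ∀ B ∈ CF P, z ∉ B ∧ z' ∉ B) (fl g : Bool) (H : Le × Le → ℝ) :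
    ∑ v : Fin V.length → Fin (2 ^ c), ∑ v0 : Fin (2 ^ c),
      (if (newP p q a1 a2 V E (2 ^ c) z z' fl g (P.zip (List.ofFn fun i => (v i : ℕ))) v0).1 = true then
        H (phiL (newP p q a1 a2 V E (2 ^ c) z z' fl g (P.zip (List.ofFn fun i => (v i : ℕ))) v0).2.1,
          phiL (newP p q a1 a2 V E (2 ^ c) z z' fl g (P.zip (List.ofFn fun i => (v i : ℕ))) v0).2.2) else 0) =
      (∏ B ∈ CF P, ((kB p q E (2 ^ c) z z' B : ℝ) * q ^ E.length)) * ((2 : ℝ) ^ c) ^ (V.length - P.length) *
        (a2 * q ^ E.length) * ∑ C ∈ (CF P).powerset,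
          w2 (YE p q E) (aR a1 a2) z z' (CF P) C fl * H (mk2 z z' (CF P) C fl g) := by
  have hcc := SiteB_hc hc
  have hzL : ∀ B ∈ P, z ∉ B ∧ z' ∉ B := fun B hB => by
    have h1 := hzP B.toFinset (mem_CF.2 ⟨B, hB, rfl⟩)
    rw [List.mem_toFinset, List.mem_toFinset] at h1
    exact h1
  have hw : ∀ S : List (List ℕ), (if fl = true then a1 * q ^ E.length else a2 * wE p q E z' (blkL z S)) ≤ 2 ^ c := by
    intro S
    cases fl
    · exact (Nat.mul_le_mul_left _ (wE_le hpq E z' (blkL z S))).trans hcc.2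
    · exact hcc.1
  have hv : ∀ v : Fin V.length → Fin (2 ^ c), ∑ v0 : Fin (2 ^ c),
      (if (newP p q a1 a2 V E (2 ^ c) z z' fl g (P.zip (List.ofFn fun i => (v i : ℕ))) v0).1 = true then
        H (phiL (newP p q a1 a2 V E (2 ^ c) z z' fl g (P.zip (List.ofFn fun i => (v i : ℕ))) v0).2.1,
          phiL (newP p q a1 a2 V E (2 ^ c) z z' fl g (P.zip (List.ofFn fun i => (v i : ℕ))) v0).2.2) else 0) =
      (if (P.zip (List.ofFn fun i => (v i : ℕ))).all (toA p q E (2 ^ c) z z') = true then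
        (fun S S' => if (decide ((blkL z S).length ≤ V.length) && (blkL z S).all (V.contains ·)) = true then
          ((if fl = true then a1 * q ^ E.length else a2 * wE p q E z' (blkL z S) : ℕ) : ℝ) *
            H (phiL (z, (S, fl)), phiL (z', ((if fl = true then S' else blkL z S :: S'), g))) else 0)
          (((P.zip (List.ofFn fun i => (v i : ℕ))).filter (toF p q E (2 ^ c) z z')).map Prod.fst)
          (((P.zip (List.ofFn fun i => (v i : ℕ))).filter fun x => !(toF p q E (2 ^ c) z z' x)).map Prod.fst) else 0) :=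
    fun v => SiteB_v0 (2 ^ c) (if fl = true then a1 * q ^ E.length else a2 * wE p q E z' (blkL z
        (((P.zip (List.ofFn fun i => (v i : ℕ))).filter (toF p q E (2 ^ c) z z')).map Prod.fst)))
      (hw (((P.zip (List.ofFn fun i => (v i : ℕ))).filter (toF p q E (2 ^ c) z z')).map Prod.fst))
      ((P.zip (List.ofFn fun i => (v i : ℕ))).all (toA p q E (2 ^ c) z z'))
      (decide ((blkL z (((P.zip (List.ofFn fun i => (v i : ℕ))).filter (toF p q E (2 ^ c) z z')).map
        Prod.fst)).length ≤ V.length))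
      ((blkL z (((P.zip (List.ofFn fun i => (v i : ℕ))).filter (toF p q E (2 ^ c) z z')).map
        Prod.fst)).all (V.contains ·))
      (H (phiL (z, ((((P.zip (List.ofFn fun i => (v i : ℕ))).filter (toF p q E (2 ^ c) z z')).map Prod.fst), fl)),
        phiL (z', ((if fl = true then
          (((P.zip (List.ofFn fun i => (v i : ℕ))).filter fun x => !(toF p q E (2 ^ c) z z' x)).map Prod.fst)
          else blkL z (((P.zip (List.ofFn fun i => (v i : ℕ))).filter (toF p q E (2 ^ c) z z')).map Prod.fst) ::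
          (((P.zip (List.ofFn fun i => (v i : ℕ))).filter fun x => !(toF p q E (2 ^ c) z z' x)).map Prod.fst)), g))))
  refine (Finset.sum_congr rfl fun v _ => hv v).trans ((law_list p q E (2 ^ c) z z' V.length P hl
    (fun S S' => if (decide ((blkL z S).length ≤ V.length) && (blkL z S).all (V.contains ·)) = true then
          ((if fl = true then a1 * q ^ E.length else a2 * wE p q E z' (blkL z S) : ℕ) : ℝ) *
            H (phiL (z, (S, fl)), phiL (z', ((if fl = true then S' else blkL z S :: S'), g))) else 0)).trans ?_)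
  rw [LS_congr _ _ P _ (fun S _ => (fun C => (a2 * q ^ E.length) *
      ((if fl = true then aR a1 a2 else 1 - yb (YE p q E) z' (blk z C)) * H (mk2 z z' (CF P) C fl g))) (CF S))]
  · rw [LS_finset _ _ (fun B => (kB p q E (2 ^ c) z z' B : ℝ) * (q ^ E.length * (1 - yb (YE p q E) z B)))
      (fun B => (kB p q E (2 ^ c) z z' B : ℝ) * (q ^ E.length * (1 - yb (YE p q E) z' B))) P ?_ ?_ hg.2
      (fun C => (a2 * q ^ E.length) *
      ((if fl = true then aR a1 a2 else 1 - yb (YE p q E) z' (blk z C)) * H (mk2 z z' (CF P) C fl g)))]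
    · rw [Finset.mul_sum, Finset.mul_sum]
      refine Finset.sum_congr rfl fun C hC => ?_
      have hCP := Finset.mem_powerset.1 hC
      have e1 : (∏ B ∈ C, (kB p q E (2 ^ c) z z' B : ℝ) * (q ^ E.length * (1 - yb (YE p q E) z B))) =
          (∏ B ∈ C, (kB p q E (2 ^ c) z z' B : ℝ) * q ^ E.length) * cc (YE p q E) z C := by
        unfold cc
        rw [← Finset.prod_mul_distrib]
        exact Finset.prod_congr rfl fun B _ => by ring
      have e2 : (∏ B ∈ CF P \ C, (kB p q E (2 ^ c) z z' B : ℝ) * (q ^ E.length * (1 - yb (YE p q E) z' B))) =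
          (∏ B ∈ CF P \ C, (kB p q E (2 ^ c) z z' B : ℝ) * q ^ E.length) * cc (YE p q E) z' (CF P \ C) := by
        unfold cc
        rw [← Finset.prod_mul_distrib]
        exact Finset.prod_congr rfl fun B _ => by ring
      have e3 := Finset.prod_sdiff (f := fun B => (kB p q E (2 ^ c) z z' B : ℝ) * q ^ E.length) hCP
      have e4 : w2 (YE p q E) (aR a1 a2) z z' (CF P) C fl = cc (YE p q E) z C * cc (YE p q E) z' (CF P \ C) *
          (if fl = true then aR a1 a2 else 1 - yb (YE p q E) z' (blk z C)) := by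
        unfold w2
        cases fl
        · simp only [Bool.false_eq_true, if_false, mul_one]
          have h5 : blk z C ∉ CF P \ C := fun h =>
            (hzP _ (Finset.mem_sdiff.1 h).1).1 (Finset.mem_insert_self z _)
          have h6 : cc (YE p q E) z' (insert (blk z C) (CF P \ C)) =
              (1 - yb (YE p q E) z' (blk z C)) * cc (YE p q E) z' (CF P \ C) := by
            unfold cc
            exact Finset.prod_insert h5
          rw [h6]
          ring
        · simp only [if_true]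
      rw [e1, e2, e4, ← e3]
      push_cast
      ring
    · intro B hB
      rw [Nat.cast_mul, SiteB_kJ, wE_yb hpq E (hzL B hB).1]
    · intro B hB
      rw [Nat.cast_mul, SiteB_kJ, wE_yb hpq E (hzL B hB).2]
  · intro S S' hperm hS hS'
    obtain ⟨h1, h2, h3⟩ := blkL_ok hI hW hz hP hg hS
    obtain ⟨h4, h5⟩ := CF_compl hg hperm
    have h6 : (decide ((blkL z S).length ≤ V.length) && (blkL z S).all (V.contains ·)) = true := by
      rw [Bool.and_eq_true]
      exact ⟨decide_eq_true h2, h3⟩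
    dsimp only
    rw [if_pos h6]
    have h7 : (phiL (z, (S, fl)), phiL (z', ((if fl = true then S' else blkL z S :: S'), g))) =
        mk2 z z' (CF P) (CF S) fl g := by
      unfold phiL mk2
      cases fl
      · simp only [Bool.false_eq_true, if_false]
        have h8 : CF (blkL z S :: S') = insert (blk z (CF S)) (CF P \ CF S) := by
          rw [← h4, ← blkL_toFinset]
          unfold CF
          rw [List.map_cons, List.toFinset_cons]
        rw [h8]
      · simp only [if_true]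
        rw [h4]
    rw [h7]
    cases fl
    · simp only [Bool.false_eq_true, if_false]
      have h8 : z' ∉ blkL z S := by
        unfold blkL
        rw [List.mem_cons, List.mem_flatten, not_or]
        refine ⟨hne, ?_⟩
        rintro ⟨B, hB, hzB⟩
        exact (hzL B (hS.subset hB)).2 hzB
      rw [Nat.cast_mul, wE_yb hpq E h8, blkL_toFinset]
      ring
    · simp only [if_true]
      unfold aR
      have h8 : (a2 : ℝ) ≠ 0 := by exact_mod_cast ha2.ne'
      push_cast
      field_simp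

theorem law_pair_jt {p q a1 a2 c : ℕ} {V : List ℕ} {E : List (ℕ × ℕ)} (hpq : p < q) (ha2 : 0 < a2) (hG : Gr V E)
    (hc : 8 * (V.length + 1) * (a1 + a2) * q ^ E.length ≤ 2 ^ c) {X : St} {x y : Lt} (hI : In V.toFinset X) (hW : Wf X)
    (hx : phiL x ∈ lts X) (hy : phiL y ∈ lts (nx X (phiL x))) (hgx : GB x.2.1) (hgy : GB y.2.1)
    (hj : jt (phiL x) (phiL y)) (H : Le × Le → ℝ) :
    SP p q a1 a2 V E c x y H =
      (∏ B ∈ pc (phiL x) (phiL y), ((kB p q E (2 ^ c) x.1 y.1 B : ℝ) * q ^ E.length)) *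
        ((2 : ℝ) ^ c) ^ (V.length - (pc (phiL x) (phiL y)).card) * (a2 * q ^ E.length) * (if y.2.2 then 1 else 2) *
        sum2 x.1 y.1 (pc (phiL x) (phiL y)) y.2.2 (fun z z' C fl =>
          w2 (YE p q E) (aR a1 a2) z z' (pc (phiL x) (phiL y)) C fl * H (mk2 z z' (pc (phiL x) (phiL y)) C fl y.2.2)) := by
  obtain ⟨f1, f2, f3, f4, f5, -⟩ := pc_facts hW hx hy
  have hCF := CF_pieces hW hx hy
  have hgP := GB_pieces hW hx hy hgx hgy
  obtain ⟨hl, hcard⟩ := len_pieces hI hW hx hy hgx hgy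
  have h0 : (jnL x.1 y.2.1 || (x.2.2 && y.2.2)) = true := (SiteB_cond hW hx hy).2 hj
  have h1 : ∀ (u2 v0 : ℕ) (vs : List ℕ), pairS p q a1 a2 V E (2 ^ c) u2 vs v0 x y =
      newP p q a1 a2 V E (2 ^ c) (if u2 == 1 || u2 == 3 then y.1 else x.1) (if u2 == 1 || u2 == 3 then x.1 else y.1)
      ((u2 == 2 || u2 == 3) && y.2.2) y.2.2 ((x.2.1 ++ rmL x.1 y.2.1).zip vs) v0 := fun u2 v0 vs => by
    unfold pairS
    rw [if_pos h0]
  have hxy := fun fl : Bool => SiteB_term hpq ha2 hc hI hW f1 f3.symm (P := x.2.1 ++ rmL x.1 y.2.1)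
    (by rw [hCF]; exact f4) hgP hl (by rw [hCF]; exact f5) fl y.2.2 H
  have hyx := fun fl : Bool => SiteB_term hpq ha2 hc hI hW f2 f3 (P := x.2.1 ++ rmL x.1 y.2.1)
    (by rw [hCF]; exact f4) hgP hl (by rw [hCF]; exact fun B hB => (f5 B hB).symm) fl y.2.2 H
  rw [hCF, ← hcard] at hxy hyx
  have hk : ∀ B : Finset ℕ, kB p q E (2 ^ c) y.1 x.1 B = kB p q E (2 ^ c) x.1 y.1 B := fun B =>
    SiteB_kB p q E (2 ^ c) y.1 x.1 B
  simp only [hk] at hyx
  have hs : sum2 x.1 y.1 (pc (phiL x) (phiL y)) y.2.2 (fun z z' C fl =>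
      w2 (YE p q E) (aR a1 a2) z z' (pc (phiL x) (phiL y)) C fl * H (mk2 z z' (pc (phiL x) (phiL y)) C fl y.2.2)) =
      ∑ fl ∈ fls y.2.2, ((∑ C ∈ (pc (phiL x) (phiL y)).powerset,
          w2 (YE p q E) (aR a1 a2) x.1 y.1 (pc (phiL x) (phiL y)) C fl *
            H (mk2 x.1 y.1 (pc (phiL x) (phiL y)) C fl y.2.2)) +
        ∑ C ∈ (pc (phiL x) (phiL y)).powerset,
          w2 (YE p q E) (aR a1 a2) y.1 x.1 (pc (phiL x) (phiL y)) C fl *
            H (mk2 y.1 x.1 (pc (phiL x) (phiL y)) C fl y.2.2)) := by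
    unfold sum2
    rw [Finset.sum_comm]
    exact Finset.sum_congr rfl fun fl _ => Finset.sum_add_distrib
  rw [hs]
  unfold SP
  simp only [h1]
  rw [Fintype.sum_prod_type, Fin.sum_univ_four]
  simp only [Fintype.sum_prod_type]
  have c0 : ((0 : Fin 4) : ℕ) = 0 := rfl
  have c1 : ((1 : Fin 4) : ℕ) = 1 := rfl
  have c2 : ((2 : Fin 4) : ℕ) = 2 := rfl
  have c3 : ((3 : Fin 4) : ℕ) = 3 := rfl
  have d0 : ((0 : ℕ) == 1 || (0 : ℕ) == 3) = false := rfl
  have d1 : ((1 : ℕ) == 1 || (1 : ℕ) == 3) = true := rfl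
  have d2 : ((2 : ℕ) == 1 || (2 : ℕ) == 3) = false := rfl
  have d3 : ((3 : ℕ) == 1 || (3 : ℕ) == 3) = true := rfl
  have k0 : ((0 : ℕ) == 2 || (0 : ℕ) == 3) = false := rfl
  have k1 : ((1 : ℕ) == 2 || (1 : ℕ) == 3) = false := rfl
  have k2 : ((2 : ℕ) == 2 || (2 : ℕ) == 3) = true := rfl
  have k3 : ((3 : ℕ) == 2 || (3 : ℕ) == 3) = true := rfl
  simp only [c0, c1, c2, c3, d0, d1, d2, d3, k0, k1, k2, k3, Bool.false_eq_true, if_false, if_true,
    Bool.false_and, Bool.true_and]
  rw [hxy false, hyx false, hxy y.2.2, hyx y.2.2]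
  cases hgf : y.2.2
  · simp only [Bool.false_eq_true, if_false, fls, Finset.sum_singleton]
    ring
  · have hf : fls true = {false, true} := rfl
    rw [hf, Finset.sum_pair (by decide)]
    simp only [if_true]
    ring

end BSI.M
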