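import Pool.Agent.BSI.Bas

/-!
# BSI-Sy: the system of GPoi from the local variance inequality; letters and flags

PLAN. `sys`: `hm`: `Finset.one_le_prod'`-like (product of numbers `≥ 1`; `Finset.prod_induction` or `Finset.one_le_prod''`). `ok'`: `ok_cov` and `card_nx`. `rk'`: `card_nx`. `pos`: `p_nx`, `mem_cov`. `one`: `sum_cov` with `F = 1`, `sum_pr`. `le`, `ge`: products of numbers `≥ 1` and `Ioc X.1.card N ⊆ Ioc 0 N`
(`Finset.prod_le_prod_of_subset_of_one_le'` is for ordered commutative monoids; prove a private lemma over `ℝ` by `Finset.prod_sdiff`). `com`: `V cov p (tt ..) h X = (∏ k ∈ Ioc X.1.card N, th k) * V cov p p h X` (pull the constant out of the sum; on `cov X` all `Z` have the same card).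
`3 ≤ X.1.card`: `LOC` and `Ioc (m - 1) N = insert m (Ioc m N)` for `m ≤ N`. `X.1.card = 2`: every `Z ∈ cov X` has `Z.1.card = 1`, its letters are `(t, (Z.2, true))` with `nx Z l = (∅, ∅)`, so
`P ψ Z = ψ (∅, ∅) * ∑ pr = ψ (∅, ∅)` (`sum_cov`, `sum_pr`) and `V (P ψ) X = 0`. `ExL_eq`: induction on `n`, `sum_cov`-like: a sum over `cov X` of `p X Z * G Z` is the sum over `lts X` of `pr X l * G (nx X l)` (`sum_cov`), `enc_nx`. Letters with `pr X l = 0` give `0` on both sides (`nx X l` need not be `ok` then: do the case distinction before the induction hypothesis).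
-/

set_option autoImplicit false

namespace BSI

open Finset ACY

variable {Y : ℕ → ℕ → ℝ} {a : ℝ} {X : St}

/-- the weights with the loss factors -/
noncomputable def tt (Y : ℕ → ℕ → ℝ) (a : ℝ) (th : ℕ → ℝ) (N : ℕ) (X Z : St) : ℝ :=
  (∏ k ∈ Finset.Ioc X.1.card N, th k) * p Y a X Z

private theorem Sy_one_le (th : ℕ → ℝ) (hth : ∀ k, 1 ≤ th k) (s : Finset ℕ) : 1 ≤ ∏ k ∈ s, th k := by
  induction s using Finset.induction_on with
  | empty => simp
  | insert i s hi ih =>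
    rw [Finset.prod_insert hi]
    nlinarith [hth i]

private theorem Sy_mono (th : ℕ → ℝ) (hth : ∀ k, 1 ≤ th k) (m N : ℕ) :
    ∏ k ∈ Finset.Ioc m N, th k ≤ ∏ k ∈ Finset.Ioc 0 N, th k := by
  have h1 : Finset.Ioc m N ⊆ Finset.Ioc 0 N := Finset.Ioc_subset_Ioc_left (Nat.zero_le m)
  rw [← Finset.prod_sdiff h1]
  have h2 := Sy_one_le th hth (Finset.Ioc 0 N \ Finset.Ioc m N)
  have h3 := Sy_one_le th hth (Finset.Ioc m N)
  nlinarith

private theorem Sy_step (th : ℕ → ℝ) (m N : ℕ) (h : m + 1 ≤ N) :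
    ∏ k ∈ Finset.Ioc m N, th k = th (m + 1) * ∏ k ∈ Finset.Ioc (m + 1) N, th k := by
  have h1 : Finset.Ioc m N = insert (m + 1) (Finset.Ioc (m + 1) N) := by
    ext k
    simp only [Finset.mem_Ioc, Finset.mem_insert]
    omega
  rw [h1, Finset.prod_insert]
  simp

private theorem Sy_V (Y : ℕ → ℕ → ℝ) (a : ℝ) (th : ℕ → ℝ) (N : ℕ) (h : St → ℝ) (X : St) :
    GPoi.V (cov Y a) (p Y a) (tt Y a th N) h X =
      (∏ k ∈ Finset.Ioc X.1.card N, th k) * GPoi.V (cov Y a) (p Y a) (p Y a) h X := by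
  unfold GPoi.V tt
  rw [Finset.mul_sum]
  exact Finset.sum_congr rfl fun Z _ => by ring

private theorem Sy_card {Z : St} (hZ : Z ∈ cov Y a X) : Z.1.card + 1 = X.1.card := by
  obtain ⟨l, h1, _, rfl⟩ := mem_cov.1 hZ
  exact card_nx h1

private theorem Sy_pos {Z : St} (hX : Wf X) (hZ : Z ∈ cov Y a X) : 0 < p Y a X Z := by
  obtain ⟨l, h1, h2, rfl⟩ := mem_cov.1 hZ
  rw [p_nx hX h1]
  exact h2

private theorem Sy_one (hY : ∀ u v, |Y u v| ≤ 1) (ha : 0 ≤ a) (hX : ok Y a X) (h : X.1.Nonempty) :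
    ∑ Z ∈ cov Y a X, p Y a X Z = 1 := by
  have h1 := sum_cov hY ha hX.1 (fun _ => (1 : ℝ))
  simp only [mul_one] at h1
  rw [h1, sum_pr hX.2 h]

private theorem Sy_P1 (hY : ∀ u v, |Y u v| ≤ 1) (ha : 0 ≤ a) (hX : ok Y a X) (h : X.1.card = 1) (ψ : St → ℝ) :
    GPoi.P (cov Y a) (p Y a) ψ X = ψ (∅, ∅) := by
  have hne : X.1.Nonempty := by
    rw [← Finset.card_pos, h]
    exact Nat.one_pos
  unfold GPoi.P
  rw [sum_cov hY ha hX.1 ψ]
  have h1 : ∀ l ∈ lts X, pr Y a X l * ψ (nx X l) = pr Y a X l * ψ (∅, ∅) := by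
    intro l hl
    have h2 := (lts_one (by omega)).1 hl
    have h3 : nx X l = (∅, ∅) := by
      have h4 : X.1 = {l.1} := by
        obtain ⟨b, hb⟩ := Finset.card_eq_one.1 h
        have h5 := h2.1
        rw [hb, Finset.mem_singleton] at h5
        rw [hb, h5]
      unfold nx
      rw [h2.2, h4]
      simp
    rw [h3]
  rw [Finset.sum_congr rfl h1, ← Finset.sum_mul, sum_pr hX.2 hne, one_mul]

private theorem Sy_Vnn (hX : Wf X) (ψ : St → ℝ) : 0 ≤ GPoi.V (cov Y a) (p Y a) (p Y a) ψ X :=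
  Finset.sum_nonneg fun _ hZ => mul_nonneg (Sy_pos hX hZ).le (sq_nonneg _)

theorem sys (hY : ∀ u v, |Y u v| ≤ 1) (ha : 0 ≤ a) {th : ℕ → ℝ} (hth : ∀ k, 1 ≤ th k) (hL : LOC Y a th) (N : ℕ) :
    GPoi.Sys (cov Y a) (p Y a) (tt Y a th N) (fun X : St => X.1.card) (fun X => ok Y a X ∧ X.1.card ≤ N)
      (∏ k ∈ Finset.Ioc 0 N, th k) where
  hm := Sy_one_le th hth _
  ok' := fun X hX Z hZ => ⟨ok_cov hY ha hX.1 hZ, by have := Sy_card hZ; have := hX.2; omega⟩
  rk' := fun X _ Z hZ => Sy_card hZ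
  pos := fun X hX Z hZ => Sy_pos hX.1.1 hZ
  one := fun X hX h => Sy_one hY ha hX.1 (Finset.card_pos.1 h)
  le := fun X hX Z hZ => by
    have h1 := Sy_pos hX.1.1 hZ
    have h2 := Sy_one_le th hth (Finset.Ioc X.1.card N)
    unfold tt
    nlinarith
  ge := fun X hX Z hZ => by
    have h1 := Sy_pos hX.1.1 hZ
    exact mul_le_mul_of_nonneg_right (Sy_mono th hth _ N) h1.le
  com := fun X hX h ψ => by
    have hcard : 2 ≤ X.1.card := h
    have hM : 0 ≤ ∏ k ∈ Finset.Ioc X.1.card N, th k := zero_le_one.trans (Sy_one_le th hth _)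
    have hR : ∑ Z ∈ cov Y a X, p Y a X Z * GPoi.V (cov Y a) (p Y a) (tt Y a th N) ψ Z =
        (∏ k ∈ Finset.Ioc X.1.card N, th k) *
          (th X.1.card * ∑ Z ∈ cov Y a X, p Y a X Z * GPoi.V (cov Y a) (p Y a) (p Y a) ψ Z) := by
      rw [Finset.mul_sum, Finset.mul_sum]
      refine Finset.sum_congr rfl fun Z hZ => ?_
      have h1 := Sy_card hZ
      have h2 := Sy_step th Z.1.card N (by have := hX.2; omega)
      rw [Sy_V, h2, h1]
      ring
    rw [hR, Sy_V]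
    refine mul_le_mul_of_nonneg_left ?_ hM
    rcases Nat.lt_or_ge X.1.card 3 with h3 | h3
    · have h4 : ∀ Z ∈ cov Y a X, GPoi.P (cov Y a) (p Y a) ψ Z = ψ (∅, ∅) := fun Z hZ =>
        Sy_P1 hY ha (ok_cov hY ha hX.1 hZ) (by have := Sy_card hZ; omega) ψ
      have h5 : GPoi.P (cov Y a) (p Y a) (GPoi.P (cov Y a) (p Y a) ψ) X = ψ (∅, ∅) := by
        conv_lhs => unfold GPoi.P
        rw [Finset.sum_congr rfl fun Z hZ => by
          rw [show (∑ W ∈ cov Y a Z, p Y a Z W * ψ W) = ψ (∅, ∅) from h4 Z hZ], ← Finset.sum_mul,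
          Sy_one hY ha hX.1 (Finset.card_pos.1 (by omega)), one_mul]
      have h6 : GPoi.V (cov Y a) (p Y a) (p Y a) (GPoi.P (cov Y a) (p Y a) ψ) X = 0 := by
        unfold GPoi.V
        refine Finset.sum_eq_zero fun Z hZ => ?_
        rw [h5, h4 Z hZ]
        ring
      rw [h6]
      refine mul_nonneg (zero_le_one.trans (hth _)) (Finset.sum_nonneg fun Z hZ => ?_)
      exact mul_nonneg (Sy_pos hX.1.1 hZ).le (Sy_Vnn (ok_cov hY ha hX.1 hZ).1 ψ)
    · exact hL X hX.1 h3 ψ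

theorem ExL_eq (hY : ∀ u v, |Y u v| ≤ 1) (ha : 0 ≤ a) (n : ℕ) (X : St) (hX : ok Y a X) (hn : X.1.card = n)
    (f : List Le → ℝ) :
    GPoi.Ex (cov Y a) (p Y a) n X (fun l => f (encs X l)) = ExL Y a n X f := by
  induction n generalizing X f with
  | zero => rfl
  | succ n ih =>
    have h1 : ∀ Z ∈ cov Y a X, p Y a X Z * GPoi.Ex (cov Y a) (p Y a) n Z (fun l => f (encs X (Z :: l))) =
        p Y a X Z * ExL Y a n Z (fun m => f (enc X Z :: m)) := by
      intro Z hZ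
      rw [← ih Z (ok_cov hY ha hX hZ) (by have := Sy_card hZ; omega) (fun m => f (enc X Z :: m))]
      rfl
    change ∑ Z ∈ cov Y a X, p Y a X Z * GPoi.Ex (cov Y a) (p Y a) n Z (fun l => f (encs X (Z :: l))) =
      ∑ l ∈ lts X, pr Y a X l * ExL Y a n (nx X l) (fun m => f (l :: m))
    rw [Finset.sum_congr rfl h1, sum_cov hY ha hX.1 (fun Z => ExL Y a n Z (fun m => f (enc X Z :: m)))]
    refine Finset.sum_congr rfl fun l hl => ?_
    rw [enc_nx hX.1 hl]

/-- the letters of the states visited -/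
theorem encs_path (X : St) (hX : Wf X) (l : Le) (m : List Le) (hl : l ∈ lts X) :
    encs X (path X (l :: m)) = l :: encs (nx X l) (path (nx X l) m) := by
  change enc X (nx X l) :: encs (nx X l) (path (nx X l) m) = l :: encs (nx X l) (path (nx X l) m)
  rw [enc_nx hX hl]

end BSI
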