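import Pool.Agent.BSI.Site
import Pool.Agent.BSI.Ini
import Pool.Agent.BSI.Obs
import Pool.Agent.BSI.D1
import Pool.Agent.BSI.KapK
import Pool.Agent.BSI.Es
import Pool.Agent.BSI.MixD

/-!
# BSI machine layer, Top: one trial is close to the target, the estimate is close to the partition function

The hypotheses: `Mx` (mixing on the lists of letters, from the local variance inequality), the insertion identity `hins`, and the
polynomial bound of the product of the loss factors `hD`.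
-/

set_option autoImplicit false

namespace BSI.M

open Finset ACY ACY.M

/-- the mixing estimate for all graphs -/
def Mx (p q a1 a2 : ℕ) (th : ℕ → ℝ) : Prop :=
  ∀ (V : List ℕ) (E : List (ℕ × ℕ)) (b c : ℕ), Gr V E → V ≠ [] → 0 < T (YE p q E) (aR a1 a2) (V.toFinset, ∅) →
    V.length ≤ 2 ^ b → 8 * (V.length + 1) * (a1 + a2) * q ^ E.length ≤ 2 ^ c →
    MixL (YE p q E) (aR a1 a2) (kapM p q a2 V E b c) (ksM q a2 V E b c) V.toFinset
      (CM th (c0M p q E b c) V.toFinset.card)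

/-- the insertion identity for all graphs -/
def Hi (p q a1 a2 : ℕ) : Prop :=
  ∀ (E : List (ℕ × ℕ)) (X : St), Wf X → ∀ t ∈ X.1,
    T (YE p q E) (aR a1 a2) X = ins (YE p q E) (aR a1 a2) t (T (YE p q E) (aR a1 a2)) X

/-- the exponent of the start -/
def pW (A q t : ℕ) : ℕ := 3 * t + 1 + A + q

/-- the bound of the constant of the mixing estimate -/
def pC (A q D t : ℕ) : ℕ := 73728 * A * q ^ 2 * D * t ^ (D + 4)

/-- the number of steps -/
def pT (A q D t : ℕ) : ℕ := pC A q D t * (t * pW A q t + 8 * t + 8)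

/-- the bound of the number of bits of a random number -/
def pB (A q t : ℕ) : ℕ := 3 + t + A + q * t

/-- the number of random bits of a trial -/
def pM (A q D t : ℕ) : ℕ := pT A q D t * (t + (2 + (t * pB A q t + pB A q t)))

/-- the number of trials -/
def pK (t : ℕ) : ℕ := 2048 * t ^ 9

private theorem Top_size (n : ℕ) : Nat.size n ≤ n := Nat.size_le.2 Nat.lt_two_pow_self

private theorem Top_sz2 {t : ℕ} (ht : 0 < t) : 2 ^ Nat.size t ≤ 2 * t := by
  obtain ⟨k, hk⟩ : ∃ k, Nat.size t = k + 1 := ⟨Nat.size t - 1, by have := Nat.size_pos.2 ht; omega⟩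
  have h1 : 2 ^ k ≤ t := Nat.lt_size.1 (by omega)
  rw [hk, pow_succ]
  omega

theorem cE_le {q a1 a2 t : ℕ} {V : List ℕ} {E : List (ℕ × ℕ)} (hn : V.length ≤ t) (hE : E.length ≤ t)
    (hq : 0 < q) (ha2 : 0 < a2) : cE q a1 a2 V E ≤ pB (a1 + a2) q t := by
  unfold cE pB
  rw [Nat.size_le]
  have h1 : V.length + 1 ≤ 2 ^ t := le_trans (by omega) (Nat.succ_le_of_lt (Nat.lt_two_pow_self (n := t)))
  have h2 : a1 + a2 < 2 ^ (a1 + a2) := Nat.lt_two_pow_self
  have h3 : q ^ E.length ≤ 2 ^ (q * t) := by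
    calc q ^ E.length ≤ q ^ t := Nat.pow_le_pow_right hq hE
      _ ≤ (2 ^ q) ^ t := Nat.pow_le_pow_left (Nat.lt_two_pow_self).le t
      _ = 2 ^ (q * t) := (pow_mul 2 q t).symm
  calc 8 * (V.length + 1) * (a1 + a2) * q ^ E.length
      ≤ 8 * 2 ^ t * (a1 + a2) * 2 ^ (q * t) := by gcongr
    _ < 8 * 2 ^ t * 2 ^ (a1 + a2) * 2 ^ (q * t) := by gcongr
    _ = 2 ^ (3 + t + (a1 + a2) + q * t) := by
      rw [pow_add 2 (3 + t + (a1 + a2)) (q * t), pow_add 2 (3 + t) (a1 + a2), pow_add 2 3 t]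
      norm_num

theorem cE_ge (q a1 a2 : ℕ) (V : List ℕ) (E : List (ℕ × ℕ)) :
    8 * (V.length + 1) * (a1 + a2) * q ^ E.length ≤ 2 ^ cE q a1 a2 V E := (Nat.lt_size_self _).le

theorem cE_two {q a1 a2 : ℕ} {V : List ℕ} {E : List (ℕ × ℕ)} (hq : 0 < q) (ha2 : 0 < a2) :
    2 ^ cE q a1 a2 V E ≤ 2 * (8 * (V.length + 1) * (a1 + a2) * q ^ E.length) :=
  Top_sz2 (by positivity)

/-- the bits of a trial -/
theorem bits_le {q a1 a2 D t : ℕ} {V : List ℕ} {E : List (ℕ × ℕ)} (hn : V.length ≤ t) (hE : E.length ≤ t)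
    (hq : 0 < q) (ha2 : 0 < a2) :
    nbT (Nat.size t) (cE q a1 a2 V E) V.length (pT (a1 + a2) q D t) ≤ pM (a1 + a2) q D t := by
  unfold nbT pM nb1
  have h1 := cE_le (a1 := a1) hn hE hq ha2
  have h2 := Top_size t
  gcongr

private theorem Top_r {p q : ℕ} (hpq : p < q) : (1 : ℝ) / q ≤ 1 - (p : ℝ) / q ∧ 1 - (p : ℝ) / q ≤ 1 := by
  have hq : (0 : ℝ) < q := by
    have : 0 < q := by omega
    exact_mod_cast this
  have h1 : (p : ℝ) + 1 ≤ q := by exact_mod_cast hpq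
  constructor
  · rw [div_le_iff₀ hq]
    have : (1 - (p : ℝ) / q) * q = q - p := by field_simp
    rw [this]
    linarith
  · have : (0 : ℝ) ≤ (p : ℝ) / q := by positivity
    linarith

theorem c0_pos {p q b c : ℕ} {E : List (ℕ × ℕ)} (hpq : p < q) : 0 < c0M p q E b c := by
  have hq : (0 : ℝ) < q := by
    have : 0 < q := by omega
    exact_mod_cast this
  have h1 : 0 < 1 - (p : ℝ) / q := lt_of_lt_of_le (by positivity) (Top_r hpq).1
  unfold c0M
  positivity

/-- the constant of the mixing estimate is bounded by a polynomial -/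
theorem CM_bound {p q a1 a2 D t : ℕ} {V : List ℕ} {E : List (ℕ × ℕ)} {th : ℕ → ℝ} (hpq : p < q) (ha2 : 0 < a2)
    (hV : V ≠ []) (hn : V.length ≤ t) (ht : 0 < t) (hth : ∀ k, 1 ≤ th k)
    (hD : ∀ n : ℕ, 1 ≤ n → ∏ k ∈ Finset.Icc 3 n, th k ≤ D * (n : ℝ) ^ D) :
    1 ≤ CM th (c0M p q E (Nat.size t) (cE q a1 a2 V E)) V.length ∧
      CM th (c0M p q E (Nat.size t) (cE q a1 a2 V E)) V.length ≤ pC (a1 + a2) q D t := by
  have hq0 : 0 < q := by omega
  have hq : (0 : ℝ) < q := by exact_mod_cast hq0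
  have ht' : (1 : ℝ) ≤ t := by exact_mod_cast ht
  have hn1 : 1 ≤ V.length := List.length_pos_of_ne_nil hV
  have hn1' : (1 : ℝ) ≤ V.length := by exact_mod_cast hn1
  have hn' : (V.length : ℝ) ≤ t := by exact_mod_cast hn
  obtain ⟨hr1, hr2⟩ := Top_r hpq
  have hr0 : 0 < 1 - (p : ℝ) / q := lt_of_lt_of_le (by positivity) hr1
  have hc0 := c0_pos (p := p) (q := q) (b := Nat.size t) (c := cE q a1 a2 V E) (E := E) hpq
  have hP1 : 1 ≤ ∏ k ∈ Finset.Icc 3 V.length, th k := by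
    have h1 : ∀ s : Finset ℕ, 1 ≤ ∏ k ∈ s, th k := by
      intro s
      induction s using Finset.induction_on with
      | empty => simp
      | insert k s hk ih =>
        rw [Finset.prod_insert hk]
        exact one_le_mul_of_one_le_of_one_le (hth k) ih
    exact h1 _
  have hqm : (1 : ℝ) ≤ (q : ℝ) ^ E.length := by
    have : 1 ≤ q ^ E.length := Nat.one_le_pow _ _ hq0
    exact_mod_cast this
  have hb1 : (1 : ℝ) ≤ 2 ^ Nat.size t := one_le_pow₀ (by norm_num)
  have hc1 : (q : ℝ) ^ E.length ≤ 2 ^ cE q a1 a2 V E := by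
    have h1 := cE_ge q a1 a2 V E
    have h2 : q ^ E.length ≤ 8 * (V.length + 1) * (a1 + a2) * q ^ E.length :=
      Nat.le_mul_of_pos_left _ (by positivity)
    exact_mod_cast h2.trans h1
  have hb2 : (2 : ℝ) ^ Nat.size t ≤ 2 * t := by exact_mod_cast Top_sz2 ht
  have hc2 : (2 : ℝ) ^ cE q a1 a2 V E ≤ 2 * (8 * (V.length + 1) * (a1 + a2) * q ^ E.length) := by
    exact_mod_cast cE_two (a1 := a1) (V := V) (E := E) hq0 ha2
  constructor
  · unfold CM
    rw [le_div_iff₀ hc0, one_mul]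
    have h1 : c0M p q E (Nat.size t) (cE q a1 a2 V E) ≤ 1 := by
      unfold c0M
      rw [div_le_one (by positivity)]
      calc (1 - (p : ℝ) / q) ^ 2 * q ^ E.length ≤ 1 ^ 2 * 2 ^ cE q a1 a2 V E := by gcongr
        _ = 1 * 1 * 2 ^ cE q a1 a2 V E := by ring
        _ ≤ 24 * 2 ^ Nat.size t * 2 ^ cE q a1 a2 V E := by gcongr; norm_num
    have h2 : (1 : ℝ) ≤ 24 * V.length * (V.length + 1) * ∏ k ∈ Finset.Icc 3 V.length, th k := by
      have h3 : (1 : ℝ) * 1 * 1 * 1 ≤ 24 * V.length * (V.length + 1) * ∏ k ∈ Finset.Icc 3 V.length, th k := by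
        gcongr
        · norm_num
        · linarith
      linarith
    exact h1.trans h2
  · unfold CM
    rw [div_le_iff₀ hc0]
    have h1 := hD V.length hn1
    have h2 : (D : ℝ) * (V.length : ℝ) ^ D ≤ D * (t : ℝ) ^ D := by gcongr
    have h3 : 24 * (V.length : ℝ) * (V.length + 1) * ∏ k ∈ Finset.Icc 3 V.length, th k ≤
        24 * t * (2 * t) * (D * (t : ℝ) ^ D) := by
      have h4 : (V.length : ℝ) + 1 ≤ 2 * t := by linarith
      have h5 : (0 : ℝ) ≤ ∏ k ∈ Finset.Icc 3 V.length, th k := le_trans zero_le_one hP1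
      gcongr
      exact h1.trans h2
    refine h3.trans ?_
    have h6 : 1 / (24 * 2 * 2 * 8 * 2 * (a1 + a2) * q ^ 2 * (t : ℝ) ^ 2) ≤
        c0M p q E (Nat.size t) (cE q a1 a2 V E) := by
      have hA : (0 : ℝ) < (a1 : ℝ) + a2 := by
        have : 0 < a1 + a2 := by omega
        exact_mod_cast this
      unfold c0M
      rw [div_le_div_iff₀ (by positivity) (by positivity)]
      have h7 : (1 : ℝ) ≤ (1 - (p : ℝ) / q) ^ 2 * q ^ 2 := by
        have h8 : (1 : ℝ) ≤ (1 - (p : ℝ) / q) * q := by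
          have := (div_le_iff₀ hq).1 hr1
          linarith
        calc (1 : ℝ) = 1 ^ 2 := by ring
          _ ≤ ((1 - (p : ℝ) / q) * q) ^ 2 := by gcongr
          _ = _ := by ring
      have h9 : (V.length : ℝ) + 1 ≤ 2 * t := by linarith
      calc 1 * (24 * 2 ^ Nat.size t * (2 : ℝ) ^ cE q a1 a2 V E)
          ≤ 1 * (24 * (2 * t) * (2 * (8 * (V.length + 1) * (a1 + a2) * q ^ E.length))) := by gcongr
        _ ≤ 1 * (24 * (2 * t) * (2 * (8 * (2 * t) * (a1 + a2) * q ^ E.length))) := by gcongr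
        _ ≤ ((1 - (p : ℝ) / q) ^ 2 * q ^ 2) * (24 * (2 * t) * (2 * (8 * (2 * t) * (a1 + a2) * q ^ E.length))) := by
          gcongr
        _ = (1 - (p : ℝ) / q) ^ 2 * q ^ E.length * (24 * 2 * 2 * 8 * 2 * (a1 + a2) * q ^ 2 * (t : ℝ) ^ 2) := by ring
    have hA : (0 : ℝ) < (a1 : ℝ) + a2 := by
      have : 0 < a1 + a2 := by omega
      exact_mod_cast this
    have h10 : (0 : ℝ) ≤ (pC (a1 + a2) q D t : ℝ) := Nat.cast_nonneg _
    calc 24 * (t : ℝ) * (2 * t) * (D * (t : ℝ) ^ D)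
        = (pC (a1 + a2) q D t : ℝ) * (1 / (24 * 2 * 2 * 8 * 2 * (a1 + a2) * q ^ 2 * (t : ℝ) ^ 2)) := by
          unfold pC
          push_cast
          rw [pow_add]
          field_simp
          ring
      _ ≤ (pC (a1 + a2) q D t : ℝ) * c0M p q E (Nat.size t) (cE q a1 a2 V E) := by gcongr

/-- the probability of the start -/
theorem start_low {p q a1 a2 t : ℕ} {V : List ℕ} {E : List (ℕ × ℕ)} (hpq : p < q) (ha2 : 0 < a2) (hG : Gr V E)
    (hV : V ≠ []) (hn : V.length ≤ t) (hi : Hi p q a1 a2) (hT : 0 < T (YE p q E) (aR a1 a2) (V.toFinset, ∅)) :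
    1 / (2 : ℝ) ^ (t * pW (a1 + a2) q t) ≤ PrL (YE p q E) (aR a1 a2) (V.toFinset, ∅) (Phi (iniL a1 V E)) := by
  refine le_trans ?_ (ini_low hpq ha2 hG hV (hi E) hT)
  have hq0 : 0 < q := by omega
  have hq : (0 : ℝ) < q := by exact_mod_cast hq0
  have hn1 : 1 ≤ V.length := List.length_pos_of_ne_nil hV
  have hA0 : 0 < a1 + a2 := by omega
  obtain ⟨hr1, -⟩ := Top_r hpq
  have h1 : q * (V.length * 2 ^ (2 * V.length + 1) * (a1 + a2)) ≤ 2 ^ pW (a1 + a2) q t := by
    unfold pW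
    calc q * (V.length * 2 ^ (2 * V.length + 1) * (a1 + a2))
        ≤ 2 ^ q * (2 ^ t * 2 ^ (2 * t + 1) * 2 ^ (a1 + a2)) := by
          have g1 : q ≤ 2 ^ q := Nat.lt_two_pow_self.le
          have g2 : V.length ≤ 2 ^ t := hn.trans Nat.lt_two_pow_self.le
          have g3 : a1 + a2 ≤ 2 ^ (a1 + a2) := Nat.lt_two_pow_self.le
          have g4 : 2 ^ (2 * V.length + 1) ≤ 2 ^ (2 * t + 1) := Nat.pow_le_pow_right (by norm_num) (by omega)
          exact Nat.mul_le_mul g1 (Nat.mul_le_mul (Nat.mul_le_mul g2 g4) g3)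
      _ = 2 ^ (3 * t + 1 + (a1 + a2) + q) := by
        rw [← pow_add, ← pow_add, ← pow_add]
        congr 1
        ring
  have h1' : (q : ℝ) * (V.length * 2 ^ (2 * V.length + 1) * (a1 + a2)) ≤ 2 ^ pW (a1 + a2) q t := by exact_mod_cast h1
  have hn1' : (0 : ℝ) < V.length := by exact_mod_cast hn1
  have hA : (0 : ℝ) < (a1 : ℝ) + a2 := by exact_mod_cast hA0
  have h2 : 1 / (2 : ℝ) ^ pW (a1 + a2) q t ≤
      (1 - (p : ℝ) / q) / (V.length * 2 ^ (2 * V.length + 1) * (a1 + a2)) := by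
    calc 1 / (2 : ℝ) ^ pW (a1 + a2) q t ≤ 1 / ((q : ℝ) * (V.length * 2 ^ (2 * V.length + 1) * (a1 + a2))) := by
          gcongr
      _ = (1 / q) / (V.length * 2 ^ (2 * V.length + 1) * (a1 + a2)) := by
          rw [div_div]
      _ ≤ _ := by gcongr
  calc 1 / (2 : ℝ) ^ (t * pW (a1 + a2) q t) = (1 / (2 : ℝ) ^ pW (a1 + a2) q t) ^ t := by
        rw [mul_comm, pow_mul, one_div_pow]
    _ ≤ (1 / (2 : ℝ) ^ pW (a1 + a2) q t) ^ V.length := by
        refine pow_le_pow_of_le_one (by positivity) ?_ hn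
        rw [div_le_one (by positivity)]
        exact one_le_pow₀ (by norm_num)
    _ ≤ _ := by gcongr

/-- the convergence -/
theorem conv_low {CC : ℝ} {C S T : ℕ} (h1 : 1 ≤ CC) (h2 : CC ≤ C) (hT : T = C * S) :
    (1 - 1 / CC) ^ T ≤ 1 / (2 : ℝ) ^ S := by
  have h0 : 0 < CC := lt_of_lt_of_le one_pos h1
  have h3 : 0 ≤ 1 - 1 / CC := by
    rw [sub_nonneg, div_le_one h0]
    exact h1
  have h4 : 1 - 1 / CC ≤ Real.exp (-(1 / CC)) := by
    have := Real.add_one_le_exp (-(1 / CC))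
    linarith
  calc (1 - 1 / CC) ^ T ≤ (Real.exp (-(1 / CC))) ^ T := by gcongr
    _ = Real.exp (T * (-(1 / CC))) := (Real.exp_nat_mul _ _).symm
    _ ≤ Real.exp (-(S : ℝ)) := by
      apply Real.exp_le_exp.2
      rw [hT]
      push_cast
      have h5 : (S : ℝ) ≤ C * S * (1 / CC) := by
        have h6 : (1 : ℝ) ≤ C * (1 / CC) := by
          rw [mul_one_div, le_div_iff₀ h0, one_mul]
          exact h2
        nlinarith [Nat.cast_nonneg (α := ℝ) S]
      linarith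
    _ = 1 / (Real.exp 1) ^ S := by
      rw [← Real.exp_nat_mul, mul_one, Real.exp_neg, one_div]
    _ ≤ 1 / (2 : ℝ) ^ S := by
      have h7 : (2 : ℝ) ≤ Real.exp 1 := by
        have := Real.add_one_le_exp (1 : ℝ)
        linarith
      gcongr

/-- one trial is close to the mean of the observable -/
theorem mean_trial {p q a1 a2 D t m : ℕ} {V : List ℕ} {E : List (ℕ × ℕ)} {th : ℕ → ℝ} (hpq : p < q) (ha2 : 0 < a2)
    (hG : Gr V E) (h2n : 2 ≤ V.length) (hn : V.length ≤ t) (hE : E.length ≤ t) (hth : ∀ k, 1 ≤ th k)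
    (hD : ∀ n : ℕ, 1 ≤ n → ∏ k ∈ Finset.Icc 3 n, th k ≤ D * (n : ℝ) ^ D)
    (hmx : Mx p q a1 a2 th) (hi : Hi p q a1 a2) (hT : 0 < T (YE p q E) (aR a1 a2) (V.toFinset, ∅))
    (hm : pM (a1 + a2) q D t ≤ m) (w : Bool) (u v : ℕ) :
    |av m (fun l => (trial p q a1 a2 V E (Nat.size t) (cE q a1 a2 V E) (pT (a1 + a2) q D t) w u v l : ℝ)) -
      ExL (YE p q E) (aR a1 a2) V.length (V.toFinset, ∅) (fun l => if obP w u v l then 1 else 0)| ≤
        1 / (16 * (t : ℝ) ^ 4) := by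
  have hq0 : 0 < q := by omega
  have ht : 0 < t := by omega
  have hV : V ≠ [] := by
    intro h
    rw [h] at h2n
    simp at h2n
  have hb : V.length ≤ 2 ^ Nat.size t := hn.trans (Nat.lt_size_self t).le
  have hc := cE_ge q a1 a2 V E
  have hcard : V.toFinset.card = V.length := List.toFinset_card_of_nodup hG.1
  obtain ⟨hp, hvs⟩ := ini_pos hpq ha2 hG hV (hi E) hT
  have e1 : av m (fun l => (trial p q a1 a2 V E (Nat.size t) (cE q a1 a2 V E) (pT (a1 + a2) q D t) w u v l : ℝ)) =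
      (KL (YE p q E) (aR a1 a2) (kapM p q a2 V E (Nat.size t) (cE q a1 a2 V E))
        (ksM q a2 V E (Nat.size t) (cE q a1 a2 V E)))^[pT (a1 + a2) q D t]
        (fun l => if obP w u v l then 1 else 0) (Phi (iniL a1 V E)) := by
    rw [av_trial p q a1 a2 V E _ _ _ m w u v ((bits_le (a1 := a1) hn hE hq0 ha2).trans hm),
      ← site_iter hpq ha2 hG hb hc hp hvs (fun l => if obP w u v l then 1 else 0)]
    have h3 : ∀ (T : ℕ) (st : List Lt), Pos (YE p q E) (aR a1 a2) (V.toFinset, ∅) (Phi st) → VS st →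
        (KK (stU p q a1 a2 V E (Nat.size t) (cE q a1 a2 V E)))^[T] (fun st => if obsL w u v st then (1 : ℝ) else 0) st =
        (KK (stU p q a1 a2 V E (Nat.size t) (cE q a1 a2 V E)))^[T]
          (fun x => (fun l => if obP w u v l then (1 : ℝ) else 0) (Phi x)) st := by
      intro T
      induction T with
      | zero =>
        intro st hst _
        show (if obsL w u v st = true then (1 : ℝ) else 0) = if obP w u v (Phi st) then 1 else 0
        have h4 := obs_iff h2n hG.1 hst w u v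
        by_cases h5 : obP w u v (Phi st)
        · rw [if_pos h5, if_pos (h4.2 h5)]
        · rw [if_neg h5, if_neg (fun h => h5 (h4.1 h))]
      | succ T ih =>
        intro st hst hv
        rw [Function.iterate_succ_apply', Function.iterate_succ_apply']
        unfold KK
        congr 1
        refine Finset.sum_congr rfl fun z _ => ?_
        obtain ⟨g1, g2⟩ := pos_step (a1 := a1) hpq ha2 hG hst hv z
        exact ih _ g1 g2
    exact h3 _ _ hp hvs
  rw [e1]
  have hmix := hmx V E (Nat.size t) (cE q a1 a2 V E) hG hV hT hb hc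
    (fun l => if obP w u v l then 1 else 0) (fun l => by split_ifs <;> simp) (Phi (iniL a1 V E)) hp
    (pT (a1 + a2) q D t)
  rw [hcard] at hmix
  obtain ⟨hC1, hC2⟩ := CM_bound (a1 := a1) (E := E) (th := th) (D := D) hpq ha2 hV hn ht hth hD
  have hcv := conv_low (S := t * pW (a1 + a2) q t + 8 * t + 8) hC1 hC2 (rfl : pT (a1 + a2) q D t = _)
  have hst := start_low (t := t) hpq ha2 hG hV hn hi hT
  generalize (KL (YE p q E) (aR a1 a2) (kapM p q a2 V E (Nat.size t) (cE q a1 a2 V E))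
        (ksM q a2 V E (Nat.size t) (cE q a1 a2 V E)))^[pT (a1 + a2) q D t]
        (fun l => if obP w u v l then 1 else 0) (Phi (iniL a1 V E)) -
      ExL (YE p q E) (aR a1 a2) V.length (V.toFinset, ∅) (fun l => if obP w u v l then 1 else 0) = x at hmix ⊢
  have hx : x ^ 2 ≤ (1 / (16 * (t : ℝ) ^ 4)) ^ 2 := by
    have h5 : 1 / (2 : ℝ) ^ (t * pW (a1 + a2) q t) * x ^ 2 ≤ 1 / (2 : ℝ) ^ (t * pW (a1 + a2) q t + 8 * t + 8) :=
      le_trans (mul_le_mul_of_nonneg_right hst (sq_nonneg x)) (hmix.trans hcv)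
    have h6 : x ^ 2 ≤ 1 / (2 : ℝ) ^ (8 * t + 8) := by
      have h7 : (0 : ℝ) < 2 ^ (t * pW (a1 + a2) q t) := by positivity
      have h8 : (2 : ℝ) ^ (t * pW (a1 + a2) q t + 8 * t + 8) =
          2 ^ (t * pW (a1 + a2) q t) * 2 ^ (8 * t + 8) := by
        rw [← pow_add]
        congr 1
      rw [h8] at h5
      have h9 := mul_le_mul_of_nonneg_left h5 h7.le
      have e2 : (2 : ℝ) ^ (t * pW (a1 + a2) q t) * (1 / 2 ^ (t * pW (a1 + a2) q t) * x ^ 2) = x ^ 2 := by
        field_simp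
      have e3 : (2 : ℝ) ^ (t * pW (a1 + a2) q t) * (1 / (2 ^ (t * pW (a1 + a2) q t) * 2 ^ (8 * t + 8))) =
          1 / 2 ^ (8 * t + 8) := by
        field_simp
      rwa [e2, e3] at h9
    refine h6.trans ?_
    have ht' : (0 : ℝ) < t := by exact_mod_cast ht
    have h10 : (t : ℝ) ≤ 2 ^ t := by exact_mod_cast (Nat.lt_two_pow_self (n := t)).le
    have e4 : (1 / (16 * (t : ℝ) ^ 4)) ^ 2 = 1 / (256 * (t : ℝ) ^ 8) := by
      field_simp
      norm_num
    have e5 : (2 : ℝ) ^ (8 * t + 8) = 256 * (2 ^ t) ^ 8 := by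
      rw [pow_add, ← pow_mul, mul_comm t 8]
      norm_num
      ring
    rw [e4, e5]
    gcongr
  exact abs_le_of_sq_le_sq hx (by positivity)

/-- the estimate is close to the partition function -/
theorem est_top {p q a1 a2 D t : ℕ} {th : ℕ → ℝ} (hpq : p < q) (ha2 : 0 < a2) (hth : ∀ k, 1 ≤ th k)
    (hD : ∀ n : ℕ, 1 ≤ n → ∏ k ∈ Finset.Icc 3 n, th k ≤ D * (n : ℝ) ^ D)
    (hmx : Mx p q a1 a2 th) (hi : Hi p q a1 a2) {V : List ℕ} {E : List (ℕ × ℕ)} (hG : Gr V E) (hV : V ≠ [])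
    (hn : V.length ≤ t) (hE : E.length ≤ t) (h0 : 0 < tauM p q a1 a2 V E) :
    ACY.M.pr (E.length * (pK t * pM (a1 + a2) q D t)) (fun l =>
      ¬ ((est p q a1 a2 (Nat.size t) (pT (a1 + a2) q D t) (pM (a1 + a2) q D t) (pK t) E.length V E l).2 ≠ 0 ∧
        RC (1 / t)
          (((est p q a1 a2 (Nat.size t) (pT (a1 + a2) q D t) (pM (a1 + a2) q D t) (pK t) E.length V E l).1 : ℝ) /
          (est p q a1 a2 (Nat.size t) (pT (a1 + a2) q D t) (pM (a1 + a2) q D t) (pK t) E.length V E l).2)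
          (tauM p q a1 a2 V E))) ≤ 1 / 4 := by
  have hn1 : 1 ≤ V.length := List.length_pos_of_ne_nil hV
  have ht : 0 < t := by omega
  have ht' : (0 : ℝ) < t := by exact_mod_cast ht
  have ht1 : (1 : ℝ) ≤ t := by exact_mod_cast ht
  have hK : 0 < pK t := by unfold pK; positivity
  have hη : (0 : ℝ) < 1 / (2 * (t : ℝ) ^ 2) := by positivity
  have hη1 : 1 / (2 * (t : ℝ) ^ 2) ≤ 1 / 2 := by
    have : (1 : ℝ) ≤ (t : ℝ) ^ 2 := one_le_pow₀ ht1
    exact one_div_le_one_div_of_le (by norm_num) (by linarith)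
  have e0 : 1 / (2 * (t : ℝ) ^ 2) / (8 * (t : ℝ) ^ 2) = 1 / (16 * (t : ℝ) ^ 4) := by
    field_simp
    norm_num
  have h := pr_est (b := Nat.size t) (T := pT (a1 + a2) q D t) (m := pM (a1 + a2) q D t) (K := pK t) (t := t) (L := t)
    (a1 := a1) hpq ha2 hK hη hη1 (tauM p q a1 a2) (fun V E _ => tauM_nonneg hpq V E)
    (fun V h1 h2 => tauM_nil p q a1 a2 h1 h2) (fun V e E h1 => tauM_dc hpq h1)
    (fun V e E h1 h2 h3 h4 => by
      rw [e0, ← ex_obs_true hpq h1 h4]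
      exact mean_trial hpq ha2 h1 (two_le h1) h2 h3 hth hD hmx hi h4 le_rfl true e.1 e.2)
    (fun V e E h1 h2 h3 h4 => by
      rw [e0, ← ex_obs_false hpq h1 h4]
      exact mean_trial hpq ha2 h1 (two_le h1) h2 h3 hth hD hmx hi h4 le_rfl false e.1 e.2)
    E.length V E hG hV hn le_rfl hE h0
  have hEt : (E.length : ℝ) ≤ t := by exact_mod_cast hE
  refine le_trans (pr_mono fun l _ hl => ?_) (h.trans ?_)
  · intro h3
    apply hl
    refine ⟨h3.1, ?_⟩
    have h4 : 2 * (1 / (2 * (t : ℝ) ^ 2)) * (E.length : ℝ) ≤ 1 / (t : ℝ) := by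
      have h7 : 2 * (1 / (2 * (t : ℝ) ^ 2)) * (E.length : ℝ) ≤ 2 * (1 / (2 * (t : ℝ) ^ 2)) * (t : ℝ) := by gcongr
      have h8 : 2 * (1 / (2 * (t : ℝ) ^ 2)) * (t : ℝ) = 1 / (t : ℝ) := by field_simp
      rwa [h8] at h7
    obtain ⟨h5, h6⟩ := h3.2
    constructor
    · refine le_trans ?_ h5
      have : Real.exp (-(1 / (t : ℝ))) ≤ Real.exp (-(2 * (1 / (2 * (t : ℝ) ^ 2)) * E.length)) :=
        Real.exp_le_exp.2 (by linarith)
      gcongr
    · refine h6.trans ?_
      gcongr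
  · have e1 : (E.length : ℝ) * (128 * (t : ℝ) ^ 4 / ((pK t : ℕ) * (1 / (2 * (t : ℝ) ^ 2)) ^ 2)) =
        E.length * (1 / (4 * t)) := by
      unfold pK
      push_cast
      field_simp
      ring
    rw [e1]
    calc (E.length : ℝ) * (1 / (4 * t)) ≤ t * (1 / (4 * t)) := by gcongr
      _ = 1 / 4 := by field_simp

end BSI.M
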